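import Mathlib
import Pool.Agent.Lib.MP_c95b3b_ag_L3.Defs

set_option autoImplicit false

/-! Project SD (MP_c95b3b_ag): bounded heights and unlikely intersections for varieties of
arbitrary dimension. Definitions. -/

namespace Pool.Agent.SD

open MvPolynomial Filter Topology Module Pool.Agent.L3

/-! ### Monomials -/

/-- integer vectors as real vectors -/
def rv {n : ℕ} (a : Fin n → ℤ) : Fin n → ℝ := fun i => (a i : ℝ)

/-- the monomial `x^a` -/
noncomputable def mn {F : Type} [Field F] {n : ℕ} (x : Fin n → F) (a : Fin n → ℤ) : F :=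
  ∏ i, x i ^ a i

/-- the monomials `x^(β l)` -/
noncomputable def mm {F : Type} [Field F] {n m : ℕ} (β : Fin m → Fin n → ℤ) (x : Fin n → F) :
    Fin m → F := fun l => mn x (β l)

/-- the integer combination `∑ l, c l * β l` -/
def cmb {m n : ℕ} (β : Fin m → Fin n → ℤ) (c : Fin m → ℤ) : Fin n → ℤ :=
  fun i => ∑ l, c l * β l i

/-- the real combination `∑ l, c l * β l` -/
noncomputable def cmbR {m n : ℕ} (β : Fin m → Fin n → ℤ) (c : Fin m → ℝ) : Fin n → ℝ :=
  fun i => ∑ l, c l * (β l i : ℝ)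

/-! ### Sequences of points -/

/-- a sequence of points with coordinates in fields with finitely many places -/
structure Sq (n : ℕ) where
  K : ℕ → Type
  [fld : ∀ ν, Field (K ν)]
  R : ∀ ν, Subring (K ν)
  W : ∀ ν, Places (K ν) (R ν)
  p : ∀ ν, Fin n → K ν
  ne : ∀ ν i, p ν i ≠ 0
  mem : ∀ ν i, p ν i ∈ R ν
  inv : ∀ ν i, (p ν i)⁻¹ ∈ R ν

attribute [instance] Sq.fld

namespace Sq
variable {n : ℕ} (S : Sq n)

/-- the vector `(log |p i|_w)` -/
noncomputable def lam (ν : ℕ) (w : (S.W ν).Pl) (i : Fin n) : ℝ := (S.W ν).lg w (S.p ν i)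

/-- the average of `|b . lam w|` over the places (twice the height of `p^b` for integral `b`) -/
noncomputable def ht (b : Fin n → ℝ) (ν : ℕ) : ℝ :=
  (S.W ν).avg (fun w => |b ⬝ᵥ S.lam ν w|)

/-- the complex point `σ(p)` -/
noncomputable def pt (ν : ℕ) (σ : Fin (S.W ν).D) (i : Fin n) : ℂ := (S.W ν).σ σ (S.p ν i)

end Sq

theorem mn_ne_zero {F : Type} [Field F] {n : ℕ} {x : Fin n → F} (hx : ∀ i, x i ≠ 0)
    (a : Fin n → ℤ) : mn x a ≠ 0 :=
  Finset.prod_ne_zero_iff.mpr fun i _ => zpow_ne_zero _ (hx i)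

theorem zpow_mem_R {F : Type} [Field F] {R : Subring F} {y : F} (h : y ∈ R) (h' : y⁻¹ ∈ R)
    (k : ℤ) : y ^ k ∈ R := by
  rcases k with k | k
  · rw [Int.ofNat_eq_natCast, zpow_natCast]
    exact R.pow_mem h k
  · rw [zpow_negSucc, ← inv_pow]
    exact R.pow_mem h' _

theorem mn_mem {F : Type} [Field F] {R : Subring F} {n : ℕ} {x : Fin n → F}
    (h : ∀ i, x i ∈ R) (h' : ∀ i, (x i)⁻¹ ∈ R) (a : Fin n → ℤ) : mn x a ∈ R :=
  R.prod_mem fun i _ => zpow_mem_R (h i) (h' i) (a i)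

theorem mn_inv_mem {F : Type} [Field F] {R : Subring F} {n : ℕ} {x : Fin n → F}
    (h : ∀ i, x i ∈ R) (h' : ∀ i, (x i)⁻¹ ∈ R) (a : Fin n → ℤ) : (mn x a)⁻¹ ∈ R := by
  rw [mn, ← Finset.prod_inv_distrib]
  refine R.prod_mem fun i _ => ?_
  rw [← zpow_neg]
  exact zpow_mem_R (h i) (h' i) _

/-- the image of a sequence of points under a monomial map -/
noncomputable def Sq.map {n m : ℕ} (S : Sq n) (β : Fin m → Fin n → ℤ) : Sq m where
  K := S.K
  R := S.R
  W := S.W
  p := fun ν => mm β (S.p ν)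
  ne := fun ν l => mn_ne_zero (S.ne ν) (β l)
  mem := fun ν l => mn_mem (S.mem ν) (S.inv ν) (β l)
  inv := fun ν l => mn_inv_mem (S.mem ν) (S.inv ν) (β l)

/-- the sequence of points converges generically to `x`: almost all of its points satisfy exactly
the algebraic relations (over the integers) of `x` -/
def Gn {n : ℕ} (𝓤 : Ultrafilter ℕ) (S : Sq n) {L : Type} [Field L] (x : Fin n → L) : Prop :=
  ∀ F : MvPolynomial (Fin n) ℤ, (∀ᶠ ν in (𝓤 : Filter ℕ), aeval (S.p ν) F = 0) ↔ aeval x F = 0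

/-! ### The generic point of a complex variety -/

section
variable {L : Type} [Field L] [Algebra ℂ L] {n : ℕ}

/-- the logarithmic form `∑ b i * dlog (x i)`, as a functional of the derivations -/
noncomputable def om (x : Fin n → L) (b : Fin n → ℝ) : Derivation ℂ L L →ₗ[L] L where
  toFun D := ∑ i, algebraMap ℂ L (b i : ℂ) * (D (x i) / x i)
  map_add' D D' := by
    rw [← Finset.sum_add_distrib]
    exact Finset.sum_congr rfl fun i _ => by
      rw [Derivation.add_apply]
      ring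
  map_smul' c D := by
    rw [RingHom.id_apply, smul_eq_mul, Finset.mul_sum]
    exact Finset.sum_congr rfl fun i _ => by
      rw [Derivation.smul_apply, smul_eq_mul]
      ring

/-- the rank of a set of logarithmic forms -/
noncomputable def rk (x : Fin n → L) (A : Set (Fin n → ℝ)) : ℕ :=
  finrank L (Submodule.span L (om x '' A))

/-- the dimension of the closure of the set of the points `x` -/
noncomputable def dm (x : Fin n → L) : ℕ := rk x Set.univ

/-- the dimension of the image under the monomials in `Λ` -/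
noncomputable def rkZ (x : Fin n → L) (Λ : Submodule ℤ (Fin n → ℤ)) : ℕ :=
  rk x (rv '' (Λ : Set (Fin n → ℤ)))

/-- `Λ` contains all monomials which are algebraic over the monomials in `Λ` -/
def Full (x : Fin n → L) (Λ : Submodule ℤ (Fin n → ℤ)) : Prop :=
  ∀ a : Fin n → ℤ, om x (rv a) ∈ Submodule.span L (om x '' (rv '' (Λ : Set (Fin n → ℤ)))) →
    a ∈ Λ

/-- linear relations with complex coefficients between values of integral polynomials imply
relations with algebraic coefficients (the variety is defined over the algebraic numbers) -/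
def AD (x : Fin n → L) : Prop :=
  ∀ (m : ℕ) (F : Fin m → MvPolynomial (Fin n) ℤ) (c : Fin m → ℂ), c ≠ 0 →
    ∑ i, algebraMap ℂ L (c i) * aeval x (F i) = 0 →
    ∃ c' : Fin m → ℂ, c' ≠ 0 ∧ (∀ i, IsAlgebraic ℚ (c' i)) ∧
      ∑ i, algebraMap ℂ L (c' i) * aeval x (F i) = 0

/-- `z` is a point of the variety with generic point `x` -/
def OnY (x : Fin n → L) (z : Fin n → ℂ) : Prop :=
  (∀ i, z i ≠ 0) ∧ ∀ F : MvPolynomial (Fin n) ℂ, aeval x F = 0 → eval z F = 0

/-- real points of `ℂ^d` -/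
def rc {d : ℕ} (t : Fin d → ℝ) : Fin d → ℂ := fun i => (t i : ℂ)

/-- there is a chart of the variety (of dimension `d`) such that the conditions
`∑ l, b i l * log |z l| = 0` hold at all its real points -/
def Circ (x : Fin n → L) {d k : ℕ} (b : Fin k → Fin n → ℝ) : Prop :=
  ∃ ψ : (Fin d → ℂ) → Fin n → ℂ, AnalyticOnNhd ℂ ψ (Metric.ball 0 1) ∧
    (∀ w ∈ Metric.ball (0 : Fin d → ℂ) 1, OnY x (ψ w)) ∧
    Function.Injective (fderiv ℂ ψ 0) ∧
    ∀ t : Fin d → ℝ, rc t ∈ Metric.ball (0 : Fin d → ℂ) 1 → ∀ i,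
      ∑ l, b i l * Real.log ‖ψ (rc t) l‖ = 0

/-- no chart of the variety or of one of its images under monomial maps (dimension `d`) has all
its real points on `d + 1` independent real multiplicative conditions -/
def NC (x : Fin n → L) : Prop :=
  ∀ (m d : ℕ) (β : Fin m → Fin n → ℤ), LinearIndependent ℤ β → dm (mm β x) = d → 0 < d →
    ∀ b : Fin (d + 1) → Fin m → ℝ, LinearIndependent ℝ b → ¬ Circ (d := d) (mm β x) b

/-- a chart of the variety with generic point `x` near the point `z0`, the coordinates of the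
chart are the coordinates `κ` of the points -/
structure Chart (x : Fin n → L) {d : ℕ} (κ : Fin d → Fin n) (z0 : Fin n → ℂ) where
  U : Set (Fin d → ℂ)
  isOpen : IsOpen U
  preconn : IsPreconnected U
  t0 : Fin d → ℂ
  t0_mem : t0 ∈ U
  ψ : (Fin d → ℂ) → Fin n → ℂ
  an : AnalyticOnNhd ℂ ψ U
  base : ψ t0 = z0
  on : ∀ t ∈ U, OnY x (ψ t)
  coord : ∀ t ∈ U, ∀ j, ψ t (κ j) = t j
  O : Set (Fin n → ℂ)
  O_open : IsOpen O
  O_mem : z0 ∈ O
  cover : ∀ z ∈ O, OnY x z → (fun j => z (κ j)) ∈ U ∧ ψ (fun j => z (κ j)) = z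
  gen : ∀ F : MvPolynomial (Fin n) ℂ, aeval x F ≠ 0 → ∀ U' : Set (Fin d → ℂ), IsOpen U' →
    U' ⊆ U → U'.Nonempty → ∃ t ∈ U', eval (ψ t) F ≠ 0

end

/-! ### Null sets -/

/-- small neighbourhoods of `A` contain a small proportion of the conjugates of almost all points
of the sequence -/
def Null {n : ℕ} (𝓤 : Ultrafilter ℕ) (S : Sq n) (A : Set (Fin n → ℂ)) : Prop :=
  ∀ θ : ℝ, 0 < θ → ∃ O : Set (Fin n → ℂ), IsOpen O ∧ A ⊆ O ∧ ∀ᶠ ν in (𝓤 : Filter ℕ),
    (Nat.card {σ : Fin (S.W ν).D // S.pt ν σ ∈ O} : ℝ) ≤ θ * (S.W ν).D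

/-- countable unions of null sets -/
def NullC {n : ℕ} (𝓤 : Ultrafilter ℕ) (S : Sq n) (A : Set (Fin n → ℂ)) : Prop :=
  ∃ f : ℕ → Set (Fin n → ℂ), (∀ m, Null 𝓤 S (f m)) ∧ A ⊆ ⋃ m, f m

end Pool.Agent.SD
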