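import Mathlib
import Pool.Agent.Lib.MP_c95b3b_ag_SD.Defs

set_option autoImplicit false

/-! Project SD (MP_c95b3b_ag), module MAP: monomial maps, heights. -/

namespace Pool.Agent.SD

open MvPolynomial Filter Topology Module Pool.Agent.L3

/-! ### monomials -/

section
variable {F : Type} [Field F] {n m : ℕ} {x : Fin n → F}

theorem mn_zero (x : Fin n → F) : mn x 0 = 1 := by
  simp [mn]

theorem mn_add (hx : ∀ i, x i ≠ 0) (a b : Fin n → ℤ) : mn x (a + b) = mn x a * mn x b := by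
  rw [mn, mn, mn, ← Finset.prod_mul_distrib]
  exact Finset.prod_congr rfl fun i _ => by rw [Pi.add_apply, zpow_add₀ (hx i)]

theorem mn_neg (x : Fin n → F) (a : Fin n → ℤ) : mn x (-a) = (mn x a)⁻¹ := by
  rw [mn, mn, ← Finset.prod_inv_distrib]
  exact Finset.prod_congr rfl fun i _ => by rw [Pi.neg_apply, zpow_neg]

theorem mn_sub (hx : ∀ i, x i ≠ 0) (a b : Fin n → ℤ) : mn x (a - b) = mn x a / mn x b := by
  rw [sub_eq_add_neg, mn_add hx, mn_neg, div_eq_mul_inv]

theorem mn_zsmul (hx : ∀ i, x i ≠ 0) (k : ℤ) (a : Fin n → ℤ) : mn x (k • a) = mn x a ^ k := by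
  have _ := hx
  rw [mn, mn, ← Finset.prod_zpow]
  exact Finset.prod_congr rfl fun i _ => by
    rw [Pi.smul_apply, smul_eq_mul, mul_comm, zpow_mul]

theorem mn_sum (hx : ∀ i, x i ≠ 0) {ι : Type} (s : Finset ι) (a : ι → Fin n → ℤ) :
    mn x (∑ j ∈ s, a j) = ∏ j ∈ s, mn x (a j) := by
  classical
  induction s using Finset.induction_on with
  | empty => rw [Finset.sum_empty, Finset.prod_empty, mn_zero]
  | insert j s hj ih => rw [Finset.sum_insert hj, Finset.prod_insert hj, mn_add hx, ih]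

theorem mn_single (x : Fin n → F) (i : Fin n) : mn x (Pi.single i 1) = x i := by
  classical
  rw [mn, Finset.prod_eq_single i]
  · rw [Pi.single_eq_same, zpow_one]
  · intro j _ hj
    rw [Pi.single_eq_of_ne hj, zpow_zero]
  · intro h
    exact absurd (Finset.mem_univ i) h

theorem mn_mm (hx : ∀ i, x i ≠ 0) (β : Fin m → Fin n → ℤ) (c : Fin m → ℤ) :
    mn (mm β x) c = mn x (cmb β c) := by
  have h : cmb β c = ∑ l, c l • β l := by
    funext i
    rw [Finset.sum_apply]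
    rfl
  rw [h, mn_sum hx, mn]
  exact Finset.prod_congr rfl fun l _ => by rw [mn_zsmul hx]; rfl

theorem mm_mm (hx : ∀ i, x i ≠ 0) (β : Fin m → Fin n → ℤ) {r : ℕ} (γ : Fin r → Fin m → ℤ) :
    mm γ (mm β x) = mm (fun j => cmb β (γ j)) x := by
  funext j
  exact mn_mm hx β (γ j)

theorem mm_ne_zero (hx : ∀ i, x i ≠ 0) (β : Fin m → Fin n → ℤ) (l : Fin m) : mm β x l ≠ 0 :=
  mn_ne_zero hx _

/-- monomials with nonnegative exponents -/
theorem mn_ofNat (x : Fin n → F) (a : Fin n → ℕ) :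
    mn x (fun i => (a i : ℤ)) = ∏ i, x i ^ a i := by
  rw [mn]
  exact Finset.prod_congr rfl fun i _ => zpow_natCast _ _

theorem map_mn {G : Type} [Field G] (φ : F →+* G) (a : Fin n → ℤ) :
    φ (mn x a) = mn (fun i => φ (x i)) a := by
  rw [mn, mn, map_prod]
  exact Finset.prod_congr rfl fun i _ => map_zpow₀ φ _ _

end

theorem rv_zero {n : ℕ} : rv (0 : Fin n → ℤ) = 0 := by
  funext i
  simp [rv]

theorem rv_add {n : ℕ} (a b : Fin n → ℤ) : rv (a + b) = rv a + rv b := by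
  funext i
  simp [rv]

theorem rv_neg {n : ℕ} (a : Fin n → ℤ) : rv (-a) = -rv a := by
  funext i
  simp [rv]

theorem rv_sub {n : ℕ} (a b : Fin n → ℤ) : rv (a - b) = rv a - rv b := by
  funext i
  simp [rv]

theorem rv_zsmul {n : ℕ} (k : ℤ) (a : Fin n → ℤ) : rv (k • a) = (k : ℝ) • rv a := by
  funext i
  simp [rv]

theorem rv_sum {n : ℕ} {ι : Type} (s : Finset ι) (a : ι → Fin n → ℤ) :
    rv (∑ j ∈ s, a j) = ∑ j ∈ s, rv (a j) := by
  funext i
  simp only [rv, Finset.sum_apply]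
  push_cast
  rfl

theorem rv_single {n : ℕ} (i : Fin n) : rv (Pi.single i 1) = Pi.single i (1 : ℝ) := by
  funext j
  by_cases h : j = i
  · subst h
    simp [rv]
  · simp [rv, Pi.single_eq_of_ne h]

theorem rv_injective {n : ℕ} : Function.Injective (rv : (Fin n → ℤ) → Fin n → ℝ) := by
  intro a b h
  funext i
  have := congrFun h i
  simpa [rv] using this

theorem rv_cmb {m n : ℕ} (β : Fin m → Fin n → ℤ) (c : Fin m → ℤ) :
    rv (cmb β c) = cmbR β (rv c) := by
  funext i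
  simp only [rv, cmb, cmbR]
  push_cast
  rfl

/-- `cmbR β` as a linear map -/
noncomputable def cmbL {m n : ℕ} (β : Fin m → Fin n → ℤ) : (Fin m → ℝ) →ₗ[ℝ] (Fin n → ℝ) where
  toFun := cmbR β
  map_add' c c' := by
    funext i
    simp only [cmbR, Pi.add_apply, add_mul, Finset.sum_add_distrib]
  map_smul' r c := by
    funext i
    simp only [cmbR, Pi.smul_apply, smul_eq_mul, RingHom.id_apply, Finset.mul_sum, mul_assoc]

theorem cmbL_apply {m n : ℕ} (β : Fin m → Fin n → ℤ) (c : Fin m → ℝ) : cmbL β c = cmbR β c := rfl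

namespace Map

theorem cmbR_eq {m n : ℕ} (β : Fin m → Fin n → ℤ) (c : Fin m → ℝ) :
    cmbR β c = ∑ l, c l • rv (β l) := by
  funext i
  rw [Finset.sum_apply]
  rfl

theorem cmb_eq {m n : ℕ} (β : Fin m → Fin n → ℤ) (c : Fin m → ℤ) :
    cmb β c = ∑ l, c l • β l := by
  funext i
  rw [Finset.sum_apply]
  rfl

theorem rv_li {m n : ℕ} {β : Fin m → Fin n → ℤ} (hβ : LinearIndependent ℤ β) :
    LinearIndependent ℝ (fun l => rv (β l)) := by
  have h1 : LinearIndependent ℝ (fun j => algebraMap ℤ ℝ ∘ β j) :=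
    linearIndependent_algebraMap_comp_iff.2 hβ
  exact h1

end Map

theorem cmbL_injective {m n : ℕ} {β : Fin m → Fin n → ℤ} (hβ : LinearIndependent ℤ β) :
    Function.Injective (cmbL β) := by
  have h := Fintype.linearIndependent_iff.1 (Map.rv_li hβ)
  rw [injective_iff_map_eq_zero]
  intro c hc
  rw [cmbL_apply, Map.cmbR_eq] at hc
  funext l
  exact h c hc l

theorem cmb_injective {m n : ℕ} {β : Fin m → Fin n → ℤ} (hβ : LinearIndependent ℤ β) :
    Function.Injective (cmb β) := by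
  intro c c' h
  apply rv_injective
  apply cmbL_injective hβ
  rw [cmbL_apply, cmbL_apply, ← rv_cmb, ← rv_cmb, h]

/-- independent integer vectors are independent real vectors -/
theorem rv_linearIndependent {m n : ℕ} {β : Fin m → Fin n → ℤ} (hβ : LinearIndependent ℤ β) :
    LinearIndependent ℝ (fun l => rv (β l)) := Map.rv_li hβ

theorem cmb_linearIndependent {m n r : ℕ} {β : Fin m → Fin n → ℤ} (hβ : LinearIndependent ℤ β)
    {γ : Fin r → Fin m → ℤ} (hγ : LinearIndependent ℤ γ) :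
    LinearIndependent ℤ (fun j => cmb β (γ j)) := by
  rw [Fintype.linearIndependent_iff] at hγ ⊢
  intro g hg
  refine hγ g ?_
  apply cmb_injective hβ
  have h0 : cmb β 0 = 0 := by
    funext i
    simp [cmb]
  rw [h0, ← hg]
  funext i
  simp only [cmb, Finset.sum_apply, Pi.smul_apply, smul_eq_mul, Finset.sum_mul, Finset.mul_sum]
  rw [Finset.sum_comm]
  exact Finset.sum_congr rfl fun j _ => Finset.sum_congr rfl fun l _ => by ring

/-! ### heights -/

section
variable {n : ℕ} (S : Sq n)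

theorem dot_lam (a : Fin n → ℤ) (ν : ℕ) (w : (S.W ν).Pl) :
    rv a ⬝ᵥ S.lam ν w = (S.W ν).lg w (mn (S.p ν) a) := by
  have h : ∀ s : Finset (Fin n), (S.W ν).lg w (∏ i ∈ s, S.p ν i ^ a i) =
      ∑ i ∈ s, (a i : ℝ) * (S.W ν).lg w (S.p ν i) := by
    classical
    intro s
    induction s using Finset.induction_on with
    | empty => rw [Finset.prod_empty, Finset.sum_empty, Places.lg_one]
    | insert j s hj ih =>
      rw [Finset.prod_insert hj, Finset.sum_insert hj,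
        Places.lg_mul _ _ (zpow_ne_zero _ (S.ne ν j))
          (Finset.prod_ne_zero_iff.mpr fun i _ => zpow_ne_zero _ (S.ne ν i)), ih, Places.lg_zpow]
  rw [mn, h]
  rfl

theorem ht_nonneg (b : Fin n → ℝ) (ν : ℕ) : 0 ≤ S.ht b ν :=
  Places.avg_nonneg _ fun _ => abs_nonneg _

theorem ht_add_le (b c : Fin n → ℝ) (ν : ℕ) : S.ht (b + c) ν ≤ S.ht b ν + S.ht c ν := by
  rw [Sq.ht, Sq.ht, Sq.ht, ← Places.avg_add]
  refine Places.avg_mono _ fun w => ?_
  rw [add_dotProduct]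
  exact abs_add_le _ _

theorem ht_smul (r : ℝ) (b : Fin n → ℝ) (ν : ℕ) : S.ht (r • b) ν = |r| * S.ht b ν := by
  rw [Sq.ht, Sq.ht, ← Places.avg_mul]
  congr 1
  funext w
  rw [smul_dotProduct, smul_eq_mul, abs_mul]

theorem ht_zero (ν : ℕ) : S.ht 0 ν = 0 := by
  have h := ht_smul S 0 0 ν
  rw [smul_zero, abs_zero, zero_mul] at h
  exact h

theorem ht_neg (b : Fin n → ℝ) (ν : ℕ) : S.ht (-b) ν = S.ht b ν := by
  have h := ht_smul S (-1) b ν
  rw [neg_smul, one_smul, abs_neg, abs_one, one_mul] at h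
  exact h

namespace Map

theorem ht_sum_le {ι : Type} (s : Finset ι) (b : ι → Fin n → ℝ) (ν : ℕ) :
    S.ht (∑ j ∈ s, b j) ν ≤ ∑ j ∈ s, S.ht (b j) ν := by
  classical
  induction s using Finset.induction_on with
  | empty => rw [Finset.sum_empty, Finset.sum_empty, ht_zero]
  | insert j s hj ih =>
    rw [Finset.sum_insert hj, Finset.sum_insert hj]
    exact (ht_add_le S _ _ ν).trans (add_le_add le_rfl ih)

end Map

theorem ht_le (b : Fin n → ℝ) (ν : ℕ) :
    S.ht b ν ≤ ∑ i, |b i| * S.ht (rv (Pi.single i 1)) ν := by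
  have h : b = ∑ i, b i • rv (Pi.single i 1) := by
    funext j
    rw [Finset.sum_apply, Finset.sum_eq_single j]
    · rw [rv_single, Pi.smul_apply, Pi.single_eq_same, smul_eq_mul, mul_one]
    · intro i _ hi
      rw [rv_single, Pi.smul_apply, Pi.single_eq_of_ne hi.symm, smul_zero]
    · intro h
      exact absurd (Finset.mem_univ j) h
  calc S.ht b ν = S.ht (∑ i, b i • rv (Pi.single i 1)) ν := by rw [← h]
    _ ≤ ∑ i, S.ht (b i • rv (Pi.single i 1)) ν := Map.ht_sum_le S _ _ ν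
    _ = ∑ i, |b i| * S.ht (rv (Pi.single i 1)) ν :=
      Finset.sum_congr rfl fun i _ => ht_smul S _ _ ν

/-- twice the height of a monomial -/
theorem ht_eq_two_mul (a : Fin n → ℤ) (ν : ℕ) :
    S.ht (rv a) ν = 2 * (S.W ν).avg (fun w => max 0 ((S.W ν).lg w (mn (S.p ν) a))) := by
  have h0 : (S.W ν).avg (fun w => (S.W ν).lg w (mn (S.p ν) a)) = 0 :=
    Places.avg_lg_unit _ (mn_ne_zero (S.ne ν) a) (mn_mem (S.mem ν) (S.inv ν) a)
      (mn_inv_mem (S.mem ν) (S.inv ν) a)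
  have h1 : S.ht (rv a) ν = (S.W ν).avg (fun w =>
      2 * max 0 ((S.W ν).lg w (mn (S.p ν) a)) - (S.W ν).lg w (mn (S.p ν) a)) := by
    rw [Sq.ht]
    congr 1
    funext w
    rw [dot_lam]
    rcases le_total 0 ((S.W ν).lg w (mn (S.p ν) a)) with h | h
    · rw [max_eq_right h, abs_of_nonneg h]
      ring
    · rw [max_eq_left h, abs_of_nonpos h]
      ring
  rw [h1, Places.avg_sub, Places.avg_mul, h0, sub_zero]

theorem map_lam {m : ℕ} (β : Fin m → Fin n → ℤ) (ν : ℕ) (w : (S.W ν).Pl) (l : Fin m) :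
    (S.map β).lam ν w l = rv (β l) ⬝ᵥ S.lam ν w := by
  rw [dot_lam]
  rfl

theorem map_dot {m : ℕ} (β : Fin m → Fin n → ℤ) (c : Fin m → ℝ) (ν : ℕ) (w : (S.W ν).Pl) :
    c ⬝ᵥ (S.map β).lam ν w = cmbR β c ⬝ᵥ S.lam ν w := by
  rw [Map.cmbR_eq, sum_dotProduct, dotProduct]
  refine Finset.sum_congr rfl fun l _ => ?_
  rw [smul_dotProduct, smul_eq_mul, ← map_lam]

theorem map_ht {m : ℕ} (β : Fin m → Fin n → ℤ) (c : Fin m → ℝ) (ν : ℕ) :
    (S.map β).ht c ν = S.ht (cmbR β c) ν := by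
  rw [Sq.ht, Sq.ht]
  have h : (fun w : (S.W ν).Pl => |c ⬝ᵥ (S.map β).lam ν w|) =
      fun w => |cmbR β c ⬝ᵥ S.lam ν w| := by
    funext w
    rw [map_dot]
  exact congrArg (S.W ν).avg h

theorem map_pt {m : ℕ} (β : Fin m → Fin n → ℤ) (ν : ℕ) (σ : Fin (S.W ν).D) :
    (S.map β).pt ν σ = mm β (S.pt ν σ) := by
  funext l
  exact map_mn ((S.W ν).σ σ) (β l)

theorem pt_ne_zero (ν : ℕ) (σ : Fin (S.W ν).D) (i : Fin n) : S.pt ν σ i ≠ 0 := by
  rw [Sq.pt]
  exact (map_ne_zero _).2 (S.ne ν i)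

theorem lam_inl (ν : ℕ) (σ : Fin (S.W ν).D) (i : Fin n) :
    S.lam ν (.inl σ) i = Real.log ‖S.pt ν σ i‖ := rfl

end

/-! ### generic points and forms -/

namespace Map

/-- polynomials in monomials become polynomials after multiplication with a monomial -/
theorem exists_poly {A : Type} [CommRing A] {ι : Type} [Fintype ι] {n : ℕ}
    (β : ι → Fin n → ℤ) (F : MvPolynomial ι A) :
    ∃ N0 : ℕ, ∀ N : ℕ, N0 ≤ N → ∃ F' : MvPolynomial (Fin n) A,
      ∀ (G : Type) [Field G] [Algebra A G] (y : Fin n → G), (∀ i, y i ≠ 0) →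
        aeval y F' = (∏ i, y i) ^ N * aeval (fun j => mn y (β j)) F := by
  classical
  induction F using MvPolynomial.induction_on with
  | C a =>
    refine ⟨0, fun N _ => ⟨(∏ i, X i) ^ N * C a, fun G _ _ y _ => ?_⟩⟩
    rw [map_mul, map_pow, map_prod, aeval_C, aeval_C]
    congr 2
    exact Finset.prod_congr rfl fun i _ => aeval_X y i
  | add p q hp hq =>
    obtain ⟨N1, h1⟩ := hp
    obtain ⟨N2, h2⟩ := hq
    refine ⟨max N1 N2, fun N hN => ?_⟩
    obtain ⟨p', hp'⟩ := h1 N ((le_max_left _ _).trans hN)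
    obtain ⟨q', hq'⟩ := h2 N ((le_max_right _ _).trans hN)
    refine ⟨p' + q', fun G _ _ y hy => ?_⟩
    rw [map_add, map_add, hp' G y hy, hq' G y hy, mul_add]
  | mul_X p j hp =>
    obtain ⟨N1, h1⟩ := hp
    obtain ⟨M, hM⟩ : ∃ M : ℕ, ∀ i, 0 ≤ (M : ℤ) + β j i := by
      refine ⟨∑ i, (β j i).natAbs, fun i => ?_⟩
      have h3 : (β j i).natAbs ≤ ∑ i, (β j i).natAbs :=
        Finset.single_le_sum (f := fun i => (β j i).natAbs) (fun _ _ => Nat.zero_le _)
          (Finset.mem_univ i)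
      omega
    refine ⟨N1 + M, fun N hN => ?_⟩
    obtain ⟨p', hp'⟩ := h1 (N - M) (by omega)
    refine ⟨p' * ∏ i, X i ^ ((M : ℤ) + β j i).toNat, fun G _ _ y hy => ?_⟩
    have h4 : aeval y (∏ i, X i ^ ((M : ℤ) + β j i).toNat : MvPolynomial (Fin n) A) =
        (∏ i, y i) ^ M * mn y (β j) := by
      rw [map_prod, mn, ← Finset.prod_pow, ← Finset.prod_mul_distrib]
      refine Finset.prod_congr rfl fun i _ => ?_
      rw [map_pow, aeval_X, ← zpow_natCast, Int.toNat_of_nonneg (hM i), zpow_add₀ (hy i),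
        zpow_natCast]
    have h5 : (∏ i, y i) ^ N = (∏ i, y i) ^ (N - M) * (∏ i, y i) ^ M := by
      rw [← pow_add]
      congr 1
      omega
    rw [map_mul, hp' G y hy, h4, map_mul, aeval_X, h5]
    ring

theorem exists_poly1 {A : Type} [CommRing A] {ι : Type} [Fintype ι] {n : ℕ}
    (β : ι → Fin n → ℤ) (F : MvPolynomial ι A) :
    ∃ F' : MvPolynomial (Fin n) A,
      ∀ (G : Type) [Field G] [Algebra A G] (y : Fin n → G), (∀ i, y i ≠ 0) →
        (aeval y F' = 0 ↔ aeval (fun j => mn y (β j)) F = 0) := by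
  obtain ⟨N, hN⟩ := exists_poly β F
  obtain ⟨F', hF'⟩ := hN N le_rfl
  refine ⟨F', fun G _ _ y hy => ?_⟩
  rw [hF' G y hy, mul_eq_zero, or_iff_right]
  exact pow_ne_zero _ (Finset.prod_ne_zero_iff.mpr fun i _ => hy i)

/-- a common exponent for finitely many polynomials -/
theorem exists_polys {A : Type} [CommRing A] {ι : Type} [Fintype ι] {n m : ℕ}
    (β : ι → Fin n → ℤ) (F : Fin m → MvPolynomial ι A) :
    ∃ (N : ℕ) (F' : Fin m → MvPolynomial (Fin n) A),
      ∀ (G : Type) [Field G] [Algebra A G] (y : Fin n → G), (∀ i, y i ≠ 0) → ∀ l,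
        aeval y (F' l) = (∏ i, y i) ^ N * aeval (fun j => mn y (β j)) (F l) := by
  choose N0 hN0 using fun l => exists_poly β (F l)
  have h1 : ∀ l, N0 l ≤ ∑ l, N0 l := fun l =>
    Finset.single_le_sum (f := N0) (fun _ _ => Nat.zero_le _) (Finset.mem_univ l)
  choose F' hF' using fun l => hN0 l _ (h1 l)
  exact ⟨∑ l, N0 l, F', fun G _ _ y hy l => hF' l G y hy⟩

theorem iff_mn {n : ℕ} {𝓤 : Ultrafilter ℕ} {S : Sq n} {L : Type} [Field L] {x : Fin n → L}
    (hx : ∀ i, x i ≠ 0) (h : Gn 𝓤 S x) {ι : Type} [Fintype ι] (β : ι → Fin n → ℤ)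
    (F : MvPolynomial ι ℤ) :
    (∀ᶠ ν in (𝓤 : Filter ℕ), aeval (fun i => mn (S.p ν) (β i)) F = 0) ↔
      aeval (fun i => mn x (β i)) F = 0 := by
  obtain ⟨F', hF'⟩ := exists_poly1 β F
  rw [← hF' L x hx, ← h F']
  exact Filter.eventually_congr (Filter.Eventually.of_forall fun ν =>
    (hF' (S.K ν) (S.p ν) (S.ne ν)).symm)

end Map

theorem Gn.map {n m : ℕ} {𝓤 : Ultrafilter ℕ} {S : Sq n} {L : Type} [Field L] {x : Fin n → L}
    (hx : ∀ i, x i ≠ 0) (h : Gn 𝓤 S x) (β : Fin m → Fin n → ℤ) : Gn 𝓤 (S.map β) (mm β x) :=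
  fun F => Map.iff_mn hx h β F

/-- integral polynomials in monomials -/
theorem Gn.iff_mn {n : ℕ} {𝓤 : Ultrafilter ℕ} {S : Sq n} {L : Type} [Field L] {x : Fin n → L}
    (hx : ∀ i, x i ≠ 0) (h : Gn 𝓤 S x) {ι : Type} [Fintype ι] (β : ι → Fin n → ℤ)
    (F : MvPolynomial ι ℤ) :
    (∀ᶠ ν in (𝓤 : Filter ℕ), aeval (fun i => mn (S.p ν) (β i)) F = 0) ↔
      aeval (fun i => mn x (β i)) F = 0 :=
  Map.iff_mn hx h β F

theorem Gn.ne_mn {n : ℕ} {𝓤 : Ultrafilter ℕ} {S : Sq n} {L : Type} [Field L] {x : Fin n → L}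
    (hx : ∀ i, x i ≠ 0) (h : Gn 𝓤 S x) {ι : Type} [Fintype ι] (β : ι → Fin n → ℤ)
    (F : MvPolynomial ι ℤ) (hF : aeval (fun i => mn x (β i)) F ≠ 0) :
    ∀ᶠ ν in (𝓤 : Filter ℕ), aeval (fun i => mn (S.p ν) (β i)) F ≠ 0 := by
  rw [Ne, ← Map.iff_mn hx h β F, ← Ultrafilter.eventually_not] at hF
  exact hF

/-- relations between monomials hold at the points of the variety -/
theorem OnY.rel_mn {L : Type} [Field L] [Algebra ℂ L] {n : ℕ} {x : Fin n → L}
    (hx : ∀ i, x i ≠ 0) {z : Fin n → ℂ} (h : OnY x z) {ι : Type} [Fintype ι]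
    (β : ι → Fin n → ℤ) (F : MvPolynomial ι ℂ) (hF : aeval (fun i => mn x (β i)) F = 0) :
    aeval (fun i => mn z (β i)) F = 0 := by
  obtain ⟨F', hF'⟩ := Map.exists_poly1 β F
  rw [← hF' ℂ z h.1]
  exact h.2 F' ((hF' L x hx).2 hF)

/-- points which are generic over the integers: integral relations between monomials -/
theorem gen_mn {L : Type} [Field L] {n : ℕ} {x : Fin n → L} (hx : ∀ i, x i ≠ 0) {F : Type}
    [Field F] {z : Fin n → F} (hz : ∀ i, z i ≠ 0)
    (h : ∀ G : MvPolynomial (Fin n) ℤ, aeval z G = 0 ↔ aeval x G = 0) {ι : Type} [Fintype ι]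
    (β : ι → Fin n → ℤ) (G : MvPolynomial ι ℤ) :
    aeval (fun i => mn z (β i)) G = 0 ↔ aeval (fun i => mn x (β i)) G = 0 := by
  obtain ⟨G', hG'⟩ := Map.exists_poly1 β G
  rw [← hG' F z hz, ← hG' L x hx, h G']

section
variable {L : Type} [Field L] [Algebra ℂ L] {n m : ℕ} {x : Fin n → L}

theorem om_apply (x : Fin n → L) (b : Fin n → ℝ) (D : Derivation ℂ L L) :
    om x b D = ∑ i, algebraMap ℂ L (b i : ℂ) * (D (x i) / x i) := rfl

theorem om_zero (x : Fin n → L) : om x 0 = 0 := by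
  ext D
  rw [om_apply]
  simp

theorem om_add (x : Fin n → L) (b c : Fin n → ℝ) : om x (b + c) = om x b + om x c := by
  ext D
  rw [LinearMap.add_apply, om_apply, om_apply, om_apply, ← Finset.sum_add_distrib]
  refine Finset.sum_congr rfl fun i _ => ?_
  rw [Pi.add_apply, Complex.ofReal_add, map_add, add_mul]

theorem om_smul (x : Fin n → L) (r : ℝ) (b : Fin n → ℝ) :
    om x (r • b) = algebraMap ℂ L (r : ℂ) • om x b := by
  ext D
  rw [LinearMap.smul_apply, om_apply, om_apply, smul_eq_mul, Finset.mul_sum]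
  refine Finset.sum_congr rfl fun i _ => ?_
  rw [Pi.smul_apply, smul_eq_mul, Complex.ofReal_mul, map_mul, mul_assoc]

namespace Map

theorem ld_mul (D : Derivation ℂ L L) {y z : L} (hy : y ≠ 0) (hz : z ≠ 0) :
    D (y * z) / (y * z) = D y / y + D z / z := by
  rw [Derivation.leibniz, smul_eq_mul, smul_eq_mul]
  field_simp
  ring

theorem ld_zpow (D : Derivation ℂ L L) {y : L} (hy : y ≠ 0) (m : ℤ) :
    D (y ^ m) / y ^ m = m * (D y / y) := by
  rw [Derivation.leibniz_zpow, smul_eq_mul, zsmul_eq_mul, zpow_sub_one₀ hy]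
  have h := zpow_ne_zero m hy
  field_simp

theorem ld_prod (D : Derivation ℂ L L) (s : Finset (Fin n)) (x : Fin n → L)
    (hx : ∀ j, x j ≠ 0) (a : Fin n → ℤ) :
    D (∏ j ∈ s, x j ^ a j) / ∏ j ∈ s, x j ^ a j = ∑ j ∈ s, (a j : L) * (D (x j) / x j) := by
  classical
  induction s using Finset.induction_on with
  | empty => simp
  | insert j s hj ih =>
    rw [Finset.prod_insert hj, Finset.sum_insert hj,
      ld_mul D (zpow_ne_zero _ (hx j)) (Finset.prod_ne_zero_iff.mpr fun i _ => zpow_ne_zero _ (hx i)),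
      ih, ld_zpow D (hx j)]

theorem om_sum (x : Fin n → L) {ι : Type} (s : Finset ι) (b : ι → Fin n → ℝ) :
    om x (∑ j ∈ s, b j) = ∑ j ∈ s, om x (b j) := by
  classical
  induction s using Finset.induction_on with
  | empty => rw [Finset.sum_empty, Finset.sum_empty, om_zero]
  | insert j s hj ih => rw [Finset.sum_insert hj, Finset.sum_insert hj, om_add, ih]

end Map

/-- `om x (rv a)` is the logarithmic derivative of `x^a` -/
theorem om_rv (hx : ∀ i, x i ≠ 0) (a : Fin n → ℤ) (D : Derivation ℂ L L) :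
    om x (rv a) D = D (mn x a) / mn x a := by
  rw [om_apply, mn, Map.ld_prod D Finset.univ x hx a]
  refine Finset.sum_congr rfl fun i _ => ?_
  rw [rv, Complex.ofReal_intCast, map_intCast]

theorem om_mm (hx : ∀ i, x i ≠ 0) (β : Fin m → Fin n → ℤ) (c : Fin m → ℝ) :
    om (mm β x) c = om x (cmbR β c) := by
  rw [Map.cmbR_eq, Map.om_sum]
  ext D
  rw [om_apply, LinearMap.sum_apply]
  refine Finset.sum_congr rfl fun l _ => ?_
  rw [om_smul, LinearMap.smul_apply, om_rv hx, smul_eq_mul]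
  rfl

namespace Map

theorem eq_sum_single (b : Fin n → ℝ) : b = ∑ i, b i • rv (Pi.single i 1) := by
  funext j
  rw [Finset.sum_apply, Finset.sum_eq_single j]
  · rw [rv_single, Pi.smul_apply, Pi.single_eq_same, smul_eq_mul, mul_one]
  · intro i _ hi
    rw [rv_single, Pi.smul_apply, Pi.single_eq_of_ne hi.symm, smul_zero]
  · intro h
    exact absurd (Finset.mem_univ j) h

end Map

/-- all forms are combinations of the forms of the coordinates -/
theorem om_mem_span (x : Fin n → L) (b : Fin n → ℝ) :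
    om x b ∈ Submodule.span L (Set.range fun i => om x (rv (Pi.single i 1))) := by
  rw [Map.eq_sum_single b, Map.om_sum]
  refine Submodule.sum_mem _ fun i _ => ?_
  rw [om_smul]
  exact Submodule.smul_mem _ _ (Submodule.subset_span ⟨i, rfl⟩)

theorem finite_span_om (x : Fin n → L) (A : Set (Fin n → ℝ)) :
    FiniteDimensional L (Submodule.span L (om x '' A)) := by
  have h : FiniteDimensional L
      (Submodule.span L (Set.range fun i => om x (rv (Pi.single i 1)))) :=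
    FiniteDimensional.span_of_finite L (Set.finite_range _)
  refine Submodule.finiteDimensional_of_le (Submodule.span_le.2 ?_)
    (S₂ := Submodule.span L (Set.range fun i => om x (rv (Pi.single i 1))))
  rintro _ ⟨b, _, rfl⟩
  exact om_mem_span x b

theorem rk_mono (x : Fin n → L) {A B : Set (Fin n → ℝ)} (h : A ⊆ B) : rk x A ≤ rk x B := by
  have := finite_span_om x B
  exact Submodule.finrank_mono (Submodule.span_mono (Set.image_mono h))

theorem rk_le_dm (x : Fin n → L) (A : Set (Fin n → ℝ)) : rk x A ≤ dm x :=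
  rk_mono x (Set.subset_univ A)

theorem rkZ_top (x : Fin n → L) : rkZ x ⊤ = dm x := by
  refine le_antisymm (rk_le_dm x _) ?_
  have h1 := finite_span_om x (rv '' ((⊤ : Submodule ℤ (Fin n → ℤ)) : Set (Fin n → ℤ)))
  refine Submodule.finrank_mono (Submodule.span_le.2 ?_)
  rintro _ ⟨b, _, rfl⟩
  refine (Submodule.span_le.2 ?_) (om_mem_span x b)
  rintro _ ⟨i, rfl⟩
  exact Submodule.subset_span ⟨_, ⟨_, Submodule.mem_top, rfl⟩, rfl⟩

theorem rkZ_mono (x : Fin n → L) {Λ Λ' : Submodule ℤ (Fin n → ℤ)} (h : Λ ≤ Λ') :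
    rkZ x Λ ≤ rkZ x Λ' :=
  rk_mono x (Set.image_mono h)

namespace Map

theorem basis {n : ℕ} (Λ : Submodule ℤ (Fin n → ℤ)) :
    ∃ β : Fin (finrank ℤ Λ) → Fin n → ℤ, LinearIndependent ℤ β ∧
      (∀ a, a ∈ Λ ↔ ∃ c, a = cmb β c) ∧
      Submodule.span ℝ (rv '' (Λ : Set (Fin n → ℤ))) = LinearMap.range (cmbL β) := by
  let b : Basis (Fin (finrank ℤ Λ)) ℤ Λ := Module.finBasis ℤ Λ
  have h1 : LinearIndependent ℤ (fun l => (b l : Fin n → ℤ)) :=
    b.linearIndependent.map' Λ.subtype (Submodule.ker_subtype _)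
  have h2 : ∀ a, a ∈ Λ ↔ ∃ c, a = cmb (fun l => (b l : Fin n → ℤ)) c := by
    intro a
    constructor
    · intro ha
      refine ⟨fun l => b.repr ⟨a, ha⟩ l, ?_⟩
      have h3 := congrArg (fun z : Λ => (z : Fin n → ℤ)) (b.sum_repr ⟨a, ha⟩)
      rw [cmb_eq]
      simp only [Submodule.coe_sum, Submodule.coe_smul] at h3
      exact h3.symm
    · rintro ⟨c, rfl⟩
      rw [cmb_eq]
      exact Submodule.sum_mem _ fun l _ => Submodule.smul_mem _ _ (b l).2
  refine ⟨fun l => (b l : Fin n → ℤ), h1, h2, le_antisymm (Submodule.span_le.2 ?_) ?_⟩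
  · rintro _ ⟨a, ha, rfl⟩
    obtain ⟨c, rfl⟩ := (h2 a).1 ha
    rw [rv_cmb]
    exact ⟨rv c, rfl⟩
  · rintro _ ⟨c, rfl⟩
    rw [cmbL_apply, cmbR_eq]
    exact Submodule.sum_mem _ fun l _ => Submodule.smul_mem _ _
      (Submodule.subset_span ⟨_, (b l).2, rfl⟩)

end Map

theorem rkZ_le_finrank (x : Fin n → L) (Λ : Submodule ℤ (Fin n → ℤ)) :
    rkZ x Λ ≤ finrank ℤ Λ := by
  obtain ⟨β, _, hΛ, _⟩ := Map.basis Λ
  have h1 : FiniteDimensional L (Submodule.span L (Set.range fun l => om x (rv (β l)))) :=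
    FiniteDimensional.span_of_finite L (Set.finite_range _)
  have h2 : finrank L (Submodule.span L (Set.range fun l => om x (rv (β l)))) ≤
      finrank ℤ Λ := by
    refine (finrank_range_le_card _).trans ?_
    rw [Fintype.card_fin]
  refine le_trans (Submodule.finrank_mono (Submodule.span_le.2 ?_)) h2
  rintro _ ⟨_, ⟨a, ha, rfl⟩, rfl⟩
  obtain ⟨c, rfl⟩ := (hΛ a).1 ha
  rw [rv_cmb, Map.cmbR_eq, Map.om_sum]
  refine Submodule.sum_mem _ fun l _ => ?_
  rw [om_smul]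
  exact Submodule.smul_mem _ _ (Submodule.subset_span ⟨l, rfl⟩)

/-- the rank of the forms of the image of `Λ` under a monomial map -/
theorem rkZ_mm (hx : ∀ i, x i ≠ 0) (β : Fin m → Fin n → ℤ) (Λ : Submodule ℤ (Fin m → ℤ))
    (Λ' : Submodule ℤ (Fin n → ℤ)) (h : ∀ a, a ∈ Λ' ↔ ∃ c ∈ Λ, a = cmb β c) :
    rkZ (mm β x) Λ = rkZ x Λ' := by
  have h1 : om (mm β x) '' (rv '' (Λ : Set (Fin m → ℤ))) =
      om x '' (rv '' (Λ' : Set (Fin n → ℤ))) := by
    ext f
    constructor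
    · rintro ⟨_, ⟨c, hc, rfl⟩, rfl⟩
      exact ⟨_, ⟨cmb β c, (h _).2 ⟨c, hc, rfl⟩, rfl⟩, by rw [rv_cmb, om_mm hx]⟩
    · rintro ⟨_, ⟨a, ha, rfl⟩, rfl⟩
      obtain ⟨c, hc, rfl⟩ := (h a).1 ha
      exact ⟨_, ⟨c, hc, rfl⟩, by rw [rv_cmb, om_mm hx]⟩
  rw [rkZ, rkZ, rk, rk, h1]

theorem AD.map (hx : ∀ i, x i ≠ 0) (h : AD x) (β : Fin m → Fin n → ℤ) : AD (mm β x) := by
  intro k F c hc hsum
  obtain ⟨N, F', hF'⟩ := Map.exists_polys β F
  have hP : (∏ i, x i) ^ N ≠ 0 := pow_ne_zero _ (Finset.prod_ne_zero_iff.mpr fun i _ => hx i)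
  have key : ∀ c : Fin k → ℂ, ∑ i, algebraMap ℂ L (c i) * aeval x (F' i) =
      (∏ i, x i) ^ N * ∑ i, algebraMap ℂ L (c i) * aeval (mm β x) (F i) := by
    intro c
    rw [Finset.mul_sum]
    refine Finset.sum_congr rfl fun i _ => ?_
    have h1 : aeval x (F' i) = (∏ i, x i) ^ N * aeval (mm β x) (F i) := hF' L x hx i
    rw [h1]
    ring
  obtain ⟨c', hc', halg, hsum'⟩ := h k F' c hc (by rw [key, hsum, mul_zero])
  refine ⟨c', hc', halg, ?_⟩
  rw [key, mul_eq_zero, or_iff_right hP] at hsum'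
  exact hsum'

theorem OnY.map (hx : ∀ i, x i ≠ 0) {z : Fin n → ℂ} (h : OnY x z) (β : Fin m → Fin n → ℤ) :
    OnY (mm β x) (mm β z) := by
  refine ⟨fun l => mn_ne_zero h.1 _, fun F hF => ?_⟩
  exact OnY.rel_mn hx h β F hF

theorem NC.map (hx : ∀ i, x i ≠ 0) (h : NC x) {β : Fin m → Fin n → ℤ}
    (hβ : LinearIndependent ℤ β) : NC (mm β x) := by
  intro k d γ hγ hdm hd b hb
  rw [mm_mm hx] at hdm ⊢
  exact h k d _ (cmb_linearIndependent hβ hγ) hdm hd b hb

/-- full lattices are saturated -/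
theorem Map.saturated {Λ : Submodule ℤ (Fin n → ℤ)} (h : Full x Λ) {k : ℤ} (hk : k ≠ 0)
    {a : Fin n → ℤ} (ha : k • a ∈ Λ) : a ∈ Λ := by
  apply h
  have h1 : om x (rv (k • a)) ∈ Submodule.span L (om x '' (rv '' (Λ : Set (Fin n → ℤ)))) :=
    Submodule.subset_span ⟨_, ⟨_, ha, rfl⟩, rfl⟩
  rw [rv_zsmul, om_smul] at h1
  have hk' : algebraMap ℂ L (((k : ℝ)) : ℂ) ≠ 0 := by
    rw [Complex.ofReal_intCast, map_intCast]
    have : CharZero L := charZero_of_injective_algebraMap (algebraMap ℂ L).injective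
    exact_mod_cast hk
  have h2 := Submodule.smul_mem _ (algebraMap ℂ L (((k : ℝ)) : ℂ))⁻¹ h1
  rwa [smul_smul, inv_mul_cancel₀ hk', one_smul] at h2

/-- a full lattice of the rank `n` is everything -/
theorem Full.eq_top_of_finrank {Λ : Submodule ℤ (Fin n → ℤ)} (h : Full x Λ)
    (hr : finrank ℤ Λ = n) : Λ = ⊤ := by
  rw [eq_top_iff]
  intro a _
  have hfin : Finite ((Fin n → ℤ) ⧸ Λ) :=
    Submodule.finiteQuotientOfFreeOfRankEq Λ (by rw [hr, Module.finrank_fin_fun])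
  obtain ⟨k, hk, hka⟩ := (isOfFinAddOrder_of_finite (Submodule.Quotient.mk a :
    (Fin n → ℤ) ⧸ Λ)).exists_nsmul_eq_zero
  have hk' : (k : ℤ) ≠ 0 := by exact_mod_cast hk.ne'
  refine Map.saturated h hk' (a := a) ?_
  rw [← Submodule.Quotient.mk_eq_zero, Submodule.Quotient.mk_smul, natCast_zsmul]
  exact hka

/-- full lattices are saturated -/
theorem Full.of_zsmul_mem {Λ : Submodule ℤ (Fin n → ℤ)} (h : Full x Λ) {k : ℤ} (hk : k ≠ 0)
    {a : Fin n → ℤ} (ha : k • a ∈ Λ) : a ∈ Λ :=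
  Map.saturated h hk ha

end

/-- every lattice has a basis -/
theorem exists_basis {n : ℕ} (Λ : Submodule ℤ (Fin n → ℤ)) :
    ∃ β : Fin (finrank ℤ Λ) → Fin n → ℤ, LinearIndependent ℤ β ∧
      (∀ a, a ∈ Λ ↔ ∃ c, a = cmb β c) ∧
      Submodule.span ℝ (rv '' (Λ : Set (Fin n → ℤ))) = LinearMap.range (cmbL β) :=
  Map.basis Λ

end Pool.Agent.SD
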