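import Mathlib
import Pool.Agent.Lib.MP_c95b3b_ag_SD.Map
import Pool.Agent.Lib.MP_c95b3b_ag_R.Der

set_option autoImplicit false

/-! Project SD (MP_c95b3b_ag), module RA: algebraic independence of monomials and linear
independence of logarithmic forms. -/

namespace Pool.Agent.SD

open MvPolynomial Filter Topology Module Pool.Agent.L3

namespace RkAlg

section
variable {L : Type} [Field L] [Algebra ℂ L] {n : ℕ} {x : Fin n → L}

theorem der_aeval {ι : Type} [Fintype ι] (g : ι → L) (D : Derivation ℂ L L)
    (F : MvPolynomial ι ℂ) : D (aeval g F) = ∑ j, aeval g (pderiv j F) * D (g j) := by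
  classical
  induction F using MvPolynomial.induction_on with
  | C a =>
    rw [aeval_C, Derivation.map_algebraMap]
    refine (Finset.sum_eq_zero fun j _ => ?_).symm
    rw [pderiv_C, map_zero, zero_mul]
  | add p q hp hq => simp only [map_add, hp, hq, add_mul, Finset.sum_add_distrib]
  | mul_X p i hp =>
    rw [map_mul, aeval_X, Derivation.leibniz, hp, smul_eq_mul, smul_eq_mul]
    have h1 : ∀ j, aeval g (pderiv j (p * X i)) * D (g j) =
        g i * (aeval g (pderiv j p) * D (g j)) + (if j = i then aeval g p * D (g j) else 0) := by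
      intro j
      rw [pderiv_mul, map_add, map_mul, map_mul, aeval_X, pderiv_X, Pi.single_apply]
      by_cases hj : j = i
      · subst hj
        simp only [if_true, map_one, mul_one]
        ring
      · rw [if_neg hj, if_neg fun h => hj h.symm, map_zero, mul_zero]
        ring
    rw [Finset.sum_congr rfl fun j _ => h1 j, Finset.sum_add_distrib, ← Finset.mul_sum,
      Finset.sum_ite_eq' Finset.univ i, if_pos (Finset.mem_univ i)]
    ring

theorem eq_C {ι : Type} (F : MvPolynomial ι ℂ) (h : ∀ m, m ≠ 0 → coeff m F = 0) :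
    F = C (coeff 0 F) := by
  classical
  ext m
  rw [coeff_C]
  by_cases hm : 0 = m
  · rw [if_pos hm, ← hm]
  · rw [if_neg hm, h m fun h' => hm h'.symm]

theorem algInd (hx : ∀ i, x i ≠ 0) {ι : Type} [Fintype ι] {α : ι → Fin n → ℤ}
    (h : LinearIndependent L (fun j => om x (rv (α j)))) :
    AlgebraicIndependent ℂ (fun j => mn x (α j)) := by
  classical
  set g : ι → L := fun j => mn x (α j) with hg
  have hgne : ∀ j, g j ≠ 0 := fun j => mn_ne_zero hx (α j)
  have hinj : Function.Injective (algebraMap ℂ L) := (algebraMap ℂ L).injective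
  have key : ∀ (d : ℕ) (F : MvPolynomial ι ℂ), (∀ m, coeff m F ≠ 0 → m.degree ≤ d) →
      aeval g F = 0 → F = 0 := by
    intro d
    induction d with
    | zero =>
      intro F hF h0
      have h1 : F = C (coeff 0 F) := eq_C F fun m hm => by
        by_contra hc
        have := hF m hc
        exact hm ((Finsupp.degree_eq_zero_iff m).mp (Nat.le_zero.mp this))
      rw [h1, aeval_C, map_eq_zero_iff _ hinj] at h0
      rw [h1, h0, C_0]
    | succ d ih =>
      intro F hF h0
      have h2 : ∀ j, pderiv j F = 0 := by
        have h3 : ∀ j, aeval g (pderiv j F) * g j = 0 := by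
          refine Fintype.linearIndependent_iff.mp h _ (LinearMap.ext fun D => ?_)
          have h4 := der_aeval g D F
          rw [h0, map_zero] at h4
          rw [LinearMap.sum_apply, LinearMap.zero_apply, h4]
          refine Finset.sum_congr rfl fun j _ => ?_
          rw [LinearMap.smul_apply, smul_eq_mul, om_rv hx]
          change aeval g (pderiv j F) * g j * (D (g j) / g j) = aeval g (pderiv j F) * D (g j)
          have h5 := hgne j
          field_simp
        intro j
        refine ih _ (fun m hm => ?_) ((mul_eq_zero.mp (h3 j)).resolve_right (hgne j))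
        rw [coeff_pderiv] at hm
        have h5 := hF _ (left_ne_zero_of_mul hm)
        rw [map_add, Finsupp.degree_single] at h5
        omega
      have h1 : F = C (coeff 0 F) := eq_C F fun m hm => by
        obtain ⟨j, hj⟩ : ∃ j, m j ≠ 0 := by
          by_contra hc
          push Not at hc
          exact hm (Finsupp.ext hc)
        have h6 : Finsupp.single j 1 ≤ m := by
          rw [Finsupp.single_le_iff]
          omega
        have h7 := coeff_pderiv (i := j) F (m - Finsupp.single j 1)
        rw [h2 j, coeff_zero, tsub_add_cancel_of_le h6] at h7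
        refine (mul_eq_zero.mp h7.symm).resolve_right ?_
        generalize (m - Finsupp.single j (1 : ℕ) : ι →₀ ℕ) j = a
        exact_mod_cast Nat.succ_ne_zero a
      rw [h1, aeval_C, map_eq_zero_iff _ hinj] at h0
      rw [h1, h0, C_0]
  rw [algebraicIndependent_iff]
  intro F hF
  exact key (F.support.sup fun m => m.degree) F (fun m hm =>
    Finset.le_sup (f := fun m : ι →₀ ℕ => m.degree) (mem_support_iff.mpr hm)) hF

theorem exists_der {κ : Type} [Finite κ] [DecidableEq κ] (g : κ → L)
    (hx : AlgebraicIndependent ℂ g) :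
    ∃ δ : κ → Derivation ℂ L L, ∀ i j, δ i (g j) = if i = j then 1 else 0 := by
  classical
  have _ : Finite κ := inferInstance
  have hr : AlgebraicIndepOn ℂ id (Set.range g) :=
    (algebraicIndependent_subtype_range hx.injective).mpr hx
  obtain ⟨T, hT, hb⟩ := exists_isTranscendenceBasis_superset hr
  have halg := hb.isAlgebraic
  have h1 := CITR.der_linearIndependent_D (k := ℂ) (L := L) (ι := T) (fun t : T => (t : L)) hb.1
    (fun y => halg.isAlgebraic y)
  let v : κ → Ω[L⁄ℂ] := fun j => KaehlerDifferential.D ℂ L (g j)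
  have h2 : LinearIndependent L v := by
    have h3 := h1.comp (fun j : κ => (⟨g j, hT ⟨j, rfl⟩⟩ : T)) (fun a b hab => by
      exact hx.injective (congrArg Subtype.val hab))
    exact h3
  let b : Basis κ L (Submodule.span L (Set.range v)) := Basis.span h2
  have h3 : ∀ i, ∃ f : Ω[L⁄ℂ] →ₗ[L] L, ∀ j, f (v j) = if i = j then 1 else 0 := by
    intro i
    obtain ⟨f, hf⟩ := LinearMap.exists_extend (b.coord i)
    refine ⟨f, fun j => ?_⟩
    have h4 : f (v j) = b.coord i (b j) := by
      rw [← hf]
      show f (v j) = f ((b j : Submodule.span L (Set.range v)) : Ω[L⁄ℂ])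
      rw [Basis.span_apply]
    rw [h4, Basis.coord_apply, Basis.repr_self, Finsupp.single_apply]
    simp only [eq_comm]
  choose f hf using h3
  exact ⟨fun i => (f i).compDer (KaehlerDifferential.D ℂ L), fun i j => hf i j⟩

theorem omInd (hx : ∀ i, x i ≠ 0) {ι : Type} [Fintype ι] {α : ι → Fin n → ℤ}
    (h : AlgebraicIndependent ℂ (fun j => mn x (α j))) :
    LinearIndependent L (fun j => om x (rv (α j))) := by
  classical
  obtain ⟨δ, hδ⟩ := exists_der _ h
  rw [Fintype.linearIndependent_iff]
  intro c hc i
  have h1 := congrArg (fun φ : Derivation ℂ L L →ₗ[L] L => φ (δ i)) hc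
  simp only [LinearMap.sum_apply, LinearMap.zero_apply, LinearMap.smul_apply, smul_eq_mul] at h1
  have h2 : ∀ j, c j * om x (rv (α j)) (δ i) = if i = j then c j * (1 / mn x (α j)) else 0 := by
    intro j
    rw [om_rv hx, hδ i j]
    by_cases hij : i = j
    · rw [if_pos hij, if_pos hij]
    · rw [if_neg hij, if_neg hij, zero_div, mul_zero]
  rw [Finset.sum_congr rfl fun j _ => h2 j, Finset.sum_ite_eq Finset.univ i,
    if_pos (Finset.mem_univ i)] at h1
  exact (mul_eq_zero.mp h1).resolve_right (one_div_ne_zero (mn_ne_zero hx _))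

/-- the form of a coordinate -/
noncomputable def fm (x : Fin n → L) (i : Fin n) : Derivation ℂ L L →ₗ[L] L :=
  om x (rv (Pi.single i 1))

theorem span_eq (x : Fin n → L) :
    Submodule.span L (om x '' Set.univ) = Submodule.span L (Set.range (fm x)) := by
  apply le_antisymm
  · rw [Submodule.span_le]
    rintro _ ⟨b, -, rfl⟩
    exact om_mem_span x b
  · refine Submodule.span_mono ?_
    rintro _ ⟨i, rfl⟩
    exact ⟨_, Set.mem_univ _, rfl⟩

theorem dm_eq_finrank (x : Fin n → L) :
    dm x = finrank L (Submodule.span L (Set.range (fm x))) := by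
  unfold dm rk
  rw [span_eq]

theorem fin_span (x : Fin n → L) : FiniteDimensional L (Submodule.span L (Set.range (fm x))) :=
  FiniteDimensional.span_of_finite L (Set.finite_range _)

theorem ind_iff (hx : ∀ i, x i ≠ 0) {ι : Type} [Fintype ι] (κ : ι → Fin n) :
    LinearIndependent L (fun j => fm x (κ j)) ↔ AlgebraicIndependent ℂ (fun j => x (κ j)) := by
  have h0 : (fun j => x (κ j)) = fun j => mn x (Pi.single (κ j) 1) := by
    funext j
    rw [mn_single]
  rw [h0]
  exact ⟨fun h => algInd hx h, fun h => omInd hx h⟩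

/-- algebraic coordinates = linear combinations of forms -/
theorem alg_iff (hx : ∀ i, x i ≠ 0) {k : ℕ} {κ : Fin k → Fin n}
    (h : AlgebraicIndependent ℂ (fun j => x (κ j))) (i : Fin n) :
    IsAlgebraic (Algebra.adjoin ℂ (Set.range fun j => x (κ j))) (x i) ↔
      fm x i ∈ Submodule.span L (Set.range fun j => fm x (κ j)) := by
  have h1 := (ind_iff hx κ).mpr h
  have h2 := ind_iff hx (fun o : Option (Fin k) => o.elim i κ)
  have e1 : (fun o : Option (Fin k) => fm x (o.elim i κ)) =
      fun o : Option (Fin k) => Option.casesOn' o (fm x i) (fun j => fm x (κ j)) := by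
    funext o
    cases o <;> rfl
  have e2 : (fun o : Option (Fin k) => x (o.elim i κ)) =
      fun o : Option (Fin k) => o.elim (x i) (fun j => x (κ j)) := by
    funext o
    cases o <;> rfl
  rw [e1, e2, linearIndependent_option', h.option_iff_transcendental] at h2
  constructor
  · intro h3
    by_contra h4
    exact (h2.mp ⟨h1, h4⟩) h3
  · intro h3
    by_contra h4
    exact (h2.mpr h4).2 h3

end

end RkAlg

section
variable {L : Type} [Field L] [Algebra ℂ L] {n : ℕ} {x : Fin n → L}

theorem algInd_of_om (hx : ∀ i, x i ≠ 0) {k : ℕ} {α : Fin k → Fin n → ℤ}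
    (h : LinearIndependent L (fun j => om x (rv (α j)))) : AlgebraicIndependent ℂ (mm α x) :=
  RkAlg.algInd hx h

theorem om_of_algInd (hx : ∀ i, x i ≠ 0) {k : ℕ} {α : Fin k → Fin n → ℤ}
    (h : AlgebraicIndependent ℂ (mm α x)) : LinearIndependent L (fun j => om x (rv (α j))) :=
  RkAlg.omInd hx h

/-- coordinates which form a transcendence basis -/
theorem exists_kappa (hx : ∀ i, x i ≠ 0) : ∃ κ : Fin (dm x) → Fin n,
    LinearIndependent L (fun j => om x (rv (Pi.single (κ j) 1))) ∧
    AlgebraicIndependent ℂ (fun j => x (κ j)) ∧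
    ∀ i, IsAlgebraic (Algebra.adjoin ℂ (Set.range fun j => x (κ j))) (x i) := by
  have := RkAlg.fin_span x
  rw [RkAlg.dm_eq_finrank]
  obtain ⟨f, hf1, hf2, hf3⟩ := Submodule.exists_fun_fin_finrank_span_eq L (Set.range (RkAlg.fm x))
  choose κ hκ using hf1
  have h1 : (fun j => RkAlg.fm x (κ j)) = f := funext hκ
  have h2 : LinearIndependent L (fun j => RkAlg.fm x (κ j)) := by rw [h1]; exact hf3
  have h3 := (RkAlg.ind_iff hx κ).mp h2
  refine ⟨κ, h2, h3, fun i => ?_⟩
  rw [RkAlg.alg_iff hx h3, h1, hf2]
  exact Submodule.subset_span ⟨i, rfl⟩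

/-- the dimension is the size of any algebraically independent family of coordinates over which
the other coordinates are algebraic -/
theorem dm_eq (hx : ∀ i, x i ≠ 0) {k : ℕ} {κ : Fin k → Fin n}
    (h : AlgebraicIndependent ℂ (fun j => x (κ j)))
    (h' : ∀ i, IsAlgebraic (Algebra.adjoin ℂ (Set.range fun j => x (κ j))) (x i)) :
    dm x = k := by
  have h1 := (RkAlg.ind_iff hx κ).mpr h
  have h2 : Submodule.span L (Set.range (RkAlg.fm x)) =
      Submodule.span L (Set.range fun j => RkAlg.fm x (κ j)) := by
    apply le_antisymm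
    · rw [Submodule.span_le]
      rintro _ ⟨i, rfl⟩
      exact (RkAlg.alg_iff hx h i).mp (h' i)
    · refine Submodule.span_mono ?_
      rintro _ ⟨j, rfl⟩
      exact ⟨κ j, rfl⟩
  rw [RkAlg.dm_eq_finrank, h2, finrank_span_eq_card h1, Fintype.card_fin]

end

end Pool.Agent.SD
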