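import Mathlib
import Pool.Agent.Lib.MP_c95b3b_ag_SD.RkAlg

set_option autoImplicit false

/-! Project SD (MP_c95b3b_ag), module AR: integral relations. -/

namespace Pool.Agent.SD

open MvPolynomial Filter Topology Module Pool.Agent.L3

section
variable {L : Type} [Field L] [CharZero L] [Algebra ℂ L] {n : ℕ} {x : Fin n → L}

/-- independent forms: no integral relations -/
theorem int_ind (hx : ∀ i, x i ≠ 0) {k : ℕ} {α : Fin k → Fin n → ℤ}
    (h : LinearIndependent L (fun j => om x (rv (α j)))) (F : MvPolynomial (Fin k) ℤ)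
    (hF : aeval (mm α x) F = 0) : F = 0 := by
  have h1 : AlgebraicIndependent ℂ (mm α x) := algInd_of_om hx h
  have h2 : aeval (mm α x) (MvPolynomial.map (algebraMap ℤ ℂ) F) = 0 := by
    rw [aeval_map_algebraMap]
    exact hF
  have h3 : MvPolynomial.map (algebraMap ℤ ℂ) F = 0 :=
    (algebraicIndependent_iff.mp h1) _ h2
  have hinj : Function.Injective (MvPolynomial.map (σ := Fin k) (algebraMap ℤ ℂ)) :=
    MvPolynomial.map_injective _ (RingHom.injective_int _)
  exact hinj (by rw [h3, map_zero])

/-- algebraic independence over the integers passes to the rational numbers -/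
theorem AdRel.rat_of_int {k : ℕ} {y : Fin k → L}
    (h : ∀ F : MvPolynomial (Fin k) ℤ, aeval y F = 0 → F = 0) : AlgebraicIndependent ℚ y := by
  have h0 : AlgebraicIndependent ℤ y := algebraicIndependent_iff.mpr h
  have : Algebra.IsAlgebraic ℤ ℚ := IsLocalization.isAlgebraic ℚ (nonZeroDivisors ℤ)
  exact h0.extendScalars ℚ

/-- independence over the integers implies independence over `ℂ` -/
theorem AdRel.complex_of_int {k : ℕ} {y : Fin k → L} (hAD : AD y)
    (h : ∀ F : MvPolynomial (Fin k) ℤ, aeval y F = 0 → F = 0) : AlgebraicIndependent ℂ y := by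
  classical
  have h1 : AlgebraicIndependent ℚ y := AdRel.rat_of_int h
  have : IsScalarTower ℚ (algebraicClosure ℚ ℂ) L := IsScalarTower.rat
  have : Algebra.IsAlgebraic ℚ (algebraicClosure ℚ ℂ) := by
    have : IsScalarTower ℚ (algebraicClosure ℚ ℂ) ℂ := IsScalarTower.rat
    refine ⟨fun z => ?_⟩
    have hz : IsAlgebraic ℚ (algebraMap (algebraicClosure ℚ ℂ) ℂ z) :=
      mem_algebraicClosure_iff.mp z.2
    exact (isAlgebraic_algebraMap_iff (algebraMap (algebraicClosure ℚ ℂ) ℂ).injective).mp hz
  have h2 : AlgebraicIndependent (algebraicClosure ℚ ℂ) y := h1.extendScalars _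
  rw [algebraicIndependent_iff]
  intro H hH
  by_contra hne
  -- enumerate the support
  set N : ℕ := H.support.card with hN
  let e : Fin N ≃ H.support := (H.support.equivFin).symm
  have hsum : H = ∑ i : Fin N, monomial (e i).1 (coeff (e i).1 H) := by
    conv_lhs => rw [H.as_sum]
    rw [← Finset.sum_coe_sort H.support (fun m => monomial m (coeff m H))]
    exact (Equiv.sum_comp e (fun m : H.support => monomial m.1 (coeff m.1 H))).symm
  have hmon : ∀ (m : Fin k →₀ ℕ) (c : ℂ),
      aeval y (monomial m c) = algebraMap ℂ L c * aeval y (monomial m (1 : ℤ)) := by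
    intro m c
    rw [aeval_monomial, aeval_monomial, map_one, one_mul]
  have hNpos : 0 < N := by
    rw [hN, Finset.card_pos, MvPolynomial.support_nonempty]
    exact hne
  have hrel : ∑ i : Fin N, algebraMap ℂ L (coeff (e i).1 H) * aeval y (monomial (e i).1 (1 : ℤ))
      = 0 := by
    rw [← hH]
    conv_rhs => rw [hsum, map_sum]
    exact Finset.sum_congr rfl fun i _ => (hmon _ _).symm
  have hc : (fun i : Fin N => coeff (e i).1 H) ≠ 0 := by
    intro h0
    have := congrFun h0 ⟨0, hNpos⟩
    exact (mem_support_iff.mp (e ⟨0, hNpos⟩).2) this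
  obtain ⟨c', hc', halg, hrel'⟩ := hAD N (fun i => monomial (e i).1 (1 : ℤ)) _ hc hrel
  -- the relation over the algebraic closure
  let cc : Fin N → algebraicClosure ℚ ℂ := fun i => ⟨c' i, mem_algebraicClosure_iff.mpr (halg i)⟩
  have hG : aeval y (∑ i : Fin N, monomial (e i).1 (cc i)) = 0 := by
    rw [map_sum, ← hrel']
    refine Finset.sum_congr rfl fun i _ => ?_
    rw [aeval_monomial, aeval_monomial, map_one, one_mul]
    rfl
  have hG0 := (algebraicIndependent_iff.mp h2) _ hG
  apply hc'
  funext i
  have h3 : coeff (e i).1 (∑ j : Fin N, monomial (e j).1 (cc j)) = cc i := by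
    rw [coeff_sum, Finset.sum_eq_single i]
    · rw [coeff_monomial, if_pos rfl]
    · intro j _ hj
      rw [coeff_monomial, if_neg]
      intro h'
      exact hj (e.injective (Subtype.ext h'))
    · intro h'
      exact absurd (Finset.mem_univ i) h'
  rw [hG0, coeff_zero] at h3
  have h4 : (cc i : ℂ) = 0 := by rw [← h3]; rfl
  exact h4

/-- dependent forms: an integral relation (the variety is defined over the algebraic numbers) -/
theorem int_rel (hx : ∀ i, x i ≠ 0) (hAD : AD x) {k : ℕ} {γ : Fin k → Fin n → ℤ}
    (h : ¬ LinearIndependent L (fun j => om x (rv (γ j)))) :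
    ∃ F : MvPolynomial (Fin k) ℤ, F ≠ 0 ∧ aeval (mm γ x) F = 0 := by
  by_contra hcon
  push Not at hcon
  apply h
  apply om_of_algInd hx
  apply AdRel.complex_of_int (AD.map hx hAD γ)
  intro F hF
  by_contra hne
  exact hcon F hne hF

/-- a monomial whose form depends on the forms of `α` is algebraic over the monomials `x^α` -/
theorem isAlgebraic_mn (hx : ∀ i, x i ≠ 0) (hAD : AD x) {k : ℕ} {α : Fin k → Fin n → ℤ}
    (h : LinearIndependent L (fun j => om x (rv (α j)))) (a : Fin n → ℤ)
    (ha : om x (rv a) ∈ Submodule.span L (Set.range fun j => om x (rv (α j)))) :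
    IsAlgebraic (Algebra.adjoin ℚ (Set.range (mm α x))) (mn x a) := by
  have h1 : AlgebraicIndependent ℚ (mm α x) := AdRel.rat_of_int (int_ind hx h)
  by_contra htr
  have h2 : AlgebraicIndependent ℚ (fun o : Option (Fin k) => o.elim (mn x a) (mm α x)) :=
    (h1.option_iff_transcendental (mn x a)).mpr htr
  -- the family `(a, α)`
  let γ : Fin (k + 1) → Fin n → ℤ := Fin.cons a α
  have hdep : ¬ LinearIndependent L (fun j => om x (rv (γ j))) := by
    intro hli
    have h3 := hli.notMem_span_image (s := Set.range Fin.succ) (x := 0)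
      (by rintro ⟨j, hj⟩; exact Fin.succ_ne_zero j hj)
    apply h3
    have h4 : (fun j => om x (rv (γ j))) '' Set.range Fin.succ
        = Set.range fun j => om x (rv (α j)) := by
      rw [← Set.range_comp]
      rfl
    rw [h4]
    exact ha
  obtain ⟨F, hF0, hF⟩ := int_rel hx hAD hdep
  have h5 : AlgebraicIndependent ℚ (mm γ x) := by
    have h6 : (fun o : Option (Fin k) => o.elim (mn x a) (mm α x)) ∘ (finSuccEquiv k)
        = mm γ x := by
      funext j
      refine Fin.cases ?_ (fun i => ?_) j
      · simp [mm, γ]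
      · simp [mm, γ]
    rw [← h6]
    exact (algebraicIndependent_equiv (finSuccEquiv k)).mpr h2
  have h7 : AlgebraicIndependent ℤ (mm γ x) :=
    h5.restrictScalars (RingHom.injective_int (algebraMap ℤ ℚ))
  exact hF0 ((algebraicIndependent_iff.mp h7) F hF)

end

end Pool.Agent.SD
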