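import Mathlib
import Pool.Agent.Lib.MP_c95b3b_ag_SD.Map

set_option autoImplicit false

/-! Project SD (MP_c95b3b_ag), module PR: a hypersurface model of the variety. -/

namespace Pool.Agent.SD

open MvPolynomial

/-- the value of a polynomial in one variable over `ℂ[T]` at the point `(t, θ)` -/
noncomputable def ev2 {L : Type} [Field L] [Algebra ℂ L] {d : ℕ} (t : Fin d → L) (θ : L)
    (F : Polynomial (MvPolynomial (Fin d) ℂ)) : L :=
  F.eval₂ (aeval t : MvPolynomial (Fin d) ℂ →ₐ[ℂ] L).toRingHom θ

namespace Prim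

/-- Pseudo-division. -/
theorem pseudo {R : Type*} [CommRing R] [IsDomain R] (f : Polynomial R) (hf : f ≠ 0) (n : ℕ) :
    ∀ F : Polynomial R, F.natDegree < n → ∃ (k : ℕ) (q r : Polynomial R),
      Polynomial.C (f.leadingCoeff ^ k) * F = f * q + r ∧ r.degree < f.degree := by
  induction n with
  | zero => intro F hF; omega
  | succ n ih =>
    intro F hF
    by_cases hlt : F.degree < f.degree
    · exact ⟨0, 0, F, by simp, hlt⟩
    push Not at hlt
    have hF0 : F ≠ 0 := by
      rintro rfl
      rw [Polynomial.degree_zero, le_bot_iff, Polynomial.degree_eq_bot] at hlt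
      exact hf hlt
    have hnd : f.natDegree ≤ F.natDegree := Polynomial.natDegree_le_natDegree hlt
    obtain ⟨m, hm⟩ : ∃ m, F.natDegree = m + f.natDegree := ⟨F.natDegree - f.natDegree, by omega⟩
    set F' : Polynomial R := Polynomial.C f.leadingCoeff * F -
      Polynomial.C F.leadingCoeff * Polynomial.X ^ m * f with hF'
    have hlf : f.leadingCoeff ≠ 0 := Polynomial.leadingCoeff_ne_zero.2 hf
    have hlF : F.leadingCoeff ≠ 0 := Polynomial.leadingCoeff_ne_zero.2 hF0
    have hdeg : F'.degree < F.degree := by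
      have h1 : (Polynomial.C f.leadingCoeff * F).degree = F.degree := by
        rw [Polynomial.degree_C_mul hlf]
      have h2 : (Polynomial.C F.leadingCoeff * Polynomial.X ^ m * f).degree = F.degree := by
        rw [mul_assoc, Polynomial.degree_C_mul hlF, Polynomial.degree_mul,
          Polynomial.degree_X_pow, Polynomial.degree_eq_natDegree hf,
          Polynomial.degree_eq_natDegree hF0, hm]
        push_cast
        ring
      have h3 := Polynomial.degree_sub_lt_left (p := Polynomial.C f.leadingCoeff * F)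
        (q := Polynomial.C F.leadingCoeff * Polynomial.X ^ m * f) (h1.trans h2.symm)
        (mul_ne_zero (Polynomial.C_ne_zero.2 hlf) hF0) (by
          rw [Polynomial.leadingCoeff_mul, Polynomial.leadingCoeff_C, Polynomial.leadingCoeff_mul,
            Polynomial.leadingCoeff_mul, Polynomial.leadingCoeff_C, Polynomial.leadingCoeff_X_pow]
          ring)
      rwa [h1] at h3
    by_cases hF'0 : F' = 0
    · refine ⟨1, Polynomial.C F.leadingCoeff * Polynomial.X ^ m, 0, ?_, ?_⟩
      · rw [pow_one, add_zero, mul_comm f]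
        exact sub_eq_zero.1 hF'0
      · rw [Polynomial.degree_zero, bot_lt_iff_ne_bot, Ne, Polynomial.degree_eq_bot]
        exact hf
    obtain ⟨k, q, r, h1, h2⟩ := ih F' (by
      have := Polynomial.natDegree_lt_natDegree hF'0 hdeg
      omega)
    refine ⟨k + 1, q + Polynomial.C (f.leadingCoeff ^ k * F.leadingCoeff) * Polynomial.X ^ m, r,
      ?_, h2⟩
    have h3 : Polynomial.C (f.leadingCoeff ^ (k + 1)) * F = Polynomial.C (f.leadingCoeff ^ k) * F' +
        f * (Polynomial.C (f.leadingCoeff ^ k * F.leadingCoeff) * Polynomial.X ^ m) := by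
      rw [hF', pow_succ]
      simp only [map_mul]
      ring
    rw [h3, h1]
    ring

section core

variable {R K L : Type} [CommRing R] [IsDomain R] [Field K] [Algebra R K] [IsFractionRing R K]
  [Field L] [Algebra R L] [Algebra K L] [IsScalarTower R K L]

theorem clear (p : Polynomial K) : ∃ (b : R) (q : Polynomial R), b ≠ 0 ∧
    q.map (algebraMap R K) = Polynomial.C (algebraMap R K b) * p := by
  obtain ⟨b, hb, h⟩ := IsLocalization.integerNormalization_spec (nonZeroDivisors R) p
  refine ⟨b, IsLocalization.integerNormalization (nonZeroDivisors R) p,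
    nonZeroDivisors.ne_zero hb, ?_⟩
  rw [h, ← IsScalarTower.algebraMap_smul K b p, Polynomial.smul_eq_C_mul]

theorem clearMv {n : ℕ} (P : MvPolynomial (Fin n) K) : ∃ (b : R) (Q : MvPolynomial (Fin n) R),
    b ≠ 0 ∧ Q.map (algebraMap R K) = MvPolynomial.C (algebraMap R K b) * P := by
  obtain ⟨b, hb⟩ := IsLocalization.exist_integer_multiples (nonZeroDivisors R) P.support
    (fun γ => P.coeff γ)
  choose c hc using hb
  refine ⟨b, ∑ γ ∈ P.support.attach, monomial γ.1 (c γ.1 γ.2), nonZeroDivisors.ne_zero b.2, ?_⟩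
  rw [map_sum]
  conv_rhs => rw [P.as_sum, Finset.mul_sum, ← Finset.sum_attach]
  refine Finset.sum_congr rfl fun γ _ => ?_
  rw [map_monomial, hc, C_mul_monomial, Algebra.smul_def]

theorem core [CharZero K] {n : ℕ} (x : Fin n → L) (hx : ∀ i, IsAlgebraic K (x i)) :
    ∃ (θ : MvPolynomial (Fin n) R) (f : Polynomial R) (g : Fin n → Polynomial R) (h : R),
      h ≠ 0 ∧ Polynomial.aeval (aeval x θ) f = 0 ∧
      Polynomial.aeval (aeval x θ) (Polynomial.derivative f) ≠ 0 ∧
      (∀ i, algebraMap R L h * x i = Polynomial.aeval (aeval x θ) (g i)) ∧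
      (∀ F : Polynomial R, Polynomial.aeval (aeval x θ) F = 0 →
        ∃ (k : ℕ) (q : Polynomial R), Polynomial.C (f.leadingCoeff ^ k) * F = f * q) ∧
      ∀ F : Polynomial R, Polynomial.aeval (aeval x θ) F ≠ 0 →
        ∃ (A B : Polynomial R) (N : R), N ≠ 0 ∧ Polynomial.C N = A * f + B * F := by
  classical
  have hinj : Function.Injective (algebraMap R K) := IsFractionRing.injective R K
  have hint : ∀ y ∈ Set.range x, IsIntegral K y := by
    rintro _ ⟨i, rfl⟩
    exact (hx i).isIntegral
  have hfd : FiniteDimensional K (IntermediateField.adjoin K (Set.range x)) :=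
    IntermediateField.finiteDimensional_adjoin hint
  obtain ⟨α, hα⟩ := Field.exists_primitive_element K (IntermediateField.adjoin K (Set.range x))
  -- the primitive element as a polynomial in `x`
  obtain ⟨P, hP⟩ : ∃ P : MvPolynomial (Fin n) K, aeval x P = (α : L) := by
    have h1 : (α : L) ∈ (IntermediateField.adjoin K (Set.range x)).toSubalgebra := α.2
    rw [IntermediateField.adjoin_toSubalgebra_of_isAlgebraic (by
      rintro _ ⟨i, rfl⟩
      exact hx i), Algebra.adjoin_range_eq_range_aeval] at h1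
    exact h1
  obtain ⟨b, Q, hb, hQ⟩ := clearMv (R := R) P
  have hbK : algebraMap R K b ≠ 0 := fun h => hb (hinj (by rw [h, map_zero]))
  have hθ : aeval x Q = algebraMap K L (algebraMap R K b) * (α : L) := by
    have h1 : aeval x (MvPolynomial.map (algebraMap R K) Q) = aeval x Q := by
      rw [aeval_map_algebraMap]
    rw [← h1, hQ, map_mul, hP, algHom_C]
  refine ⟨Q, ?_⟩
  set θ : L := aeval x Q with hθd
  have hαθ : (α : L) = algebraMap K L (algebraMap R K b)⁻¹ * θ := by
    rw [hθ, ← mul_assoc, ← map_mul, inv_mul_cancel₀ hbK, map_one, one_mul]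
  have hθint : IsIntegral K θ := by
    rw [hθ]
    refine isIntegral_algebraMap.mul ?_
    have h1 : IsIntegral K α := IsIntegral.of_finite K α
    exact h1.map (IntermediateField.val _)
  -- the elements `x i`
  have hxi : ∀ i, ∃ G : Polynomial K, Polynomial.aeval θ G = x i := by
    intro i
    have h1 : (⟨x i, IntermediateField.subset_adjoin K _ ⟨i, rfl⟩⟩ :
        IntermediateField.adjoin K (Set.range x)) ∈ IntermediateField.adjoin K {α} := by
      rw [hα]
      trivial
    have h2 : (⟨x i, IntermediateField.subset_adjoin K _ ⟨i, rfl⟩⟩ :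
        IntermediateField.adjoin K (Set.range x)) ∈
          (IntermediateField.adjoin K {α}).toSubalgebra := h1
    rw [IntermediateField.adjoin_simple_toSubalgebra_of_isAlgebraic
      (IsIntegral.of_finite K α).isAlgebraic, Algebra.adjoin_singleton_eq_range_aeval] at h2
    obtain ⟨p, hp⟩ := h2
    refine ⟨p.comp (Polynomial.C (algebraMap R K b)⁻¹ * Polynomial.X), ?_⟩
    rw [Polynomial.aeval_comp, map_mul, Polynomial.aeval_C, Polynomial.aeval_X, ← hαθ]
    have h3 := congrArg (fun y : IntermediateField.adjoin K (Set.range x) => (y : L)) hp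
    simp only at h3
    rw [← h3]
    exact (Polynomial.aeval_algebraMap_apply L α p)
  choose G hG using hxi
  choose h' g' hh' hg' using fun i => clear (R := R) (G i)
  have hirr := minpoly.irreducible hθint
  obtain ⟨c, f, hc, hf⟩ := clear (R := R) (minpoly K θ)
  have hcK : algebraMap R K c ≠ 0 := fun h => hc (hinj (by rw [h, map_zero]))
  have hae : ∀ F : Polynomial R, Polynomial.aeval θ (F.map (algebraMap R K)) =
      Polynomial.aeval θ F := fun F => Polynomial.aeval_map_algebraMap K θ F
  have hf0 : f ≠ 0 := by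
    rintro rfl
    rw [Polynomial.map_zero] at hf
    exact mul_ne_zero (Polynomial.C_ne_zero.2 hcK) hirr.ne_zero hf.symm
  have hfdeg : f.degree = (minpoly K θ).degree := by
    rw [← Polynomial.degree_map_eq_of_injective hinj f, hf, Polynomial.degree_C_mul hcK]
  refine ⟨f, fun i => Polynomial.C (∏ j ∈ Finset.univ.erase i, h' j) * g' i, ∏ i, h' i,
    Finset.prod_ne_zero_iff.2 fun i _ => hh' i, ?_, ?_, ?_, ?_, ?_⟩
  · rw [← hae, hf, map_mul, minpoly.aeval, mul_zero]
  · rw [← hae, ← Polynomial.derivative_map, hf, Polynomial.derivative_C_mul, map_mul,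
      Polynomial.aeval_C]
    exact mul_ne_zero (fun h => hcK ((algebraMap K L).injective (by rw [h, map_zero])))
      (hirr.separable.aeval_derivative_ne_zero (minpoly.aeval K θ))
  · intro i
    rw [map_mul, ← hae (g' i), hg', map_mul, hG, Polynomial.aeval_C, Polynomial.aeval_C,
      ← IsScalarTower.algebraMap_apply, ← mul_assoc, ← map_mul,
      Finset.prod_erase_mul _ _ (Finset.mem_univ i)]
  · intro F hF
    obtain ⟨k, q, r, h1, h2⟩ := pseudo f hf0 (F.natDegree + 1) F (Nat.lt_succ_self _)
    refine ⟨k, q, ?_⟩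
    have h3 : Polynomial.aeval θ r = 0 := by
      have h4 := congrArg (Polynomial.aeval θ) h1
      rw [map_mul, hF, mul_zero, map_add, map_mul, ← hae f, hf, map_mul, minpoly.aeval, mul_zero,
        zero_mul, zero_add] at h4
      exact h4.symm
    have h4 : r = 0 := by
      by_contra hr
      have h5 : r.map (algebraMap R K) ≠ 0 := (Polynomial.map_ne_zero_iff hinj).2 hr
      have h6 := minpoly.degree_le_of_ne_zero K θ h5 (by rw [hae, h3])
      rw [Polynomial.degree_map_eq_of_injective hinj r, ← hfdeg] at h6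
      exact absurd h2 (not_lt.2 h6)
    rw [h1, h4, add_zero]
  · intro F hF
    have h1 : ¬ minpoly K θ ∣ F.map (algebraMap R K) := by
      intro hd
      obtain ⟨q, hq⟩ := hd
      apply hF
      rw [← hae, hq, map_mul, minpoly.aeval, zero_mul]
    obtain ⟨u, v, huv⟩ := (hirr.coprime_iff_not_dvd.2 h1)
    obtain ⟨a₁, u', ha₁, hu'⟩ := clear (R := R) u
    obtain ⟨a₂, v', ha₂, hv'⟩ := clear (R := R) v
    refine ⟨Polynomial.C a₂ * u', Polynomial.C (c * a₁) * v', c * a₁ * a₂,
      mul_ne_zero (mul_ne_zero hc ha₁) ha₂, ?_⟩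
    apply Polynomial.map_injective _ hinj
    simp only [Polynomial.map_add, Polynomial.map_mul, Polynomial.map_C, hu', hv', hf, map_mul]
    have h2 : (Polynomial.C (algebraMap R K c) * Polynomial.C (algebraMap R K a₁) *
        Polynomial.C (algebraMap R K a₂) : Polynomial K) =
        Polynomial.C (algebraMap R K c) * Polynomial.C (algebraMap R K a₁) *
        Polynomial.C (algebraMap R K a₂) * (u * minpoly K θ + v * F.map (algebraMap R K)) := by
      rw [huv, mul_one]
    rw [h2]
    ring

end core

end Prim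

open Prim in
theorem exists_prim {L : Type} [Field L] [Algebra ℂ L] {n d : ℕ} (x : Fin n → L)
    (κ : Fin d → Fin n) (hκ : AlgebraicIndependent ℂ (fun j => x (κ j)))
    (halg : ∀ i, IsAlgebraic (Algebra.adjoin ℂ (Set.range fun j => x (κ j))) (x i)) :
    ∃ (θ : MvPolynomial (Fin n) ℂ) (f : Polynomial (MvPolynomial (Fin d) ℂ))
      (g : Fin n → Polynomial (MvPolynomial (Fin d) ℂ)) (h : MvPolynomial (Fin d) ℂ),
      h ≠ 0 ∧ ev2 (fun j => x (κ j)) (aeval x θ) f = 0 ∧
      ev2 (fun j => x (κ j)) (aeval x θ) (Polynomial.derivative f) ≠ 0 ∧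
      (∀ i, aeval (fun j => x (κ j)) h * x i = ev2 (fun j => x (κ j)) (aeval x θ) (g i)) ∧
      (∀ F : Polynomial (MvPolynomial (Fin d) ℂ),
        ev2 (fun j => x (κ j)) (aeval x θ) F = 0 →
        ∃ (k : ℕ) (q : Polynomial (MvPolynomial (Fin d) ℂ)),
          Polynomial.C (f.leadingCoeff ^ k) * F = f * q) ∧
      ∀ F : Polynomial (MvPolynomial (Fin d) ℂ),
        ev2 (fun j => x (κ j)) (aeval x θ) F ≠ 0 →
        ∃ (A B : Polynomial (MvPolynomial (Fin d) ℂ)) (N : MvPolynomial (Fin d) ℂ), N ≠ 0 ∧
          Polynomial.C N = A * f + B * F := by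
  set t : Fin d → L := fun j => x (κ j) with ht
  let φ : MvPolynomial (Fin d) ℂ →ₐ[ℂ] L := aeval t
  have hφ : Function.Injective φ := hκ
  let iR : Algebra (MvPolynomial (Fin d) ℂ) L := φ.toRingHom.toAlgebra
  have hφ' : Function.Injective (algebraMap (MvPolynomial (Fin d) ℂ) L) := hφ
  let iK : Algebra (FractionRing (MvPolynomial (Fin d) ℂ)) L :=
    (IsFractionRing.lift (K := FractionRing (MvPolynomial (Fin d) ℂ)) hφ').toAlgebra
  have iT : IsScalarTower (MvPolynomial (Fin d) ℂ) (FractionRing (MvPolynomial (Fin d) ℂ)) L :=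
    IsScalarTower.of_algebraMap_eq fun r => (IsFractionRing.lift_algebraMap hφ' r).symm
  have : CharZero (FractionRing (MvPolynomial (Fin d) ℂ)) :=
    charZero_of_injective_algebraMap (IsFractionRing.injective (MvPolynomial (Fin d) ℂ) _)
  have hx : ∀ i, IsAlgebraic (FractionRing (MvPolynomial (Fin d) ℂ)) (x i) := by
    intro i
    have hmem : ∀ r : MvPolynomial (Fin d) ℂ, φ r ∈ Algebra.adjoin ℂ (Set.range t) := by
      intro r
      rw [Algebra.adjoin_range_eq_range_aeval]
      exact ⟨r, rfl⟩
    have hsurj : Function.Surjective (φ.codRestrict (Algebra.adjoin ℂ (Set.range t)) hmem) := by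
      rintro ⟨y, hy⟩
      have hy' := hy
      rw [Algebra.adjoin_range_eq_range_aeval] at hy'
      obtain ⟨r, hr⟩ := hy'
      exact ⟨r, Subtype.ext hr⟩
    have h1 : IsAlgebraic (MvPolynomial (Fin d) ℂ) (x i) :=
      IsAlgebraic.of_ringHom_of_comp_eq
        (φ.codRestrict (Algebra.adjoin ℂ (Set.range t)) hmem).toRingHom (RingHom.id L)
        (halg i) hsurj Function.injective_id (RingHom.ext fun r => rfl)
    exact h1.extendScalars (IsFractionRing.injective (MvPolynomial (Fin d) ℂ) _)
  -- transport polynomials over `ℂ[T]`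
  have hT : ∀ Θ : MvPolynomial (Fin n) (MvPolynomial (Fin d) ℂ), aeval x Θ =
      aeval x (MvPolynomial.eval₂ (rename κ).toRingHom X Θ : MvPolynomial (Fin n) ℂ) := by
    intro Θ
    induction Θ using MvPolynomial.induction_on with
    | C a =>
      rw [MvPolynomial.eval₂_C, algHom_C]
      exact (aeval_rename κ x a).symm
    | add p q hp hq => rw [map_add, hp, hq, eval₂_add, map_add]
    | mul_X p i hp => rw [map_mul, hp, eval₂_mul, eval₂_X, map_mul, aeval_X, aeval_X]
  obtain ⟨Θ, f, g, h, h1, h2, h3, h4, h5, h6⟩ :=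
    core (R := MvPolynomial (Fin d) ℂ) (K := FractionRing (MvPolynomial (Fin d) ℂ)) x hx
  rw [hT] at h2 h3
  simp only [hT] at h4 h5 h6
  exact ⟨_, f, g, h, h1, h2, h3, h4, h5, h6⟩

end Pool.Agent.SD
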