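import Mathlib
import Pool.Agent.Lib.MP_c95b3b_ag_SD.Prim

set_option autoImplicit false

/-! Project SD (MP_c95b3b_ag), module CH: charts. -/

namespace Pool.Agent.SD

open MvPolynomial Filter Topology

namespace ChartEx

/-! ### Substitutions -/

section
variable {L : Type} [Field L] [Algebra ℂ L] {n d : ℕ}

/-- `ev2` as a ring homomorphism -/
noncomputable def evh (t : Fin d → L) (θ : L) : Polynomial (MvPolynomial (Fin d) ℂ) →+* L :=
  Polynomial.eval₂RingHom (aeval t : MvPolynomial (Fin d) ℂ →ₐ[ℂ] L).toRingHom θ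

theorem evh_eq (t : Fin d → L) (θ : L) (G : Polynomial (MvPolynomial (Fin d) ℂ)) :
    evh t θ G = ev2 t θ G := rfl

theorem evh_C (t : Fin d → L) (θ : L) (c : MvPolynomial (Fin d) ℂ) :
    evh t θ (Polynomial.C c) = aeval t c := by
  simp [evh]

/-- the homogenised substitution of `g i / h` for the variables -/
noncomputable def homg (g : Fin n → Polynomial (MvPolynomial (Fin d) ℂ))
    (h : MvPolynomial (Fin d) ℂ) (F : MvPolynomial (Fin n) ℂ) :
    Polynomial (MvPolynomial (Fin d) ℂ) :=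
  ∑ m ∈ F.support, Polynomial.C (C (F.coeff m)) * (∏ i, g i ^ m i) *
    Polynomial.C h ^ (F.totalDegree - ∑ i, m i)

theorem evh_homg (t : Fin d → L) (θ : L) (g : Fin n → Polynomial (MvPolynomial (Fin d) ℂ))
    (h : MvPolynomial (Fin d) ℂ) (F : MvPolynomial (Fin n) ℂ) (hh : aeval t h ≠ 0) :
    evh t θ (homg g h F) =
      aeval t h ^ F.totalDegree * aeval (fun i => evh t θ (g i) / aeval t h) F := by
  have h0 : aeval (fun i => evh t θ (g i) / aeval t h) F = ∑ m ∈ F.support,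
      algebraMap ℂ L (F.coeff m) * ∏ i, (evh t θ (g i) / aeval t h) ^ m i := by
    rw [aeval_def (fun i => evh t θ (g i) / aeval t h) F, eval₂_eq']
  rw [homg, map_sum, h0, Finset.mul_sum]
  refine Finset.sum_congr rfl fun m hm => ?_
  have hle : ∑ i, m i ≤ F.totalDegree := by
    have h1 := le_totalDegree hm
    rwa [Finsupp.sum_fintype _ _ (fun _ => rfl)] at h1
  simp only [map_mul, map_prod, map_pow, div_pow, Finset.prod_div_distrib,
    Finset.prod_pow_eq_pow_sum, evh_C]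
  rw [aeval_C, pow_sub₀ _ hh hle]
  field_simp

/-- the substitution of `T j = X (κ j)`, `Y = θ` -/
noncomputable def br (κ : Fin d → Fin n) (θ : MvPolynomial (Fin n) ℂ)
    (G : Polynomial (MvPolynomial (Fin d) ℂ)) : MvPolynomial (Fin n) ℂ :=
  G.eval₂ (rename κ : MvPolynomial (Fin d) ℂ →ₐ[ℂ] MvPolynomial (Fin n) ℂ).toRingHom θ

theorem aeval_br (κ : Fin d → Fin n) (θ : MvPolynomial (Fin n) ℂ)
    (G : Polynomial (MvPolynomial (Fin d) ℂ)) (x : Fin n → L) :
    aeval x (br κ θ G) = evh (fun j => x (κ j)) (aeval x θ) G := by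
  have h1 := Polynomial.hom_eval₂ G
    (rename κ : MvPolynomial (Fin d) ℂ →ₐ[ℂ] MvPolynomial (Fin n) ℂ).toRingHom
    (aeval x : MvPolynomial (Fin n) ℂ →ₐ[ℂ] L).toRingHom θ
  have h2 : (aeval x : MvPolynomial (Fin n) ℂ →ₐ[ℂ] L).toRingHom.comp
      (rename κ : MvPolynomial (Fin d) ℂ →ₐ[ℂ] MvPolynomial (Fin n) ℂ).toRingHom =
      (aeval (fun j => x (κ j)) : MvPolynomial (Fin d) ℂ →ₐ[ℂ] L).toRingHom := by
    apply MvPolynomial.ringHom_ext
    · intro r
      simp
    · intro i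
      simp
  rw [h2] at h1
  exact h1

theorem eval_br (κ : Fin d → Fin n) (θ : MvPolynomial (Fin n) ℂ)
    (G : Polynomial (MvPolynomial (Fin d) ℂ)) (z : Fin n → ℂ) :
    eval z (br κ θ G) = evh (fun j => z (κ j)) (eval z θ) G :=
  aeval_br κ θ G z

end

/-! ### Polynomial functions -/

section
variable {d : ℕ}

theorem analytic_eval (h : MvPolynomial (Fin d) ℂ) (t : Fin d → ℂ) :
    AnalyticAt ℂ (fun t : Fin d → ℂ => (aeval t h : ℂ)) t :=
  AnalyticOnNhd.eval_mvPolynomial h t (Set.mem_univ _)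

theorem analytic_evh (G : Polynomial (MvPolynomial (Fin d) ℂ)) (u : (Fin d → ℂ) × ℂ) :
    AnalyticAt ℂ (fun v : (Fin d → ℂ) × ℂ => evh v.1 v.2 G) u := by
  induction G using Polynomial.induction_on' with
  | add p q hp hq =>
    simp only [map_add]
    exact hp.add hq
  | monomial k c =>
    have h1 : (fun v : (Fin d → ℂ) × ℂ => evh v.1 v.2 (Polynomial.monomial k c)) =
        fun v => (aeval v.1 c : ℂ) * v.2 ^ k := by
      funext v
      simp [evh, Polynomial.eval₂_monomial]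
    rw [h1]
    refine AnalyticAt.mul ?_ (analyticAt_snd.pow k)
    have h2 := AnalyticAt.comp (g := fun t : Fin d → ℂ => (aeval t c : ℂ)) (f := Prod.fst)
      (x := u) (analytic_eval c u.1) analyticAt_fst
    exact h2

/-- a polynomial which vanishes on a nonempty open set is zero -/
theorem eq_zero_of_open {N : MvPolynomial (Fin d) ℂ} {U : Set (Fin d → ℂ)} (hU : IsOpen U)
    (hne : U.Nonempty) (h : ∀ t ∈ U, (aeval t N : ℂ) = 0) : N = 0 := by
  obtain ⟨t, ht⟩ := hne
  obtain ⟨r, hr, hsub⟩ := Metric.isOpen_iff.1 hU t ht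
  refine MvPolynomial.funext_set (fun i => Metric.ball (t i) r) (fun i => ?_) fun s hs => ?_
  · exact infinite_of_mem_nhds (t i) (Metric.ball_mem_nhds (t i) hr)
  · rw [map_zero]
    refine h s (hsub ?_)
    rw [Metric.mem_ball, dist_pi_lt_iff hr]
    intro i
    exact hs i (Set.mem_univ _)

end

/-! ### The implicit function -/

section
variable {d : ℕ}

/-- the implicit function theorem for the hypersurface `f = 0` -/
theorem exists_implicit (f : Polynomial (MvPolynomial (Fin d) ℂ)) (t0 : Fin d → ℂ) (y0 : ℂ)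
    (h0 : evh t0 y0 f = 0) (h1 : evh t0 y0 (Polynomial.derivative f) ≠ 0) :
    ∃ Th : (Fin d → ℂ) → ℂ, AnalyticAt ℂ Th t0 ∧ Th t0 = y0 ∧
      (∀ᶠ t in 𝓝 t0, evh t (Th t) f = 0) ∧
      ∃ V : Set ((Fin d → ℂ) × ℂ), IsOpen V ∧ (t0, y0) ∈ V ∧
        ∀ v ∈ V, evh v.1 v.2 f = 0 → Th v.1 = v.2 := by
  set Fc : (Fin d → ℂ) × ℂ → ℂ := fun v => evh v.1 v.2 f with hFc
  have hu : Fc (t0, y0) = 0 := h0
  have an : AnalyticAt ℂ Fc (t0, y0) := analytic_evh f (t0, y0)
  have cdf : ContDiffAt ℂ ⊤ Fc (t0, y0) := an.contDiffAt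
  have hd : HasFDerivAt Fc (fderiv ℂ Fc (t0, y0)) (t0, y0) :=
    an.differentiableAt.hasFDerivAt
  have hc : HasDerivAt (fun y : ℂ => Fc (t0, y))
      ((fderiv ℂ Fc (t0, y0) ∘L .inr ℂ (Fin d → ℂ) ℂ) 1) y0 := by
    have h2 : HasDerivAt (fun y : ℂ => (t0, y)) ((0 : Fin d → ℂ), (1 : ℂ)) y0 :=
      (hasDerivAt_const y0 t0).prodMk (hasDerivAt_id y0)
    exact hd.comp_hasDerivAt y0 h2
  have hc' : HasDerivAt (fun y : ℂ => Fc (t0, y)) (evh t0 y0 (Polynomial.derivative f)) y0 := by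
    have h3 : (fun y : ℂ => Fc (t0, y)) =
        fun y => (f.map (aeval t0 : MvPolynomial (Fin d) ℂ →ₐ[ℂ] ℂ).toRingHom).eval y := by
      funext y
      rw [Polynomial.eval_map]
      rfl
    have h4 : evh t0 y0 (Polynomial.derivative f) =
        (f.map (aeval t0 : MvPolynomial (Fin d) ℂ →ₐ[ℂ] ℂ).toRingHom).derivative.eval y0 := by
      rw [Polynomial.derivative_map, Polynomial.eval_map]
      rfl
    rw [h3, h4]
    exact Polynomial.hasDerivAt _ _
  have hc1 : (fderiv ℂ Fc (t0, y0) ∘L .inr ℂ (Fin d → ℂ) ℂ) 1 ≠ 0 := by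
    rw [hc.unique hc']
    exact h1
  have hinv : (fderiv ℂ Fc (t0, y0) ∘L .inr ℂ (Fin d → ℂ) ℂ).IsInvertible := by
    set A := fderiv ℂ Fc (t0, y0) ∘L .inr ℂ (Fin d → ℂ) ℂ with hA
    refine ⟨ContinuousLinearEquiv.unitsEquivAut ℂ (Units.mk0 (A 1) hc1), ?_⟩
    ext
    simp
  have hne : (⊤ : WithTop ℕ∞) ≠ 0 := by simp
  refine ⟨cdf.implicitFunction hne hinv, ?_, ?_, ?_, ?_⟩
  · have h5 := cdf.contDiffAt_implicitFunction hne hinv
    exact h5.analyticAt
  · exact cdf.implicitFunction_apply_self hne hinv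
  · have h6 := cdf.eventually_apply_implicitFunction hne hinv
    filter_upwards [h6] with t ht
    rw [hu] at ht
    exact ht
  · have h7 := cdf.eventually_apply_eq_iff_implicitFunction hne hinv
    obtain ⟨V, hV, hVo, hVm⟩ := eventually_nhds_iff.1 h7
    refine ⟨V, hVo, hVm, fun v hv hv0 => ?_⟩
    refine (hV v hv).1 ?_
    rw [hu]
    exact hv0

end

end ChartEx

open ChartEx in
theorem exists_chart {L : Type} [Field L] [Algebra ℂ L] {n d : ℕ} (x : Fin n → L)
    (hx : ∀ i, x i ≠ 0) (κ : Fin d → Fin n) (hκ : AlgebraicIndependent ℂ (fun j => x (κ j)))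
    (halg : ∀ i, IsAlgebraic (Algebra.adjoin ℂ (Set.range fun j => x (κ j))) (x i)) :
    ∃ F0 : MvPolynomial (Fin n) ℂ, aeval x F0 ≠ 0 ∧ ∀ z0, OnY x z0 → eval z0 F0 ≠ 0 →
      Nonempty (Chart x κ z0) := by
  have _hx := hx
  obtain ⟨θ, f, g, h, hh, hf0, hf1, hg, hdiv, hres⟩ := exists_prim x κ hκ halg
  -- nonvanishing of polynomials in the parameters
  have hind : ∀ P : MvPolynomial (Fin d) ℂ, P ≠ 0 → aeval (fun j => x (κ j)) P ≠ 0 := by
    intro P hP h0
    exact hP (algebraicIndependent_iff.1 hκ P h0)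
  have hfne : f ≠ 0 := by
    rintro rfl
    apply hf1
    simp [ev2]
  have hlc : f.leadingCoeff ≠ 0 := Polynomial.leadingCoeff_ne_zero.2 hfne
  refine ⟨br κ θ (Polynomial.C h * Polynomial.C f.leadingCoeff * Polynomial.derivative f), ?_,
    fun z0 hz0 hF0 => ?_⟩
  · rw [aeval_br, map_mul, map_mul, evh_C, evh_C]
    exact mul_ne_zero (mul_ne_zero (hind h hh) (hind _ hlc)) hf1
  rw [eval_br, map_mul, map_mul, evh_C, evh_C] at hF0
  set t0 : Fin d → ℂ := fun j => z0 (κ j) with ht0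
  set y0 : ℂ := eval z0 θ with hy0
  have hh0 : (aeval t0 h : ℂ) ≠ 0 := left_ne_zero_of_mul (left_ne_zero_of_mul hF0)
  have hl0 : (aeval t0 f.leadingCoeff : ℂ) ≠ 0 :=
    right_ne_zero_of_mul (left_ne_zero_of_mul hF0)
  have hd0 : evh t0 y0 (Polynomial.derivative f) ≠ 0 := right_ne_zero_of_mul hF0
  -- relations hold at the points of the variety
  have hrel : ∀ z, OnY x z → ∀ G : Polynomial (MvPolynomial (Fin d) ℂ),
      evh (fun j => x (κ j)) (aeval x θ) G = 0 → evh (fun j => z (κ j)) (eval z θ) G = 0 := by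
    intro z hz G hG
    rw [← eval_br]
    apply hz.2
    rw [aeval_br]
    exact hG
  have hrelg : ∀ z, OnY x z → ∀ i,
      (aeval (fun j => z (κ j)) h : ℂ) * z i = evh (fun j => z (κ j)) (eval z θ) (g i) := by
    intro z hz i
    have h1 : aeval x (br κ θ (Polynomial.C h) * X i - br κ θ (g i)) = 0 := by
      rw [map_sub, map_mul, aeval_br, aeval_br, evh_C, aeval_X, hg i]
      exact sub_self _
    have h2 := hz.2 _ h1
    rw [map_sub, map_mul, eval_br, eval_br, evh_C, eval_X] at h2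
    exact sub_eq_zero.1 h2
  obtain ⟨Th, hTan, hT0, hTf, V, hVo, hVm, hV⟩ :=
    exists_implicit f t0 y0 (hrel z0 hz0 f hf0) hd0
  -- the coordinate functions
  set ψ : (Fin d → ℂ) → Fin n → ℂ := fun t i => evh t (Th t) (g i) / (aeval t h : ℂ) with hψ
  have hanum : ∀ (G : Polynomial (MvPolynomial (Fin d) ℂ)) (t : Fin d → ℂ),
      AnalyticAt ℂ Th t → AnalyticAt ℂ (fun t => evh t (Th t) G) t := by
    intro G t ht
    have h1 : AnalyticAt ℂ (fun t : Fin d → ℂ => (t, Th t)) t := analyticAt_id.prod ht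
    have h2 := AnalyticAt.comp (g := fun v : (Fin d → ℂ) × ℂ => evh v.1 v.2 G)
      (f := fun t : Fin d → ℂ => (t, Th t)) (x := t) (analytic_evh G (t, Th t)) h1
    exact h2
  have hψan : ∀ t : Fin d → ℂ, AnalyticAt ℂ Th t → (aeval t h : ℂ) ≠ 0 →
      ∀ i, AnalyticAt ℂ (fun t => ψ t i) t := by
    intro t ht hht i
    exact (hanum (g i) t ht).div (analytic_eval h t) hht
  have hψ0 : ψ t0 = z0 := by
    funext i
    show evh t0 (Th t0) (g i) / (aeval t0 h : ℂ) = z0 i
    rw [hT0, ← hrelg z0 hz0 i]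
    exact mul_div_cancel_left₀ _ hh0
  -- the ball
  have hev : ∀ᶠ t in 𝓝 t0, AnalyticAt ℂ Th t ∧ evh t (Th t) f = 0 ∧ (aeval t h : ℂ) ≠ 0 ∧
      (aeval t f.leadingCoeff : ℂ) ≠ 0 ∧ ∀ i, ψ t i ≠ 0 := by
    refine (hTan.eventually_analyticAt).and (hTf.and (?_ : ∀ᶠ t in 𝓝 t0, _ ∧ _ ∧ _))
    refine ((analytic_eval h t0).continuousAt.eventually_ne hh0).and
      (((analytic_eval f.leadingCoeff t0).continuousAt.eventually_ne hl0).and ?_)
    rw [eventually_all]
    intro i
    refine ((hψan t0 hTan hh0 i).continuousAt.eventually_ne ?_)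
    rw [hψ0]
    exact hz0.1 i
  obtain ⟨r, hr, hball⟩ := Metric.eventually_nhds_iff_ball.1 hev
  -- transfer of relations
  have htr : ∀ t ∈ Metric.ball t0 r, ∀ G : Polynomial (MvPolynomial (Fin d) ℂ),
      evh (fun j => x (κ j)) (aeval x θ) G = 0 → evh t (Th t) G = 0 := by
    intro t ht G hG
    obtain ⟨k, q, hkq⟩ := hdiv G hG
    have h1 := congrArg (evh t (Th t)) hkq
    rw [map_mul, map_mul, evh_C, map_pow, (hball t ht).2.1, zero_mul] at h1
    exact (mul_eq_zero.1 h1).resolve_left (pow_ne_zero _ (hball t ht).2.2.2.1)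
  have hhx : aeval (fun j => x (κ j)) h ≠ 0 := hind h hh
  have hxq : (fun i => evh (fun j => x (κ j)) (aeval x θ) (g i) / aeval (fun j => x (κ j)) h) = x := by
    funext i
    rw [evh_eq, ← hg i]
    exact mul_div_cancel_left₀ _ hhx
  have hhomx : ∀ F : MvPolynomial (Fin n) ℂ, evh (fun j => x (κ j)) (aeval x θ) (homg g h F) =
      aeval (fun j => x (κ j)) h ^ F.totalDegree * aeval x F := by
    intro F
    rw [evh_homg _ _ _ _ _ hhx, hxq]
  have hhomt : ∀ t ∈ Metric.ball t0 r, ∀ F : MvPolynomial (Fin n) ℂ,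
      evh t (Th t) (homg g h F) = (aeval t h : ℂ) ^ F.totalDegree * eval (ψ t) F := by
    intro t ht F
    rw [evh_homg _ _ _ _ _ (hball t ht).2.2.1]
    rfl
  refine ⟨{
    U := Metric.ball t0 r
    isOpen := Metric.isOpen_ball
    preconn := (convex_ball t0 r).isPreconnected
    t0 := t0
    t0_mem := Metric.mem_ball_self hr
    ψ := ψ
    an := ?_
    base := hψ0
    on := ?_
    coord := ?_
    O := {z | (fun j => z (κ j)) ∈ Metric.ball t0 r ∧ ((fun j => z (κ j)), eval z θ) ∈ V}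
    O_open := ?_
    O_mem := ⟨Metric.mem_ball_self hr, hVm⟩
    cover := ?_
    gen := ?_ }⟩
  · intro t ht
    rw [analyticAt_pi_iff]
    exact hψan t (hball t ht).1 (hball t ht).2.2.1
  · intro t ht
    refine ⟨(hball t ht).2.2.2.2, fun F hF => ?_⟩
    have h1 := htr t ht (homg g h F) (by rw [hhomx, hF, mul_zero])
    rw [hhomt t ht] at h1
    exact (mul_eq_zero.1 h1).resolve_left (pow_ne_zero _ (hball t ht).2.2.1)
  · intro t ht j
    have h1 := htr t ht (Polynomial.C h * Polynomial.C (X j) - g (κ j)) (by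
      rw [map_sub, map_mul, evh_C, evh_C, aeval_X, hg (κ j)]
      exact sub_self _)
    rw [map_sub, map_mul, evh_C, evh_C, aeval_X] at h1
    show evh t (Th t) (g (κ j)) / (aeval t h : ℂ) = t j
    rw [← sub_eq_zero.1 h1]
    exact mul_div_cancel_left₀ _ (hball t ht).2.2.1
  · have hc1 : Continuous (fun z : Fin n → ℂ => fun j => z (κ j)) := by fun_prop
    have hc2 : Continuous (fun z : Fin n → ℂ => ((fun j => z (κ j)), eval z θ)) :=
      hc1.prodMk (MvPolynomial.continuous_eval θ)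
    exact (Metric.isOpen_ball.preimage hc1).inter (hVo.preimage hc2)
  · rintro z ⟨hz1, hz2⟩ hz
    refine ⟨hz1, ?_⟩
    have h1 : Th (fun j => z (κ j)) = eval z θ := hV _ hz2 (hrel z hz f hf0)
    funext i
    show evh (fun j => z (κ j)) (Th (fun j => z (κ j))) (g i) /
      (aeval (fun j => z (κ j)) h : ℂ) = z i
    rw [h1, ← hrelg z hz i]
    exact mul_div_cancel_left₀ _ (hball _ hz1).2.2.1
  · intro F hF U' hU' hsub hne
    by_contra hcon
    push Not at hcon
    obtain ⟨A, B, N, hN, hAB⟩ := hres (homg g h F) (by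
      rw [← evh_eq, hhomx]
      exact mul_ne_zero (pow_ne_zero _ hhx) hF)
    apply hN
    refine eq_zero_of_open hU' hne fun t ht => ?_
    have h1 := congrArg (evh t (Th t)) hAB
    rw [evh_C, map_add, map_mul, map_mul, (hball t (hsub ht)).2.1, hhomt t (hsub ht), hcon t ht,
      mul_zero, mul_zero, mul_zero, add_zero] at h1
    exact h1

end Pool.Agent.SD
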