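import Mathlib
import Pool.Agent.Lib.MP_c95b3b_ag_SD.Defs

set_option autoImplicit false

/-! Project SD (MP_c95b3b_ag), module CO: counting solutions by the inverse function theorem. -/

namespace Pool.Agent.SD

open Filter Topology

/-- the pair of linear maps with the integral matrix `α` and the real matrix `β` -/
private noncomputable def cntT {n d' τ : ℕ} (α : Fin d' → Fin n → ℤ) (β : Fin τ → Fin n → ℝ) :
    (Fin n → ℂ) →L[ℂ] (Fin d' → ℂ) × (Fin τ → ℂ) :=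
  LinearMap.toContinuousLinearMap
    { toFun := fun w => (fun j => ∑ l, (α j l : ℂ) * w l, fun i => ∑ l, (β i l : ℂ) * w l)
      map_add' := by
        intro x y
        ext j <;> simp [mul_add, Finset.sum_add_distrib]
      map_smul' := by
        intro c x
        ext j <;> simp [Finset.mul_sum, mul_left_comm] }

private theorem cntT_apply {n d' τ : ℕ} (α : Fin d' → Fin n → ℤ) (β : Fin τ → Fin n → ℝ)
    (w : Fin n → ℂ) : cntT α β w =
      (fun j => ∑ l, (α j l : ℂ) * w l, fun i => ∑ l, (β i l : ℂ) * w l) := rfl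

private theorem cntT_sub {n d' τ : ℕ} (α : Fin d' → Fin n → ℤ) (β β' : Fin τ → Fin n → ℝ)
    {δ : ℝ} (hδ : 0 ≤ δ) (h : ∀ i l, |β i l - β' i l| ≤ δ) (w : Fin n → ℂ) :
    ‖cntT α β w - cntT α β' w‖ ≤ n * δ * ‖w‖ := by
  rw [cntT_apply, cntT_apply, Prod.mk_sub_mk, sub_self, Prod.norm_mk, norm_zero]
  have hb : 0 ≤ n * δ * ‖w‖ := by positivity
  refine max_le hb ?_
  rw [pi_norm_le_iff_of_nonneg hb]
  intro i
  rw [Pi.sub_apply, ← Finset.sum_sub_distrib]
  calc ‖∑ l, ((β i l : ℂ) * w l - (β' i l : ℂ) * w l)‖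
      ≤ ∑ l, ‖(β i l : ℂ) * w l - (β' i l : ℂ) * w l‖ := norm_sum_le _ _
    _ ≤ ∑ _l : Fin n, δ * ‖w‖ := by
        refine Finset.sum_le_sum fun l _ => ?_
        rw [← sub_mul, norm_mul]
        have h1 : ‖(β i l : ℂ) - (β' i l : ℂ)‖ ≤ δ := by
          rw [← Complex.ofReal_sub, Complex.norm_real, Real.norm_eq_abs]
          exact h i l
        exact mul_le_mul h1 (norm_le_pi_norm w l) (norm_nonneg _) hδ
    _ = n * δ * ‖w‖ := by
        rw [Finset.sum_const, Finset.card_univ, Fintype.card_fin, nsmul_eq_mul, mul_assoc]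

theorem count_sol {n d' τ d : ℕ} (hd : d' + τ = d) (t0 : Fin d → ℂ) (U : Set (Fin d → ℂ))
    (hU : U ∈ 𝓝 t0) (ℓ : (Fin d → ℂ) → Fin n → ℂ) (hℓ : AnalyticAt ℂ ℓ t0)
    (α : Fin d' → Fin n → ℤ) (b : Fin τ → Fin n → ℝ)
    (hinj : ∀ v : Fin d → ℂ, (∀ j, ∑ l, (α j l : ℂ) * fderiv ℂ ℓ t0 v l = 0) →
      (∀ i, ∑ l, (b i l : ℂ) * fderiv ℂ ℓ t0 v l = 0) → v = 0) :
    ∃ c : ℝ, 0 < c ∧ ∃ M0 : ℕ, ∀ M : ℕ, M0 ≤ M → ∀ a : Fin τ → Fin n → ℤ,
      (∀ i l, |(a i l : ℝ) - M * b i l| ≤ 1) → ∃ Q : Finset (Fin d → ℂ), c * M ^ τ ≤ Q.card ∧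
        ∀ t ∈ Q, t ∈ U ∧ (∀ j, ∑ l, (α j l : ℂ) * ℓ t l = ∑ l, (α j l : ℂ) * ℓ t0 l) ∧
          ∀ i, ∃ k : ℤ, ∑ l, (a i l : ℂ) * ℓ t l =
            ∑ l, (a i l : ℂ) * ℓ t0 l + k * (2 * Real.pi * Complex.I) := by
  classical
  rcases Nat.eq_zero_or_pos τ with hτ | hτ
  · subst hτ
    refine ⟨1, one_pos, 0, fun M _ a _ => ⟨{t0}, by simp, fun t ht => ?_⟩⟩
    rw [Finset.mem_singleton] at ht
    subst ht
    exact ⟨mem_of_mem_nhds hU, fun _ => rfl, fun i => i.elim0⟩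
  -- the linear map
  set D0 : (Fin d → ℂ) →L[ℂ] (Fin n → ℂ) := fderiv ℂ ℓ t0 with hD0
  have hLinj : Function.Injective ((cntT α b).comp D0).toLinearMap := by
    rw [injective_iff_map_eq_zero]
    intro v hv
    have h1 : cntT α b (D0 v) = 0 := hv
    rw [cntT_apply, Prod.mk_eq_zero] at h1
    exact hinj v (fun j => congrFun h1.1 j) (fun i => congrFun h1.2 i)
  have hfin : Module.finrank ℂ (Fin d → ℂ) = Module.finrank ℂ ((Fin d' → ℂ) × (Fin τ → ℂ)) := by
    rw [Module.finrank_prod, Module.finrank_fintype_fun_eq_card,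
      Module.finrank_fintype_fun_eq_card, Module.finrank_fintype_fun_eq_card,
      Fintype.card_fin, Fintype.card_fin, Fintype.card_fin, hd]
  set A : (Fin d → ℂ) ≃L[ℂ] (Fin d' → ℂ) × (Fin τ → ℂ) :=
    (LinearEquiv.ofInjectiveOfFinrankEq ((cntT α b).comp D0).toLinearMap
      hLinj hfin).toContinuousLinearEquiv with hA
  have hAv : ∀ v, A v = cntT α b (D0 v) := fun v => rfl
  have hdpos : 0 < d := by omega
  have : Nonempty (Fin d) := ⟨⟨0, hdpos⟩⟩
  have hNpos : 0 < ‖(A.symm : (Fin d' → ℂ) × (Fin τ → ℂ) →L[ℂ] (Fin d → ℂ))‖ := A.norm_symm_pos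
  set N : ℝ := ‖(A.symm : (Fin d' → ℂ) × (Fin τ → ℂ) →L[ℂ] (Fin d → ℂ))‖ with hN
  set K : ℝ := ‖cntT α b‖ + n + 1 with hK
  have hKpos : 0 < K := by positivity
  set ε : ℝ := 1 / (2 * N) with hε
  have hεpos : 0 < ε := by positivity
  -- the neighbourhood
  have hstr : HasStrictFDerivAt ℓ D0 t0 := hℓ.hasStrictFDerivAt
  have hc1 : 0 < ε / (2 * K) := by positivity
  obtain ⟨s, hs, happ⟩ := hstr.approximates_deriv_on_nhds
    (c := ⟨ε / (2 * K), hc1.le⟩) (Or.inr hc1)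
  obtain ⟨r, hr, hball⟩ := Metric.nhds_basis_closedBall.mem_iff.1 (Filter.inter_mem hs hU)
  set r' : ℝ := (N⁻¹ - ε) * r with hr'
  have hr'pos : 0 < r' := by
    have : N⁻¹ - ε = 1 / (2 * N) := by
      rw [hε]
      field_simp
      norm_num
    rw [hr', this]
    positivity
  set c1 : ℝ := r' / (2 * Real.pi) with hc1'
  have hc1pos : 0 < c1 := by positivity
  obtain ⟨M0, hM0⟩ := exists_nat_gt (2 * n * ‖D0‖ / ε)
  refine ⟨c1 ^ τ, by positivity, M0 + 1, fun M hM a ha => ?_⟩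
  have hMpos : (0 : ℝ) < M := by
    have : 0 < M := by omega
    exact_mod_cast this
  have hM1 : (1 : ℝ) ≤ M := by
    have : 1 ≤ M := by omega
    exact_mod_cast this
  set β : Fin τ → Fin n → ℝ := fun i l => a i l / M with hβ
  have hβb : ∀ i l, |β i l - b i l| ≤ 1 / M := by
    intro i l
    have h1 : β i l - b i l = ((a i l : ℝ) - M * b i l) / M := by
      rw [hβ]
      field_simp
    rw [h1, abs_div, abs_of_pos hMpos]
    exact div_le_div_of_nonneg_right (ha i l) hMpos.le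
  have hδ1 : (1 : ℝ) / M ≤ 1 := by
    rw [div_le_one hMpos]
    exact hM1
  have hTβ : ∀ w, ‖cntT α β w‖ ≤ (‖cntT α b‖ + n) * ‖w‖ := by
    intro w
    have h1 := cntT_sub α β b (by positivity : (0 : ℝ) ≤ 1 / M) hβb w
    have h2 : cntT α β w = cntT α b w + (cntT α β w - cntT α b w) := by abel
    rw [h2]
    refine (norm_add_le _ _).trans ?_
    have h3 := (cntT α b).le_opNorm w
    have h4 : (n : ℝ) * (1 / M) * ‖w‖ ≤ n * ‖w‖ := by
      have h5 : (n : ℝ) * (1 / M) ≤ n * 1 := by gcongr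
      calc (n : ℝ) * (1 / M) * ‖w‖ ≤ (n * 1) * ‖w‖ := by gcongr
        _ = n * ‖w‖ := by ring
    nlinarith [norm_nonneg w]
  set Φ : (Fin d → ℂ) → (Fin d' → ℂ) × (Fin τ → ℂ) := fun t => cntT α β (ℓ t) with hΦ
  have hΦapp : ApproximatesLinearOn Φ (A : (Fin d → ℂ) →L[ℂ] _) s ⟨ε, hεpos.le⟩ := by
    intro x hx y hy
    have h1 := happ x hx y hy
    have h2 : Φ x - Φ y - (A : (Fin d → ℂ) →L[ℂ] _) (x - y) =
        cntT α β (ℓ x - ℓ y - D0 (x - y)) + (cntT α β (D0 (x - y)) - cntT α b (D0 (x - y))) := by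
      have h3 : (A : (Fin d → ℂ) →L[ℂ] _) (x - y) = cntT α b (D0 (x - y)) := hAv _
      rw [h3]
      simp only [hΦ, map_sub]
      abel
    rw [h2]
    have h4 := hTβ (ℓ x - ℓ y - D0 (x - y))
    have h5 := cntT_sub α β b (by positivity : (0 : ℝ) ≤ 1 / M) hβb (D0 (x - y))
    have h6 := D0.le_opNorm (x - y)
    have h7 : ‖ℓ x - ℓ y - D0 (x - y)‖ ≤ ε / (2 * K) * ‖x - y‖ := h1
    have h8 : (‖cntT α b‖ + n) * ‖ℓ x - ℓ y - D0 (x - y)‖ ≤ ε / 2 * ‖x - y‖ := by
      have h9 : (‖cntT α b‖ + n) * ‖ℓ x - ℓ y - D0 (x - y)‖ ≤ K * (ε / (2 * K) * ‖x - y‖) := by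
        refine mul_le_mul ?_ h7 (norm_nonneg _) hKpos.le
        rw [hK]
        linarith
      have h10 : K * (ε / (2 * K) * ‖x - y‖) = ε / 2 * ‖x - y‖ := by
        field_simp
      linarith
    have h11 : (n : ℝ) * (1 / M) * ‖D0 (x - y)‖ ≤ ε / 2 * ‖x - y‖ := by
      have h12 : (n : ℝ) * (1 / M) * ‖D0 (x - y)‖ ≤ n * (1 / M) * (‖D0‖ * ‖x - y‖) := by gcongr
      have h13 : (n : ℝ) * (1 / M) * ‖D0‖ ≤ ε / 2 := by
        have h14 : 2 * n * ‖D0‖ / ε < M := by
          have : ((M0 : ℕ) : ℝ) ≤ M := by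
            have : M0 ≤ M := by omega
            exact_mod_cast this
          linarith
        rw [div_lt_iff₀ hεpos] at h14
        rw [mul_one_div, div_mul_eq_mul_div, div_le_iff₀ hMpos]
        nlinarith
      calc (n : ℝ) * (1 / M) * ‖D0 (x - y)‖ ≤ n * (1 / M) * (‖D0‖ * ‖x - y‖) := h12
        _ = (n * (1 / M) * ‖D0‖) * ‖x - y‖ := by ring
        _ ≤ ε / 2 * ‖x - y‖ := by gcongr
    calc ‖cntT α β (ℓ x - ℓ y - D0 (x - y)) +
          (cntT α β (D0 (x - y)) - cntT α b (D0 (x - y)))‖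
        ≤ ‖cntT α β (ℓ x - ℓ y - D0 (x - y))‖ +
          ‖cntT α β (D0 (x - y)) - cntT α b (D0 (x - y))‖ := norm_add_le _ _
      _ ≤ ε * ‖x - y‖ := by linarith
  have hsurj := hΦapp.surjOn_closedBall_of_nonlinearRightInverse A.toNonlinearRightInverse hr.le
    (fun x hx => (hball hx).1)
  have hsurj' : Set.SurjOn Φ (Metric.closedBall t0 r) (Metric.closedBall (Φ t0) r') := hsurj
  -- the solutions
  set κ : ℤ := ⌊c1 * M⌋ with hκ
  have hκ0 : 0 ≤ κ := Int.floor_nonneg.2 (by positivity)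
  set S : Finset (Fin τ → ℤ) := Fintype.piFinset fun _ => Finset.Icc (-κ) κ with hS
  have hex : ∀ k ∈ S, ∃ t ∈ Metric.closedBall t0 r,
      Φ t = Φ t0 + (0, fun i => (k i : ℂ) * (2 * Real.pi * Complex.I) / M) := by
    intro k hk
    have h1 : Φ t0 + (0, fun i => (k i : ℂ) * (2 * Real.pi * Complex.I) / M) ∈
        Metric.closedBall (Φ t0) r' := by
      rw [mem_closedBall_iff_norm, add_sub_cancel_left, Prod.norm_mk, norm_zero]
      refine max_le hr'pos.le ?_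
      rw [pi_norm_le_iff_of_nonneg hr'pos.le]
      intro i
      have h2 : |k i| ≤ κ := by
        have := Fintype.mem_piFinset.1 hk i
        rw [Finset.mem_Icc] at this
        exact abs_le.2 this
      have h3 : |(k i : ℝ)| ≤ c1 * M := by
        have h4 : ((|k i| : ℤ) : ℝ) ≤ κ := by exact_mod_cast h2
        rw [Int.cast_abs] at h4
        exact h4.trans (Int.floor_le _)
      have h5 : ‖(k i : ℂ) * (2 * Real.pi * Complex.I) / M‖ = |(k i : ℝ)| * (2 * Real.pi) / M := by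
        rw [norm_div, norm_mul, norm_mul, norm_mul, Complex.norm_I, Complex.norm_real,
          Complex.norm_intCast, Complex.norm_natCast, Real.norm_eq_abs, abs_of_pos Real.pi_pos,
          Complex.norm_ofNat, mul_one]
      rw [h5, div_le_iff₀ hMpos]
      calc |(k i : ℝ)| * (2 * Real.pi) ≤ c1 * M * (2 * Real.pi) := by gcongr
        _ = r' * M := by
          rw [hc1']
          field_simp
    obtain ⟨t, ht, hΦt⟩ := hsurj' h1
    exact ⟨t, ht, hΦt⟩
  choose! g hg1 hg2 using hex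
  have hginj : Set.InjOn g S := by
    intro k hk k' hk' h
    have h1 := hg2 k hk
    have h2 := hg2 k' hk'
    rw [h, h2] at h1
    have h3 := add_left_cancel h1
    have h4 := (Prod.mk.injEq _ _ _ _).mp h3
    funext i
    have h5 := congrFun h4.2 i
    have hpi : (2 * Real.pi * Complex.I : ℂ) ≠ 0 := Complex.two_pi_I_ne_zero
    have hMc : (M : ℂ) ≠ 0 := by exact_mod_cast hMpos.ne'
    field_simp at h5
    exact_mod_cast h5.symm
  refine ⟨S.image g, ?_, ?_⟩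
  · rw [Finset.card_image_of_injOn hginj, hS, Fintype.card_piFinset, Finset.prod_const,
      Finset.card_univ, Fintype.card_fin, Int.card_Icc, ← mul_pow]
    push_cast
    refine pow_le_pow_left₀ (by positivity) ?_ _
    have h1 : ((κ + 1 - -κ).toNat : ℝ) = 2 * κ + 1 := by
      have h2 : ((κ + 1 - -κ).toNat : ℤ) = κ + 1 - -κ := Int.toNat_of_nonneg (by omega)
      have h3 : (((κ + 1 - -κ).toNat : ℤ) : ℝ) = ((κ + 1 - -κ : ℤ) : ℝ) := by rw [h2]
      rw [Int.cast_natCast] at h3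
      rw [h3]
      push_cast
      ring
    rw [h1]
    have h4 : c1 * M < κ + 1 := Int.lt_floor_add_one _
    have h5 : (0 : ℝ) ≤ κ := by exact_mod_cast hκ0
    linarith
  · intro t ht
    obtain ⟨k, hk, rfl⟩ := Finset.mem_image.1 ht
    have h1 := hg2 k hk
    simp only [hΦ] at h1
    rw [cntT_apply, cntT_apply, Prod.mk_add_mk, add_zero] at h1
    have h2 := (Prod.mk.injEq _ _ _ _).mp h1
    refine ⟨(hball (hg1 k hk)).2, fun j => congrFun h2.1 j, fun i => ⟨k i, ?_⟩⟩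
    have h3 := congrFun h2.2 i
    simp only [Pi.add_apply, hβ] at h3
    have hMc : (M : ℂ) ≠ 0 := by exact_mod_cast hMpos.ne'
    have h4 : ∀ t : Fin d → ℂ, ∑ l, (((a i l : ℝ) / M : ℝ) : ℂ) * ℓ t l =
        (∑ l, (a i l : ℂ) * ℓ t l) / M := by
      intro t
      rw [Finset.sum_div]
      refine Finset.sum_congr rfl fun l _ => ?_
      push_cast
      ring
    rw [h4, h4, ← add_div, div_left_inj' hMc] at h3
    exact h3

end Pool.Agent.SD
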