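import Mathlib
import Pool.Agent.Lib.MP_c95b3b_ag_SD.Defs

set_option autoImplicit false

/-! Project SD (MP_c95b3b_ag), module EV: monomials separate points. -/

namespace Pool.Agent.SD

namespace Eval

open MvPolynomial

/-- evaluation at the points of `Q` -/
noncomputable def ev {n : ℕ} (Q : Finset (Fin n → ℂ)) :
    MvPolynomial (Fin n) ℂ →ₐ[ℂ] (Q → ℂ) := aeval (fun i => fun z : Q => z.1 i)

theorem ev_X {n : ℕ} (Q : Finset (Fin n → ℂ)) (i : Fin n) (z : Q) : ev Q (X i) z = z.1 i := by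
  simp [ev]

theorem ev_C {n : ℕ} (Q : Finset (Fin n → ℂ)) (c : ℂ) (z : Q) : ev Q (C c) z = c := by
  simp [ev, Pi.algebraMap_apply]

theorem ev_monomial {n : ℕ} (Q : Finset (Fin n → ℂ)) (e : Fin n →₀ ℕ) (z : Q) :
    ev Q (monomial e 1) z = ∏ i, z.1 i ^ e i := by
  unfold ev
  rw [aeval_monomial, map_one, one_mul, Finsupp.prod_fintype _ _ (fun i => pow_zero _),
    Finset.prod_apply]
  rfl

theorem ev_surj {n : ℕ} (Q : Finset (Fin n → ℂ)) : Function.Surjective (ev Q) := by
  classical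
  have hsep : ∀ z w : Q, z ≠ w → ∃ i, z.1 i ≠ w.1 i := by
    intro z w h
    by_contra hcon
    push Not at hcon
    exact h (Subtype.ext (funext hcon))
  have hind : ∀ z : Q, ∃ p : MvPolynomial (Fin n) ℂ, ∀ w : Q, ev Q p w = if w = z then 1 else 0 := by
    intro z
    have hsep2 : ∀ w : Q, ∃ p : MvPolynomial (Fin n) ℂ, w ≠ z →
        (ev Q p z = 1 ∧ ev Q p w = 0) := by
      intro w
      by_cases h : w = z
      · exact ⟨0, fun h' => absurd h h'⟩
      · obtain ⟨i, hi⟩ := hsep z w (Ne.symm h)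
        refine ⟨C ((z.1 i - w.1 i)⁻¹) * (X i - C (w.1 i)), fun _ => ⟨?_, ?_⟩⟩
        · rw [map_mul, map_sub, Pi.mul_apply, Pi.sub_apply, ev_C, ev_X, ev_C]
          exact inv_mul_cancel₀ (sub_ne_zero.2 hi)
        · rw [map_mul, map_sub, Pi.mul_apply, Pi.sub_apply, ev_C, ev_X, ev_C, sub_self, mul_zero]
    choose g hg using hsep2
    refine ⟨∏ y ∈ Finset.univ.erase z, g y, ?_⟩
    intro w
    rw [map_prod, Finset.prod_apply]
    split_ifs with h
    · subst h
      exact Finset.prod_eq_one fun y hy => (hg y (Finset.ne_of_mem_erase hy)).1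
    · exact Finset.prod_eq_zero (Finset.mem_erase.2 ⟨h, Finset.mem_univ w⟩) (hg w h).2
  choose p hp using hind
  intro f
  refine ⟨∑ z : Q, C (f z) * p z, ?_⟩
  funext w
  rw [map_sum, Finset.sum_apply]
  have h : ∀ z : Q, ev Q (C (f z) * p z) w = if w = z then f z else 0 := by
    intro z
    rw [map_mul, Pi.mul_apply, ev_C, hp]
    split_ifs <;> simp
  rw [Finset.sum_congr rfl fun z _ => h z]
  simp

theorem span_mon {n : ℕ} (Q : Finset (Fin n → ℂ)) :
    Submodule.span ℂ (Set.range (fun e : Fin n →₀ ℕ => ev Q (monomial e 1))) = ⊤ := by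
  rw [eq_top_iff]
  intro f _
  obtain ⟨p, rfl⟩ := ev_surj Q f
  induction p using MvPolynomial.induction_on' with
  | monomial e a =>
    have h : ev Q (monomial e a) = a • ev Q (monomial e 1) := by
      rw [← map_smul, smul_monomial, smul_eq_mul, mul_one]
    rw [h]
    exact Submodule.smul_mem _ _ (Submodule.subset_span ⟨e, rfl⟩)
  | add p q hp hq =>
    rw [map_add]
    exact Submodule.add_mem _ (hp trivial) (hq trivial)

end Eval

theorem exists_exps {n : ℕ} (Q : Finset (Fin n → ℂ)) : ∃ E : Finset (Fin n → ℤ),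
    E.card = Q.card ∧ (∀ e ∈ E, ∀ i, 0 ≤ e i) ∧ ∀ c : (Fin n → ℤ) → ℂ,
      (∀ z ∈ Q, ∑ e ∈ E, c e * mn z e = 0) → ∀ e ∈ E, c e = 0 := by
  classical
  obtain ⟨κ, a, ha, hspan, hli⟩ := exists_linearIndependent' ℂ
    (fun e : Fin n →₀ ℕ => Eval.ev Q (MvPolynomial.monomial e 1))
  rw [Eval.span_mon] at hspan
  let B := Module.Basis.mk hli hspan.ge
  have : Finite κ := Module.Finite.finite_basis B
  have : Fintype κ := Fintype.ofFinite κ
  have hcard : Fintype.card κ = Q.card := by
    rw [← Module.finrank_eq_card_basis B, Module.finrank_fintype_fun_eq_card, Fintype.card_coe]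
  have hinj : Function.Injective (fun k : κ => fun i : Fin n => ((a k i : ℕ) : ℤ)) := by
    intro k l h
    apply ha
    ext i
    have h1 : ((a k i : ℕ) : ℤ) = ((a l i : ℕ) : ℤ) := congrFun h i
    exact_mod_cast h1
  refine ⟨Finset.univ.image (fun k : κ => fun i : Fin n => ((a k i : ℕ) : ℤ)), ?_, ?_, ?_⟩
  · rw [Finset.card_image_of_injective _ hinj, Finset.card_univ, hcard]
  · intro e he i
    obtain ⟨k, _, rfl⟩ := Finset.mem_image.1 he
    exact Int.natCast_nonneg _
  · intro c hc e he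
    obtain ⟨k, _, rfl⟩ := Finset.mem_image.1 he
    have h1 : ∑ k : κ, c (fun i => ((a k i : ℕ) : ℤ)) •
        ((fun e : Fin n →₀ ℕ => Eval.ev Q (MvPolynomial.monomial e 1)) ∘ a) k = 0 := by
      funext z
      have h2 := hc z.1 z.2
      rw [Finset.sum_image (fun x _ y _ h => hinj h)] at h2
      rw [Finset.sum_apply, Pi.zero_apply, ← h2]
      refine Finset.sum_congr rfl fun k _ => ?_
      rw [Pi.smul_apply, smul_eq_mul, Function.comp_apply, Eval.ev_monomial]
      simp [mn]
    exact Fintype.linearIndependent_iff.1 hli _ h1 k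

end Pool.Agent.SD
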