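import Mathlib
import Pool.Agent.Lib.MP_c95b3b_ag_SD.RkAlg

set_option autoImplicit false

/-! Project SD (MP_c95b3b_ag), module LK: the forms in a chart. -/

namespace Pool.Agent.SD

open MvPolynomial Filter Topology

/-- the Jacobian matrix of `∑ l, b j l * log (ψ t l)` -/
noncomputable def jac {d n : ℕ} (b : Fin d → Fin n → ℝ) (ψ : (Fin d → ℂ) → Fin n → ℂ)
    (t : Fin d → ℂ) : Matrix (Fin d) (Fin d) ℂ :=
  fun j i => ∑ l, (b j l : ℂ) * (fderiv ℂ ψ t (Pi.single i 1) l / ψ t l)

namespace Link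

open Module

theorem pderiv_deg {ι : Type} [DecidableEq ι] (f : MvPolynomial ι ℂ) (l : ι)
    (hl : l ∈ f.vars) : (pderiv l f).degreeOf l < f.degreeOf l ∧ pderiv l f ≠ 0 := by
  have h0 : f.degreeOf l ≠ 0 := mem_vars_iff_degreeOf_ne_zero.mp hl
  constructor
  · rw [degreeOf_lt_iff (Nat.pos_of_ne_zero h0)]
    intro m hm
    rw [MvPolynomial.mem_support_iff, coeff_pderiv] at hm
    have h1 : m + Finsupp.single l 1 ∈ f.support :=
      MvPolynomial.mem_support_iff.mpr (left_ne_zero_of_mul hm)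
    have h2 := monomial_le_degreeOf l h1
    rw [Finsupp.add_apply, Finsupp.single_eq_same] at h2
    omega
  · obtain ⟨m, hm, hml⟩ := (mem_vars_iff_mem_support l).mp hl
    rw [Finsupp.mem_support_iff] at hml
    intro hz
    have h1 : coeff (m - Finsupp.single l 1) (pderiv l f) = 0 := by rw [hz, coeff_zero]
    have h2 : m - Finsupp.single l 1 + Finsupp.single l 1 = m := by
      ext j
      rw [Finsupp.add_apply, Finsupp.tsub_apply]
      by_cases hj : j = l
      · subst hj
        rw [Finsupp.single_eq_same]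
        omega
      · rw [Finsupp.single_eq_of_ne hj]
        omega
    rw [coeff_pderiv, h2] at h1
    rcases mul_eq_zero.mp h1 with h | h
    · exact MvPolynomial.mem_support_iff.mp hm h
    · exact Nat.cast_add_one_ne_zero _ h

/-- a relation of minimal degree for an algebraic element -/
theorem exists_rel {L : Type} [Field L] [Algebra ℂ L] {d : ℕ} {y : Fin d → L}
    (hy : AlgebraicIndependent ℂ y) {a : L}
    (ha : IsAlgebraic (Algebra.adjoin ℂ (Set.range y)) a) :
    ∃ f : MvPolynomial (Option (Fin d)) ℂ,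
      aeval (fun o : Option (Fin d) => o.elim a y) f = 0 ∧
      aeval (fun o : Option (Fin d) => o.elim a y) (pderiv none f) ≠ 0 := by
  classical
  have h1 : ¬ AlgebraicIndependent ℂ (fun o : Option (Fin d) => o.elim a y) := by
    rw [hy.option_iff_transcendental]
    exact fun h => h ha
  have h2 : ∃ m, ∃ f : MvPolynomial (Option (Fin d)) ℂ, f ≠ 0 ∧
      aeval (fun o : Option (Fin d) => o.elim a y) f = 0 ∧ f.degreeOf none = m := by
    rw [algebraicIndependent_iff] at h1
    push Not at h1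
    obtain ⟨f, hf, hf0⟩ := h1
    exact ⟨_, f, hf0, hf, rfl⟩
  obtain ⟨f, hf0, hf, hfm⟩ := Nat.find_spec h2
  have hv : none ∈ f.vars := by
    by_contra hn
    obtain ⟨g, hg⟩ := exists_rename_eq_of_vars_subset_range f
      (some : Fin d → Option (Fin d)) (Option.some_injective _) (by
      intro o ho
      cases o with
      | none => exact absurd ho hn
      | some i => exact ⟨i, rfl⟩)
    apply hf0
    rw [← hg] at hf ⊢
    rw [aeval_rename] at hf
    have h3 : g = 0 := by
      apply (algebraicIndependent_iff.mp hy) g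
      exact hf
    rw [h3, map_zero]
  refine ⟨f, hf, fun h => ?_⟩
  have h3 := pderiv_deg f none hv
  have h4 := Nat.find_min' h2 ⟨pderiv none f, h3.2, h, rfl⟩
  omega

/-- dual derivations -/
theorem exists_der {L : Type} [Field L] [Algebra ℂ L] {d : ℕ} {y : Fin d → L}
    (hy : AlgebraicIndependent ℂ y) :
    ∃ δ : Fin d → Derivation ℂ L L, ∀ i j, δ i (y j) = if i = j then 1 else 0 := by
  classical
  have hr : AlgebraicIndepOn ℂ id (Set.range y) :=
    (algebraicIndependent_subtype_range hy.injective).mpr hy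
  obtain ⟨T, hT, hb⟩ := exists_isTranscendenceBasis_superset hr
  have halg := hb.isAlgebraic
  have h1 := Pool.Agent.CITR.der_linearIndependent_D (k := ℂ) (L := L) (ι := T)
    (fun t : T => (t : L)) hb.1 (fun z => halg.isAlgebraic z)
  let v : Fin d → Ω[L⁄ℂ] := fun j => KaehlerDifferential.D ℂ L (y j)
  have h2 : LinearIndependent L v := by
    have h3 := h1.comp (fun j : Fin d => (⟨y j, hT ⟨j, rfl⟩⟩ : T)) (fun a b hab => by
      exact hy.injective (congrArg Subtype.val hab))
    exact h3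
  let b : Basis (Fin d) L (Submodule.span L (Set.range v)) := Basis.span h2
  have h3 : ∀ i, ∃ g : Ω[L⁄ℂ] →ₗ[L] L, ∀ j, g (v j) = if i = j then 1 else 0 := by
    intro i
    obtain ⟨g, hg⟩ := LinearMap.exists_extend (b.coord i)
    refine ⟨g, fun j => ?_⟩
    have h4 : g (v j) = b.coord i (b j) := by
      rw [← hg]
      show g (v j) = g ((b j : Submodule.span L (Set.range v)) : Ω[L⁄ℂ])
      rw [Basis.span_apply]
    rw [h4, Basis.coord_apply, Basis.repr_self, Finsupp.single_apply]
    simp only [eq_comm]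
  choose g hg using h3
  exact ⟨fun i => (g i).compDer (KaehlerDifferential.D ℂ L), fun i j => hg i j⟩

/-- the chain rule for derivations -/
theorem D_aeval {L : Type} [Field L] [Algebra ℂ L] {ι : Type} [Fintype ι]
    (D : Derivation ℂ L L) (y : ι → L) (f : MvPolynomial ι ℂ) :
    D (aeval y f) = ∑ i, aeval y (pderiv i f) * D (y i) := by
  classical
  induction f using MvPolynomial.induction_on with
  | C a =>
    rw [aeval_C, D.map_algebraMap]
    refine (Finset.sum_eq_zero fun i _ => ?_).symm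
    rw [pderiv_C, map_zero, zero_mul]
  | add p q hp hq =>
    rw [map_add, map_add, hp, hq, ← Finset.sum_add_distrib]
    exact Finset.sum_congr rfl fun i _ => by rw [map_add, map_add, add_mul]
  | mul_X p j hp =>
    rw [map_mul, D.leibniz, aeval_X, hp, smul_eq_mul, smul_eq_mul, Finset.mul_sum]
    have h1 : ∀ i, aeval y (pderiv i (p * X j)) * D (y i) =
        y j * (aeval y (pderiv i p) * D (y i)) +
          aeval y p * (if j = i then D (y i) else 0) := by
      intro i
      rw [pderiv_mul, pderiv_X, map_add, map_mul, map_mul, aeval_X, Pi.single_apply]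
      by_cases h : j = i
      · subst h
        simp
        ring
      · rw [if_neg h, if_neg h]
        simp
        ring
    rw [Finset.sum_congr rfl fun i _ => h1 i, Finset.sum_add_distrib, ← Finset.mul_sum (a := aeval y p),
      Finset.sum_ite_eq, if_pos (Finset.mem_univ j)]
    ring

/-- the chain rule for functions -/
theorem hasF {E : Type} [NormedAddCommGroup E] [NormedSpace ℂ E] {ι : Type} [Fintype ι]
    (g : E → ι → ℂ) (g' : ι → (E →L[ℂ] ℂ)) (t : E)
    (h : ∀ i, HasFDerivAt (fun s => g s i) (g' i) t) (f : MvPolynomial ι ℂ) :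
    HasFDerivAt (fun s => eval (g s) f) (∑ i, eval (g t) (pderiv i f) • g' i) t := by
  classical
  induction f using MvPolynomial.induction_on with
  | C a =>
    have h1 : (∑ i, eval (g t) (pderiv i (C a)) • g' i) = (0 : E →L[ℂ] ℂ) := by
      refine Finset.sum_eq_zero fun i _ => ?_
      ext v
      simp
    rw [h1]
    simp only [eval_C]
    exact hasFDerivAt_const (𝕜 := ℂ) a t
  | add p q hp hq =>
    have h1 := hp.add hq
    have h2 : (∑ i, eval (g t) (pderiv i (p + q)) • g' i) =
        (∑ i, eval (g t) (pderiv i p) • g' i) + ∑ i, eval (g t) (pderiv i q) • g' i := by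
      rw [← Finset.sum_add_distrib]
      refine Finset.sum_congr rfl fun i _ => ?_
      ext v
      simp
      ring
    rw [h2]
    refine h1.congr_of_eventuallyEq (Filter.Eventually.of_forall fun s => ?_)
    simp
  | mul_X p j hp =>
    have h1 := hp.mul (h j)
    have h2 : (∑ i, eval (g t) (pderiv i (p * X j)) • g' i) =
        eval (g t) p • g' j + g t j • ∑ i, eval (g t) (pderiv i p) • g' i := by
      have h3 : ∀ i, eval (g t) (pderiv i (p * X j)) • g' i =
          g t j • (eval (g t) (pderiv i p) • g' i) +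
            eval (g t) p • (if j = i then g' i else 0) := by
        intro i
        rw [pderiv_mul, pderiv_X, map_add, map_mul, map_mul, eval_X, Pi.single_apply]
        by_cases h : j = i
        · subst h
          ext v
          simp
          ring
        · rw [if_neg h, if_neg h]
          ext v
          simp
          ring
      rw [Finset.sum_congr rfl fun i _ => h3 i, Finset.sum_add_distrib, ← Finset.smul_sum,
        ← Finset.smul_sum, Finset.sum_ite_eq, if_pos (Finset.mem_univ j), add_comm]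
    rw [h2]
    refine h1.congr_of_eventuallyEq (Filter.Eventually.of_forall fun s => ?_)
    simp

/-- cleared denominators -/
theorem clear {F : Type} [Field F] {n d : ℕ} (φ : MvPolynomial (Fin n) ℂ →+* F)
    (Bp : Fin n → MvPolynomial (Fin n) ℂ) (Ap : Fin d → Fin n → MvPolynomial (Fin n) ℂ)
    (b : Fin d → Fin n → ℝ) (dy : Fin d → Fin n → F) (hP : φ (∏ l, (Bp l * X l)) ≠ 0)
    (hd : ∀ i l, φ (Bp l) * dy i l = φ (Ap i l)) (j i : Fin d) :
    φ (∑ l, C ((b j l : ℝ) : ℂ) * Ap i l * ∏ l' ∈ Finset.univ.erase l, (Bp l' * X l')) =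
      φ (∏ l, (Bp l * X l)) * ∑ l, φ (C ((b j l : ℝ) : ℂ)) * (dy i l / φ (X l)) := by
  classical
  rw [map_sum, Finset.mul_sum]
  refine Finset.sum_congr rfl fun l _ => ?_
  have h1 : (∏ l, (Bp l * X l)) = (Bp l * X l) * ∏ l' ∈ Finset.univ.erase l, (Bp l' * X l') :=
    (Finset.mul_prod_erase Finset.univ (fun l => Bp l * X l) (Finset.mem_univ l)).symm
  rw [h1, map_mul, map_mul] at hP
  have hX : φ (X l) ≠ 0 := right_ne_zero_of_mul (left_ne_zero_of_mul hP)
  rw [h1, map_mul, map_mul, map_mul, map_mul, ← hd]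
  field_simp

section
variable {L : Type} [Field L] [Algebra ℂ L] {n d : ℕ} {x : Fin n → L} {κ : Fin d → Fin n}
  {z0 : Fin n → ℂ}

/-- the indices of the variables of the relation of `x l` -/
def idx (κ : Fin d → Fin n) (l : Fin n) (o : Option (Fin d)) : Fin n := o.elim l κ

/-- the data: derivations and relations -/
structure Dt (x : Fin n → L) (κ : Fin d → Fin n) where
  δ : Fin d → Derivation ℂ L L
  hδ : ∀ i j, δ i (x (κ j)) = if i = j then 1 else 0
  f : Fin n → MvPolynomial (Option (Fin d)) ℂ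
  hf : ∀ l, aeval (fun o => x (idx κ l o)) (f l) = 0
  hf' : ∀ l, aeval (fun o => x (idx κ l o)) (pderiv none (f l)) ≠ 0

theorem exists_dt (hκ : AlgebraicIndependent ℂ (fun j => x (κ j)))
    (halg : ∀ i, IsAlgebraic (Algebra.adjoin ℂ (Set.range fun j => x (κ j))) (x i)) :
    Nonempty (Dt x κ) := by
  obtain ⟨δ, hδ⟩ := exists_der hκ
  choose f hf hf' using fun l => exists_rel hκ (halg l)
  have h1 : ∀ l, (fun o : Option (Fin d) => o.elim (x l) (fun j => x (κ j))) =
      fun o => x (idx κ l o) := by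
    intro l
    funext o
    cases o <;> rfl
  exact ⟨⟨δ, hδ, f, fun l => by rw [← h1]; exact hf l, fun l => by rw [← h1]; exact hf' l⟩⟩

/-- the polynomials -/
noncomputable def Dt.Bp (D : Dt x κ) (l : Fin n) : MvPolynomial (Fin n) ℂ :=
  rename (idx κ l) (pderiv none (D.f l))

noncomputable def Dt.Ap (D : Dt x κ) (i : Fin d) (l : Fin n) : MvPolynomial (Fin n) ℂ :=
  -rename (idx κ l) (pderiv (some i) (D.f l))

noncomputable def Dt.P (D : Dt x κ) : MvPolynomial (Fin n) ℂ := ∏ l, (D.Bp l * X l)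

noncomputable def Dt.N (D : Dt x κ) (b : Fin d → Fin n → ℝ) :
    Matrix (Fin d) (Fin d) (MvPolynomial (Fin n) ℂ) := fun j i =>
  ∑ l, C ((b j l : ℝ) : ℂ) * D.Ap i l * ∏ l' ∈ Finset.univ.erase l, (D.Bp l' * X l')

theorem Dt.aeval_Bp (D : Dt x κ) (l : Fin n) : aeval x (D.Bp l) ≠ 0 := by
  unfold Dt.Bp
  rw [aeval_rename]
  exact D.hf' l

theorem Dt.aeval_P (D : Dt x κ) (hx : ∀ i, x i ≠ 0) : aeval x D.P ≠ 0 := by
  unfold Dt.P
  rw [map_prod]
  refine Finset.prod_ne_zero_iff.mpr fun l _ => ?_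
  rw [map_mul, aeval_X]
  exact mul_ne_zero (D.aeval_Bp l) (hx l)

theorem Dt.rel (D : Dt x κ) (E : Derivation ℂ L L) (l : Fin n) :
    aeval x (D.Bp l) * E (x l) = ∑ i, aeval x (D.Ap i l) * E (x (κ i)) := by
  have h1 := D_aeval E (fun o => x (idx κ l o)) (D.f l)
  rw [D.hf l, map_zero, Fintype.sum_option] at h1
  have h2 : aeval x (D.Bp l) = aeval (fun o => x (idx κ l o)) (pderiv none (D.f l)) := by
    unfold Dt.Bp
    rw [aeval_rename]
    rfl
  have h3 : ∀ i, aeval x (D.Ap i l) =
      -aeval (fun o => x (idx κ l o)) (pderiv (some i) (D.f l)) := by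
    intro i
    unfold Dt.Ap
    rw [map_neg, aeval_rename]
    rfl
  rw [h2]
  have h4 : ∑ i, aeval x (D.Ap i l) * E (x (κ i)) =
      -∑ i, aeval (fun o => x (idx κ l o)) (pderiv (some i) (D.f l)) *
        E (x (idx κ l (some i))) := by
    rw [← Finset.sum_neg_distrib]
    exact Finset.sum_congr rfl fun i _ => by
      rw [h3, neg_mul]
      rfl
  rw [h4, eq_neg_iff_add_eq_zero]
  exact h1.symm

theorem Dt.rel_δ (D : Dt x κ) (i : Fin d) (l : Fin n) :
    aeval x (D.Bp l) * D.δ i (x l) = aeval x (D.Ap i l) := by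
  classical
  rw [D.rel (D.δ i) l, Finset.sum_eq_single i]
  · rw [D.hδ, if_pos rfl, mul_one]
  · intro j _ hj
    rw [D.hδ, if_neg (Ne.symm hj), mul_zero]
  · intro h
    exact absurd (Finset.mem_univ i) h

theorem Dt.expand (D : Dt x κ) (E : Derivation ℂ L L) (l : Fin n) :
    E (x l) = ∑ i, E (x (κ i)) * D.δ i (x l) := by
  apply mul_left_cancel₀ (D.aeval_Bp l)
  rw [D.rel, Finset.mul_sum]
  refine Finset.sum_congr rfl fun i _ => ?_
  rw [← D.rel_δ i l]
  ring

theorem Dt.om_expand (D : Dt x κ) (b : Fin n → ℝ) (E : Derivation ℂ L L) :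
    om x b E = ∑ i, E (x (κ i)) * om x b (D.δ i) := by
  have h0 : ∀ E : Derivation ℂ L L, om x b E =
    ∑ l, algebraMap ℂ L (b l : ℂ) * (E (x l) / x l) := fun _ => rfl
  rw [h0]
  simp only [h0, Finset.mul_sum]
  rw [Finset.sum_comm]
  refine Finset.sum_congr rfl fun l _ => ?_
  rw [D.expand E l, Finset.sum_div, Finset.mul_sum]
  refine Finset.sum_congr rfl fun i _ => ?_
  ring

/-- the matrix of the forms -/
noncomputable def Dt.M (D : Dt x κ) (b : Fin d → Fin n → ℝ) : Matrix (Fin d) (Fin d) L :=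
  fun j i => om x (b j) (D.δ i)

theorem Dt.det_M (D : Dt x κ) (b : Fin d → Fin n → ℝ) :
    (D.M b).det ≠ 0 ↔ LinearIndependent L (fun j => om x (b j)) := by
  classical
  constructor
  · intro h
    rw [Fintype.linearIndependent_iff]
    intro g hg
    by_contra hne
    push Not at hne
    obtain ⟨i, hi⟩ := hne
    apply h
    rw [← Matrix.exists_vecMul_eq_zero_iff]
    refine ⟨g, fun h0 => hi (by rw [h0]; rfl), ?_⟩
    funext i
    have h1 := congrArg (fun F : Derivation ℂ L L →ₗ[L] L => F (D.δ i)) hg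
    simp only [LinearMap.sum_apply, LinearMap.smul_apply, smul_eq_mul, LinearMap.zero_apply] at h1
    exact h1
  · intro h h0
    rw [← Matrix.exists_vecMul_eq_zero_iff] at h0
    obtain ⟨g, hg, hg0⟩ := h0
    apply hg
    funext j
    refine Fintype.linearIndependent_iff.mp h g ?_ j
    refine LinearMap.ext fun E => ?_
    simp only [LinearMap.sum_apply, LinearMap.smul_apply, smul_eq_mul, LinearMap.zero_apply]
    have h2 : ∀ i, ∑ j, g j * om x (b j) (D.δ i) = 0 := fun i => congrFun hg0 i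
    calc ∑ j, g j * om x (b j) E = ∑ j, ∑ i, g j * (E (x (κ i)) * om x (b j) (D.δ i)) := by
          refine Finset.sum_congr rfl fun j _ => ?_
          rw [D.om_expand, Finset.mul_sum]
      _ = ∑ i, E (x (κ i)) * ∑ j, g j * om x (b j) (D.δ i) := by
          rw [Finset.sum_comm]
          refine Finset.sum_congr rfl fun i _ => ?_
          rw [Finset.mul_sum]
          exact Finset.sum_congr rfl fun j _ => by ring
      _ = 0 := by
          refine Finset.sum_eq_zero fun i _ => ?_
          rw [h2, mul_zero]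

theorem Dt.aeval_det (D : Dt x κ) (hx : ∀ i, x i ≠ 0) (b : Fin d → Fin n → ℝ) :
    aeval x (D.N b).det = (aeval x D.P) ^ d * (D.M b).det := by
  classical
  have h1 : (aeval x : MvPolynomial (Fin n) ℂ →ₐ[ℂ] L).toRingHom.mapMatrix (D.N b) =
      aeval x D.P • D.M b := by
    ext j i
    have h2 := clear (aeval x : MvPolynomial (Fin n) ℂ →ₐ[ℂ] L).toRingHom D.Bp D.Ap b
      (fun i l => D.δ i (x l)) (D.aeval_P hx) (fun i l => D.rel_δ i l) j i
    refine h2.trans ?_
    rw [Matrix.smul_apply, smul_eq_mul]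
    have h3 : ∑ l, (aeval x : MvPolynomial (Fin n) ℂ →ₐ[ℂ] L).toRingHom (C ((b j l : ℝ) : ℂ)) *
        (D.δ i (x l) / (aeval x : MvPolynomial (Fin n) ℂ →ₐ[ℂ] L).toRingHom (X l)) =
        D.M b j i := by
      unfold Dt.M
      show _ = ∑ l, algebraMap ℂ L (b j l : ℂ) * (D.δ i (x l) / x l)
      refine Finset.sum_congr rfl fun l _ => ?_
      simp
    rw [h3]
    rfl
  have h2 : aeval x (D.N b).det =
      ((aeval x : MvPolynomial (Fin n) ℂ →ₐ[ℂ] L).toRingHom.mapMatrix (D.N b)).det :=
    RingHom.map_det _ _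
  rw [h2, h1, Matrix.det_smul, Fintype.card_fin]

/-- the derivatives in the chart -/
theorem Dt.rel_ψ (D : Dt x κ) (c : Chart x κ z0) {t : Fin d → ℂ} (ht : t ∈ c.U) (i : Fin d)
    (l : Fin n) : eval (c.ψ t) (D.Bp l) * fderiv ℂ c.ψ t (Pi.single i 1) l =
      eval (c.ψ t) (D.Ap i l) := by
  classical
  have hd : DifferentiableAt ℂ c.ψ t := (c.an t ht).differentiableAt
  have hl : ∀ m, HasFDerivAt (fun s => c.ψ s m)
      ((ContinuousLinearMap.proj m).comp (fderiv ℂ c.ψ t)) t := fun m =>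
    (ContinuousLinearMap.proj (R := ℂ) (φ := fun _ : Fin n => ℂ) m).hasFDerivAt.comp t
      hd.hasFDerivAt
  have h1 := hasF (fun s o => c.ψ s (idx κ l o))
    (fun o => (ContinuousLinearMap.proj (idx κ l o)).comp (fderiv ℂ c.ψ t)) t
    (fun o => hl _) (D.f l)
  have hU : c.U ∈ 𝓝 t := c.isOpen.mem_nhds ht
  have h2 : (fun s => eval (fun o => c.ψ s (idx κ l o)) (D.f l)) =ᶠ[𝓝 t] fun _ => 0 := by
    filter_upwards [hU] with s hs
    have h3 := (c.on s hs).2 (rename (idx κ l) (D.f l)) (by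
      rw [aeval_rename]
      exact D.hf l)
    rw [eval_rename] at h3
    exact h3
  have h3 : HasFDerivAt (fun s => eval (fun o => c.ψ s (idx κ l o)) (D.f l))
      (0 : (Fin d → ℂ) →L[ℂ] ℂ) t := (hasFDerivAt_const (0 : ℂ) t).congr_of_eventuallyEq h2
  have h4 := congrArg (fun F : (Fin d → ℂ) →L[ℂ] ℂ => F (Pi.single i 1)) (h1.unique h3)
  have hκd : ∀ j, fderiv ℂ c.ψ t (Pi.single i 1) (κ j) = if j = i then 1 else 0 := by
    intro j
    have h5 : (fun s => c.ψ s (κ j)) =ᶠ[𝓝 t] fun s => s j := by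
      filter_upwards [hU] with s hs
      exact c.coord s hs j
    have h6 : HasFDerivAt (fun s => c.ψ s (κ j))
        (ContinuousLinearMap.proj (R := ℂ) (φ := fun _ : Fin d => ℂ) j) t :=
      (ContinuousLinearMap.proj (R := ℂ) (φ := fun _ : Fin d => ℂ)
        j).hasFDerivAt.congr_of_eventuallyEq h5
    have h7 := congrArg (fun F : (Fin d → ℂ) →L[ℂ] ℂ => F (Pi.single i 1))
      ((hl (κ j)).unique h6)
    have h8 : fderiv ℂ c.ψ t (Pi.single i 1) (κ j) = (Pi.single i 1 : Fin d → ℂ) j := h7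
    rw [h8, Pi.single_apply]
  simp only [Fintype.sum_option, add_apply, sum_apply, smul_apply, zero_apply,
    smul_eq_mul] at h4
  have h9 : ∑ j : Fin d, eval (fun o => c.ψ t (idx κ l o)) (pderiv (some j) (D.f l)) *
      ((ContinuousLinearMap.proj (idx κ l (some j))).comp (fderiv ℂ c.ψ t) :
        (Fin d → ℂ) →L[ℂ] ℂ) (Pi.single i 1) =
      eval (fun o => c.ψ t (idx κ l o)) (pderiv (some i) (D.f l)) := by
    rw [Finset.sum_eq_single i]
    · have h10 : ((ContinuousLinearMap.proj (idx κ l (some i))).comp (fderiv ℂ c.ψ t) :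
        (Fin d → ℂ) →L[ℂ] ℂ) (Pi.single i 1) = 1 := (hκd i).trans (if_pos rfl)
      rw [h10, mul_one]
    · intro j _ hj
      have h10 : ((ContinuousLinearMap.proj (idx κ l (some j))).comp (fderiv ℂ c.ψ t) :
        (Fin d → ℂ) →L[ℂ] ℂ) (Pi.single i 1) = 0 := (hκd j).trans (if_neg hj)
      rw [h10, mul_zero]
    · intro h
      exact absurd (Finset.mem_univ i) h
  rw [h9] at h4
  unfold Dt.Bp Dt.Ap
  rw [map_neg, eval_rename, eval_rename, eq_neg_iff_add_eq_zero]
  exact h4

theorem Dt.eval_det (D : Dt x κ) (c : Chart x κ z0) (b : Fin d → Fin n → ℝ) {t : Fin d → ℂ}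
    (ht : t ∈ c.U) (hP : eval (c.ψ t) D.P ≠ 0) :
    eval (c.ψ t) (D.N b).det = (eval (c.ψ t) D.P) ^ d * (jac b c.ψ t).det := by
  classical
  have h1 : (eval (c.ψ t)).mapMatrix (D.N b) = eval (c.ψ t) D.P • jac b c.ψ t := by
    ext j i
    have h2 := clear (eval (c.ψ t)) D.Bp D.Ap b
      (fun i l => fderiv ℂ c.ψ t (Pi.single i 1) l) hP (fun i l => D.rel_ψ c ht i l) j i
    refine h2.trans ?_
    rw [Matrix.smul_apply, smul_eq_mul]
    have h3 : ∑ l, eval (c.ψ t) (C ((b j l : ℝ) : ℂ)) *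
        (fderiv ℂ c.ψ t (Pi.single i 1) l / eval (c.ψ t) (X l)) = jac b c.ψ t j i := by
      unfold jac
      refine Finset.sum_congr rfl fun l _ => ?_
      rw [eval_C, eval_X]
    rw [h3]
    rfl
  rw [RingHom.map_det, h1, Matrix.det_smul, Fintype.card_fin]

end

end Link

section
variable {L : Type} [Field L] [Algebra ℂ L] {n d : ℕ} {x : Fin n → L} {κ : Fin d → Fin n}
  {z0 : Fin n → ℂ}

theorem jac_an (c : Chart x κ z0) (b : Fin d → Fin n → ℝ) :
    AnalyticOnNhd ℂ (fun t => (jac b c.ψ t).det) c.U := by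
  classical
  have h1 : ∀ j i, AnalyticOnNhd ℂ (fun t => jac b c.ψ t j i) c.U := by
    intro j i
    unfold jac
    refine Finset.analyticOnNhd_fun_sum _ fun l _ => ?_
    refine AnalyticOnNhd.mul analyticOnNhd_const ?_
    have h2 : AnalyticOnNhd ℂ (fun t => c.ψ t l) c.U :=
      (ContinuousLinearMap.proj (R := ℂ) (φ := fun _ : Fin n => ℂ) l).comp_analyticOnNhd c.an
    have h3 : AnalyticOnNhd ℂ (fun t => fderiv ℂ c.ψ t (Pi.single i 1) l) c.U := by
      have h4 := c.an.fderiv
      have h5 := ((ContinuousLinearMap.proj (R := ℂ) (φ := fun _ : Fin n => ℂ) l).comp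
        (ContinuousLinearMap.apply ℂ (Fin n → ℂ)
          (Pi.single i 1 : Fin d → ℂ))).comp_analyticOnNhd h4
      exact h5
    exact h3.div h2 fun t ht => (c.on t ht).1 l
  have h2 : (fun t => (jac b c.ψ t).det) = fun t => ∑ σ : Equiv.Perm (Fin d),
      ((Equiv.Perm.sign σ : ℤ) : ℂ) * ∏ i, jac b c.ψ t (σ i) i := by
    funext t
    rw [Matrix.det_apply']
  rw [h2]
  refine Finset.analyticOnNhd_fun_sum _ fun σ _ => ?_
  exact AnalyticOnNhd.mul analyticOnNhd_const
    (Finset.analyticOnNhd_fun_prod _ fun i _ => h1 _ _)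

theorem jac_ne (hx : ∀ i, x i ≠ 0) (hκ : AlgebraicIndependent ℂ (fun j => x (κ j)))
    (halg : ∀ i, IsAlgebraic (Algebra.adjoin ℂ (Set.range fun j => x (κ j))) (x i))
    (c : Chart x κ z0) (b : Fin d → Fin n → ℝ)
    (hb : LinearIndependent L (fun j => om x (b j))) (U' : Set (Fin d → ℂ)) (hU' : IsOpen U')
    (hsub : U' ⊆ c.U) (hne : U'.Nonempty) : ∃ t ∈ U', (jac b c.ψ t).det ≠ 0 := by
  obtain ⟨D⟩ := Link.exists_dt hκ halg
  have h1 : aeval x ((D.N b).det * D.P) ≠ 0 := by
    rw [map_mul, D.aeval_det hx]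
    exact mul_ne_zero (mul_ne_zero (pow_ne_zero _ (D.aeval_P hx)) ((D.det_M b).mpr hb))
      (D.aeval_P hx)
  obtain ⟨t, ht, ht'⟩ := c.gen _ h1 U' hU' hsub hne
  rw [map_mul] at ht'
  refine ⟨t, ht, fun h => ?_⟩
  have h2 := D.eval_det c b (hsub ht) (right_ne_zero_of_mul ht')
  rw [h, mul_zero] at h2
  exact left_ne_zero_of_mul ht' h2

theorem jac_eq (hx : ∀ i, x i ≠ 0) (hκ : AlgebraicIndependent ℂ (fun j => x (κ j)))
    (halg : ∀ i, IsAlgebraic (Algebra.adjoin ℂ (Set.range fun j => x (κ j))) (x i))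
    (c : Chart x κ z0) (b : Fin d → Fin n → ℝ)
    (hb : ¬ LinearIndependent L (fun j => om x (b j))) (t : Fin d → ℂ) (ht : t ∈ c.U) :
    (jac b c.ψ t).det = 0 := by
  obtain ⟨D⟩ := Link.exists_dt hκ halg
  by_contra hne
  have hcont : ContinuousOn (fun t => (jac b c.ψ t).det) c.U := (jac_an c b).continuousOn
  have hopen : IsOpen (c.U ∩ (fun t => (jac b c.ψ t).det) ⁻¹' {0}ᶜ) :=
    hcont.isOpen_inter_preimage c.isOpen isOpen_compl_singleton
  obtain ⟨s, hs, hs'⟩ := c.gen D.P (D.aeval_P hx) _ hopen Set.inter_subset_left ⟨t, ht, hne⟩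
  have h1 : aeval x (D.N b).det = 0 := by
    rw [D.aeval_det hx]
    have h2 : (D.M b).det = 0 := by
      by_contra h3
      exact hb ((D.det_M b).mp h3)
    rw [h2, mul_zero]
  have h2 := (c.on s hs.1).2 _ h1
  rw [D.eval_det c b hs.1 hs'] at h2
  rcases mul_eq_zero.mp h2 with h3 | h3
  · exact pow_ne_zero _ hs' h3
  · exact hs.2 h3

end

end Pool.Agent.SD
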