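import Mathlib
import Pool.Agent.Lib.MP_c95b3b_ag_SD.Link

set_option autoImplicit false

/-! Project SD (MP_c95b3b_ag), module GP: a point of a chart which is generic over the integers,
with nonvanishing Jacobian. -/

namespace Pool.Agent.SD

open MvPolynomial Filter Topology

namespace GenPt

/-- Baire inside an open set -/
theorem baire_aux {X : Type} [TopologicalSpace X] [BaireSpace X] {ι : Type} [Countable ι]
    {U : Set X} (hU : IsOpen U) (hne : U.Nonempty) (f : ι → Set X) (ho : ∀ i, IsOpen (f i))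
    (hd : ∀ i, ∀ U' : Set X, IsOpen U' → U' ⊆ U → U'.Nonempty → ∃ t ∈ U', t ∈ f i) :
    ∃ t ∈ U, ∀ i, t ∈ f i := by
  have hdense : Dense (⋂ i, (f i ∪ (closure U)ᶜ)) := by
    refine dense_iInter_of_isOpen (fun i => (ho i).union isClosed_closure.isOpen_compl)
      (fun i => ?_)
    rw [dense_iff_inter_open]
    intro V hV hVne
    by_cases h : (V ∩ U).Nonempty
    · obtain ⟨t, ht, htf⟩ := hd i (V ∩ U) (hV.inter hU) Set.inter_subset_right h
      exact ⟨t, ht.1, Or.inl htf⟩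
    · obtain ⟨v, hv⟩ := hVne
      refine ⟨v, hv, Or.inr fun hvc => ?_⟩
      exact h (mem_closure_iff.1 hvc V hV hv)
  rw [dense_iff_inter_open] at hdense
  obtain ⟨t, htU, ht⟩ := hdense U hU hne
  refine ⟨t, htU, fun i => ?_⟩
  rcases Set.mem_iInter.1 ht i with h | h
  · exact h
  · exact absurd (subset_closure htU) h

end GenPt

theorem exists_gen_pt {L : Type} [Field L] [Algebra ℂ L] {n d : ℕ} {x : Fin n → L}
    {κ : Fin d → Fin n} {z0 : Fin n → ℂ} (hx : ∀ i, x i ≠ 0)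
    (hκ : AlgebraicIndependent ℂ (fun j => x (κ j)))
    (halg : ∀ i, IsAlgebraic (Algebra.adjoin ℂ (Set.range fun j => x (κ j))) (x i))
    (c : Chart x κ z0) (b : Fin d → Fin n → ℝ)
    (hb : LinearIndependent L (fun j => om x (b j))) :
    ∃ t ∈ c.U, (jac b c.ψ t).det ≠ 0 ∧
      ∀ F : MvPolynomial (Fin n) ℤ, aeval (c.ψ t) F = 0 ↔ aeval x F = 0 := by
  have hL : ∀ F : MvPolynomial (Fin n) ℤ,
      aeval x (MvPolynomial.map (algebraMap ℤ ℂ) F) = aeval x F := fun F =>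
    MvPolynomial.aeval_map_algebraMap ℂ x F
  have hC : ∀ (z : Fin n → ℂ) (F : MvPolynomial (Fin n) ℤ),
      eval z (MvPolynomial.map (algebraMap ℤ ℂ) F) = aeval z F := fun z F => by
    rw [MvPolynomial.eval_map, MvPolynomial.aeval_def]
  have hcont : ContinuousOn c.ψ c.U := c.an.continuousOn
  let f : Option {F : MvPolynomial (Fin n) ℤ // aeval x F ≠ 0} → Set (Fin d → ℂ) := fun o =>
    Option.elim o (c.U ∩ (fun t => (jac b c.ψ t).det) ⁻¹' {0}ᶜ)
      (fun F => c.U ∩ (fun t => eval (c.ψ t)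
        (MvPolynomial.map (algebraMap ℤ ℂ) F.1)) ⁻¹' {0}ᶜ)
  have hcount : Countable (MvPolynomial (Fin n) ℤ) := by
    rw [← Cardinal.mk_le_aleph0_iff]
    refine (MvPolynomial.cardinalMk_le_max).trans ?_
    simp
  obtain ⟨t, htU, ht⟩ := GenPt.baire_aux (ι := Option {F : MvPolynomial (Fin n) ℤ // aeval x F ≠ 0})
    c.isOpen ⟨c.t0, c.t0_mem⟩ f (by
      rintro (_ | F)
      · exact (jac_an c b).continuousOn.isOpen_inter_preimage c.isOpen isOpen_compl_singleton
      · refine ContinuousOn.isOpen_inter_preimage ?_ c.isOpen isOpen_compl_singleton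
        exact (MvPolynomial.continuous_eval _).comp_continuousOn hcont) (by
      rintro (_ | F) U' hU' hsub hne
      · obtain ⟨t, ht, h⟩ := jac_ne hx hκ halg c b hb U' hU' hsub hne
        exact ⟨t, ht, hsub ht, h⟩
      · obtain ⟨t, ht, h⟩ := c.gen (MvPolynomial.map (algebraMap ℤ ℂ) F.1)
          (by rw [hL]; exact F.2) U' hU' hsub hne
        exact ⟨t, ht, hsub ht, h⟩)
  refine ⟨t, htU, (ht none).2, fun F => ⟨fun h => ?_, fun h => ?_⟩⟩
  · by_contra h'
    have h1 := (ht (some ⟨F, h'⟩)).2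
    apply h1
    show eval (c.ψ t) (MvPolynomial.map (algebraMap ℤ ℂ) F) = 0
    rw [hC, h]
  · have h1 := (c.on t htU).2 (MvPolynomial.map (algebraMap ℤ ℂ) F) (by rw [hL, h])
    rwa [hC] at h1

/-- local logarithms of nonvanishing analytic functions -/
theorem exists_log {n d : ℕ} {ψ : (Fin d → ℂ) → Fin n → ℂ} {t0 : Fin d → ℂ}
    (hψ : AnalyticAt ℂ ψ t0) (h0 : ∀ i, ψ t0 i ≠ 0) :
    ∃ ℓ : (Fin d → ℂ) → Fin n → ℂ, AnalyticAt ℂ ℓ t0 ∧
      ∀ᶠ t in 𝓝 t0, AnalyticAt ℂ ℓ t ∧ (∀ l, Complex.exp (ℓ t l) = ψ t l) ∧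
        (∀ l, (ℓ t l).re = Real.log ‖ψ t l‖) ∧
        ∀ v l, fderiv ℂ ℓ t v l = fderiv ℂ ψ t v l / ψ t l := by
  let ℓ : (Fin d → ℂ) → Fin n → ℂ := fun t l =>
    Complex.log (ψ t l / ψ t0 l) + Complex.log (ψ t0 l)
  have key : ∀ᶠ t in 𝓝 t0, AnalyticAt ℂ ψ t ∧ ∀ l, ψ t l / ψ t0 l ∈ Complex.slitPlane := by
    refine hψ.eventually_analyticAt.and ?_
    rw [eventually_all]
    intro l
    have hc : ContinuousAt (fun t => ψ t l / ψ t0 l) t0 :=
      ((continuous_apply l).continuousAt.comp hψ.continuousAt).div_const _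
    refine hc.eventually_mem ?_
    rw [div_self (h0 l)]
    exact Complex.isOpen_slitPlane.mem_nhds Complex.one_mem_slitPlane
  have main : ∀ t, (AnalyticAt ℂ ψ t ∧ ∀ l, ψ t l / ψ t0 l ∈ Complex.slitPlane) →
      AnalyticAt ℂ ℓ t ∧ (∀ l, Complex.exp (ℓ t l) = ψ t l) ∧
        (∀ l, (ℓ t l).re = Real.log ‖ψ t l‖) ∧
        ∀ v l, fderiv ℂ ℓ t v l = fderiv ℂ ψ t v l / ψ t l := by
    rintro t ⟨han, hsl⟩
    have hq : ∀ l, ψ t l / ψ t0 l ≠ 0 := fun l => Complex.slitPlane_ne_zero (hsl l)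
    have hne : ∀ l, ψ t l ≠ 0 := fun l h => hq l (by rw [h, zero_div])
    have hanl : ∀ l, AnalyticAt ℂ (fun t => ψ t l) t := fun l => analyticAt_pi_iff.1 han l
    have hℓ : AnalyticAt ℂ ℓ t := by
      refine analyticAt_pi_iff.2 fun l => ?_
      exact (((hanl l).div analyticAt_const (h0 l)).clog (hsl l)).add analyticAt_const
    refine ⟨hℓ, fun l => ?_, fun l => ?_, fun v l => ?_⟩
    · show Complex.exp (Complex.log (ψ t l / ψ t0 l) + Complex.log (ψ t0 l)) = ψ t l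
      rw [Complex.exp_add, Complex.exp_log (hq l), Complex.exp_log (h0 l),
        div_mul_cancel₀ _ (h0 l)]
    · show (Complex.log (ψ t l / ψ t0 l) + Complex.log (ψ t0 l)).re = _
      rw [Complex.add_re, Complex.log_re, Complex.log_re, norm_div,
        Real.log_div (norm_ne_zero_iff.2 (hne l)) (norm_ne_zero_iff.2 (h0 l))]
      ring
    · have h1 : HasFDerivAt ψ (fderiv ℂ ψ t) t := han.differentiableAt.hasFDerivAt
      have h2 : HasFDerivAt ℓ (fderiv ℂ ℓ t) t := hℓ.differentiableAt.hasFDerivAt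
      have h1l := (hasFDerivAt_pi'.1 h1) l
      have h2l := (hasFDerivAt_pi'.1 h2) l
      have h3 : HasFDerivAt (fun t => ψ t l / ψ t0 l)
          ((ψ t0 l)⁻¹ • ((ContinuousLinearMap.proj l).comp (fderiv ℂ ψ t))) t := by
        have := h1l.const_mul ((ψ t0 l)⁻¹)
        refine this.congr_of_eventuallyEq (Eventually.of_forall fun s => ?_)
        show ψ s l / ψ t0 l = (ψ t0 l)⁻¹ * ψ s l
        rw [div_eq_inv_mul]
      have h4 := (h3.clog (hsl l)).add_const (Complex.log (ψ t0 l))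
      have h5 := h2l.unique h4
      have h6 := DFunLike.congr_fun h5 v
      have h7 : fderiv ℂ ℓ t v l =
          (ψ t l / ψ t0 l)⁻¹ * ((ψ t0 l)⁻¹ * fderiv ℂ ψ t v l) := h6
      rw [h7]
      have a1 := h0 l
      have a2 := hne l
      field_simp
  exact ⟨ℓ, (main t0 key.self_of_nhds).1, key.mono main⟩

end Pool.Agent.SD
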