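import Mathlib
import Pool.Agent.Lib.MP_c95b3b_ag_SD.Map

set_option autoImplicit false

/-! Project SD (MP_c95b3b_ag), module NS: points of the variety outside a hypersurface. -/

namespace Pool.Agent.SD

open MvPolynomial

theorem exists_pt {L : Type} [Field L] [Algebra ℂ L] {n : ℕ} (x : Fin n → L)
    (hx : ∀ i, x i ≠ 0) (F : MvPolynomial (Fin n) ℂ) (hF : aeval x F ≠ 0) :
    ∃ z, OnY x z ∧ eval z F ≠ 0 := by
  have hP : (RingHom.ker (aeval x : MvPolynomial (Fin n) ℂ →ₐ[ℂ] L)).IsPrime :=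
    RingHom.ker_isPrime _
  have hne : aeval x (F * ∏ i, (X i : MvPolynomial (Fin n) ℂ)) ≠ 0 := by
    rw [map_mul, map_prod]
    refine mul_ne_zero hF (Finset.prod_ne_zero_iff.2 fun i _ => ?_)
    rw [aeval_X]
    exact hx i
  by_contra hcon
  push Not at hcon
  have hmem : F * ∏ i, (X i : MvPolynomial (Fin n) ℂ) ∈
      vanishingIdeal ℂ (zeroLocus ℂ
        (RingHom.ker (aeval x : MvPolynomial (Fin n) ℂ →ₐ[ℂ] L))) := by
    rw [mem_vanishingIdeal_iff]
    intro z hz
    rw [mem_zeroLocus_iff] at hz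
    rw [map_mul, map_prod]
    by_cases h0 : ∃ i, z i = 0
    · obtain ⟨i, hi⟩ := h0
      have : ∏ i, aeval z (X i : MvPolynomial (Fin n) ℂ) = 0 :=
        Finset.prod_eq_zero (Finset.mem_univ i) (by rw [aeval_X, hi])
      rw [this, mul_zero]
    · push Not at h0
      have hz' : eval z F = 0 := hcon z ⟨h0, fun G hG => by
        have := hz G ((RingHom.mem_ker).2 hG)
        rwa [aeval_eq_eval] at this⟩
      have : aeval z F = 0 := by
        rw [aeval_eq_eval]
        exact hz'
      rw [this, zero_mul]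
  rw [vanishingIdeal_zeroLocus_eq_radical, hP.radical] at hmem
  exact hne ((RingHom.mem_ker).1 hmem)

end Pool.Agent.SD
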