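import Mathlib
import Pool.Agent.Lib.MP_c95b3b_ag_SD.Map

set_option autoImplicit false

/-! Project SD (MP_c95b3b_ag), module SE: choice of independent forms. -/

namespace Pool.Agent.SD

open MvPolynomial Filter Topology Module Pool.Agent.L3

namespace Sel

section
variable {L V : Type} [Field L] [AddCommGroup V] [Module L V]

/-- a basis of a span consisting of generators -/
theorem exists_fin (S : Set V) (hS : FiniteDimensional L (Submodule.span L S)) (r : ℕ)
    (hr : finrank L (Submodule.span L S) = r) :
    ∃ f : Fin r → V, (∀ i, f i ∈ S) ∧ LinearIndependent L f ∧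
      Submodule.span L (Set.range f) = Submodule.span L S := by
  classical
  obtain ⟨b, hbS, hbs, hb⟩ := exists_linearIndependent L S
  have hfd : FiniteDimensional L (Submodule.span L b) := by
    rw [hbs]
    exact hS
  have hbf : b.Finite := by
    have h1 : LinearIndependent L (fun x : b => (⟨x, Submodule.subset_span x.2⟩ :
        Submodule.span L b)) := by
      refine LinearIndependent.of_comp (Submodule.span L b).subtype ?_
      exact hb
    have h2 := h1.finite
    exact Set.toFinite b
  have hft : Fintype b := hbf.fintype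
  have hcard : Fintype.card b = r := by
    have h1 := finrank_span_eq_card (R := L) hb
    rw [Subtype.range_coe, hbs, hr] at h1
    exact h1.symm
  obtain ⟨e⟩ : Nonempty (Fin r ≃ b) := ⟨(Fintype.equivFinOfCardEq hcard).symm⟩
  refine ⟨fun i => (e i : V), fun i => hbS (e i).2, hb.comp e e.injective, ?_⟩
  rw [← hbs]
  congr 1
  ext y
  constructor
  · rintro ⟨i, rfl⟩
    exact (e i).2
  · intro hy
    refine ⟨e.symm ⟨y, hy⟩, ?_⟩
    simp only
    rw [e.apply_symm_apply]

/-- an independent family in a span is completed by generators -/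
theorem exists_extend {ι : Type} [Fintype ι] (v : ι → V) (hv : LinearIndependent L v)
    (S : Set V) (hS : FiniteDimensional L (Submodule.span L S))
    (hvS : ∀ i, v i ∈ Submodule.span L S) :
    ∃ (τ : ℕ) (w : Fin τ → V), Fintype.card ι + τ = finrank L (Submodule.span L S) ∧
      (∀ i, w i ∈ S) ∧ LinearIndependent L (Sum.elim v w) := by
  classical
  have hspan : Submodule.span L (Set.range v ∪ S) = Submodule.span L S := by
    refine le_antisymm (Submodule.span_le.2 ?_) (Submodule.span_mono Set.subset_union_right)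
    rintro y (⟨i, rfl⟩ | hy)
    · exact hvS i
    · exact Submodule.subset_span hy
  obtain ⟨b, hbt, hvb, htb, hb⟩ := exists_linearIndepOn_id_extension (K := L)
    hv.linearIndepOn_id (Set.subset_union_left (s := Set.range v) (t := S))
  have hbspan : Submodule.span L b = Submodule.span L S := by
    rw [← hspan]
    exact le_antisymm (Submodule.span_mono hbt) (Submodule.span_le.2 htb)
  have hb' : LinearIndependent L ((↑) : b → V) := hb
  have hfd : FiniteDimensional L (Submodule.span L b) := by
    rw [hbspan]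
    exact hS
  have hbf : b.Finite := by
    have h1 : LinearIndependent L (fun x : b => (⟨x, Submodule.subset_span x.2⟩ :
        Submodule.span L b)) := by
      refine LinearIndependent.of_comp (Submodule.span L b).subtype ?_
      exact hb'
    have h2 := h1.finite
    exact Set.toFinite b
  have hft : Fintype b := hbf.fintype
  have hcard : Fintype.card b = finrank L (Submodule.span L S) := by
    have h1 := finrank_span_eq_card (R := L) hb'
    rw [Subtype.range_coe, hbspan] at h1
    exact h1.symm
  have hcf : (b \ Set.range v).Finite := hbf.subset Set.sdiff_subset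
  have hcft : Fintype (b \ Set.range v : Set V) := hcf.fintype
  obtain ⟨e⟩ : Nonempty (Fin (Fintype.card (b \ Set.range v : Set V)) ≃
      (b \ Set.range v : Set V)) := ⟨(Fintype.equivFin _).symm⟩
  have hinj : Function.Injective v := hv.injective
  -- the map to `b`
  obtain ⟨F, hF1, hF2⟩ : ∃ F : ι ⊕ Fin (Fintype.card (b \ Set.range v : Set V)) → b,
      (∀ i, (F (Sum.inl i) : V) = v i) ∧ ∀ j, (F (Sum.inr j) : V) = (e j : V) :=
    ⟨Sum.elim (fun i => ⟨v i, hvb ⟨i, rfl⟩⟩) (fun j => ⟨e j, (e j).2.1⟩), fun _ => rfl,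
      fun _ => rfl⟩
  have hFinj : Function.Injective F := by
    rintro (i | j) (i' | j') h
    · have h1 := congrArg (Subtype.val) h
      rw [hF1, hF1] at h1
      rw [hinj h1]
    · have h1 := congrArg (Subtype.val) h
      rw [hF1, hF2] at h1
      exact absurd ⟨i, h1⟩ (e j').2.2
    · have h1 := congrArg (Subtype.val) h
      rw [hF1, hF2] at h1
      exact absurd ⟨i', h1.symm⟩ (e j).2.2
    · have h1 := congrArg (Subtype.val) h
      rw [hF2, hF2] at h1
      rw [e.injective (Subtype.ext h1)]
  have hFsurj : Function.Surjective F := by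
    rintro ⟨y, hy⟩
    by_cases hyv : y ∈ Set.range v
    · obtain ⟨i, rfl⟩ := hyv
      exact ⟨Sum.inl i, Subtype.ext (hF1 i)⟩
    · refine ⟨Sum.inr (e.symm ⟨y, hy, hyv⟩), Subtype.ext ?_⟩
      rw [hF2, e.apply_symm_apply]
  refine ⟨Fintype.card (b \ Set.range v : Set V), fun j => (e j : V), ?_, ?_, ?_⟩
  · have h1 := Fintype.card_congr (Equiv.ofBijective F ⟨hFinj, hFsurj⟩)
    rw [Fintype.card_sum, Fintype.card_fin, hcard] at h1
    exact h1
  · intro j
    rcases hbt (e j).2.1 with h | h
    · exact absurd h (e j).2.2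
    · exact h
  · have h1 := hb'.comp F hFinj
    have h2 : (Sum.elim v fun j => (e j : V)) = (fun x : b => (x : V)) ∘ F := by
      funext s
      rcases s with i | j
      · rw [Function.comp_apply, hF1, Sum.elim_inl]
      · rw [Function.comp_apply, hF2, Sum.elim_inr]
    rw [h2]
    exact h1

/-- an injective map of `Fin d` into `Fin (d + 1)` extends to a permutation -/
theorem exists_perm_extend {d : ℕ} (g : Fin d → Fin (d + 1)) (hg : Function.Injective g) :
    ∃ e : Equiv.Perm (Fin (d + 1)), ∀ j, e j.castSucc = g j := by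
  classical
  obtain ⟨c, hc⟩ : ∃ c : {x : Fin (d + 1) // x ∈ Set.range (Fin.castSucc : Fin d → _)} ≃
      {x : Fin (d + 1) // x ∈ Set.range g}, ∀ j : Fin d, c ⟨j.castSucc, ⟨j, rfl⟩⟩ = ⟨g j, ⟨j, rfl⟩⟩ := by
    refine ⟨(Equiv.ofInjective _ (Fin.castSucc_injective d)).symm.trans
      (Equiv.ofInjective g hg), fun j => ?_⟩
    have h1 : (Equiv.ofInjective _ (Fin.castSucc_injective d)).symm ⟨j.castSucc, ⟨j, rfl⟩⟩ = j := by
      rw [Equiv.symm_apply_eq]
      rfl
    rw [Equiv.trans_apply, h1]
    rfl
  refine ⟨c.extendSubtype, fun j => ?_⟩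
  rw [c.extendSubtype_apply_of_mem _ ⟨j, rfl⟩, hc]

end

end Sel

section
variable {L : Type} [Field L] [Algebra ℂ L] {n : ℕ} {x : Fin n → L}

/-- a basis of the forms of `Λ`, completed to a basis of the forms of `V` -/
theorem exists_sel (x : Fin n → L) (V : Submodule ℝ (Fin n → ℝ)) (Λ : Submodule ℤ (Fin n → ℤ))
    (hΛ : ∀ a ∈ Λ, rv a ∈ V) : ∃ (τ : ℕ) (α : Fin (rkZ x Λ) → Fin n → ℤ)
      (b : Fin τ → Fin n → ℝ), rkZ x Λ + τ = rk x (V : Set (Fin n → ℝ)) ∧ (∀ j, α j ∈ Λ) ∧
      (∀ i, b i ∈ V) ∧
      LinearIndependent L (Sum.elim (fun j => om x (rv (α j))) (fun i => om x (b i))) ∧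
      ∀ a ∈ Λ, om x (rv a) ∈ Submodule.span L (Set.range fun j => om x (rv (α j))) := by
  obtain ⟨f, hf, hfi, hfs⟩ := Sel.exists_fin (L := L) (om x '' (rv '' (Λ : Set (Fin n → ℤ))))
    (finite_span_om x _) (rkZ x Λ) rfl
  have h1 : ∀ j, ∃ a : Fin n → ℤ, a ∈ Λ ∧ f j = om x (rv a) := by
    intro j
    obtain ⟨_, ⟨a, ha, rfl⟩, h2⟩ := hf j
    exact ⟨a, ha, h2.symm⟩
  choose α hα hαf using h1
  have hfe : f = fun j => om x (rv (α j)) := funext hαf
  rw [hfe] at hfi hfs
  obtain ⟨τ, w, hτ, hw, hli⟩ := Sel.exists_extend (fun j => om x (rv (α j))) hfi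
    (om x '' (V : Set (Fin n → ℝ))) (finite_span_om x _)
    (fun j => Submodule.subset_span ⟨_, hΛ _ (hα j), rfl⟩)
  choose b hb hbw using hw
  have hwe : w = fun i => om x (b i) := funext fun i => (hbw i).symm
  rw [hwe] at hli
  refine ⟨τ, α, b, ?_, hα, hb, hli, ?_⟩
  · rw [Fintype.card_fin] at hτ
    exact hτ
  · intro a ha
    rw [hfs]
    exact Submodule.subset_span ⟨_, ⟨a, ha, rfl⟩, rfl⟩

/-- independent forms can be completed by forms of coordinates -/
theorem exists_coord (x : Fin n → L) {k : ℕ} (α : Fin k → Fin n → ℤ)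
    (hα : LinearIndependent L (fun j => om x (rv (α j)))) : ∃ (τ : ℕ) (y : Fin τ → Fin n),
      k + τ = dm x ∧ LinearIndependent L (Sum.elim (fun j => om x (rv (α j)))
        (fun i => om x (rv (Pi.single (y i) 1)))) := by
  obtain ⟨τ, w, hτ, hw, hli⟩ := Sel.exists_extend (fun j => om x (rv (α j))) hα
    (Set.range fun i => om x (rv (Pi.single i 1)))
    (FiniteDimensional.span_of_finite L (Set.finite_range _)) (fun j => om_mem_span x _)
  choose y hy using hw
  have hwe : w = fun i => om x (rv (Pi.single (y i) 1)) := funext fun i => (hy i).symm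
  rw [hwe] at hli
  refine ⟨τ, y, ?_, hli⟩
  rw [Fintype.card_fin] at hτ
  have h1 : Submodule.span L (Set.range fun i => om x (rv (Pi.single i 1))) =
      Submodule.span L (om x '' Set.univ) := by
    refine le_antisymm (Submodule.span_mono ?_) (Submodule.span_le.2 ?_)
    · rintro _ ⟨i, rfl⟩
      exact ⟨_, Set.mem_univ _, rfl⟩
    · rintro _ ⟨b, _, rfl⟩
      exact om_mem_span x b
  rw [hτ, h1]
  rfl

/-- a family of `dm x` independent forms spans all forms -/
theorem mem_span_of_card (x : Fin n → L) {ι : Type} [Fintype ι] (v : ι → Fin n → ℝ)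
    (hv : LinearIndependent L (fun i => om x (v i))) (hc : Fintype.card ι = dm x)
    (b : Fin n → ℝ) : om x b ∈ Submodule.span L (Set.range fun i => om x (v i)) := by
  have h1 := finite_span_om x (Set.univ : Set (Fin n → ℝ))
  have h2 : Submodule.span L (Set.range fun i => om x (v i)) ≤
      Submodule.span L (om x '' Set.univ) := by
    refine Submodule.span_mono ?_
    rintro _ ⟨i, rfl⟩
    exact ⟨_, Set.mem_univ _, rfl⟩
  have h3 : finrank L (Submodule.span L (Set.range fun i => om x (v i))) =
      finrank L (Submodule.span L (om x '' Set.univ)) := by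
    rw [finrank_span_eq_card hv, hc]
    rfl
  rw [Submodule.eq_of_le_of_finrank_eq h2 h3]
  exact Submodule.subset_span ⟨b, Set.mem_univ _, rfl⟩

/-- `d` of `d + 1` vectors whose forms span a space of dimension `d` -/
theorem exists_perm (x : Fin n → L) {d : ℕ} (u : Fin (d + 1) → Fin n → ℝ)
    (h : rk x (Submodule.span ℝ (Set.range u) : Set (Fin n → ℝ)) = d) :
    ∃ e : Equiv.Perm (Fin (d + 1)), LinearIndependent L (fun j : Fin d => om x (u (e j.castSucc)))
    := by
  classical
  have h1 : Submodule.span L (om x '' (Submodule.span ℝ (Set.range u) : Set (Fin n → ℝ))) =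
      Submodule.span L (Set.range fun j => om x (u j)) := by
    refine le_antisymm (Submodule.span_le.2 ?_) (Submodule.span_mono ?_)
    · rintro _ ⟨b, hb, rfl⟩
      change b ∈ Submodule.span ℝ (Set.range u) at hb
      change om x b ∈ Submodule.span L (Set.range fun j => om x (u j))
      induction hb using Submodule.span_induction with
      | mem y hy =>
        obtain ⟨j, rfl⟩ := hy
        exact Submodule.subset_span ⟨j, rfl⟩
      | zero =>
        rw [om_zero]
        exact Submodule.zero_mem _
      | add y z _ _ hy hz =>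
        rw [om_add]
        exact Submodule.add_mem _ hy hz
      | smul r y _ hy =>
        rw [om_smul]
        exact Submodule.smul_mem _ _ hy
    · rintro _ ⟨j, rfl⟩
      exact ⟨u j, Submodule.subset_span ⟨j, rfl⟩, rfl⟩
  rw [rk, h1] at h
  obtain ⟨κ, a, ha, hs, hli⟩ := exists_linearIndependent' (K := L) (fun j => om x (u j))
  have hκ : Finite κ := Finite.of_injective a ha
  have hκf : Fintype κ := Fintype.ofFinite κ
  have hcard : Fintype.card κ = d := by
    have h2 := finrank_span_eq_card (R := L) hli
    rw [hs, h] at h2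
    exact h2.symm
  obtain ⟨e⟩ : Nonempty (Fin d ≃ κ) := ⟨(Fintype.equivFinOfCardEq hcard).symm⟩
  obtain ⟨p, hp⟩ := Sel.exists_perm_extend (fun j => a (e j)) (ha.comp e.injective)
  refine ⟨p, ?_⟩
  have h3 := hli.comp e e.injective
  have h4 : (fun j : Fin d => om x (u (p j.castSucc))) =
      ((fun j => om x (u j)) ∘ a) ∘ e := by
    funext j
    rw [hp]
    rfl
  rw [h4]
  exact h3

end

end Pool.Agent.SD
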