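import Mathlib
import Pool.Agent.Lib.MP_c95b3b_ag_SD.AdRel
import Pool.Agent.Lib.MP_c95b3b_ag_SD.Sel
import Pool.Agent.Lib.MP_c95b3b_ag_SD.ChartEx
import Pool.Agent.Lib.MP_c95b3b_ag_SD.Nst
import Pool.Agent.Lib.MP_c95b3b_ag_SD.GenPt
import Pool.Agent.Lib.MP_c95b3b_ag_SD.Count
import Pool.Agent.Lib.MP_c95b3b_ag_SD.Eval

set_option autoImplicit false

/-! Project SD (MP_c95b3b_ag), module DG: large degree of the monomial map `(x^α, x^a)`. -/

namespace Pool.Agent.SD

open MvPolynomial Filter Topology Module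

namespace Deg

/-- monomials of exponentials -/
theorem mn_exp {n : ℕ} (w : Fin n → ℂ) (v : Fin n → ℤ) :
    mn (fun l => Complex.exp (w l)) v = Complex.exp (∑ l, (v l : ℂ) * w l) := by
  rw [Complex.exp_sum, mn]
  exact Finset.prod_congr rfl fun l _ => (Complex.exp_int_mul (w l) (v l)).symm

/-- the two families together -/
def fam {n d' τ d : ℕ} (e : Fin d' ⊕ Fin τ ≃ Fin d) (α : Fin d' → Fin n → ℤ)
    (u : Fin τ → Fin n → ℝ) : Fin d → Fin n → ℝ :=
  fun j => Sum.elim (fun j => rv (α j)) u (e.symm j)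

/-- the two integral families together -/
def famZ {n d' τ d : ℕ} (e : Fin d' ⊕ Fin τ ≃ Fin d) (α : Fin d' → Fin n → ℤ)
    (a : Fin τ → Fin n → ℤ) : Fin d → Fin n → ℤ :=
  fun j => Sum.elim α a (e.symm j)

theorem continuous_fam {n d' τ d : ℕ} (e : Fin d' ⊕ Fin τ ≃ Fin d) (α : Fin d' → Fin n → ℤ)
    (j : Fin d) (l : Fin n) : Continuous fun u : Fin τ → Fin n → ℝ => fam e α u j l := by
  unfold fam
  rcases e.symm j with i | i
  · exact continuous_const
  · exact (continuous_apply l).comp (continuous_apply i)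

/-- injectivity of the derivative of the logarithms -/
theorem inj_of_det {n d : ℕ} (ψ : (Fin d → ℂ) → Fin n → ℂ) (t : Fin d → ℂ)
    (b : Fin d → Fin n → ℝ) (hdet : (jac b ψ t).det ≠ 0) (v : Fin d → ℂ)
    (hv : ∀ j, ∑ l, (b j l : ℂ) * (fderiv ℂ ψ t v l / ψ t l) = 0) : v = 0 := by
  refine Matrix.eq_zero_of_mulVec_eq_zero hdet ?_
  funext j
  have hlin : fderiv ℂ ψ t v = ∑ i, v i • fderiv ℂ ψ t (Pi.single i 1) := by
    conv_lhs => rw [pi_eq_sum_univ' v]
    rw [map_sum]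
    refine Finset.sum_congr rfl fun i _ => ?_
    rw [map_smul]
  rw [Pi.zero_apply, ← hv j]
  simp only [Matrix.mulVec, dotProduct, jac, hlin, Finset.sum_apply, Pi.smul_apply, smul_eq_mul,
    Finset.sum_div, Finset.mul_sum, Finset.sum_mul]
  rw [Finset.sum_comm]
  refine Finset.sum_congr rfl fun l _ => Finset.sum_congr rfl fun i _ => ?_
  ring

/-- the forms of the family with integral vectors near `M b` -/
theorem li_famZ {L : Type} [Field L] [CharZero L] [Algebra ℂ L] {n d' τ d : ℕ} {x : Fin n → L}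
    (e : Fin d' ⊕ Fin τ ≃ Fin d) (α : Fin d' → Fin n → ℤ) (a : Fin τ → Fin n → ℤ) (M : ℕ)
    (hM : 0 < M)
    (h : LinearIndependent L (fun j => om x (fam e α (fun i l => (a i l : ℝ) / M) j))) :
    LinearIndependent L (fun j => om x (rv (famZ e α a j))) := by
  have hM' : algebraMap ℂ L ((M : ℝ) : ℂ) ≠ 0 := by
    rw [Ne, map_eq_zero]
    exact_mod_cast hM.ne'
  have hw := h.units_smul (fun j => Sum.elim (fun _ => 1) (fun _ => Units.mk0 _ hM') (e.symm j))
  convert hw using 1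
  funext j
  show _ = (Sum.elim (fun _ => (1 : Lˣ)) (fun _ => Units.mk0 _ hM') (e.symm j)) •
    om x (fam e α (fun i l => (a i l : ℝ) / M) j)
  unfold famZ fam
  rcases e.symm j with i | i
  · simp only [Sum.elim_inl, one_smul]
  · simp only [Sum.elim_inr]
    rw [Units.smul_def, Units.val_mk0, ← om_smul]
    congr 1
    funext l
    have : (M : ℝ) ≠ 0 := by exact_mod_cast hM.ne'
    simp only [rv, Pi.smul_apply, smul_eq_mul]
    field_simp

/-- exponents of the monomials -/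
noncomputable def ex {d' τ d : ℕ} (e : Fin d' ⊕ Fin τ ≃ Fin d) (q : (Fin d' → ℕ) × (Fin τ → ℕ)) :
    Fin d →₀ ℕ :=
  Finsupp.equivFunOnFinite.symm fun j => Sum.elim q.1 q.2 (e.symm j)

theorem ex_injective {d' τ d : ℕ} (e : Fin d' ⊕ Fin τ ≃ Fin d) :
    Function.Injective (ex e : (Fin d' → ℕ) × (Fin τ → ℕ) → _) := by
  intro q q' h
  have h' := Finsupp.equivFunOnFinite.symm.injective h
  refine Prod.ext ?_ ?_
  · funext i
    have := congrFun h' (e (Sum.inl i))
    simpa using this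
  · funext i
    have := congrFun h' (e (Sum.inr i))
    simpa using this

theorem prod_ex {F : Type} [Field F] {n d' τ d : ℕ} (e : Fin d' ⊕ Fin τ ≃ Fin d)
    (α : Fin d' → Fin n → ℤ) (a : Fin τ → Fin n → ℤ) (y : Fin n → F)
    (q : (Fin d' → ℕ) × (Fin τ → ℕ)) :
    ∏ j, mn y (famZ e α a j) ^ ex e q j =
      (∏ j, mm α y j ^ q.1 j) * ∏ i, mn y (a i) ^ q.2 i := by
  rw [← e.prod_comp, Fintype.prod_sum_type]
  simp [famZ, ex, mm]

end Deg

open Deg

theorem deg_large {L : Type} [Field L] [CharZero L] [Algebra ℂ L] {n : ℕ} {x : Fin n → L}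
    (hx : ∀ i, x i ≠ 0) {d' τ : ℕ} (α : Fin d' → Fin n → ℤ) (b : Fin τ → Fin n → ℝ)
    (hli : LinearIndependent L (Sum.elim (fun j => om x (rv (α j))) (fun i => om x (b i))))
    (hd : d' + τ = dm x) :
    ∃ c0 : ℝ, 0 < c0 ∧ ∃ M0 : ℕ, ∀ M : ℕ, M0 ≤ M → ∀ a : Fin τ → Fin n → ℤ,
      (∀ i l, |(a i l : ℝ) - M * b i l| ≤ 1) → ∃ E : Finset (Fin n → ℤ),
        c0 * M ^ τ ≤ E.card ∧ LinearIndependent ℚ
          (fun q : E × (Fin d' → ℕ) × (Fin τ → ℕ) =>
            mn x q.1 * (∏ j, mm α x j ^ q.2.1 j) * ∏ i, mn x (a i) ^ q.2.2 i) := by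
  classical
  obtain ⟨κ, -, hκ, halg⟩ := exists_kappa hx
  obtain ⟨F0, hF0, hch⟩ := exists_chart x hx κ hκ halg
  obtain ⟨z0, hz0, hF0z⟩ := exists_pt x hx F0 hF0
  obtain ⟨c⟩ := hch z0 hz0 hF0z
  let e : Fin d' ⊕ Fin τ ≃ Fin (dm x) := finSumFinEquiv.trans (finCongr hd)
  have hb : LinearIndependent L (fun j => om x (fam e α b j)) := by
    have := hli.comp e.symm e.symm.injective
    convert this using 1
    funext j
    simp only [fam, Function.comp]
    rcases e.symm j with i | i <;> rfl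
  obtain ⟨t1, ht1, hdet, hgen⟩ := exists_gen_pt hx hκ halg c (fam e α b) hb
  have hz1 : ∀ i, c.ψ t1 i ≠ 0 := (c.on t1 ht1).1
  obtain ⟨ℓ, hℓ, hev⟩ := exists_log (c.an t1 ht1) hz1
  have hU : {t | t ∈ c.U ∧ ∀ l, Complex.exp (ℓ t l) = c.ψ t l} ∈ 𝓝 t1 :=
    Filter.inter_mem (c.isOpen.mem_nhds ht1) (hev.mono fun t h => h.2.1)
  have hself := hev.self_of_nhds
  have hinj : ∀ v : Fin (dm x) → ℂ, (∀ j, ∑ l, (α j l : ℂ) * fderiv ℂ ℓ t1 v l = 0) →
      (∀ i, ∑ l, (b i l : ℂ) * fderiv ℂ ℓ t1 v l = 0) → v = 0 := by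
    intro v h1 h2
    refine inj_of_det c.ψ t1 (fam e α b) hdet v fun j => ?_
    have hrw : ∀ l, fderiv ℂ c.ψ t1 v l / c.ψ t1 l = fderiv ℂ ℓ t1 v l := fun l =>
      (hself.2.2.2 v l).symm
    simp only [hrw, fam]
    rcases e.symm j with i | i
    · simpa [rv] using h1 i
    · simpa using h2 i
  obtain ⟨c0, hc0, M0, hM0⟩ := count_sol hd t1 _ hU ℓ hℓ α b hinj
  -- the determinants near `b`
  have hcont : Continuous fun u : Fin τ → Fin n → ℝ => (jac (fam e α u) c.ψ t1).det := by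
    refine Continuous.matrix_det ?_
    refine continuous_matrix fun j i => ?_
    unfold jac
    refine continuous_finsetSum _ fun l _ => ?_
    exact (Complex.continuous_ofReal.comp (continuous_fam e α j l)).mul continuous_const
  have hnear : ∀ᶠ u in 𝓝 b, (jac (fam e α u) c.ψ t1).det ≠ 0 :=
    hcont.continuousAt.eventually_ne hdet
  obtain ⟨ε, hε, hball⟩ := Metric.eventually_nhds_iff.1 hnear
  refine ⟨c0, hc0, max M0 (⌈1 / ε⌉₊ + 1), fun M hM a ha => ?_⟩
  have hM1 : M0 ≤ M := le_trans (le_max_left _ _) hM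
  have hM2 : ⌈1 / ε⌉₊ + 1 ≤ M := le_trans (le_max_right _ _) hM
  have hMpos : 0 < M := by omega
  have hMr : (0 : ℝ) < M := by exact_mod_cast hMpos
  have hMε : 1 / (M : ℝ) < ε := by
    have h1 : 1 / ε < M := by
      calc 1 / ε ≤ ⌈1 / ε⌉₊ := Nat.le_ceil _
        _ < (⌈1 / ε⌉₊ : ℝ) + 1 := by linarith
        _ ≤ M := by exact_mod_cast hM2
    rw [div_lt_iff₀ hε] at h1
    rw [div_lt_iff₀ hMr]
    linarith
  have hdist : dist (fun i l => (a i l : ℝ) / M) b < ε := by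
    rw [dist_pi_lt_iff hε]
    intro i
    rw [dist_pi_lt_iff hε]
    intro l
    rw [Real.dist_eq]
    refine lt_of_le_of_lt ?_ hMε
    have : (a i l : ℝ) / M - b i l = ((a i l : ℝ) - M * b i l) / M := by
      field_simp
    rw [this, abs_div, abs_of_pos hMr]
    exact div_le_div_of_nonneg_right (ha i l) hMr.le
  have hdet' := hball hdist
  have hliA : LinearIndependent L (fun j => om x (rv (famZ e α a j))) := by
    refine li_famZ e α a M hMpos ?_
    by_contra hcon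
    exact hdet' (jac_eq hx hκ halg c _ hcon t1 ht1)
  obtain ⟨Q, hQcard, hQ⟩ := hM0 M hM1 a ha
  have hinjQ : Set.InjOn c.ψ (Q : Set (Fin (dm x) → ℂ)) := by
    intro t ht t' ht' h
    funext j
    rw [← c.coord t (hQ t ht).1.1 j, ← c.coord t' (hQ t' ht').1.1 j, h]
  obtain ⟨E, hEcard, -, hE⟩ := exists_exps (Q.image c.ψ)
  refine ⟨E, ?_, ?_⟩
  · rw [hEcard, Finset.card_image_of_injOn hinjQ]
    exact hQcard
  -- values of the monomials at the points of `Q`
  have hval : ∀ t ∈ Q, ∀ j, mn (c.ψ t) (famZ e α a j) = mn (c.ψ t1) (famZ e α a j) := by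
    intro t ht j
    obtain ⟨⟨_, hexp⟩, hα, hak⟩ := hQ t ht
    have e1 : c.ψ t = fun l => Complex.exp (ℓ t l) := funext fun l => (hexp l).symm
    have e2 : c.ψ t1 = fun l => Complex.exp (ℓ t1 l) := funext fun l => (hself.2.1 l).symm
    rw [e1, e2, mn_exp, mn_exp]
    unfold famZ
    rcases e.symm j with i | i
    · simp only [Sum.elim_inl]
      rw [hα i]
    · simp only [Sum.elim_inr]
      obtain ⟨k, hk⟩ := hak i
      rw [hk, Complex.exp_add, Complex.exp_int_mul_two_pi_mul_I, mul_one]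
  rw [← LinearIndependent.iff_fractionRing ℤ ℚ, linearIndependent_iff']
  intro s g hg
  -- the relation at the points of the variety
  have hrel : ∀ t ∈ Q, ∑ q ∈ s, ((g q : ℤ) : ℂ) * (mn (c.ψ t) q.1 *
      ∏ j, mn (c.ψ t1) (famZ e α a j) ^ ex e q.2 j) = 0 := by
    intro t ht
    have h1 := OnY.rel_mn hx (c.on t (hQ t ht).1.1) (ι := E ⊕ Fin (dm x))
      (Sum.elim (fun e => e.1) (famZ e α a))
      (∑ q ∈ s, C ((g q : ℤ) : ℂ) * (X (Sum.inl q.1) * ∏ j, X (Sum.inr j) ^ ex e q.2 j)) (by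
        rw [map_sum, ← hg]
        refine Finset.sum_congr rfl fun q _ => ?_
        rw [map_mul, map_mul, map_prod, aeval_X, algHom_C, map_intCast]
        simp only [map_pow, aeval_X, Sum.elim_inl, Sum.elim_inr]
        rw [prod_ex, zsmul_eq_mul, mul_assoc (mn x q.1)])
    rw [map_sum] at h1
    rw [← h1]
    refine Finset.sum_congr rfl fun q _ => ?_
    rw [map_mul, map_mul, map_prod, aeval_X, algHom_C, map_intCast]
    simp only [map_pow, aeval_X, Sum.elim_inl, Sum.elim_inr, hval t ht]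
  -- the coefficients of the monomials `x^e` vanish
  have hcoef : ∀ e0 ∈ E, ∑ q ∈ s with (q.1 : Fin n → ℤ) = e0, ((g q : ℤ) : ℂ) *
      ∏ j, mn (c.ψ t1) (famZ e α a j) ^ ex e q.2 j = 0 := by
    refine hE (fun e0 => ∑ q ∈ s with (q.1 : Fin n → ℤ) = e0, ((g q : ℤ) : ℂ) *
      ∏ j, mn (c.ψ t1) (famZ e α a j) ^ ex e q.2 j) fun z hz => ?_
    obtain ⟨t, ht, rfl⟩ := Finset.mem_image.1 hz
    rw [← hrel t ht, ← Finset.sum_fiberwise_of_maps_to (s := s) (t := E)
      (g := fun q => (q.1 : Fin n → ℤ)) (fun q _ => q.1.2)]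
    refine Finset.sum_congr rfl fun e0 _ => ?_
    rw [Finset.sum_mul]
    refine Finset.sum_congr rfl fun q hq => ?_
    rw [← (Finset.mem_filter.1 hq).2]
    ring
  intro q hq
  -- the polynomial of `q.1`
  have hpoly : (∑ q' ∈ s with (q'.1 : Fin n → ℤ) = q.1, monomial (ex e q'.2) (g q') :
      MvPolynomial (Fin (dm x)) ℤ) = 0 := by
    refine int_ind hx hliA _ ?_
    have h2 := (gen_mn hx hz1 hgen (famZ e α a)
      (∑ q' ∈ s with (q'.1 : Fin n → ℤ) = q.1, monomial (ex e q'.2) (g q'))).1 (by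
        rw [map_sum, ← hcoef q.1 q.1.2]
        refine Finset.sum_congr rfl fun q' _ => ?_
        rw [aeval_monomial, eq_intCast, Finsupp.prod_fintype _ _ (fun _ => pow_zero _)])
    exact h2
  have hc := congrArg (coeff (ex e q.2)) hpoly
  rw [coeff_sum, coeff_zero, Finset.sum_eq_single q] at hc
  · rwa [coeff_monomial, if_pos rfl] at hc
  · intro q' hq' hne
    rw [coeff_monomial, if_neg]
    intro h
    refine hne (Prod.ext (Subtype.ext (Finset.mem_filter.1 hq').2) (ex_injective e h))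
  · intro h
    refine (h ?_).elim
    exact Finset.mem_filter.2 ⟨hq, rfl⟩

end Pool.Agent.SD
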