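import Mathlib

set_option autoImplicit false

/-! Project SD (MP_c95b3b_ag), module EY: entropy of the bounded analytic functions on a
polydisc. -/

namespace Pool.Agent.SD

open Metric

namespace Entropy

variable {k : ℕ}

/-- the derivative in the direction of the first coordinate -/
noncomputable def d0 (f : (Fin (k + 1) → ℂ) → ℂ) : (Fin (k + 1) → ℂ) → ℂ :=
  fun w => fderiv ℂ f w (Pi.single 0 1)

theorem d0_analytic {f : (Fin (k + 1) → ℂ) → ℂ} {s : Set (Fin (k + 1) → ℂ)}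
    (hf : AnalyticOnNhd ℂ f s) : AnalyticOnNhd ℂ (d0 f) s :=
  (ContinuousLinearMap.apply ℂ ℂ (Pi.single 0 1 : Fin (k + 1) → ℂ)).comp_analyticOnNhd hf.fderiv

theorem iter_analytic {f : (Fin (k + 1) → ℂ) → ℂ} {s : Set (Fin (k + 1) → ℂ)}
    (hf : AnalyticOnNhd ℂ f s) (j : ℕ) : AnalyticOnNhd ℂ (d0^[j] f) s := by
  induction j with
  | zero => exact hf
  | succ j ih =>
    rw [Function.iterate_succ_apply']
    exact d0_analytic ih

/-- the `j`-th Taylor coefficient in the first variable -/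
noncomputable def cf (f : (Fin (k + 1) → ℂ) → ℂ) (j : ℕ) : (Fin k → ℂ) → ℂ :=
  fun w => ((j.factorial : ℂ))⁻¹ * (d0^[j] f) (Fin.cons 0 w)

theorem cons_mem {r : ℝ} (hr : 0 ≤ r) {z : ℂ} (hz : ‖z‖ ≤ r) {w : Fin k → ℂ}
    (hw : w ∈ closedBall (0 : Fin k → ℂ) r) :
    (Fin.cons z w : Fin (k + 1) → ℂ) ∈ closedBall (0 : Fin (k + 1) → ℂ) r := by
  rw [mem_closedBall, dist_zero_right] at hw ⊢
  rw [pi_norm_le_iff_of_nonneg hr] at hw ⊢
  intro i
  refine Fin.cases ?_ (fun i => ?_) i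
  · rw [Fin.cons_zero]
    exact hz
  · rw [Fin.cons_succ]
    exact hw i

theorem cf_analytic {f : (Fin (k + 1) → ℂ) → ℂ}
    (hf : AnalyticOnNhd ℂ f (closedBall 0 2)) (j : ℕ) :
    AnalyticOnNhd ℂ (cf f j) (closedBall 0 2) := by
  intro w hw
  have h1 : AnalyticAt ℂ (fun w : Fin k → ℂ => (Fin.cons 0 w : Fin (k + 1) → ℂ)) w := by
    refine AnalyticAt.pi (fun i => ?_)
    refine Fin.cases ?_ (fun i => ?_) i
    · simp only [Fin.cons_zero]
      exact analyticAt_const
    · simp only [Fin.cons_succ]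
      exact (ContinuousLinearMap.proj (R := ℂ) (φ := fun _ : Fin k => ℂ) i).analyticAt w
  have h2 : AnalyticAt ℂ (d0^[j] f) (Fin.cons 0 w : Fin (k + 1) → ℂ) :=
    iter_analytic hf j _ (cons_mem (by norm_num) (by norm_num) hw)
  exact analyticAt_const.mul (h2.fun_comp h1)

theorem hasDerivAt_cons (w : Fin k → ℂ) (z : ℂ) :
    HasDerivAt (fun z : ℂ => (Fin.cons z w : Fin (k + 1) → ℂ)) (Pi.single 0 1) z := by
  rw [hasDerivAt_pi]
  intro i
  refine Fin.cases ?_ (fun i => ?_) i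
  · simp only [Fin.cons_zero, Pi.single_eq_same]
    exact hasDerivAt_id z
  · simp only [Fin.cons_succ, Pi.single_eq_of_ne (Fin.succ_ne_zero i)]
    exact hasDerivAt_const z _

theorem hasDerivAt_slice {f : (Fin (k + 1) → ℂ) → ℂ} {w : Fin k → ℂ} {z : ℂ}
    (hf : AnalyticAt ℂ f (Fin.cons z w : Fin (k + 1) → ℂ)) :
    HasDerivAt (fun z : ℂ => f (Fin.cons z w)) (d0 f (Fin.cons z w)) z :=
  hf.differentiableAt.hasFDerivAt.comp_hasDerivAt z (hasDerivAt_cons w z)

theorem iteratedDeriv_slice {f : (Fin (k + 1) → ℂ) → ℂ}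
    (hf : AnalyticOnNhd ℂ f (closedBall 0 2)) {w : Fin k → ℂ} (hw : w ∈ closedBall 0 2) (j : ℕ) :
    ∀ z ∈ ball (0 : ℂ) 2, iteratedDeriv j (fun z : ℂ => f (Fin.cons z w)) z =
      (d0^[j] f) (Fin.cons z w) := by
  induction j with
  | zero =>
    intro z _
    rw [iteratedDeriv_zero]
    rfl
  | succ j ih =>
    intro z hz
    rw [iteratedDeriv_succ, Function.iterate_succ_apply']
    have h1 : iteratedDeriv j (fun z : ℂ => f (Fin.cons z w)) =ᶠ[nhds z]
        fun z => (d0^[j] f) (Fin.cons z w) := by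
      filter_upwards [isOpen_ball.mem_nhds hz] with y hy
      exact ih y hy
    rw [h1.deriv_eq]
    refine (hasDerivAt_slice (iter_analytic hf j _ (cons_mem (by norm_num) ?_ hw))).deriv
    rw [mem_ball, dist_zero_right] at hz
    exact hz.le

theorem slice_diff {f : (Fin (k + 1) → ℂ) → ℂ}
    (hf : AnalyticOnNhd ℂ f (closedBall 0 2)) {w : Fin k → ℂ} (hw : w ∈ closedBall 0 2)
    {z : ℂ} (hz : ‖z‖ ≤ 2) : DifferentiableAt ℂ (fun z : ℂ => f (Fin.cons z w)) z :=
  (hasDerivAt_slice (hf _ (cons_mem (by norm_num) hz hw))).differentiableAt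

theorem cf_bound {f : (Fin (k + 1) → ℂ) → ℂ} (hf : AnalyticOnNhd ℂ f (closedBall 0 2)) {M : ℝ}
    (hM : ∀ w ∈ closedBall 0 2, ‖f w‖ ≤ M) {w : Fin k → ℂ} (hw : w ∈ closedBall 0 2) (j : ℕ) :
    ‖cf f j w‖ ≤ M / 2 ^ j := by
  have h1 : DiffContOnCl ℂ (fun z : ℂ => f (Fin.cons z w)) (ball 0 2) := by
    refine DifferentiableOn.diffContOnCl (fun z hz => ?_)
    rw [closure_ball _ (by norm_num), mem_closedBall, dist_zero_right] at hz
    exact (slice_diff hf hw hz).differentiableWithinAt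
  have h2 := Complex.norm_iteratedDeriv_le_of_forall_mem_sphere_norm_le j (by norm_num) h1
    (C := M) (fun z hz => hM _ (cons_mem (by norm_num) (by
      rw [mem_sphere, dist_zero_right] at hz
      exact hz.le) hw))
  rw [iteratedDeriv_slice hf hw j 0 (mem_ball_self (by norm_num))] at h2
  have hj : (0 : ℝ) < j.factorial := by exact_mod_cast j.factorial_pos
  rw [cf, norm_mul, norm_inv, Complex.norm_natCast, inv_mul_le_iff₀ hj]
  calc _ ≤ _ := h2
    _ = _ := by ring

theorem taylor {f : (Fin (k + 1) → ℂ) → ℂ} (hf : AnalyticOnNhd ℂ f (closedBall 0 2))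
    {w : Fin k → ℂ} (hw : w ∈ closedBall 0 2) {z : ℂ} (hz : ‖z‖ ≤ 1) :
    HasSum (fun j : ℕ => z ^ j * cf f j w) (f (Fin.cons z w)) := by
  have h1 : DifferentiableOn ℂ (fun z : ℂ => f (Fin.cons z w)) (ball 0 2) := fun y hy => by
    rw [mem_ball, dist_zero_right] at hy
    exact (slice_diff hf hw hy.le).differentiableWithinAt
  have h2 := Complex.hasSum_taylorSeries_on_ball h1 (z := z) (by
    rw [mem_ball, dist_zero_right]
    linarith)
  refine h2.congr_fun ?_
  intro j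
  rw [iteratedDeriv_slice hf hw j 0 (mem_ball_self (by norm_num)), cf, sub_zero, smul_eq_mul,
    smul_eq_mul]
  ring

/-- two functions with close coefficients are close -/
theorem close {f g : (Fin (k + 1) → ℂ) → ℂ} (hf : AnalyticOnNhd ℂ f (closedBall 0 2))
    (hg : AnalyticOnNhd ℂ g (closedBall 0 2)) {M : ℝ}
    (hfM : ∀ w ∈ closedBall 0 2, ‖f w‖ ≤ M) (hgM : ∀ w ∈ closedBall 0 2, ‖g w‖ ≤ M)
    {w : Fin k → ℂ} (hw : w ∈ closedBall 0 2) {z : ℂ} (hz : ‖z‖ ≤ 1) (J : ℕ) {ε : ℝ}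
    (hε : ∀ j < J, ‖cf f j w - cf g j w‖ ≤ ε) :
    ‖f (Fin.cons z w) - g (Fin.cons z w)‖ ≤ J * ε + 4 * M / 2 ^ J := by
  have h0 := (taylor hf hw hz).sub (taylor hg hw hz)
  have hs := h0.summable
  rw [← h0.tsum_eq, ← hs.sum_add_tsum_nat_add J]
  refine (norm_add_le _ _).trans (add_le_add ?_ ?_)
  · refine (norm_sum_le _ _).trans ?_
    have h1 : ∀ j ∈ Finset.range J, ‖z ^ j * cf f j w - z ^ j * cf g j w‖ ≤ ε := by
      intro j hj
      rw [← mul_sub, norm_mul, norm_pow]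
      calc ‖z‖ ^ j * ‖cf f j w - cf g j w‖ ≤ 1 * ε :=
            mul_le_mul (pow_le_one₀ (norm_nonneg z) hz) (hε j (Finset.mem_range.1 hj))
              (norm_nonneg _) zero_le_one
        _ = ε := one_mul _
    calc _ ≤ ∑ j ∈ Finset.range J, ε := Finset.sum_le_sum h1
      _ = J * ε := by rw [Finset.sum_const, Finset.card_range, nsmul_eq_mul]
  · have h2 : HasSum (fun j : ℕ => 2 * M / 2 ^ J * (1 / 2 : ℝ) ^ j) (2 * M / 2 ^ J * 2) := by
      refine HasSum.mul_left _ ?_
      exact hasSum_geometric_two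
    have h3 : 2 * M / 2 ^ J * 2 = 4 * M / 2 ^ J := by ring
    rw [h3] at h2
    refine tsum_of_norm_bounded h2 (fun j => ?_)
    rw [← mul_sub, norm_mul, norm_pow]
    have h4 : ‖cf f (j + J) w - cf g (j + J) w‖ ≤ M / 2 ^ (j + J) + M / 2 ^ (j + J) :=
      (norm_sub_le _ _).trans (add_le_add (cf_bound hf hfM hw _) (cf_bound hg hgM hw _))
    calc ‖z‖ ^ (j + J) * ‖cf f (j + J) w - cf g (j + J) w‖
        ≤ 1 * (M / 2 ^ (j + J) + M / 2 ^ (j + J)) :=
          mul_le_mul (pow_le_one₀ (norm_nonneg z) hz) h4 (norm_nonneg _) zero_le_one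
      _ = 2 * M / 2 ^ J * (1 / 2 : ℝ) ^ j := by
          rw [pow_add, one_div, inv_pow]
          field_simp
          ring

/-- the case of no variables: the values in a disc -/
theorem base (T : ℝ) (hT : 1 ≤ T) : ∃ (ι : Type) (_ : Fintype ι) (Φ : ℂ → ι),
    (Fintype.card ι : ℝ) ≤ Real.exp (10 * T) ∧ ∀ x y : ℂ, ‖x‖ ≤ Real.exp T → ‖y‖ ≤ Real.exp T →
      Φ x = Φ y → ‖x - y‖ ≤ Real.exp (-T) := by
  classical
  set A : ℝ := 2 * Real.exp T with hA
  have hA0 : 0 < A := by positivity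
  set M : ℤ := ⌈A * Real.exp T⌉ with hM
  have hM1 : A * Real.exp T ≤ M := Int.le_ceil _
  have hM2 : (M : ℝ) < A * Real.exp T + 1 := Int.ceil_lt_add_one _
  have hM0 : 0 ≤ M := by
    have : (0 : ℝ) < M := lt_of_lt_of_le (by positivity) hM1
    exact_mod_cast this.le
  let I : Finset ℤ := Finset.Icc (-M) M
  have h0 : (0 : ℤ) ∈ I := Finset.mem_Icc.2 ⟨by omega, hM0⟩
  let cl : ℝ → I := fun r => if h : ⌊A * r⌋ ∈ I then ⟨_, h⟩ else ⟨0, h0⟩
  have hcl : ∀ r : ℝ, |r| ≤ Real.exp T → (cl r : ℤ) = ⌊A * r⌋ := by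
    intro r hr
    have h1 : ⌊A * r⌋ ∈ I := by
      have h2 : |A * r| ≤ A * Real.exp T := by
        rw [abs_mul, abs_of_pos hA0]
        exact mul_le_mul_of_nonneg_left hr hA0.le
      have h3 := abs_le.1 (h2.trans hM1)
      refine Finset.mem_Icc.2 ⟨Int.le_floor.2 ?_, ?_⟩
      · push_cast
        exact h3.1
      · have h4 : (⌊A * r⌋ : ℝ) ≤ M := (Int.floor_le _).trans h3.2
        exact_mod_cast h4
    simp only [cl, dif_pos h1]
  refine ⟨I × I, inferInstance, fun x => (cl x.re, cl x.im), ?_, ?_⟩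
  · rw [Fintype.card_prod, Fintype.card_coe, Int.card_Icc]
    have h1 : (((M + 1 - -M).toNat : ℕ) : ℝ) = 2 * M + 1 := by
      have h2 : (((M + 1 - -M).toNat : ℕ) : ℤ) = 2 * M + 1 := by
        rw [Int.toNat_of_nonneg (by omega)]
        ring
      calc (((M + 1 - -M).toNat : ℕ) : ℝ) = ((((M + 1 - -M).toNat : ℕ) : ℤ) : ℝ) :=
            (Int.cast_natCast _).symm
        _ = ((2 * M + 1 : ℤ) : ℝ) := by rw [h2]
        _ = 2 * M + 1 := by push_cast; rfl
    push_cast
    rw [h1]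
    have hexp2 : Real.exp T * Real.exp T = Real.exp (2 * T) := by
      rw [← Real.exp_add]
      congr 1
      ring
    have h4 : (M : ℝ) ≤ 2 * Real.exp (2 * T) + 1 := by
      have : A * Real.exp T = 2 * Real.exp (2 * T) := by rw [hA, mul_assoc, hexp2]
      linarith
    have h5 : 1 ≤ Real.exp (2 * T) := Real.one_le_exp (by linarith)
    have h6 : (8 : ℝ) ≤ Real.exp (3 * T) := by
      have h7 : (2 : ℝ) ≤ Real.exp T := by
        have := Real.add_one_le_exp T
        linarith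
      calc (8 : ℝ) = 2 ^ 3 := by norm_num
        _ ≤ Real.exp T ^ 3 := pow_le_pow_left₀ (by norm_num) h7 3
        _ = Real.exp (3 * T) := by
          rw [← Real.exp_nat_mul]
          norm_num
    have h8 : 2 * (M : ℝ) + 1 ≤ Real.exp (5 * T) := by
      calc 2 * (M : ℝ) + 1 ≤ 8 * Real.exp (2 * T) := by linarith
        _ ≤ Real.exp (3 * T) * Real.exp (2 * T) := mul_le_mul_of_nonneg_right h6 (by positivity)
        _ = Real.exp (5 * T) := by
          rw [← Real.exp_add]
          congr 1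
          ring
    have h9 : (0 : ℝ) ≤ 2 * (M : ℝ) + 1 := by
      have : (0 : ℝ) ≤ M := by exact_mod_cast hM0
      linarith
    calc (2 * (M : ℝ) + 1) * (2 * (M : ℝ) + 1) ≤ Real.exp (5 * T) * Real.exp (5 * T) :=
          mul_le_mul h8 h8 h9 (by positivity)
      _ = Real.exp (10 * T) := by
        rw [← Real.exp_add]
        congr 1
        ring
  · intro x y hx hy hxy
    have key : ∀ r s : ℝ, |r| ≤ Real.exp T → |s| ≤ Real.exp T → cl r = cl s →
        |r - s| ≤ Real.exp (-T) / 2 := by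
      intro r s hr hs h
      have h1 : ⌊A * r⌋ = ⌊A * s⌋ := by rw [← hcl r hr, ← hcl s hs, h]
      have h2 := Int.abs_sub_lt_one_of_floor_eq_floor h1
      rw [← mul_sub, abs_mul, abs_of_pos hA0] at h2
      have h3 : Real.exp (-T) / 2 = 1 / A := by
        rw [hA, Real.exp_neg]
        field_simp
      rw [h3, le_div_iff₀ hA0, mul_comm]
      exact h2.le
    have h1 := congrArg Prod.fst hxy
    have h2 := congrArg Prod.snd hxy
    have h3 := key x.re y.re ((Complex.abs_re_le_norm x).trans hx)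
      ((Complex.abs_re_le_norm y).trans hy) h1
    have h4 := key x.im y.im ((Complex.abs_im_le_norm x).trans hx)
      ((Complex.abs_im_le_norm y).trans hy) h2
    calc ‖x - y‖ ≤ |(x - y).re| + |(x - y).im| := Complex.norm_le_abs_re_add_abs_im _
      _ ≤ Real.exp (-T) / 2 + Real.exp (-T) / 2 := by
        rw [Complex.sub_re, Complex.sub_im]
        exact add_le_add h3 h4
      _ = Real.exp (-T) := by ring

/-- the number of the coefficients -/
theorem exists_J {T : ℝ} (hT : 1 ≤ T) : ∃ J : ℕ, 1 ≤ J ∧ (J : ℝ) ≤ 11 * T ∧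
    4 * Real.exp T / 2 ^ J ≤ Real.exp (-T) / 2 := by
  have hc := Nat.ceil_lt_add_one (show (0 : ℝ) ≤ 4 * T by linarith)
  have hc' := Nat.le_ceil (4 * T)
  refine ⟨⌈4 * T⌉₊ + 6, by omega, ?_, ?_⟩
  · push_cast
    linarith
  · have h1 : Real.exp (1 / 2) ≤ 2 := by
      have h2 : Real.exp (1 / 2) ^ 2 ≤ 2 ^ 2 := by
        rw [← Real.exp_nat_mul]
        have := Real.exp_one_lt_d9
        norm_num
        linarith
      exact le_of_sq_le_sq h2 (by norm_num)
    have h3 : Real.exp ((⌈4 * T⌉₊ + 6 : ℕ) * (1 / 2 : ℝ)) ≤ 2 ^ (⌈4 * T⌉₊ + 6) := by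
      rw [Real.exp_nat_mul]
      exact pow_le_pow_left₀ (Real.exp_pos _).le h1 _
    have h4 : Real.exp (2 * T + 3) ≤ 2 ^ (⌈4 * T⌉₊ + 6) := by
      refine le_trans (Real.exp_le_exp.2 ?_) h3
      push_cast
      linarith
    have h5 : (8 : ℝ) ≤ Real.exp 3 := by
      have h7 : (2 : ℝ) ≤ Real.exp 1 := by
        have := Real.add_one_le_exp 1
        linarith
      calc (8 : ℝ) = 2 ^ 3 := by norm_num
        _ ≤ Real.exp 1 ^ 3 := pow_le_pow_left₀ (by norm_num) h7 3
        _ = Real.exp 3 := by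
          rw [← Real.exp_nat_mul]
          norm_num
    have h6 : 8 * Real.exp (2 * T) ≤ 2 ^ (⌈4 * T⌉₊ + 6) := by
      refine le_trans ?_ h4
      rw [Real.exp_add, mul_comm]
      exact mul_le_mul_of_nonneg_left h5 (by positivity)
    rw [div_le_iff₀ (by positivity)]
    calc 4 * Real.exp T = Real.exp (-T) / 2 * (8 * Real.exp (2 * T)) := by
          have h8 : Real.exp T = Real.exp (-T) * Real.exp (2 * T) := by
            rw [← Real.exp_add]
            congr 1
            ring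
          rw [h8]
          ring
      _ ≤ Real.exp (-T) / 2 * 2 ^ (⌈4 * T⌉₊ + 6) :=
        mul_le_mul_of_nonneg_left h6 (by positivity)

end Entropy

open Entropy

/-- the functions which are analytic near the closed polydisc of radius `2` and bounded by `M` on
it can be divided into at most `exp (C T^(k+1))` classes of functions which are `exp (-T)`-close
on the closed polydisc of radius `1` -/
theorem entropy (k : ℕ) : ∃ C : ℝ, 1 ≤ C ∧ ∀ T : ℝ, 1 ≤ T →
    ∃ (ι : Type) (_ : Fintype ι) (Φ : ((Fin k → ℂ) → ℂ) → ι),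
      (Fintype.card ι : ℝ) ≤ Real.exp (C * T ^ (k + 1)) ∧
      ∀ f g : (Fin k → ℂ) → ℂ, AnalyticOnNhd ℂ f (closedBall 0 2) →
        AnalyticOnNhd ℂ g (closedBall 0 2) → (∀ w ∈ closedBall 0 2, ‖f w‖ ≤ Real.exp T) →
        (∀ w ∈ closedBall 0 2, ‖g w‖ ≤ Real.exp T) → Φ f = Φ g →
        ∀ w ∈ closedBall (0 : Fin k → ℂ) 1, ‖f w - g w‖ ≤ Real.exp (-T) := by
  induction k with
  | zero =>
    refine ⟨10, by norm_num, fun T hT => ?_⟩
    obtain ⟨ι, hι, Φ, hcard, hΦ⟩ := base T hT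
    refine ⟨ι, hι, fun f => Φ (f 0), ?_, ?_⟩
    · rw [zero_add, pow_one]
      exact hcard
    · intro f g _ _ hfM hgM h w _
      have hw : w = 0 := Subsingleton.elim _ _
      subst hw
      exact hΦ _ _ (hfM 0 (mem_closedBall_self (by norm_num)))
        (hgM 0 (mem_closedBall_self (by norm_num))) h
  | succ k ih =>
    obtain ⟨C, hC, hk⟩ := ih
    refine ⟨11 * C * 23 ^ (k + 1), ?_, fun T hT => ?_⟩
    · have h1 : (1 : ℝ) ≤ 23 ^ (k + 1) := one_le_pow₀ (by norm_num)
      nlinarith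
    obtain ⟨J, hJ1, hJ2, hJ3⟩ := exists_J hT
    have hJ0 : (0 : ℝ) < J := by exact_mod_cast hJ1
    have hJ1' : (1 : ℝ) ≤ J := by exact_mod_cast hJ1
    set T' : ℝ := T + Real.log (2 * J) with hT'
    have hlog0 : 0 ≤ Real.log (2 * J) := Real.log_nonneg (by linarith)
    have hTT' : T ≤ T' := by linarith
    have hT'1 : 1 ≤ T' := hT.trans hTT'
    have hT'2 : T' ≤ 23 * T := by
      have h1 := Real.log_le_sub_one_of_pos (show (0 : ℝ) < 2 * J by positivity)
      linarith
    obtain ⟨ι, hι, Φ, hcard, hΦ⟩ := hk T' hT'1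
    refine ⟨Fin J → ι, inferInstance, fun f j => Φ (cf f j), ?_, ?_⟩
    · rw [Fintype.card_fun, Fintype.card_fin]
      push_cast
      calc (Fintype.card ι : ℝ) ^ J ≤ Real.exp (C * T' ^ (k + 1)) ^ J :=
            pow_le_pow_left₀ (by positivity) hcard J
        _ = Real.exp (J * (C * T' ^ (k + 1))) := by rw [← Real.exp_nat_mul]
        _ ≤ Real.exp (11 * C * 23 ^ (k + 1) * T ^ (k + 1 + 1)) := by
          refine Real.exp_le_exp.2 ?_
          have h1 : T' ^ (k + 1) ≤ (23 * T) ^ (k + 1) := pow_le_pow_left₀ (by linarith) hT'2 _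
          calc J * (C * T' ^ (k + 1)) ≤ (11 * T) * (C * (23 * T) ^ (k + 1)) :=
                mul_le_mul hJ2 (mul_le_mul_of_nonneg_left h1 (by linarith)) (by positivity)
                  (by positivity)
            _ = 11 * C * 23 ^ (k + 1) * T ^ (k + 1 + 1) := by
              rw [mul_pow]
              ring
    · intro f g hf hg hfM hgM h w hw
      have hw' : w = Fin.cons (w 0) (Fin.tail w) := (Fin.cons_self_tail w).symm
      rw [mem_closedBall, dist_zero_right, pi_norm_le_iff_of_nonneg zero_le_one] at hw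
      have hz : ‖w 0‖ ≤ 1 := hw 0
      have ht1 : Fin.tail w ∈ closedBall (0 : Fin k → ℂ) 1 := by
        rw [mem_closedBall, dist_zero_right, pi_norm_le_iff_of_nonneg zero_le_one]
        exact fun i => hw i.succ
      have ht2 : Fin.tail w ∈ closedBall (0 : Fin k → ℂ) 2 :=
        closedBall_subset_closedBall (by norm_num) ht1
      have hbd : ∀ {f : (Fin (k + 1) → ℂ) → ℂ}, AnalyticOnNhd ℂ f (closedBall 0 2) →
          (∀ w ∈ closedBall 0 2, ‖f w‖ ≤ Real.exp T) → ∀ j : ℕ, ∀ v ∈ closedBall 0 2,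
            ‖cf f j v‖ ≤ Real.exp T' := by
        intro f hf hfM j v hv
        refine (cf_bound hf hfM hv j).trans ?_
        refine le_trans (div_le_self (Real.exp_pos T).le (one_le_pow₀ (by norm_num))) ?_
        exact Real.exp_le_exp.2 hTT'
      have hε : ∀ j < J, ‖cf f j (Fin.tail w) - cf g j (Fin.tail w)‖ ≤ Real.exp (-T') := by
        intro j hj
        exact hΦ (cf f j) (cf g j) (cf_analytic hf j) (cf_analytic hg j) (hbd hf hfM j)
          (hbd hg hgM j) (congrFun h ⟨j, hj⟩) _ ht1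
      have h1 := close hf hg hfM hgM ht2 hz J hε
      rw [← hw'] at h1
      have h2 : J * Real.exp (-T') = Real.exp (-T) / 2 := by
        rw [hT', neg_add, Real.exp_add, Real.exp_neg (Real.log _), Real.exp_log (by positivity)]
        field_simp
      linarith

end Pool.Agent.SD
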