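import Mathlib
import Pool.Agent.Lib.MP_c95b3b_ag_SD.Entropy

set_option autoImplicit false

/-! Project SD (MP_c95b3b_ag), module AP: auxiliary polynomials which are small on the image of a
polydisc of smaller dimension (box principle). -/

namespace Pool.Agent.SD

open Metric MvPolynomial

namespace AuxPol

/-- exponents with entries at most `N` -/
noncomputable def mon {d N : ℕ} (m : Fin d → Fin (N + 1)) : Fin d →₀ ℕ :=
  Finsupp.equivFunOnFinite.symm fun i => (m i : ℕ)

theorem mon_apply {d N : ℕ} (m : Fin d → Fin (N + 1)) (i : Fin d) : mon m i = (m i : ℕ) := rfl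

theorem mon_injective {d N : ℕ} :
    Function.Injective (mon : (Fin d → Fin (N + 1)) → Fin d →₀ ℕ) := by
  intro m m' h
  funext i
  have := DFunLike.congr_fun h i
  rw [mon_apply, mon_apply] at this
  exact Fin.ext this

/-- the polynomial with the coefficients `e` -/
noncomputable def P {d N : ℕ} (e : (Fin d → Fin (N + 1)) → ℤ) : MvPolynomial (Fin d) ℤ :=
  ∑ m, monomial (mon m) (e m)

theorem coeff_mon {d N : ℕ} (e : (Fin d → Fin (N + 1)) → ℤ) (m : Fin d → Fin (N + 1)) :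
    coeff (mon m) (P e) = e m := by
  classical
  rw [P, coeff_sum, Finset.sum_eq_single m]
  · rw [coeff_monomial, if_pos rfl]
  · intro m' _ hne
    rw [coeff_monomial, if_neg]
    exact fun h => hne (mon_injective h)
  · intro h
    exact absurd (Finset.mem_univ m) h

theorem exists_of_coeff_ne {d N : ℕ} (e : (Fin d → Fin (N + 1)) → ℤ) (s : Fin d →₀ ℕ)
    (h : coeff s (P e) ≠ 0) : ∃ m : Fin d → Fin (N + 1), mon m = s := by
  classical
  by_contra hcon
  push Not at hcon
  apply h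
  rw [P, coeff_sum]
  refine Finset.sum_eq_zero fun m _ => ?_
  rw [coeff_monomial, if_neg (hcon m)]

theorem P_sub {d N : ℕ} (e e' : (Fin d → Fin (N + 1)) → ℤ) :
    P (fun m => e m - e' m) = P e - P e' := by
  rw [P, P, P, ← Finset.sum_sub_distrib]
  exact Finset.sum_congr rfl fun m _ => by rw [map_sub]

theorem aeval_P {d N : ℕ} (e : (Fin d → Fin (N + 1)) → ℤ) (z : Fin d → ℂ) :
    aeval z (P e) = ∑ m : Fin d → Fin (N + 1), (e m : ℂ) * ∏ i, z i ^ (m i : ℕ) := by
  rw [P, map_sum]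
  refine Finset.sum_congr rfl fun m _ => ?_
  rw [aeval_monomial, Finsupp.prod_fintype _ _ (fun i => pow_zero _)]
  rfl

theorem norm_aeval_P {d N : ℕ} (e : (Fin d → Fin (N + 1)) → ℤ) (z : Fin d → ℂ) {C0 B : ℝ}
    (hC0 : 1 ≤ C0) (hz : ∀ i, ‖z i‖ ≤ C0) (he : ∀ m, |(e m : ℝ)| ≤ B) :
    ‖aeval z (P e)‖ ≤ ((N : ℝ) + 1) ^ d * (B * C0 ^ (d * N)) := by
  rw [aeval_P]
  have h1 : ∀ m : Fin d → Fin (N + 1), ‖(e m : ℂ) * ∏ i, z i ^ (m i : ℕ)‖ ≤ B * C0 ^ (d * N) := by
    intro m
    have hB : 0 ≤ B := (abs_nonneg _).trans (he m)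
    rw [norm_mul, Complex.norm_intCast]
    refine mul_le_mul (he m) ?_ (norm_nonneg _) hB
    rw [norm_prod]
    calc ∏ i, ‖z i ^ (m i : ℕ)‖ ≤ ∏ _i : Fin d, C0 ^ N := by
          refine Finset.prod_le_prod (fun i _ => norm_nonneg _) fun i _ => ?_
          rw [norm_pow]
          calc ‖z i‖ ^ (m i : ℕ) ≤ C0 ^ (m i : ℕ) :=
                pow_le_pow_left₀ (norm_nonneg _) (hz i) _
            _ ≤ C0 ^ N := pow_le_pow_right₀ hC0 (Nat.lt_succ_iff.mp (m i).2)
      _ = C0 ^ (d * N) := by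
          rw [Finset.prod_const, Finset.card_univ, Fintype.card_fin, ← pow_mul, mul_comm]
  calc ‖∑ m : Fin d → Fin (N + 1), (e m : ℂ) * ∏ i, z i ^ (m i : ℕ)‖
      ≤ ∑ m : Fin d → Fin (N + 1), ‖(e m : ℂ) * ∏ i, z i ^ (m i : ℕ)‖ := norm_sum_le _ _
    _ ≤ ∑ _m : Fin d → Fin (N + 1), B * C0 ^ (d * N) := Finset.sum_le_sum fun m _ => h1 m
    _ = ((N : ℝ) + 1) ^ d * (B * C0 ^ (d * N)) := by
        rw [Finset.sum_const, Finset.card_univ, Fintype.card_fun, Fintype.card_fin,
          Fintype.card_fin, nsmul_eq_mul]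
        push_cast
        ring

theorem two_pow_le_exp (N : ℕ) : (2 : ℝ) ^ N ≤ Real.exp N := by
  have h : (2 : ℝ) ≤ Real.exp 1 := by
    have := Real.add_one_le_exp (1 : ℝ)
    linarith
  calc (2 : ℝ) ^ N ≤ Real.exp 1 ^ N := pow_le_pow_left₀ (by norm_num) h N
    _ = Real.exp N := by rw [← Real.exp_nat_mul, mul_one]

end AuxPol

open AuxPol in
theorem exists_aux {k d : ℕ} (hk : k < d) (ψ : (Fin k → ℂ) → Fin d → ℂ)
    (hψ : AnalyticOnNhd ℂ ψ (closedBall 0 2)) (A : ℝ) :
    ∃ N : ℕ, 1 ≤ N ∧ ∃ Q : MvPolynomial (Fin d) ℤ, Q ≠ 0 ∧ (∀ i, Q.degreeOf i ≤ N) ∧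
      (∀ m, |((Q.coeff m : ℤ) : ℝ)| ≤ Real.exp N) ∧
      ∀ w ∈ closedBall (0 : Fin k → ℂ) 1, ‖aeval (ψ w) Q‖ ≤ Real.exp (-(A * N)) := by
  classical
  -- the bound of `ψ`
  obtain ⟨C00, hC00⟩ := (isCompact_closedBall (0 : Fin k → ℂ) 2).exists_bound_of_continuousOn
    hψ.continuousOn
  set C0 : ℝ := max 1 C00 with hC0def
  have hC0 : 1 ≤ C0 := le_max_left _ _
  have hψb : ∀ w ∈ closedBall (0 : Fin k → ℂ) 2, ∀ i, ‖ψ w i‖ ≤ C0 := fun w hw i =>
    ((norm_le_pi_norm (ψ w) i).trans (hC00 w hw)).trans (le_max_right _ _)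
  have hlogC0 : 0 ≤ Real.log C0 := Real.log_nonneg hC0
  obtain ⟨C, hC1, hC⟩ := entropy k
  set C3 : ℝ := d + 1 + d * Real.log C0 with hC3
  have hd0 : (0 : ℝ) ≤ d := Nat.cast_nonneg d
  have hC3pos : 1 ≤ C3 := by
    have := mul_nonneg hd0 hlogC0
    rw [hC3]
    linarith
  set a : ℝ := |A| + C3 + 1 with ha
  have ha1 : 1 ≤ a := by
    have := abs_nonneg A
    rw [ha]
    linarith
  set C4 : ℝ := C * a ^ (k + 1) with hC4
  have hC4pos : 0 ≤ C4 := by positivity
  set N : ℕ := ⌈2 * C4⌉₊ + 1 with hN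
  have hN1 : 1 ≤ N := by rw [hN]; exact Nat.le_add_left 1 _
  have hN1' : (1 : ℝ) ≤ N := by exact_mod_cast hN1
  have hNC4 : 2 * C4 < N := by
    have := Nat.le_ceil (2 * C4)
    rw [hN]
    push_cast
    linarith
  set T : ℝ := a * N with hT
  have hT1 : 1 ≤ T := by
    rw [hT]
    nlinarith
  obtain ⟨ι, _, Φ, hcard, hΦ⟩ := hC T hT1
  -- the number of classes is smaller than the number of polynomials
  have hlt : Fintype.card ι < Fintype.card ((Fin d → Fin (N + 1)) → Fin (2 ^ N)) := by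
    have h1 : (Fintype.card ((Fin d → Fin (N + 1)) → Fin (2 ^ N)) : ℝ)
        = Real.exp (Real.log 2 * (N * ((N : ℝ) + 1) ^ d)) := by
      rw [Fintype.card_fun, Fintype.card_fun, Fintype.card_fin, Fintype.card_fin,
        Fintype.card_fin]
      push_cast
      rw [Real.exp_mul, Real.exp_log (by norm_num : (0 : ℝ) < 2)]
      rw [← pow_mul, ← Real.rpow_natCast]
      push_cast
      ring_nf
    have h2 : C * T ^ (k + 1) < Real.log 2 * (N * ((N : ℝ) + 1) ^ d) := by
      have hlog2 : (1 : ℝ) / 2 < Real.log 2 := by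
        have := Real.log_two_gt_d9
        linarith
      have hNd : (0 : ℝ) < (N : ℝ) ^ d := by positivity
      have e1 : C * T ^ (k + 1) = C4 * (N : ℝ) ^ (k + 1) := by
        rw [hT, hC4, mul_pow]
        ring
      have e2 : (N : ℝ) ^ (k + 1) ≤ (N : ℝ) ^ d := pow_le_pow_right₀ hN1' hk
      have e3 : (N : ℝ) ^ d ≤ ((N : ℝ) + 1) ^ d :=
        pow_le_pow_left₀ (by positivity) (by linarith) d
      calc C * T ^ (k + 1) = C4 * (N : ℝ) ^ (k + 1) := e1
        _ ≤ C4 * (N : ℝ) ^ d := mul_le_mul_of_nonneg_left e2 hC4pos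
        _ < (1 / 2 * N) * (N : ℝ) ^ d := by
            apply mul_lt_mul_of_pos_right _ hNd
            linarith
        _ ≤ (Real.log 2 * N) * (N : ℝ) ^ d := by
            apply mul_le_mul_of_nonneg_right _ hNd.le
            exact mul_le_mul_of_nonneg_right hlog2.le (by positivity)
        _ ≤ (Real.log 2 * N) * ((N : ℝ) + 1) ^ d := by
            apply mul_le_mul_of_nonneg_left e3
            have : 0 < Real.log 2 := by linarith
            positivity
        _ = Real.log 2 * (N * ((N : ℝ) + 1) ^ d) := by ring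
    have h3 : (Fintype.card ι : ℝ)
        < (Fintype.card ((Fin d → Fin (N + 1)) → Fin (2 ^ N)) : ℝ) := by
      rw [h1]
      exact hcard.trans_lt (Real.exp_lt_exp.mpr h2)
    exact_mod_cast h3
  let co : ((Fin d → Fin (N + 1)) → Fin (2 ^ N)) → (Fin d → Fin (N + 1)) → ℤ :=
    fun c m => ((c m : ℕ) : ℤ)
  obtain ⟨c, c', hne, heq⟩ := Fintype.exists_ne_map_eq_of_card_lt
    (fun c : (Fin d → Fin (N + 1)) → Fin (2 ^ N) => Φ (fun w => aeval (ψ w) (P (co c)))) hlt
  have hco : ∀ (c : (Fin d → Fin (N + 1)) → Fin (2 ^ N)) m, |((co c m : ℤ) : ℝ)| ≤ 2 ^ N := by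
    intro c m
    have h1 : ((c m : ℕ) : ℝ) < 2 ^ N := by exact_mod_cast (c m).2
    have h2 : ((co c m : ℤ) : ℝ) = ((c m : ℕ) : ℝ) := by
      simp only [co, Int.cast_natCast]
    rw [h2, abs_of_nonneg (Nat.cast_nonneg _)]
    exact h1.le
  -- the values are bounded
  have hbd : ∀ (c : (Fin d → Fin (N + 1)) → Fin (2 ^ N)), ∀ w ∈ closedBall (0 : Fin k → ℂ) 2,
      ‖aeval (ψ w) (P (co c))‖ ≤ Real.exp T := by
    intro c w hw
    refine (norm_aeval_P (co c) (ψ w) hC0 (hψb w hw) (hco c)).trans ?_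
    have hN' : ((N : ℝ) + 1) ^ d ≤ Real.exp (d * N) := by
      rw [mul_comm, Real.exp_mul, Real.rpow_natCast]
      exact pow_le_pow_left₀ (by positivity) (Real.add_one_le_exp _) d
    have hC0' : C0 ^ (d * N) = Real.exp (d * Real.log C0 * N) := by
      have e : (d : ℝ) * Real.log C0 * N = Real.log C0 * ((d * N : ℕ) : ℝ) := by
        push_cast
        ring
      rw [e, Real.exp_mul, Real.exp_log (by linarith), Real.rpow_natCast]
    calc ((N : ℝ) + 1) ^ d * (2 ^ N * C0 ^ (d * N))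
        ≤ Real.exp (d * N) * (Real.exp N * Real.exp (d * Real.log C0 * N)) := by
          rw [hC0']
          refine mul_le_mul hN' ?_ (by positivity) (Real.exp_pos _).le
          exact mul_le_mul_of_nonneg_right (two_pow_le_exp N) (Real.exp_pos _).le
      _ = Real.exp (C3 * N) := by
          rw [← Real.exp_add, ← Real.exp_add, hC3]
          congr 1
          ring
      _ ≤ Real.exp T := by
          apply Real.exp_le_exp.mpr
          rw [hT]
          apply mul_le_mul_of_nonneg_right _ (by positivity)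
          have := abs_nonneg A
          rw [ha]
          linarith
  have han : ∀ (c : (Fin d → Fin (N + 1)) → Fin (2 ^ N)),
      AnalyticOnNhd ℂ (fun w => aeval (ψ w) (P (co c))) (closedBall 0 2) := by
    intro c
    refine AnalyticOnNhd.aeval_mvPolynomial (fun i => ?_) (P (co c))
    exact fun w hw => (analyticAt_pi_iff.mp (hψ w hw)) i
  refine ⟨N, hN1, P (fun m => co c m - co c' m), ?_, ?_, ?_, ?_⟩
  · intro h0
    apply hne
    funext m
    have h1 := coeff_mon (fun m => co c m - co c' m) m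
    rw [h0, coeff_zero] at h1
    have h2 : ((c m : ℕ) : ℤ) = ((c' m : ℕ) : ℤ) := by
      have : co c m - co c' m = 0 := h1.symm
      exact sub_eq_zero.mp this
    exact Fin.ext (by exact_mod_cast h2)
  · intro i
    rw [degreeOf_le_iff]
    intro s hs
    obtain ⟨m, rfl⟩ := exists_of_coeff_ne _ s (mem_support_iff.mp hs)
    rw [mon_apply]
    exact Nat.lt_succ_iff.mp (m i).2
  · intro s
    by_cases hs : coeff s (P fun m => co c m - co c' m) = 0
    · rw [hs]
      simp only [Int.cast_zero, abs_zero]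
      exact (Real.exp_pos _).le
    · obtain ⟨m, rfl⟩ := exists_of_coeff_ne _ s hs
      rw [coeff_mon]
      refine le_trans ?_ (two_pow_le_exp N)
      have h1 : ((c m : ℕ) : ℝ) < 2 ^ N := by exact_mod_cast (c m).2
      have h2 : ((c' m : ℕ) : ℝ) < 2 ^ N := by exact_mod_cast (c' m).2
      have h3 : (0 : ℝ) ≤ ((c m : ℕ) : ℝ) := Nat.cast_nonneg _
      have h4 : (0 : ℝ) ≤ ((c' m : ℕ) : ℝ) := Nat.cast_nonneg _
      simp only [co, Int.cast_sub, Int.cast_natCast]
      rw [abs_le]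
      constructor <;> linarith
  · intro w hw
    rw [P_sub, map_sub]
    refine (hΦ _ _ (han c) (han c') (hbd c) (hbd c') heq w hw).trans ?_
    apply Real.exp_le_exp.mpr
    rw [hT]
    apply neg_le_neg
    apply mul_le_mul_of_nonneg_right _ (by positivity)
    have := le_abs_self A
    rw [ha]
    linarith

end Pool.Agent.SD
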