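import Mathlib
import Pool.Agent.Lib.MP_c95b3b_ag_SD.Map

set_option autoImplicit false

/-! Project SD (MP_c95b3b_ag), module SM: growth of the heights, limits of relation vectors. -/

namespace Pool.Agent.SD

open MvPolynomial Filter Topology Module Pool.Agent.L3

section
variable {n : ℕ} (𝓤 : Ultrafilter ℕ) (S : Sq n)

/-- the real vectors `b` with `ht b = o(s)` -/
noncomputable def V0 (s : ℕ → ℝ) : Submodule ℝ (Fin n → ℝ) where
  carrier := {b | Tendsto (fun ν => S.ht b ν / s ν) 𝓤 (𝓝 0)}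
  add_mem' := by
    intro b c hb hc
    have hb' : Tendsto (fun ν => S.ht b ν / s ν) 𝓤 (𝓝 0) := hb
    have hc' : Tendsto (fun ν => S.ht c ν / s ν) 𝓤 (𝓝 0) := hc
    have h1 : Tendsto (fun ν => |S.ht b ν / s ν| + |S.ht c ν / s ν|) 𝓤 (𝓝 0) := by
      have h2 := hb'.abs.add hc'.abs
      simpa using h2
    refine squeeze_zero_norm (fun ν => ?_) h1
    have h3 : S.ht (b + c) ν ≤ S.ht b ν + S.ht c ν := ht_add_le S b c ν
    have h4 := ht_nonneg S b ν
    have h5 := ht_nonneg S c ν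
    have h6 := ht_nonneg S (b + c) ν
    rw [Real.norm_eq_abs, abs_div, abs_div, abs_div, abs_of_nonneg h4, abs_of_nonneg h5,
      abs_of_nonneg h6, ← add_div]
    exact div_le_div_of_nonneg_right h3 (abs_nonneg _)
  zero_mem' := by
    have h : (fun ν => S.ht 0 ν / s ν) = fun _ => (0 : ℝ) := by
      funext ν
      rw [ht_zero, zero_div]
    show Tendsto (fun ν => S.ht 0 ν / s ν) 𝓤 (𝓝 0)
    rw [h]
    exact tendsto_const_nhds
  smul_mem' := by
    intro c b hb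
    have hb' : Tendsto (fun ν => S.ht b ν / s ν) 𝓤 (𝓝 0) := hb
    have h : (fun ν => S.ht (c • b) ν / s ν) = fun ν => |c| * (S.ht b ν / s ν) := by
      funext ν
      rw [ht_smul, mul_div_assoc]
    show Tendsto (fun ν => S.ht (c • b) ν / s ν) 𝓤 (𝓝 0)
    rw [h]
    simpa using hb'.const_mul |c|

/-- the characters with height `o(s)` -/
noncomputable def L0 (s : ℕ → ℝ) : Submodule ℤ (Fin n → ℤ) :=
  AddSubgroup.toIntSubmodule
    { carrier := {a | rv a ∈ V0 𝓤 S s}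
      add_mem' := by
        intro a b ha hb
        show rv (a + b) ∈ V0 𝓤 S s
        rw [rv_add]
        exact (V0 𝓤 S s).add_mem ha hb
      zero_mem' := by
        show rv 0 ∈ V0 𝓤 S s
        rw [rv_zero]
        exact (V0 𝓤 S s).zero_mem
      neg_mem' := by
        intro a ha
        show rv (-a) ∈ V0 𝓤 S s
        rw [rv_neg]
        exact (V0 𝓤 S s).neg_mem ha }

theorem mem_V0 {s : ℕ → ℝ} {b : Fin n → ℝ} :
    b ∈ V0 𝓤 S s ↔ Tendsto (fun ν => S.ht b ν / s ν) 𝓤 (𝓝 0) := Iff.rfl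

theorem mem_L0 {s : ℕ → ℝ} {a : Fin n → ℤ} : a ∈ L0 𝓤 S s ↔ rv a ∈ V0 𝓤 S s := Iff.rfl

/-- a character of height `O(s)` but not `o(s)` -/
theorem exists_lower {s : ℕ → ℝ} (hs : ∀ᶠ ν in (𝓤 : Filter ℕ), 0 < s ν) {b : Fin n → ℝ}
    (hb : b ∉ V0 𝓤 S s) : ∃ c : ℝ, 0 < c ∧ ∀ᶠ ν in (𝓤 : Filter ℕ), c * s ν ≤ S.ht b ν := by
  by_contra hcon
  apply hb
  show Tendsto (fun ν => S.ht b ν / s ν) 𝓤 (𝓝 0)
  rw [Metric.tendsto_nhds]
  intro ε hε
  have h1 : ¬ ∀ᶠ ν in (𝓤 : Filter ℕ), ε * s ν ≤ S.ht b ν := fun h => hcon ⟨ε, hε, h⟩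
  have h2 : ∀ᶠ ν in (𝓤 : Filter ℕ), ¬ (ε * s ν ≤ S.ht b ν) := Ultrafilter.eventually_not.2 h1
  filter_upwards [h2, hs] with ν h3 h4
  have h5 := ht_nonneg S b ν
  rw [Real.dist_eq, sub_zero, abs_of_nonneg (div_nonneg h5 h4.le), div_lt_iff₀ h4]
  exact not_le.1 h3

/-- the relation vectors (of the points of index `ν`) -/
def Rel (ν : ℕ) : Submodule ℝ (Fin n → ℝ) where
  carrier := {b | ∀ w : (S.W ν).Pl, b ⬝ᵥ S.lam ν w = 0}
  add_mem' := by
    intro a b ha hb w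
    rw [add_dotProduct, ha w, hb w, add_zero]
  zero_mem' := by
    intro w
    rw [zero_dotProduct]
  smul_mem' := by
    intro c b hb w
    rw [smul_dotProduct, hb w, smul_zero]

omit 𝓤 S in
private theorem frame_aux (r : ℕ) (Z : Submodule ℝ (Fin n → ℝ)) (h : r ≤ finrank ℝ Z) :
    ∃ u : Fin r → Fin n → ℝ, (∀ i, u i ∈ Z) ∧
      ∀ i j, u i ⬝ᵥ u j = if i = j then 1 else 0 := by
  let e : EuclideanSpace ℝ (Fin n) ≃ₗ[ℝ] (Fin n → ℝ) := WithLp.linearEquiv 2 ℝ (Fin n → ℝ)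
  let Z' : Submodule ℝ (EuclideanSpace ℝ (Fin n)) := Z.map e.symm.toLinearMap
  have hf : finrank ℝ Z' = finrank ℝ Z := LinearEquiv.finrank_map_eq e.symm Z
  have hr : r ≤ finrank ℝ Z' := by rw [hf]; exact h
  let b := stdOrthonormalBasis ℝ Z'
  refine ⟨fun i => e (b (Fin.castLE hr i) : EuclideanSpace ℝ (Fin n)), ?_, ?_⟩
  · intro i
    obtain ⟨z, hz, hz'⟩ := Submodule.mem_map.1 (b (Fin.castLE hr i)).2
    have h1 : e (b (Fin.castLE hr i) : EuclideanSpace ℝ (Fin n)) = z := by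
      rw [← hz']
      exact e.apply_symm_apply z
    show e (b (Fin.castLE hr i) : EuclideanSpace ℝ (Fin n)) ∈ Z
    rw [h1]
    exact hz
  · intro i j
    have h1 := orthonormal_iff_ite.1 b.orthonormal (Fin.castLE hr i) (Fin.castLE hr j)
    have h2 : inner ℝ (b (Fin.castLE hr i)) (b (Fin.castLE hr j)) =
        e (b (Fin.castLE hr i) : EuclideanSpace ℝ (Fin n)) ⬝ᵥ
          e (b (Fin.castLE hr j) : EuclideanSpace ℝ (Fin n)) := by
      rw [Submodule.coe_inner, PiLp.inner_apply, dotProduct]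
      refine Finset.sum_congr rfl fun l _ => ?_
      rw [real_inner_eq_re_inner, mul_comm]
      simp [e, mul_comm]
    rw [← h2, h1]
    by_cases hij : i = j
    · subst hij
      simp
    · have h3 : Fin.castLE hr i ≠ Fin.castLE hr j := fun h4 => hij (Fin.castLE_injective hr h4)
      rw [if_neg hij, if_neg h3]

/-- limits of the vectors in subspaces of dimension at least `r` -/
theorem lim_frame (r : ℕ) (Z : ℕ → Submodule ℝ (Fin n → ℝ))
    (hZ : ∀ᶠ ν in (𝓤 : Filter ℕ), r ≤ finrank ℝ (Z ν)) (T : Submodule ℝ (Fin n → ℝ))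
    (hT : ∀ ν, Z ν ≤ T) : ∃ u : Fin r → Fin n → ℝ, LinearIndependent ℝ u ∧ (∀ i, u i ∈ T) ∧
      ∃ u' : ℕ → Fin r → Fin n → ℝ, (∀ᶠ ν in (𝓤 : Filter ℕ), ∀ i, u' ν i ∈ Z ν) ∧
        (∀ i l, Tendsto (fun ν => u' ν i l) 𝓤 (𝓝 (u i l))) ∧ ∀ ν i l, |u' ν i l| ≤ 1 := by
  classical
  have hex : ∀ ν, ∃ v : Fin r → Fin n → ℝ, (r ≤ finrank ℝ (Z ν) → (∀ i, v i ∈ Z ν) ∧
      ∀ i j, v i ⬝ᵥ v j = if i = j then 1 else 0) ∧ ∀ i l, |v i l| ≤ 1 := by
    intro ν
    by_cases h : r ≤ finrank ℝ (Z ν)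
    · obtain ⟨v, hv, hv'⟩ := frame_aux r (Z ν) h
      refine ⟨v, fun _ => ⟨hv, hv'⟩, fun i l => ?_⟩
      have h1 : v i ⬝ᵥ v i = 1 := by rw [hv' i i, if_pos rfl]
      have h2 : v i l * v i l ≤ v i ⬝ᵥ v i :=
        Finset.single_le_sum (f := fun l => v i l * v i l) (fun l _ => mul_self_nonneg _)
          (Finset.mem_univ l)
      rw [h1] at h2
      rw [← sq_le_one_iff_abs_le_one, sq]
      exact h2
    · exact ⟨0, fun h' => absurd h' h, fun i l => by simp⟩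
  choose u' hu' hbd using hex
  have hlim : ∀ (i : Fin r) (l : Fin n), ∃ y : ℝ, Tendsto (fun ν => u' ν i l) 𝓤 (𝓝 y) := by
    intro i l
    have hc : IsCompact (Set.Icc (-1 : ℝ) 1) := isCompact_Icc
    have hmem : Set.Icc (-1 : ℝ) 1 ∈ 𝓤.map (fun ν => u' ν i l) := by
      rw [Ultrafilter.mem_map]
      refine Filter.univ_mem' fun ν => ?_
      exact abs_le.1 (hbd ν i l)
    obtain ⟨y, _, hy⟩ := hc.ultrafilter_le_nhds' (𝓤.map (fun ν => u' ν i l)) hmem
    exact ⟨y, hy⟩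
  choose u hu using hlim
  have hgood : ∀ᶠ ν in (𝓤 : Filter ℕ), (∀ i, u' ν i ∈ Z ν) ∧
      ∀ i j, u' ν i ⬝ᵥ u' ν j = if i = j then 1 else 0 := hZ.mono fun ν h => hu' ν h
  have hort : ∀ i j, u i ⬝ᵥ u j = if i = j then 1 else 0 := by
    intro i j
    have h1 : Tendsto (fun ν => u' ν i ⬝ᵥ u' ν j) 𝓤 (𝓝 (u i ⬝ᵥ u j)) := by
      show Tendsto (fun ν => ∑ l, u' ν i l * u' ν j l) 𝓤 (𝓝 (∑ l, u i l * u j l))
      exact tendsto_finsetSum _ fun l _ => (hu i l).mul (hu j l)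
    have h2 : Tendsto (fun ν => u' ν i ⬝ᵥ u' ν j) 𝓤 (𝓝 (if i = j then (1 : ℝ) else 0)) := by
      refine tendsto_const_nhds.congr' ?_
      filter_upwards [hgood] with ν h
      exact (h.2 i j).symm
    exact tendsto_nhds_unique h1 h2
  refine ⟨u, ?_, ?_, u', hgood.mono fun ν h => h.1, hu, hbd⟩
  · rw [Fintype.linearIndependent_iff]
    intro c hc j
    have h1 : (∑ i, c i • u i) ⬝ᵥ u j = c j := by
      rw [sum_dotProduct]
      have h2 : ∀ i, (c i • u i) ⬝ᵥ u j = if i = j then c i else 0 := by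
        intro i
        rw [smul_dotProduct, hort i j, smul_eq_mul]
        by_cases hij : i = j
        · simp [hij]
        · simp [hij]
      simp [h2]
    rw [hc, zero_dotProduct] at h1
    exact h1.symm
  · intro i
    have hcl : IsClosed (T : Set (Fin n → ℝ)) := Submodule.closed_of_finiteDimensional T
    have h1 : Tendsto (fun ν => u' ν i) 𝓤 (𝓝 (u i)) := tendsto_pi_nhds.2 fun l => hu i l
    refine hcl.mem_of_tendsto h1 ?_
    filter_upwards [hgood] with ν h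
    exact hT ν (h.1 i)

/-- limits of relation vectors have height `o(s)` -/
theorem lim_rel {s : ℕ → ℝ} (hs : ∀ᶠ ν in (𝓤 : Filter ℕ), 0 < s ν) (Cs : ℝ)
    (hC : ∀ i, ∀ᶠ ν in (𝓤 : Filter ℕ), S.ht (rv (Pi.single i 1)) ν ≤ Cs * s ν) (r : ℕ)
    (hr : ∀ᶠ ν in (𝓤 : Filter ℕ), r ≤ finrank ℝ (Rel S ν)) :
    r ≤ finrank ℝ (V0 𝓤 S s) := by
  obtain ⟨u, hli, -, u', hmem, hconv, -⟩ := lim_frame 𝓤 r (Rel S) hr ⊤ fun _ => le_top
  have hV : ∀ i, u i ∈ V0 𝓤 S s := by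
    intro i
    show Tendsto (fun ν => S.ht (u i) ν / s ν) 𝓤 (𝓝 0)
    have hC' : ∀ᶠ ν in (𝓤 : Filter ℕ), ∀ l, S.ht (rv (Pi.single l 1)) ν ≤ Cs * s ν :=
      Filter.eventually_all.2 hC
    have hlim : Tendsto (fun ν => ∑ l, |u i l - u' ν i l| * Cs) 𝓤 (𝓝 0) := by
      have h1 : Tendsto (fun ν => ∑ l, |u i l - u' ν i l| * Cs) 𝓤
          (𝓝 (∑ l : Fin n, |u i l - u i l| * Cs)) := by
        refine tendsto_finsetSum _ fun l _ => ?_
        exact ((tendsto_const_nhds.sub (hconv i l)).abs).mul_const Cs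
      simpa using h1
    refine squeeze_zero' ?_ ?_ hlim
    · filter_upwards [hs] with ν h
      exact div_nonneg (ht_nonneg S (u i) ν) h.le
    · filter_upwards [hs, hmem, hC'] with ν h1 h2 h3
      have h4 : S.ht (u i) ν = S.ht (u i - u' ν i) ν := by
        show (S.W ν).avg (fun w => |u i ⬝ᵥ S.lam ν w|) =
          (S.W ν).avg (fun w => |(u i - u' ν i) ⬝ᵥ S.lam ν w|)
        congr 1
        funext w
        have h5 : u' ν i ⬝ᵥ S.lam ν w = 0 := h2 i w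
        rw [sub_dotProduct, h5, sub_zero]
      have h6 : S.ht (u i - u' ν i) ν ≤
          ∑ l, |(u i - u' ν i) l| * S.ht (rv (Pi.single l 1)) ν := ht_le S _ ν
      have h7 : ∑ l, |(u i - u' ν i) l| * S.ht (rv (Pi.single l 1)) ν ≤
          ∑ l, |u i l - u' ν i l| * (Cs * s ν) := by
        refine Finset.sum_le_sum fun l _ => ?_
        rw [Pi.sub_apply]
        exact mul_le_mul_of_nonneg_left (h3 l) (abs_nonneg _)
      rw [div_le_iff₀ h1, Finset.sum_mul, h4]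
      refine (h6.trans h7).trans (le_of_eq ?_)
      exact Finset.sum_congr rfl fun l _ => by ring
  have hli' : LinearIndependent ℝ (fun i => (⟨u i, hV i⟩ : V0 𝓤 S s)) :=
    LinearIndependent.of_comp (V0 𝓤 S s).subtype hli
  have h := hli'.fintype_card_le_finrank
  simpa using h

end

end Pool.Agent.SD
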