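import Mathlib
import Pool.Agent.Lib.MP_c95b3b_ag_SD.Sem

set_option autoImplicit false

/-! Project SD (MP_c95b3b_ag): codimensions of images, bounded characters, the condition on the
codimensions. -/

namespace Pool.Agent.SD

open MvPolynomial Filter Topology Module Pool.Agent.L3

/-- the codimension of the image of the variety under the characters in `Λ` -/
noncomputable def cd {L : Type} [Field L] [Algebra ℂ L] {n : ℕ} (x : Fin n → L)
    (Λ : Submodule ℤ (Fin n → ℤ)) : ℕ := finrank ℤ Λ - rkZ x Λ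

/-- the condition on the codimensions of the full images: if `Λa < Λb` are full,
`codim Λa ≤ c - 2` and `codim Λb ≥ c - 1` then `codim Λb - codim Λa ≥ c - 1`, `c` the codimension
of the variety -/
def Qc {L : Type} [Field L] [Algebra ℂ L] {n : ℕ} (x : Fin n → L) : Prop :=
  ∀ Λa Λb : Submodule ℤ (Fin n → ℤ), Full x Λa → Full x Λb → Λa < Λb →
    cd x Λa + 2 ≤ cd x ⊤ → cd x ⊤ ≤ cd x Λb + 1 → cd x ⊤ + cd x Λa ≤ cd x Λb + 1

/-- the characters of height `O(s)` -/
noncomputable def LO {n : ℕ} (𝓤 : Ultrafilter ℕ) (S : Sq n) (s : ℕ → ℝ) :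
    Submodule ℤ (Fin n → ℤ) :=
  AddSubgroup.toIntSubmodule
    { carrier := {a | ∃ C : ℝ, ∀ᶠ ν in (𝓤 : Filter ℕ), S.ht (rv a) ν ≤ C * s ν}
      add_mem' := by
        rintro a b ⟨C, hC⟩ ⟨D, hD⟩
        refine ⟨C + D, ?_⟩
        filter_upwards [hC, hD] with ν h1 h2
        rw [rv_add, add_mul]
        exact (ht_add_le S _ _ ν).trans (add_le_add h1 h2)
      zero_mem' := by
        refine ⟨0, Eventually.of_forall fun ν => ?_⟩
        rw [rv_zero, ht_zero, zero_mul]
      neg_mem' := by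
        rintro a ⟨C, hC⟩
        refine ⟨C, ?_⟩
        filter_upwards [hC] with ν h1
        rw [rv_neg, ht_neg]
        exact h1 }

theorem mem_LO {n : ℕ} {𝓤 : Ultrafilter ℕ} {S : Sq n} {s : ℕ → ℝ} {a : Fin n → ℤ} :
    a ∈ LO 𝓤 S s ↔ ∃ C : ℝ, ∀ᶠ ν in (𝓤 : Filter ℕ), S.ht (rv a) ν ≤ C * s ν := Iff.rfl

/-- the sequence consists of points whose coordinates satisfy at least `dm x + 1` independent
multiplicative relations -/
def Spc {L : Type} [Field L] [Algebra ℂ L] {n : ℕ} (𝓤 : Ultrafilter ℕ) (S : Sq n)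
    (x : Fin n → L) : Prop :=
  ∀ᶠ ν in (𝓤 : Filter ℕ), dm x + 1 ≤ finrank ℝ (Rel S ν)

end Pool.Agent.SD
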