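import Mathlib
import Pool.Agent.Lib.MP_c95b3b_ag_SD.Defs2
import Pool.Agent.Lib.MP_c95b3b_ag_R.Defs

set_option autoImplicit false

/-! Project SD (MP_c95b3b_ag): definitions for the final statements (in terms of the points of a
complex variety). -/

namespace Pool.Agent.SD

open MvPolynomial Module Pool.Agent.CITR

section
variable {n : ℕ}

/-- the functions `x^(a j)` are algebraically independent on the variety `Y` of `P` -/
def Ind (P : Ideal (MvPolynomial (Fin n) ℂ)) {k : ℕ} (a : Fin k → Fin n → ℤ) : Prop :=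
  ∀ F : MvPolynomial (Fin k) ℂ,
    (∀ x, OnTorus n P x → eval (fun j => ∏ i, x i ^ a j i) F = 0) → F = 0

/-- the dimension of the image of `Y` under the characters in `Λ` -/
noncomputable def dimIm (P : Ideal (MvPolynomial (Fin n) ℂ)) (Λ : Submodule ℤ (Fin n → ℤ)) : ℕ :=
  sSup {k | ∃ a : Fin k → Fin n → ℤ, (∀ j, a j ∈ Λ) ∧ Ind P a}

/-- the codimension of the image of `Y` under the characters in `Λ` -/
noncomputable def codIm (P : Ideal (MvPolynomial (Fin n) ℂ)) (Λ : Submodule ℤ (Fin n → ℤ)) : ℕ :=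
  finrank ℤ Λ - dimIm P Λ

/-- `Λ` contains all characters which are algebraic over the characters in `Λ` -/
def FullIm (P : Ideal (MvPolynomial (Fin n) ℂ)) (Λ : Submodule ℤ (Fin n → ℤ)) : Prop :=
  ∀ a : Fin n → ℤ, dimIm P (Λ ⊔ Submodule.span ℤ {a}) = dimIm P Λ → a ∈ Λ

/-- the point `z` of the torus lies in the Zariski closure of the image of `Y` under `x^β` -/
def OnImage (P : Ideal (MvPolynomial (Fin n) ℂ)) {m : ℕ} (β : Fin m → Fin n → ℤ)
    (z : Fin m → ℂ) : Prop :=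
  (∀ l, z l ≠ 0) ∧ ∀ F : MvPolynomial (Fin m) ℂ,
    (∀ x, OnTorus n P x → eval (fun l => ∏ i, x i ^ β l i) F = 0) → eval z F = 0

/-- The image of `Y` under `x^β` is of circle type: it has a chart `ψ`, defined on the unit ball
of `ℂ^d`, such that `d + 1` independent real multiplicative conditions hold at all real points of
the chart. -/
def CircleType (P : Ideal (MvPolynomial (Fin n) ℂ)) {m : ℕ} (β : Fin m → Fin n → ℤ)
    (d : ℕ) : Prop :=
  ∃ b : Fin (d + 1) → Fin m → ℝ, LinearIndependent ℝ b ∧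
    ∃ ψ : (Fin d → ℂ) → Fin m → ℂ, AnalyticOnNhd ℂ ψ (Metric.ball 0 1) ∧
      (∀ w ∈ Metric.ball (0 : Fin d → ℂ) 1, OnImage P β (ψ w)) ∧
      Function.Injective (fderiv ℂ ψ 0) ∧
      ∀ t : Fin d → ℝ, (∀ j, |t j| < 1) → ∀ i, ∏ l, ‖ψ (fun j => (t j : ℂ)) l‖ ^ b i l = 1

/-- no image of `Y` of positive dimension under a surjective homomorphism of tori is of circle
type -/
def NoCircle (P : Ideal (MvPolynomial (Fin n) ℂ)) : Prop :=
  ∀ (m d : ℕ) (β : Fin m → Fin n → ℤ), LinearIndependent ℤ β →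
    dimIm P (Submodule.span ℤ (Set.range β)) = d → 0 < d → ¬ CircleType P β d

/-- the condition on the codimensions of the full images -/
def SmallCod (P : Ideal (MvPolynomial (Fin n) ℂ)) : Prop :=
  (∀ Λ, FullIm P Λ → codIm P Λ ≤ 1 ∨ codIm P ⊤ ≤ codIm P Λ + 1) ∧
    ∀ Λ Λ', FullIm P Λ → FullIm P Λ' → Λ < Λ' → codIm P Λ = 1 → codIm P Λ' + 1 = codIm P ⊤ →
      codIm P ⊤ ≤ 2

/-- `Y` lies in a translate of a proper algebraic subgroup -/
def InCoset (P : Ideal (MvPolynomial (Fin n) ℂ)) : Prop :=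
  ∃ a : Fin n → ℤ, a ≠ 0 ∧ ∃ c : ℂ, ∀ x, OnTorus n P x → ∏ i, x i ^ a i = c

end

/-- `x` is a generic point of the variety of `Q` -/
def IsGen {L : Type} [Field L] [Algebra ℂ L] {m : ℕ} (x : Fin m → L)
    (Q : Ideal (MvPolynomial (Fin m) ℂ)) : Prop :=
  ∀ F : MvPolynomial (Fin m) ℂ, aeval x F = 0 ↔ F ∈ Q

/-- `Q` is generated by polynomials with algebraic coefficients -/
def AlgId {m : ℕ} (Q : Ideal (MvPolynomial (Fin m) ℂ)) : Prop :=
  Q = Ideal.span {g | g ∈ Q ∧ ∀ s, IsAlgebraic ℚ (coeff s g)}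

end Pool.Agent.SD
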