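import Mathlib
import Pool.Agent.Lib.MP_c95b3b_ag_SD.Map

set_option autoImplicit false

/-! Project SD (MP_c95b3b_ag), module ER: the relation between the spaces
`x_{i0}^(l m) * span (x^e f^j)`. -/

namespace Pool.Agent.SD

open MvPolynomial Module

/-- the field generated by `g` -/
noncomputable abbrev gf {L : Type} [Field L] [CharZero L] {d : ℕ} (g : Fin d → L) :
    IntermediateField ℚ L := IntermediateField.adjoin ℚ (Set.range g)

namespace ExRel

/-- a family of more than `finrank U` vectors of `U` is dependent -/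
theorem exists_dep {K V ι : Type} [Field K] [AddCommGroup V] [Module K V]
    (U : Submodule K V) [FiniteDimensional K U] (s : Finset ι) (v : ι → V)
    (hv : ∀ i ∈ s, v i ∈ U) (hc : finrank K U < s.card) :
    ∃ c : ι → K, ∑ i ∈ s, c i • v i = 0 ∧ ∃ i ∈ s, c i ≠ 0 := by
  classical
  by_contra hcon
  push Not at hcon
  have hli : LinearIndependent K (fun i : s => (⟨v i, hv i i.2⟩ : U)) := by
    rw [Fintype.linearIndependent_iff]
    intro f hf i
    have h1 : ∑ i : s, f i • v i = 0 := by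
      have := congrArg (Submodule.subtype U) hf
      simpa using this
    let c : ι → K := fun i => if h : i ∈ s then f ⟨i, h⟩ else 0
    have h2 : ∑ i ∈ s, c i • v i = 0 := by
      rw [← Finset.sum_coe_sort, ← h1]
      refine Finset.sum_congr rfl fun i _ => ?_
      simp [c]
    have := hcon c h2 i i.2
    simpa [c] using this
  have := hli.fintype_card_le_finrank
  simp only [Fintype.card_coe] at this
  omega

section
variable {L : Type} [Field L] [CharZero L] {d : ℕ} (g : Fin d → L)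

/-- elements of the field generated by `g` are quotients of integral polynomials in `g` -/
theorem exists_frac (z : L) (hz : z ∈ gf g) :
    ∃ D G : MvPolynomial (Fin d) ℤ, aeval g D ≠ 0 ∧ z * aeval g D = aeval g G := by
  induction hz using IntermediateField.adjoin_induction with
  | mem z hz =>
    obtain ⟨j, rfl⟩ := hz
    exact ⟨1, X j, by simp, by simp⟩
  | algebraMap r =>
    refine ⟨C (r.den : ℤ), C r.num, ?_, ?_⟩
    · simp
    · have h2 : (r : L) * (r.den : L) = (r.num : L) := by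
        have h3 : (r : ℚ) * (r.den : ℚ) = (r.num : ℚ) := Rat.mul_den_eq_num r
        exact_mod_cast congrArg (fun t : ℚ => (t : L)) h3
      simpa using h2
  | add z w _ _ hz hw =>
    obtain ⟨D1, G1, h1, h1'⟩ := hz
    obtain ⟨D2, G2, h2, h2'⟩ := hw
    refine ⟨D1 * D2, G1 * D2 + G2 * D1, ?_, ?_⟩
    · rw [map_mul]
      exact mul_ne_zero h1 h2
    · rw [map_mul, map_add, map_mul, map_mul, ← h1', ← h2']
      ring
  | inv z _ hz =>
    obtain ⟨D1, G1, h1, h1'⟩ := hz
    by_cases h0 : z = 0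
    · subst h0
      exact ⟨1, 0, by simp, by simp⟩
    · refine ⟨G1, D1, ?_, ?_⟩
      · rw [← h1']
        exact mul_ne_zero h0 h1
      · rw [← h1']
        field_simp
  | mul z w _ _ hz hw =>
    obtain ⟨D1, G1, h1, h1'⟩ := hz
    obtain ⟨D2, G2, h2, h2'⟩ := hw
    refine ⟨D1 * D2, G1 * G2, ?_, ?_⟩
    · rw [map_mul]
      exact mul_ne_zero h1 h2
    · rw [map_mul, map_mul, ← h1', ← h2']
      ring

/-- common denominators -/
theorem exists_common {ι : Type} (s : Finset ι) (c : ι → gf g) :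
    ∃ D : MvPolynomial (Fin d) ℤ, aeval g D ≠ 0 ∧ ∃ G : ι → MvPolynomial (Fin d) ℤ,
      ∀ i ∈ s, (c i : L) * aeval g D = aeval g (G i) := by
  classical
  choose D G hD hG using fun i => exists_frac g (c i : L) (c i).2
  refine ⟨∏ i ∈ s, D i, ?_, fun i => G i * ∏ j ∈ s.erase i, D j, fun i hi => ?_⟩
  · rw [map_prod]
    exact Finset.prod_ne_zero_iff.mpr fun i _ => hD i
  · rw [← Finset.mul_prod_erase s D hi, map_mul, map_mul, ← mul_assoc, hG i]

omit [CharZero L] in
/-- values of integral polynomials as sums over a large set of exponents -/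
theorem aeval_eq_sum_of_subset (G : MvPolynomial (Fin d) ℤ) (S : Finset (Fin d →₀ ℕ))
    (hS : G.support ⊆ S) :
    aeval g G = ∑ γ ∈ S, ((coeff γ G : ℤ) : L) * ∏ j, g j ^ γ j := by
  rw [aeval_def, eval₂_eq']
  refine Finset.sum_subset hS fun γ _ hγ => ?_
  rw [notMem_support_iff.mp hγ]
  simp

end

/-- independence over the integral polynomials in `g` -/
theorem strong_indep {L : Type} [Field L] [CharZero L] {n d τ : ℕ} (x : Fin n → L)
    (g : Fin d → L) (a : Fin τ → Fin n → ℤ) (E : Finset (Fin n → ℤ))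
    (hLI : LinearIndependent ℚ (fun q : E × (Fin d → ℕ) × (Fin τ → ℕ) =>
        mn x q.1 * (∏ j, g j ^ q.2.1 j) * ∏ i, mn x (a i) ^ q.2.2 i))
    (Js : Finset (Fin τ → ℕ)) (G : (Fin n → ℤ) × (Fin τ → ℕ) → MvPolynomial (Fin d) ℤ)
    (h0 : ∑ q ∈ E ×ˢ Js, aeval g (G q) * (mn x q.1 * ∏ i, mn x (a i) ^ q.2 i) = 0) :
    ∀ q ∈ E ×ˢ Js, G q = 0 := by
  classical
  set S : Finset (Fin d →₀ ℕ) := (E ×ˢ Js).biUnion fun q => (G q).support with hS
  have hSq : ∀ q ∈ E ×ˢ Js, (G q).support ⊆ S := fun q hq =>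
    Finset.subset_biUnion_of_mem (fun q => (G q).support) hq
  rw [linearIndependent_iff'] at hLI
  set T : Finset (Fin d → ℕ) := S.map ⟨DFunLike.coe, DFunLike.coe_injective⟩ with hT
  have key := hLI (Finset.univ ×ˢ (T ×ˢ Js))
    (fun q => ((coeff (Finsupp.equivFunOnFinite.symm q.2.1) (G (q.1, q.2.2)) : ℤ) : ℚ)) ?_
  · rintro ⟨e, j⟩ hq
    have hq' := Finset.mem_product.mp hq
    ext γ
    rw [coeff_zero]
    by_cases hγ : γ ∈ S
    · have := key (⟨e, hq'.1⟩, (γ : Fin d → ℕ), j) (by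
        refine Finset.mem_product.mpr ⟨Finset.mem_univ _, Finset.mem_product.mpr ⟨?_, hq'.2⟩⟩
        exact Finset.mem_map.mpr ⟨γ, hγ, rfl⟩)
      simpa using this
    · exact notMem_support_iff.mp fun h => hγ (hSq _ hq h)
  · rw [← h0, Finset.sum_product, Finset.sum_product, ← Finset.sum_coe_sort E]
    refine Finset.sum_congr rfl fun e _ => ?_
    rw [Finset.sum_product, Finset.sum_comm]
    refine Finset.sum_congr rfl fun j hj => ?_
    rw [aeval_eq_sum_of_subset g _ S (hSq _ (Finset.mem_product.mpr ⟨e.2, hj⟩)), hT,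
      Finset.sum_map, Finset.sum_mul]
    refine Finset.sum_congr rfl fun γ _ => ?_
    have : (Finsupp.equivFunOnFinite.symm (fun i => γ i) : Fin d →₀ ℕ) = γ := by
      ext i
      simp
    simp only [Function.Embedding.coeFn_mk, this]
    rw [Rat.smul_def]
    push_cast
    ring

end ExRel

open ExRel

theorem exists_rel {L : Type} [Field L] [CharZero L] {n d τ : ℕ} (x : Fin n → L)
    (hx : ∀ i, x i ≠ 0) (g : Fin d → L) (C2 : ℕ)
    (hU : ∀ R : ℕ, 1 ≤ R → finrank (gf g)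
      (Submodule.span (gf g) (mn x '' {a : Fin n → ℤ | ∀ i, |a i| ≤ (R : ℤ)})) ≤ C2 * R ^ τ)
    (c0 : ℝ) (hc0 : 0 < c0) (Cb : ℕ) :
    ∃ k : ℕ, 0 < k ∧ ∀ M : ℕ, 0 < M → ∀ a : Fin τ → Fin n → ℤ,
      (∀ i l, |a i l| ≤ (Cb * M : ℤ)) → ∀ E : Finset (Fin n → ℤ), c0 * M ^ τ ≤ E.card →
      LinearIndependent ℚ (fun q : E × (Fin d → ℕ) × (Fin τ → ℕ) =>
        mn x q.1 * (∏ j, g j ^ q.2.1 j) * ∏ i, mn x (a i) ^ q.2.2 i) →
      ∀ i0 : Fin n, ∃ J0 : ℕ, ∀ J : ℕ, J0 ≤ J → ∃ l0 m : ℕ, 0 < l0 ∧ l0 ≤ k ∧ J * M ≤ k * m ∧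
        ∃ A : Finset ((Fin n → ℤ) × (Fin τ → ℕ)), (∀ q ∈ A, q.1 ∈ E ∧ ∀ i, q.2 i ≤ J) ∧
          ∃ G : ℕ → (Fin n → ℤ) × (Fin τ → ℕ) → MvPolynomial (Fin d) ℤ,
            ∑ l ∈ Finset.range (l0 + 1), x i0 ^ (l * m) *
              ∑ q ∈ A, aeval g (G l q) * (mn x q.1 * ∏ i, mn x (a i) ^ q.2 i) = 0 ∧
            ∑ q ∈ A, aeval g (G l0 q) * (mn x q.1 * ∏ i, mn x (a i) ^ q.2 i) ≠ 0 := by
  classical
  set B : ℕ := τ * Cb + 3 with hB
  obtain ⟨k, hk⟩ := exists_nat_gt ((C2 : ℝ) * B ^ τ / c0)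
  have hkc : (C2 : ℝ) * B ^ τ < k * c0 := by
    rwa [div_lt_iff₀ hc0] at hk
  have hk0 : 0 < k := by
    rcases Nat.eq_zero_or_pos k with h | h
    · subst h
      have : (0 : ℝ) ≤ (C2 : ℝ) * B ^ τ := by positivity
      simp at hkc
      linarith
    · exact h
  refine ⟨k, hk0, fun M hM a ha E hE hLI i0 => ?_⟩
  -- bound for the elements of `E`
  obtain ⟨CE, hCE⟩ : ∃ CE : ℕ, ∀ e ∈ E, ∀ i, |e i| ≤ (CE : ℤ) := by
    refine ⟨∑ e ∈ E, ∑ i, (e i).natAbs, fun e he i => ?_⟩
    have h1 : (e i).natAbs ≤ ∑ i, (e i).natAbs :=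
      Finset.single_le_sum (f := fun i => (e i).natAbs) (fun _ _ => Nat.zero_le _)
        (Finset.mem_univ i)
    have h2 : ∑ i, (e i).natAbs ≤ ∑ e ∈ E, ∑ i, (e i).natAbs :=
      Finset.single_le_sum (f := fun e : Fin n → ℤ => ∑ i, (e i).natAbs)
        (fun _ _ => Nat.zero_le _) he
    rw [Int.abs_eq_natAbs]
    exact_mod_cast h1.trans h2
  refine ⟨CE + k + 1, fun J hJ => ?_⟩
  have hJ1 : 1 ≤ J := by omega
  have hJM : J ≤ J * M := Nat.le_mul_of_pos_right _ hM
  set m : ℕ := (J * M + k - 1) / k with hm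
  have hm1 : J * M ≤ k * m := by
    have h := Nat.lt_mul_div_succ (J * M + k - 1) hk0
    rw [← hm] at h
    have : k * (m + 1) = k * m + k := by ring
    rw [this] at h
    omega
  have hm2 : k * m ≤ J * M + k - 1 := Nat.mul_div_le _ _
  set Js : Finset (Fin τ → ℕ) := Fintype.piFinset fun _ => Finset.range (J + 1) with hJs
  set v : (Fin n → ℤ) × (Fin τ → ℕ) → L := fun q => mn x q.1 * ∏ i, mn x (a i) ^ q.2 i with hv
  set R : ℕ := B * (J * M) with hR
  have hR1 : 1 ≤ R := by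
    have : 0 < B * (J * M) := by positivity
    omega
  -- the space
  set U := Submodule.span (gf g) (mn x '' {a : Fin n → ℤ | ∀ i, |a i| ≤ (R : ℤ)}) with hUdef
  have hfin : (mn x '' {a : Fin n → ℤ | ∀ i, |a i| ≤ (R : ℤ)}).Finite := by
    refine Set.Finite.image _ ?_
    refine (Set.finite_Icc (fun _ => -(R : ℤ)) (fun _ => (R : ℤ) : Fin n → ℤ)).subset ?_
    intro b hb
    exact ⟨fun i => (abs_le.mp (hb i)).1, fun i => (abs_le.mp (hb i)).2⟩
  have : FiniteDimensional (gf g) U := FiniteDimensional.span_of_finite _ hfin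
  have hmem : ∀ p ∈ Finset.range (k + 1) ×ˢ (E ×ˢ Js), x i0 ^ (p.1 * m) * v p.2 ∈ U := by
    rintro ⟨l, e, j⟩ hp
    simp only [Finset.mem_product, Finset.mem_range, hJs, Fintype.mem_piFinset] at hp
    obtain ⟨hl, he, hj⟩ := hp
    have e1 : x i0 ^ (l * m) * v (e, j) =
        mn x (((l * m : ℕ) : ℤ) • Pi.single i0 1 + e + ∑ i, (j i : ℤ) • a i) := by
      rw [mn_add hx, mn_add hx, mn_zsmul hx, mn_single, mn_sum hx, zpow_natCast]
      simp only [hv]
      rw [mul_assoc]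
      congr 2
      refine Finset.prod_congr rfl fun i _ => ?_
      rw [mn_zsmul hx, zpow_natCast]
    simp only []
    rw [e1]
    refine Submodule.subset_span ⟨_, fun i => ?_, rfl⟩
    simp only [Pi.add_apply, Finset.sum_apply, Pi.smul_apply, smul_eq_mul]
    have b1 : |((l * m : ℕ) : ℤ) * (Pi.single i0 (1 : ℤ) : Fin n → ℤ) i| ≤ ((J * M + k - 1 : ℕ) : ℤ) := by
      have hlm : l * m ≤ J * M + k - 1 := (Nat.mul_le_mul_right m (by omega)).trans hm2
      rw [abs_mul, abs_of_nonneg (by positivity : (0 : ℤ) ≤ ((l * m : ℕ) : ℤ))]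
      have : |(Pi.single i0 (1 : ℤ) : Fin n → ℤ) i| ≤ 1 := by
        rw [Pi.single_apply]
        split_ifs <;> simp
      calc ((l * m : ℕ) : ℤ) * |(Pi.single i0 (1 : ℤ) : Fin n → ℤ) i|
          ≤ ((l * m : ℕ) : ℤ) * 1 := mul_le_mul_of_nonneg_left this (by positivity)
        _ ≤ _ := by
          rw [mul_one]
          exact_mod_cast hlm
    have b2 : |∑ i', (j i' : ℤ) * a i' i| ≤ ((τ * (J * (Cb * M)) : ℕ) : ℤ) := by
      calc |∑ i', (j i' : ℤ) * a i' i| ≤ ∑ i', |(j i' : ℤ) * a i' i| :=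
            Finset.abs_sum_le_sum_abs _ _
        _ ≤ ∑ _i' : Fin τ, ((J * (Cb * M) : ℕ) : ℤ) := by
            refine Finset.sum_le_sum fun i' _ => ?_
            rw [abs_mul, abs_of_nonneg (by positivity : (0 : ℤ) ≤ (j i' : ℤ))]
            push_cast
            refine mul_le_mul ?_ (ha i' i) (abs_nonneg _) (by positivity)
            have := hj i'
            exact_mod_cast (by omega : j i' ≤ J)
        _ = _ := by
            simp
    have b3 := hCE e he i
    have b4 : (J * M + k - 1) + CE + τ * (J * (Cb * M)) ≤ R := by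
      rw [hR, hB]
      have e2 : (τ * Cb + 3) * (J * M) = τ * (J * (Cb * M)) + 3 * (J * M) := by ring
      rw [e2]
      omega
    calc |((l * m : ℕ) : ℤ) * (Pi.single i0 (1 : ℤ) : Fin n → ℤ) i + e i + ∑ i', (j i' : ℤ) * a i' i|
        ≤ |((l * m : ℕ) : ℤ) * (Pi.single i0 (1 : ℤ) : Fin n → ℤ) i| + |e i| +
          |∑ i', (j i' : ℤ) * a i' i| := by
          refine (abs_add_le _ _).trans ?_
          gcongr
          exact abs_add_le _ _
      _ ≤ ((J * M + k - 1 : ℕ) : ℤ) + (CE : ℤ) + ((τ * (J * (Cb * M)) : ℕ) : ℤ) := by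
          gcongr
      _ ≤ (R : ℤ) := by
          exact_mod_cast b4
  have hcard : finrank (gf g) U < (Finset.range (k + 1) ×ˢ (E ×ˢ Js)).card := by
    refine lt_of_le_of_lt (hU R hR1) ?_
    have h1 : (Finset.range (k + 1) ×ˢ (E ×ˢ Js)).card = (k + 1) * (E.card * (J + 1) ^ τ) := by
      rw [Finset.card_product, Finset.card_product, Finset.card_range, hJs,
        Fintype.card_piFinset_const, Finset.card_range]
    rw [h1]
    have h2 : ((C2 * R ^ τ : ℕ) : ℝ) < ((k + 1) * (E.card * (J + 1) ^ τ) : ℕ) := by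
      push_cast
      have hpos : (0 : ℝ) < ((J : ℝ) * M) ^ τ := by positivity
      calc (C2 : ℝ) * (R : ℝ) ^ τ = (C2 * B ^ τ) * ((J : ℝ) * M) ^ τ := by
            rw [hR]
            push_cast
            rw [mul_pow]
            ring
        _ < (k * c0) * ((J : ℝ) * M) ^ τ := mul_lt_mul_of_pos_right hkc hpos
        _ = k * ((c0 * M ^ τ) * J ^ τ) := by
            rw [mul_pow]
            ring
        _ ≤ (k + 1) * (E.card * (J + 1) ^ τ) := by
            gcongr
            · linarith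
            · linarith
    exact_mod_cast h2
  obtain ⟨c, hc1, ⟨l1, q1⟩, hq1, hcne⟩ := exists_dep U (Finset.range (k + 1) ×ˢ (E ×ˢ Js))
    (fun p => x i0 ^ (p.1 * m) * v p.2) hmem hcard
  obtain ⟨D, hD, G, hG⟩ := exists_common g (Finset.range (k + 1) ×ˢ (E ×ˢ Js)) c
  have hsum : ∑ l ∈ Finset.range (k + 1), x i0 ^ (l * m) *
      ∑ q ∈ E ×ˢ Js, aeval g (G (l, q)) * v q = 0 := by
    have h1 : aeval g D * ∑ p ∈ Finset.range (k + 1) ×ˢ (E ×ˢ Js),
        c p • (x i0 ^ (p.1 * m) * v p.2) = 0 := by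
      rw [hc1, mul_zero]
    rw [← h1, Finset.sum_product, Finset.mul_sum]
    refine Finset.sum_congr rfl fun l hl => ?_
    rw [Finset.mul_sum, Finset.mul_sum]
    refine Finset.sum_congr rfl fun q hq => ?_
    rw [← hG (l, q) (Finset.mem_product.mpr ⟨hl, hq⟩), IntermediateField.smul_def, smul_eq_mul]
    ring
  set P : ℕ → Prop := fun l => ∃ q ∈ E ×ˢ Js, aeval g (G (l, q)) ≠ 0 with hP
  have hq1' := Finset.mem_product.mp hq1
  have hP1 : P l1 := ⟨q1, hq1'.2, by
    rw [← hG (l1, q1) hq1]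
    refine mul_ne_zero ?_ hD
    simpa using hcne⟩
  have hl1 : l1 ≤ k := by
    have := Finset.mem_range.mp hq1'.1
    omega
  set l0 := Nat.findGreatest P k with hl0
  have hPl0 : P l0 := Nat.findGreatest_spec hl1 hP1
  have hl0k : l0 ≤ k := Nat.findGreatest_le k
  have hne : ∑ q ∈ E ×ˢ Js, aeval g (G (l0, q)) * v q ≠ 0 := by
    intro h0
    obtain ⟨q, hq, hqne⟩ := hPl0
    have := strong_indep x g a E hLI Js (fun q => G (l0, q)) h0 q hq
    rw [this] at hqne
    simp at hqne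
  have hsum0 : ∑ l ∈ Finset.range (l0 + 1), x i0 ^ (l * m) *
      ∑ q ∈ E ×ˢ Js, aeval g (G (l, q)) * v q = 0 := by
    rw [← hsum]
    refine Finset.sum_subset (Finset.range_mono (by omega)) fun l hl hl' => ?_
    have h1 := Finset.mem_range.mp hl
    have h2 : l0 < l := by
      rw [Finset.mem_range] at hl'
      omega
    have h3 : ¬ P l := Nat.findGreatest_is_greatest h2 (by omega)
    have h4 : ∀ q ∈ E ×ˢ Js, aeval g (G (l, q)) = 0 := by
      intro q hq
      by_contra hcon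
      exact h3 ⟨q, hq, hcon⟩
    rw [Finset.sum_eq_zero fun q hq => by rw [h4 q hq, zero_mul], mul_zero]
  refine ⟨l0, m, ?_, hl0k, hm1, E ×ˢ Js, ?_, fun l q => G (l, q), hsum0, hne⟩
  · rcases Nat.eq_zero_or_pos l0 with h | h
    · exfalso
      rw [h] at hsum0 hne
      simp at hsum0
      exact hne hsum0
    · exact h
  · rintro ⟨e, j⟩ hq
    simp only [Finset.mem_product, hJs, Fintype.mem_piFinset, Finset.mem_range] at hq
    exact ⟨hq.1, fun i => by
      have := hq.2 i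
      simp only []
      omega⟩

end Pool.Agent.SD
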