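import Mathlib
import Pool.Agent.Lib.MP_c95b3b_ag_SD.Map

set_option autoImplicit false

/-! Project SD (MP_c95b3b_ag), module PB: values of polynomials at the places. -/

namespace Pool.Agent.SD

open MvPolynomial Pool.Agent.L3

namespace PolyBd

section
variable {K : Type} [Field K] {R : Subring K} (P : Places K R)

/-- the absolute value at a place -/
noncomputable def av (w : P.Pl) (x : K) : ℝ :=
  Sum.elim (fun i => ‖P.σ i x‖) (fun j => P.v j x) w

theorem lg_eq (w : P.Pl) (x : K) : P.lg w x = Real.log (av P w x) := rfl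

theorem av_pos (w : P.Pl) {x : K} (hx : x ≠ 0) : 0 < av P w x := by
  rcases w with i | j
  · have h : P.σ i x ≠ 0 := (map_ne_zero (P.σ i)).mpr hx
    exact norm_pos_iff.mpr h
  · exact (P.v j).pos hx

theorem av_zero (w : P.Pl) : av P w 0 = 0 := by
  rcases w with i | j
  · simp [av]
  · simp [av]

theorem av_nonneg (w : P.Pl) (x : K) : 0 ≤ av P w x := by
  by_cases hx : x = 0
  · rw [hx, av_zero]
  · exact (av_pos P w hx).le

theorem av_eq_exp (w : P.Pl) {x : K} (hx : x ≠ 0) : av P w x = Real.exp (P.lg w x) := by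
  rw [lg_eq, Real.exp_log (av_pos P w hx)]

theorem av_le_of (w : P.Pl) {x : K} {B : ℝ} (h : x ≠ 0 → P.lg w x ≤ B) :
    av P w x ≤ Real.exp B := by
  by_cases hx : x = 0
  · rw [hx, av_zero]
    exact (Real.exp_pos _).le
  · rw [av_eq_exp P w hx]
    exact Real.exp_le_exp.mpr (h hx)

theorem lg_le_of (w : P.Pl) {x : K} {B : ℝ} (hB : 0 ≤ B) (h : av P w x ≤ Real.exp B) :
    P.lg w x ≤ B := by
  by_cases hx : x = 0
  · rw [hx, P.lg_zero]
    exact hB
  · rw [lg_eq]
    have h1 := Real.log_le_log (av_pos P w hx) h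
    rwa [Real.log_exp] at h1

theorem av_sum_le (w : P.Pl) {ι : Type} (s : Finset ι) (f : ι → K) {b : ℝ} (hb : 0 ≤ b)
    (h : ∀ i ∈ s, av P w (f i) ≤ b) (c : ℕ) (hc : s.card ≤ c) (hc1 : 1 ≤ c) :
    av P w (∑ i ∈ s, f i) ≤ Real.exp (P.arch w * Real.log c) * b := by
  have hcpos : (0 : ℝ) < c := by exact_mod_cast hc1
  rcases w with i | j
  · rw [P.arch_inl, one_mul, Real.exp_log hcpos]
    have h1 : av P (.inl i) (∑ l ∈ s, f l) ≤ ∑ l ∈ s, av P (.inl i) (f l) := by
      change ‖P.σ i (∑ l ∈ s, f l)‖ ≤ ∑ l ∈ s, ‖P.σ i (f l)‖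
      rw [map_sum]
      exact norm_sum_le _ _
    have h2 : ∑ l ∈ s, av P (.inl i) (f l) ≤ s.card * b := by
      have := Finset.sum_le_card_nsmul s (fun l => av P (.inl i) (f l)) b h
      simpa [nsmul_eq_mul] using this
    have h3 : (s.card : ℝ) * b ≤ c * b := by
      refine mul_le_mul_of_nonneg_right ?_ hb
      exact_mod_cast hc
    linarith
  · rw [P.arch_inr, zero_mul, Real.exp_zero, one_mul]
    exact P.v_sum_le j s f hb h

theorem lg_prod (w : P.Pl) {ι : Type} (s : Finset ι) (f : ι → K) (hf : ∀ i ∈ s, f i ≠ 0) :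
    P.lg w (∏ i ∈ s, f i) = ∑ i ∈ s, P.lg w (f i) := by
  classical
  induction s using Finset.induction_on with
  | empty => simp [P.lg_one]
  | insert a s ha ih =>
    have h1 : ∀ i ∈ s, f i ≠ 0 := fun i hi => hf i (Finset.mem_insert_of_mem hi)
    rw [Finset.prod_insert ha, Finset.sum_insert ha,
      P.lg_mul w (hf a (Finset.mem_insert_self a s)) (Finset.prod_ne_zero_iff.mpr h1), ih h1]

theorem lg_int_le (w : P.Pl) (c : ℤ) {M : ℝ} (hM : 1 ≤ M) (h : |(c : ℝ)| ≤ M) :
    P.lg w (c : K) ≤ P.arch w * Real.log M := by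
  have h0 : 0 ≤ Real.log M := Real.log_nonneg hM
  rcases w with i | j
  · rw [P.lg_inl, P.arch_inl, one_mul, map_intCast, Complex.norm_intCast]
    by_cases hc : |(c : ℝ)| = 0
    · rw [hc, Real.log_zero]
      exact h0
    · exact Real.log_le_log (lt_of_le_of_ne (abs_nonneg _) (Ne.symm hc)) h
  · rw [P.lg_inr, P.arch_inr, zero_mul]
    exact Real.log_nonpos ((P.v j).nonneg _) (P.v_int j c)

end

end PolyBd

open PolyBd

/-- a sum of products -/
theorem sum_bd {K : Type} [Field K] {R : Subring K} (P : Places K R) (w : P.Pl) {ι : Type}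
    (s : Finset ι) (f : ι → K) (B : ℝ) (hB : 0 ≤ B) (h : ∀ i ∈ s, f i ≠ 0 → P.lg w (f i) ≤ B) :
    P.lg w (∑ i ∈ s, f i) ≤ B + P.arch w * Real.log (s.card + 1) := by
  have h1 : ∀ i ∈ s, av P w (f i) ≤ Real.exp B := fun i hi => av_le_of P w (h i hi)
  have h2 := av_sum_le P w s f (Real.exp_pos B).le h1 (s.card + 1) (Nat.le_succ _)
    (Nat.succ_pos _)
  have h3 : 0 ≤ P.arch w * Real.log (s.card + 1) := by
    refine mul_nonneg (P.arch_nonneg w) (Real.log_nonneg ?_)
    have : (0 : ℝ) ≤ s.card := Nat.cast_nonneg _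
    linarith
  refine lg_le_of P w (by linarith) ?_
  rw [Real.exp_add, mul_comm]
  have h4 : ((s.card + 1 : ℕ) : ℝ) = (s.card : ℝ) + 1 := by push_cast; ring
  rw [h4] at h2
  exact h2

/-- the value of an integral polynomial at a place -/
theorem poly_bd {k : ℕ} (G : MvPolynomial (Fin k) ℤ) : ∃ C : ℝ, 0 ≤ C ∧
    ∀ (K : Type) [Field K] (R : Subring K) (P : Places K R) (w : P.Pl) (u : Fin k → K),
      (∀ j, u j ≠ 0) → P.lg w (aeval u G) ≤ C * (P.arch w + ∑ j, |P.lg w (u j)|) := by
  classical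
  set M : ℝ := ∑ d ∈ G.support, |((G.coeff d : ℤ) : ℝ)| + 1 with hM
  have hsum0 : 0 ≤ ∑ d ∈ G.support, |((G.coeff d : ℤ) : ℝ)| :=
    Finset.sum_nonneg fun _ _ => abs_nonneg _
  have hM1 : 1 ≤ M := by rw [hM]; linarith
  have hlM : 0 ≤ Real.log M := Real.log_nonneg hM1
  have hlc : 0 ≤ Real.log ((G.support.card : ℝ) + 1) := by
    refine Real.log_nonneg ?_
    have : (0 : ℝ) ≤ G.support.card := Nat.cast_nonneg _
    linarith
  have hN : (0 : ℝ) ≤ G.totalDegree := Nat.cast_nonneg _
  refine ⟨G.totalDegree + Real.log M + Real.log ((G.support.card : ℝ) + 1), by linarith, ?_⟩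
  intro K _ R P w u hu
  set S : ℝ := ∑ j, |P.lg w (u j)| with hS
  have hS0 : 0 ≤ S := Finset.sum_nonneg fun _ _ => abs_nonneg _
  have ha : 0 ≤ P.arch w := P.arch_nonneg w
  have hB : 0 ≤ P.arch w * Real.log M + G.totalDegree * S := by positivity
  have hexp : aeval u G = ∑ d ∈ G.support, ((G.coeff d : ℤ) : K) * ∏ j, u j ^ d j := by
    rw [aeval_def, eval₂_eq']
    rfl
  have h1 := sum_bd P w G.support (fun d => ((G.coeff d : ℤ) : K) * ∏ j, u j ^ d j)
    (P.arch w * Real.log M + G.totalDegree * S) hB (by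
      intro d hd hne
      have hc : ((G.coeff d : ℤ) : K) ≠ 0 := left_ne_zero_of_mul hne
      have hp : ∏ j, u j ^ d j ≠ 0 := right_ne_zero_of_mul hne
      change P.lg w (((G.coeff d : ℤ) : K) * ∏ j, u j ^ d j) ≤ _
      rw [P.lg_mul w hc hp, lg_prod P w _ _ (fun j _ => pow_ne_zero _ (hu j))]
      refine add_le_add (lg_int_le P w _ hM1 ?_) ?_
      · have := Finset.single_le_sum (f := fun d => |((G.coeff d : ℤ) : ℝ)|)
          (fun _ _ => abs_nonneg _) hd
        rw [hM]
        linarith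
      · rw [hS, Finset.mul_sum]
        refine Finset.sum_le_sum fun j _ => ?_
        rw [P.lg_pow]
        have h2 : ((d j : ℕ) : ℝ) ≤ G.totalDegree := by
          have h3 : d j ≤ G.totalDegree := by
            refine le_trans ?_ (le_totalDegree hd)
            by_cases hj : j ∈ d.support
            · exact Finset.single_le_sum (f := fun i => d i) (fun _ _ => Nat.zero_le _) hj
            · rw [Finsupp.notMem_support_iff.mp hj]
              exact Nat.zero_le _
          exact_mod_cast h3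
        calc (d j : ℝ) * P.lg w (u j) ≤ (d j : ℝ) * |P.lg w (u j)| :=
              mul_le_mul_of_nonneg_left (le_abs_self _) (Nat.cast_nonneg _)
          _ ≤ G.totalDegree * |P.lg w (u j)| := mul_le_mul_of_nonneg_right h2 (abs_nonneg _))
  rw [hexp]
  refine h1.trans ?_
  nlinarith [mul_nonneg hlM hS0, mul_nonneg hlc hS0, mul_nonneg hN ha]

/-- elements whose value is nonzero: the average of the logarithms is nonnegative, hence the
average of the absolute values is at most twice the average of an upper bound -/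
theorem avg_abs_le {K : Type} [Field K] {R : Subring K} (P : Places K R) {y : K} (hy : y ∈ R)
    (h0 : y ≠ 0) (f : P.Pl → ℝ) (hf : ∀ w, 0 ≤ f w) (h : ∀ w, P.lg w y ≤ f w) :
    P.avg (fun w => |P.lg w y|) ≤ 2 * P.avg f := by
  have h1 : P.avg (fun w => |P.lg w y|) ≤ P.avg (fun w => 2 * f w - P.lg w y) := by
    refine P.avg_mono fun w => ?_
    rcases le_total 0 (P.lg w y) with h2 | h2
    · rw [abs_of_nonneg h2]
      linarith [h w]
    · rw [abs_of_nonpos h2]
      linarith [hf w]
  have h2 := P.avg_lg_nonneg hy h0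
  rw [P.avg_sub, P.avg_mul] at h1
  linarith

/-- two terms of a vanishing sum have almost the same absolute value -/
theorem two_terms {K : Type} [Field K] {R : Subring K} (P : Places K R) (w : P.Pl) {ι : Type}
    (s : Finset ι) (f : ι → K) (hs : s.Nonempty) (hf : ∀ i ∈ s, f i ≠ 0)
    (h : ∑ i ∈ s, f i = 0) : ∃ i ∈ s, ∃ j ∈ s, i ≠ j ∧
      |P.lg w (f i) - P.lg w (f j)| ≤ P.arch w * Real.log s.card := by
  classical
  obtain ⟨i, hi, himax⟩ := Finset.exists_max_image s (fun i => av P w (f i)) hs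
  have hsum : f i + ∑ l ∈ s.erase i, f l = 0 := by
    rw [Finset.add_sum_erase s f hi]
    exact h
  have hne : (s.erase i).Nonempty := by
    by_contra hcon
    rw [Finset.not_nonempty_iff_eq_empty] at hcon
    rw [hcon, Finset.sum_empty, add_zero] at hsum
    exact hf i hi hsum
  obtain ⟨j, hj, hjmax⟩ := Finset.exists_max_image (s.erase i) (fun i => av P w (f i)) hne
  have hjs : j ∈ s := Finset.mem_of_mem_erase hj
  have hji : j ≠ i := Finset.ne_of_mem_erase hj
  have hcard1 : 1 ≤ s.card := Finset.card_pos.mpr hs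
  refine ⟨i, hi, j, hjs, hji.symm, ?_⟩
  have h1 := av_sum_le P w (s.erase i) f (av_nonneg P w (f j)) hjmax s.card
    (Finset.card_le_card (Finset.erase_subset i s)) hcard1
  have h2 : ∑ l ∈ s.erase i, f l = - f i := by
    rw [eq_neg_iff_add_eq_zero, add_comm]
    exact hsum
  have hpi := av_pos P w (hf i hi)
  have hpj := av_pos P w (hf j hjs)
  have h3 : P.lg w (f i) ≤ P.arch w * Real.log s.card + P.lg w (f j) := by
    rw [← P.lg_neg, ← h2, lg_eq, lg_eq]
    have hpos : 0 < av P w (∑ l ∈ s.erase i, f l) := by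
      rw [h2]
      exact av_pos P w (neg_ne_zero.mpr (hf i hi))
    have h4 := Real.log_le_log hpos h1
    rwa [Real.log_mul (Real.exp_pos _).ne' hpj.ne', Real.log_exp] at h4
  have h5 : P.lg w (f j) ≤ P.lg w (f i) := by
    rw [lg_eq, lg_eq]
    exact Real.log_le_log hpj (himax j hjs)
  rw [abs_of_nonneg (by linarith)]
  linarith

end Pool.Agent.SD
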