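import Mathlib
import Pool.Agent.Lib.MP_c95b3b_ag_SD.PolyBd
import Pool.Agent.Lib.MP_c95b3b_ag_SD.ExRel

set_option autoImplicit false

/-! Project SD (MP_c95b3b_ag), module EN: the contradiction with the product formula. -/

namespace Pool.Agent.SD

open MvPolynomial Filter Topology Module Pool.Agent.L3

namespace Engine

/-- one product `g(x^α) * x^e * ∏ x^(f i * a i)` -/
noncomputable def trm {F : Type} [Field F] {n d τ : ℕ} (α : Fin d → Fin n → ℤ)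
    (a : Fin τ → Fin n → ℤ) (y : Fin n → F) (g : MvPolynomial (Fin d) ℤ)
    (q : (Fin n → ℤ) × (Fin τ → ℕ)) : F :=
  aeval (mm α y) g * (mn y q.1 * ∏ i, mn y (a i) ^ q.2 i)

/-- the exponent -/
def ex {n τ : ℕ} (a : Fin τ → Fin n → ℤ) (q : (Fin n → ℤ) × (Fin τ → ℕ)) : Fin n → ℤ :=
  q.1 + ∑ i, (q.2 i : ℤ) • a i

theorem mn_ex {F : Type} [Field F] {n τ : ℕ} {y : Fin n → F} (hy : ∀ i, y i ≠ 0)
    (a : Fin τ → Fin n → ℤ) (q : (Fin n → ℤ) × (Fin τ → ℕ)) :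
    mn y (ex a q) = mn y q.1 * ∏ i, mn y (a i) ^ q.2 i := by
  rw [ex, mn_add hy, mn_sum hy]
  congr 1
  refine Finset.prod_congr rfl fun i _ => ?_
  rw [mn_zsmul hy, zpow_natCast]

theorem aeval_mem_R {K : Type} [Field K] {R : Subring K} {k : ℕ} {u : Fin k → K}
    (hu : ∀ j, u j ∈ R) (G : MvPolynomial (Fin k) ℤ) : aeval u G ∈ R := by
  induction G using MvPolynomial.induction_on with
  | C r =>
    rw [aeval_C]
    exact intCast_mem R r
  | add p q hp hq =>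
    rw [map_add]
    exact R.add_mem hp hq
  | mul_X p j hp =>
    rw [map_mul, aeval_X]
    exact R.mul_mem hp (hu j)

section transfer

variable {n d τ : ℕ} (α : Fin d → Fin n → ℤ) (a : Fin τ → Fin n → ℤ)
  (A : Finset ((Fin n → ℤ) × (Fin τ → ℕ)))

/-- the exponents of the monomials -/
def be (i0 : Fin n) : ((Unit ⊕ Fin d) ⊕ {q // q ∈ A}) → Fin n → ℤ
  | .inl (.inl _) => Pi.single i0 1
  | .inl (.inr j) => α j
  | .inr q => ex a q.1

/-- the sums as polynomials -/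
noncomputable def pol (g : (Fin n → ℤ) × (Fin τ → ℕ) → MvPolynomial (Fin d) ℤ) :
    MvPolynomial ((Unit ⊕ Fin d) ⊕ {q // q ∈ A}) ℤ :=
  ∑ q : {q // q ∈ A}, rename (fun j => Sum.inl (Sum.inr j)) (g q.1) * X (Sum.inr q)

theorem aeval_pol {F : Type} [Field F] {y : Fin n → F} (hy : ∀ i, y i ≠ 0) (i0 : Fin n)
    (g : (Fin n → ℤ) × (Fin τ → ℕ) → MvPolynomial (Fin d) ℤ) :
    aeval (fun i => mn y (be α a A i0 i)) (pol A g) = ∑ q ∈ A, trm α a y (g q) q := by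
  rw [pol, map_sum, ← Finset.sum_coe_sort A]
  refine Finset.sum_congr rfl fun q _ => ?_
  rw [map_mul, aeval_X, aeval_rename]
  change aeval (mm α y) (g q.1) * mn y (ex a q.1) = _
  rw [mn_ex hy]
  rfl

theorem aeval_rel {F : Type} [Field F] {y : Fin n → F} (hy : ∀ i, y i ≠ 0) (i0 : Fin n)
    (G : ℕ → (Fin n → ℤ) × (Fin τ → ℕ) → MvPolynomial (Fin d) ℤ) (l0 m : ℕ) :
    aeval (fun i => mn y (be α a A i0 i)) (∑ l ∈ Finset.range (l0 + 1),
      X (Sum.inl (Sum.inl ())) ^ (l * m) * pol A (G l)) =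
      ∑ l ∈ Finset.range (l0 + 1), y i0 ^ (l * m) * ∑ q ∈ A, trm α a y (G l q) q := by
  rw [map_sum]
  refine Finset.sum_congr rfl fun l _ => ?_
  rw [map_mul, map_pow, aeval_X, aeval_pol α a A hy]
  congr 2
  exact mn_single y i0

end transfer

section place

variable {n d τ : ℕ} (S : Sq n) (ν : ℕ) (w : (S.W ν).Pl)

theorem abs_dot_le (v u : Fin n → ℝ) (C : ℝ) (h : ∀ i, |v i| ≤ C) :
    |v ⬝ᵥ u| ≤ C * ∑ i, |u i| := by
  rw [dotProduct, Finset.mul_sum]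
  refine (Finset.abs_sum_le_sum_abs _ _).trans (Finset.sum_le_sum fun i _ => ?_)
  rw [abs_mul]
  exact mul_le_mul_of_nonneg_right (h i) (abs_nonneg _)

/-- the bound for one nonzero term -/
theorem trm_le (α : Fin d → Fin n → ℤ) (a : Fin τ → Fin n → ℤ) (b : Fin τ → Fin n → ℝ)
    (M : ℕ) (hab : ∀ i l, |(a i l : ℝ) - M * b i l| ≤ 1) (g : MvPolynomial (Fin d) ℤ) (C : ℝ)
    (hC : ∀ (K : Type) [Field K] (R : Subring K) (P : Places K R) (w : P.Pl) (u : Fin d → K),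
      (∀ j, u j ≠ 0) → P.lg w (aeval u g) ≤ C * (P.arch w + ∑ j, |P.lg w (u j)|))
    (q : (Fin n → ℤ) × (Fin τ → ℕ)) (CE J : ℕ) (hq1 : ∀ i, |q.1 i| ≤ (CE : ℤ))
    (hq2 : ∀ i, q.2 i ≤ J) (h0 : trm α a (S.p ν) g q ≠ 0) :
    (S.W ν).lg w (trm α a (S.p ν) g q) ≤
      C * ((S.W ν).arch w + ∑ j, |rv (α j) ⬝ᵥ S.lam ν w|) +
        ((CE : ℝ) + τ * J) * ∑ i, |S.lam ν w i| + (J : ℝ) * M * ∑ i, |b i ⬝ᵥ S.lam ν w| := by
  have hy := S.ne ν
  have h1 : aeval (mm α (S.p ν)) g ≠ 0 := left_ne_zero_of_mul h0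
  have h2 : mn (S.p ν) q.1 * ∏ i, mn (S.p ν) (a i) ^ q.2 i ≠ 0 := right_ne_zero_of_mul h0
  have h3 : (S.W ν).lg w (aeval (mm α (S.p ν)) g) ≤
      C * ((S.W ν).arch w + ∑ j, |rv (α j) ⬝ᵥ S.lam ν w|) := by
    refine (hC _ _ (S.W ν) w _ (fun j => mm_ne_zero hy α j)).trans (le_of_eq ?_)
    congr 2
    refine Finset.sum_congr rfl fun j _ => ?_
    rw [dot_lam]
    rfl
  have h4 : (S.W ν).lg w (mn (S.p ν) q.1 * ∏ i, mn (S.p ν) (a i) ^ q.2 i) =
      rv q.1 ⬝ᵥ S.lam ν w + ∑ i, (q.2 i : ℝ) * (rv (a i) ⬝ᵥ S.lam ν w) := by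
    rw [← mn_ex hy, ← dot_lam, ex, rv_add, add_dotProduct, rv_sum, sum_dotProduct]
    congr 1
    refine Finset.sum_congr rfl fun i _ => ?_
    rw [rv_zsmul, smul_dotProduct, smul_eq_mul, Int.cast_natCast]
  have h5 : rv q.1 ⬝ᵥ S.lam ν w ≤ (CE : ℝ) * ∑ i, |S.lam ν w i| := by
    refine (le_abs_self _).trans (abs_dot_le _ _ _ fun i => ?_)
    have := hq1 i
    simp only [rv]
    exact_mod_cast this
  have h6 : ∀ i, (q.2 i : ℝ) * (rv (a i) ⬝ᵥ S.lam ν w) ≤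
      (J : ℝ) * (M * |b i ⬝ᵥ S.lam ν w| + ∑ l, |S.lam ν w l|) := by
    intro i
    have h7 : |rv (a i) ⬝ᵥ S.lam ν w| ≤ M * |b i ⬝ᵥ S.lam ν w| + ∑ l, |S.lam ν w l| := by
      have h8 : rv (a i) = (M : ℝ) • b i + (rv (a i) - (M : ℝ) • b i) := by abel
      rw [h8, add_dotProduct]
      refine (abs_add_le _ _).trans (add_le_add ?_ ?_)
      · rw [smul_dotProduct, smul_eq_mul, abs_mul, Nat.abs_cast]
      · refine (abs_dot_le _ _ 1 fun l => ?_).trans (le_of_eq (one_mul _))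
        exact hab i l
    have h9 : (q.2 i : ℝ) ≤ J := by exact_mod_cast hq2 i
    calc (q.2 i : ℝ) * (rv (a i) ⬝ᵥ S.lam ν w) ≤ (q.2 i : ℝ) * |rv (a i) ⬝ᵥ S.lam ν w| :=
          mul_le_mul_of_nonneg_left (le_abs_self _) (Nat.cast_nonneg _)
      _ ≤ (J : ℝ) * (M * |b i ⬝ᵥ S.lam ν w| + ∑ l, |S.lam ν w l|) :=
          mul_le_mul h9 h7 (abs_nonneg _) (Nat.cast_nonneg _)
  have h10 : ∑ i : Fin τ, (q.2 i : ℝ) * (rv (a i) ⬝ᵥ S.lam ν w) ≤
      (J : ℝ) * M * ∑ i, |b i ⬝ᵥ S.lam ν w| + (τ : ℝ) * J * ∑ l, |S.lam ν w l| := by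
    refine (Finset.sum_le_sum fun i _ => h6 i).trans (le_of_eq ?_)
    rw [← Finset.mul_sum, Finset.sum_add_distrib, ← Finset.mul_sum, Finset.sum_const,
      Finset.card_univ, Fintype.card_fin, nsmul_eq_mul]
    ring
  rw [trm, (S.W ν).lg_mul w h1 h2, h4]
  have h11 : ((CE : ℝ) + τ * J) * ∑ i, |S.lam ν w i| =
      (CE : ℝ) * ∑ i, |S.lam ν w i| + (τ : ℝ) * J * ∑ i, |S.lam ν w i| := by ring
  rw [h11]
  linarith

end place

/-- the bound for the last sum at a place -/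
theorem last_le {K : Type} [Field K] {R : Subring K} (P : Places K R) (w : P.Pl) {κ : Type}
    (A : Finset κ) (t : ℕ → κ → K) (l0 m : ℕ) (y : K) (hy : y ≠ 0) (T : ℝ)
    (hT0 : 0 ≤ T) (hT : ∀ l, l ≤ l0 → ∀ q ∈ A, t l q ≠ 0 → P.lg w (t l q) ≤ T)
    (hrel : ∑ l ∈ Finset.range (l0 + 1), y ^ (l * m) * ∑ q ∈ A, t l q = 0)
    (hne : ∑ q ∈ A, t l0 q ≠ 0) :
    P.lg w (∑ q ∈ A, t l0 q) ≤ -((m : ℝ) * max 0 (P.lg w y)) + T +
      P.arch w * Real.log (((l0 : ℝ) + 1) * A.card + 1) := by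
  have hA : (0 : ℝ) ≤ A.card := Nat.cast_nonneg _
  have hl : (0 : ℝ) ≤ l0 := Nat.cast_nonneg _
  rcases le_or_gt (P.lg w y) 0 with h | h
  · have h1 := sum_bd P w A (t l0) T hT0 (fun q hq h0 => hT l0 le_rfl q hq h0)
    have h2 : Real.log ((A.card : ℝ) + 1) ≤ Real.log (((l0 : ℝ) + 1) * A.card + 1) := by
      apply Real.log_le_log (by positivity)
      nlinarith
    have h3 := mul_le_mul_of_nonneg_left h2 (P.arch_nonneg w)
    rw [max_eq_left h, mul_zero, neg_zero, zero_add]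
    linarith
  · rw [max_eq_right h.le]
    have h1 : y ^ m * ∑ q ∈ A, t l0 q =
        ∑ p ∈ Finset.range l0 ×ˢ A, -(y ^ (((p.1 : ℤ) + 1 - l0) * m) * t p.1 p.2) := by
      rw [Finset.sum_range_succ, add_comm, add_eq_zero_iff_eq_neg] at hrel
      have h2 : y ^ m * ∑ q ∈ A, t l0 q =
          y ^ ((1 - (l0 : ℤ)) * m) * (y ^ (l0 * m) * ∑ q ∈ A, t l0 q) := by
        rw [← mul_assoc, ← zpow_natCast y (l0 * m), ← zpow_add₀ hy, ← zpow_natCast y m]
        congr 2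
        push_cast
        ring
      rw [h2, hrel, mul_neg, Finset.mul_sum, Finset.sum_product, ← Finset.sum_neg_distrib]
      refine Finset.sum_congr rfl fun l _ => ?_
      rw [Finset.sum_neg_distrib]
      change _ = -∑ q ∈ A, y ^ (((l : ℤ) + 1 - l0) * m) * t l q
      rw [← Finset.mul_sum, ← mul_assoc, ← zpow_natCast y (l * m), ← zpow_add₀ hy]
      congr 3
      push_cast
      ring
    have h3 := sum_bd P w (Finset.range l0 ×ˢ A)
      (fun p => -(y ^ (((p.1 : ℤ) + 1 - l0) * m) * t p.1 p.2)) T hT0 (by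
        intro p hp h0
        rw [Finset.mem_product, Finset.mem_range] at hp
        have h4 : t p.1 p.2 ≠ 0 := by
          intro h5
          apply h0
          simp only [h5, mul_zero, neg_zero]
        have h5 : y ^ (((p.1 : ℤ) + 1 - l0) * m) ≠ 0 := zpow_ne_zero _ hy
        rw [P.lg_neg, P.lg_mul w h5 h4, P.lg_zpow]
        have h6 := hT p.1 hp.1.le p.2 hp.2 h4
        have h7 : ((((p.1 : ℤ) + 1 - l0) * m : ℤ) : ℝ) ≤ 0 := by
          have h8 : ((p.1 : ℤ) + 1 - l0) * m ≤ 0 := by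
            apply mul_nonpos_of_nonpos_of_nonneg
            · omega
            · exact Nat.cast_nonneg _
          exact_mod_cast h8
        have h9 := mul_nonpos_of_nonpos_of_nonneg h7 h.le
        linarith)
    rw [← h1, P.lg_mul w (pow_ne_zero _ hy) hne, P.lg_pow, Finset.card_product,
      Finset.card_range] at h3
    have h4 : Real.log (((l0 * A.card : ℕ) : ℝ) + 1) ≤
        Real.log (((l0 : ℝ) + 1) * A.card + 1) := by
      apply Real.log_le_log (by positivity)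
      push_cast
      nlinarith
    have h5 := mul_le_mul_of_nonneg_left h4 (P.arch_nonneg w)
    linarith

end Engine

open Engine in
theorem engine {n : ℕ} {𝓤 : Ultrafilter ℕ} {S : Sq n} {L : Type} [Field L] [CharZero L]
    {x : Fin n → L} (hx : ∀ i, x i ≠ 0) (hG : Gn 𝓤 S x) (s : ℕ → ℝ)
    (hs : Tendsto s 𝓤 atTop) (Cs : ℝ)
    (hC : ∀ i, ∀ᶠ ν in (𝓤 : Filter ℕ), S.ht (rv (Pi.single i 1)) ν ≤ Cs * s ν)
    (i0 : Fin n) (c : ℝ) (hc : 0 < c)
    (hi0 : ∀ᶠ ν in (𝓤 : Filter ℕ), c * s ν ≤ S.ht (rv (Pi.single i0 1)) ν) {d τ : ℕ}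
    (α : Fin d → Fin n → ℤ)
    (hα : ∀ j, Tendsto (fun ν => S.ht (rv (α j)) ν / s ν) 𝓤 (𝓝 0)) (b : Fin τ → Fin n → ℝ)
    (hb : ∀ i, Tendsto (fun ν => S.ht (b i) ν / s ν) 𝓤 (𝓝 0)) (C2 : ℕ)
    (hU : ∀ R : ℕ, 1 ≤ R → finrank (gf (mm α x)) (Submodule.span (gf (mm α x))
      (mn x '' {a : Fin n → ℤ | ∀ i, |a i| ≤ (R : ℤ)})) ≤ C2 * R ^ τ)
    (c0 : ℝ) (hc0 : 0 < c0) (M0 : ℕ)
    (hE : ∀ M : ℕ, M0 ≤ M → ∀ a : Fin τ → Fin n → ℤ,
      (∀ i l, |(a i l : ℝ) - M * b i l| ≤ 1) → ∃ E : Finset (Fin n → ℤ),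
        c0 * M ^ τ ≤ E.card ∧ LinearIndependent ℚ
          (fun q : E × (Fin d → ℕ) × (Fin τ → ℕ) =>
            mn x q.1 * (∏ j, mm α x j ^ q.2.1 j) * ∏ i, mn x (a i) ^ q.2.2 i)) : False := by
  -- the constants
  obtain ⟨Cb, hCb⟩ : ∃ Cb : ℕ, ∀ i l, |b i l| + 1 ≤ Cb := by
    obtain ⟨Cb, hCb⟩ := exists_nat_ge (1 + ∑ i, ∑ l, |b i l|)
    refine ⟨Cb, fun i l => ?_⟩
    have h1 : |b i l| ≤ ∑ l, |b i l| :=
      Finset.single_le_sum (f := fun l => |b i l|) (fun l _ => abs_nonneg _) (Finset.mem_univ l)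
    have h2 : ∑ l, |b i l| ≤ ∑ i, ∑ l, |b i l| :=
      Finset.single_le_sum (f := fun i => ∑ l, |b i l|)
        (fun i _ => Finset.sum_nonneg fun l _ => abs_nonneg _) (Finset.mem_univ i)
    linarith
  obtain ⟨k, hk0, hk⟩ := exists_rel x hx (mm α x) C2 hU c0 hc0 Cb
  obtain ⟨M, hMM0, hM1, hMc⟩ : ∃ M : ℕ, M0 ≤ M ∧ 1 ≤ M ∧
      2 * k * (τ + 1) * n * (|Cs| + 1) < c * M := by
    obtain ⟨N, hN⟩ := exists_nat_gt (2 * k * (τ + 1) * n * (|Cs| + 1) / c)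
    refine ⟨max N (max M0 1), (le_max_left _ _).trans (le_max_right _ _),
      (le_max_right _ _).trans (le_max_right _ _), ?_⟩
    rw [div_lt_iff₀ hc] at hN
    have h1 : (N : ℝ) ≤ ((max N (max M0 1) : ℕ) : ℝ) := by exact_mod_cast le_max_left _ _
    nlinarith
  have hMr : (1 : ℝ) ≤ M := by exact_mod_cast hM1
  set a : Fin τ → Fin n → ℤ := fun i l => round ((M : ℝ) * b i l) with ha
  have hab : ∀ i l, |(a i l : ℝ) - M * b i l| ≤ 1 := by
    intro i l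
    have h1 := abs_sub_round ((M : ℝ) * b i l)
    rw [abs_sub_comm] at h1
    exact h1.trans (by norm_num)
  have haC : ∀ i l, |a i l| ≤ (Cb * M : ℤ) := by
    intro i l
    have h1 := hab i l
    have h2 := hCb i l
    have h3 : |(a i l : ℝ)| ≤ Cb * M := by
      have h4 : |(a i l : ℝ)| ≤ |(a i l : ℝ) - M * b i l| + |(M : ℝ) * b i l| := by
        have := abs_add_le ((a i l : ℝ) - M * b i l) ((M : ℝ) * b i l)
        rwa [sub_add_cancel] at this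
      rw [abs_mul, Nat.abs_cast] at h4
      nlinarith
    exact_mod_cast h3
  obtain ⟨E, hEc, hEi⟩ := hE M hMM0 a hab
  obtain ⟨J0, hJ0⟩ := hk M hM1 a haC E hEc hEi i0
  obtain ⟨CE, hCE⟩ : ∃ CE : ℕ, ∀ e ∈ E, ∀ i, |e i| ≤ (CE : ℤ) := by
    refine ⟨∑ e ∈ E, ∑ i, (e i).natAbs, fun e he i => ?_⟩
    have h1 : (e i).natAbs ≤ ∑ i, (e i).natAbs :=
      Finset.single_le_sum (f := fun i => (e i).natAbs) (fun _ _ => Nat.zero_le _)
        (Finset.mem_univ i)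
    have h2 : ∑ i, (e i).natAbs ≤ ∑ e ∈ E, ∑ i, (e i).natAbs :=
      Finset.single_le_sum (f := fun e : Fin n → ℤ => ∑ i, (e i).natAbs)
        (fun _ _ => Nat.zero_le _) he
    rw [Int.abs_eq_natAbs]
    exact_mod_cast h1.trans h2
  obtain ⟨J, hJJ0, hJE, hJ1⟩ : ∃ J : ℕ, J0 ≤ J ∧ CE ≤ J ∧ 1 ≤ J :=
    ⟨max J0 (max CE 1), le_max_left _ _, (le_max_left _ _).trans (le_max_right _ _),
      (le_max_right _ _).trans (le_max_right _ _)⟩
  obtain ⟨l0, m, hl0, hl0k, hJM, A, hA, G, hrel, hne⟩ := hJ0 J hJJ0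
  -- the relations at the points of the sequence
  have hrel' : ∀ᶠ ν in (𝓤 : Filter ℕ), ∑ l ∈ Finset.range (l0 + 1), S.p ν i0 ^ (l * m) *
      ∑ q ∈ A, trm α a (S.p ν) (G l q) q = 0 := by
    have h1 := (Gn.iff_mn hx hG (be α a A i0) (∑ l ∈ Finset.range (l0 + 1),
      X (Sum.inl (Sum.inl ())) ^ (l * m) * pol A (G l))).2 (by
        rw [aeval_rel α a A hx]
        exact hrel)
    filter_upwards [h1] with ν h2
    rwa [aeval_rel α a A (S.ne ν)] at h2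
  have hne' : ∀ᶠ ν in (𝓤 : Filter ℕ), ∑ q ∈ A, trm α a (S.p ν) (G l0 q) q ≠ 0 := by
    have h1 := Gn.ne_mn hx hG (be α a A i0) (pol A (G l0)) (by
        rw [aeval_pol α a A hx]
        exact hne)
    filter_upwards [h1] with ν h2
    rwa [aeval_pol α a A (S.ne ν)] at h2
  -- the constants of the polynomials
  choose C hC0 hCb' using fun (l : ℕ) (q : (Fin n → ℤ) × (Fin τ → ℕ)) => poly_bd (G l q)
  set Ct : ℝ := ∑ l ∈ Finset.range (l0 + 1), ∑ q ∈ A, C l q with hCt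
  have hCt0 : 0 ≤ Ct := Finset.sum_nonneg fun l _ => Finset.sum_nonneg fun q _ => hC0 l q
  have hCle : ∀ l, l ≤ l0 → ∀ q ∈ A, C l q ≤ Ct := by
    intro l hl q hq
    have h1 : C l q ≤ ∑ q ∈ A, C l q :=
      Finset.single_le_sum (f := fun q => C l q) (fun q _ => hC0 l q) hq
    have h2 : ∑ q ∈ A, C l q ≤ Ct :=
      Finset.single_le_sum (f := fun l => ∑ q ∈ A, C l q)
        (fun l _ => Finset.sum_nonneg fun q _ => hC0 l q)
        (Finset.mem_range.2 (Nat.lt_succ_of_le hl))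
    exact h1.trans h2
  set Lg : ℝ := Real.log (((l0 : ℝ) + 1) * A.card + 1) with hLg
  -- the inequality for the averages
  have key : ∀ᶠ ν in (𝓤 : Filter ℕ), (m : ℝ) / 2 * S.ht (rv (Pi.single i0 1)) ν ≤
      Ct * (1 + ∑ j, S.ht (rv (α j)) ν) +
        ((CE : ℝ) + τ * J) * ∑ i, S.ht (rv (Pi.single i 1)) ν +
        (J : ℝ) * M * ∑ i, S.ht (b i) ν + Lg := by
    filter_upwards [hrel', hne'] with ν h1 h2
    have hmem : ∑ q ∈ A, trm α a (S.p ν) (G l0 q) q ∈ S.R ν := by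
      refine (S.R ν).sum_mem fun q _ => ?_
      rw [trm, ← mn_ex (S.ne ν)]
      exact (S.R ν).mul_mem (aeval_mem_R (fun j => mn_mem (S.mem ν) (S.inv ν) (α j)) _)
        (mn_mem (S.mem ν) (S.inv ν) _)
    have h3 := (S.W ν).avg_lg_nonneg hmem h2
    have h4 : ∀ w, (S.W ν).lg w (∑ q ∈ A, trm α a (S.p ν) (G l0 q) q) ≤
        -((m : ℝ) * max 0 ((S.W ν).lg w (S.p ν i0))) +
          (Ct * ((S.W ν).arch w + ∑ j, |rv (α j) ⬝ᵥ S.lam ν w|) +
        ((CE : ℝ) + τ * J) * ∑ i, |S.lam ν w i| + (J : ℝ) * M * ∑ i, |b i ⬝ᵥ S.lam ν w|) +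
          (S.W ν).arch w * Lg := by
      intro w
      have hw := (S.W ν).arch_nonneg w
      refine last_le (S.W ν) w A (fun l q => trm α a (S.p ν) (G l q) q) l0 m (S.p ν i0)
        (S.ne ν i0) _ ?_ ?_ h1 h2
      · positivity
      · intro l hl q hq h0
        obtain ⟨hq1, hq2⟩ := hA q hq
        refine (trm_le S ν w α a b M hab (G l q) (C l q)
          (fun K _ R P w u hu => hCb' l q K R P w u hu) q CE J (hCE q.1 hq1) hq2 h0).trans ?_
        have h5 : 0 ≤ (S.W ν).arch w + ∑ j, |rv (α j) ⬝ᵥ S.lam ν w| := by positivity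
        have h6 := mul_le_mul_of_nonneg_right (hCle l hl q hq) h5
        linarith
    have h5 := (S.W ν).avg_mono h4
    have h6 : (S.W ν).avg (fun w => -((m : ℝ) * max 0 ((S.W ν).lg w (S.p ν i0))) +
          (Ct * ((S.W ν).arch w + ∑ j, |rv (α j) ⬝ᵥ S.lam ν w|) +
        ((CE : ℝ) + τ * J) * ∑ i, |S.lam ν w i| + (J : ℝ) * M * ∑ i, |b i ⬝ᵥ S.lam ν w|) +
          (S.W ν).arch w * Lg) =
        -((m : ℝ) / 2 * S.ht (rv (Pi.single i0 1)) ν) +
          (Ct * (1 + ∑ j, S.ht (rv (α j)) ν) +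
        ((CE : ℝ) + τ * J) * ∑ i, S.ht (rv (Pi.single i 1)) ν +
        (J : ℝ) * M * ∑ i, S.ht (b i) ν) + Lg := by
      have e1 : ∀ i, (S.W ν).avg (fun w => |S.lam ν w i|) = S.ht (rv (Pi.single i 1)) ν := by
        intro i
        unfold Sq.ht
        congr 1
        funext w
        rw [dot_lam, mn_single]
        rfl
      have e2 : (S.W ν).avg (fun w => max 0 ((S.W ν).lg w (S.p ν i0))) =
          S.ht (rv (Pi.single i0 1)) ν / 2 := by
        rw [ht_eq_two_mul, mn_single]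
        ring
      have e3 : (S.W ν).avg (fun w => (S.W ν).arch w * Lg) = Lg := by
        have h7 : (fun w => (S.W ν).arch w * Lg) = fun w => Lg * (S.W ν).arch w := by
          funext w
          ring
        rw [h7, Places.avg_const_arch]
      rw [Places.avg_add, Places.avg_add, Places.avg_add, Places.avg_add, Places.avg_neg,
        Places.avg_mul, Places.avg_mul, Places.avg_mul, Places.avg_mul, Places.avg_add,
        Places.avg_arch, Places.avg_sum, Places.avg_sum, Places.avg_sum, e2, e3]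
      simp only [e1]
      unfold Sq.ht
      ring
    rw [h6] at h5
    linarith
  -- the limit
  have hspos : ∀ᶠ ν in (𝓤 : Filter ℕ), 0 < s ν := hs.eventually_gt_atTop 0
  have hinv : Tendsto (fun ν => (s ν)⁻¹) 𝓤 (𝓝 0) := tendsto_inv_atTop_zero.comp hs
  have hCall : ∀ᶠ ν in (𝓤 : Filter ℕ), ∀ i, S.ht (rv (Pi.single i 1)) ν ≤ |Cs| * s ν := by
    rw [Filter.eventually_all]
    intro i
    filter_upwards [hC i, hspos] with ν h1 h2
    exact h1.trans (mul_le_mul_of_nonneg_right (le_abs_self _) h2.le)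
  have hlim : Tendsto (fun ν => Ct * ((s ν)⁻¹ + ∑ j, S.ht (rv (α j)) ν / s ν) +
      ((CE : ℝ) + τ * J) * (n * |Cs|) + (J : ℝ) * M * ∑ i, S.ht (b i) ν / s ν +
      Lg * (s ν)⁻¹) 𝓤 (𝓝 (Ct * (0 + ∑ _j : Fin d, 0) +
      ((CE : ℝ) + τ * J) * (n * |Cs|) + (J : ℝ) * M * ∑ _i : Fin τ, 0 + Lg * 0)) := by
    refine Tendsto.add (Tendsto.add (Tendsto.add ?_ tendsto_const_nhds) ?_) ?_
    · exact (hinv.add (tendsto_finsetSum _ fun j _ => hα j)).const_mul _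
    · exact (tendsto_finsetSum _ fun i _ => hb i).const_mul _
    · exact hinv.const_mul _
  have hfin : (m : ℝ) / 2 * c ≤ Ct * (0 + ∑ _j : Fin d, 0) +
      ((CE : ℝ) + τ * J) * (n * |Cs|) + (J : ℝ) * M * ∑ _i : Fin τ, 0 + Lg * 0 := by
    refine ge_of_tendsto hlim ?_
    filter_upwards [key, hspos, hCall, hi0] with ν h1 h2 h3 h4
    have h5 : ∑ i, S.ht (rv (Pi.single i 1)) ν ≤ n * (|Cs| * s ν) := by
      refine (Finset.sum_le_sum fun i _ => h3 i).trans (le_of_eq ?_)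
      rw [Finset.sum_const, Finset.card_univ, Fintype.card_fin, nsmul_eq_mul]
    have h6 : (m : ℝ) / 2 * (c * s ν) ≤ (m : ℝ) / 2 * S.ht (rv (Pi.single i0 1)) ν :=
      mul_le_mul_of_nonneg_left h4 (by positivity)
    have h7 : ((CE : ℝ) + τ * J) * ∑ i, S.ht (rv (Pi.single i 1)) ν ≤
        ((CE : ℝ) + τ * J) * (n * (|Cs| * s ν)) :=
      mul_le_mul_of_nonneg_left h5 (by positivity)
    have h8 : (m : ℝ) / 2 * c * s ν ≤ (Ct * ((s ν)⁻¹ + ∑ j, S.ht (rv (α j)) ν / s ν) +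
      ((CE : ℝ) + τ * J) * (n * |Cs|) + (J : ℝ) * M * ∑ i, S.ht (b i) ν / s ν +
      Lg * (s ν)⁻¹) * s ν := by
      have e1 : (∑ j, S.ht (rv (α j)) ν / s ν) * s ν = ∑ j, S.ht (rv (α j)) ν := by
        rw [Finset.sum_mul]
        exact Finset.sum_congr rfl fun j _ => div_mul_cancel₀ _ h2.ne'
      have e2 : (∑ i, S.ht (b i) ν / s ν) * s ν = ∑ i, S.ht (b i) ν := by
        rw [Finset.sum_mul]
        exact Finset.sum_congr rfl fun j _ => div_mul_cancel₀ _ h2.ne'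
      have e3 : (s ν)⁻¹ * s ν = 1 := inv_mul_cancel₀ h2.ne'
      have e4 : (Ct * ((s ν)⁻¹ + ∑ j, S.ht (rv (α j)) ν / s ν) +
      ((CE : ℝ) + τ * J) * (n * |Cs|) + (J : ℝ) * M * ∑ i, S.ht (b i) ν / s ν +
      Lg * (s ν)⁻¹) * s ν = Ct * ((s ν)⁻¹ * s ν + (∑ j, S.ht (rv (α j)) ν / s ν) * s ν) +
        ((CE : ℝ) + τ * J) * (n * (|Cs| * s ν)) +
        (J : ℝ) * M * ((∑ i, S.ht (b i) ν / s ν) * s ν) + Lg * ((s ν)⁻¹ * s ν) := by ring
      rw [e4, e1, e2, e3, mul_one]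
      linarith
    exact le_of_mul_le_mul_right h8 h2
  rw [Finset.sum_const_zero, Finset.sum_const_zero, add_zero, mul_zero, mul_zero, mul_zero,
    zero_add, add_zero, add_zero] at hfin
  -- contradiction
  have hJr : (1 : ℝ) ≤ J := by exact_mod_cast hJ1
  have hCJ : (CE : ℝ) ≤ J := by exact_mod_cast hJE
  have hJMr : (J : ℝ) * M ≤ k * m := by exact_mod_cast hJM
  have hkr : (0 : ℝ) < k := by exact_mod_cast hk0
  have hnC : 0 ≤ (n : ℝ) * |Cs| := by positivity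
  have hn0 : (0 : ℝ) < n := by exact_mod_cast (Fin.pos i0)
  have g1 : (m : ℝ) / 2 * c ≤ ((τ : ℝ) + 1) * J * (n * |Cs|) := by
    refine hfin.trans (mul_le_mul_of_nonneg_right ?_ hnC)
    nlinarith
  have g2 : (J : ℝ) * M * c ≤ 2 * k * (((τ : ℝ) + 1) * J * (n * |Cs|)) := by
    calc (J : ℝ) * M * c ≤ k * m * c := mul_le_mul_of_nonneg_right hJMr hc.le
      _ = 2 * k * ((m : ℝ) / 2 * c) := by ring
      _ ≤ 2 * k * (((τ : ℝ) + 1) * J * (n * |Cs|)) :=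
          mul_le_mul_of_nonneg_left g1 (by positivity)
  have g3 : (J : ℝ) * (c * M) ≤ J * (2 * k * (τ + 1) * n * |Cs|) := by
    calc (J : ℝ) * (c * M) = J * M * c := by ring
      _ ≤ _ := g2
      _ = J * (2 * k * (τ + 1) * n * |Cs|) := by ring
  have g4 : c * M ≤ 2 * k * (τ + 1) * n * |Cs| :=
    le_of_mul_le_mul_left g3 (by linarith)
  have g5 : 2 * (k : ℝ) * (τ + 1) * n * |Cs| ≤ 2 * k * (τ + 1) * n * (|Cs| + 1) := by
    have : (0 : ℝ) ≤ 2 * k * (τ + 1) * n := by positivity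
    nlinarith
  linarith

end Pool.Agent.SD
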