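import Mathlib
import Pool.Agent.Lib.MP_c95b3b_ag_SD.DefsF
import Pool.Agent.Lib.MP_c95b3b_ag_SD.Map

set_option autoImplicit false

/-! Project SD (MP_c95b3b_ag), module GE: generic points. -/

namespace Pool.Agent.SD

open MvPolynomial Module Pool.Agent.CITR

theorem exists_gen {n : ℕ} (P : Ideal (MvPolynomial (Fin n) ℂ)) (hP : P.IsPrime) :
    ∃ (L : Type) (_ : Field L) (_ : CharZero L) (_ : Algebra ℂ L) (x : Fin n → L),
      IsGen x P := by
  have := hP
  have : IsDomain (MvPolynomial (Fin n) ℂ ⧸ P) := Ideal.Quotient.isDomain P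
  have : CharZero (FractionRing (MvPolynomial (Fin n) ℂ ⧸ P)) :=
    charZero_of_injective_algebraMap
      (algebraMap ℂ (FractionRing (MvPolynomial (Fin n) ℂ ⧸ P))).injective
  refine ⟨FractionRing (MvPolynomial (Fin n) ℂ ⧸ P), inferInstance, inferInstance, inferInstance,
    fun i => algebraMap (MvPolynomial (Fin n) ℂ ⧸ P) _ (Ideal.Quotient.mk P (X i)), ?_⟩
  intro F
  have h : aeval (fun i => algebraMap (MvPolynomial (Fin n) ℂ ⧸ P)
      (FractionRing (MvPolynomial (Fin n) ℂ ⧸ P)) (Ideal.Quotient.mk P (X i))) =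
      (IsScalarTower.toAlgHom ℂ (MvPolynomial (Fin n) ℂ ⧸ P)
        (FractionRing (MvPolynomial (Fin n) ℂ ⧸ P))).comp (Ideal.Quotient.mkₐ ℂ P) := by
    apply MvPolynomial.algHom_ext
    intro i
    rw [aeval_X]
    rfl
  rw [h]
  have h2 : ((IsScalarTower.toAlgHom ℂ (MvPolynomial (Fin n) ℂ ⧸ P)
        (FractionRing (MvPolynomial (Fin n) ℂ ⧸ P))).comp (Ideal.Quotient.mkₐ ℂ P)) F =
      algebraMap (MvPolynomial (Fin n) ℂ ⧸ P) (FractionRing (MvPolynomial (Fin n) ℂ ⧸ P))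
        (Ideal.Quotient.mk P F) := rfl
  rw [h2, map_eq_zero_iff _ (IsFractionRing.injective (MvPolynomial (Fin n) ℂ ⧸ P)
    (FractionRing (MvPolynomial (Fin n) ℂ ⧸ P))), Ideal.Quotient.eq_zero_iff_mem]

section
variable {L : Type} [Field L] [Algebra ℂ L] {n : ℕ} {x : Fin n → L}
  {P : Ideal (MvPolynomial (Fin n) ℂ)}

theorem IsGen.prime (h : IsGen x P) : P.IsPrime := by
  have h1 : P = RingHom.ker (aeval x : MvPolynomial (Fin n) ℂ →ₐ[ℂ] L) := by
    ext F
    rw [RingHom.mem_ker]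
    exact (h F).symm
  rw [h1]
  exact RingHom.ker_isPrime _

theorem IsGen.ne_zero (h : IsGen x P) (hX : (∏ i : Fin n, (X i : MvPolynomial (Fin n) ℂ)) ∉ P) :
    ∀ i, x i ≠ 0 := by
  intro i hi
  apply hX
  rw [← h, map_prod]
  exact Finset.prod_eq_zero (Finset.mem_univ i) (by rw [aeval_X, hi])

/-- Nullstellensatz -/
theorem IsGen.mem_iff (h : IsGen x P) (hX : (∏ i : Fin n, (X i : MvPolynomial (Fin n) ℂ)) ∉ P)
    (f : MvPolynomial (Fin n) ℂ) : f ∈ P ↔ ∀ z, OnTorus n P z → eval z f = 0 := by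
  constructor
  · intro hf z hz
    exact hz.2 f hf
  · intro hf
    have := h.prime
    have h1 : f * ∏ i : Fin n, (X i : MvPolynomial (Fin n) ℂ) ∈ P := by
      rw [← IsPrime.vanishingIdeal_zeroLocus (K := ℂ) P, mem_vanishingIdeal_iff]
      intro z hz
      rw [mem_zeroLocus_iff] at hz
      rw [map_mul, map_prod]
      by_cases h0 : ∀ i, z i ≠ 0
      · have h2 : eval z f = 0 := hf z ⟨h0, fun g hg => by
          have := hz g hg
          rwa [aeval_eq_eval] at this⟩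
        rw [aeval_eq_eval, h2, zero_mul]
      · push Not at h0
        obtain ⟨i, hi⟩ := h0
        rw [Finset.prod_eq_zero (Finset.mem_univ i) (by rw [aeval_X, hi]), mul_zero]
    exact (h.prime.mem_or_mem h1).resolve_right hX

theorem IsGen.onY_iff (h : IsGen x P) (z : Fin n → ℂ) : OnY x z ↔ OnTorus n P z := by
  unfold OnY OnTorus
  refine and_congr_right fun _ => ⟨fun h1 g hg => h1 g ((h g).2 hg), fun h1 F hF => ?_⟩
  exact h1 F ((h F).1 hF)

/-- relations between monomials -/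
theorem IsGen.mn_iff (h : IsGen x P)
    (hX : (∏ i : Fin n, (X i : MvPolynomial (Fin n) ℂ)) ∉ P) {m : ℕ} (β : Fin m → Fin n → ℤ)
    (F : MvPolynomial (Fin m) ℂ) : aeval (mm β x) F = 0 ↔
      ∀ z, OnTorus n P z → eval (fun l => ∏ i, z i ^ β l i) F = 0 := by
  obtain ⟨F', hF'⟩ := Map.exists_poly1 β F
  have h1 : aeval (mm β x) F = 0 ↔ aeval x F' = 0 := (hF' L x (h.ne_zero hX)).symm
  rw [h1, h F', h.mem_iff hX F']
  refine forall_congr' fun z => forall_congr' fun hz => ?_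
  have h2 := hF' ℂ z hz.1
  rw [aeval_eq_eval, aeval_eq_eval] at h2
  exact h2

/-- generic points of images -/
theorem IsGen.map (h : IsGen x P)
    (hX : (∏ i : Fin n, (X i : MvPolynomial (Fin n) ℂ)) ∉ P) {m : ℕ} (γ : Fin m → Fin n → ℤ)
    {Q : Ideal (MvPolynomial (Fin m) ℂ)}
    (hQ : ∀ F, F ∈ Q ↔ ∀ z, OnTorus n P z → eval (fun l => ∏ i, z i ^ γ l i) F = 0) :
    IsGen (mm γ x) Q := by
  intro F
  rw [h.mn_iff hX γ F, hQ F]

theorem IsGen.onImage_iff (h : IsGen x P)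
    (hX : (∏ i : Fin n, (X i : MvPolynomial (Fin n) ℂ)) ∉ P) {m : ℕ} (β : Fin m → Fin n → ℤ)
    (z : Fin m → ℂ) : OnImage P β z ↔ OnY (mm β x) z := by
  unfold OnImage OnY
  refine and_congr_right fun _ => forall_congr' fun F => ?_
  rw [h.mn_iff hX β F]

end

end Pool.Agent.SD
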