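import Mathlib
import Pool.Agent.Lib.MP_c95b3b_ag_SD.DefsF
import Pool.Agent.Lib.MP_c95b3b_ag_SD.RkAlg
import Pool.Agent.Lib.MP_c95b3b_ag_SD.Sel
import Pool.Agent.Lib.MP_c95b3b_ag_SD.GenA
import Pool.Agent.Lib.MP_c95b3b_ag_h8.Indep

set_option autoImplicit false

/-! Project SD (MP_c95b3b_ag), module GC: dimensions of images. -/

namespace Pool.Agent.SD

open MvPolynomial Module Pool.Agent.CITR

section
variable {L : Type} [Field L] [CharZero L] [Algebra ℂ L] {n : ℕ} {x : Fin n → L}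
  {P : Ideal (MvPolynomial (Fin n) ℂ)}

theorem IsGen.dim (h : IsGen x P) (hX : (∏ i : Fin n, (X i : MvPolynomial (Fin n) ℂ)) ∉ P) :
    ringKrullDim (MvPolynomial (Fin n) ℂ ⧸ P) = ((dm x : ℕ) : WithBot ℕ∞) := by
  classical
  have hP := h.prime
  have hdom : IsDomain (MvPolynomial (Fin n) ℂ ⧸ P) := Ideal.Quotient.isDomain P
  obtain ⟨κ, -, hκ1, hκ2⟩ := exists_kappa (h.ne_zero hX)
  let j : (MvPolynomial (Fin n) ℂ ⧸ P) →ₐ[ℂ] L :=
    Ideal.Quotient.liftₐ P (aeval x) (fun F hF => (h F).2 hF)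
  have hjmk : ∀ F : MvPolynomial (Fin n) ℂ, j (Ideal.Quotient.mk P F) = aeval x F := fun F => rfl
  have hj : Function.Injective j := by
    rw [injective_iff_map_eq_zero]
    intro r hr
    obtain ⟨F, rfl⟩ := Ideal.Quotient.mk_surjective r
    rw [hjmk] at hr
    exact Ideal.Quotient.eq_zero_iff_mem.2 ((h F).1 hr)
  let z : Fin n → MvPolynomial (Fin n) ℂ ⧸ P := fun i => Ideal.Quotient.mk P (X i)
  have hz : ∀ i, j (z i) = x i := fun i => by
    change j (Ideal.Quotient.mk P (X i)) = x i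
    rw [hjmk, aeval_X]
  have hz1 : AlgebraicIndependent ℂ (fun l => z (κ l)) := by
    rw [← AlgHom.algebraicIndependent_iff j hj]
    have h1 : (j ∘ fun l => z (κ l)) = fun l => x (κ l) := funext fun l => hz (κ l)
    rw [h1]
    exact hκ1
  have hz2 : ∀ i, z i ∈ CIT8.acl ℂ (Set.range fun l => z (κ l)) := by
    intro i
    by_contra hcon
    have h1 := (hz1.option_iff_transcendental (z i)).2 hcon
    rw [← AlgHom.algebraicIndependent_iff j hj] at h1
    have h2 : (j ∘ fun o : Option (Fin (dm x)) => o.elim (z i) fun l => z (κ l)) =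
        fun o : Option (Fin (dm x)) => o.elim (x i) fun l => x (κ l) := by
      funext o
      cases o with
      | none => exact hz i
      | some l => exact hz (κ l)
    rw [h2, hκ1.option_iff_transcendental] at h1
    exact h1 (hκ2 i)
  have hall : ∀ r : MvPolynomial (Fin n) ℂ ⧸ P, r ∈ CIT8.acl ℂ (Set.range fun l => z (κ l)) := by
    intro r
    obtain ⟨f, rfl⟩ := Ideal.Quotient.mk_surjective r
    induction f using MvPolynomial.induction_on with
    | C a => exact CIT8.acl_algebraMap _ a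
    | add p q hp hq =>
      rw [map_add]
      exact CIT8.acl_add hp hq
    | mul_X p l hp =>
      rw [map_mul]
      exact CIT8.acl_mul hp (hz2 l)
  have h3 := CIT8.ringKrullDim_eq_card (fun l => z (κ l)) hz1 hall
  rw [Fintype.card_fin] at h3
  exact h3

theorem IsGen.ind_iff (h : IsGen x P)
    (hX : (∏ i : Fin n, (X i : MvPolynomial (Fin n) ℂ)) ∉ P) {k : ℕ} (a : Fin k → Fin n → ℤ) :
    Ind P a ↔ LinearIndependent L (fun j => om x (rv (a j))) := by
  have h1 : Ind P a ↔ AlgebraicIndependent ℂ (mm a x) := by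
    rw [algebraicIndependent_iff]
    exact forall_congr' fun F => by rw [h.mn_iff hX a F]
  rw [h1]
  exact ⟨fun h2 => om_of_algInd (h.ne_zero hX) h2, fun h2 => algInd_of_om (h.ne_zero hX) h2⟩

theorem IsGen.dimIm_eq (h : IsGen x P)
    (hX : (∏ i : Fin n, (X i : MvPolynomial (Fin n) ℂ)) ∉ P) (Λ : Submodule ℤ (Fin n → ℤ)) :
    dimIm P Λ = rkZ x Λ := by
  refine IsGreatest.csSup_eq ⟨?_, ?_⟩
  · obtain ⟨τ, α, b, -, h1, -, h2, -⟩ := exists_sel x ⊤ Λ (fun _ _ => Submodule.mem_top)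
    exact ⟨α, h1, (h.ind_iff hX α).2 (h2.comp Sum.inl Sum.inl_injective)⟩
  · rintro k ⟨a, ha, hind⟩
    have h1 := (h.ind_iff hX a).1 hind
    have h2 := finite_span_om x (rv '' (Λ : Set (Fin n → ℤ)))
    have h3 := finrank_span_eq_card h1
    rw [Fintype.card_fin] at h3
    rw [← h3]
    refine Submodule.finrank_mono (Submodule.span_mono ?_)
    rintro _ ⟨j, rfl⟩
    exact ⟨_, ⟨_, ha j, rfl⟩, rfl⟩

theorem IsGen.codIm_eq (h : IsGen x P)
    (hX : (∏ i : Fin n, (X i : MvPolynomial (Fin n) ℂ)) ∉ P) (Λ : Submodule ℤ (Fin n → ℤ)) :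
    codIm P Λ = cd x Λ := by
  rw [codIm, cd, h.dimIm_eq hX]

namespace GenC

theorem rkZ_sup_eq_iff (x : Fin n → L) (Λ : Submodule ℤ (Fin n → ℤ)) (a : Fin n → ℤ) :
    rkZ x (Λ ⊔ Submodule.span ℤ {a}) = rkZ x Λ ↔
      om x (rv a) ∈ Submodule.span L (om x '' (rv '' (Λ : Set (Fin n → ℤ)))) := by
  have h1 := finite_span_om x (rv '' (Λ : Set (Fin n → ℤ)))
  have h2 := finite_span_om x
    (rv '' ((Λ ⊔ Submodule.span ℤ {a} : Submodule ℤ (Fin n → ℤ)) : Set (Fin n → ℤ)))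
  have h3 : Submodule.span L (om x '' (rv '' (Λ : Set (Fin n → ℤ)))) ≤ Submodule.span L
      (om x '' (rv '' ((Λ ⊔ Submodule.span ℤ {a} : Submodule ℤ (Fin n → ℤ)) :
        Set (Fin n → ℤ)))) :=
    Submodule.span_mono (Set.image_mono (Set.image_mono (SetLike.coe_subset_coe.2 le_sup_left)))
  constructor
  · intro h4
    rw [Submodule.eq_of_le_of_finrank_eq h3 h4.symm]
    exact Submodule.subset_span
      ⟨_, ⟨a, Submodule.mem_sup_right (Submodule.mem_span_singleton_self a), rfl⟩, rfl⟩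
  · intro h4
    refine le_antisymm (Submodule.finrank_mono (Submodule.span_le.2 ?_)) (Submodule.finrank_mono h3)
    rintro _ ⟨_, ⟨b, hb, rfl⟩, rfl⟩
    obtain ⟨l, hl, c, hc, rfl⟩ := Submodule.mem_sup.1 hb
    obtain ⟨t, rfl⟩ := Submodule.mem_span_singleton.1 hc
    rw [SetLike.mem_coe, rv_add, rv_zsmul, om_add, om_smul]
    exact Submodule.add_mem _ (Submodule.subset_span ⟨_, ⟨l, hl, rfl⟩, rfl⟩)
      (Submodule.smul_mem _ _ h4)

end GenC

theorem IsGen.full_iff (h : IsGen x P)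
    (hX : (∏ i : Fin n, (X i : MvPolynomial (Fin n) ℂ)) ∉ P) (Λ : Submodule ℤ (Fin n → ℤ)) :
    FullIm P Λ ↔ Full x Λ := by
  refine forall_congr' fun a => ?_
  rw [h.dimIm_eq hX, h.dimIm_eq hX, GenC.rkZ_sup_eq_iff]

/-- nonconstant characters -/
theorem IsGen.hcos (h : IsGen x P)
    (hX : (∏ i : Fin n, (X i : MvPolynomial (Fin n) ℂ)) ∉ P) (hc : ¬ InCoset P) :
    ∀ a : Fin n → ℤ, a ≠ 0 → om x (rv a) ≠ 0 := by
  intro a ha h0
  apply hc
  have h1 : ¬ AlgebraicIndependent ℂ (mm (fun _ : Fin 1 => a) x) := by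
    intro h2
    exact (om_of_algInd (h.ne_zero hX) h2).ne_zero 0 h0
  have h3 : IsAlgebraic ℂ (mn x a) := by
    by_contra h4
    apply h1
    have h5 := (algebraicIndependent_unique_type_iff (R := ℂ)
      (x := mm (fun _ : Fin 1 => a) x)).2
    exact h5 h4
  have h6 : ∃ c : ℂ, algebraMap ℂ L c = mn x a :=
    h3.isIntegral.mem_range_algebraMap_of_minpoly_splits (IsAlgClosed.splits _)
  obtain ⟨c, hc'⟩ := h6
  refine ⟨a, ha, c, fun z hz => ?_⟩
  have h7 := (h.mn_iff hX (fun _ : Fin 1 => a) (X 0 - C c)).1 (by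
    rw [map_sub, aeval_X, aeval_C, hc']
    exact sub_self _) z hz
  rw [map_sub, eval_X, eval_C, sub_eq_zero] at h7
  exact h7

end

end Pool.Agent.SD
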