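import Mathlib
import Pool.Agent.Lib.MP_c95b3b_ag_SD.Defs2

set_option autoImplicit false

/-! Project SD (MP_c95b3b_ag), module RM: relations, heights and forms of images under monomial
maps. -/

namespace Pool.Agent.SD

open MvPolynomial Filter Topology Module Pool.Agent.L3

namespace RelMap

theorem cmb_single {n m : ℕ} (β : Fin m → Fin n → ℤ) (l : Fin m) :
    cmb β (Pi.single l 1) = β l := by
  funext i
  unfold cmb
  rw [Finset.sum_eq_single l]
  · rw [Pi.single_eq_same, one_mul]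
  · intro j _ hj
    rw [Pi.single_eq_of_ne hj, zero_mul]
  · intro h
    exact absurd (Finset.mem_univ l) h

theorem cmb_zero {n m : ℕ} (β : Fin m → Fin n → ℤ) : cmb β 0 = 0 := by
  funext i
  simp [cmb]

end RelMap

theorem finrank_comap {n m : ℕ} {β : Fin m → Fin n → ℤ} (hβ : LinearIndependent ℤ β)
    (Z : Submodule ℝ (Fin n → ℝ)) : finrank ℝ Z + m ≤ finrank ℝ (Z.comap (cmbL β)) + n := by
  have hinj := cmbL_injective hβ
  have h1 : (Z.comap (cmbL β)).map (cmbL β) = LinearMap.range (cmbL β) ⊓ Z :=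
    Submodule.map_comap_eq _ _
  have h2 : finrank ℝ (Z.comap (cmbL β)) =
      finrank ℝ (LinearMap.range (cmbL β) ⊓ Z : Submodule ℝ _) := by
    rw [← h1]
    exact (Submodule.equivMapOfInjective (cmbL β) hinj _).finrank_eq
  have h3 := Submodule.finrank_sup_add_finrank_inf_eq (LinearMap.range (cmbL β)) Z
  have h4 : finrank ℝ (LinearMap.range (cmbL β)) = m := by
    rw [LinearMap.finrank_range_of_inj hinj, Module.finrank_fin_fun]
  have h5 : finrank ℝ (LinearMap.range (cmbL β) ⊔ Z : Submodule ℝ _) ≤ n := by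
    have h6 := Submodule.finrank_le (LinearMap.range (cmbL β) ⊔ Z)
    rwa [Module.finrank_fin_fun] at h6
  omega

theorem Rel_map {n m : ℕ} (S : Sq n) (β : Fin m → Fin n → ℤ) (ν : ℕ) :
    Rel (S.map β) ν = (Rel S ν).comap (cmbL β) := by
  ext c
  constructor
  · intro h w
    have h1 := h w
    rw [map_dot] at h1
    exact h1
  · intro h w
    have h1 := h w
    rw [map_dot]
    exact h1

/-- heights of the unit vectors of an image under characters of height `O(s)` -/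
theorem ht_unit {n m : ℕ} {𝓤 : Ultrafilter ℕ} {S : Sq n} {s : ℕ → ℝ}
    {β : Fin m → Fin n → ℤ} (h : ∀ l, β l ∈ LO 𝓤 S s) (hs : ∀ᶠ ν in (𝓤 : Filter ℕ), 0 ≤ s ν) :
    ∃ C : ℝ, ∀ l, ∀ᶠ ν in (𝓤 : Filter ℕ),
      (S.map β).ht (rv (Pi.single l 1)) ν ≤ C * s ν := by
  choose C hC using fun l => mem_LO.1 (h l)
  refine ⟨∑ l, |C l|, fun l => ?_⟩
  filter_upwards [hC l, hs] with ν h1 h2
  rw [map_ht, ← rv_cmb, RelMap.cmb_single]
  refine h1.trans (mul_le_mul_of_nonneg_right ?_ h2)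
  exact (le_abs_self _).trans
    (Finset.single_le_sum (f := fun l => |C l|) (fun _ _ => abs_nonneg _) (Finset.mem_univ l))

section
variable {L : Type} [Field L] [Algebra ℂ L] {n m : ℕ} {x : Fin n → L}

theorem hcos_map (hx : ∀ i, x i ≠ 0) (hcos : ∀ a : Fin n → ℤ, a ≠ 0 → om x (rv a) ≠ 0)
    {β : Fin m → Fin n → ℤ} (hβ : LinearIndependent ℤ β) :
    ∀ a : Fin m → ℤ, a ≠ 0 → om (mm β x) (rv a) ≠ 0 := by
  intro a ha
  rw [om_mm hx, ← rv_cmb]
  refine hcos _ fun h => ha ?_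
  apply cmb_injective hβ
  rw [h, RelMap.cmb_zero]

/-- a lattice whose forms have rank zero is trivial -/
theorem eq_bot_of_rkZ (hcos : ∀ a : Fin n → ℤ, a ≠ 0 → om x (rv a) ≠ 0)
    {Λ : Submodule ℤ (Fin n → ℤ)} (h : rkZ x Λ = 0) : Λ = ⊥ := by
  rw [eq_bot_iff]
  intro a ha
  have hfin := finite_span_om x (rv '' (Λ : Set (Fin n → ℤ)))
  have h1 : Submodule.span L (om x '' (rv '' (Λ : Set (Fin n → ℤ)))) = ⊥ :=
    Submodule.finrank_eq_zero.1 h
  have h2 : om x (rv a) ∈ Submodule.span L (om x '' (rv '' (Λ : Set (Fin n → ℤ)))) :=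
    Submodule.subset_span ⟨_, ⟨_, ha, rfl⟩, rfl⟩
  rw [h1, Submodule.mem_bot] at h2
  rw [Submodule.mem_bot]
  by_contra hne
  exact hcos a hne h2

/-- full lattices with the same rank of the forms -/
theorem Full.eq_of_rkZ {Λ Λ' : Submodule ℤ (Fin n → ℤ)} (h : Full x Λ) (hle : Λ ≤ Λ')
    (hr : rkZ x Λ' ≤ rkZ x Λ) : Λ = Λ' := by
  refine le_antisymm hle fun a ha => ?_
  apply h
  have hfin := finite_span_om x (rv '' (Λ' : Set (Fin n → ℤ)))
  have h1 : Submodule.span L (om x '' (rv '' (Λ : Set (Fin n → ℤ)))) =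
      Submodule.span L (om x '' (rv '' (Λ' : Set (Fin n → ℤ)))) :=
    Submodule.eq_of_le_of_finrank_le
      (Submodule.span_mono (Set.image_mono (Set.image_mono hle))) hr
  rw [h1]
  exact Submodule.subset_span ⟨_, ⟨_, ha, rfl⟩, rfl⟩

/-- full lattices with the same rank -/
theorem Full.eq_of_finrank {Λ Λ' : Submodule ℤ (Fin n → ℤ)} (h : Full x Λ) (hle : Λ ≤ Λ')
    (hr : finrank ℤ Λ' ≤ finrank ℤ Λ) : Λ = Λ' := by
  refine le_antisymm hle fun a ha => ?_
  have h1 : finrank ℤ (Λ.comap Λ'.subtype) = finrank ℤ Λ :=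
    (Submodule.comapSubtypeEquivOfLe hle).finrank_eq
  have h2 : finrank ℤ (Λ.comap Λ'.subtype) ≤ finrank ℤ Λ' := Submodule.finrank_le _
  have hfin : Finite (Λ' ⧸ Λ.comap Λ'.subtype) :=
    Submodule.finiteQuotientOfFreeOfRankEq _ (by omega)
  obtain ⟨k, hk, hka⟩ := (isOfFinAddOrder_of_finite (Submodule.Quotient.mk ⟨a, ha⟩ :
    Λ' ⧸ Λ.comap Λ'.subtype)).exists_nsmul_eq_zero
  have hk' : (k : ℤ) ≠ 0 := by exact_mod_cast hk.ne'
  refine Full.of_zsmul_mem h hk' (a := a) ?_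
  rw [← natCast_zsmul, ← Submodule.Quotient.mk_smul, Submodule.Quotient.mk_eq_zero] at hka
  exact hka

end

end Pool.Agent.SD
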