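import Mathlib
import Pool.Agent.Lib.MP_c95b3b_ag_SD.RelMap

set_option autoImplicit false

/-! Project SD (MP_c95b3b_ag), module QA: codimensions. -/

namespace Pool.Agent.SD

open Module

namespace QMapA

section
variable {L : Type} [Field L] [Algebra ℂ L] {n : ℕ}

/-- the span of the forms of a real subspace -/
noncomputable def W (x : Fin n → L) (U : Submodule ℝ (Fin n → ℝ)) :
    Submodule L (Derivation ℂ L L →ₗ[L] L) :=
  Submodule.span L (om x '' (U : Set (Fin n → ℝ)))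

theorem om_sum (x : Fin n → L) {ι : Type} (s : Finset ι) (b : ι → Fin n → ℝ) :
    om x (∑ j ∈ s, b j) = ∑ j ∈ s, om x (b j) := by
  classical
  induction s using Finset.induction_on with
  | empty => rw [Finset.sum_empty, Finset.sum_empty, om_zero]
  | insert j s hj ih => rw [Finset.sum_insert hj, Finset.sum_insert hj, om_add, ih]

theorem W_mono (x : Fin n → L) {U U' : Submodule ℝ (Fin n → ℝ)} (h : U ≤ U') :
    W x U ≤ W x U' :=
  Submodule.span_mono (Set.image_mono h)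

theorem W_sup (x : Fin n → L) (U U' : Submodule ℝ (Fin n → ℝ)) :
    W x (U ⊔ U') = W x U ⊔ W x U' := by
  refine le_antisymm ?_ (sup_le (W_mono x le_sup_left) (W_mono x le_sup_right))
  refine Submodule.span_le.2 ?_
  rintro _ ⟨b, hb, rfl⟩
  obtain ⟨y, hy, z, hz, rfl⟩ := Submodule.mem_sup.1 hb
  rw [om_add]
  exact Submodule.add_mem_sup (Submodule.subset_span ⟨y, hy, rfl⟩)
    (Submodule.subset_span ⟨z, hz, rfl⟩)

theorem W_span (x : Fin n → L) (A : Set (Fin n → ℝ)) :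
    W x (Submodule.span ℝ A) = Submodule.span L (om x '' A) := by
  refine le_antisymm (Submodule.span_le.2 ?_)
    (Submodule.span_mono (Set.image_mono Submodule.subset_span))
  rintro _ ⟨b, hb, rfl⟩
  refine Submodule.span_induction ?_ ?_ ?_ ?_ hb
  · intro y hy
    exact Submodule.subset_span ⟨y, hy, rfl⟩
  · rw [om_zero]
    exact Submodule.zero_mem _
  · intro y z _ _ hy hz
    rw [om_add]
    exact Submodule.add_mem _ hy hz
  · intro r y _ hy
    rw [om_smul]
    exact Submodule.smul_mem _ _ hy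

theorem finite_W (x : Fin n → L) (U : Submodule ℝ (Fin n → ℝ)) : FiniteDimensional L (W x U) :=
  finite_span_om x _

theorem finrank_W_le (x : Fin n → L) (U : Submodule ℝ (Fin n → ℝ)) :
    finrank L (W x U) ≤ finrank ℝ U := by
  let b := Module.finBasis ℝ U
  have h0 : Submodule.span ℝ (Set.range fun l => (b l : Fin n → ℝ)) = U := by
    have h1 : (Submodule.span ℝ (Set.range b)).map U.subtype = U := by
      rw [b.span_eq, Submodule.map_top, Submodule.range_subtype]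
    rw [Submodule.map_span, ← Set.range_comp] at h1
    exact h1
  have h2 : W x U = Submodule.span L (Set.range fun l => om x (b l : Fin n → ℝ)) := by
    have h3 : W x U = W x (Submodule.span ℝ (Set.range fun l => (b l : Fin n → ℝ))) := by rw [h0]
    rw [h3, W_span, ← Set.range_comp]
    rfl
  rw [h2]
  refine (finrank_range_le_card _).trans ?_
  rw [Fintype.card_fin]

/-- the real span of a lattice -/
noncomputable def U (Λ : Submodule ℤ (Fin n → ℤ)) : Submodule ℝ (Fin n → ℝ) :=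
  Submodule.span ℝ (rv '' (Λ : Set (Fin n → ℤ)))

theorem U_mono {Λ Λ' : Submodule ℤ (Fin n → ℤ)} (h : Λ ≤ Λ') : U Λ ≤ U Λ' :=
  Submodule.span_mono (Set.image_mono h)

theorem finrank_U (Λ : Submodule ℤ (Fin n → ℤ)) : finrank ℝ (U Λ) = finrank ℤ Λ := by
  obtain ⟨β, hβ, -, hU⟩ := exists_basis Λ
  unfold U
  rw [hU, LinearMap.finrank_range_of_inj (cmbL_injective hβ), Module.finrank_fin_fun]

theorem rkZ_eq (x : Fin n → L) (Λ : Submodule ℤ (Fin n → ℤ)) :
    rkZ x Λ = finrank L (W x (U Λ)) := by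
  unfold rkZ rk U
  rw [W_span]

theorem finrank_int (Λ Λ' : Submodule ℤ (Fin n → ℤ)) :
    finrank ℤ (Λ ⊔ Λ' : Submodule ℤ (Fin n → ℤ)) + finrank ℤ (Λ ⊓ Λ' : Submodule ℤ (Fin n → ℤ)) =
      finrank ℤ Λ + finrank ℤ Λ' := by
  have h := Submodule.rank_sup_add_rank_inf_eq Λ Λ'
  rw [← Module.finrank_eq_rank, ← Module.finrank_eq_rank, ← Module.finrank_eq_rank,
    ← Module.finrank_eq_rank] at h
  exact_mod_cast h

theorem span_forms_sup (x : Fin n → L) (Λ Λ' : Submodule ℤ (Fin n → ℤ)) :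
    W x (U (Λ ⊔ Λ')) = W x (U Λ) ⊔ W x (U Λ') := by
  have h : U (Λ ⊔ Λ') = U Λ ⊔ U Λ' := by
    refine le_antisymm ?_ (sup_le (U_mono le_sup_left) (U_mono le_sup_right))
    refine Submodule.span_le.2 ?_
    rintro _ ⟨a, ha, rfl⟩
    obtain ⟨y, hy, z, hz, rfl⟩ := Submodule.mem_sup.1 ha
    rw [rv_add]
    exact Submodule.add_mem_sup (Submodule.subset_span ⟨y, hy, rfl⟩)
      (Submodule.subset_span ⟨z, hz, rfl⟩)
  rw [h, W_sup]

end

end QMapA

section
variable {L : Type} [Field L] [Algebra ℂ L] {n : ℕ} {x : Fin n → L}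

open QMapA

theorem cd_add_rkZ (x : Fin n → L) (Λ : Submodule ℤ (Fin n → ℤ)) :
    cd x Λ + rkZ x Λ = finrank ℤ Λ := by
  unfold cd
  exact Nat.sub_add_cancel (rkZ_le_finrank x Λ)

theorem cd_mono (x : Fin n → L) {Λ Λ' : Submodule ℤ (Fin n → ℤ)} (h : Λ ≤ Λ') :
    cd x Λ ≤ cd x Λ' := by
  have h1 := cd_add_rkZ x Λ
  have h2 := cd_add_rkZ x Λ'
  rw [rkZ_eq, ← finrank_U] at h1 h2
  obtain ⟨C, hC⟩ := Submodule.exists_isCompl (U Λ)
  have hU : U Λ ≤ U Λ' := U_mono h
  have h3 : U Λ ⊔ (C ⊓ U Λ') = U Λ' := by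
    rw [← sup_inf_assoc_of_le C hU, hC.sup_eq_top, top_inf_eq]
  have h4 : U Λ ⊓ (C ⊓ U Λ') = ⊥ := by
    rw [← inf_assoc, hC.inf_eq_bot, bot_inf_eq]
  have h5 := Submodule.finrank_sup_add_finrank_inf_eq (U Λ) (C ⊓ U Λ')
  rw [h3, h4, finrank_bot, add_zero] at h5
  have h6 : W x (U Λ') = W x (U Λ) ⊔ W x (C ⊓ U Λ') := by
    rw [← W_sup, h3]
  have h7 : finrank L (W x (U Λ')) ≤ finrank L (W x (U Λ)) + finrank L (W x (C ⊓ U Λ')) := by
    rw [h6]
    have i1 := finite_W x (U Λ)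
    have i2 := finite_W x (C ⊓ U Λ')
    exact Submodule.finrank_add_le_finrank_add_finrank _ _
  have h8 := finrank_W_le x (C ⊓ U Λ')
  omega

theorem cd_supermodular (x : Fin n → L) (Λ Λ' : Submodule ℤ (Fin n → ℤ)) :
    cd x Λ + cd x Λ' ≤ cd x (Λ ⊔ Λ') + cd x (Λ ⊓ Λ') := by
  have h1 := cd_add_rkZ x Λ
  have h2 := cd_add_rkZ x Λ'
  have h3 := cd_add_rkZ x (Λ ⊔ Λ')
  have h4 := cd_add_rkZ x (Λ ⊓ Λ')
  have h5 := finrank_int Λ Λ'
  rw [rkZ_eq] at h1 h2 h3 h4
  have i1 := finite_W x (U Λ)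
  have i2 := finite_W x (U Λ')
  have h6 := Submodule.finrank_sup_add_finrank_inf_eq (W x (U Λ)) (W x (U Λ'))
  rw [← span_forms_sup] at h6
  have h7 : finrank L (W x (U (Λ ⊓ Λ'))) ≤
      finrank L (W x (U Λ) ⊓ W x (U Λ') : Submodule L (Derivation ℂ L L →ₗ[L] L)) := by
    refine Submodule.finrank_mono (le_inf ?_ ?_)
    · exact W_mono x (U_mono inf_le_left)
    · exact W_mono x (U_mono inf_le_right)
  omega

/-- the full lattice generated by `Λ` -/
theorem exists_full (x : Fin n → L) (Λ : Submodule ℤ (Fin n → ℤ)) :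
    ∃ Λ' : Submodule ℤ (Fin n → ℤ), Λ ≤ Λ' ∧ Full x Λ' ∧ rkZ x Λ' = rkZ x Λ ∧
      ∀ a, a ∈ Λ' ↔ om x (rv a) ∈
        Submodule.span L (om x '' (rv '' (Λ : Set (Fin n → ℤ)))) := by
  let Λ' : Submodule ℤ (Fin n → ℤ) := AddSubgroup.toIntSubmodule
    { carrier := {a | om x (rv a) ∈ Submodule.span L (om x '' (rv '' (Λ : Set (Fin n → ℤ))))}
      add_mem' := by
        intro a b ha hb
        show om x (rv (a + b)) ∈ Submodule.span L (om x '' (rv '' (Λ : Set (Fin n → ℤ))))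
        rw [rv_add, om_add]
        exact Submodule.add_mem _ ha hb
      zero_mem' := by
        show om x (rv 0) ∈ Submodule.span L (om x '' (rv '' (Λ : Set (Fin n → ℤ))))
        rw [rv_zero, om_zero]
        exact Submodule.zero_mem _
      neg_mem' := by
        intro a ha
        show om x (rv (-a)) ∈ Submodule.span L (om x '' (rv '' (Λ : Set (Fin n → ℤ))))
        have h : om x (rv (-a)) + om x (rv a) = 0 := by
          rw [← om_add, ← rv_add, neg_add_cancel, rv_zero, om_zero]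
        rw [eq_neg_of_add_eq_zero_left h]
        exact Submodule.neg_mem _ ha }
  have hmem : ∀ a, a ∈ Λ' ↔ om x (rv a) ∈
      Submodule.span L (om x '' (rv '' (Λ : Set (Fin n → ℤ)))) := fun a => Iff.rfl
  have hle : Λ ≤ Λ' := by
    intro a ha
    rw [hmem]
    exact Submodule.subset_span ⟨rv a, ⟨a, ha, rfl⟩, rfl⟩
  have hspan : Submodule.span L (om x '' (rv '' (Λ' : Set (Fin n → ℤ)))) =
      Submodule.span L (om x '' (rv '' (Λ : Set (Fin n → ℤ)))) := by
    refine le_antisymm (Submodule.span_le.2 ?_)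
      (Submodule.span_mono (Set.image_mono (Set.image_mono hle)))
    rintro _ ⟨_, ⟨a, ha, rfl⟩, rfl⟩
    exact (hmem a).1 ha
  refine ⟨Λ', hle, ?_, ?_, hmem⟩
  · intro a ha
    rw [hspan] at ha
    exact (hmem a).2 ha
  · unfold rkZ rk
    rw [hspan]

end

end Pool.Agent.SD
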