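import Mathlib
import Pool.Agent.Lib.MP_c95b3b_ag_SD.GenC
import Pool.Agent.Lib.MP_c95b3b_ag_SD.QMapA

set_option autoImplicit false

/-! Project SD (MP_c95b3b_ag), module GD: the conditions of the theorem in terms of the generic
point. -/

namespace Pool.Agent.SD

open MvPolynomial Module Pool.Agent.CITR

section
variable {L : Type} [Field L] [CharZero L] [Algebra ℂ L] {n : ℕ} {x : Fin n → L}
  {P : Ideal (MvPolynomial (Fin n) ℂ)}

theorem IsGen.Qc (h : IsGen x P)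
    (hX : (∏ i : Fin n, (X i : MvPolynomial (Fin n) ℂ)) ∉ P) (hs : SmallCod P) : Qc x := by
  intro La Lb ha hb hab h1 h2
  have hfa := (h.full_iff hX La).2 ha
  have hfb := (h.full_iff hX Lb).2 hb
  have ea := h.codIm_eq hX La
  have eb := h.codIm_eq hX Lb
  have et := h.codIm_eq hX ⊤
  have h3 : cd x La ≤ 1 := by
    rcases hs.1 La hfa with h4 | h4
    · rw [ea] at h4
      exact h4
    · rw [ea, et] at h4
      omega
  by_cases h5 : cd x La = 1
  · by_cases h6 : cd x Lb + 1 = cd x ⊤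
    · have h7 := hs.2 La Lb hfa hfb hab (by rw [ea, h5]) (by rw [eb, et, h6])
      rw [et] at h7
      omega
    · omega
  · omega

namespace GenD

theorem mem_span_range {n m : ℕ} (β : Fin m → Fin n → ℤ) (a : Fin n → ℤ) :
    a ∈ Submodule.span ℤ (Set.range β) ↔ ∃ c ∈ (⊤ : Submodule ℤ (Fin m → ℤ)), a = cmb β c := by
  rw [Submodule.mem_span_range_iff_exists_fun]
  constructor
  · rintro ⟨c, rfl⟩
    exact ⟨c, Submodule.mem_top, (Map.cmb_eq β c).symm⟩
  · rintro ⟨c, -, rfl⟩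
    exact ⟨c, (Map.cmb_eq β c).symm⟩

theorem prod_rpow_eq_one {m : ℕ} {z : Fin m → ℂ} (hz : ∀ l, z l ≠ 0) {b : Fin m → ℝ}
    (h : ∑ l, b l * Real.log ‖z l‖ = 0) : ∏ l, ‖z l‖ ^ b l = 1 := by
  have h1 : ∀ l, ‖z l‖ ^ b l = Real.exp (b l * Real.log ‖z l‖) := by
    intro l
    rw [Real.rpow_def_of_pos (norm_pos_iff.2 (hz l)), mul_comm]
  rw [Finset.prod_congr rfl fun l _ => h1 l, ← Real.exp_sum, h, Real.exp_zero]

theorem rc_mem_ball {d : ℕ} {t : Fin d → ℝ} (ht : ∀ j, |t j| < 1) :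
    rc t ∈ Metric.ball (0 : Fin d → ℂ) 1 := by
  rw [mem_ball_zero_iff, pi_norm_lt_iff one_pos]
  intro j
  rw [rc, Complex.norm_real, Real.norm_eq_abs]
  exact ht j

end GenD

theorem IsGen.NC (h : IsGen x P)
    (hX : (∏ i : Fin n, (X i : MvPolynomial (Fin n) ℂ)) ∉ P) (hs : NoCircle P) : NC x := by
  intro m d β hβ hdm hd b hb
  rintro ⟨ψ, hψ1, hψ2, hψ3, hψ4⟩
  have h1 : dimIm P (Submodule.span ℤ (Set.range β)) = d := by
    rw [h.dimIm_eq hX, ← rkZ_mm (h.ne_zero hX) β ⊤ _ (GenD.mem_span_range β), rkZ_top, hdm]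
  refine hs m d β hβ h1 hd ⟨b, hb, ψ, hψ1, fun w hw => (h.onImage_iff hX β _).2 (hψ2 w hw), hψ3,
    fun t ht i => ?_⟩
  have h2 := GenD.rc_mem_ball ht
  exact GenD.prod_rpow_eq_one (hψ2 _ h2).1 (hψ4 t h2 i)

end

end Pool.Agent.SD
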