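import Mathlib
import Pool.Agent.Lib.MP_c95b3b_ag_SD.QMapA

set_option autoImplicit false

/-! Project SD (MP_c95b3b_ag), module QM: the condition on the codimensions is inherited by
images. -/

namespace Pool.Agent.SD

open Module

namespace QMap

/-- `cmb β` as a linear map -/
def cmbZ {m n : ℕ} (β : Fin m → Fin n → ℤ) : (Fin m → ℤ) →ₗ[ℤ] (Fin n → ℤ) where
  toFun := cmb β
  map_add' c c' := by
    funext i
    simp only [cmb, Pi.add_apply, add_mul, Finset.sum_add_distrib]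
  map_smul' r c := by
    funext i
    simp only [cmb, Pi.smul_apply, smul_eq_mul, RingHom.id_apply, Finset.mul_sum, mul_assoc]

theorem cmbZ_apply {m n : ℕ} (β : Fin m → Fin n → ℤ) (c : Fin m → ℤ) : cmbZ β c = cmb β c := rfl

theorem cmbZ_injective {m n : ℕ} {β : Fin m → Fin n → ℤ} (hβ : LinearIndependent ℤ β) :
    Function.Injective (cmbZ β) := cmb_injective hβ

section
variable {L : Type} [Field L] [Algebra ℂ L] {n m : ℕ} {x : Fin n → L}

theorem mem_map {β : Fin m → Fin n → ℤ} {P : Submodule ℤ (Fin m → ℤ)} (a : Fin n → ℤ) :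
    a ∈ P.map (cmbZ β) ↔ ∃ c ∈ P, a = cmb β c := by
  rw [Submodule.mem_map]
  exact ⟨fun ⟨c, hc, h⟩ => ⟨c, hc, h.symm⟩, fun ⟨c, hc, h⟩ => ⟨c, hc, h.symm⟩⟩

theorem cd_map (hx : ∀ i, x i ≠ 0) {β : Fin m → Fin n → ℤ} (hβ : LinearIndependent ℤ β)
    (P : Submodule ℤ (Fin m → ℤ)) : cd (mm β x) P = cd x (P.map (cmbZ β)) := by
  rw [cd, cd, rkZ_mm hx β P (P.map (cmbZ β)) mem_map,
    (Submodule.equivMapOfInjective (cmbZ β) (cmbZ_injective hβ) P).finrank_eq]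

theorem forms_map (hx : ∀ i, x i ≠ 0) (β : Fin m → Fin n → ℤ) (P : Submodule ℤ (Fin m → ℤ)) :
    om x '' (rv '' ((P.map (cmbZ β) : Submodule ℤ (Fin n → ℤ)) : Set (Fin n → ℤ))) =
      om (mm β x) '' (rv '' (P : Set (Fin m → ℤ))) := by
  ext f
  constructor
  · rintro ⟨_, ⟨a, ha, rfl⟩, rfl⟩
    obtain ⟨c, hc, rfl⟩ := (mem_map a).1 ha
    exact ⟨_, ⟨c, hc, rfl⟩, by rw [rv_cmb, om_mm hx]⟩
  · rintro ⟨_, ⟨c, hc, rfl⟩, rfl⟩
    exact ⟨_, ⟨cmb β c, (mem_map _).2 ⟨c, hc, rfl⟩, rfl⟩, by rw [rv_cmb, om_mm hx]⟩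

theorem inf_eq (hx : ∀ i, x i ≠ 0) (β : Fin m → Fin n → ℤ) {P : Submodule ℤ (Fin m → ℤ)}
    (hP : Full (mm β x) P) {Q : Submodule ℤ (Fin n → ℤ)}
    (hQ : ∀ a, a ∈ Q ↔ om x (rv a) ∈ Submodule.span L
      (om x '' (rv '' ((P.map (cmbZ β) : Submodule ℤ (Fin n → ℤ)) : Set (Fin n → ℤ))))) :
    Q ⊓ (⊤ : Submodule ℤ (Fin m → ℤ)).map (cmbZ β) = P.map (cmbZ β) := by
  refine le_antisymm ?_ (le_inf ?_ (Submodule.map_mono le_top))
  · rintro a ⟨h1, h2⟩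
    obtain ⟨v, -, rfl⟩ := (mem_map a).1 h2
    refine (mem_map _).2 ⟨v, hP v ?_, rfl⟩
    have h3 := (hQ _).1 h1
    rw [forms_map hx, rv_cmb, ← om_mm hx] at h3
    exact h3
  · intro a ha
    exact (hQ a).2 (Submodule.subset_span ⟨_, ⟨a, ha, rfl⟩, rfl⟩)

end

end QMap

open QMap in
theorem Qc.map {L : Type} [Field L] [Algebra ℂ L] {n : ℕ} {x : Fin n → L}
    (hx : ∀ i, x i ≠ 0) (h : Qc x) {m : ℕ} {β : Fin m → Fin n → ℤ}
    (hβ : LinearIndependent ℤ β) : Qc (mm β x) := by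
  intro Λa Λb ha hb hab h1 h2
  rw [cd_map hx hβ, cd_map hx hβ] at h1 h2
  rw [cd_map hx hβ, cd_map hx hβ, cd_map hx hβ]
  obtain ⟨La, hLa1, hLa2, -, hLa4⟩ := exists_full x (Λa.map (cmbZ β))
  obtain ⟨Lb, hLb1, hLb2, -, hLb4⟩ := exists_full x (Λb.map (cmbZ β))
  have hia := inf_eq hx β ha hLa4
  have hib := inf_eq hx β hb hLb4
  have hle : La ≤ Lb := by
    intro a haL
    refine (hLb4 a).2 (Submodule.span_mono ?_ ((hLa4 a).1 haL))
    exact Set.image_mono (Set.image_mono (Submodule.map_mono hab.le))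
  have hne : La ≠ Lb := by
    rintro rfl
    rw [hia] at hib
    exact hab.ne (Submodule.map_injective_of_injective (cmbZ_injective hβ) hib)
  have hlt : La < Lb := lt_of_le_of_ne hle hne
  have h3 := cd_mono x hLa1
  have h4 := cd_mono x hLb1
  have h5 := cd_supermodular x La ((⊤ : Submodule ℤ (Fin m → ℤ)).map (cmbZ β))
  have h6 := cd_supermodular x Lb ((⊤ : Submodule ℤ (Fin m → ℤ)).map (cmbZ β))
  rw [hia] at h5
  rw [hib] at h6
  have h7 : cd x (La ⊔ (⊤ : Submodule ℤ (Fin m → ℤ)).map (cmbZ β)) ≤ cd x ⊤ :=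
    cd_mono x le_top
  have h8 : cd x (Lb ⊔ (⊤ : Submodule ℤ (Fin m → ℤ)).map (cmbZ β)) ≤ cd x ⊤ :=
    cd_mono x le_top
  rcases le_or_gt (cd x ⊤) (cd x Lb + 1) with hc | hc
  · have h9 := h La Lb hLa2 hLb2 hlt (by omega) hc
    omega
  · have hlt' : Lb < ⊤ := by
      refine lt_top_iff_ne_top.2 ?_
      rintro rfl
      omega
    have h9 := h Lb ⊤ hLb2 (fun _ _ => Submodule.mem_top) hlt' (by omega) (by omega)
    omega

end Pool.Agent.SD
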