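import Mathlib
import Pool.Agent.Lib.MP_c95b3b_ag_SD.DefsF
import Pool.Agent.Lib.MP_c95b3b_ag_SD.Map

set_option autoImplicit false

/-! Project SD (MP_c95b3b_ag), module GB2: varieties over the algebraic numbers. -/

namespace Pool.Agent.SD

open MvPolynomial Module Pool.Agent.CITR

namespace GenB

/-- the field of the algebraic numbers -/
noncomputable abbrev Qb : IntermediateField ℚ ℂ := algebraicClosure ℚ ℂ

/-- coefficientwise application of an additive map -/
noncomputable def T {n : ℕ} (L : ℂ →+ ℂ) (g : MvPolynomial (Fin n) ℂ) :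
    MvPolynomial (Fin n) ℂ :=
  ∑ s ∈ g.support, monomial s (L (coeff s g))

theorem coeff_T {n : ℕ} (L : ℂ →+ ℂ) (g : MvPolynomial (Fin n) ℂ) (s : Fin n →₀ ℕ) :
    coeff s (T L g) = L (coeff s g) := by
  classical
  rw [T, coeff_sum]
  simp only [coeff_monomial]
  rw [Finset.sum_ite_eq']
  split_ifs with h
  · rfl
  · rw [notMem_support_iff.mp h, map_zero]

theorem T_add {n : ℕ} (L : ℂ →+ ℂ) (g g' : MvPolynomial (Fin n) ℂ) :
    T L (g + g') = T L g + T L g' := by
  ext s
  rw [coeff_add, coeff_T, coeff_T, coeff_T, coeff_add, map_add]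

/-- `T` as a homomorphism -/
noncomputable def TH {n : ℕ} (L : ℂ →+ ℂ) :
    MvPolynomial (Fin n) ℂ →+ MvPolynomial (Fin n) ℂ :=
  AddMonoidHom.mk' (T L) (T_add L)

theorem coeff_TH {n : ℕ} (L : ℂ →+ ℂ) (g : MvPolynomial (Fin n) ℂ) (s : Fin n →₀ ℕ) :
    coeff s (TH L g) = L (coeff s g) := coeff_T L g s

theorem TH_monomial_mul {n : ℕ} (L : ℂ →+ ℂ)
    (hL : ∀ c a : ℂ, IsAlgebraic ℚ a → L (c * a) = L c * a)
    (s : Fin n →₀ ℕ) (c : ℂ) (h : MvPolynomial (Fin n) ℂ) (hh : ∀ u, IsAlgebraic ℚ (coeff u h)) :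
    TH L (monomial s c * h) = monomial s (L c) * h := by
  ext u
  rw [coeff_TH, coeff_monomial_mul', coeff_monomial_mul']
  split_ifs with hu
  · rw [hL _ _ (hh _)]
  · rw [map_zero]

theorem TH_mem {n : ℕ} {Q : Ideal (MvPolynomial (Fin n) ℂ)} (hQ : AlgId Q) (L : ℂ →+ ℂ)
    (hL : ∀ c a : ℂ, IsAlgebraic ℚ a → L (c * a) = L c * a) {g : MvPolynomial (Fin n) ℂ}
    (hg : g ∈ Q) : TH L g ∈ Q := by
  have key : ∀ g ∈ Q, ∀ q : MvPolynomial (Fin n) ℂ, TH L (q * g) ∈ Q := by
    intro g hg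
    have hg' : g ∈ Ideal.span {g | g ∈ Q ∧ ∀ s, IsAlgebraic ℚ (coeff s g)} := by
      rw [← hQ]
      exact hg
    induction hg' using Submodule.span_induction with
    | mem h hh =>
      intro q
      rw [q.as_sum, Finset.sum_mul, map_sum]
      refine Q.sum_mem fun s _ => ?_
      rw [TH_monomial_mul L hL s _ h hh.2]
      exact Q.mul_mem_left _ hh.1
    | zero =>
      intro q
      rw [mul_zero, map_zero]
      exact Q.zero_mem
    | add x y hx hy h1 h2 =>
      intro q
      rw [mul_add, map_add]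
      exact Q.add_mem (h1 (by rw [hQ]; exact hx) q) (h2 (by rw [hQ]; exact hy) q)
    | smul a x hx h1 =>
      intro q
      rw [smul_eq_mul, ← mul_assoc]
      exact h1 (by rw [hQ]; exact hx) _
  have h1 := key g hg 1
  rwa [one_mul] at h1

end GenB

open GenB in
/-- the generic point of a variety over the algebraic numbers -/
theorem IsGen.AD {L : Type} [Field L] [Algebra ℂ L] {n : ℕ} {x : Fin n → L}
    {Q : Ideal (MvPolynomial (Fin n) ℂ)} (h : IsGen x Q) (hQ : AlgId Q) : AD x := by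
  classical
  intro m F c hc hsum
  obtain ⟨i0, hi0⟩ : ∃ i, c i ≠ 0 := by
    by_contra hne
    push Not at hne
    exact hc (funext hne)
  set B := Module.Basis.ofVectorSpace Qb ℂ with hB
  obtain ⟨b, hb⟩ : ∃ b, B.coord b (c i0) ≠ 0 := by
    by_contra hne
    push Not at hne
    exact hi0 (B.forall_coord_eq_zero_iff.mp hne)
  set Λ : ℂ →+ ℂ := ((Algebra.linearMap Qb ℂ) ∘ₗ (B.coord b)).toAddMonoidHom with hΛ
  have hΛa : ∀ c : ℂ, Λ c = ((B.coord b c : Qb) : ℂ) := fun c => rfl
  have hL : ∀ c a : ℂ, IsAlgebraic ℚ a → Λ (c * a) = Λ c * a := by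
    intro c a ha
    have ha' : a ∈ Qb := (mem_algebraicClosure_iff (F := ℚ) (E := ℂ)).mpr ha
    have h1 : c * a = (⟨a, ha'⟩ : Qb) • c := by
      rw [mul_comm]
      rfl
    rw [hΛa, hΛa, h1, map_smul, smul_eq_mul, mul_comm]
    rfl
  -- the polynomial
  set g : MvPolynomial (Fin n) ℂ :=
    ∑ i, C (c i) * MvPolynomial.map (algebraMap ℤ ℂ) (F i) with hg
  have hev : ∀ d : Fin m → ℂ, aeval x (∑ i, C (d i) * MvPolynomial.map (algebraMap ℤ ℂ) (F i)) =
      ∑ i, algebraMap ℂ L (d i) * aeval x (F i) := by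
    intro d
    rw [map_sum]
    refine Finset.sum_congr rfl fun i _ => ?_
    rw [map_mul, aeval_C, aeval_map_algebraMap]
  have hgQ : g ∈ Q := by
    rw [← h g, hg, hev]
    exact hsum
  have hTg : TH Λ g = ∑ i, C (Λ (c i)) * MvPolynomial.map (algebraMap ℤ ℂ) (F i) := by
    ext s
    rw [coeff_TH, hg, coeff_sum, coeff_sum, map_sum]
    refine Finset.sum_congr rfl fun i _ => ?_
    rw [coeff_C_mul, coeff_C_mul, coeff_map]
    exact hL _ _ (isAlgebraic_algebraMap (A := ℂ) ((algebraMap ℤ ℚ) (coeff s (F i))) |> fun h => by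
      simpa using h)
  refine ⟨fun i => Λ (c i), ?_, ?_, ?_⟩
  · intro h0
    have h1 := congrFun h0 i0
    apply hb
    have h2 : ((B.coord b (c i0) : Qb) : ℂ) = 0 := h1
    exact_mod_cast h2
  · intro i
    exact (mem_algebraicClosure_iff (F := ℚ) (E := ℂ)).mp (B.coord b (c i)).2
  · rw [← hev, ← hTg]
    exact (h _).mpr (TH_mem hQ Λ hL hgQ)

/-- a variety over the algebraic numbers is defined over a number field -/
theorem AlgId.exists_nf {n : ℕ} {Q : Ideal (MvPolynomial (Fin n) ℂ)} (hQ : AlgId Q) :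
    ∃ (K0 : Type) (_ : Field K0) (_ : NumberField K0) (φ0 : K0 →+* ℂ)
      (G : Finset (MvPolynomial (Fin n) K0)),
      Q = Ideal.span ((fun g => MvPolynomial.map φ0 g) '' (G : Set (MvPolynomial (Fin n) K0))) := by
  classical
  have hfg : (Submodule.span (MvPolynomial (Fin n) ℂ)
      {g | g ∈ Q ∧ ∀ s, IsAlgebraic ℚ (coeff s g)}).FG := IsNoetherian.noetherian _
  obtain ⟨S, hS, hS'⟩ := (Submodule.fg_span_iff_fg_span_finset_subset _).mp hfg
  set A : Finset ℂ := S.biUnion fun g => g.support.image fun s => coeff s g with hA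
  have hAalg : ∀ a ∈ (A : Set ℂ), IsIntegral ℚ a := by
    intro a ha
    rw [hA, Finset.mem_coe, Finset.mem_biUnion] at ha
    obtain ⟨g, hg, ha⟩ := ha
    rw [Finset.mem_image] at ha
    obtain ⟨s, _, rfl⟩ := ha
    exact ((hS hg).2 s).isIntegral
  set K0 : IntermediateField ℚ ℂ := IntermediateField.adjoin ℚ (A : Set ℂ) with hK0
  have hfd : FiniteDimensional ℚ K0 := IntermediateField.finiteDimensional_adjoin hAalg
  have hnf : NumberField K0 := { to_charZero := inferInstance, to_finiteDimensional := hfd }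
  have hex : ∀ g ∈ S, ∃ g0 : MvPolynomial (Fin n) K0, MvPolynomial.map (algebraMap K0 ℂ) g0 = g := by
    intro g hg
    have hmem : ∀ s, coeff s g ∈ K0 := by
      intro s
      by_cases hs : s ∈ g.support
      · apply IntermediateField.subset_adjoin
        rw [hA, Finset.mem_coe, Finset.mem_biUnion]
        exact ⟨g, hg, Finset.mem_image.mpr ⟨s, hs, rfl⟩⟩
      · rw [notMem_support_iff.mp hs]
        exact K0.zero_mem
    refine ⟨∑ s ∈ g.support, monomial s (⟨coeff s g, hmem s⟩ : K0), ?_⟩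
    rw [map_sum]
    conv_rhs => rw [g.as_sum]
    refine Finset.sum_congr rfl fun s _ => ?_
    rw [map_monomial]
    rfl
  choose! f hf using hex
  refine ⟨K0, inferInstance, hnf, algebraMap K0 ℂ, S.image f, ?_⟩
  have himg : (fun g => MvPolynomial.map (algebraMap K0 ℂ) g) ''
      ((S.image f : Finset _) : Set (MvPolynomial (Fin n) K0)) = (S : Set _) := by
    ext g
    constructor
    · rintro ⟨g0, hg0, rfl⟩
      rw [Finset.mem_coe, Finset.mem_image] at hg0
      obtain ⟨g1, hg1, rfl⟩ := hg0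
      beta_reduce
      rw [hf g1 hg1]
      exact hg1
    · intro hg
      exact ⟨f g, Finset.mem_coe.mpr (Finset.mem_image.mpr ⟨g, hg, rfl⟩), hf g hg⟩
  rw [himg]
  calc Q = Ideal.span {g | g ∈ Q ∧ ∀ s, IsAlgebraic ℚ (coeff s g)} := hQ
    _ = Ideal.span (S : Set _) := hS'

end Pool.Agent.SD
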