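import Mathlib
import Pool.Agent.Lib.MP_c95b3b_ag_RS.PlaceS
import Pool.Agent.Lib.MP_c95b3b_ag_L3.Place1

set_option autoImplicit false

/-! Project SD, module PE (copy of project PC, module FA): places of a number field which extend a given embedding. -/

namespace Pool.Agent.SD

open Pool.Agent.L3 Module

open NumberField PL1 in
theorem exists_places_ext (K0 : Type) [Field K0] [NumberField K0] (φ0 : K0 →+* ℂ) (K : Type)
    [Field K] [NumberField K] [Algebra K0 K] (X : Finset K) (hX : ∀ x ∈ X, x ≠ 0) :
    ∃ (P : Places K (Subring.closure ((X : Set K) ∪ {y | ∃ x ∈ X, y = x⁻¹})))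
      (S : Finset (Fin P.D)), P.D = finrank ℚ K0 * S.card ∧
      (∀ i ∈ S, (P.σ i).comp (algebraMap K0 K) = φ0) ∧
      (∀ x : K, P.avg (fun w => max 0 (P.lg w x)) ≤
        Height.logHeight₁ x / Module.finrank ℚ K) ∧
      ∀ x ∈ X, Height.logHeight₁ x / Module.finrank ℚ K ≤
        P.avg (fun w => max 0 (P.lg w x)) := by
  classical
  have hTf : (⋃ x ∈ X, {w : FinitePlace K | w x ≠ 1}).Finite :=
    X.finite_toSet.biUnion fun x hx => FinitePlace.hasFiniteMulSupport (hX x hx)
  set T : Finset (FinitePlace K) := hTf.toFinset with hT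
  have hTX : ∀ w : FinitePlace K, w ∉ T → ∀ x ∈ X, w x = 1 := by
    intro w hw x hx
    by_contra h
    apply hw
    rw [hT, Set.Finite.mem_toFinset]
    exact Set.mem_biUnion hx h
  have hR : ∀ w : FinitePlace K, w ∉ T →
      ∀ y ∈ Subring.closure ((X : Set K) ∪ {y | ∃ x ∈ X, y = x⁻¹}), w y ≤ 1 := by
    intro w hw y hy
    induction hy using Subring.closure_induction with
    | mem y hy =>
      rcases hy with hy | ⟨x, hx, rfl⟩
      · exact (hTX w hw y hy).le
      · rw [map_inv₀, hTX w hw x hx, inv_one]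
    | zero => simp
    | one => simp
    | add a b _ _ ha hb => exact (w.add_le a b).trans (max_le ha hb)
    | neg a _ ha => rwa [map_neg_eq_map]
    | mul a b _ _ ha hb =>
      rw [map_mul]
      exact mul_le_one₀ ha (apply_nonneg w b) hb
  have hcard : Fintype.card (K →+* ℂ) = Module.finrank ℚ K := NumberField.Embeddings.card K ℂ
  let e : Fin (Module.finrank ℚ K) ≃ (K →+* ℂ) := (Fintype.equivFinOfCardEq hcard).symm
  have he : ∀ f : (K →+* ℂ) → ℝ, ∑ i, f (e i) = ∑ φ, f φ := fun f => Equiv.sum_comp e f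
  have ht : ∀ f : FinitePlace K → ℝ, ∑ j : Fin T.card, f (T.equivFin.symm j : FinitePlace K) =
      ∑ w ∈ T, f w := by
    intro f
    rw [Equiv.sum_comp T.equivFin.symm (fun w : T => f w), Finset.sum_coe_sort T f]
  let P : Places K (Subring.closure ((X : Set K) ∪ {y | ∃ x ∈ X, y = x⁻¹})) :=
    { D := Module.finrank ℚ K
      D_pos := Module.finrank_pos
      m := T.card
      σ := fun i => e i
      v := fun j => (T.equivFin.symm j : FinitePlace K).1
      nonarch := fun j x y => FinitePlace.add_le _ x y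
      prod := by
        intro y hy h0
        have h1 := sum_log y h0
        rw [finsum_eq _ (support_log y h0) T] at h1
        have h2 : ∑ w ∈ (support_log y h0).toFinset.filter (fun w => w ∉ T),
            Real.log (w y) ≤ 0 := by
          refine Finset.sum_nonpos fun w hw => ?_
          exact Real.log_nonpos (apply_nonneg w y) (hR w (Finset.mem_filter.mp hw).2 y hy)
        have h3 := he (fun φ => Real.log ‖φ y‖)
        have h4 := ht (fun w => Real.log (w y))
        change 0 ≤ (∑ i, Real.log ‖(e i) y‖) +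
          ∑ j : Fin T.card, Real.log ((T.equivFin.symm j : FinitePlace K) y)
        rw [h4, h3]
        linarith }
  have hD : (0 : ℝ) < Module.finrank ℚ K := by exact_mod_cast Module.finrank_pos
  have h1' : ∀ x : K, P.avg (fun w => max 0 (P.lg w x)) =
      (∑ φ : K →+* ℂ, max 0 (Real.log ‖φ x‖) + ∑ w ∈ T, max 0 (Real.log (w x))) /
        Module.finrank ℚ K := by
    intro x
    unfold Places.avg
    rw [Fintype.sum_sum_type]
    have h3 := he (fun φ => max 0 (Real.log ‖φ x‖))
    have h4 := ht (fun w => max 0 (Real.log (w x)))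
    rw [← h3, ← h4]
    rfl
  have hmain : ∀ x : K, (∑ φ : K →+* ℂ, max 0 (Real.log ‖φ x‖) +
      ∑ w ∈ T, max 0 (Real.log (w x))) + ∑ w ∈ (support_posLog x).toFinset.filter
        (fun w => w ∉ T), max 0 (Real.log (w x)) = Height.logHeight₁ x := by
    intro x
    rw [NumberField.logHeight₁_eq x]
    have h5 : ∑ φ : K →+* ℂ, max 0 (Real.log ‖φ x‖) =
        ∑ w : InfinitePlace K, (w.mult : ℝ) * max 0 (Real.log (w x)) :=
      sum_embeddings (fun r => max 0 (Real.log r)) x
    rw [h5]
    have h6 : ∑ᶠ v : FinitePlace K, Real.posLog (v x) =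
        ∑ᶠ w : FinitePlace K, max 0 (Real.log (w x)) := rfl
    rw [h6, finsum_eq _ (support_posLog x) T]
    have h8 : ∑ w : InfinitePlace K, (w.mult : ℝ) * max 0 (Real.log (w x)) =
        ∑ w : InfinitePlace K, (w.mult : ℝ) * Real.posLog (w x) := rfl
    rw [h8]
    ring
  let S : Finset (Fin (Module.finrank ℚ K)) :=
    Finset.univ.filter fun i => (e i).comp (algebraMap K0 K) = φ0
  refine ⟨P, S, ?_, fun i hi => (Finset.mem_filter.mp hi).2, fun x => ?_, fun x hx => ?_⟩
  · have h1 : S.card = finrank K0 K := by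
      rw [← RS.PL.card_over K0 φ0 K, ← Fintype.card_subtype, ← Nat.card_eq_fintype_card]
      exact Nat.card_congr (Equiv.subtypeEquiv e fun i => Iff.rfl)
    show Module.finrank ℚ K = finrank ℚ K0 * S.card
    rw [h1]
    exact (Module.finrank_mul_finrank ℚ K0 K).symm
  · rw [h1' x, ← hmain x]
    refine div_le_div_of_nonneg_right ?_ hD.le
    have h7 : 0 ≤ ∑ w ∈ (support_posLog x).toFinset.filter (fun w => w ∉ T),
        max 0 (Real.log (w x)) := Finset.sum_nonneg fun w _ => le_max_left _ _
    linarith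
  · rw [h1' x, ← hmain x]
    refine div_le_div_of_nonneg_right ?_ hD.le
    have h7 : ∑ w ∈ (support_posLog x).toFinset.filter (fun w => w ∉ T),
        max 0 (Real.log (w x)) = 0 := by
      refine Finset.sum_eq_zero fun w hw => ?_
      rw [hTX w (Finset.mem_filter.mp hw).2 x hx, Real.log_one, max_self]
    rw [h7, add_zero]

end Pool.Agent.SD
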