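import Mathlib
import Pool.Agent.Lib.MP_c95b3b_ag_SD.Defs
import Pool.Agent.Lib.MP_c95b3b_ag_SD.PlExt

set_option autoImplicit false

/-! Project SD (MP_c95b3b_ag), module PT: number fields and places for an algebraic point. -/

namespace Pool.Agent.SD

open MvPolynomial Module Pool.Agent.L3

/-- a number field over `K0` with places for the coordinates of the point `y` -/
theorem exists_point (K0 : Type) [Field K0] [NumberField K0] (φ0 : K0 →+* ℂ) {m : ℕ}
    (y : Fin m → ℂ) (hy : ∀ l, IsAlgebraic ℚ (y l)) (hne : ∀ l, y l ≠ 0) :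
    ∃ (K : Type) (_ : Field K) (_ : NumberField K) (_ : Algebra K0 K) (φ : K →+* ℂ)
      (p : Fin m → K) (R : Subring K) (W : Places K R) (s : Finset (Fin W.D)),
      φ.comp (algebraMap K0 K) = φ0 ∧ (∀ i, φ (p i) = y i) ∧
      (∀ i, p i ≠ 0 ∧ p i ∈ R ∧ (p i)⁻¹ ∈ R) ∧ W.D = finrank ℚ K0 * s.card ∧
      (∀ i ∈ s, (W.σ i).comp (algebraMap K0 K) = φ0) ∧
      ∀ i, W.avg (fun w => max 0 (W.lg w (p i))) = Height.logHeight₁ (p i) / finrank ℚ K := by
  classical
  obtain ⟨α, hα⟩ := Field.exists_primitive_element ℚ K0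
  let f0 : K0 →ₐ[ℚ] ℂ := φ0.toRatAlgHom
  let S : Set ℂ := insert (φ0 α) (Set.range y)
  have hSfin : Finite S := Set.toFinite _
  have hSint : ∀ x ∈ S, IsIntegral ℚ x := by
    intro x hx
    rcases Set.mem_insert_iff.1 hx with rfl | ⟨l, rfl⟩
    · have h1 : IsIntegral ℚ α := Algebra.IsIntegral.isIntegral α
      exact h1.map f0
    · exact (hy l).isIntegral
  let K : IntermediateField ℚ ℂ := IntermediateField.adjoin ℚ S
  have hfd : FiniteDimensional ℚ K := IntermediateField.finiteDimensional_adjoin hSint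
  have hnf : NumberField K := { to_charZero := inferInstance, to_finiteDimensional := hfd }
  have hSK : S ⊆ K := IntermediateField.subset_adjoin ℚ S
  have hmem : ∀ x : K0, φ0 x ∈ K := by
    intro x
    have h1 : (IntermediateField.adjoin ℚ {α}).map f0 ≤ K := by
      rw [IntermediateField.adjoin_map, IntermediateField.adjoin_le_iff]
      rintro z ⟨w, hw, rfl⟩
      rw [Set.mem_singleton_iff.1 hw]
      exact hSK (Set.mem_insert _ _)
    apply h1
    refine ⟨x, ?_, rfl⟩
    have h2 : x ∈ IntermediateField.adjoin ℚ {α} := by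
      rw [hα]
      exact IntermediateField.mem_top
    exact h2
  let g : K0 →+* K := φ0.codRestrict K hmem
  let _ : Algebra K0 K := g.toAlgebra
  let p : Fin m → K := fun l => ⟨y l, hSK (Set.mem_insert_of_mem _ (Set.mem_range_self l))⟩
  have hp0 : ∀ l, p l ≠ 0 := fun l h => hne l (congrArg Subtype.val h)
  have hX : ∀ x ∈ Finset.univ.image p, x ≠ 0 := by
    intro x hx
    obtain ⟨l, -, rfl⟩ := Finset.mem_image.1 hx
    exact hp0 l
  have hpX : ∀ l, p l ∈ Finset.univ.image p := fun l =>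
    Finset.mem_image_of_mem _ (Finset.mem_univ l)
  obtain ⟨P, s, hD, hs, hle, hge⟩ := exists_places_ext K0 φ0 K (Finset.univ.image p) hX
  refine ⟨K, inferInstance, hnf, inferInstance, algebraMap K ℂ, p, _, P, s, ?_, fun _ => rfl,
    fun i => ⟨hp0 i, ?_, ?_⟩, hD, hs, fun i => le_antisymm (hle _) (hge _ (hpX i))⟩
  · ext x
    rfl
  · exact Subring.subset_closure (Or.inl (hpX i))
  · exact Subring.subset_closure (Or.inr ⟨p i, hpX i, rfl⟩)

end Pool.Agent.SD
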