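import Mathlib
import Pool.Agent.Lib.MP_c95b3b_ag_SD.PointS
import Pool.Agent.Lib.MP_c95b3b_ag_SD.GenA
import Pool.Agent.Lib.MP_c95b3b_ag_SD.GenB
import Pool.Agent.Lib.MP_c95b3b_ag_SD.GenC

set_option autoImplicit false

/-! Project SD (MP_c95b3b_ag), module SQ: sequences of points. -/

namespace Pool.Agent.SD

open MvPolynomial Filter Module Pool.Agent.L3 Pool.Agent.CITR

namespace SeqS

/-- values of polynomials at conjugate points -/
theorem eval_conj {K0 K : Type} [Field K0] [Field K] [Algebra K0 K] {m : ℕ} {φ0 : K0 →+* ℂ}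
    {ψ : K →+* ℂ} (h : ψ.comp (algebraMap K0 K) = φ0) (p : Fin m → K)
    (g : MvPolynomial (Fin m) K0) :
    eval (fun i => ψ (p i)) (MvPolynomial.map φ0 g) = ψ (eval₂ (algebraMap K0 K) p g) := by
  rw [eval_map, eval₂_comp_left, h]
  rfl

/-- integral polynomials -/
theorem aeval_int {K : Type} [Field K] {m : ℕ} (φ : K →+* ℂ) (p : Fin m → K)
    (F : MvPolynomial (Fin m) ℤ) :
    φ (aeval p F) = eval (fun i => φ (p i)) (MvPolynomial.map (Int.castRingHom ℂ) F) := by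
  have h : φ.comp (algebraMap ℤ K) = Int.castRingHom ℂ := RingHom.ext_int _ _
  rw [eval_map, aeval_def, eval₂_comp_left, h]
  rfl

theorem aeval_int_L {L : Type} [Field L] [Algebra ℂ L] {m : ℕ} (x : Fin m → L)
    (F : MvPolynomial (Fin m) ℤ) :
    aeval x (MvPolynomial.map (Int.castRingHom ℂ) F) = aeval x F := by
  have h : (algebraMap ℂ L).comp (Int.castRingHom ℂ) = algebraMap ℤ L := RingHom.ext_int _ _
  rw [aeval_def, aeval_def, eval₂_map, h]

theorem prod_eval {m : ℕ} (y : Fin m → ℂ) (s : Finset ℕ) (f : ℕ → MvPolynomial (Fin m) ℂ)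
    (h : eval y (∏ k ∈ s, f k) ≠ 0) : ∀ k ∈ s, eval y (f k) ≠ 0 := by
  intro k hk h0
  apply h
  rw [map_prod]
  exact Finset.prod_eq_zero hk h0

theorem theta_le {f c D : ℕ} (hf : (0 : ℝ) < f) (h : D = f * c) : 1 / (f : ℝ) * D ≤ c := by
  rw [h]
  push_cast
  apply le_of_eq
  field_simp

end SeqS

/-- a sequence of algebraic points of the variety, with places -/
theorem exists_Sq {m : ℕ} {Q : Ideal (MvPolynomial (Fin m) ℂ)} (hQ : AlgId Q)
    (y : ℕ → Fin m → ℂ) (hy : ∀ ν, OnTorus m Q (y ν)) (hya : ∀ ν l, IsAlgebraic ℚ (y ν l)) :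
    ∃ (S : Sq m) (s : ∀ ν, Finset (Fin (S.W ν).D)) (θ : ℝ), 0 < θ ∧
      (∀ ν, ∃ φ : S.K ν →+* ℂ, ∀ i, φ (S.p ν i) = y ν i) ∧
      ∀ ν, θ * (S.W ν).D ≤ (s ν).card ∧ ∀ σ ∈ s ν, OnTorus m Q (S.pt ν σ) := by
  obtain ⟨K0, fK0, nK0, φ0, G, hG⟩ := hQ.exists_nf
  choose K fK nK aK φ p R W s h1 h2 h3 h4 h5 h6 using
    fun ν => exists_point K0 φ0 (y ν) (hya ν) (fun l => (hy ν).1 l)
  have hpos : 0 < finrank ℚ K0 := Module.finrank_pos
  have hpos' : (0 : ℝ) < (finrank ℚ K0 : ℝ) := by exact_mod_cast hpos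
  let S : Sq m := @Sq.mk m K fK R W p (fun ν i => (h3 ν i).1) (fun ν i => (h3 ν i).2.1)
    (fun ν i => (h3 ν i).2.2)
  refine ⟨S, s, 1 / (finrank ℚ K0 : ℝ), by positivity, fun ν => ⟨φ ν, h2 ν⟩, fun ν => ⟨?_, ?_⟩⟩
  · exact SeqS.theta_le hpos' (h4 ν)
  · intro σ hσ
    refine ⟨fun i => pt_ne_zero S ν σ i, ?_⟩
    have h7 : Q ≤ RingHom.ker (eval (S.pt ν σ)) := by
      conv_lhs => rw [hG]
      rw [Ideal.span_le]
      rintro _ ⟨g0, hg0, rfl⟩
      have hmem : MvPolynomial.map φ0 g0 ∈ Q := by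
        rw [hG]
        exact Ideal.subset_span ⟨g0, hg0, rfl⟩
      have h8 : eval (y ν) (MvPolynomial.map φ0 g0) = 0 := (hy ν).2 _ hmem
      have h9 := SeqS.eval_conj (h1 ν) (p ν) g0
      have h10 : (fun i => φ ν (p ν i)) = y ν := funext (h2 ν)
      rw [h10, h8] at h9
      have h11 : eval₂ (algebraMap K0 (K ν)) (p ν) g0 = 0 :=
        (map_eq_zero (φ ν)).1 h9.symm
      have h12 := SeqS.eval_conj (h5 ν σ hσ) (p ν) g0
      rw [h11, map_zero] at h12
      exact h12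
    intro g hg
    exact h7 hg

/-- a generic sequence of special points -/
theorem exists_seq {L : Type} [Field L] [CharZero L] [Algebra ℂ L] {m : ℕ} {x : Fin m → L}
    {Q : Ideal (MvPolynomial (Fin m) ℂ)} (h : IsGen x Q)
    (hX : (∏ i : Fin m, (X i : MvPolynomial (Fin m) ℂ)) ∉ Q) (hQ : AlgId Q)
    (hU : ∀ f, (∀ y, Unlikely m Q y → (∀ l, IsAlgebraic ℚ (y l)) → eval y f = 0) →
      ∀ y, OnTorus m Q y → eval y f = 0) :
    ∃ (S : Sq m) (s : ∀ ν, Finset (Fin (S.W ν).D)) (θ : ℝ), 0 < θ ∧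
      Gn (hyperfilter ℕ) S x ∧ Spc (hyperfilter ℕ) S x ∧
      ∀ ν, θ * (S.W ν).D ≤ (s ν).card ∧ ∀ σ ∈ s ν, OnY x (S.pt ν σ) := by
  classical
  have hcount : Countable (MvPolynomial (Fin m) ℤ) := by
    rw [← Cardinal.mk_le_aleph0_iff]
    exact MvPolynomial.cardinalMk_le_max.trans (by simp)
  obtain ⟨e, he⟩ := exists_surjective_nat (MvPolynomial (Fin m) ℤ)
  let I : ℕ → Finset ℕ := fun ν => (Finset.range (ν + 1)).filter (fun k => aeval x (e k) ≠ 0)
  let G : ℕ → MvPolynomial (Fin m) ℂ := fun ν =>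
    ∏ k ∈ I ν, MvPolynomial.map (Int.castRingHom ℂ) (e k)
  have hGQ : ∀ ν, G ν ∉ Q := by
    intro ν hmem
    have h1 : aeval x (G ν) = 0 := (h (G ν)).2 hmem
    rw [show aeval x (G ν) = ∏ k ∈ I ν, aeval x (MvPolynomial.map (Int.castRingHom ℂ) (e k)) from
      map_prod _ _ _, Finset.prod_eq_zero_iff] at h1
    obtain ⟨k, hk, hk0⟩ := h1
    rw [SeqS.aeval_int_L] at hk0
    exact (Finset.mem_filter.1 hk).2 hk0
  have hex : ∀ ν, ∃ y, Unlikely m Q y ∧ (∀ l, IsAlgebraic ℚ (y l)) ∧ eval y (G ν) ≠ 0 := by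
    intro ν
    by_contra hcon
    push Not at hcon
    exact hGQ ν ((h.mem_iff hX (G ν)).2 (hU (G ν) fun y h1 h2 => hcon y h1 h2))
  choose y hyU hyA hyG using hex
  obtain ⟨S, s, θ, hθ, hφ, hs⟩ := exists_Sq hQ y (fun ν => (hyU ν).1) hyA
  have hint : ∀ ν (F : MvPolynomial (Fin m) ℤ), aeval (S.p ν) F = 0 ↔
      eval (y ν) (MvPolynomial.map (Int.castRingHom ℂ) F) = 0 := by
    intro ν F
    obtain ⟨φ, hφ'⟩ := hφ ν
    have h1 := SeqS.aeval_int φ (S.p ν) F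
    rw [show (fun i => φ (S.p ν i)) = y ν from funext hφ'] at h1
    rw [← h1]
    exact (map_eq_zero φ).symm
  refine ⟨S, s, θ, hθ, ?_, ?_, fun ν => ⟨(hs ν).1, fun σ hσ => (h.onY_iff _).2 ((hs ν).2 σ hσ)⟩⟩
  · intro F
    constructor
    · intro hF
      by_contra hne
      obtain ⟨k, rfl⟩ := he F
      have h1 : ∀ᶠ ν in ((hyperfilter ℕ : Ultrafilter ℕ) : Filter ℕ), k ≤ ν :=
        Nat.hyperfilter_le_atTop (Filter.eventually_ge_atTop k)
      obtain ⟨ν, h2, h3⟩ := (hF.and h1).exists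
      have h4 : k ∈ I ν := Finset.mem_filter.2 ⟨Finset.mem_range.2 (by omega), hne⟩
      exact SeqS.prod_eval (y ν) (I ν) _ (hyG ν) k h4 ((hint ν (e k)).1 h2)
    · intro hF
      refine Eventually.of_forall fun ν => ?_
      rw [hint]
      refine (hyU ν).1.2 _ ?_
      rw [← h, SeqS.aeval_int_L]
      exact hF
  · refine Eventually.of_forall fun ν => ?_
    obtain ⟨-, Λ, hdim, hΛ⟩ := hyU ν
    rw [IsGen.dim h hX] at hdim
    have h1 : dm x + (m - finrank ℤ Λ) + 1 ≤ m := by exact_mod_cast hdim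
    have h2 : dm x + 1 ≤ finrank ℤ Λ := by omega
    refine h2.trans ?_
    obtain ⟨β, hβ, hmem, -⟩ := exists_basis Λ
    obtain ⟨φ, hφ'⟩ := hφ ν
    have hmn : ∀ a ∈ Λ, mn (S.p ν) a = 1 := by
      intro a ha
      apply φ.injective
      rw [map_mn, map_one, show (fun i => φ (S.p ν i)) = y ν from funext hφ']
      exact hΛ a ha
    have hrel : ∀ a ∈ Λ, rv a ∈ Rel S ν := by
      intro a ha w
      rw [dot_lam, hmn a ha, Places.lg_one]
    have hβΛ : ∀ l, β l ∈ Λ := by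
      intro l
      rw [hmem]
      refine ⟨Pi.single l 1, ?_⟩
      funext i
      rw [cmb, Finset.sum_eq_single l]
      · rw [Pi.single_eq_same, one_mul]
      · intro j _ hj
        rw [Pi.single_eq_of_ne hj, zero_mul]
      · intro h'
        exact absurd (Finset.mem_univ l) h'
    have hli := rv_linearIndependent hβ
    have hli' : LinearIndependent ℝ (fun l => (⟨rv (β l), hrel _ (hβΛ l)⟩ : Rel S ν)) :=
      LinearIndependent.of_comp (Rel S ν).subtype hli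
    have h3 := hli'.fintype_card_le_finrank
    simpa using h3

end Pool.Agent.SD
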