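import Mathlib
import Pool.Agent.Lib.MP_c95b3b_ag_SD.PolyBd

set_option autoImplicit false

/-! Project SD (MP_c95b3b_ag), module HA: heights of algebraic functions. -/

namespace Pool.Agent.SD

open MvPolynomial Filter Topology Module Pool.Agent.L3

namespace HtAlg

/-- clearing denominators -/
theorem clear_den {k : ℕ} (F : MvPolynomial (Fin k) ℚ) :
    ∃ N : ℕ, N ≠ 0 ∧ ∃ G : MvPolynomial (Fin k) ℤ,
      C (N : ℚ) * F = MvPolynomial.map (Int.castRingHom ℚ) G := by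
  induction F using MvPolynomial.induction_on with
  | C q =>
    refine ⟨q.den, q.den_nz, C q.num, ?_⟩
    rw [← C_mul, map_C]
    congr 1
    rw [mul_comm]
    exact Rat.mul_den_eq_num q
  | add p q hp hq =>
    obtain ⟨N, hN, G, hG⟩ := hp
    obtain ⟨N', hN', G', hG'⟩ := hq
    refine ⟨N * N', mul_ne_zero hN hN', C (N' : ℤ) * G + C (N : ℤ) * G', ?_⟩
    rw [map_add, map_mul, map_mul, ← hG, ← hG', map_C, map_C]
    simp only [eq_intCast, Int.cast_natCast, Nat.cast_mul, C_mul]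
    ring
  | mul_X p i hp =>
    obtain ⟨N, hN, G, hG⟩ := hp
    refine ⟨N, hN, G * X i, ?_⟩
    rw [map_mul, map_X, ← hG, mul_assoc]

theorem aeval_map_int {k : ℕ} {L : Type} [Field L] [CharZero L] (u : Fin k → L)
    (G : MvPolynomial (Fin k) ℤ) :
    aeval u (MvPolynomial.map (Int.castRingHom ℚ) G) = aeval u G := by
  rw [aeval_def, aeval_def, eval₂_map]
  congr 1
  exact RingHom.ext_int _ _

/-- an integral algebraic relation of positive degree -/
theorem exists_rel {k : ℕ} {L : Type} [Field L] [CharZero L] (u : Fin k → L) (y : L)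
    (ha : IsAlgebraic (Algebra.adjoin ℚ (Set.range u)) y) :
    ∃ (D : ℕ) (G : ℕ → MvPolynomial (Fin k) ℤ),
      ∑ j ∈ Finset.range (D + 2), aeval u (G j) * y ^ j = 0 ∧ aeval u (G (D + 1)) ≠ 0 := by
  classical
  obtain ⟨p, hp, hp0⟩ := ha
  have hmem : ∀ j, ∃ N : ℕ, N ≠ 0 ∧ ∃ G : MvPolynomial (Fin k) ℤ,
      (N : L) * (p.coeff j : L) = aeval u G := by
    intro j
    have h1 : (p.coeff j : L) ∈ (aeval u : MvPolynomial (Fin k) ℚ →ₐ[ℚ] L).range := by
      rw [← Algebra.adjoin_range_eq_range_aeval]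
      exact (p.coeff j).2
    obtain ⟨F, hF⟩ := h1
    obtain ⟨N, hN, G, hG⟩ := clear_den F
    refine ⟨N, hN, G, ?_⟩
    rw [← aeval_map_int, ← hG, map_mul, aeval_C, ← hF]
    simp
  choose N hN G hG using hmem
  have hsum : ∑ j ∈ Finset.range (p.natDegree + 1), (p.coeff j : L) * y ^ j = 0 := by
    rw [Polynomial.aeval_eq_sum_range] at hp0
    rw [← hp0]
    rfl
  have hlead : (p.coeff p.natDegree : L) ≠ 0 := by
    intro h
    apply hp
    rw [← Polynomial.leadingCoeff_eq_zero]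
    exact Subtype.ext h
  obtain ⟨D, hD⟩ : ∃ D, p.natDegree = D + 1 := by
    apply Nat.exists_eq_succ_of_ne_zero
    intro h
    rw [h] at hsum hlead
    simp only [zero_add, Finset.range_one, Finset.sum_singleton, pow_zero, mul_one] at hsum
    exact hlead hsum
  set M : L := ∏ i ∈ Finset.range (p.natDegree + 1), (N i : L) with hM
  have hM0 : M ≠ 0 := Finset.prod_ne_zero_iff.mpr fun i _ => by exact_mod_cast hN i
  have key : ∀ j ∈ Finset.range (p.natDegree + 1),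
      aeval u (C (∏ i ∈ (Finset.range (p.natDegree + 1)).erase j, (N i : ℤ)) * G j) =
        M * (p.coeff j : L) := by
    intro j hj
    rw [map_mul, aeval_C, ← hG j, hM, ← Finset.mul_prod_erase _ _ hj]
    simp only [eq_intCast, Int.cast_prod, Int.cast_natCast, algebraMap_int_eq]
    ring
  refine ⟨D, fun j => C (∏ i ∈ (Finset.range (p.natDegree + 1)).erase j, (N i : ℤ)) * G j,
    ?_, ?_⟩
  · have h2 : D + 2 = p.natDegree + 1 := by omega
    rw [h2, Finset.sum_congr rfl (fun j hj => by rw [key j hj])]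
    simp only [mul_assoc]
    rw [← Finset.mul_sum, hsum, mul_zero]
  · have h3 : D + 1 ∈ Finset.range (p.natDegree + 1) := Finset.mem_range.mpr (by omega)
    show aeval u (C (∏ i ∈ (Finset.range (p.natDegree + 1)).erase (D + 1), (N i : ℤ)) *
      G (D + 1)) ≠ 0
    rw [key _ h3, ← hD]
    exact mul_ne_zero hM0 hlead

theorem avg_bd {n k : ℕ} (S : Sq n) (ν : ℕ) (γ : Fin k → Fin n → ℤ) (c : ℝ) :
    (S.W ν).avg (fun w => c * ((S.W ν).arch w + ∑ j, |(S.W ν).lg w (mm γ (S.p ν) j)|)) =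
      c * (1 + ∑ j, S.ht (rv (γ j)) ν) := by
  rw [Places.avg_mul, Places.avg_add, Places.avg_sum]
  congr 2
  · exact (S.W ν).avg_arch
  · refine Finset.sum_congr rfl fun j _ => ?_
    simp only [Sq.ht, dot_lam]
    rfl

theorem ht_sum_nonneg {n k : ℕ} (S : Sq n) (ν : ℕ) (γ : Fin k → Fin n → ℤ) :
    0 ≤ ∑ j, S.ht (rv (γ j)) ν := Finset.sum_nonneg fun j _ => ht_nonneg S _ ν

theorem mem_R {n k : ℕ} (S : Sq n) (ν : ℕ) (γ : Fin k → Fin n → ℤ)
    (G : MvPolynomial (Fin k) ℤ) : aeval (mm γ (S.p ν)) G ∈ S.R ν := by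
  induction G using MvPolynomial.induction_on with
  | C q =>
    rw [aeval_C]
    simp only [algebraMap_int_eq, eq_intCast]
    exact intCast_mem _ _
  | add p q hp hq =>
    rw [map_add]
    exact (S.R ν).add_mem hp hq
  | mul_X p i hp =>
    rw [map_mul, aeval_X]
    exact (S.R ν).mul_mem hp (mn_mem (S.mem ν) (S.inv ν) (γ i))

/-- the bound at a place for a root of a polynomial -/
theorem root_bd {K : Type} [Field K] {R : Subring K} (P : Places K R) (w : P.Pl) (D : ℕ)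
    (c : ℕ → K) (y : K) (hy : y ≠ 0) (h : ∑ j ∈ Finset.range (D + 2), c j * y ^ j = 0)
    (hc : c (D + 1) ≠ 0) (B : ℝ) (hB : 0 ≤ B)
    (hb : ∀ j ∈ Finset.range (D + 2), P.lg w (c j) ≤ B) :
    max 0 (P.lg w y) ≤ B + P.arch w * Real.log (D + 2) - P.lg w (c (D + 1)) := by
  have h1 : P.lg w (c (D + 1)) ≤ B := hb _ (Finset.mem_range.mpr (by omega))
  have hl : 0 ≤ Real.log ((D : ℝ) + 2) := Real.log_nonneg (by
    have : (0 : ℝ) ≤ D := Nat.cast_nonneg D
    linarith)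
  have h2 : 0 ≤ P.arch w * Real.log ((D : ℝ) + 2) := mul_nonneg (P.arch_nonneg w) hl
  apply max_le
  · linarith
  rcases le_or_gt (P.lg w y) 0 with h3 | h3
  · linarith
  have h4 : c (D + 1) * y = -∑ j ∈ Finset.range (D + 1), c j * (y⁻¹) ^ (D - j) := by
    rw [Finset.sum_range_succ] at h
    have h5 : c (D + 1) * y * y ^ D = -∑ j ∈ Finset.range (D + 1), c j * y ^ j := by
      rw [mul_assoc, ← pow_succ']
      exact eq_neg_of_add_eq_zero_right h
    have h6 : y ^ D ≠ 0 := pow_ne_zero _ hy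
    apply mul_right_cancel₀ h6
    rw [h5, neg_mul, Finset.sum_mul]
    congr 1
    refine Finset.sum_congr rfl fun j hj => ?_
    have h7 : j ≤ D := by
      have := Finset.mem_range.mp hj
      omega
    rw [mul_assoc]
    congr 1
    rw [← Nat.sub_add_cancel h7, Nat.add_sub_cancel, pow_add, ← mul_assoc, ← mul_pow,
      inv_mul_cancel₀ hy, one_pow, one_mul]
  have h8 : P.lg w (c (D + 1) * y) ≤ B + P.arch w * Real.log (D + 2) := by
    rw [h4, P.lg_neg]
    refine (sum_bd P w (Finset.range (D + 1)) _ B hB ?_).trans ?_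
    · intro j hj hne
      have hcj : c j ≠ 0 := left_ne_zero_of_mul hne
      rw [P.lg_mul w hcj (pow_ne_zero _ (inv_ne_zero hy)), P.lg_pow, P.lg_inv]
      have h9 : P.lg w (c j) ≤ B := hb j (Finset.mem_range.mpr (by
        have := Finset.mem_range.mp hj
        omega))
      have h10 : 0 ≤ ((D - j : ℕ) : ℝ) * P.lg w y := mul_nonneg (Nat.cast_nonneg _) h3.le
      linarith
    · apply le_of_eq
      rw [Finset.card_range]
      push_cast
      ring_nf
  rw [P.lg_mul w hc hy] at h8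
  linarith

end HtAlg

theorem ht_alg {n : ℕ} {𝓤 : Ultrafilter ℕ} {S : Sq n} {L : Type} [Field L] [CharZero L]
    {x : Fin n → L} (hx : ∀ i, x i ≠ 0) (hG : Gn 𝓤 S x) {k : ℕ} (γ : Fin k → Fin n → ℤ)
    (a : Fin n → ℤ)
    (ha : IsAlgebraic (Algebra.adjoin ℚ (Set.range (mm γ x))) (mn x a)) :
    ∃ C : ℝ, 0 ≤ C ∧ ∀ᶠ ν in (𝓤 : Filter ℕ),
      S.ht (rv a) ν ≤ C * (1 + ∑ j, S.ht (rv (γ j)) ν) := by
  classical
  obtain ⟨D, G, hsum, hlead⟩ := HtAlg.exists_rel (mm γ x) (mn x a) ha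
  choose C0 hC0 hC using fun j => poly_bd (G j)
  set C1 : ℝ := ∑ j ∈ Finset.range (D + 2), C0 j with hC1
  have hC1n : 0 ≤ C1 := Finset.sum_nonneg fun j _ => hC0 j
  have hl : 0 ≤ Real.log ((D : ℝ) + 2) := Real.log_nonneg (by
    have : (0 : ℝ) ≤ D := Nat.cast_nonneg D
    linarith)
  refine ⟨2 * (C1 + Real.log ((D : ℝ) + 2)), by positivity, ?_⟩
  let β : Fin k ⊕ Unit → Fin n → ℤ := Sum.elim γ fun _ => a
  let F : MvPolynomial (Fin k ⊕ Unit) ℤ :=
    ∑ j ∈ Finset.range (D + 2), rename Sum.inl (G j) * X (Sum.inr ()) ^ j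
  have hF : ∀ (K : Type) [Field K] (z : Fin n → K),
      aeval (fun i => mn z (β i)) F =
        ∑ j ∈ Finset.range (D + 2), aeval (mm γ z) (G j) * mn z a ^ j := by
    intro K _ z
    simp only [F, map_sum, map_mul, map_pow, aeval_X, aeval_rename]
    rfl
  have e1 := (Gn.iff_mn hx hG β F).mpr (by rw [hF]; exact hsum)
  have e2 := Gn.ne_mn hx hG γ (G (D + 1)) hlead
  filter_upwards [e1, e2] with ν h1 h2
  rw [hF] at h1
  have hy : mn (S.p ν) a ≠ 0 := mn_ne_zero (S.ne ν) a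
  set Φ : (S.W ν).Pl → ℝ := fun w =>
    C1 * ((S.W ν).arch w + ∑ j, |(S.W ν).lg w (mm γ (S.p ν) j)|) with hΦ
  have hΦn : ∀ w, 0 ≤ Φ w := fun w =>
    mul_nonneg hC1n (add_nonneg ((S.W ν).arch_nonneg w)
      (Finset.sum_nonneg fun j _ => abs_nonneg _))
  have hb : ∀ w, ∀ j ∈ Finset.range (D + 2),
      (S.W ν).lg w (aeval (mm γ (S.p ν)) (G j)) ≤ Φ w := by
    intro w j hj
    refine (hC j (S.K ν) (S.R ν) (S.W ν) w (mm γ (S.p ν))
      (fun l => mn_ne_zero (S.ne ν) (γ l))).trans ?_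
    refine mul_le_mul_of_nonneg_right ?_ (add_nonneg ((S.W ν).arch_nonneg w)
      (Finset.sum_nonneg fun j _ => abs_nonneg _))
    exact Finset.single_le_sum (f := C0) (fun i _ => hC0 i) hj
  have h3 : ∀ w, max 0 ((S.W ν).lg w (mn (S.p ν) a)) ≤
      (Φ w + Real.log ((D : ℝ) + 2) * (S.W ν).arch w) -
        (S.W ν).lg w (aeval (mm γ (S.p ν)) (G (D + 1))) := by
    intro w
    have := HtAlg.root_bd (S.W ν) w D (fun j => aeval (mm γ (S.p ν)) (G j)) (mn (S.p ν) a) hy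
      h1 h2 (Φ w) (hΦn w) (hb w)
    rw [mul_comm (Real.log ((D : ℝ) + 2))]
    exact this
  have h4 := (S.W ν).avg_mono h3
  rw [Places.avg_sub, Places.avg_add, hΦ, HtAlg.avg_bd, Places.avg_const_arch] at h4
  have h5 : 0 ≤ (S.W ν).avg fun w => (S.W ν).lg w (aeval (mm γ (S.p ν)) (G (D + 1))) :=
    (S.W ν).avg_lg_nonneg (HtAlg.mem_R S ν γ _) h2
  rw [ht_eq_two_mul]
  have h6 := HtAlg.ht_sum_nonneg S ν γ
  have h7 : 0 ≤ Real.log ((D : ℝ) + 2) * ∑ j, S.ht (rv (γ j)) ν := mul_nonneg hl h6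
  nlinarith [h4, h5, h7]

/-- two-term dominance: at every place two of the monomials of a relation have almost the same
absolute value -/
theorem two_term {n : ℕ} {𝓤 : Ultrafilter ℕ} {S : Sq n} {L : Type} [Field L] [CharZero L]
    {x : Fin n → L} (hx : ∀ i, x i ≠ 0) (hG : Gn 𝓤 S x) {k r : ℕ} (γ : Fin k → Fin n → ℤ)
    (I : Finset (Fin r → ℕ)) (hI : I.Nonempty) (δ : Fin r → Fin n → ℤ)
    (G : (Fin r → ℕ) → MvPolynomial (Fin k) ℤ) (hGne : ∀ e ∈ I, aeval (mm γ x) (G e) ≠ 0)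
    (hrel : ∑ e ∈ I, aeval (mm γ x) (G e) * ∏ i, mn x (δ i) ^ e i = 0) :
    ∃ C : ℝ, 0 ≤ C ∧ ∀ᶠ ν in (𝓤 : Filter ℕ), ∃ f : (S.W ν).Pl → ℝ, (∀ w, 0 ≤ f w) ∧
      (S.W ν).avg f ≤ C * (1 + ∑ j, S.ht (rv (γ j)) ν) ∧
      ∀ w, ∃ e ∈ I, ∃ e' ∈ I, e ≠ e' ∧
        |rv (∑ i, ((e i : ℤ) - e' i) • δ i) ⬝ᵥ S.lam ν w| ≤ f w := by
  classical
  choose C0 hC0 hC using fun e => poly_bd (G e)
  set C1 : ℝ := ∑ e ∈ I, 2 * C0 e with hC1
  have hC1n : 0 ≤ C1 := Finset.sum_nonneg fun j _ => mul_nonneg zero_le_two (hC0 j)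
  have hl : 0 ≤ Real.log (I.card : ℝ) := Real.log_natCast_nonneg _
  refine ⟨C1 + Real.log (I.card : ℝ), by positivity, ?_⟩
  let β : Fin k ⊕ Fin r → Fin n → ℤ := Sum.elim γ δ
  let F : MvPolynomial (Fin k ⊕ Fin r) ℤ :=
    ∑ e ∈ I, rename Sum.inl (G e) * ∏ i, X (Sum.inr i) ^ e i
  have hF : ∀ (K : Type) [Field K] (z : Fin n → K),
      aeval (fun i => mn z (β i)) F =
        ∑ e ∈ I, aeval (mm γ z) (G e) * ∏ i, mn z (δ i) ^ e i := by
    intro K _ z
    simp only [F, map_sum, map_mul, map_pow, map_prod, aeval_X, aeval_rename]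
    rfl
  have e1 := (Gn.iff_mn hx hG β F).mpr (by rw [hF]; exact hrel)
  have e2 : ∀ᶠ ν in (𝓤 : Filter ℕ), ∀ e ∈ I, aeval (mm γ (S.p ν)) (G e) ≠ 0 := by
    rw [Filter.eventually_all_finset]
    intro e he
    exact Gn.ne_mn hx hG γ (G e) (hGne e he)
  filter_upwards [e1, e2] with ν h1 h2
  rw [hF] at h1
  have hp := S.ne ν
  have hprod : ∀ e : Fin r → ℕ,
      ∏ i, mn (S.p ν) (δ i) ^ e i = mn (S.p ν) (∑ i, (e i : ℤ) • δ i) := by
    intro e
    rw [mn_sum hp]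
    refine Finset.prod_congr rfl fun i _ => ?_
    rw [mn_zsmul hp, zpow_natCast]
  refine ⟨fun w => (∑ e ∈ I, |(S.W ν).lg w (aeval (mm γ (S.p ν)) (G e))|) +
    Real.log (I.card : ℝ) * (S.W ν).arch w, ?_, ?_, ?_⟩
  · intro w
    exact add_nonneg (Finset.sum_nonneg fun e _ => abs_nonneg _)
      (mul_nonneg hl ((S.W ν).arch_nonneg w))
  · rw [Places.avg_add, Places.avg_sum, Places.avg_const_arch]
    have h3 : ∀ e ∈ I, (S.W ν).avg (fun w => |(S.W ν).lg w (aeval (mm γ (S.p ν)) (G e))|) ≤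
        2 * C0 e * (1 + ∑ j, S.ht (rv (γ j)) ν) := by
      intro e he
      refine (avg_abs_le (S.W ν) (HtAlg.mem_R S ν γ (G e)) (h2 e he)
        (fun w => C0 e * ((S.W ν).arch w + ∑ j, |(S.W ν).lg w (mm γ (S.p ν) j)|)) ?_ ?_).trans ?_
      · intro w
        exact mul_nonneg (hC0 e) (add_nonneg ((S.W ν).arch_nonneg w)
          (Finset.sum_nonneg fun j _ => abs_nonneg _))
      · intro w
        exact hC e (S.K ν) (S.R ν) (S.W ν) w (mm γ (S.p ν))
          (fun l => mn_ne_zero (S.ne ν) (γ l))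
      · rw [HtAlg.avg_bd, mul_assoc]
    have h4 := Finset.sum_le_sum h3
    rw [← Finset.sum_mul] at h4
    have h6 := HtAlg.ht_sum_nonneg S ν γ
    have h7 : 0 ≤ Real.log (I.card : ℝ) * ∑ j, S.ht (rv (γ j)) ν := mul_nonneg hl h6
    calc _ ≤ C1 * (1 + ∑ j, S.ht (rv (γ j)) ν) + Real.log (I.card : ℝ) :=
          add_le_add h4 le_rfl
      _ ≤ _ := by linarith
  · intro w
    obtain ⟨e, he, e', he', hne, hle⟩ := two_terms (S.W ν) w I
      (fun e => aeval (mm γ (S.p ν)) (G e) * ∏ i, mn (S.p ν) (δ i) ^ e i) hI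
      (fun e he => mul_ne_zero (h2 e he) (by rw [hprod]; exact mn_ne_zero hp _)) h1
    refine ⟨e, he, e', he', hne, ?_⟩
    have h8 : ∑ i, ((e i : ℤ) - e' i) • δ i = ∑ i, (e i : ℤ) • δ i - ∑ i, (e' i : ℤ) • δ i := by
      rw [← Finset.sum_sub_distrib]
      exact Finset.sum_congr rfl fun i _ => sub_smul _ _ _
    rw [dot_lam, h8, mn_sub hp, (S.W ν).lg_div w (mn_ne_zero hp _) (mn_ne_zero hp _)]
    simp only [hprod] at hle
    rw [(S.W ν).lg_mul w (h2 e he) (mn_ne_zero hp _),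
      (S.W ν).lg_mul w (h2 e' he') (mn_ne_zero hp _)] at hle
    have h9 : |(S.W ν).lg w (aeval (mm γ (S.p ν)) (G e))| +
        |(S.W ν).lg w (aeval (mm γ (S.p ν)) (G e'))| ≤
        ∑ e ∈ I, |(S.W ν).lg w (aeval (mm γ (S.p ν)) (G e))| := by
      rw [← Finset.sum_pair (f := fun e => |(S.W ν).lg w (aeval (mm γ (S.p ν)) (G e))|) hne]
      refine Finset.sum_le_sum_of_subset_of_nonneg ?_ fun i _ _ => abs_nonneg _
      intro i hi
      simp only [Finset.mem_insert, Finset.mem_singleton] at hi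
      rcases hi with rfl | rfl
      · exact he
      · exact he'
    have h10 := abs_le.mp hle
    have h11 := neg_abs_le ((S.W ν).lg w (aeval (mm γ (S.p ν)) (G e)))
    have h12 := le_abs_self ((S.W ν).lg w (aeval (mm γ (S.p ν)) (G e)))
    have h13 := neg_abs_le ((S.W ν).lg w (aeval (mm γ (S.p ν)) (G e')))
    have h14 := le_abs_self ((S.W ν).lg w (aeval (mm γ (S.p ν)) (G e')))
    beta_reduce
    rw [mul_comm (Real.log (I.card : ℝ)), abs_le]
    constructor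
    · linarith [h10.1]
    · linarith [h10.2]

end Pool.Agent.SD
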