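import Mathlib
import Pool.Agent.Lib.MP_c95b3b_ag_SD.Defs2
import Pool.Agent.Lib.MP_c95b3b_ag_SD.Sel
import Pool.Agent.Lib.MP_c95b3b_ag_SD.AdRel
import Pool.Agent.Lib.MP_c95b3b_ag_SD.HtAlg

set_option autoImplicit false

/-! Project SD (MP_c95b3b_ag), module GA: characters of height `O(s)`, characters of maximal
growth. -/

namespace Pool.Agent.SD

open MvPolynomial Filter Topology Module Pool.Agent.L3

section
variable {L : Type} [Field L] [CharZero L] [Algebra ℂ L] {n : ℕ} {𝓤 : Ultrafilter ℕ} {S : Sq n}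
  {x : Fin n → L}

/-- characters which are algebraic over characters of height `O(s)` have height `O(s)` -/
theorem full_LO (hx : ∀ i, x i ≠ 0) (hAD : AD x) (hG : Gn 𝓤 S x) (s : ℕ → ℝ) (c : ℝ)
    (hc : 0 < c) (hs : ∀ᶠ ν in (𝓤 : Filter ℕ), c ≤ s ν) : Full x (LO 𝓤 S s) := by
  intro a ha
  obtain ⟨τ, α, b, -, hα, -, hli, hspan⟩ :=
    exists_sel x ⊤ (LO 𝓤 S s) (fun _ _ => Submodule.mem_top)
  have hli' : LinearIndependent L (fun j => om x (rv (α j))) :=
    hli.comp Sum.inl Sum.inl_injective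
  have ha' : om x (rv a) ∈ Submodule.span L (Set.range fun j => om x (rv (α j))) := by
    refine (Submodule.span_le.2 ?_) ha
    rintro _ ⟨_, ⟨a', ha', rfl⟩, rfl⟩
    exact hspan a' ha'
  obtain ⟨C, hC, h1⟩ := ht_alg hx hG α a (isAlgebraic_mn hx hAD hli' a ha')
  choose D hD using fun j => mem_LO.1 (hα j)
  refine mem_LO.2 ⟨C * (1 / c + ∑ j, |D j|), ?_⟩
  filter_upwards [h1, hs, eventually_all.2 hD] with ν h2 h3 h4
  have hs0 : 0 < s ν := hc.trans_le h3
  have h5 : 1 ≤ 1 / c * s ν := by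
    rw [one_div, inv_mul_eq_div, le_div_iff₀ hc, one_mul]
    exact h3
  have h6 : ∑ j, S.ht (rv (α j)) ν ≤ (∑ j, |D j|) * s ν := by
    rw [Finset.sum_mul]
    exact Finset.sum_le_sum fun j _ => (h4 j).trans
      (mul_le_mul_of_nonneg_right (le_abs_self _) hs0.le)
  calc S.ht (rv a) ν ≤ C * (1 + ∑ j, S.ht (rv (α j)) ν) := h2
    _ ≤ C * ((1 / c + ∑ j, |D j|) * s ν) := by
        refine mul_le_mul_of_nonneg_left ?_ hC
        rw [add_mul]
        exact add_le_add h5 h6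
    _ = C * (1 / c + ∑ j, |D j|) * s ν := by ring

namespace GrowA

/-- among finitely many characters one has the largest height -/
theorem exists_max (𝓤 : Ultrafilter ℕ) (S : Sq n) (G : Finset (Fin n → ℤ)) (hG : G.Nonempty) :
    ∃ a ∈ G, ∀ b ∈ G, ∀ᶠ ν in (𝓤 : Filter ℕ), S.ht (rv b) ν ≤ S.ht (rv a) ν := by
  classical
  induction hG using Finset.Nonempty.cons_induction with
  | singleton a =>
    refine ⟨a, Finset.mem_singleton_self a, fun b hb => ?_⟩
    rw [Finset.mem_singleton.1 hb]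
    exact Eventually.of_forall fun ν => le_refl _
  | cons c G hc hG ih =>
    obtain ⟨a, ha, h1⟩ := ih
    by_cases h2 : ∀ᶠ ν in (𝓤 : Filter ℕ), S.ht (rv c) ν ≤ S.ht (rv a) ν
    · refine ⟨a, Finset.mem_cons_of_mem ha, fun b hb => ?_⟩
      rcases Finset.mem_cons.1 hb with rfl | hb
      · exact h2
      · exact h1 b hb
    · rw [← Ultrafilter.eventually_not] at h2
      refine ⟨c, Finset.mem_cons_self c G, fun b hb => ?_⟩
      rcases Finset.mem_cons.1 hb with rfl | hb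
      · exact Eventually.of_forall fun ν => le_refl _
      · filter_upwards [h2, h1 b hb] with ν h3 h4
        exact h4.trans (not_le.1 h3).le

end GrowA

/-- a character of maximal growth -/
theorem exists_max_growth (𝓤 : Ultrafilter ℕ) (S : Sq n) (Λ : Submodule ℤ (Fin n → ℤ))
    (hΛ : ¬ Λ ≤ LO 𝓤 S (fun _ => 1)) : ∃ a ∈ Λ, a ∉ LO 𝓤 S (fun _ => 1) ∧
      Tendsto (S.ht (rv a)) 𝓤 atTop ∧ Λ ≤ LO 𝓤 S (S.ht (rv a)) := by
  classical
  obtain ⟨G, hG⟩ : Λ.FG := IsNoetherian.noetherian Λ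
  have hGn : G.Nonempty := by
    rw [Finset.nonempty_iff_ne_empty]
    rintro rfl
    apply hΛ
    rw [← hG, Finset.coe_empty, Submodule.span_empty]
    exact bot_le
  obtain ⟨a, ha, hmax⟩ := GrowA.exists_max 𝓤 S G hGn
  have haΛ : a ∈ Λ := by
    rw [← hG]
    exact Submodule.subset_span ha
  have haL : a ∉ LO 𝓤 S (fun _ => 1) := by
    intro h
    obtain ⟨C, hC⟩ := mem_LO.1 h
    apply hΛ
    rw [← hG]
    refine Submodule.span_le.2 fun b hb => ?_
    refine mem_LO.2 ⟨C, ?_⟩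
    filter_upwards [hC, hmax b hb] with ν h1 h2
    exact h2.trans h1
  refine ⟨a, haΛ, haL, ?_, ?_⟩
  · rw [tendsto_atTop]
    intro C
    have h1 : ¬ ∀ᶠ ν in (𝓤 : Filter ℕ), S.ht (rv a) ν ≤ C * (fun _ => (1 : ℝ)) ν :=
      fun h => haL (mem_LO.2 ⟨C, h⟩)
    rw [← Ultrafilter.eventually_not] at h1
    filter_upwards [h1] with ν h2
    rw [mul_one] at h2
    exact (not_le.1 h2).le
  · conv_lhs => rw [← hG]
    refine Submodule.span_le.2 fun b hb => ?_
    refine mem_LO.2 ⟨1, ?_⟩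
    filter_upwards [hmax b hb] with ν h1
    rw [one_mul]
    exact h1

end

end Pool.Agent.SD
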