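import Mathlib
import Pool.Agent.Lib.MP_c95b3b_ag_SD.Map

set_option autoImplicit false

/-! Project SD (MP_c95b3b_ag), module HU: upper bound for the Hilbert function. -/

namespace Pool.Agent.SD

open Module

namespace Hilb

section
variable {k L : Type} [Field k] [Field L] [Algebra k L] {τ : ℕ}

/-- the monomial in the `t l` -/
noncomputable def P (t : Fin τ → L) (γ : Fin τ → ℕ) : L := ∏ l, t l ^ γ l

/-- the exponents at most `δ` -/
def Bx (τ δ : ℕ) : Finset (Fin τ → ℕ) := Fintype.piFinset fun _ => Finset.range (δ + 1)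

theorem mem_Bx {δ : ℕ} {γ : Fin τ → ℕ} : γ ∈ Bx τ δ ↔ ∀ l, γ l ≤ δ := by
  simp only [Bx, Fintype.mem_piFinset, Finset.mem_range, Nat.lt_succ_iff]

/-- polynomials in the `t l` of degree at most `δ` in each variable -/
noncomputable def Ad (k : Type) {L : Type} [Field k] [Field L] [Algebra k L] {τ : ℕ}
    (t : Fin τ → L) (δ : ℕ) : Submodule k L :=
  Submodule.span k (P t '' (Bx τ δ : Set (Fin τ → ℕ)))

theorem Ad_mono (t : Fin τ → L) {δ δ' : ℕ} (h : δ ≤ δ') : Ad k t δ ≤ Ad k t δ' := by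
  refine Submodule.span_mono (Set.image_mono fun γ hγ => ?_)
  rw [Finset.mem_coe, mem_Bx] at hγ ⊢
  exact fun l => (hγ l).trans h

theorem Ad_mul (t : Fin τ → L) {δ δ' : ℕ} {a b : L} (ha : a ∈ Ad k t δ) (hb : b ∈ Ad k t δ') :
    a * b ∈ Ad k t (δ + δ') := by
  have h : a * b ∈ Ad k t δ * Ad k t δ' := Submodule.mul_mem_mul ha hb
  rw [Ad, Ad, Submodule.span_mul_span] at h
  refine Submodule.span_mono ?_ h
  rintro _ ⟨_, ⟨γ, hγ, rfl⟩, _, ⟨γ', hγ', rfl⟩, rfl⟩
  refine ⟨γ + γ', ?_, ?_⟩
  · rw [Finset.mem_coe, mem_Bx] at hγ hγ' ⊢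
    exact fun l => Nat.add_le_add (hγ l) (hγ' l)
  · simp only [P, Pi.add_apply, pow_add, Finset.prod_mul_distrib]

theorem one_mem (t : Fin τ → L) (δ : ℕ) : (1 : L) ∈ Ad k t δ := by
  refine Submodule.subset_span ⟨0, ?_, ?_⟩
  · rw [Finset.mem_coe, mem_Bx]
    exact fun l => Nat.zero_le _
  · simp [P]

theorem Ad_pow (t : Fin τ → L) {δ : ℕ} {a : L} (ha : a ∈ Ad k t δ) (m : ℕ) :
    a ^ m ∈ Ad k t (δ * m) := by
  induction m with
  | zero => simpa using one_mem t _
  | succ m ih => rw [pow_succ, Nat.mul_succ]; exact Ad_mul t ih ha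

theorem Ad_prod {ι : Type} (t : Fin τ → L) (s : Finset ι) (δ : ι → ℕ) (a : ι → L)
    (ha : ∀ i ∈ s, a i ∈ Ad k t (δ i)) : ∏ i ∈ s, a i ∈ Ad k t (∑ i ∈ s, δ i) := by
  classical
  induction s using Finset.induction_on with
  | empty => simpa using one_mem t _
  | insert i s hi ih =>
    rw [Finset.prod_insert hi, Finset.sum_insert hi]
    exact Ad_mul t (ha i (Finset.mem_insert_self i s))
      (ih fun j hj => ha j (Finset.mem_insert_of_mem hj))

theorem Ad_exists (t : Fin τ → L) {a : L} (ha : a ∈ Algebra.adjoin k (Set.range t)) :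
    ∃ δ, a ∈ Ad k t δ := by
  classical
  induction ha using Algebra.adjoin_induction with
  | mem x hx =>
    obtain ⟨l, rfl⟩ := hx
    refine ⟨1, Submodule.subset_span ⟨Pi.single l 1, ?_, ?_⟩⟩
    · rw [Finset.mem_coe, mem_Bx]
      intro j
      by_cases h : j = l
      · subst h; simp
      · simp [h]
    · rw [P, Finset.prod_eq_single l]
      · simp
      · intro j _ h; simp [h]
      · intro h; exact absurd (Finset.mem_univ l) h
  | algebraMap r =>
    refine ⟨0, ?_⟩
    rw [Algebra.algebraMap_eq_smul_one]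
    exact Submodule.smul_mem _ _ (one_mem t _)
  | add x y _ _ hx hy =>
    obtain ⟨δ, h⟩ := hx
    obtain ⟨δ', h'⟩ := hy
    exact ⟨max δ δ', Submodule.add_mem _ (Ad_mono t (le_max_left _ _) h)
      (Ad_mono t (le_max_right _ _) h')⟩
  | mul x y _ _ hx hy =>
    obtain ⟨δ, h⟩ := hx
    obtain ⟨δ', h'⟩ := hy
    exact ⟨δ + δ', Ad_mul t h h'⟩

/-- the relation of an algebraic element -/
theorem rel (t : Fin τ → L) {z : L} (hz : IsAlgebraic (Algebra.adjoin k (Set.range t)) z) :
    ∃ (D δ : ℕ) (c : L) (q : ℕ → L), 1 ≤ D ∧ c ≠ 0 ∧ c ∈ Ad k t δ ∧ (∀ j, q j ∈ Ad k t δ) ∧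
      c * z ^ D = ∑ j ∈ Finset.range D, q j * z ^ j := by
  obtain ⟨p, hp, hpz⟩ := hz
  have hinj : ∀ a : Algebra.adjoin k (Set.range t), algebraMap _ L a = 0 → a = 0 := by
    intro a ha
    exact Subtype.ext ha
  have hD : 1 ≤ p.natDegree := by
    rcases Nat.eq_zero_or_pos p.natDegree with h | h
    · exfalso
      rw [Polynomial.eq_C_of_natDegree_eq_zero h, Polynomial.aeval_C] at hpz
      have := hinj _ hpz
      apply hp
      rw [Polynomial.eq_C_of_natDegree_eq_zero h, this, Polynomial.C_0]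
    · exact h
  have hex : ∀ j, ∃ δ, ((p.coeff j : Algebra.adjoin k (Set.range t)) : L) ∈ Ad k t δ :=
    fun j => Ad_exists t (p.coeff j).2
  choose δ hδ using hex
  have hδ' : ∀ j, ((p.coeff j : Algebra.adjoin k (Set.range t)) : L) ∈
      Ad k t (∑ i ∈ Finset.range (p.natDegree + 1), δ i) := by
    intro j
    by_cases hj : j < p.natDegree + 1
    · exact Ad_mono t (Finset.single_le_sum (f := δ) (fun _ _ => Nat.zero_le _)
        (Finset.mem_range.mpr hj)) (hδ j)
    · rw [Polynomial.coeff_eq_zero_of_natDegree_lt (by omega)]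
      exact Submodule.zero_mem _
  refine ⟨p.natDegree, _, ((p.leadingCoeff : Algebra.adjoin k (Set.range t)) : L),
    fun j => -((p.coeff j : Algebra.adjoin k (Set.range t)) : L), hD, ?_, hδ' _,
    fun j => Submodule.neg_mem _ (hδ' j), ?_⟩
  · intro h
    exact hp (Polynomial.leadingCoeff_eq_zero.mp (Subtype.ext h))
  · rw [Polynomial.aeval_eq_sum_range, Finset.sum_range_succ] at hpz
    have h1 : ∀ j, p.coeff j • z ^ j =
        ((p.coeff j : Algebra.adjoin k (Set.range t)) : L) * z ^ j := fun j => rfl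
    simp only [h1] at hpz
    have h2 := eq_neg_of_add_eq_zero_right hpz
    rw [Polynomial.leadingCoeff, h2, ← Finset.sum_neg_distrib]
    exact Finset.sum_congr rfl fun j _ => by ring

/-- powers of an algebraic element -/
theorem pow_rel (t : Fin τ → L) {z c : L} {D δ : ℕ} {q : ℕ → L} (hD : 1 ≤ D)
    (hc : c ∈ Ad k t δ) (hq : ∀ j, q j ∈ Ad k t δ)
    (h : c * z ^ D = ∑ j ∈ Finset.range D, q j * z ^ j) (a : ℕ) :
    ∃ p : ℕ → L, (∀ j, p j ∈ Ad k t (δ * a)) ∧
      c ^ a * z ^ a = ∑ j ∈ Finset.range D, p j * z ^ j := by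
  induction a with
  | zero =>
    refine ⟨fun j => if j = 0 then 1 else 0, ?_, ?_⟩
    · intro j
      by_cases hj : j = 0
      · simpa [hj] using one_mem t _
      · simp [hj]
    · rw [Finset.sum_eq_single 0]
      · simp
      · intro j _ hj; simp [hj]
      · intro h0; exact absurd (Finset.mem_range.mpr hD) h0
  | succ a ih =>
    obtain ⟨p, hp, he⟩ := ih
    obtain ⟨D, rfl⟩ : ∃ E, D = E + 1 := ⟨D - 1, by omega⟩
    refine ⟨fun j => (if j = 0 then 0 else c * p (j - 1)) + p D * q j, ?_, ?_⟩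
    · intro j
      have hδ : δ * (a + 1) = δ + δ * a := by ring
      rw [hδ]
      refine Submodule.add_mem _ ?_ ?_
      · by_cases hj : j = 0
        · simp [hj]
        · simp only [hj, if_false]
          exact Ad_mul t hc (hp _)
      · rw [mul_comm (p D) (q j)]
        exact Ad_mul t (hq _) (hp _)
    · have h1 : c ^ (a + 1) * z ^ (a + 1) = c * z * (c ^ a * z ^ a) := by ring
      rw [h1, he, Finset.sum_range_succ, mul_add]
      have h2 : c * z * (p D * z ^ D) = p D * (c * z ^ (D + 1)) := by ring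
      rw [h2, h]
      have h3 : ∑ j ∈ Finset.range (D + 1),
          ((if j = 0 then 0 else c * p (j - 1)) + p D * q j) * z ^ j =
          ∑ j ∈ Finset.range (D + 1), (if j = 0 then 0 else c * p (j - 1)) * z ^ j +
          ∑ j ∈ Finset.range (D + 1), p D * (q j * z ^ j) := by
        rw [← Finset.sum_add_distrib]
        exact Finset.sum_congr rfl fun j _ => by ring
      rw [h3, ← Finset.mul_sum]
      congr 1
      rw [Finset.sum_range_succ', Finset.mul_sum]
      simp only [Nat.add_eq_zero_iff, one_ne_zero, and_false, if_false, Nat.add_sub_cancel,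
        if_true, zero_mul, add_zero]
      exact Finset.sum_congr rfl fun j _ => by ring

theorem main {ι : Type} [Fintype ι] (t : Fin τ → L) (z : ι → L)
    (halg : ∀ i, IsAlgebraic (Algebra.adjoin k (Set.range t)) (z i)) :
    ∃ C : L, C ≠ 0 ∧ ∃ K : ℕ, ∀ R : ℕ, 1 ≤ R → ∃ G : Finset L, G.card ≤ K * R ^ τ ∧
      ∀ e : ι → ℕ, (∀ i, e i ≤ R) → C ^ R * ∏ i, z i ^ e i ∈ Submodule.span k (G : Set L) := by
  classical
  choose D δ c q hD hc hcA hq hrel using fun i => rel t (halg i)
  refine ⟨∏ i, c i, Finset.prod_ne_zero_iff.mpr fun i _ => hc i,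
    ((∑ i, δ i) + 1) ^ τ * ∏ i, D i, fun R hR => ?_⟩
  refine ⟨((Bx τ ((∑ i, δ i) * R)) ×ˢ (Fintype.piFinset fun i => Finset.range (D i))).image
    fun u => P t u.1 * ∏ i, z i ^ u.2 i, ?_, ?_⟩
  · refine Finset.card_image_le.trans ?_
    rw [Finset.card_product, Bx, Fintype.card_piFinset, Fintype.card_piFinset]
    simp only [Finset.card_range, Finset.prod_const, Finset.card_univ, Fintype.card_fin]
    have h1 : (∑ i, δ i) * R + 1 ≤ ((∑ i, δ i) + 1) * R := by nlinarith
    calc ((∑ i, δ i) * R + 1) ^ τ * ∏ i, D i ≤ (((∑ i, δ i) + 1) * R) ^ τ * ∏ i, D i :=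
          Nat.mul_le_mul_right _ (Nat.pow_le_pow_left h1 _)
      _ = ((∑ i, δ i) + 1) ^ τ * (∏ i, D i) * R ^ τ := by rw [mul_pow]; ring
  · intro e he
    have hp : ∀ i, ∃ p : ℕ → L, (∀ j, p j ∈ Ad k t (δ i * R)) ∧
        c i ^ R * z i ^ e i = ∑ j ∈ Finset.range (D i), p j * z i ^ j := by
      intro i
      obtain ⟨p, hp, hpe⟩ := pow_rel t (hD i) (hcA i) (hq i) (hrel i) (e i)
      refine ⟨fun j => c i ^ (R - e i) * p j, fun j => ?_, ?_⟩
      · have h1 : δ i * R = δ i * (R - e i) + δ i * e i := by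
          rw [← Nat.mul_add, Nat.sub_add_cancel (he i)]
        rw [h1]
        exact Ad_mul t (Ad_pow t (hcA i) _) (hp j)
      · have h2 : c i ^ R * z i ^ e i = c i ^ (R - e i) * (c i ^ e i * z i ^ e i) := by
          rw [← mul_assoc, ← pow_add, Nat.sub_add_cancel (he i)]
        rw [h2, hpe, Finset.mul_sum]
        exact Finset.sum_congr rfl fun j _ => by ring
    choose p hpA hpe using hp
    rw [← Finset.prod_pow, ← Finset.prod_mul_distrib, Finset.prod_congr rfl fun i _ => hpe i,
      Finset.prod_univ_sum]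
    refine Submodule.sum_mem _ fun j hj => ?_
    rw [Finset.prod_mul_distrib]
    have h1 : ∏ i, p i (j i) ∈ Ad k t ((∑ i, δ i) * R) := by
      rw [Finset.sum_mul]
      exact Ad_prod t Finset.univ _ _ fun i _ => hpA i (j i)
    have h2 : ∀ y ∈ Ad k t ((∑ i, δ i) * R), y * ∏ i, z i ^ j i ∈ Submodule.span k
        ((((Bx τ ((∑ i, δ i) * R)) ×ˢ (Fintype.piFinset fun i => Finset.range (D i))).image
          fun u => P t u.1 * ∏ i, z i ^ u.2 i : Finset L) : Set L) := by
      intro y hy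
      induction hy using Submodule.span_induction with
      | mem y hy =>
        obtain ⟨γ, hγ, rfl⟩ := hy
        refine Submodule.subset_span ?_
        rw [Finset.mem_coe, Finset.mem_image]
        exact ⟨(γ, j), Finset.mem_product.mpr ⟨hγ, hj⟩, rfl⟩
      | zero => rw [zero_mul]; exact Submodule.zero_mem _
      | add y y' _ _ h h' => rw [add_mul]; exact Submodule.add_mem _ h h'
      | smul a y _ h => rw [smul_mul_assoc]; exact Submodule.smul_mem _ _ h
    exact h2 _ h1

end

end Hilb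

theorem hilb_upper {k L : Type} [Field k] [Field L] [Algebra k L] {n τ : ℕ} (x : Fin n → L)
    (hx : ∀ i, x i ≠ 0) (t : Fin τ → L)
    (halg : ∀ i, IsAlgebraic (Algebra.adjoin k (Set.range t)) (x i)) :
    ∃ C : ℕ, ∀ R : ℕ, 1 ≤ R →
      finrank k (Submodule.span k (mn x '' {a : Fin n → ℤ | ∀ i, |a i| ≤ (R : ℤ)})) ≤
        C * R ^ τ := by
  classical
  obtain ⟨C, hC, K, h⟩ := Hilb.main (k := k) t (Sum.elim x fun i => (x i)⁻¹) (by
    rintro (i | i)
    · exact halg i
    · exact (halg i).inv)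
  refine ⟨K, fun R hR => ?_⟩
  obtain ⟨G, hG, hmem⟩ := h R hR
  set V := Submodule.span k (mn x '' {a : Fin n → ℤ | ∀ i, |a i| ≤ (R : ℤ)}) with hV
  set f : L →ₗ[k] L := LinearMap.mulLeft k (C ^ R) with hf
  have hinj : Function.Injective f := by
    intro a b hab
    exact mul_left_cancel₀ (pow_ne_zero R hC) hab
  have hle : V.map f ≤ Submodule.span k (G : Set L) := by
    rw [hV, Submodule.map_span_le]
    rintro _ ⟨a, ha, rfl⟩
    have h1 := hmem (Sum.elim (fun i => (a i).toNat) fun i => (-a i).toNat) (by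
      rintro (i | i)
      · have := (abs_le.mp (ha i)).2
        simp only [Sum.elim_inl]
        omega
      · have := (abs_le.mp (ha i)).1
        simp only [Sum.elim_inr]
        omega)
    have h2 : ∏ i, (Sum.elim x fun i => (x i)⁻¹) i ^
        (Sum.elim (fun i => (a i).toNat) fun i => (-a i).toNat) i = mn x a := by
      rw [Fintype.prod_sum_type, ← Finset.prod_mul_distrib, mn]
      refine Finset.prod_congr rfl fun i _ => ?_
      simp only [Sum.elim_inl, Sum.elim_inr]
      rcases le_total 0 (a i) with h0 | h0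
      · rw [Int.toNat_of_nonpos (by omega : -a i ≤ 0), pow_zero, mul_one, ← zpow_natCast,
          Int.toNat_of_nonneg h0]
      · rw [Int.toNat_of_nonpos h0, pow_zero, one_mul, inv_pow, ← zpow_natCast,
          Int.toNat_of_nonneg (by omega : 0 ≤ -a i), zpow_neg, inv_inv]
    rw [h2] at h1
    exact h1
  have : FiniteDimensional k (Submodule.span k (G : Set L)) :=
    FiniteDimensional.span_finset k G
  calc finrank k V = finrank k (V.map f) :=
        (Submodule.equivMapOfInjective f hinj V).finrank_eq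
    _ ≤ finrank k (Submodule.span k (G : Set L)) := Submodule.finrank_mono hle
    _ ≤ G.card := finrank_span_finset_le_card G
    _ ≤ K * R ^ τ := hG

end Pool.Agent.SD
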