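import Mathlib
import Pool.Agent.Lib.MP_c95b3b_ag_SD.Map
import Pool.Agent.Lib.MP_c95b3b_ag_R.Lie
import Pool.Agent.Lib.MP_c95b3b_ag_R.Span

set_option autoImplicit false

/-! Project SD (MP_c95b3b_ag), module LA: linear Ax theorem. -/

namespace Pool.Agent.SD

open MvPolynomial Filter Topology Module Pool.Agent.L3

namespace LinAx

section

variable {L : Type} [Field L] [Algebra ℂ L] {n : ℕ}

/-- the derivations which are killed by the forms of `V` -/
def Dl (x : Fin n → L) (V : Submodule ℝ (Fin n → ℝ)) : Set (Derivation ℂ L L) :=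
  {D | ∀ b ∈ V, om x b D = 0}

/-- the constants of these derivations -/
def G (x : Fin n → L) (V : Submodule ℝ (Fin n → ℝ)) : IntermediateField ℂ L where
  carrier := {f | ∀ D ∈ Dl x V, D f = 0}
  mul_mem' := by
    intro a b ha hb D hD
    rw [Derivation.leibniz, ha D hD, hb D hD, smul_zero, smul_zero, add_zero]
  one_mem' := fun D _ => D.map_one_eq_zero
  add_mem' := by
    intro a b ha hb D hD
    rw [map_add, ha D hD, hb D hD, add_zero]
  zero_mem' := fun D _ => map_zero D
  algebraMap_mem' := fun r D _ => D.map_algebraMap r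
  inv_mem' := by
    intro a ha D hD
    rw [Derivation.leibniz_inv, ha D hD, smul_zero]

theorem mem_G {x : Fin n → L} {V : Submodule ℝ (Fin n → ℝ)} {f : L} :
    f ∈ G x V ↔ ∀ D ∈ Dl x V, D f = 0 := Iff.rfl

/-- the derivations of `Dl` are linear over the constants -/
noncomputable def ov (x : Fin n → L) (V : Submodule ℝ (Fin n → ℝ)) (D : Derivation ℂ L L) (hD : D ∈ Dl x V) :
    Derivation (G x V) L L :=
  Derivation.mk'
    { toFun := D
      map_add' := map_add D
      map_smul' := by
        intro c y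
        rw [IntermediateField.smul_def, smul_eq_mul, Derivation.leibniz, c.2 D hD, smul_zero,
          add_zero, smul_eq_mul]
        rfl } (fun a b => D.leibniz a b)

theorem ov_apply (x : Fin n → L) (V : Submodule ℝ (Fin n → ℝ)) (D : Derivation ℂ L L)
    (hD : D ∈ Dl x V) (z : L) : ov x V D hD z = D z := rfl

/-- the lattice of the monomials in the constants -/
def Lm (x : Fin n → L) (V : Submodule ℝ (Fin n → ℝ)) : Submodule ℤ (Fin n → ℤ) where
  carrier := {a | ∀ D ∈ Dl x V, om x (rv a) D = 0}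
  add_mem' := by
    intro a b ha hb D hD
    rw [rv_add, om_add, LinearMap.add_apply, ha D hD, hb D hD, add_zero]
  zero_mem' := by
    intro D _
    rw [rv_zero, om_zero, LinearMap.zero_apply]
  smul_mem' := by
    intro k a ha D hD
    rw [rv_zsmul, om_smul, LinearMap.smul_apply, ha D hD, smul_zero]

theorem mem_Lm {x : Fin n → L} {V : Submodule ℝ (Fin n → ℝ)} {a : Fin n → ℤ} :
    a ∈ Lm x V ↔ ∀ D ∈ Dl x V, om x (rv a) D = 0 := Iff.rfl

theorem mn_mem_G {x : Fin n → L} (hx : ∀ i, x i ≠ 0) {V : Submodule ℝ (Fin n → ℝ)}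
    {a : Fin n → ℤ} : mn x a ∈ G x V ↔ a ∈ Lm x V := by
  rw [mem_G, mem_Lm]
  refine forall₂_congr fun D _ => ?_
  rw [om_rv hx, div_eq_zero_iff, or_iff_left (mn_ne_zero hx a)]

/-- a derivation which is killed by the forms of a set is killed by their combinations -/
theorem span_zero {x : Fin n → L} {A : Set (Fin n → ℝ)} {D : Derivation ℂ L L}
    (h : ∀ b ∈ A, om x b D = 0) {f : Derivation ℂ L L →ₗ[L] L}
    (hf : f ∈ Submodule.span L (om x '' A)) : f D = 0 := by
  induction hf using Submodule.span_induction with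
  | mem f hf =>
    obtain ⟨b, hb, rfl⟩ := hf
    exact h b hb
  | zero => rfl
  | add f g _ _ hf hg => rw [LinearMap.add_apply, hf, hg, add_zero]
  | smul c f _ hf => rw [LinearMap.smul_apply, hf, smul_zero]

theorem full_Lm (x : Fin n → L) (V : Submodule ℝ (Fin n → ℝ)) : Full x (Lm x V) := by
  intro a ha D hD
  refine span_zero ?_ ha
  rintro _ ⟨b, hb, rfl⟩
  exact hb D hD

theorem mem_span_V (x : Fin n → L) (V : Submodule ℝ (Fin n → ℝ)) {f : Derivation ℂ L L →ₗ[L] L}
    (hf : ∀ D ∈ Dl x V, f D = 0) : f ∈ Submodule.span L (om x '' (V : Set (Fin n → ℝ))) := by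
  let b := Module.finBasis ℝ V
  have h1 : ⨅ i, LinearMap.ker (om x (b i : Fin n → ℝ)) ≤ LinearMap.ker f := by
    intro D hD
    rw [Submodule.mem_iInf] at hD
    rw [LinearMap.mem_ker]
    refine hf D fun v hv => ?_
    have h2 := congrArg (fun z : V => (z : Fin n → ℝ)) (b.sum_repr ⟨v, hv⟩)
    simp only [Submodule.coe_sum, Submodule.coe_smul] at h2
    rw [← h2, Map.om_sum, LinearMap.sum_apply]
    refine Finset.sum_eq_zero fun i _ => ?_
    rw [om_smul, LinearMap.smul_apply, LinearMap.mem_ker.1 (hD i), smul_zero]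
  have h3 := mem_span_of_iInf_ker_le_ker h1
  refine Submodule.span_mono ?_ h3
  rintro _ ⟨i, rfl⟩
  exact ⟨_, (b i).2, rfl⟩

/-- the constants are relatively algebraically closed -/
theorem alg_mem {x : Fin n → L} {V : Submodule ℝ (Fin n → ℝ)} {z : L}
    (hz : IsAlgebraic (G x V) z) : z ∈ G x V := by
  intro D hD
  have hL : CharZero L := charZero_of_injective_algebraMap (algebraMap ℂ L).injective
  have : CharZero (G x V) := charZero_of_injective_algebraMap (R := ℂ)
    (algebraMap ℂ (G x V)).injective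
  have hi : IsIntegral (G x V) z := hz.isIntegral
  have h0 : Polynomial.aeval z (minpoly (G x V) z) = 0 := minpoly.aeval _ z
  have h1 : Polynomial.aeval z (Polynomial.derivative (minpoly (G x V) z)) ≠ 0 :=
    (minpoly.irreducible hi).separable.aeval_derivative_ne_zero h0
  have h2 := (ov x V D hD).map_aeval (minpoly (G x V) z) z
  rw [h0, map_zero, smul_eq_mul, ov_apply] at h2
  exact (mul_eq_zero.mp h2.symm).resolve_left h1

/-- the real numbers in the field of the constants -/
noncomputable def rG (x : Fin n → L) (V : Submodule ℝ (Fin n → ℝ)) : ℝ →+* G x V :=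
  (algebraMap ℂ (G x V)).comp (algebraMap ℝ ℂ)

theorem rG_apply (x : Fin n → L) (V : Submodule ℝ (Fin n → ℝ)) (r : ℝ) :
    algebraMap (G x V) L (rG x V r) = algebraMap ℂ L (r : ℂ) := rfl

/-- a functional with real coefficients which kills the lattice kills its span over the
constants -/
theorem funct_zero {x : Fin n → L} (hx : ∀ i, x i ≠ 0) {V : Submodule ℝ (Fin n → ℝ)}
    {t : Fin n → ℝ} (ht : ∀ m ∈ Lm x V, ∑ j, t j * rv m j = 0) {v : Fin n → G x V}
    (hv : v ∈ Submodule.span (G x V) (CITR.Gam (G x V) x)) : ∑ j, rG x V (t j) * v j = 0 := by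
  induction hv using Submodule.span_induction with
  | mem v hv =>
    obtain ⟨m, hm, hm'⟩ := hv
    have h1 : m ∈ Lm x V := by
      rw [← mn_mem_G hx]
      obtain ⟨y, hy⟩ := hm'
      have h2 : mn x m = (y : L) := hy.symm
      rw [h2]
      exact y.2
    have h3 := congrArg (rG x V) (ht m h1)
    rw [map_sum, map_zero] at h3
    rw [← h3]
    refine Finset.sum_congr rfl fun j _ => ?_
    rw [hm, map_mul, rv, map_intCast]
  | zero => simp
  | add v w _ _ hv hw =>
    simp only [Pi.add_apply, mul_add, Finset.sum_add_distrib]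
    rw [hv, hw, add_zero]
  | smul c v _ hv =>
    have h1 : ∀ j, rG x V (t j) * (c • v) j = c * (rG x V (t j) * v j) := by
      intro j
      rw [Pi.smul_apply, smul_eq_mul]
      ring
    rw [Finset.sum_congr rfl fun j _ => h1 j, ← Finset.mul_sum, hv, mul_zero]

/-- the forms of vectors of `V` which are independent modulo the lattice are independent modulo
the forms of the lattice -/
theorem indep {x : Fin n → L} (hx : ∀ i, x i ≠ 0) {V : Submodule ℝ (Fin n → ℝ)} {p : ℕ}
    (a : Fin p → Fin n → ℝ) (haV : ∀ l, a l ∈ V) (ha : LinearIndependent ℝ a)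
    (hdis : ∀ v ∈ Submodule.span ℝ (Set.range a),
      v ∈ Submodule.span ℝ (rv '' (Lm x V : Set (Fin n → ℤ))) → v = 0)
    (g : Fin p → L)
    (hg : ∑ l, g l • om x (a l) ∈
      Submodule.span L (om x '' (rv '' (Lm x V : Set (Fin n → ℤ))))) : g = 0 := by
  classical
  by_contra hg0
  have hL : CharZero L := charZero_of_injective_algebraMap (algebraMap ℂ L).injective
  have hch : CharZero (G x V) := charZero_of_injective_algebraMap (R := ℂ)
    (algebraMap ℂ (G x V)).injective
  have hom : ∀ (b : Fin n → ℝ) (D : Derivation (G x V) L L),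
      om x b (D.restrictScalars ℂ) = ∑ j, algebraMap (G x V) L (rG x V (b j)) * (D (x j) / x j) :=
    fun b D => rfl
  -- the relation over the derivations of the constants
  have hrel : ∀ D : Derivation (G x V) L L,
      ∑ l, g l * ∑ j, algebraMap (G x V) L (rG x V (a l j)) * (D (x j) / x j) = 0 := by
    intro D
    have h1 : ∀ b ∈ rv '' (Lm x V : Set (Fin n → ℤ)), om x b (D.restrictScalars ℂ) = 0 := by
      rintro _ ⟨m, hm, rfl⟩
      rw [om_rv hx]
      have h2 : mn x m ∈ G x V := (mn_mem_G hx).2 hm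
      have h3 : (D.restrictScalars ℂ) (mn x m) = 0 := D.map_algebraMap (⟨mn x m, h2⟩ : G x V)
      rw [h3, zero_div]
    have h2 := span_zero h1 hg
    rw [LinearMap.sum_apply] at h2
    rw [← h2]
    refine Finset.sum_congr rfl fun l _ => ?_
    rw [LinearMap.smul_apply, smul_eq_mul, hom]
  obtain ⟨c, hc, hcD⟩ := CITR.dlog_rel_const (k := G x V) (K := L)
    {δ : Derivation (G x V) L L | ∀ b ∈ V, om x b (δ.restrictScalars ℂ) = 0}
    (by
      intro z hz
      have h1 : z ∈ G x V := fun D hD => hz (ov x V D hD) hD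
      exact ⟨⟨z, h1⟩, rfl⟩)
    x hx (fun l j => rG x V (a l j)) (fun δ hδ l => hδ (a l) (haV l)) g hg0 hrel
  have hspan := CITR.mem_span_of_dlog (k := G x V) (K := L)
    (fun z hz => ⟨⟨z, alg_mem hz⟩, rfl⟩) x hx (fun j => ∑ l, c l * rG x V (a l j)) (by
      intro D
      rw [← hcD D]
      simp only [map_sum, map_mul, Finset.sum_mul, Finset.mul_sum]
      rw [Finset.sum_comm]
      refine Finset.sum_congr rfl fun l _ => Finset.sum_congr rfl fun j _ => ?_
      ring)
  obtain ⟨l₀, hl₀⟩ : ∃ l, c l ≠ 0 := by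
    by_contra hcon
    push Not at hcon
    exact hc (funext hcon)
  -- a functional
  set S := Submodule.span ℝ (rv '' (Lm x V : Set (Fin n → ℤ))) with hS
  set T := Submodule.span ℝ (a '' {l₀}ᶜ) with hT
  have hnot : a l₀ ∉ S ⊔ T := by
    intro hmem
    obtain ⟨s, hs, t, ht, hst⟩ := Submodule.mem_sup.1 hmem
    have h1 : s ∈ Submodule.span ℝ (Set.range a) := by
      have h2 : s = a l₀ - t := by rw [← hst]; abel
      rw [h2]
      exact Submodule.sub_mem _ (Submodule.subset_span ⟨l₀, rfl⟩)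
        (Submodule.span_mono (Set.image_subset_range _ _) ht)
    have h3 := hdis s h1 hs
    rw [h3, zero_add] at hst
    rw [hst] at ht
    exact ha.notMem_span_image (s := {l₀}ᶜ) (x := l₀) (by simp) ht
  obtain ⟨φ, hφ, hφ0⟩ := Submodule.exists_le_ker_of_notMem hnot
  let t : Fin n → ℝ := fun j => φ (Pi.single j 1)
  have hφt : ∀ v : Fin n → ℝ, φ v = ∑ j, t j * v j := by
    intro v
    conv_lhs => rw [pi_eq_sum_univ' v]
    rw [map_sum]
    refine Finset.sum_congr rfl fun l _ => ?_
    rw [map_smul, smul_eq_mul, mul_comm]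
  have h1 := funct_zero hx (V := V) (t := t) (fun m hm => by
    rw [← hφt]
    exact hφ0 (Submodule.mem_sup_left (Submodule.subset_span ⟨m, hm, rfl⟩))) hspan
  have h2 : ∑ j, rG x V (t j) * ∑ l, c l * rG x V (a l j) = ∑ l, c l * rG x V (φ (a l)) := by
    simp only [hφt, map_sum, map_mul, Finset.mul_sum]
    rw [Finset.sum_comm]
    refine Finset.sum_congr rfl fun l _ => Finset.sum_congr rfl fun j _ => ?_
    ring
  rw [h2, Finset.sum_eq_single l₀] at h1
  · rcases mul_eq_zero.1 h1 with h3 | h3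
    · exact hl₀ h3
    · exact hφ ((map_eq_zero (rG x V)).1 h3)
  · intro l _ hl
    have h3 : φ (a l) = 0 := hφ0 (Submodule.mem_sup_right (Submodule.subset_span ⟨l, hl, rfl⟩))
    rw [h3, map_zero, mul_zero]
  · intro h
    exact absurd (Finset.mem_univ _) h

end

/-- a basis of a complement of the intersection with `S` -/
theorem compl {n : ℕ} (V S : Submodule ℝ (Fin n → ℝ)) :
    ∃ (p : ℕ) (a : Fin p → Fin n → ℝ), (∀ l, a l ∈ V) ∧ LinearIndependent ℝ a ∧
      (∀ v ∈ Submodule.span ℝ (Set.range a), v ∈ S → v = 0) ∧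
      finrank ℝ V = finrank ℝ (V ⊓ S : Submodule ℝ (Fin n → ℝ)) + p := by
  obtain ⟨C', hC'⟩ := Submodule.exists_isCompl (V ⊓ S)
  let C : Submodule ℝ (Fin n → ℝ) := C' ⊓ V
  have hCV : C ≤ V := inf_le_right
  have h1 : (V ⊓ S) ⊓ C = ⊥ := by
    rw [eq_bot_iff, ← hC'.inf_eq_bot]
    exact inf_le_inf_left _ inf_le_left
  have h2 : (V ⊓ S) ⊔ C = V := by
    show (V ⊓ S) ⊔ C' ⊓ V = V
    rw [← sup_inf_assoc_of_le C' (inf_le_left : V ⊓ S ≤ V), hC'.sup_eq_top, top_inf_eq]
  let b := Module.finBasis ℝ C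
  refine ⟨finrank ℝ C, fun l => (b l : Fin n → ℝ), fun l => hCV (b l).2, ?_, ?_, ?_⟩
  · exact b.linearIndependent.map' C.subtype (Submodule.ker_subtype _)
  · intro v hv hvS
    have h3 : Submodule.span ℝ (Set.range fun l => (b l : Fin n → ℝ)) ≤ C := by
      refine Submodule.span_le.2 ?_
      rintro _ ⟨l, rfl⟩
      exact (b l).2
    have h4 : v ∈ (V ⊓ S) ⊓ C := ⟨⟨hCV (h3 hv), hvS⟩, h3 hv⟩
    rw [h1, Submodule.mem_bot] at h4
    exact h4
  · have h5 := Submodule.finrank_sup_add_finrank_inf_eq (V ⊓ S) C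
    rw [h1, h2, finrank_bot, add_zero] at h5
    exact h5

/-- the dimensions of the spaces of forms -/
theorem fin_ineq {L : Type} [Field L] [Algebra ℂ L] {n : ℕ} {x : Fin n → L} (hx : ∀ i, x i ≠ 0)
    {V : Submodule ℝ (Fin n → ℝ)} {p : ℕ}
    (a : Fin p → Fin n → ℝ) (haV : ∀ l, a l ∈ V) (ha : LinearIndependent ℝ a)
    (hdis : ∀ v ∈ Submodule.span ℝ (Set.range a),
      v ∈ Submodule.span ℝ (rv '' (Lm x V : Set (Fin n → ℤ))) → v = 0) {q : ℕ} :
    q + p + rkZ x (Lm x V) ≤ rk x (V : Set (Fin n → ℝ)) + q := by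
  have hind := indep hx a haV ha hdis
  have hfN : FiniteDimensional L (Submodule.span L (om x '' (V : Set (Fin n → ℝ)))) :=
    finite_span_om x _
  have hfNΛ : FiniteDimensional L
      (Submodule.span L (om x '' (rv '' (Lm x V : Set (Fin n → ℤ))))) := finite_span_om x _
  have hfN' : FiniteDimensional L (Submodule.span L (Set.range fun l => om x (a l))) :=
    FiniteDimensional.span_of_finite L (Set.finite_range _)
  have hli : LinearIndependent L (fun l => om x (a l)) := by
    rw [Fintype.linearIndependent_iff]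
    intro g hg l
    have h1 := hind g (by rw [hg]; exact Submodule.zero_mem _)
    rw [h1]
    rfl
  have hcard : finrank L (Submodule.span L (Set.range fun l => om x (a l))) = p := by
    rw [finrank_span_eq_card hli, Fintype.card_fin]
  have hinf : Submodule.span L (om x '' (rv '' (Lm x V : Set (Fin n → ℤ)))) ⊓
      Submodule.span L (Set.range fun l => om x (a l)) = ⊥ := by
    rw [eq_bot_iff]
    rintro f ⟨hf, hf'⟩
    obtain ⟨g, hg⟩ := (Submodule.mem_span_range_iff_exists_fun L).1 hf'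
    have h1 := hind g (by rw [hg]; exact hf)
    rw [Submodule.mem_bot, ← hg, h1]
    exact Finset.sum_eq_zero fun l _ => by rw [Pi.zero_apply, zero_smul]
  have hle : Submodule.span L (om x '' (rv '' (Lm x V : Set (Fin n → ℤ)))) ⊔
      Submodule.span L (Set.range fun l => om x (a l)) ≤
        Submodule.span L (om x '' (V : Set (Fin n → ℝ))) := by
    refine sup_le (Submodule.span_le.2 ?_) (Submodule.span_le.2 ?_)
    · rintro _ ⟨_, ⟨m, hm, rfl⟩, rfl⟩
      exact mem_span_V x V hm
    · rintro _ ⟨l, rfl⟩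
      exact Submodule.subset_span ⟨_, haV l, rfl⟩
  have h1 := Submodule.finrank_mono hle
  have h2 := Submodule.finrank_sup_add_finrank_inf_eq
    (Submodule.span L (om x '' (rv '' (Lm x V : Set (Fin n → ℤ)))))
    (Submodule.span L (Set.range fun l => om x (a l)))
  rw [hinf, finrank_bot, add_zero, hcard] at h2
  rw [h2] at h1
  have h3 : rkZ x (Lm x V) =
    finrank L (Submodule.span L (om x '' (rv '' (Lm x V : Set (Fin n → ℤ))))) := rfl
  have h4 : rk x (V : Set (Fin n → ℝ)) =
    finrank L (Submodule.span L (om x '' (V : Set (Fin n → ℝ)))) := rfl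
  rw [← h3, ← h4] at h1
  omega

end LinAx

open LinAx in
theorem lin_ax {L : Type} [Field L] [Algebra ℂ L] {n : ℕ} (x : Fin n → L) (hx : ∀ i, x i ≠ 0)
    (V : Submodule ℝ (Fin n → ℝ)) :
    ∃ Λ : Submodule ℤ (Fin n → ℤ), Full x Λ ∧ (∀ a, rv a ∈ V → a ∈ Λ) ∧
      (∀ a ∈ Λ, om x (rv a) ∈ Submodule.span L (om x '' (V : Set (Fin n → ℝ)))) ∧
      finrank ℝ V + rkZ x Λ ≤ rk x (V : Set (Fin n → ℝ)) +
        finrank ℝ (V ⊓ Submodule.span ℝ (rv '' (Λ : Set (Fin n → ℤ))) :
          Submodule ℝ (Fin n → ℝ)) := by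
  refine ⟨Lm x V, full_Lm x V, fun a ha D hD => hD _ ha, fun a ha => mem_span_V x V ha, ?_⟩
  obtain ⟨p, a, haV, ha, hdis, hdim⟩ :=
    compl V (Submodule.span ℝ (rv '' (Lm x V : Set (Fin n → ℤ))))
  rw [hdim]
  exact fin_ineq hx a haV ha hdis

end Pool.Agent.SD
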