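import Mathlib
import Pool.Agent.Lib.MP_c95b3b_ag_SD.Deg
import Pool.Agent.Lib.MP_c95b3b_ag_SD.Engine
import Pool.Agent.Lib.MP_c95b3b_ag_SD.Hilb
import Pool.Agent.Lib.MP_c95b3b_ag_SD.HtAlg
import Pool.Agent.Lib.MP_c95b3b_ag_SD.LinAx
import Pool.Agent.Lib.MP_c95b3b_ag_SD.Sem

set_option autoImplicit false

/-! Project SD (MP_c95b3b_ag), module TB: the dimension inequality for one scale of heights. -/

namespace Pool.Agent.SD

open MvPolynomial Filter Topology Module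

namespace ThmB

/-- algebraicity over a larger ring -/
theorem alg_mono {L : Type} [Field L] {A B : Type} [CommRing A] [CommRing B] [Algebra A L]
    [Algebra B L] (f : A →+* B) (hf : Function.Injective f)
    (hc : ∀ a, algebraMap B L (f a) = algebraMap A L a) {z : L} (h : IsAlgebraic A z) :
    IsAlgebraic B z := by
  obtain ⟨p, hp, h0⟩ := h
  refine ⟨p.map f, (Polynomial.map_ne_zero_iff hf).2 hp, ?_⟩
  rw [Polynomial.aeval_def, Polynomial.eval₂_map]
  have hcomp : (algebraMap B L).comp f = algebraMap A L := RingHom.ext hc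
  rw [hcomp, ← Polynomial.aeval_def]
  exact h0

/-- algebraicity over a larger algebra -/
theorem alg_sub {k K L : Type} [Field k] [Field K] [Field L] [Algebra k L] [Algebra K L]
    (A : Subalgebra k L) (B : Subalgebra K L) (hsub : ∀ z ∈ A, z ∈ B) {z : L}
    (h : IsAlgebraic A z) : IsAlgebraic B z :=
  alg_mono
    (f := { toFun := fun z => ⟨z.1, hsub z.1 z.2⟩
            map_one' := rfl
            map_mul' := fun _ _ => rfl
            map_zero' := rfl
            map_add' := fun _ _ => rfl })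
    (fun z w hzw => Subtype.ext (by
      have h9 := congrArg Subtype.val hzw
      exact h9)) (fun _ => rfl) h

/-- elements of the field and of the generating set -/
theorem mem_adjoin_of {K L : Type} [Field K] [Field L] [Algebra K L] (T : Set L) (z : L)
    (hz : z ∈ Set.range (algebraMap K L) ∨ z ∈ T) : z ∈ Algebra.adjoin K T := by
  rcases hz with ⟨w, rfl⟩ | hz
  · exact (Algebra.adjoin K T).algebraMap_mem w
  · exact Algebra.subset_adjoin hz

/-- comparison of two adjoined algebras -/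
theorem adjoin_sub {k K L : Type} [Field k] [Field K] [Field L] [Algebra k L] [Algebra K L]
    [Algebra k K] [IsScalarTower k K L] (S T : Set L)
    (h : ∀ z ∈ S, z ∈ Set.range (algebraMap K L) ∨ z ∈ T) :
    ∀ z ∈ Algebra.adjoin k S, z ∈ Algebra.adjoin K T := by
  intro z hz
  have h6 : Algebra.adjoin k S ≤ (Algebra.adjoin K T).restrictScalars k := by
    refine Algebra.adjoin_le fun w hw => ?_
    exact mem_adjoin_of T w (h w hw)
  exact h6 hz

/-- if all unit vectors are in a lattice, it is everything -/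
theorem eq_top_of_single {n : ℕ} (Λ : Submodule ℤ (Fin n → ℤ))
    (h : ∀ i, (Pi.single i 1 : Fin n → ℤ) ∈ Λ) : Λ = ⊤ := by
  rw [eq_top_iff]
  intro a _
  have h1 : a = ∑ i, a i • (Pi.single i 1 : Fin n → ℤ) := by
    funext j
    rw [Finset.sum_apply, Finset.sum_eq_single j]
    · simp
    · intro i _ hij
      simp [Ne.symm hij]
    · intro hj
      exact absurd (Finset.mem_univ j) hj
  rw [h1]
  exact Λ.sum_mem fun i _ => Λ.smul_mem _ (h i)

/-- `cmb β` as a linear map -/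
def cmbZ {m n : ℕ} (β : Fin m → Fin n → ℤ) : (Fin m → ℤ) →ₗ[ℤ] (Fin n → ℤ) where
  toFun := cmb β
  map_add' c c' := by
    funext i
    simp only [cmb, Pi.add_apply, add_mul, Finset.sum_add_distrib]
  map_smul' r c := by
    funext i
    simp only [cmb, Pi.smul_apply, smul_eq_mul, eq_intCast, Int.cast_id, Finset.mul_sum,
      mul_assoc]

theorem squeeze {n : ℕ} (𝓤 : Ultrafilter ℕ) (S : Sq n) (s : ℕ → ℝ) (hs : Tendsto s 𝓤 atTop)
    {k : ℕ} (α : Fin k → Fin n → ℤ) (hα : ∀ j, α j ∈ L0 𝓤 S s) (a : Fin n → ℤ) (C : ℝ)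
    (h : ∀ᶠ ν in (𝓤 : Filter ℕ), S.ht (rv a) ν ≤ C * (1 + ∑ j, S.ht (rv (α j)) ν)) :
    a ∈ L0 𝓤 S s := by
  rw [mem_L0, mem_V0]
  have hpos : ∀ᶠ ν in (𝓤 : Filter ℕ), 0 < s ν := hs.eventually_gt_atTop 0
  have h1 : Tendsto (fun ν => C * ((s ν)⁻¹ + ∑ j, S.ht (rv (α j)) ν / s ν)) 𝓤 (𝓝 0) := by
    have h2 : Tendsto (fun ν => (s ν)⁻¹) 𝓤 (𝓝 0) := tendsto_inv_atTop_zero.comp hs
    have h3 : Tendsto (fun ν => ∑ j, S.ht (rv (α j)) ν / s ν) 𝓤 (𝓝 (∑ _j : Fin k, (0 : ℝ))) :=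
      tendsto_finsetSum _ fun j _ => (mem_V0 𝓤 S).1 ((mem_L0 𝓤 S).1 (hα j))
    rw [Finset.sum_const_zero] at h3
    have h4 := (h2.add h3).const_mul C
    rw [add_zero, mul_zero] at h4
    exact h4
  refine tendsto_of_tendsto_of_tendsto_of_le_of_le' tendsto_const_nhds h1 ?_ ?_
  · filter_upwards [hpos] with ν hν
    exact div_nonneg (ht_nonneg S _ _) hν.le
  · filter_upwards [hpos, h] with ν hν h5
    rw [div_le_iff₀ hν]
    refine h5.trans (le_of_eq ?_)
    rw [← Finset.sum_div]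
    field_simp

end ThmB

section
variable {L : Type} [Field L] [CharZero L] [Algebra ℂ L]

/-- the forms of height `o(s)` cannot have full rank -/
theorem rank_lt {n : ℕ} {𝓤 : Ultrafilter ℕ} {S : Sq n} {x : Fin n → L} (hx : ∀ i, x i ≠ 0)
    (hAD : AD x) (hG : Gn 𝓤 S x) (s : ℕ → ℝ) (hs : Tendsto s 𝓤 atTop) (Cs : ℝ)
    (hC : ∀ i, ∀ᶠ ν in (𝓤 : Filter ℕ), S.ht (rv (Pi.single i 1)) ν ≤ Cs * s ν)
    (hne : L0 𝓤 S s ≠ ⊤) : rk x (V0 𝓤 S s : Set (Fin n → ℝ)) < dm x := by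
  refine lt_of_le_of_ne (rk_le_dm x _) fun heq => ?_
  obtain ⟨τ, α, b, h1, hα, hb, hli, hspan⟩ :=
    exists_sel x (V0 𝓤 S s) (L0 𝓤 S s) (fun a ha => (mem_L0 𝓤 S).1 ha)
  obtain ⟨c0, hc0, M0, hE⟩ := deg_large hx α b hli (h1.trans heq)
  have hli1 : LinearIndependent L (fun j => om x (rv (α j))) := by
    have := hli.comp Sum.inl Sum.inl_injective
    exact this
  obtain ⟨τ', y, h2, hli2⟩ := exists_coord x α hli1
  have hτ : τ' = τ := by omega
  subst hτ
  obtain ⟨γ, hγ⟩ : ∃ γ : Fin (rkZ x (L0 𝓤 S s) + τ') → Fin n → ℤ,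
      γ = fun j => Sum.elim α (fun i => Pi.single (y i) 1) (finSumFinEquiv.symm j) := ⟨_, rfl⟩
  have hγl : ∀ j, γ (finSumFinEquiv (Sum.inl j)) = α j := by
    intro j
    rw [hγ]
    simp only [Equiv.symm_apply_apply, Sum.elim_inl]
  have hγr : ∀ i, γ (finSumFinEquiv (Sum.inr i)) = Pi.single (y i) 1 := by
    intro i
    rw [hγ]
    simp only [Equiv.symm_apply_apply, Sum.elim_inr]
  have hliγ : LinearIndependent L (fun j => om x (rv (γ j))) := by
    have h3 := hli2.comp (fun j => finSumFinEquiv.symm j) finSumFinEquiv.symm.injective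
    have h3e : (Sum.elim (fun j => om x (rv (α j)))
        (fun i => om x (rv (Pi.single (y i) 1))) ∘ fun j => finSumFinEquiv.symm j) =
        fun j => om x (rv (γ j)) := ?_
    · rw [h3e] at h3
      exact h3
    funext j
    simp only [Function.comp_apply]
    obtain ⟨z, rfl⟩ := finSumFinEquiv.surjective j
    rw [Equiv.symm_apply_apply]
    rcases z with z | z
    · rw [Sum.elim_inl, hγl]
    · rw [Sum.elim_inr, hγr]
  have halg : ∀ i, IsAlgebraic (Algebra.adjoin (gf (mm α x)) (Set.range fun j => x (y j)))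
      (x i) := by
    intro i
    have h4 := mem_span_of_card x (fun j => rv (γ j)) hliγ (by rw [Fintype.card_fin]; exact h2)
      (rv (Pi.single i 1))
    have h5 := isAlgebraic_mn hx hAD hliγ (Pi.single i 1) h4
    rw [mn_single] at h5
    refine ThmB.alg_sub _ _ (ThmB.adjoin_sub _ _ ?_) h5
    rintro _ ⟨j, rfl⟩
    obtain ⟨w, rfl⟩ := finSumFinEquiv.surjective j
    rcases w with w | w
    · left
      have h8 : mm γ x (finSumFinEquiv (Sum.inl w)) = mm α x w := by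
        unfold mm
        rw [hγl]
      rw [h8]
      exact ⟨⟨mm α x w, IntermediateField.subset_adjoin ℚ _ ⟨w, rfl⟩⟩, rfl⟩
    · right
      have h8 : mm γ x (finSumFinEquiv (Sum.inr w)) = x (y w) := by
        unfold mm
        rw [hγr, mn_single]
      rw [h8]
      exact ⟨w, rfl⟩
  obtain ⟨C2, hU⟩ := hilb_upper (k := gf (mm α x)) x hx (fun j => x (y j)) halg
  obtain ⟨i0, hi0⟩ : ∃ i0 : Fin n, (Pi.single i0 1 : Fin n → ℤ) ∉ L0 𝓤 S s := by
    by_contra hcon
    push Not at hcon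
    exact hne (ThmB.eq_top_of_single _ hcon)
  obtain ⟨c, hc, hcl⟩ := exists_lower 𝓤 S (hs.eventually_gt_atTop 0)
    (fun h => hi0 ((mem_L0 𝓤 S).2 h))
  exact engine hx hG s hs Cs hC i0 c hc hcl α
    (fun j => (mem_V0 𝓤 S).1 ((mem_L0 𝓤 S).1 (hα j))) b (fun i => (mem_V0 𝓤 S).1 (hb i)) C2 hU
    c0 hc0 M0 hE

/-- characters which are algebraic over characters of height `o(s)` have height `o(s)` -/
theorem full_L0 {n : ℕ} {𝓤 : Ultrafilter ℕ} {S : Sq n} {x : Fin n → L} (hx : ∀ i, x i ≠ 0)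
    (hAD : AD x) (hG : Gn 𝓤 S x) (s : ℕ → ℝ) (hs : Tendsto s 𝓤 atTop) :
    Full x (L0 𝓤 S s) := by
  intro a ha
  obtain ⟨τ, α, b, h1, hα, hb, hli, hspan⟩ :=
    exists_sel x (V0 𝓤 S s) (L0 𝓤 S s) (fun a ha => (mem_L0 𝓤 S).1 ha)
  have hli1 : LinearIndependent L (fun j => om x (rv (α j))) := by
    have := hli.comp Sum.inl Sum.inl_injective
    exact this
  have ha2 : om x (rv a) ∈ Submodule.span L (Set.range fun j => om x (rv (α j))) := by
    refine (Submodule.span_le.2 ?_) ha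
    rintro _ ⟨_, ⟨a', ha', rfl⟩, rfl⟩
    exact hspan a' ha'
  obtain ⟨C, _, hCev⟩ := ht_alg hx hG α a (isAlgebraic_mn hx hAD hli1 a ha2)
  exact ThmB.squeeze 𝓤 S s hs α hα a C hCev

theorem thmB {n : ℕ} {𝓤 : Ultrafilter ℕ} {S : Sq n} {x : Fin n → L} (hx : ∀ i, x i ≠ 0)
    (hAD : AD x) (hG : Gn 𝓤 S x) (s : ℕ → ℝ) (hs : Tendsto s 𝓤 atTop) (Cs : ℝ)
    (hC : ∀ i, ∀ᶠ ν in (𝓤 : Filter ℕ), S.ht (rv (Pi.single i 1)) ν ≤ Cs * s ν)
    (hne : L0 𝓤 S s ≠ ⊤) :
    finrank ℝ (V0 𝓤 S s) + rkZ x (L0 𝓤 S s) + 1 ≤ finrank ℤ (L0 𝓤 S s) + dm x := by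
  induction n using Nat.strong_induction_on generalizing Cs with
  | _ n ih =>
  have hrk := rank_lt hx hAD hG s hs Cs hC hne
  obtain ⟨Λ, hfull, hVΛ, hΛV, hfin⟩ := lin_ax x hx (V0 𝓤 S s)
  have hLΛ : L0 𝓤 S s ≤ Λ := fun a ha => hVΛ a ((mem_L0 𝓤 S).1 ha)
  have hrkΛ : rkZ x Λ ≤ rk x (V0 𝓤 S s : Set (Fin n → ℝ)) := by
    unfold rkZ rk
    have := finite_span_om x (V0 𝓤 S s : Set (Fin n → ℝ))
    refine Submodule.finrank_mono (Submodule.span_le.2 ?_)
    rintro _ ⟨_, ⟨a', ha', rfl⟩, rfl⟩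
    exact hΛV a' ha'
  obtain ⟨β, hβ, hβΛ, hβr⟩ := exists_basis Λ
  have hmle : finrank ℤ Λ ≤ n := by
    have := Submodule.finrank_le Λ
    rwa [Module.finrank_fin_fun] at this
  have hmlt : finrank ℤ Λ < n := by
    refine lt_of_le_of_ne hmle fun h => ?_
    have h1 := hfull.eq_top_of_finrank h
    rw [h1, rkZ_top] at hrkΛ
    omega
  rcases eq_or_ne Λ (L0 𝓤 S s) with heq | hneq
  · -- the lattice is `L0`
    have h1 : finrank ℝ (V0 𝓤 S s ⊓ Submodule.span ℝ (rv '' (Λ : Set (Fin n → ℤ))) :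
        Submodule ℝ (Fin n → ℝ)) ≤ finrank ℤ Λ := by
      refine (Submodule.finrank_mono inf_le_right).trans ?_
      rw [hβr]
      refine (LinearMap.finrank_range_le (cmbL β)).trans ?_
      rw [Module.finrank_fin_fun]
    rw [← heq]
    omega
  · obtain ⟨Cs', hCs'⟩ : ∃ Cs' : ℝ, ∀ l, ∀ᶠ ν in (𝓤 : Filter ℕ),
        (S.map β).ht (rv (Pi.single l 1)) ν ≤ Cs' * s ν := by
      refine ⟨∑ l, ∑ i, |cmbR β (rv (Pi.single l 1)) i| * |Cs|, fun l => ?_⟩
      filter_upwards [hs.eventually_gt_atTop 0, Filter.eventually_all.2 hC] with ν hν h1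
      rw [map_ht]
      refine (ht_le S _ ν).trans ?_
      have h2 : ∀ i, |cmbR β (rv (Pi.single l 1)) i| * S.ht (rv (Pi.single i 1)) ν ≤
          |cmbR β (rv (Pi.single l 1)) i| * |Cs| * s ν := by
        intro i
        rw [mul_assoc]
        refine mul_le_mul_of_nonneg_left ((h1 i).trans ?_) (abs_nonneg _)
        exact mul_le_mul_of_nonneg_right (le_abs_self _) hν.le
      refine (Finset.sum_le_sum fun i _ => h2 i).trans ?_
      rw [← Finset.sum_mul]
      refine mul_le_mul_of_nonneg_right ?_ hν.le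
      exact Finset.single_le_sum
        (f := fun l => ∑ i, |cmbR β (rv (Pi.single l 1)) i| * |Cs|)
        (fun l _ => Finset.sum_nonneg fun i _ => by positivity) (Finset.mem_univ l)
    have hV : ∀ c, c ∈ V0 𝓤 (S.map β) s ↔ cmbL β c ∈ V0 𝓤 S s := by
      intro c
      rw [mem_V0, mem_V0, cmbL_apply]
      simp only [map_ht]
    have hL : ∀ c, c ∈ L0 𝓤 (S.map β) s ↔ cmb β c ∈ L0 𝓤 S s := by
      intro c
      rw [mem_L0, mem_L0, hV, cmbL_apply, rv_cmb]
    have hfV : finrank ℝ (V0 𝓤 (S.map β) s) =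
        finrank ℝ (V0 𝓤 S s ⊓ Submodule.span ℝ (rv '' (Λ : Set (Fin n → ℤ))) :
        Submodule ℝ (Fin n → ℝ)) := by
      have h1 : V0 𝓤 (S.map β) s = (V0 𝓤 S s).comap (cmbL β) := by
        ext c
        rw [hV, Submodule.mem_comap]
      rw [h1, hβr, inf_comm, ← Submodule.map_comap_eq]
      exact (Submodule.equivMapOfInjective (cmbL β) (cmbL_injective hβ) _).finrank_eq
    have hfL : finrank ℤ (L0 𝓤 (S.map β) s) = finrank ℤ (L0 𝓤 S s) := by
      have h1 : L0 𝓤 S s = (L0 𝓤 (S.map β) s).map (ThmB.cmbZ β) := by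
        ext a
        rw [Submodule.mem_map]
        constructor
        · intro ha
          obtain ⟨c, rfl⟩ := (hβΛ a).1 (hLΛ ha)
          exact ⟨c, (hL c).2 ha, rfl⟩
        · rintro ⟨c, hc, rfl⟩
          exact (hL c).1 hc
      rw [h1]
      exact (Submodule.equivMapOfInjective (ThmB.cmbZ β) (cmb_injective hβ) _).finrank_eq
    have hr1 : rkZ (mm β x) (L0 𝓤 (S.map β) s) = rkZ x (L0 𝓤 S s) := by
      refine rkZ_mm hx β _ _ fun a => ⟨fun ha => ?_, ?_⟩
      · obtain ⟨c, rfl⟩ := (hβΛ a).1 (hLΛ ha)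
        exact ⟨c, (hL c).2 ha, rfl⟩
      · rintro ⟨c, hc, rfl⟩
        exact (hL c).1 hc
    have hr2 : dm (mm β x) = rkZ x Λ := by
      rw [← rkZ_top]
      refine rkZ_mm hx β _ _ fun a => ⟨fun ha => ?_, ?_⟩
      · obtain ⟨c, rfl⟩ := (hβΛ a).1 ha
        exact ⟨c, Submodule.mem_top, rfl⟩
      · rintro ⟨c, _, rfl⟩
        exact (hβΛ _).2 ⟨c, rfl⟩
    have hne' : L0 𝓤 (S.map β) s ≠ ⊤ := by
      intro htop
      refine hneq (le_antisymm (fun a ha => ?_) hLΛ)
      obtain ⟨c, rfl⟩ := (hβΛ a).1 ha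
      refine (hL c).1 ?_
      rw [htop]
      exact Submodule.mem_top
    have h1 := ih (finrank ℤ Λ) hmlt (S := S.map β) (x := mm β x) (mm_ne_zero hx β)
      (AD.map hx hAD β) (Gn.map hx hG β) Cs' hCs' hne'
    rw [hfV, hfL, hr1, hr2] at h1
    omega

end

end Pool.Agent.SD
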