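import Mathlib
import Pool.Agent.Lib.MP_c95b3b_ag_SD.RelMap
import Pool.Agent.Lib.MP_c95b3b_ag_SD.ThmB

set_option autoImplicit false

/-! Project SD (MP_c95b3b_ag), module GB: the inequality for one growth class. -/

namespace Pool.Agent.SD

open MvPolynomial Filter Topology Module Pool.Agent.L3

namespace GrowB

theorem L0_le {n : ℕ} {𝓤 : Ultrafilter ℕ} {S : Sq n} {s : ℕ → ℝ} (hs : Tendsto s 𝓤 atTop) :
    L0 𝓤 S s ≤ LO 𝓤 S s := by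
  intro b hb
  rw [mem_L0, mem_V0] at hb
  have hpos : ∀ᶠ ν in (𝓤 : Filter ℕ), 0 < s ν := hs.eventually_gt_atTop 0
  refine mem_LO.mpr ⟨1, ?_⟩
  filter_upwards [hpos, hb.eventually (Iio_mem_nhds (zero_lt_one : (0 : ℝ) < 1))] with ν hν h1
  have h2 : S.ht (rv b) ν / s ν < 1 := h1
  rw [div_lt_one hν] at h2
  rw [one_mul]
  exact h2.le

/-- finrank of a lattice in terms of its coordinates -/
theorem finrank_cmb {n m : ℕ} {β : Fin m → Fin n → ℤ} (hβ : LinearIndependent ℤ β)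
    (Λ : Submodule ℤ (Fin m → ℤ)) (Λ' : Submodule ℤ (Fin n → ℤ))
    (h : ∀ a, a ∈ Λ' ↔ ∃ c ∈ Λ, a = cmb β c) : finrank ℤ Λ = finrank ℤ Λ' := by
  have h1 : Λ' = Λ.map (ThmB.cmbZ β) := by
    ext a
    rw [h a, Submodule.mem_map]
    constructor
    · rintro ⟨c, hc, rfl⟩
      exact ⟨c, hc, rfl⟩
    · rintro ⟨c, hc, rfl⟩
      exact ⟨c, hc, rfl⟩
  rw [h1]
  exact (Submodule.equivMapOfInjective (ThmB.cmbZ β) (cmb_injective hβ) _).finrank_eq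

end GrowB

/-- the inequality for one growth class -/
theorem growth_step {L : Type} [Field L] [CharZero L] [Algebra ℂ L] {n : ℕ} {𝓤 : Ultrafilter ℕ}
    {S : Sq n} {x : Fin n → L} (hx : ∀ i, x i ≠ 0) (hAD : AD x) (hG : Gn 𝓤 S x)
    (hsp : Spc 𝓤 S x) (s : ℕ → ℝ) (hs : Tendsto s 𝓤 atTop) (hne : ¬ LO 𝓤 S s ≤ L0 𝓤 S s) :
    cd x (LO 𝓤 S s) + 2 ≤ cd x ⊤ + cd x (L0 𝓤 S s) := by
  obtain ⟨β, hβ, hβΛ, -⟩ := exists_basis (LO 𝓤 S s)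
  have hpos : ∀ᶠ ν in (𝓤 : Filter ℕ), 0 < s ν := hs.eventually_gt_atTop 0
  have hle := GrowB.L0_le (𝓤 := 𝓤) (S := S) hs
  have hL : ∀ c, c ∈ L0 𝓤 (S.map β) s ↔ cmb β c ∈ L0 𝓤 S s := by
    intro c
    rw [mem_L0, mem_L0, mem_V0, mem_V0, rv_cmb]
    simp only [map_ht]
  have hL' : ∀ a, a ∈ L0 𝓤 S s ↔ ∃ c ∈ L0 𝓤 (S.map β) s, a = cmb β c := by
    intro a
    constructor
    · intro ha
      obtain ⟨c, rfl⟩ := (hβΛ a).1 (hle ha)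
      exact ⟨c, (hL c).2 ha, rfl⟩
    · rintro ⟨c, hc, rfl⟩
      exact (hL c).1 hc
  have hfL := GrowB.finrank_cmb hβ _ _ hL'
  have hr1 : rkZ (mm β x) (L0 𝓤 (S.map β) s) = rkZ x (L0 𝓤 S s) := rkZ_mm hx β _ _ hL'
  have hr2 : dm (mm β x) = rkZ x (LO 𝓤 S s) := by
    rw [← rkZ_top]
    refine rkZ_mm hx β _ _ fun a => ⟨fun ha => ?_, ?_⟩
    · obtain ⟨c, rfl⟩ := (hβΛ a).1 ha
      exact ⟨c, Submodule.mem_top, rfl⟩
    · rintro ⟨c, _, rfl⟩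
      exact (hβΛ _).2 ⟨c, rfl⟩
  have hne' : L0 𝓤 (S.map β) s ≠ ⊤ := by
    intro htop
    refine hne fun a ha => ?_
    obtain ⟨c, rfl⟩ := (hβΛ a).1 ha
    refine (hL c).1 ?_
    rw [htop]
    exact Submodule.mem_top
  have hβmem : ∀ l, β l ∈ LO 𝓤 S s := by
    intro l
    refine (hβΛ _).2 ⟨Pi.single l 1, ?_⟩
    rw [RelMap.cmb_single]
  obtain ⟨Cs, hCs⟩ := ht_unit hβmem (hpos.mono fun ν h => h.le)
  have h1 := thmB (mm_ne_zero hx β) (AD.map hx hAD β) (Gn.map hx hG β) s hs Cs hCs hne'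
  have h2 : dm x + 1 + finrank ℤ (LO 𝓤 S s) - n ≤ finrank ℝ (V0 𝓤 (S.map β) s) := by
    refine lim_rel 𝓤 (S.map β) hpos Cs hCs _ ?_
    have hsp' : ∀ᶠ ν in (𝓤 : Filter ℕ), dm x + 1 ≤ finrank ℝ (Rel S ν) := hsp
    filter_upwards [hsp'] with ν h3
    have h4 := finrank_comap hβ (Rel S ν)
    rw [Rel_map]
    omega
  rw [hfL, hr1, hr2] at h1
  have h5 := rkZ_le_finrank x (LO 𝓤 S s)
  have h6 := rkZ_le_finrank x (L0 𝓤 S s)
  have h7 := rkZ_le_finrank x (⊤ : Submodule ℤ (Fin n → ℤ))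
  have h8 : finrank ℤ (⊤ : Submodule ℤ (Fin n → ℤ)) = n := by
    rw [finrank_top, Module.finrank_fin_fun]
  rw [rkZ_top, h8] at h7
  unfold cd
  rw [rkZ_top, h8]
  omega

end Pool.Agent.SD
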