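import Mathlib
import Pool.Agent.Lib.MP_c95b3b_ag_SD.GrowA
import Pool.Agent.Lib.MP_c95b3b_ag_SD.GrowB

set_option autoImplicit false

/-! Project SD (MP_c95b3b_ag), module GR: the growth classes of the characters. -/

namespace Pool.Agent.SD

open MvPolynomial Filter Topology Module Pool.Agent.L3

namespace Growth

variable {n : ℕ} {𝓤 : Ultrafilter ℕ} {S : Sq n}

/-- a function is not `o` of itself -/
theorem not_tendsto_self {s : ℕ → ℝ} (hs : Tendsto s 𝓤 atTop)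
    (h : Tendsto (fun ν => s ν / s ν) 𝓤 (𝓝 0)) : False := by
  have hpos : ∀ᶠ ν in (𝓤 : Filter ℕ), 0 < s ν := hs.eventually_gt_atTop 0
  have h1 : Tendsto (fun ν => s ν / s ν) 𝓤 (𝓝 1) := by
    refine tendsto_const_nhds.congr' ?_
    filter_upwards [hpos] with ν hν
    exact (div_self hν.ne').symm
  exact zero_ne_one (tendsto_nhds_unique h h1)

/-- a height bounded by a multiple of a function of height `o(s)` is `o(s)` -/
theorem mem_L0_of_le {s t : ℕ → ℝ} (hs : Tendsto s 𝓤 atTop)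
    (ht : Tendsto (fun ν => t ν / s ν) 𝓤 (𝓝 0)) {b : Fin n → ℤ} {C : ℝ}
    (h : ∀ᶠ ν in (𝓤 : Filter ℕ), S.ht (rv b) ν ≤ C * t ν) : b ∈ L0 𝓤 S s := by
  rw [mem_L0, mem_V0]
  have hpos : ∀ᶠ ν in (𝓤 : Filter ℕ), 0 < s ν := hs.eventually_gt_atTop 0
  have h1 : Tendsto (fun ν => C * (t ν / s ν)) 𝓤 (𝓝 0) := by
    have := ht.const_mul C
    rwa [mul_zero] at this
  refine tendsto_of_tendsto_of_tendsto_of_le_of_le' tendsto_const_nhds h1 ?_ ?_
  · filter_upwards [hpos] with ν hν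
    exact div_nonneg (ht_nonneg S _ _) hν.le
  · filter_upwards [hpos, h] with ν hν h2
    rw [← mul_div_assoc]
    exact div_le_div_of_nonneg_right h2 hν.le

theorem L0_le_LO {s : ℕ → ℝ} (hs : Tendsto s 𝓤 atTop) : L0 𝓤 S s ≤ LO 𝓤 S s := by
  intro b hb
  rw [mem_L0, mem_V0] at hb
  have hpos : ∀ᶠ ν in (𝓤 : Filter ℕ), 0 < s ν := hs.eventually_gt_atTop 0
  refine mem_LO.mpr ⟨1, ?_⟩
  filter_upwards [hpos, hb.eventually (Iio_mem_nhds (zero_lt_one : (0 : ℝ) < 1))] with ν hν h1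
  have h2 : S.ht (rv b) ν / s ν < 1 := h1
  rw [div_lt_one hν] at h2
  rw [one_mul]
  exact h2.le

end Growth

section
variable {L : Type} [Field L] [CharZero L] [Algebra ℂ L] {n : ℕ} {𝓤 : Ultrafilter ℕ} {S : Sq n}
  {x : Fin n → L}

/-- the bounded characters have codimension at least `c - 1` -/
theorem growth (hx : ∀ i, x i ≠ 0) (hAD : AD x) (hG : Gn 𝓤 S x) (hsp : Spc 𝓤 S x)
    (hQ : Qc x) : cd x ⊤ ≤ cd x (LO 𝓤 S (fun _ => 1)) + 1 := by
  classical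
  by_contra hcon
  have hL1 : cd x (LO 𝓤 S (fun _ => 1)) + 2 ≤ cd x ⊤ := by omega
  have hne1 : ¬ (⊤ : Submodule ℤ (Fin n → ℤ)) ≤ LO 𝓤 S (fun _ => 1) := by
    intro h
    have h1 : LO 𝓤 S (fun _ => 1) = ⊤ := top_le_iff.mp h
    rw [h1] at hL1
    omega
  -- the minimal class
  let A : (Fin n → ℤ) → Prop := fun a => a ∉ LO 𝓤 S (fun _ => 1) ∧
    Tendsto (S.ht (rv a)) 𝓤 atTop ∧ cd x ⊤ ≤ cd x (LO 𝓤 S (S.ht (rv a))) + 1
  have hex : ∃ k : ℕ, ∃ a, A a ∧ finrank ℤ (LO 𝓤 S (S.ht (rv a))) = k := by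
    obtain ⟨a0, _, h2, h3, h4⟩ := exists_max_growth 𝓤 S ⊤ hne1
    refine ⟨_, a0, ⟨h2, h3, ?_⟩, rfl⟩
    rw [top_le_iff.mp h4]
    exact Nat.le_succ _
  obtain ⟨a, ⟨ha1, ha2, ha3⟩, hfa⟩ := Nat.find_spec hex
  have hmin : ∀ b, A b → finrank ℤ (LO 𝓤 S (S.ht (rv a))) ≤ finrank ℤ (LO 𝓤 S (S.ht (rv b))) := by
    intro b hb
    rw [hfa]
    exact Nat.find_min' hex ⟨b, hb, rfl⟩
  set s : ℕ → ℝ := S.ht (rv a) with hs
  have haLO : a ∈ LO 𝓤 S s := mem_LO.mpr ⟨1, Eventually.of_forall fun ν => by rw [one_mul]⟩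
  have haL0 : a ∉ L0 𝓤 S s := by
    intro h
    rw [mem_L0, mem_V0] at h
    exact Growth.not_tendsto_self ha2 h
  have hstep := growth_step hx hAD hG hsp s ha2 (fun h => haL0 (h haLO))
  have hle : L0 𝓤 S s ≤ LO 𝓤 S s := Growth.L0_le_LO ha2
  have hlt : L0 𝓤 S s < LO 𝓤 S s := lt_of_le_of_ne hle fun h => haL0 (h ▸ haLO)
  have hfull0 : Full x (L0 𝓤 S s) := full_L0 hx hAD hG s ha2
  have hfullO : Full x (LO 𝓤 S s) :=
    full_LO hx hAD hG s 1 one_pos (ha2.eventually_ge_atTop 1)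
  have hL1le : LO 𝓤 S (fun _ => 1) ≤ L0 𝓤 S s := by
    intro b hb
    obtain ⟨C, hC⟩ := mem_LO.mp hb
    refine Growth.mem_L0_of_le (t := fun _ => 1) ha2 ?_ hC
    have h1 : Tendsto (fun ν => (s ν)⁻¹) 𝓤 (𝓝 0) := tendsto_inv_atTop_zero.comp ha2
    simpa only [one_div] using h1
  have hclaim : cd x (L0 𝓤 S s) + 2 ≤ cd x ⊤ := by
    by_cases hc : L0 𝓤 S s ≤ LO 𝓤 S (fun _ => 1)
    · rw [le_antisymm hc hL1le]
      exact hL1
    · obtain ⟨a', ha'0, ha'1, ha'2, ha'3⟩ := exists_max_growth 𝓤 S (L0 𝓤 S s) hc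
      have heq : LO 𝓤 S (S.ht (rv a')) = L0 𝓤 S s := by
        refine le_antisymm ?_ ha'3
        intro b hb
        obtain ⟨C, hC⟩ := mem_LO.mp hb
        rw [mem_L0, mem_V0] at ha'0
        exact Growth.mem_L0_of_le ha2 ha'0 hC
      have hfr : finrank ℤ (L0 𝓤 S s) < finrank ℤ (LO 𝓤 S s) := by
        by_contra h
        exact hlt.ne (hfull0.eq_of_finrank hle (not_lt.mp h))
      by_contra h
      have hA : A a' := by
        refine ⟨ha'1, ha'2, ?_⟩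
        rw [heq]
        omega
      have := hmin a' hA
      rw [heq] at this
      omega
  have hQ' := hQ _ _ hfull0 hfullO hlt hclaim ha3
  omega

/-- theorem 0: the characters of height `o(s)`, `s` the maximal height -/
theorem defect_two (hx : ∀ i, x i ≠ 0) (hAD : AD x) (hG : Gn 𝓤 S x) (hsp : Spc 𝓤 S x)
    (hcos : ∀ a : Fin n → ℤ, a ≠ 0 → om x (rv a) ≠ 0)
    (hs : Tendsto (fun ν => ∑ i, S.ht (rv (Pi.single i 1)) ν) 𝓤 atTop) :
    Full x (L0 𝓤 S (fun ν => ∑ i, S.ht (rv (Pi.single i 1)) ν)) ∧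
      0 < rkZ x (L0 𝓤 S (fun ν => ∑ i, S.ht (rv (Pi.single i 1)) ν)) ∧
      rkZ x (L0 𝓤 S (fun ν => ∑ i, S.ht (rv (Pi.single i 1)) ν)) < dm x ∧
      rkZ x (L0 𝓤 S (fun ν => ∑ i, S.ht (rv (Pi.single i 1)) ν)) + 2 ≤
        finrank ℤ (L0 𝓤 S (fun ν => ∑ i, S.ht (rv (Pi.single i 1)) ν)) := by
  set s : ℕ → ℝ := fun ν => ∑ i, S.ht (rv (Pi.single i 1)) ν with hsdef
  have hLO : LO 𝓤 S s = ⊤ := by
    rw [eq_top_iff]
    intro a _
    refine mem_LO.mpr ⟨∑ i, |rv a i|, Eventually.of_forall fun ν => ?_⟩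
    refine (ht_le S (rv a) ν).trans ?_
    rw [Finset.sum_mul]
    refine Finset.sum_le_sum fun i _ => mul_le_mul_of_nonneg_left ?_ (abs_nonneg _)
    exact Finset.single_le_sum (f := fun i => S.ht (rv (Pi.single i 1)) ν)
      (fun j _ => ht_nonneg S _ _) (Finset.mem_univ i)
  have hnot : ¬ LO 𝓤 S s ≤ L0 𝓤 S s := by
    intro h
    rw [hLO] at h
    have h1 : Tendsto (fun ν => ∑ i, S.ht (rv (Pi.single i 1)) ν / s ν) 𝓤
        (𝓝 (∑ _i : Fin n, (0 : ℝ))) :=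
      tendsto_finsetSum _ fun i _ => (mem_V0 𝓤 S).1 ((mem_L0 𝓤 S).1
        (h (Submodule.mem_top : (Pi.single i 1 : Fin n → ℤ) ∈ (⊤ : Submodule ℤ (Fin n → ℤ)))))
    rw [Finset.sum_const_zero] at h1
    have h2 : (fun ν => ∑ i, S.ht (rv (Pi.single i 1)) ν / s ν) = fun ν => s ν / s ν := by
      funext ν
      rw [← Finset.sum_div]
    rw [h2] at h1
    exact Growth.not_tendsto_self hs h1
  have hstep := growth_step hx hAD hG hsp s hs hnot
  rw [hLO] at hstep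
  have hcd : 2 ≤ cd x (L0 𝓤 S s) := by omega
  have hfr : rkZ x (L0 𝓤 S s) + 2 ≤ finrank ℤ (L0 𝓤 S s) := by
    unfold cd at hcd
    omega
  have hfull : Full x (L0 𝓤 S s) := full_L0 hx hAD hG s hs
  refine ⟨hfull, ?_, ?_, hfr⟩
  · by_contra h
    have h0 : rkZ x (L0 𝓤 S s) = 0 := by omega
    have hbot := eq_bot_of_rkZ hcos h0
    rw [hbot, finrank_bot] at hfr
    omega
  · by_contra h
    have h1 : L0 𝓤 S s = ⊤ := by
      refine hfull.eq_of_rkZ le_top ?_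
      rw [rkZ_top]
      exact not_lt.mp h
    apply hnot
    rw [h1]
    exact le_top

end

end Pool.Agent.SD
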