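import Mathlib
import Pool.Agent.Lib.MP_c95b3b_ag_SD.Map

set_option autoImplicit false

/-! Project SD (MP_c95b3b_ag), module ND: null sets. -/

namespace Pool.Agent.SD

open Filter Topology

section
variable {n : ℕ} {𝓤 : Ultrafilter ℕ} {S : Sq n} {A B : Set (Fin n → ℂ)}

namespace NullDef

theorem card_mono (S : Sq n) (ν : ℕ) {O O' : Set (Fin n → ℂ)} (h : O ⊆ O') :
    (Nat.card {σ : Fin (S.W ν).D // S.pt ν σ ∈ O} : ℝ) ≤
      Nat.card {σ : Fin (S.W ν).D // S.pt ν σ ∈ O'} := by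
  have h1 : {σ : Fin (S.W ν).D | S.pt ν σ ∈ O}.ncard ≤ {σ : Fin (S.W ν).D | S.pt ν σ ∈ O'}.ncard :=
    Set.ncard_le_ncard (fun σ hσ => h hσ) (Set.toFinite _)
  exact_mod_cast h1

theorem card_union (S : Sq n) (ν : ℕ) (O O' : Set (Fin n → ℂ)) :
    (Nat.card {σ : Fin (S.W ν).D // S.pt ν σ ∈ O ∪ O'} : ℝ) ≤
      Nat.card {σ : Fin (S.W ν).D // S.pt ν σ ∈ O} +
        Nat.card {σ : Fin (S.W ν).D // S.pt ν σ ∈ O'} := by
  have h1 := Set.ncard_union_le {σ : Fin (S.W ν).D | S.pt ν σ ∈ O}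
    {σ : Fin (S.W ν).D | S.pt ν σ ∈ O'}
  exact_mod_cast h1

theorem card_empty (S : Sq n) (ν : ℕ) :
    (Nat.card {σ : Fin (S.W ν).D // S.pt ν σ ∈ (∅ : Set (Fin n → ℂ))} : ℝ) = 0 := by
  have h : IsEmpty {σ : Fin (S.W ν).D // S.pt ν σ ∈ (∅ : Set (Fin n → ℂ))} :=
    ⟨fun σ => σ.2⟩
  rw [Nat.card_of_isEmpty, Nat.cast_zero]

theorem card_biUnion (S : Sq n) (ν : ℕ) (t : Finset ℕ) (O : ℕ → Set (Fin n → ℂ)) :
    (Nat.card {σ : Fin (S.W ν).D // S.pt ν σ ∈ ⋃ i ∈ t, O i} : ℝ) ≤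
      ∑ i ∈ t, (Nat.card {σ : Fin (S.W ν).D // S.pt ν σ ∈ O i} : ℝ) := by
  classical
  induction t using Finset.induction_on with
  | empty =>
    rw [Finset.sum_empty]
    refine (card_mono S ν (O' := ∅) ?_).trans (card_empty S ν).le
    intro z hz
    simp at hz
  | insert j t hj ih =>
    rw [Finset.sum_insert hj]
    have h1 : (⋃ i ∈ insert j t, O i) ⊆ O j ∪ ⋃ i ∈ t, O i := by
      intro z hz
      obtain ⟨i, hi, hzi⟩ := Set.mem_iUnion₂.1 hz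
      rcases Finset.mem_insert.1 hi with rfl | hi
      · exact Or.inl hzi
      · exact Or.inr (Set.mem_iUnion₂.2 ⟨i, hi, hzi⟩)
    exact (card_mono S ν h1).trans ((card_union S ν _ _).trans (by linarith))

end NullDef

theorem Null.mono (h : Null 𝓤 S B) (hAB : A ⊆ B) : Null 𝓤 S A := by
  intro θ hθ
  obtain ⟨O, hO, hB, hE⟩ := h θ hθ
  exact ⟨O, hO, hAB.trans hB, hE⟩

theorem null_empty : Null 𝓤 S ∅ := by
  intro θ hθ
  refine ⟨∅, isOpen_empty, Set.Subset.rfl, Eventually.of_forall fun ν => ?_⟩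
  rw [NullDef.card_empty]
  positivity

theorem Null.union (hA : Null 𝓤 S A) (hB : Null 𝓤 S B) : Null 𝓤 S (A ∪ B) := by
  intro θ hθ
  obtain ⟨O, hO, hAO, hE⟩ := hA (θ / 2) (by linarith)
  obtain ⟨O', hO', hBO, hE'⟩ := hB (θ / 2) (by linarith)
  refine ⟨O ∪ O', hO.union hO', Set.union_subset_union hAO hBO, ?_⟩
  filter_upwards [hE, hE'] with ν h1 h2
  refine (NullDef.card_union S ν O O').trans ?_
  linarith

theorem Null.nullC (h : Null 𝓤 S A) : NullC 𝓤 S A :=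
  ⟨fun _ => A, fun _ => h, fun _ hz => Set.mem_iUnion.2 ⟨0, hz⟩⟩

theorem NullC.mono (h : NullC 𝓤 S B) (hAB : A ⊆ B) : NullC 𝓤 S A := by
  obtain ⟨f, hf, hB⟩ := h
  exact ⟨f, hf, hAB.trans hB⟩

namespace NullDef

theorem iUnion_nat {f : ℕ → Set (Fin n → ℂ)} (h : ∀ k, NullC 𝓤 S (f k)) :
    NullC 𝓤 S (⋃ k, f k) := by
  choose g hg hfg using h
  refine ⟨fun j => g (Nat.unpair j).1 (Nat.unpair j).2, fun j => hg _ _, ?_⟩
  intro z hz
  obtain ⟨k, hk⟩ := Set.mem_iUnion.1 hz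
  obtain ⟨m, hm⟩ := Set.mem_iUnion.1 (hfg k hk)
  refine Set.mem_iUnion.2 ⟨Nat.pair k m, ?_⟩
  rw [Nat.unpair_pair]
  exact hm

end NullDef

theorem NullC.union (hA : NullC 𝓤 S A) (hB : NullC 𝓤 S B) : NullC 𝓤 S (A ∪ B) := by
  have h1 : ∀ k : ℕ, NullC 𝓤 S (if k = 0 then A else B) := by
    intro k
    by_cases hk : k = 0
    · rw [if_pos hk]
      exact hA
    · rw [if_neg hk]
      exact hB
  refine (NullDef.iUnion_nat h1).mono ?_
  rintro z (hz | hz)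
  · refine Set.mem_iUnion.2 ⟨0, ?_⟩
    rw [if_pos rfl]
    exact hz
  · refine Set.mem_iUnion.2 ⟨1, ?_⟩
    rw [if_neg one_ne_zero]
    exact hz

theorem NullC.biUnion {ι : Type} {s : Set ι} (hs : s.Countable) {f : ι → Set (Fin n → ℂ)}
    (h : ∀ i ∈ s, NullC 𝓤 S (f i)) : NullC 𝓤 S (⋃ i ∈ s, f i) := by
  rcases s.eq_empty_or_nonempty with rfl | hne
  · refine null_empty.nullC.mono ?_
    intro z hz
    obtain ⟨i, hi, _⟩ := Set.mem_iUnion₂.1 hz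
    exact hi.elim
  · obtain ⟨e, rfl⟩ := hs.exists_eq_range hne
    refine (NullDef.iUnion_nat (f := fun k => f (e k)) fun k => h _ ⟨k, rfl⟩).mono ?_
    intro z hz
    obtain ⟨i, ⟨k, rfl⟩, hz⟩ := Set.mem_iUnion₂.1 hz
    exact Set.mem_iUnion.2 ⟨k, hz⟩

/-- the same for the image of a set of parameters -/
theorem NullC.of_local_image {X : Type} [TopologicalSpace X] [SecondCountableTopology X]
    {T : Set X} {ψ : X → Fin n → ℂ} (h : ∀ t ∈ T, ∃ U ∈ 𝓝 t, NullC 𝓤 S (ψ '' (T ∩ U))) :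
    NullC 𝓤 S (ψ '' T) := by
  classical
  choose! U hU hN using h
  obtain ⟨t, htT, ht, hT⟩ := TopologicalSpace.countable_cover_nhdsWithin (f := U) (s := T)
    (fun x hx => mem_nhdsWithin_of_mem_nhds (hU x hx))
  refine (NullC.biUnion ht (f := fun x => ψ '' (T ∩ U x)) fun x hx => hN x (htT hx)).mono ?_
  rintro _ ⟨y, hy, rfl⟩
  obtain ⟨x, hx, hyx⟩ := Set.mem_iUnion₂.1 (hT hy)
  exact Set.mem_iUnion₂.2 ⟨x, hx, y, ⟨hy, hyx⟩, rfl⟩

/-- local sets (Lindelöf) -/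
theorem NullC.of_local (h : ∀ z ∈ A, ∃ U ∈ 𝓝 z, NullC 𝓤 S (A ∩ U)) : NullC 𝓤 S A := by
  have h1 : NullC 𝓤 S ((fun z : Fin n → ℂ => z) '' A) := by
    refine NullC.of_local_image fun z hz => ?_
    obtain ⟨U, hU, hN⟩ := h z hz
    exact ⟨U, hU, by rwa [Set.image_id']⟩
  rwa [Set.image_id'] at h1

/-- a compact set which is covered by countably many null sets is null -/
theorem NullC.null_of_isCompact (h : NullC 𝓤 S A) (hA : IsCompact A) : Null 𝓤 S A := by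
  obtain ⟨f, hf, hAf⟩ := h
  intro θ hθ
  choose O hO hfO hE using fun m : ℕ => hf m (θ / 2 * (1 / 2) ^ m) (by positivity)
  obtain ⟨t, ht⟩ := hA.elim_finite_subcover O hO
    (hAf.trans (Set.iUnion_mono hfO))
  refine ⟨⋃ i ∈ t, O i, isOpen_biUnion fun i _ => hO i, ht, ?_⟩
  have h1 : ∀ᶠ ν in (𝓤 : Filter ℕ), ∀ i ∈ t,
      (Nat.card {σ : Fin (S.W ν).D // S.pt ν σ ∈ O i} : ℝ) ≤
        θ / 2 * (1 / 2) ^ i * (S.W ν).D :=
    (Filter.eventually_all_finset t).2 fun i _ => hE i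
  filter_upwards [h1] with ν h2
  refine (NullDef.card_biUnion S ν t O).trans ((Finset.sum_le_sum h2).trans ?_)
  rw [← Finset.sum_mul, ← Finset.mul_sum]
  have h3 : ∑ i ∈ t, (1 / 2 : ℝ) ^ i ≤ 2 :=
    (summable_geometric_two.sum_le_tsum t fun i _ => by positivity).trans
      tsum_geometric_two.le
  have h4 : (0 : ℝ) ≤ (S.W ν).D := Nat.cast_nonneg _
  nlinarith [mul_nonneg hθ.le h4]

namespace NullDef

theorem isOpen_pre {m : ℕ} (β : Fin m → Fin n → ℤ) {O' : Set (Fin m → ℂ)} (hO : IsOpen O') :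
    IsOpen {z : Fin n → ℂ | (∀ i, z i ≠ 0) ∧ mm β z ∈ O'} := by
  have h1 : IsOpen {z : Fin n → ℂ | ∀ i, z i ≠ 0} := by
    have h0 : {z : Fin n → ℂ | ∀ i, z i ≠ 0} = ⋂ i, {z : Fin n → ℂ | z i ≠ 0} := by
      ext z
      simp
    rw [h0]
    exact isOpen_iInter_of_finite fun i => isOpen_ne_fun (continuous_apply i) continuous_const
  have h2 : ContinuousOn (fun z : Fin n → ℂ => mm β z) {z : Fin n → ℂ | ∀ i, z i ≠ 0} := by
    refine continuousOn_pi.2 fun l => ?_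
    have h3 : ContinuousOn (fun z : Fin n → ℂ => ∏ i, z i ^ β l i)
        {z : Fin n → ℂ | ∀ i, z i ≠ 0} :=
      continuousOn_finsetProd Finset.univ fun i _ =>
        ContinuousOn.zpow₀ (continuous_apply i).continuousOn _ fun z hz => Or.inl (hz i)
    exact h3
  exact h2.isOpen_inter_preimage h1 hO

end NullDef

/-- preimages under monomial maps -/
theorem NullC.preimage {m : ℕ} (β : Fin m → Fin n → ℤ) {A' : Set (Fin m → ℂ)}
    (h : NullC 𝓤 (S.map β) A') :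
    NullC 𝓤 S {z | (∀ i, z i ≠ 0) ∧ mm β z ∈ A'} := by
  obtain ⟨f, hf, hA⟩ := h
  refine ⟨fun k => {z | (∀ i, z i ≠ 0) ∧ mm β z ∈ f k}, fun k => ?_, ?_⟩
  · intro θ hθ
    obtain ⟨O', hO', hfO, hE⟩ := hf k θ hθ
    refine ⟨{z | (∀ i, z i ≠ 0) ∧ mm β z ∈ O'}, NullDef.isOpen_pre β hO',
      fun z hz => ⟨hz.1, hfO hz.2⟩, ?_⟩
    filter_upwards [hE] with ν h1
    refine le_trans (le_of_eq ?_) h1
    have h2 : Nat.card {σ : Fin (S.W ν).D //
          S.pt ν σ ∈ {z : Fin n → ℂ | (∀ i, z i ≠ 0) ∧ mm β z ∈ O'}} =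
        Nat.card {σ : Fin (S.W ν).D // (S.map β).pt ν σ ∈ O'} := by
      refine Nat.card_congr (Equiv.subtypeEquivRight fun σ => ?_)
      rw [map_pt]
      exact ⟨fun h => h.2, fun h => ⟨pt_ne_zero S ν σ, h⟩⟩
    exact_mod_cast h2
  · intro z hz
    obtain ⟨k, hk⟩ := Set.mem_iUnion.1 (hA hz.2)
    exact Set.mem_iUnion.2 ⟨k, hz.1, hk⟩

end

end Pool.Agent.SD
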