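import Mathlib
import Pool.Agent.Lib.MP_c95b3b_ag_SD.AuxPol
import Pool.Agent.Lib.MP_c95b3b_ag_SD.PolyBd

set_option autoImplicit false

/-! Project SD (MP_c95b3b_ag), module NP: images of polydiscs of smaller dimension are null. -/

namespace Pool.Agent.SD

open MvPolynomial Filter Topology Metric

namespace NullPoly

theorem aeval_mem {K : Type} [Field K] (R : Subring K) {d : ℕ} {u : Fin d → K}
    (hu : ∀ j, u j ∈ R) (Q : MvPolynomial (Fin d) ℤ) : aeval u Q ∈ R := by
  induction Q using MvPolynomial.induction_on with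
  | C a =>
    rw [aeval_C]
    exact intCast_mem R a
  | add p q hp hq =>
    rw [map_add]
    exact R.add_mem hp hq
  | mul_X p j hp =>
    rw [map_mul, aeval_X]
    exact R.mul_mem hp (hu j)

theorem aeval_sum {K : Type} [CommRing K] {d : ℕ} (u : Fin d → K)
    (Q : MvPolynomial (Fin d) ℤ) :
    aeval u Q = ∑ m ∈ Q.support, ((Q.coeff m : ℤ) : K) * ∏ j, u j ^ m j := by
  rw [aeval_def, eval₂_eq']
  refine Finset.sum_congr rfl fun m _ => ?_
  rw [algebraMap_int_eq, eq_intCast]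

theorem card_support_le {d N : ℕ} {Q : MvPolynomial (Fin d) ℤ} (hQ : ∀ i, Q.degreeOf i ≤ N) :
    Q.support.card ≤ (N + 1) ^ d := by
  classical
  have h1 : (Q.support.image (fun m => fun j => m j)) ⊆
      Fintype.piFinset (fun _ : Fin d => Finset.range (N + 1)) := by
    intro f hf
    obtain ⟨m, hm, rfl⟩ := Finset.mem_image.1 hf
    rw [Fintype.mem_piFinset]
    intro j
    rw [Finset.mem_range]
    have := (degreeOf_le_iff.1 (hQ j)) m hm
    omega
  have h2 := Finset.card_le_card h1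
  rw [Finset.card_image_of_injective _ DFunLike.coe_injective] at h2
  simpa using h2

theorem lg_prod_pow {K : Type} [Field K] {R : Subring K} (P : L3.Places K R) (w : P.Pl) {d : ℕ}
    {u : Fin d → K} (hu : ∀ j, u j ≠ 0) (m : Fin d → ℕ) (s : Finset (Fin d)) :
    P.lg w (∏ j ∈ s, u j ^ m j) = ∑ j ∈ s, (m j : ℝ) * P.lg w (u j) := by
  classical
  induction s using Finset.induction_on with
  | empty => rw [Finset.prod_empty, Finset.sum_empty, P.lg_one]
  | insert a s ha ih =>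
    rw [Finset.prod_insert ha, Finset.sum_insert ha, P.lg_mul w (pow_ne_zero _ (hu a))
      (Finset.prod_ne_zero_iff.2 fun j _ => pow_ne_zero _ (hu j)), P.lg_pow, ih]

theorem lg_int_le {K : Type} [Field K] {R : Subring K} (P : L3.Places K R) (w : P.Pl) {a : ℤ}
    {N : ℕ} (ha : |(a : ℝ)| ≤ Real.exp N) : P.lg w (a : K) ≤ P.arch w * N := by
  rcases w with i | j
  · rw [P.lg_inl, P.arch_inl, one_mul, map_intCast]
    rcases eq_or_ne a 0 with h0 | h0
    · subst h0
      simp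
    · have h1 : (0 : ℝ) < ‖(a : ℂ)‖ := by
        rw [norm_pos_iff]
        exact_mod_cast h0
      rw [Real.log_le_iff_le_exp h1, Complex.norm_intCast]
      exact ha
  · rw [P.lg_inr, P.arch_inr, zero_mul]
    exact Real.log_nonpos (AbsoluteValue.nonneg _ _) (P.v_int j a)

theorem log_bd {d N : ℕ} (hN : 1 ≤ N) {c : ℕ} (hc : c ≤ (N + 1) ^ d) :
    Real.log (c + 1) ≤ (1 + d) * N := by
  have h1 : ((c : ℝ) + 1) ≤ Real.exp ((1 + d) * N) := by
    have h2 : (c : ℝ) ≤ ((N : ℝ) + 1) ^ d := by exact_mod_cast hc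
    have h3 : ((N : ℝ) + 1) ≤ Real.exp N := Real.add_one_le_exp _
    have h4 : ((N : ℝ) + 1) ^ d ≤ Real.exp N ^ d := pow_le_pow_left₀ (by positivity) h3 d
    have h5 : (1 : ℝ) ≤ Real.exp N ^ d := one_le_pow₀ (Real.one_le_exp (by positivity))
    have h6 : (2 : ℝ) ≤ Real.exp N := by
      have : (1 : ℝ) ≤ N := by exact_mod_cast hN
      linarith
    have h7 : Real.exp ((1 + d) * N) = Real.exp N * Real.exp N ^ d := by
      rw [← Real.exp_nat_mul, ← Real.exp_add]
      congr 1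
      ring
    rw [h7]
    nlinarith
  rw [Real.log_le_iff_le_exp (by positivity)]
  exact h1

theorem lg_le {K : Type} [Field K] {R : Subring K} (P : L3.Places K R) (w : P.Pl) {d N : ℕ}
    (hN : 1 ≤ N) {Q : MvPolynomial (Fin d) ℤ} (hQ : ∀ i, Q.degreeOf i ≤ N)
    (hc : ∀ m, |((Q.coeff m : ℤ) : ℝ)| ≤ Real.exp N) {u : Fin d → K} (hu : ∀ j, u j ≠ 0) :
    P.lg w (aeval u Q) ≤ P.arch w * ((2 + d) * N) + N * ∑ j, |P.lg w (u j)| := by
  have ha := P.arch_nonneg w
  have hs : 0 ≤ ∑ j, |P.lg w (u j)| := Finset.sum_nonneg fun j _ => abs_nonneg _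
  have h1 := sum_bd P w Q.support (fun m => ((Q.coeff m : ℤ) : K) * ∏ j, u j ^ m j)
    (P.arch w * N + N * ∑ j, |P.lg w (u j)|) (by positivity) (by
      intro m hm h0
      have h2 : ((Q.coeff m : ℤ) : K) ≠ 0 := left_ne_zero_of_mul h0
      rw [P.lg_mul w h2 (right_ne_zero_of_mul h0), lg_prod_pow P w hu, Finset.mul_sum]
      refine add_le_add (lg_int_le P w (hc m)) (Finset.sum_le_sum fun j _ => ?_)
      have h3 : (m j : ℝ) ≤ N := by exact_mod_cast (degreeOf_le_iff.1 (hQ j)) m hm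
      calc (m j : ℝ) * P.lg w (u j) ≤ (m j : ℝ) * |P.lg w (u j)| :=
            mul_le_mul_of_nonneg_left (le_abs_self _) (by positivity)
        _ ≤ N * |P.lg w (u j)| := mul_le_mul_of_nonneg_right h3 (abs_nonneg _))
  rw [← aeval_sum] at h1
  have h4 := mul_le_mul_of_nonneg_left (log_bd hN (card_support_le hQ)) ha
  nlinarith

theorem isOpen_small {n d : ℕ} (y : Fin d → Fin n) (Q : MvPolynomial (Fin d) ℤ) (r : ℝ) :
    IsOpen {z : Fin n → ℂ | ‖aeval (fun j => z (y j)) Q‖ < r} := by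
  refine isOpen_lt (continuous_norm.comp ?_) continuous_const
  have h1 : (fun z : Fin n → ℂ => aeval (fun j => z (y j)) Q) =
      fun z => ∑ m ∈ Q.support, ((Q.coeff m : ℤ) : ℂ) * ∏ j, z (y j) ^ m j := by
    funext z
    exact aeval_sum _ _
  rw [h1]
  fun_prop

theorem ht_single {n : ℕ} (S : Sq n) (i : Fin n) (ν : ℕ) :
    S.ht (rv (Pi.single i 1)) ν = (S.W ν).avg (fun w => |(S.W ν).lg w (S.p ν i)|) := by
  rw [Sq.ht]
  congr 1
  funext w
  rw [dot_lam, mn_single]

theorem card_le {n : ℕ} (S : Sq n) (ν : ℕ) {B : ℝ} (hB : ∀ i, S.ht (rv (Pi.single i 1)) ν ≤ B)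
    {d N : ℕ} (hN : 1 ≤ N) (y : Fin d → Fin n) {Q : MvPolynomial (Fin d) ℤ}
    (hQ : ∀ i, Q.degreeOf i ≤ N) (hc : ∀ m, |((Q.coeff m : ℤ) : ℝ)| ≤ Real.exp N)
    (h0 : aeval (fun j => S.p ν (y j)) Q ≠ 0) (a : ℝ) :
    a * (Nat.card {σ : Fin (S.W ν).D // S.pt ν σ ∈
      {z : Fin n → ℂ | ‖aeval (fun j => z (y j)) Q‖ < Real.exp (-(a * N))}} : ℝ) ≤
      ((2 + d) + d * |B|) * (S.W ν).D := by
  classical
  set P := S.W ν with hP
  set u : Fin d → S.K ν := fun j => S.p ν (y j) with hu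
  set O : Set (Fin n → ℂ) := {z : Fin n → ℂ | ‖aeval (fun j => z (y j)) Q‖ <
    Real.exp (-(a * N))} with hO
  have hD := P.D_cast_pos
  have hN' : (0 : ℝ) < N := by exact_mod_cast hN
  have hu0 : ∀ j, u j ≠ 0 := fun j => S.ne ν _
  have hmem : aeval u Q ∈ S.R ν := aeval_mem _ (fun j => S.mem ν _) Q
  set f : P.Pl → ℝ := Sum.elim (fun σ => if S.pt ν σ ∈ O then a * N else 0) (fun _ => 0) with hf
  have h1 : ∀ w, P.lg w (aeval u Q) ≤
      ((2 + d) * N * P.arch w + N * ∑ j, |P.lg w (u j)|) - f w := by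
    intro w
    have h2 := lg_le P w hN hQ hc hu0
    have hs : 0 ≤ ∑ j, |P.lg w (u j)| := Finset.sum_nonneg fun j _ => abs_nonneg _
    have har := P.arch_nonneg w
    rcases w with σ | v
    · simp only [hf, Sum.elim_inl]
      split_ifs with hσ
      · have h3 : P.lg (.inl σ) (aeval u Q) ≤ -(a * N) := by
          rw [P.lg_inl]
          have h4 : P.σ σ (aeval u Q) = aeval (fun j => S.pt ν σ (y j)) Q := by
            rw [aeval_sum, aeval_sum, map_sum]
            refine Finset.sum_congr rfl fun m _ => ?_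
            rw [map_mul, map_intCast, map_prod]
            congr 1
            exact Finset.prod_congr rfl fun j _ => by rw [map_pow]; rfl
          have h5 : 0 < ‖P.σ σ (aeval u Q)‖ := by
            rw [norm_pos_iff]
            exact (map_ne_zero _).2 h0
          rw [Real.log_le_iff_le_exp h5, h4]
          exact le_of_lt hσ
        have h6 : 0 ≤ (2 + d) * N * P.arch (.inl σ) + N * ∑ j, |P.lg (.inl σ) (u j)| := by
          positivity
        linarith
      · linarith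
    · simp only [hf, Sum.elim_inr]
      linarith
  have h2 := (P.avg_lg_nonneg hmem h0).trans (P.avg_mono h1)
  rw [P.avg_sub, P.avg_add, P.avg_mul, P.avg_arch, P.avg_mul, P.avg_sum] at h2
  have h3 : ∑ j, P.avg (fun w => |P.lg w (u j)|) ≤ d * |B| := by
    calc ∑ j, P.avg (fun w => |P.lg w (u j)|) ≤ ∑ _j : Fin d, |B| := by
          refine Finset.sum_le_sum fun j _ => ?_
          have h4 := hB (y j)
          rw [ht_single] at h4
          exact h4.trans (le_abs_self B)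
      _ = d * |B| := by simp
  have h4 : P.avg f = a * N * (Nat.card {σ : Fin P.D // S.pt ν σ ∈ O} : ℝ) / P.D := by
    rw [L3.Places.avg]
    congr 1
    rw [Fintype.sum_sum_type]
    simp only [hf, Sum.elim_inl, Sum.elim_inr, Finset.sum_const_zero, add_zero]
    rw [← Finset.sum_filter, Finset.sum_const, nsmul_eq_mul, Nat.card_eq_fintype_card,
      Fintype.card_subtype]
    ring
  rw [h4] at h2
  have h5 : a * N * (Nat.card {σ : Fin P.D // S.pt ν σ ∈ O} : ℝ) / P.D ≤
      (2 + d) * N + N * (d * |B|) := by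
    have h6 := mul_le_mul_of_nonneg_left h3 hN'.le
    linarith
  rw [div_le_iff₀ hD] at h5
  have h6 : N * (a * (Nat.card {σ : Fin P.D // S.pt ν σ ∈ O} : ℝ)) ≤
      N * (((2 + d) + d * |B|) * P.D) := by
    linarith
  exact le_of_mul_le_mul_left h6 hN'

end NullPoly

theorem null_poly {n : ℕ} {𝓤 : Ultrafilter ℕ} {S : Sq n} {L : Type} [Field L] {x : Fin n → L}
    (hG : Gn 𝓤 S x) (B : ℝ)
    (hB : ∀ i, ∀ᶠ ν in (𝓤 : Filter ℕ), S.ht (rv (Pi.single i 1)) ν ≤ B) {k d : ℕ}
    (y : Fin d → Fin n) (hy : ∀ F : MvPolynomial (Fin d) ℤ, aeval (fun j => x (y j)) F = 0 → F = 0)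
    (hk : k < d) (ψ : (Fin k → ℂ) → Fin n → ℂ) (hψ : AnalyticOnNhd ℂ ψ (closedBall 0 2)) :
    Null 𝓤 S (ψ '' closedBall 0 1) := by
  intro θ hθ
  set c : ℝ := (2 + d) + d * |B| with hc
  have hc0 : 0 < c := by positivity
  have hψ' : AnalyticOnNhd ℂ (fun w => fun j => ψ w (y j)) (closedBall 0 2) := by
    refine AnalyticOnNhd.pi fun j => ?_
    exact (ContinuousLinearMap.proj (R := ℂ) (φ := fun _ : Fin n => ℂ) (y j)).comp_analyticOnNhd hψ
  obtain ⟨N, hN, Q, hQ0, hQd, hQc, hQs⟩ := exists_aux hk _ hψ' (1 + c / θ)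
  have hN' : (0 : ℝ) < N := by exact_mod_cast hN
  refine ⟨{z : Fin n → ℂ | ‖aeval (fun j => z (y j)) Q‖ < Real.exp (-(c / θ * N))},
    NullPoly.isOpen_small y Q _, ?_, ?_⟩
  · rintro _ ⟨w, hw, rfl⟩
    refine (hQs w hw).trans_lt ?_
    rw [Real.exp_lt_exp]
    linarith
  · have h1 : aeval x (rename y Q) ≠ 0 := by
      rw [aeval_rename]
      exact fun h => hQ0 (hy Q h)
    have h2 : ∀ᶠ ν in (𝓤 : Filter ℕ), aeval (S.p ν) (rename y Q) ≠ 0 := by
      rw [Ne, ← hG, ← Ultrafilter.eventually_not] at h1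
      exact h1
    filter_upwards [h2, Filter.eventually_all.2 hB] with ν h3 h4
    rw [aeval_rename] at h3
    have h5 := NullPoly.card_le S ν h4 hN y hQd hQc h3 (c / θ)
    rw [div_mul_eq_mul_div, div_le_iff₀ hθ] at h5
    have h6 : c * (Nat.card {σ : Fin (S.W ν).D // S.pt ν σ ∈
      {z : Fin n → ℂ | ‖aeval (fun j => z (y j)) Q‖ < Real.exp (-(c / θ * N))}} : ℝ) ≤
      c * (θ * (S.W ν).D) := by
      linarith
    exact le_of_mul_le_mul_left h6 hc0

end Pool.Agent.SD
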