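import Mathlib

set_option autoImplicit false

/-! Project SD (MP_c95b3b_ag), module ZC: zero sets of analytic functions are covered by countably
many images of polydiscs of smaller dimension. -/

namespace Pool.Agent.SD

open Filter Topology Metric

namespace ZeroCov

/-- the map replacing the `i`-th coordinate by `G`, linear part -/
private noncomputable def lin {k : ℕ} (i : Fin (k + 1)) (g : (Fin (k + 1) → ℂ) →L[ℂ] ℂ) :
    (Fin (k + 1) → ℂ) →L[ℂ] (Fin (k + 1) → ℂ) :=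
  ContinuousLinearMap.pi fun j => if j = i then g else ContinuousLinearMap.proj j

private theorem lin_apply {k : ℕ} (i : Fin (k + 1)) (g : (Fin (k + 1) → ℂ) →L[ℂ] ℂ)
    (v : Fin (k + 1) → ℂ) (j : Fin (k + 1)) :
    lin i g v j = if j = i then g v else v j := by
  unfold lin
  rw [ContinuousLinearMap.pi_apply]
  split_ifs <;> simp

private theorem lin_inj {k : ℕ} (i : Fin (k + 1)) (g : (Fin (k + 1) → ℂ) →L[ℂ] ℂ)
    (hg : g (Pi.single i 1) ≠ 0) : LinearMap.ker (lin i g).toLinearMap = ⊥ := by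
  rw [LinearMap.ker_eq_bot']
  intro v hv
  have hv' : ∀ j, lin i g v j = 0 := fun j => congrFun hv j
  have h1 : ∀ j, j ≠ i → v j = 0 := by
    intro j hj
    have := hv' j
    rw [lin_apply, if_neg hj] at this
    exact this
  have h2 : v = v i • (Pi.single i (1 : ℂ) : Fin (k + 1) → ℂ) := by
    funext j
    by_cases hj : j = i
    · subst hj; simp
    · simp [h1 j hj, hj]
  have h3 : g v = 0 := by
    have := hv' i
    rwa [lin_apply, if_pos rfl] at this
  have h4 : v i = 0 := by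
    rw [h2, map_smul, smul_eq_mul, mul_eq_zero] at h3
    rcases h3 with h3 | h3
    · exact h3
    · exact absurd h3 hg
  rw [h2, h4, zero_smul]

private theorem exists_single {k : ℕ} (g : (Fin (k + 1) → ℂ) →L[ℂ] ℂ) (hg : g ≠ 0) :
    ∃ i, g (Pi.single i 1) ≠ 0 := by
  by_contra hcon
  push Not at hcon
  apply hg
  ext v
  have : v = ∑ i, v i • (Pi.single i (1 : ℂ) : Fin (k + 1) → ℂ) := by
    funext j
    simp [Finset.sum_apply, Pi.single_apply]
  rw [this, map_sum]
  simp [hcon]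

end ZeroCov

open ZeroCov

/-- a smooth analytic hypersurface is locally the image of a polydisc -/
theorem smooth_cover {k : ℕ} (U : Set (Fin (k + 1) → ℂ)) (hU : IsOpen U)
    (G : (Fin (k + 1) → ℂ) → ℂ) (hG : AnalyticOnNhd ℂ G U) (z : Fin (k + 1) → ℂ) (hz : z ∈ U)
    (h0 : G z = 0) (h1 : fderiv ℂ G z ≠ 0) : ∃ φ : (Fin k → ℂ) → Fin (k + 1) → ℂ,
      AnalyticOnNhd ℂ φ (closedBall 0 2) ∧ Set.MapsTo φ (closedBall 0 2) U ∧
      ∀ᶠ w in 𝓝 z, G w = 0 → w ∈ φ '' closedBall 0 1 := by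
  classical
  obtain ⟨i, hi⟩ := exists_single _ h1
  -- the map `T`
  let T : (Fin (k + 1) → ℂ) → (Fin (k + 1) → ℂ) := fun w j => if j = i then G w else w j
  have hTan : AnalyticAt ℂ T z := by
    rw [analyticAt_pi_iff]
    intro j
    by_cases hj : j = i
    · simp only [hj, if_true]
      exact hG z hz
    · simp only [hj, if_false]
      exact (ContinuousLinearMap.proj (R := ℂ) (φ := fun _ : Fin (k + 1) => ℂ) j).analyticAt z
  have hTd : HasStrictFDerivAt T (lin i (fderiv ℂ G z)) z := by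
    rw [hasStrictFDerivAt_pi']
    intro j
    by_cases hj : j = i
    · have e1 : (fun w => T w j) = G := by funext w; simp [T, hj]
      have e2 : (ContinuousLinearMap.proj j).comp (lin i (fderiv ℂ G z)) = fderiv ℂ G z := by
        ext v
        simp [lin_apply, hj]
      rw [e1, e2]
      exact (hG z hz).hasStrictFDerivAt
    · have e1 : (fun w => T w j) = fun w => w j := by funext w; simp [T, hj]
      have e2 : (ContinuousLinearMap.proj j).comp (lin i (fderiv ℂ G z)) =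
          ContinuousLinearMap.proj j := by
        ext v
        simp [lin_apply, hj]
      rw [e1, e2]
      exact (ContinuousLinearMap.proj (R := ℂ) (φ := fun _ : Fin (k + 1) => ℂ) j).hasStrictFDerivAt
  let L : (Fin (k + 1) → ℂ) ≃L[ℂ] (Fin (k + 1) → ℂ) :=
    (LinearEquiv.ofInjectiveEndo (lin i (fderiv ℂ G z)).toLinearMap
      (LinearMap.ker_eq_bot.1 (lin_inj i _ hi))).toContinuousLinearEquiv
  have hL : (L : (Fin (k + 1) → ℂ) →L[ℂ] _) = lin i (fderiv ℂ G z) := by
    ext v j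
    rfl
  rw [← hL] at hTd
  let F := hTd.toOpenPartialHomeomorph T
  have hFc : (F : (Fin (k + 1) → ℂ) → _) = T := hTd.toOpenPartialHomeomorph_coe
  have hsrc : z ∈ F.source := hTd.mem_toOpenPartialHomeomorph_source
  have hsymm : AnalyticAt ℂ F.symm (T z) := by
    have := F.analyticAt_symm' (a := z) (i := L) hsrc (by rw [hFc]; exact hTan)
      (by rw [hFc]; exact hTd.hasFDerivAt.fderiv)
    rwa [hFc] at this
  have hTz : F.symm (T z) = z := by
    have := F.left_inv hsrc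
    rwa [hFc] at this
  -- the good neighbourhood
  have hev : ∀ᶠ y in 𝓝 (T z), AnalyticAt ℂ F.symm y ∧ F.symm y ∈ U := by
    refine hsymm.eventually_analyticAt.and ?_
    apply hsymm.continuousAt.eventually_mem
    rw [hTz]
    exact hU.mem_nhds hz
  obtain ⟨ε, hε, hball⟩ := Metric.eventually_nhds_iff_ball.1 hev
  set ρ : ℝ := ε / 3 with hρ
  have hρ0 : 0 < ρ := by positivity
  -- the parametrisation
  let ι : (Fin k → ℂ) → (Fin (k + 1) → ℂ) :=
    fun v => i.insertNth (0 : ℂ) fun j => z (i.succAbove j) + (ρ : ℂ) * v j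
  have hιan : ∀ v, AnalyticAt ℂ ι v := by
    intro v
    rw [analyticAt_pi_iff]
    intro j
    rcases Fin.eq_self_or_eq_succAbove i j with rfl | ⟨j', rfl⟩
    · simp only [Fin.insertNth_apply_same]
      exact analyticAt_const
    · simp only [Fin.insertNth_apply_succAbove]
      exact analyticAt_const.add (analyticAt_const.mul
        ((ContinuousLinearMap.proj (R := ℂ) (φ := fun _ : Fin k => ℂ) j').analyticAt v))
  have hιball : ∀ v ∈ closedBall (0 : Fin k → ℂ) 2, ι v ∈ ball (T z) ε := by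
    intro v hv
    rw [mem_ball, dist_pi_lt_iff hε]
    intro j
    rcases Fin.eq_self_or_eq_succAbove i j with rfl | ⟨j', rfl⟩
    · simp [ι, T, h0, hε]
    · simp only [ι, T, Fin.insertNth_apply_succAbove, Fin.succAbove_ne, if_false]
      rw [dist_eq_norm, add_sub_cancel_left, norm_mul, Complex.norm_real, Real.norm_of_nonneg hρ0.le]
      have : ‖v j'‖ ≤ 2 := by
        have h2 := norm_le_pi_norm v j'
        rw [mem_closedBall, dist_zero_right] at hv
        linarith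
      nlinarith
  refine ⟨fun v => F.symm (ι v), ?_, ?_, ?_⟩
  · intro v hv
    exact (hball _ (hιball v hv)).1.comp (hιan v)
  · intro v hv
    exact (hball _ (hιball v hv)).2
  · have h3 : ∀ᶠ w in 𝓝 z, F.symm (T w) = w := by
      have := F.eventually_left_inverse hsrc
      rwa [hFc] at this
    have h4 : ∀ᶠ w in 𝓝 z, w ∈ ball z ρ := ball_mem_nhds z hρ0
    filter_upwards [h3, h4] with w hw3 hw4 hGw
    refine ⟨fun j => (ρ : ℂ)⁻¹ * (w (i.succAbove j) - z (i.succAbove j)), ?_, ?_⟩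
    · rw [mem_closedBall, dist_zero_right, pi_norm_le_iff_of_nonneg zero_le_one]
      intro j
      rw [norm_mul, norm_inv, Complex.norm_real, Real.norm_of_nonneg hρ0.le,
        inv_mul_le_iff₀ hρ0, mul_one]
      have h5 : dist (w (i.succAbove j)) (z (i.succAbove j)) ≤ dist w z := dist_le_pi_dist w z _
      rw [mem_ball] at hw4
      rw [← dist_eq_norm]
      linarith
    · have h6 : ι (fun j => (ρ : ℂ)⁻¹ * (w (i.succAbove j) - z (i.succAbove j))) = T w := by
        funext j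
        rcases Fin.eq_self_or_eq_succAbove i j with rfl | ⟨j', rfl⟩
        · simp [ι, T, hGw]
        · simp only [ι, T, Fin.insertNth_apply_succAbove, Fin.succAbove_ne, if_false]
          have : (ρ : ℂ) ≠ 0 := by exact_mod_cast hρ0.ne'
          field_simp
          ring
      simp only [h6]
      exact hw3

namespace ZeroCov

/-- iterated partial derivatives -/
private noncomputable def H {k : ℕ} (G : (Fin (k + 1) → ℂ) → ℂ) (p : Σ n : ℕ, (Fin n → Fin (k + 1))) :
    (Fin (k + 1) → ℂ) → ℂ :=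
  fun w => iteratedFDeriv ℂ p.1 G w fun j => Pi.single (p.2 j) 1

private theorem H_an {k : ℕ} (U : Set (Fin (k + 1) → ℂ)) (hU : IsOpen U)
    (G : (Fin (k + 1) → ℂ) → ℂ) (hG : AnalyticOnNhd ℂ G U)
    (p : Σ n : ℕ, (Fin n → Fin (k + 1))) : AnalyticOnNhd ℂ (H G p) U := by
  intro w hw
  have h1 := hG.iteratedFDeriv_of_isOpen hU p.1 w hw
  have h2 := (ContinuousMultilinearMap.apply ℂ (fun _ : Fin p.1 => (Fin (k + 1) → ℂ)) ℂ
    (fun j => Pi.single (p.2 j) 1)).analyticAt (iteratedFDeriv ℂ p.1 G w)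
  exact h2.comp h1

private theorem H_fderiv {k : ℕ} (U : Set (Fin (k + 1) → ℂ)) (hU : IsOpen U)
    (G : (Fin (k + 1) → ℂ) → ℂ) (hG : AnalyticOnNhd ℂ G U) (n : ℕ)
    (m : Fin (n + 1) → Fin (k + 1)) (w : Fin (k + 1) → ℂ) (hw : w ∈ U) :
    fderiv ℂ (H G ⟨n, Fin.tail m⟩) w (Pi.single (m 0) 1) = H G ⟨n + 1, m⟩ w := by
  have h1 := (hG.iteratedFDeriv_of_isOpen hU n w hw).differentiableAt
  have h2 : H G ⟨n, Fin.tail m⟩ = (ContinuousMultilinearMap.apply ℂ
      (fun _ : Fin n => (Fin (k + 1) → ℂ)) ℂ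
      (fun j => Pi.single (Fin.tail m j) 1)) ∘ iteratedFDeriv ℂ n G := rfl
  rw [h2, ((ContinuousMultilinearMap.apply ℂ (fun _ : Fin n => (Fin (k + 1) → ℂ)) ℂ
    (fun j => Pi.single (Fin.tail m j) 1)).hasFDerivAt.comp w h1.hasFDerivAt).fderiv]
  simp only [H]
  rw [iteratedFDeriv_succ_apply_left]
  rfl

/-- if all iterated derivatives vanish at `z`, the function vanishes near `z` -/
private theorem eventually_zero {k : ℕ} (G : (Fin (k + 1) → ℂ) → ℂ) (z : Fin (k + 1) → ℂ)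
    (hG : AnalyticAt ℂ G z) (h : ∀ p, H G p z = 0) : ∀ᶠ w in 𝓝 z, G w = 0 := by
  have h1 : ∀ n, iteratedFDeriv ℂ n G z = 0 := by
    intro n
    apply ContinuousMultilinearMap.toMultilinearMap_injective
    apply Module.Basis.ext_multilinear (fun _ => Pi.basisFun ℂ (Fin (k + 1)))
    intro v
    have := h ⟨n, v⟩
    simp only [H] at this
    simpa [Pi.basisFun_apply] using this
  obtain ⟨p, r, hp⟩ := hG
  have h2 : ∀ᶠ w in 𝓝 z, w ∈ Metric.eball z r := Metric.eball_mem_nhds z hp.r_pos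
  filter_upwards [h2] with w hw
  have h3 := hp.hasSum_sub hw
  have h4 : ∀ n, (p n fun _ => w - z) = 0 := by
    intro n
    have h5 := hp.factorial_smul (w - z) n
    rw [h1 n] at h5
    have h6 : (n.factorial : ℂ) • (p n fun _ => w - z) = 0 := by
      rw [Nat.cast_smul_eq_nsmul]
      simpa using h5
    rcases smul_eq_zero.1 h6 with h7 | h7
    · exact absurd h7 (by exact_mod_cast n.factorial_ne_zero)
    · exact h7
  simp only [h4] at h3
  exact h3.unique hasSum_zero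

end ZeroCov

theorem zero_cover {k : ℕ} (U : Set (Fin (k + 1) → ℂ)) (hU : IsOpen U)
    (G : (Fin (k + 1) → ℂ) → ℂ) (hG : AnalyticOnNhd ℂ G U)
    (hne : ∀ z ∈ U, ¬ ∀ᶠ w in 𝓝 z, G w = 0) :
    ∃ 𝒜 : Set ((Fin k → ℂ) → Fin (k + 1) → ℂ), 𝒜.Countable ∧
      (∀ φ ∈ 𝒜, AnalyticOnNhd ℂ φ (closedBall 0 2) ∧ Set.MapsTo φ (closedBall 0 2) U) ∧
      {z | z ∈ U ∧ G z = 0} ⊆ ⋃ φ ∈ 𝒜, φ '' closedBall 0 1 := by
  classical
  -- the smooth pieces
  let Z : (Σ n : ℕ, (Fin n → Fin (k + 1))) → Set (Fin (k + 1) → ℂ) :=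
    fun p => {z | z ∈ U ∧ H G p z = 0 ∧ fderiv ℂ (H G p) z ≠ 0}
  have hcov : ∀ z ∈ U, G z = 0 → ∃ p, z ∈ Z p := by
    intro z hz hGz
    by_contra hcon
    push Not at hcon
    apply hne z hz
    apply eventually_zero G z (hG z hz)
    have key : ∀ n : ℕ, ∀ m : Fin n → Fin (k + 1), H G ⟨n, m⟩ z = 0 := by
      intro n
      induction n with
      | zero =>
        intro m
        simp only [H, iteratedFDeriv_zero_apply]
        exact hGz
      | succ n ih =>
        intro m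
        rw [← H_fderiv U hU G hG n m z hz]
        have h1 : fderiv ℂ (H G ⟨n, Fin.tail m⟩) z = 0 := by
          by_contra h2
          exact hcon ⟨n, Fin.tail m⟩ ⟨hz, ih _, h2⟩
        rw [h1]
        rfl
    rintro ⟨n, m⟩
    exact key n m
  have hpiece : ∀ p, ∃ 𝒜 : Set ((Fin k → ℂ) → Fin (k + 1) → ℂ), 𝒜.Countable ∧
      (∀ φ ∈ 𝒜, AnalyticOnNhd ℂ φ (closedBall 0 2) ∧ Set.MapsTo φ (closedBall 0 2) U) ∧
      Z p ⊆ ⋃ φ ∈ 𝒜, φ '' closedBall 0 1 := by
    intro p
    have hsm : ∀ z ∈ Z p, ∃ φ : (Fin k → ℂ) → Fin (k + 1) → ℂ,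
        AnalyticOnNhd ℂ φ (closedBall 0 2) ∧ Set.MapsTo φ (closedBall 0 2) U ∧
        ∀ᶠ w in 𝓝 z, H G p w = 0 → w ∈ φ '' closedBall 0 1 :=
      fun z hz => smooth_cover U hU (H G p) (H_an U hU G hG p) z hz.1 hz.2.1 hz.2.2
    choose! φ hφ1 hφ2 hφ3 using hsm
    have hnb : ∀ z ∈ Z p, φ z '' closedBall 0 1 ∈ 𝓝[Z p] z := by
      intro z hz
      rw [mem_nhdsWithin_iff_eventually]
      filter_upwards [hφ3 z hz] with w hw hwZ
      exact hw hwZ.2.1
    obtain ⟨t, htZ, htc, hcovt⟩ := TopologicalSpace.countable_cover_nhdsWithin hnb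
    refine ⟨φ '' t, htc.image φ, ?_, ?_⟩
    · rintro _ ⟨z, hz, rfl⟩
      exact ⟨hφ1 z (htZ hz), hφ2 z (htZ hz)⟩
    · rw [Set.biUnion_image]
      exact hcovt
  choose 𝒜 h𝒜1 h𝒜2 h𝒜3 using hpiece
  refine ⟨⋃ p, 𝒜 p, Set.countable_iUnion h𝒜1, ?_, ?_⟩
  · intro φ hφ
    obtain ⟨p, hp⟩ := Set.mem_iUnion.1 hφ
    exact h𝒜2 p φ hp
  · rintro z ⟨hz, hGz⟩
    obtain ⟨p, hp⟩ := hcov z hz hGz
    have h1 := h𝒜3 p hp
    rw [Set.mem_iUnion₂] at h1 ⊢
    obtain ⟨φ, hφ, hzφ⟩ := h1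
    exact ⟨φ, Set.mem_iUnion.2 ⟨p, hφ⟩, hzφ⟩

end Pool.Agent.SD
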