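import Mathlib
import Pool.Agent.Lib.MP_c95b3b_ag_SD.NullDef
import Pool.Agent.Lib.MP_c95b3b_ag_SD.NullPoly
import Pool.Agent.Lib.MP_c95b3b_ag_SD.GenPt
import Pool.Agent.Lib.MP_c95b3b_ag_SD.AdRel
import Pool.Agent.Lib.MP_c95b3b_ag_SD.ZeroCov

set_option autoImplicit false

/-! Project SD (MP_c95b3b_ag), module LN: `d + 1` real conditions on the variety, near a point of
a chart where the first `d` forms are independent. -/

namespace Pool.Agent.SD

open MvPolynomial Filter Topology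

/-- the parameters `t` in `T` with `∑ l, u i l * log |ψ t l| = 0` for all `i` -/
def Su {d n k : ℕ} (u : Fin k → Fin n → ℝ) (ψ : (Fin d → ℂ) → Fin n → ℂ)
    (T : Set (Fin d → ℂ)) : Set (Fin d → ℂ) :=
  {t | t ∈ T ∧ ∀ i, ∑ l, u i l * Real.log ‖ψ t l‖ = 0}

namespace LocNull

/-- coordinatewise conjugation -/
def cv {d : ℕ} (v : Fin d → ℂ) : Fin d → ℂ := fun i => (starRingEnd ℂ) (v i)

theorem cv_cv {d : ℕ} (v : Fin d → ℂ) : cv (cv v) = v := by
  funext i
  exact Complex.conj_conj (v i)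

theorem cv_add {d : ℕ} (v w : Fin d → ℂ) : cv (v + w) = cv v + cv w := by
  funext i
  exact map_add _ _ _

theorem cv_smul {d : ℕ} (a : ℂ) (w : Fin d → ℂ) : cv (a • w) = (starRingEnd ℂ) a • cv w := by
  funext i
  exact map_mul _ _ _

theorem norm_cv {d : ℕ} (v : Fin d → ℂ) : ‖cv v‖ = ‖v‖ := by
  have h : ∀ w : Fin d → ℂ, ‖cv w‖ ≤ ‖w‖ := fun w =>
    (pi_norm_le_iff_of_nonneg (norm_nonneg _)).2 fun i => by
      show ‖(starRingEnd ℂ) (w i)‖ ≤ ‖w‖
      rw [RCLike.norm_conj]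
      exact norm_le_pi_norm w i
  refine le_antisymm (h v) ?_
  have := h (cv v)
  rwa [cv_cv] at this

theorem cv_rc {d : ℕ} (t : Fin d → ℝ) : cv (fun i => (t i : ℂ)) = fun i => (t i : ℂ) := by
  funext i
  exact Complex.conj_ofReal (t i)

/-- the conjugate of a multilinear map -/
noncomputable def cm {d n : ℕ} (p : (Fin d → ℂ) [×n]→L[ℂ] ℂ) : (Fin d → ℂ) [×n]→L[ℂ] ℂ :=
  MultilinearMap.mkContinuous
    { toFun := fun m => (starRingEnd ℂ) (p fun i => cv (m i))
      map_update_add' := by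
        intro _ m i x y
        have h : ∀ z : Fin d → ℂ, (fun j => cv (Function.update m i z j)) =
            Function.update (fun j => cv (m j)) i (cv z) := fun z => by
          funext j
          by_cases hj : j = i
          · subst hj
            simp
          · simp [hj]
        simp only [h, cv_add, ContinuousMultilinearMap.map_update_add, map_add]
      map_update_smul' := by
        intro _ m i a x
        have h : ∀ z : Fin d → ℂ, (fun j => cv (Function.update m i z j)) =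
            Function.update (fun j => cv (m j)) i (cv z) := fun z => by
          funext j
          by_cases hj : j = i
          · subst hj
            simp
          · simp [hj]
        simp only [h, cv_smul, ContinuousMultilinearMap.map_update_smul, smul_eq_mul, map_mul,
          Complex.conj_conj] }
    ‖p‖ (fun m => by
      show ‖(starRingEnd ℂ) (p fun i => cv (m i))‖ ≤ _
      rw [RCLike.norm_conj]
      refine (p.le_opNorm _).trans ?_
      simp only [norm_cv]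
      exact le_rfl)

theorem cm_apply {d n : ℕ} (p : (Fin d → ℂ) [×n]→L[ℂ] ℂ) (m : Fin n → Fin d → ℂ) :
    cm p m = (starRingEnd ℂ) (p fun i => cv (m i)) := rfl

theorem norm_cm_le {d n : ℕ} (p : (Fin d → ℂ) [×n]→L[ℂ] ℂ) : ‖cm p‖ ≤ ‖p‖ :=
  MultilinearMap.mkContinuous_norm_le _ (norm_nonneg _) _

/-- the conjugate of an analytic function is analytic -/
theorem analyticAt_cj {d : ℕ} {g : (Fin d → ℂ) → ℂ} {z : Fin d → ℂ}
    (h : AnalyticAt ℂ g (cv z)) : AnalyticAt ℂ (fun v => (starRingEnd ℂ) (g (cv v))) z := by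
  obtain ⟨p, r, hp⟩ := h
  refine ⟨fun n => cm (p n), r, ⟨?_, hp.r_pos, fun {y} hy => ?_⟩⟩
  · refine hp.r_le.trans ?_
    refine iSup_mono fun r => iSup_mono fun C => ?_
    refine iSup_le fun h => ?_
    refine le_iSup_of_le (fun n => ?_) le_rfl
    refine le_trans ?_ (h n)
    gcongr
    exact norm_cm_le (p n)
  · have hy' : cv y ∈ Metric.eball (0 : Fin d → ℂ) r := by
      rw [Metric.mem_eball, edist_zero_right] at hy ⊢
      have : ‖cv y‖ₑ = ‖y‖ₑ := by
        rw [← ofReal_norm, ← ofReal_norm, norm_cv]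
      rwa [this]
    have h1 := hp.hasSum hy'
    have h2 := h1.map (starRingEnd ℂ) Complex.continuous_conj
    rw [cv_add]
    exact h2


/-- the inverse function theorem -/
theorem exists_inv {d : ℕ} {W : (Fin d → ℂ) → Fin d → ℂ} {t1 : Fin d → ℂ}
    (hW : AnalyticAt ℂ W t1) (A : Matrix (Fin d) (Fin d) ℂ) (hA : A.det ≠ 0)
    (hfd : ∀ j i, fderiv ℂ W t1 (Pi.single i 1) j = A j i) (h0 : W t1 = 0) :
    ∃ Th : (Fin d → ℂ) → Fin d → ℂ, AnalyticAt ℂ Th 0 ∧ Th 0 = t1 ∧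
      (∀ᶠ w in 𝓝 0, W (Th w) = w) ∧ ∀ᶠ t in 𝓝 t1, Th (W t) = t := by
  classical
  have hdet : (fderiv ℂ W t1).det ≠ 0 := by
    have h1 : LinearMap.toMatrix' (fderiv ℂ W t1 : (Fin d → ℂ) →ₗ[ℂ] Fin d → ℂ) = A := by
      ext j i
      rw [LinearMap.toMatrix'_apply]
      have h2 : (fun j' => if j' = i then (1 : ℂ) else 0) = Pi.single i 1 := by
        funext j'
        rw [Pi.single_apply]
      rw [← hfd j i, ← h2]
      rfl
    rw [ContinuousLinearMap.det, ← LinearMap.det_toMatrix', h1]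
    exact hA
  have hs : HasStrictFDerivAt W
      ((fderiv ℂ W t1).toContinuousLinearEquivOfDetNeZero hdet : (Fin d → ℂ) →L[ℂ] Fin d → ℂ)
      t1 := by
    rw [ContinuousLinearMap.coe_toContinuousLinearEquivOfDetNeZero]
    exact hW.hasStrictFDerivAt
  let e := hs.toOpenPartialHomeomorph W
  have he : ∀ t, e t = W t := fun t => rfl
  have h1 : t1 ∈ e.source := hs.mem_toOpenPartialHomeomorph_source
  have h2 : AnalyticAt ℂ e.symm (e t1) := by
    refine e.analyticAt_symm' (i := (fderiv ℂ W t1).toContinuousLinearEquivOfDetNeZero hdet) h1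
      hW ?_
    rw [ContinuousLinearMap.coe_toContinuousLinearEquivOfDetNeZero]
    rfl
  have h3 : e t1 = 0 := h0
  refine ⟨e.symm, by rw [h3] at h2; exact h2, ?_, ?_, ?_⟩
  · rw [← h3]
    exact e.left_inv h1
  · have h4 : (0 : Fin d → ℂ) ∈ e.target := by
      rw [← h3]
      exact e.map_source h1
    filter_upwards [e.open_target.mem_nhds h4] with w hw
    exact e.right_inv hw
  · filter_upwards [e.open_source.mem_nhds h1] with t ht
    exact e.left_inv ht

/-- the logarithm of a monomial with real exponents, normalised at `t1` -/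
noncomputable def FF {d n m : ℕ} (u : Fin m → Fin n → ℝ) (ℓ : (Fin d → ℂ) → Fin n → ℂ)
    (t1 : Fin d → ℂ) (i : Fin m) (t : Fin d → ℂ) : ℂ :=
  ∑ l, (u i l : ℂ) * (ℓ t l - ℓ t1 l)

theorem FF_an {d n m : ℕ} (u : Fin m → Fin n → ℝ) {ℓ : (Fin d → ℂ) → Fin n → ℂ}
    (t1 : Fin d → ℂ) (i : Fin m) {t : Fin d → ℂ} (h : AnalyticAt ℂ ℓ t) :
    AnalyticAt ℂ (FF u ℓ t1 i) t := by
  unfold FF
  refine Finset.analyticAt_fun_sum _ fun l _ => ?_
  exact analyticAt_const.mul ((analyticAt_pi_iff.1 h l).sub analyticAt_const)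

theorem FF_re {d n m : ℕ} {u : Fin m → Fin n → ℝ} {ℓ ψ : (Fin d → ℂ) → Fin n → ℂ}
    {t1 : Fin d → ℂ} {i : Fin m} (h1 : ∀ l, (ℓ t1 l).re = Real.log ‖ψ t1 l‖)
    (h2 : ∑ l, u i l * Real.log ‖ψ t1 l‖ = 0) {t : Fin d → ℂ}
    (h3 : ∀ l, (ℓ t l).re = Real.log ‖ψ t l‖) :
    (FF u ℓ t1 i t).re = ∑ l, u i l * Real.log ‖ψ t l‖ := by
  unfold FF
  rw [Complex.re_sum]
  have h4 : ∀ l, ((u i l : ℂ) * (ℓ t l - ℓ t1 l)).re =
      u i l * Real.log ‖ψ t l‖ - u i l * Real.log ‖ψ t1 l‖ := fun l => by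
    rw [Complex.re_ofReal_mul, Complex.sub_re, h1, h3, mul_sub]
  rw [Finset.sum_congr rfl fun l _ => h4 l, Finset.sum_sub_distrib, h2, sub_zero]

theorem FF_deriv {d n m : ℕ} (u : Fin m → Fin n → ℝ) {ℓ : (Fin d → ℂ) → Fin n → ℂ}
    {t1 : Fin d → ℂ} (i : Fin m) (h : AnalyticAt ℂ ℓ t1) :
    HasFDerivAt (FF u ℓ t1 i)
      (∑ l, (u i l : ℂ) • ((ContinuousLinearMap.proj l).comp (fderiv ℂ ℓ t1))) t1 := by
  unfold FF
  refine HasFDerivAt.fun_sum fun l _ => ?_
  have h2 := (hasFDerivAt_pi'.1 h.differentiableAt.hasFDerivAt) l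
  exact (h2.sub_const (ℓ t1 l)).const_mul _

/-- multiplication by an imaginary number -/
noncomputable def mu (d : ℕ) (ρ : ℝ) : (Fin d → ℂ) →L[ℂ] Fin d → ℂ :=
  (Complex.I * (ρ : ℂ)) • ContinuousLinearMap.id ℂ (Fin d → ℂ)

theorem mu_apply (d : ℕ) (ρ : ℝ) (v : Fin d → ℂ) : mu d ρ v = (Complex.I * (ρ : ℂ)) • v := rfl

theorem norm_mu (d : ℕ) {ρ : ℝ} (hρ : 0 < ρ) (v : Fin d → ℂ) : ‖mu d ρ v‖ = ρ * ‖v‖ := by
  rw [mu_apply, norm_smul, norm_mul, Complex.norm_I, one_mul, Complex.norm_real,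
    Real.norm_of_nonneg hρ.le]

end LocNull

open LocNull

theorem loc_null {n : ℕ} {𝓤 : Ultrafilter ℕ} {S : Sq n} {L : Type} [Field L] [Algebra ℂ L]
    {x : Fin n → L} {k : ℕ} {κ : Fin (k + 1) → Fin n} {z0 : Fin n → ℂ}
    (hκ : AlgebraicIndependent ℂ (fun j => x (κ j))) (hG : Gn 𝓤 S x) (B : ℝ)
    (hB : ∀ i, ∀ᶠ ν in (𝓤 : Filter ℕ), S.ht (rv (Pi.single i 1)) ν ≤ B)
    (c : Chart x κ z0) (u : Fin (k + 1 + 1) → Fin n → ℝ) (hNC : ¬ Circ (d := k + 1) x u)
    (t1 : Fin (k + 1) → ℂ) (ht1 : t1 ∈ Su u c.ψ c.U)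
    (hdet : (jac (fun j => u j.castSucc) c.ψ t1).det ≠ 0) :
    ∃ V ∈ 𝓝 t1, NullC 𝓤 S (c.ψ '' (Su u c.ψ c.U ∩ V)) := by
  classical
  have htU : t1 ∈ c.U := ht1.1
  have hne : ∀ l, c.ψ t1 l ≠ 0 := (c.on t1 htU).1
  obtain ⟨ℓ, hℓ, hℓe⟩ := exists_log (c.an t1 htU) hne
  have hℓ1 := hℓe.self_of_nhds
  let W : (Fin (k + 1) → ℂ) → Fin (k + 1) → ℂ := fun t j => FF u ℓ t1 j.castSucc t
  have hW : AnalyticAt ℂ W t1 := analyticAt_pi_iff.2 fun j => FF_an u t1 j.castSucc hℓ
  have hW0 : W t1 = 0 := by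
    funext j
    show FF u ℓ t1 j.castSucc t1 = 0
    simp [FF]
  have hWd : ∀ j i, fderiv ℂ W t1 (Pi.single i 1) j =
      jac (fun j => u j.castSucc) c.ψ t1 j i := by
    intro j i
    have h1 : HasFDerivAt W (fderiv ℂ W t1) t1 := hW.differentiableAt.hasFDerivAt
    have h2 := ((hasFDerivAt_pi'.1 h1) j).unique (FF_deriv u j.castSucc hℓ)
    have h3 := DFunLike.congr_fun h2 (Pi.single i 1)
    have h4 : fderiv ℂ W t1 (Pi.single i 1) j =
        (∑ l, (u j.castSucc l : ℂ) • ((ContinuousLinearMap.proj l).comp (fderiv ℂ ℓ t1)) :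
          (Fin (k + 1) → ℂ) →L[ℂ] ℂ) (Pi.single i 1) := h3
    rw [h4]
    unfold jac
    rw [sum_apply]
    refine Finset.sum_congr rfl fun l _ => ?_
    rw [← hℓ1.2.2.2 (Pi.single i 1) l]
    rfl
  obtain ⟨Th, hTh, hTh0, hWT, hTW⟩ := exists_inv hW _ hdet hWd hW0
  -- the radius
  have hTc : Tendsto Th (𝓝 0) (𝓝 t1) := by
    have := hTh.continuousAt
    rw [ContinuousAt, hTh0] at this
    exact this
  obtain ⟨ε, hε, hball⟩ := Metric.eventually_nhds_iff_ball.1
    ((hTh.eventually_analyticAt.and (hTc.eventually (c.isOpen.mem_nhds htU))).and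
      ((hTc.eventually hℓe).and hWT))
  let ρ : ℝ := ε / 3
  have hρ : 0 < ρ := by positivity
  have hmem : ∀ v ∈ Metric.ball (0 : Fin (k + 1) → ℂ) 3,
      mu (k + 1) ρ v ∈ Metric.ball (0 : Fin (k + 1) → ℂ) ε := by
    intro v hv
    rw [mem_ball_zero_iff] at hv ⊢
    rw [norm_mu _ hρ]
    show ε / 3 * ‖v‖ < ε
    nlinarith
  let χ : (Fin (k + 1) → ℂ) → Fin n → ℂ := fun v => c.ψ (Th (mu (k + 1) ρ v))
  have hmuan : ∀ v, AnalyticAt ℂ (fun v => mu (k + 1) ρ v) v := fun v =>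
    (mu (k + 1) ρ).analyticAt v
  have hThan : ∀ v ∈ Metric.ball (0 : Fin (k + 1) → ℂ) 3,
      AnalyticAt ℂ (fun v => Th (mu (k + 1) ρ v)) v := fun v hv =>
    AnalyticAt.comp (g := Th) (f := fun v => mu (k + 1) ρ v) (hball _ (hmem v hv)).1.1 (hmuan v)
  have hχan : ∀ v ∈ Metric.ball (0 : Fin (k + 1) → ℂ) 3, AnalyticAt ℂ χ v := fun v hv =>
    AnalyticAt.comp (g := c.ψ) (f := fun v => Th (mu (k + 1) ρ v))
      (c.an _ (hball _ (hmem v hv)).1.2) (hThan v hv)
  have hgan : ∀ i, ∀ v ∈ Metric.ball (0 : Fin (k + 1) → ℂ) 3,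
      AnalyticAt ℂ (fun v => FF u ℓ t1 i (Th (mu (k + 1) ρ v))) v := fun i v hv =>
    AnalyticAt.comp (g := FF u ℓ t1 i) (f := fun v => Th (mu (k + 1) ρ v))
      (FF_an u t1 i (hball _ (hmem v hv)).2.1.1) (hThan v hv)
  let g : (Fin (k + 1) → ℂ) → ℂ := fun v => FF u ℓ t1 (Fin.last (k + 1)) (Th (mu (k + 1) ρ v))
  let G : (Fin (k + 1) → ℂ) → ℂ := fun v => g v + (starRingEnd ℂ) (g (cv v))
  have hGan : AnalyticOnNhd ℂ G (Metric.ball 0 3) := by
    intro v hv
    refine (hgan _ v hv).add (analyticAt_cj ?_)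
    refine hgan _ (cv v) ?_
    rw [mem_ball_zero_iff] at hv ⊢
    rwa [norm_cv]
  -- real parts
  have hre : ∀ i, ∀ v ∈ Metric.ball (0 : Fin (k + 1) → ℂ) 3,
      (FF u ℓ t1 i (Th (mu (k + 1) ρ v))).re = ∑ l, u i l * Real.log ‖χ v l‖ := fun i v hv =>
    FF_re hℓ1.2.2.1 (ht1.2 i) (hball _ (hmem v hv)).2.1.2.2.1
  have hWv : ∀ v ∈ Metric.ball (0 : Fin (k + 1) → ℂ) 3, ∀ j : Fin (k + 1),
      FF u ℓ t1 j.castSucc (Th (mu (k + 1) ρ v)) = Complex.I * ρ * v j := fun v hv j =>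
    congrFun (hball _ (hmem v hv)).2.2 j
  have hGre : ∀ v : Fin (k + 1) → ℂ, cv v = v → G v = ((2 * (g v).re : ℝ) : ℂ) := by
    intro v hv
    show g v + (starRingEnd ℂ) (g (cv v)) = _
    rw [hv, Complex.add_conj]
  by_cases hvan : ∃ z ∈ Metric.ball (0 : Fin (k + 1) → ℂ) 3, ∀ᶠ w in 𝓝 z, G w = 0
  · exfalso
    obtain ⟨z, hz, hz0⟩ := hvan
    have hG0 : Set.EqOn G 0 (Metric.ball 0 3) :=
      hGan.eqOn_zero_of_preconnected_of_eventuallyEq_zero
        (convex_ball (0 : Fin (k + 1) → ℂ) 3).isPreconnected hz hz0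
    have hsub : Metric.ball (0 : Fin (k + 1) → ℂ) 1 ⊆ Metric.ball 0 3 :=
      Metric.ball_subset_ball (by norm_num)
    have h03 : (0 : Fin (k + 1) → ℂ) ∈ Metric.ball (0 : Fin (k + 1) → ℂ) 3 :=
      Metric.mem_ball_self (by norm_num)
    refine hNC ⟨χ, fun w hw => hχan w (hsub hw),
      fun w hw => c.on _ (hball _ (hmem w (hsub hw))).1.2, ?_, ?_⟩
    · -- injectivity of the derivative
      let P : (Fin n → ℂ) →L[ℂ] (Fin (k + 1) → ℂ) :=
        ContinuousLinearMap.pi fun j => ContinuousLinearMap.proj (κ j)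
      have hP : ∀ v ∈ Metric.ball (0 : Fin (k + 1) → ℂ) 3, P (χ v) = Th (mu (k + 1) ρ v) := by
        intro v hv
        funext j
        exact c.coord _ (hball _ (hmem v hv)).1.2 j
      have hχ0 : HasFDerivAt χ (fderiv ℂ χ 0) 0 :=
        (hχan 0 h03).differentiableAt.hasFDerivAt
      have hP0 : P (χ 0) = t1 := by
        rw [hP 0 h03, map_zero, hTh0]
      have hWat : HasFDerivAt W (fderiv ℂ W t1) (P (χ 0)) := by
        rw [hP0]
        exact hW.differentiableAt.hasFDerivAt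
      have h1 : HasFDerivAt (fun v => W (P (χ v)))
          ((fderiv ℂ W t1).comp (P.comp (fderiv ℂ χ 0))) 0 :=
        HasFDerivAt.comp (g := W) (f := fun v => P (χ v)) 0 hWat
          (HasFDerivAt.comp (g := P) (f := χ) 0 P.hasFDerivAt hχ0)
      have h2 : (fun v => W (P (χ v))) =ᶠ[𝓝 0] fun v => mu (k + 1) ρ v := by
        filter_upwards [Metric.isOpen_ball.mem_nhds h03] with v hv
        rw [hP v hv]
        exact (hball _ (hmem v hv)).2.2
      have h3 : HasFDerivAt (fun v => W (P (χ v))) (mu (k + 1) ρ) 0 :=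
        (mu (k + 1) ρ).hasFDerivAt.congr_of_eventuallyEq h2
      have h4 := h1.unique h3
      intro a b hab
      have h5 : mu (k + 1) ρ a = mu (k + 1) ρ b := by
        rw [← h4]
        show fderiv ℂ W t1 (P (fderiv ℂ χ 0 a)) = fderiv ℂ W t1 (P (fderiv ℂ χ 0 b))
        rw [hab]
      rw [mu_apply, mu_apply] at h5
      have h6 : Complex.I * (ρ : ℂ) ≠ 0 :=
        mul_ne_zero Complex.I_ne_zero (Complex.ofReal_ne_zero.2 hρ.ne')
      exact smul_right_injective _ h6 h5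
    · intro t ht i
      have ht3 := hsub ht
      rw [← hre i (rc t) ht3]
      refine Fin.lastCases ?_ (fun j => ?_) i
      · have h1 := hGre (rc t) (cv_rc t)
        rw [hG0 ht3] at h1
        have h2 : (2 * (g (rc t)).re : ℝ) = 0 := by
          have h3 : ((2 * (g (rc t)).re : ℝ) : ℂ) = 0 := h1.symm
          exact_mod_cast h3
        have h3 : (g (rc t)).re = 0 := by linarith
        exact h3
      · rw [hWv (rc t) ht3 j]
        show (Complex.I * ρ * (t j : ℂ)).re = 0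
        simp
  · obtain ⟨𝒜, hAc, hA, hcov⟩ := zero_cover (Metric.ball (0 : Fin (k + 1) → ℂ) 3)
      Metric.isOpen_ball G hGan (fun z hz h => hvan ⟨z, hz, h⟩)
    have hy : ∀ F : MvPolynomial (Fin (k + 1)) ℤ, aeval (fun j => x (κ j)) F = 0 → F = 0 := by
      intro F hF
      have h2 : aeval (fun j => x (κ j)) (MvPolynomial.map (algebraMap ℤ ℂ) F) = 0 := by
        rw [aeval_map_algebraMap]
        exact hF
      have h3 : MvPolynomial.map (algebraMap ℤ ℂ) F = 0 :=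
        (algebraicIndependent_iff.mp hκ) _ h2
      have hinj : Function.Injective (MvPolynomial.map (σ := Fin (k + 1)) (algebraMap ℤ ℂ)) :=
        MvPolynomial.map_injective _ (RingHom.injective_int _)
      exact hinj (by rw [h3, map_zero])
    have hnull : ∀ φ ∈ 𝒜, NullC 𝓤 S ((fun s => χ (φ s)) '' Metric.closedBall 0 1) := by
      intro φ hφ
      refine Null.nullC (null_poly hG B hB κ hy (Nat.lt_succ_self k) (fun s => χ (φ s)) ?_)
      intro s hs
      exact AnalyticAt.comp (g := χ) (f := φ) (hχan _ ((hA φ hφ).2 hs)) ((hA φ hφ).1 s hs)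
    have hWc : Tendsto W (𝓝 t1) (𝓝 0) := by
      have := hW.continuousAt
      rw [ContinuousAt, hW0] at this
      exact this
    refine ⟨{t | Th (W t) = t ∧ W t ∈ Metric.ball 0 ε}, ?_, ?_⟩
    · exact hTW.and (hWc.eventually (Metric.ball_mem_nhds 0 hε))
    · refine NullC.mono (NullC.biUnion hAc hnull) ?_
      rintro _ ⟨t, ⟨htS, htW, htε⟩, rfl⟩
      -- the real parameter
      let v : Fin (k + 1) → ℝ := fun j => (W t j).im / ρ
      have hℓt : ∀ l, (ℓ t l).re = Real.log ‖c.ψ t l‖ := by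
        have h1 := (hball _ htε).2.1.2.2.1
        rwa [htW] at h1
      have hWre : ∀ j, (W t j).re = 0 := fun j => by
        show (FF u ℓ t1 j.castSucc t).re = 0
        rw [FF_re hℓ1.2.2.1 (ht1.2 _) hℓt]
        exact htS.2 _
      have hmv : mu (k + 1) ρ (rc v) = W t := by
        funext j
        rw [mu_apply]
        show Complex.I * (ρ : ℂ) * (((W t j).im / ρ : ℝ) : ℂ) = W t j
        apply Complex.ext
        · rw [hWre j]
          simp
        · simp
          field_simp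
      have hv3 : rc v ∈ Metric.ball (0 : Fin (k + 1) → ℂ) 3 := by
        rw [mem_ball_zero_iff] at htε ⊢
        rw [← hmv, norm_mu _ hρ] at htε
        have h1 : ε / 3 * ‖rc v‖ < ε := htε
        by_contra h2
        push Not at h2
        nlinarith
      have hTv : Th (mu (k + 1) ρ (rc v)) = t := by rw [hmv, htW]
      have hG0 : G (rc v) = 0 := by
        rw [hGre (rc v) (cv_rc v)]
        have h1 : (g (rc v)).re = 0 := by
          show (FF u ℓ t1 (Fin.last (k + 1)) (Th (mu (k + 1) ρ (rc v)))).re = 0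
          rw [hTv, FF_re hℓ1.2.2.1 (ht1.2 _) hℓt]
          exact htS.2 _
        rw [h1]
        simp
      obtain ⟨φ, hφ, s, hs, hsv⟩ := Set.mem_iUnion₂.1 (hcov ⟨hv3, hG0⟩)
      refine Set.mem_iUnion₂.2 ⟨φ, hφ, s, hs, ?_⟩
      show c.ψ (Th (mu (k + 1) ρ (φ s))) = c.ψ t
      rw [hsv, hTv]

end Pool.Agent.SD
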