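import Mathlib
import Pool.Agent.Lib.MP_c95b3b_ag_SD.NullDef
import Pool.Agent.Lib.MP_c95b3b_ag_SD.NullPoly
import Pool.Agent.Lib.MP_c95b3b_ag_SD.ChartEx
import Pool.Agent.Lib.MP_c95b3b_ag_SD.AdRel

set_option autoImplicit false

/-! Project SD (MP_c95b3b_ag), module NA: proper algebraic subsets are null. -/

namespace Pool.Agent.SD

open MvPolynomial Filter Topology

namespace NullAlg

/-- the zero set of an ideal in the torus -/
def Z {n : ℕ} (q : Ideal (MvPolynomial (Fin n) ℂ)) : Set (Fin n → ℂ) :=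
  {z | (∀ i, z i ≠ 0) ∧ ∀ F ∈ q, eval z F = 0}

theorem cover {n : ℕ} (I : Ideal (MvPolynomial (Fin n) ℂ)) :
    Z I ⊆ ⋃ q ∈ I.minimalPrimes, Z q := by
  intro z hz
  have hp : (RingHom.ker (eval z)).IsPrime := RingHom.ker_isPrime _
  have hle : I ≤ RingHom.ker (eval z) := fun F hF => hz.2 F hF
  obtain ⟨p, hp1, hp2⟩ := Ideal.exists_minimalPrimes_le hle
  exact Set.mem_biUnion hp1 ⟨hz.1, fun F hF => hp2 hF⟩

theorem nullC_cover {n : ℕ} {𝓤 : Ultrafilter ℕ} {S : Sq n} (I : Ideal (MvPolynomial (Fin n) ℂ))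
    (h : ∀ q ∈ I.minimalPrimes, NullC 𝓤 S (Z q)) : NullC 𝓤 S (Z I) :=
  NullC.mono (NullC.biUnion (Ideal.finite_minimalPrimes_of_isNoetherianRing _ I).countable h)
    (cover I)

/-- the points of a chart of smaller dimension are null -/
theorem chart_null {n : ℕ} {𝓤 : Ultrafilter ℕ} {S : Sq n} {L : Type} [Field L] {x : Fin n → L}
    (hG : Gn 𝓤 S x) (B : ℝ)
    (hB : ∀ i, ∀ᶠ ν in (𝓤 : Filter ℕ), S.ht (rv (Pi.single i 1)) ν ≤ B) {d : ℕ}
    (κx : Fin d → Fin n)
    (hκx : ∀ F : MvPolynomial (Fin d) ℤ, aeval (fun j => x (κx j)) F = 0 → F = 0)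
    {M : Type} [Field M] [Algebra ℂ M] {y : Fin n → M} {k : ℕ} (hk : k < d) (κ : Fin k → Fin n)
    (z0 : Fin n → ℂ) (c : Chart y κ z0) : ∃ U ∈ 𝓝 z0, Null 𝓤 S ({z | OnY y z} ∩ U) := by
  obtain ⟨ρ, hρ, hρU⟩ := Metric.isOpen_iff.mp c.isOpen c.t0 c.t0_mem
  set r : ℝ := ρ / 3 with hr
  have hr0 : 0 < r := by positivity
  have hrC : (r : ℂ) ≠ 0 := by exact_mod_cast hr0.ne'
  let ψ' : (Fin k → ℂ) → Fin n → ℂ := fun w => c.ψ (c.t0 + (r : ℂ) • w)
  have hψ' : AnalyticOnNhd ℂ ψ' (Metric.closedBall 0 2) := by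
    intro w hw
    have h1 : AnalyticAt ℂ (fun w : Fin k → ℂ => c.t0 + (r : ℂ) • w) w := by fun_prop
    have h2 : c.t0 + (r : ℂ) • w ∈ c.U := by
      apply hρU
      rw [Metric.mem_ball, dist_eq_norm, add_sub_cancel_left, norm_smul, Complex.norm_real,
        Real.norm_of_nonneg hr0.le]
      rw [mem_closedBall_zero_iff] at hw
      calc r * ‖w‖ ≤ r * 2 := mul_le_mul_of_nonneg_left hw hr0.le
        _ < ρ := by rw [hr]; linarith
    exact AnalyticAt.fun_comp (f := fun w : Fin k → ℂ => c.t0 + (r : ℂ) • w) (c.an _ h2) h1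
  have hN := null_poly hG B hB κx hκx hk ψ' hψ'
  refine ⟨c.O ∩ (fun (z : Fin n → ℂ) (j : Fin k) => z (κ j)) ⁻¹' Metric.ball c.t0 r,
    Filter.inter_mem (c.O_open.mem_nhds c.O_mem) ?_, hN.mono ?_⟩
  · have hcont : Continuous (fun (z : Fin n → ℂ) (j : Fin k) => z (κ j)) :=
      continuous_pi fun j => continuous_apply _
    apply hcont.continuousAt.preimage_mem_nhds
    have h3 : (fun j => z0 (κ j)) = c.t0 := by
      funext j
      rw [← c.coord c.t0 c.t0_mem j, c.base]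
    rw [h3]
    exact Metric.ball_mem_nhds _ hr0
  · rintro z ⟨hz, hzO, hzb⟩
    obtain ⟨-, h2⟩ := c.cover z hzO hz
    refine ⟨(r : ℂ)⁻¹ • ((fun j => z (κ j)) - c.t0), ?_, ?_⟩
    · rw [mem_closedBall_zero_iff, norm_smul, norm_inv, Complex.norm_real,
        Real.norm_of_nonneg hr0.le, inv_mul_le_iff₀ hr0, mul_one, ← dist_eq_norm]
      exact (Metric.mem_ball.mp hzb).le
    · show c.ψ (c.t0 + (r : ℂ) • (r : ℂ)⁻¹ • ((fun j => z (κ j)) - c.t0)) = z
      rw [smul_inv_smul₀ hrC, add_sub_cancel, h2]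

section
variable {n : ℕ} {L : Type} [Field L] [Algebra ℂ L] {x : Fin n → L}

/-- integral independence of a transcendence basis -/
theorem int_of_algInd {k : ℕ} {y : Fin k → L} (h : AlgebraicIndependent ℂ y)
    (F : MvPolynomial (Fin k) ℤ) (hF : aeval y F = 0) : F = 0 := by
  have h1 : AlgebraicIndependent ℤ y :=
    h.restrictScalars (RingHom.injective_int (algebraMap ℤ ℂ))
  exact (algebraicIndependent_iff.mp h1) F hF

/-- coordinates of the number `dm x` which are algebraically independent form a transcendence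
basis -/
theorem alg_of_card (hx : ∀ i, x i ≠ 0) {κ : Fin (dm x) → Fin n}
    (h : AlgebraicIndependent ℂ (fun j => x (κ j))) (i : Fin n) :
    IsAlgebraic (Algebra.adjoin ℂ (Set.range fun j => x (κ j))) (x i) := by
  have := RkAlg.fin_span x
  have h1 := (RkAlg.ind_iff hx κ).mpr h
  have h2 : Submodule.span L (Set.range fun j => RkAlg.fm x (κ j)) =
      Submodule.span L (Set.range (RkAlg.fm x)) := by
    apply Submodule.eq_of_le_of_finrank_le
    · refine Submodule.span_mono ?_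
      rintro _ ⟨j, rfl⟩
      exact ⟨κ j, rfl⟩
    · rw [finrank_span_eq_card h1, Fintype.card_fin, RkAlg.dm_eq_finrank]
  rw [RkAlg.alg_iff hx h, h2]
  exact Submodule.subset_span ⟨i, rfl⟩

theorem alg_aeval {A : Subalgebra ℂ L} (h : ∀ i, IsAlgebraic A (x i))
    (F : MvPolynomial (Fin n) ℂ) : IsAlgebraic A (aeval x F) := by
  induction F using MvPolynomial.induction_on with
  | C a =>
    rw [aeval_C]
    exact isAlgebraic_algebraMap (A := L) (algebraMap ℂ A a)
  | add p q hp hq =>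
    rw [map_add]
    exact hp.add hq
  | mul_X p i hp =>
    rw [map_mul, aeval_X]
    exact hp.mul (h i)

/-- a nonzero function which vanishes on a subvariety: the subvariety has smaller dimension -/
theorem dim_drop (hx : ∀ i, x i ≠ 0) (F : MvPolynomial (Fin n) ℂ) (hF : aeval x F ≠ 0)
    (q : Ideal (MvPolynomial (Fin n) ℂ)) (hq : ∀ G, aeval x G = 0 → G ∈ q) (hFq : F ∈ q)
    (κ : Fin (dm x) → Fin n) : ¬ AlgebraicIndependent ℂ
      (fun j => (Ideal.Quotient.mk q (X (κ j)) : MvPolynomial (Fin n) ℂ ⧸ q)) := by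
  intro hind
  have hmk : ∀ H : MvPolynomial (Fin (dm x)) ℂ,
      aeval (fun j => (Ideal.Quotient.mk q (X (κ j)) : MvPolynomial (Fin n) ℂ ⧸ q)) H =
        Ideal.Quotient.mk q (rename κ H) := by
    intro H
    have h1 : (aeval (fun j => (Ideal.Quotient.mk q (X (κ j)) : MvPolynomial (Fin n) ℂ ⧸ q)) :
        MvPolynomial (Fin (dm x)) ℂ →ₐ[ℂ] _) =
        (Ideal.Quotient.mkₐ ℂ q).comp (rename κ) := by
      ext j
      simp
    rw [h1]
    rfl
  have hκ : AlgebraicIndependent ℂ (fun j => x (κ j)) := by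
    rw [algebraicIndependent_iff]
    intro H hH
    apply (algebraicIndependent_iff.mp hind) H
    rw [hmk]
    apply Ideal.Quotient.eq_zero_iff_mem.mpr
    apply hq
    rw [aeval_rename]
    exact hH
  have halg := alg_aeval (fun i => alg_of_card hx hκ i) F
  obtain ⟨p, hp0, hp⟩ := halg.exists_nonzero_coeff_and_aeval_eq_zero
    (mem_nonZeroDivisors_of_ne_zero hF)
  have hmem : ∀ j, ∃ H : MvPolynomial (Fin (dm x)) ℂ,
      aeval (fun j => x (κ j)) H = (p.coeff j : L) := by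
    intro j
    have h1 : (p.coeff j : L) ∈
        (aeval (fun j => x (κ j)) : MvPolynomial (Fin (dm x)) ℂ →ₐ[ℂ] L).range := by
      rw [← Algebra.adjoin_range_eq_range_aeval]
      exact (p.coeff j).2
    exact h1
  choose H hH using hmem
  have h2 : (∑ j ∈ Finset.range (p.natDegree + 1), rename κ (H j) * F ^ j) ∈ q := by
    apply hq
    rw [Polynomial.aeval_eq_sum_range] at hp
    rw [map_sum, ← hp]
    refine Finset.sum_congr rfl fun j _ => ?_
    rw [map_mul, map_pow, aeval_rename]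
    show aeval (fun j => x (κ j)) (H j) * _ = _
    rw [hH j]
    rfl
  rw [Finset.sum_range_succ', pow_zero, mul_one] at h2
  have h3 : (∑ j ∈ Finset.range p.natDegree, rename κ (H (j + 1)) * F ^ (j + 1)) ∈ q := by
    refine q.sum_mem fun j _ => ?_
    rw [pow_succ, ← mul_assoc]
    exact q.mul_mem_left _ hFq
  have h4 : rename κ (H 0) ∈ q := (q.add_mem_iff_right h3).mp h2
  have h5 : H 0 = 0 := by
    apply (algebraicIndependent_iff.mp hind)
    rw [hmk]
    exact Ideal.Quotient.eq_zero_iff_mem.mpr h4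
  apply hp0
  apply Subtype.ext
  rw [← hH 0, h5, map_zero]
  rfl

end

end NullAlg

section
variable {n : ℕ} {𝓤 : Ultrafilter ℕ} {S : Sq n} {L : Type} [Field L] [Algebra ℂ L]
  {x : Fin n → L}

/-- irreducible varieties (over the complex numbers) of dimension less than `dm x` -/
theorem null_prime (hx : ∀ i, x i ≠ 0) (hG : Gn 𝓤 S x) (B : ℝ)
    (hB : ∀ i, ∀ᶠ ν in (𝓤 : Filter ℕ), S.ht (rv (Pi.single i 1)) ν ≤ B)
    (q : Ideal (MvPolynomial (Fin n) ℂ)) (hq : q.IsPrime)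
    (hdim : ∀ κ : Fin (dm x) → Fin n, ¬ AlgebraicIndependent ℂ
      (fun j => (Ideal.Quotient.mk q (X (κ j)) : MvPolynomial (Fin n) ℂ ⧸ q))) :
    NullC 𝓤 S {z | (∀ i, z i ≠ 0) ∧ ∀ F ∈ q, eval z F = 0} := by
  obtain ⟨κx, -, hκx, -⟩ := exists_kappa hx
  revert hq hdim
  induction q using IsNoetherian.induction with
  | hgt q ih =>
  intro hq hdim
  by_cases hX : ∃ i, (X i : MvPolynomial (Fin n) ℂ) ∈ q
  · obtain ⟨i, hi⟩ := hX
    refine null_empty.nullC.mono ?_
    rintro z ⟨hz, hz'⟩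
    have := hz' _ hi
    rw [eval_X] at this
    exact absurd this (hz i)
  push Not at hX
  let M := FractionRing (MvPolynomial (Fin n) ℂ ⧸ q)
  let y : Fin n → M := fun i => algebraMap (MvPolynomial (Fin n) ℂ ⧸ q) M (Ideal.Quotient.mk q (X i))
  have hinj : Function.Injective (algebraMap (MvPolynomial (Fin n) ℂ ⧸ q) M) :=
    IsFractionRing.injective _ _
  have hy : ∀ i, y i ≠ 0 := by
    intro i h
    have h1 : (Ideal.Quotient.mk q (X i) : MvPolynomial (Fin n) ℂ ⧸ q) = 0 :=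
      hinj (by rw [map_zero]; exact h)
    exact hX i (Ideal.Quotient.eq_zero_iff_mem.mp h1)
  have haev : ∀ F : MvPolynomial (Fin n) ℂ,
      aeval y F = algebraMap (MvPolynomial (Fin n) ℂ ⧸ q) M (Ideal.Quotient.mk q F) := by
    intro F
    have h1 : (aeval y : MvPolynomial (Fin n) ℂ →ₐ[ℂ] M) =
        (IsScalarTower.toAlgHom ℂ (MvPolynomial (Fin n) ℂ ⧸ q) M).comp
          (Ideal.Quotient.mkₐ ℂ q) := by
      ext j
      simp [y]
    rw [h1]
    rfl
  have haev0 : ∀ F : MvPolynomial (Fin n) ℂ, aeval y F = 0 ↔ F ∈ q := by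
    intro F
    rw [haev, ← Ideal.Quotient.eq_zero_iff_mem]
    exact ⟨fun h => hinj (by rw [map_zero]; exact h), fun h => by rw [h, map_zero]⟩
  obtain ⟨κ, -, hκ, hκalg⟩ := exists_kappa hy
  have hlt : dm y < dm x := by
    by_contra hge
    push Not at hge
    apply hdim (fun j => κ (Fin.castLE hge j))
    have h1 : AlgebraicIndependent ℂ (fun j => y (κ (Fin.castLE hge j))) :=
      hκ.comp _ (Fin.castLE_injective hge)
    exact AlgebraicIndependent.of_comp
      (IsScalarTower.toAlgHom ℂ (MvPolynomial (Fin n) ℂ ⧸ q) M) h1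
  obtain ⟨F0, hF0, hch⟩ := exists_chart y hy κ hκ hκalg
  have hF0q : F0 ∉ q := fun h => hF0 ((haev0 F0).mpr h)
  have hA1 : NullC 𝓤 S {z | OnY y z ∧ eval z F0 ≠ 0} := by
    apply NullC.of_local
    rintro z0 ⟨hz0, hz0'⟩
    obtain ⟨c⟩ := hch z0 hz0 hz0'
    obtain ⟨U, hU, hN⟩ := NullAlg.chart_null hG B hB κx (NullAlg.int_of_algInd hκx) hlt κ z0 c
    refine ⟨U, hU, hN.nullC.mono ?_⟩
    rintro z ⟨⟨h1, -⟩, h2⟩
    exact ⟨h1, h2⟩
  have hA2 : NullC 𝓤 S (NullAlg.Z (q ⊔ Ideal.span {F0})) := by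
    apply NullAlg.nullC_cover
    intro q' hq'
    have hle : q ⊔ Ideal.span {F0} ≤ q' := hq'.1.2
    have hqq : q ≤ q' := le_sup_left.trans hle
    have hF0' : F0 ∈ q' := hle (Ideal.mem_sup_right (Ideal.mem_span_singleton_self F0))
    have hlt' : q < q' := lt_of_le_of_ne hqq fun h => hF0q (by rw [h]; exact hF0')
    refine ih q' hlt' hq'.1.1 ?_
    intro κ' hκ'
    apply hdim κ'
    exact AlgebraicIndependent.of_comp (Ideal.Quotient.factorₐ ℂ hqq) hκ'
  refine (hA1.union hA2).mono ?_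
  rintro z ⟨hz, hz'⟩
  by_cases h0 : eval z F0 = 0
  · right
    refine ⟨hz, fun F hF => ?_⟩
    have hle : q ⊔ Ideal.span {F0} ≤ RingHom.ker (eval z) := by
      apply sup_le
      · intro G hG'
        exact hz' G hG'
      · rw [Ideal.span_singleton_le_iff_mem]
        exact h0
    exact hle hF
  · left
    exact ⟨⟨hz, fun F hF => hz' F ((haev0 F).mp hF)⟩, h0⟩

theorem null_zero (hx : ∀ i, x i ≠ 0) (hG : Gn 𝓤 S x) (B : ℝ)
    (hB : ∀ i, ∀ᶠ ν in (𝓤 : Filter ℕ), S.ht (rv (Pi.single i 1)) ν ≤ B)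
    (F : MvPolynomial (Fin n) ℂ) (hF : aeval x F ≠ 0) :
    NullC 𝓤 S {z | OnY x z ∧ eval z F = 0} := by
  let P : Ideal (MvPolynomial (Fin n) ℂ) :=
    RingHom.ker (aeval x : MvPolynomial (Fin n) ℂ →ₐ[ℂ] L)
  have h1 : NullC 𝓤 S (NullAlg.Z (P ⊔ Ideal.span {F})) := by
    apply NullAlg.nullC_cover
    intro q hq
    have hle : P ⊔ Ideal.span {F} ≤ q := hq.1.2
    refine null_prime hx hG B hB q hq.1.1 fun κ => ?_
    refine NullAlg.dim_drop hx F hF q (fun G hG' => hle (Ideal.mem_sup_left hG'))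
      (hle (Ideal.mem_sup_right (Ideal.mem_span_singleton_self F))) κ
  refine h1.mono ?_
  rintro z ⟨⟨hz, hz'⟩, h0⟩
  refine ⟨hz, fun G hG' => ?_⟩
  have hle : P ⊔ Ideal.span {F} ≤ RingHom.ker (eval z) := by
    apply sup_le
    · intro G hG'
      exact hz' G hG'
    · rw [Ideal.span_singleton_le_iff_mem]
      exact h0
  exact hle hG'

end

end Pool.Agent.SD
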