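import Mathlib
import Pool.Agent.Lib.MP_c95b3b_ag_SD.LocNull
import Pool.Agent.Lib.MP_c95b3b_ag_SD.NullAlg
import Pool.Agent.Lib.MP_c95b3b_ag_SD.LinAx
import Pool.Agent.Lib.MP_c95b3b_ag_SD.Sel

set_option autoImplicit false

/-! Project SD (MP_c95b3b_ag), module NU: `d + 1` real conditions on the variety define a null set
(under `NC`). -/

namespace Pool.Agent.SD

open MvPolynomial Filter Topology Module

namespace NullS

section
variable {L : Type} [Field L] [Algebra ℂ L]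

theorem int_inj {d : ℕ} {y : Fin d → L} (hy : AlgebraicIndependent ℂ y)
    (F : MvPolynomial (Fin d) ℤ) (hF : aeval y F = 0) : F = 0 := by
  have h1 : aeval y (MvPolynomial.map (Int.castRingHom ℂ) F) = 0 := by
    rw [← hF, aeval_def, eval₂_map, aeval_def]
    congr 1
    exact RingHom.ext_int _ _
  have h2 : MvPolynomial.map (Int.castRingHom ℂ) F = 0 :=
    (algebraicIndependent_iff.1 hy) _ h1
  exact MvPolynomial.map_injective _ (Int.cast_injective (α := ℂ)) (by rw [h2, map_zero])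

theorem li_single (n : ℕ) : LinearIndependent ℤ (fun i : Fin n => (Pi.single i 1 : Fin n → ℤ)) := by
  have h : (fun i : Fin n => (Pi.single i 1 : Fin n → ℤ)) = ⇑(Pi.basisFun ℤ (Fin n)) := by
    funext i
    rw [Pi.basisFun_apply]
  rw [h]
  exact (Pi.basisFun ℤ (Fin n)).linearIndependent

omit [Algebra ℂ L] in
theorem mm_single {n : ℕ} (x : Fin n → L) : mm (fun i : Fin n => (Pi.single i 1 : Fin n → ℤ)) x = x := by
  funext i
  exact mn_single x i

/-- the part of the variety in a chart -/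
theorem chart_null {n : ℕ} {𝓤 : Ultrafilter ℕ} {S : Sq n} {x : Fin n → L} (hx : ∀ i, x i ≠ 0)
    (hG : Gn 𝓤 S x) (B : ℝ)
    (hB : ∀ i, ∀ᶠ ν in (𝓤 : Filter ℕ), S.ht (rv (Pi.single i 1)) ν ≤ B) {k : ℕ}
    {κ : Fin (k + 1) → Fin n} {z0 : Fin n → ℂ}
    (hκ : AlgebraicIndependent ℂ (fun j => x (κ j)))
    (halg : ∀ i, IsAlgebraic (Algebra.adjoin ℂ (Set.range fun j => x (κ j))) (x i))
    (c : Chart x κ z0) (u : Fin (k + 1 + 1) → Fin n → ℝ) (hNC : ¬ Circ (d := k + 1) x u)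
    (hu : LinearIndependent L (fun j : Fin (k + 1) => om x (u j.castSucc))) :
    NullC 𝓤 S (c.ψ '' (Su u c.ψ c.U)) := by
  have hψan : AnalyticOnNhd ℂ c.ψ c.U := c.an
  set G : (Fin (k + 1) → ℂ) → ℂ := fun t => (jac (fun j => u j.castSucc) c.ψ t).det with hGdef
  have hGan : AnalyticOnNhd ℂ G c.U := jac_an c _
  have hne : ∀ z ∈ c.U, ¬ ∀ᶠ w in 𝓝 z, G w = 0 := by
    intro z hz hev
    obtain ⟨U', hU'sub, hU'o, hzU'⟩ := mem_nhds_iff.1 (Filter.inter_mem (c.isOpen.mem_nhds hz) hev)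
    obtain ⟨t, ht, hne⟩ := jac_ne hx hκ halg c (fun j => u j.castSucc) hu U' hU'o
      (fun w hw => (hU'sub hw).1) ⟨z, hzU'⟩
    exact hne (hU'sub ht).2
  obtain ⟨𝒜, hc, hA, hcov⟩ := zero_cover c.U c.isOpen G hGan hne
  have h1 : NullC 𝓤 S (⋃ φ ∈ 𝒜, (fun w => c.ψ (φ w)) '' Metric.closedBall 0 1) := by
    refine NullC.biUnion hc fun φ hφ => ?_
    refine (null_poly hG B hB κ (int_inj hκ) (Nat.lt_succ_self k) (fun w => c.ψ (φ w)) ?_).nullC
    intro w hw
    exact (hψan _ ((hA φ hφ).2 hw)).comp ((hA φ hφ).1 w hw)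
  have h2 : NullC 𝓤 S (c.ψ '' {t | t ∈ Su u c.ψ c.U ∧ G t ≠ 0}) := by
    refine NullC.of_local_image fun t1 ht1 => ?_
    obtain ⟨V, hV, hnull⟩ := loc_null hκ hG B hB c u hNC t1 ht1.1 ht1.2
    exact ⟨V, hV, hnull.mono (Set.image_mono fun t ht => ⟨ht.1.1, ht.2⟩)⟩
  refine (h1.union h2).mono ?_
  rintro _ ⟨t, ht, rfl⟩
  by_cases h0 : G t = 0
  · left
    have := hcov ⟨ht.1, h0⟩
    simp only [Set.mem_iUnion] at this ⊢
    obtain ⟨φ, hφ, w, hw, hwt⟩ := this
    exact ⟨φ, hφ, w, hw, by rw [← hwt]⟩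
  · right
    exact ⟨t, ⟨ht, h0⟩, rfl⟩

theorem full_aux {n : ℕ} {𝓤 : Ultrafilter ℕ} {S : Sq n} {x : Fin n → L} (hx : ∀ i, x i ≠ 0)
    (hG : Gn 𝓤 S x) (B : ℝ)
    (hB : ∀ i, ∀ᶠ ν in (𝓤 : Filter ℕ), S.ht (rv (Pi.single i 1)) ν ≤ B) (hNC : NC x)
    {k : ℕ} (hdm : dm x = k + 1) (u : Fin (k + 1 + 1) → Fin n → ℝ)
    (hu : LinearIndependent ℝ u)
    (hr : rk x (Submodule.span ℝ (Set.range u) : Set (Fin n → ℝ)) = k + 1) :
    NullC 𝓤 S {z | OnY x z ∧ ∀ i, ∑ l, u i l * Real.log ‖z l‖ = 0} := by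
  obtain ⟨e, he⟩ := exists_perm x u hr
  set u' : Fin (k + 1 + 1) → Fin n → ℝ := fun i => u (e i) with hu'def
  have hu' : LinearIndependent ℝ u' := hu.comp e e.injective
  have hNC' : ¬ Circ (d := k + 1) x u' := by
    have h1 := hNC n (k + 1) (fun i : Fin n => (Pi.single i 1 : Fin n → ℤ)) (li_single n)
      (by rw [mm_single, hdm]) (Nat.succ_pos k) u' hu'
    rwa [mm_single] at h1
  obtain ⟨κ, hκ, halg⟩ : ∃ κ : Fin (k + 1) → Fin n,
      AlgebraicIndependent ℂ (fun j => x (κ j)) ∧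
      ∀ i, IsAlgebraic (Algebra.adjoin ℂ (Set.range fun j => x (κ j))) (x i) := by
    have h1 := exists_kappa hx
    rw [hdm] at h1
    obtain ⟨κ, _, h2, h3⟩ := h1
    exact ⟨κ, h2, h3⟩
  obtain ⟨F0, hF0, hch⟩ := exists_chart x hx κ hκ halg
  have hset : {z : Fin n → ℂ | OnY x z ∧ ∀ i, ∑ l, u i l * Real.log ‖z l‖ = 0} =
      {z | OnY x z ∧ ∀ i, ∑ l, u' i l * Real.log ‖z l‖ = 0} := by
    ext z
    simp only [Set.mem_ofPred_eq, hu'def]
    refine and_congr_right fun _ => ⟨fun h i => h (e i), fun h i => ?_⟩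
    have := h (e.symm i)
    rwa [Equiv.apply_symm_apply] at this
  rw [hset]
  have h1 : NullC 𝓤 S {z | (OnY x z ∧ ∀ i, ∑ l, u' i l * Real.log ‖z l‖ = 0) ∧
      eval z F0 ≠ 0} := by
    refine NullC.of_local fun z0 hz0 => ?_
    obtain ⟨c⟩ := hch z0 hz0.1.1 hz0.2
    refine ⟨c.O, c.O_open.mem_nhds c.O_mem, ?_⟩
    refine (chart_null hx hG B hB hκ halg c u' hNC' he).mono ?_
    rintro z ⟨hz, hzO⟩
    obtain ⟨h2, h3⟩ := c.cover z hzO hz.1.1
    exact ⟨fun j => z (κ j), ⟨h2, by rw [h3]; exact hz.1.2⟩, h3⟩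
  refine ((null_zero hx hG B hB F0 hF0).union h1).mono ?_
  intro z hz
  by_cases h0 : eval z F0 = 0
  · exact Or.inl ⟨hz.1, h0⟩
  · exact Or.inr ⟨hz, h0⟩

theorem log_mn {n : ℕ} {z : Fin n → ℂ} (hz : ∀ i, z i ≠ 0) (a : Fin n → ℤ) :
    Real.log ‖mn z a‖ = ∑ k, (a k : ℝ) * Real.log ‖z k‖ := by
  rw [mn, norm_prod, Real.log_prod]
  · refine Finset.sum_congr rfl fun i _ => ?_
    rw [norm_zpow, Real.log_zpow]
  · intro i _
    rw [norm_zpow]
    exact zpow_ne_zero _ (norm_ne_zero_iff.2 (hz i))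

theorem sum_mm {n m : ℕ} {z : Fin n → ℂ} (hz : ∀ i, z i ≠ 0) (β : Fin m → Fin n → ℤ)
    (v : Fin m → ℝ) :
    ∑ l, v l * Real.log ‖mm β z l‖ = ∑ k, cmbR β v k * Real.log ‖z k‖ := by
  have h1 : ∀ l, v l * Real.log ‖mm β z l‖ = ∑ k, v l * ((β l k : ℝ) * Real.log ‖z k‖) := by
    intro l
    rw [mm, log_mn hz, Finset.mul_sum]
  rw [Finset.sum_congr rfl fun l _ => h1 l, Finset.sum_comm]
  refine Finset.sum_congr rfl fun k _ => ?_
  rw [cmbR, Finset.sum_mul]
  refine Finset.sum_congr rfl fun l _ => ?_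
  ring

theorem sum_of_mem_span {n m : ℕ} {u : Fin m → Fin n → ℝ} {z : Fin n → ℂ}
    (h : ∀ i, ∑ l, u i l * Real.log ‖z l‖ = 0) {v : Fin n → ℝ}
    (hv : v ∈ Submodule.span ℝ (Set.range u)) : ∑ l, v l * Real.log ‖z l‖ = 0 := by
  induction hv using Submodule.span_induction with
  | mem v hv =>
    obtain ⟨i, rfl⟩ := hv
    exact h i
  | zero => simp
  | add v w _ _ hv hw =>
    simp only [Pi.add_apply, add_mul, Finset.sum_add_distrib, hv, hw, add_zero]
  | smul c v _ hv =>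
    simp only [Pi.smul_apply, smul_eq_mul, mul_assoc, ← Finset.mul_sum, hv, mul_zero]

/-- independent vectors in the preimage of `V` -/
theorem exists_ind {n m r : ℕ} {β : Fin m → Fin n → ℤ} (hβ : LinearIndependent ℤ β)
    (V : Submodule ℝ (Fin n → ℝ))
    (h : r ≤ finrank ℝ (V ⊓ LinearMap.range (cmbL β) : Submodule ℝ (Fin n → ℝ))) :
    ∃ u : Fin r → Fin m → ℝ, LinearIndependent ℝ u ∧ ∀ i, cmbR β (u i) ∈ V := by
  have hinj := cmbL_injective hβ
  have h1 : finrank ℝ (V.comap (cmbL β)) =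
      finrank ℝ (V ⊓ LinearMap.range (cmbL β) : Submodule ℝ (Fin n → ℝ)) := by
    rw [inf_comm, ← Submodule.map_comap_eq]
    exact (LinearEquiv.finrank_eq (Submodule.equivMapOfInjective (cmbL β) hinj _))
  let b := Module.finBasis ℝ (V.comap (cmbL β))
  refine ⟨fun i => (b (Fin.castLE (by rw [h1]; exact h) i) : Fin m → ℝ), ?_, fun i => ?_⟩
  · have h2 := b.linearIndependent.map' (V.comap (cmbL β)).subtype (Submodule.ker_subtype _)
    exact h2.comp _ (Fin.castLE_injective _)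
  · exact (b (Fin.castLE (by rw [h1]; exact h) i)).2

theorem real_aux {𝓤 : Ultrafilter ℕ} : ∀ (N n : ℕ), n ≤ N → ∀ {S : Sq n} {x : Fin n → L},
    (∀ i, x i ≠ 0) → Gn 𝓤 S x → ∀ B : ℝ,
    (∀ i, ∀ᶠ ν in (𝓤 : Filter ℕ), S.ht (rv (Pi.single i 1)) ν ≤ B) → NC x →
    (∀ a : Fin n → ℤ, a ≠ 0 → om x (rv a) ≠ 0) → 0 < dm x →
    ∀ u : Fin (dm x + 1) → Fin n → ℝ, LinearIndependent ℝ u →
    NullC 𝓤 S {z | OnY x z ∧ ∀ i, ∑ l, u i l * Real.log ‖z l‖ = 0} := by
  intro N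
  induction N with
  | zero =>
    intro n hn S x _ _ _ _ _ _ _ u hu
    exfalso
    obtain rfl : n = 0 := Nat.le_zero.1 hn
    exact hu.ne_zero 0 (Subsingleton.elim _ _)
  | succ N ih =>
    intro n hn S x hx hG B hB hNC hcos hd u hu
    set V : Submodule ℝ (Fin n → ℝ) := Submodule.span ℝ (Set.range u) with hV
    have hfV : finrank ℝ V = dm x + 1 := by
      rw [hV, finrank_span_eq_card hu, Fintype.card_fin]
    by_cases hr : rk x (V : Set (Fin n → ℝ)) = dm x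
    · have key : ∀ (d : ℕ) (_ : dm x = d) (_ : 0 < d) (u : Fin (d + 1) → Fin n → ℝ)
          (_ : LinearIndependent ℝ u)
          (_ : rk x (Submodule.span ℝ (Set.range u) : Set (Fin n → ℝ)) = d),
          NullC 𝓤 S {z | OnY x z ∧ ∀ i, ∑ l, u i l * Real.log ‖z l‖ = 0} := by
        intro d hdm hd u hu hr
        obtain ⟨k, rfl⟩ : ∃ k, d = k + 1 := ⟨d - 1, by omega⟩
        exact full_aux hx hG B hB hNC hdm u hu hr
      exact key (dm x) rfl hd u hu hr
    · have hlt : rk x (V : Set (Fin n → ℝ)) < dm x := lt_of_le_of_ne (rk_le_dm x _) hr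
      obtain ⟨Λ, hFull, _, hΛV, hAx⟩ := lin_ax x hx V
      have hrle : rkZ x Λ ≤ rk x (V : Set (Fin n → ℝ)) := by
        have := finite_span_om x (V : Set (Fin n → ℝ))
        refine Submodule.finrank_mono (Submodule.span_le.2 ?_)
        rintro _ ⟨_, ⟨a, ha, rfl⟩, rfl⟩
        exact hΛV a ha
      have hfin : rkZ x Λ + 2 ≤ finrank ℝ (V ⊓ Submodule.span ℝ (rv '' (Λ : Set (Fin n → ℤ))) :
          Submodule ℝ (Fin n → ℝ)) := by
        rw [hfV] at hAx
        omega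
      obtain ⟨β, hβ, hΛ, hspan⟩ := exists_basis Λ
      rw [hspan] at hfin
      have hdm' : dm (mm β x) = rkZ x Λ := by
        rw [← rkZ_top, rkZ_mm hx β ⊤ Λ]
        intro a
        rw [hΛ]
        simp
      have hΛne : Λ ≠ ⊥ := by
        rintro rfl
        have h1 : Submodule.span ℝ (rv '' ((⊥ : Submodule ℤ (Fin n → ℤ)) : Set (Fin n → ℤ))) = ⊥ := by
          rw [Submodule.bot_coe, Set.image_singleton, rv_zero, Submodule.span_zero_singleton]
        rw [← hspan, h1, inf_bot_eq, finrank_bot] at hfin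
        omega
      have hpos : 0 < dm (mm β x) := by
        rw [hdm']
        obtain ⟨a, ha, ha0⟩ := Λ.exists_mem_ne_zero_of_ne_bot hΛne
        have := finite_span_om x (rv '' (Λ : Set (Fin n → ℤ)))
        have hnt : Nontrivial (Submodule.span L (om x '' (rv '' (Λ : Set (Fin n → ℤ))))) := by
          refine ⟨⟨⟨om x (rv a), Submodule.subset_span ⟨_, ⟨a, ha, rfl⟩, rfl⟩⟩, 0, ?_⟩⟩
          intro h
          exact hcos a ha0 (congrArg Subtype.val h)
        exact Module.finrank_pos (R := L)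
          (M := Submodule.span L (om x '' (rv '' (Λ : Set (Fin n → ℤ)))))
      have hmn : finrank ℤ Λ ≤ N := by
        have h1 : finrank ℤ Λ ≤ n := by
          have := Submodule.finrank_le Λ
          rwa [Module.finrank_fin_fun] at this
        have h2 : finrank ℤ Λ ≠ n := by
          intro h
          have h3 := hFull.eq_top_of_finrank h
          rw [h3, rkZ_top] at hrle
          omega
        omega
      obtain ⟨u', hu', hu'V⟩ := exists_ind (r := dm (mm β x) + 1) hβ V (by rw [hdm']; omega)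
      have hcos' : ∀ a : Fin (finrank ℤ Λ) → ℤ, a ≠ 0 → om (mm β x) (rv a) ≠ 0 := by
        intro a ha
        rw [om_mm hx, ← rv_cmb]
        apply hcos
        intro h0
        apply ha
        apply cmb_injective hβ
        rw [h0]
        funext i
        simp [cmb]
      have hB' : ∀ l, ∀ᶠ ν in (𝓤 : Filter ℕ), (S.map β).ht (rv (Pi.single l 1)) ν ≤
          ∑ l, ∑ i, |cmbR β (rv (Pi.single l 1)) i| * |B| := by
        intro l
        filter_upwards [eventually_all.2 hB] with ν hν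
        rw [map_ht]
        refine (ht_le S _ ν).trans ?_
        have h1 : ∑ i, |cmbR β (rv (Pi.single l 1)) i| * S.ht (rv (Pi.single i 1)) ν ≤
            ∑ i, |cmbR β (rv (Pi.single l 1)) i| * |B| :=
          Finset.sum_le_sum fun i _ => mul_le_mul_of_nonneg_left ((hν i).trans (le_abs_self B))
            (abs_nonneg _)
        refine h1.trans ?_
        exact Finset.single_le_sum
          (f := fun l => ∑ i, |cmbR β (rv (Pi.single l 1)) i| * |B|)
          (fun l _ => Finset.sum_nonneg fun i _ => mul_nonneg (abs_nonneg _) (abs_nonneg _))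
          (Finset.mem_univ l)
      have hnull := ih (finrank ℤ Λ) hmn (S := S.map β) (x := mm β x) (mm_ne_zero hx β)
        (hG.map hx β) _ hB' (hNC.map hx hβ) hcos' hpos u' hu'
      refine (hnull.preimage β).mono ?_
      rintro z ⟨hzY, hz⟩
      refine ⟨hzY.1, hzY.map hx β, fun i => ?_⟩
      rw [sum_mm hzY.1]
      exact sum_of_mem_span hz (hu'V i)

end

end NullS

section
variable {L : Type} [Field L] [Algebra ℂ L]

/-- the case of forms of full rank -/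
theorem null_full {n : ℕ} {𝓤 : Ultrafilter ℕ} {S : Sq n} {x : Fin n → L} (hx : ∀ i, x i ≠ 0)
    (hG : Gn 𝓤 S x) (B : ℝ)
    (hB : ∀ i, ∀ᶠ ν in (𝓤 : Filter ℕ), S.ht (rv (Pi.single i 1)) ν ≤ B) (hNC : NC x)
    (hd : 0 < dm x) (u : Fin (dm x + 1) → Fin n → ℝ) (hu : LinearIndependent ℝ u)
    (hr : rk x (Submodule.span ℝ (Set.range u) : Set (Fin n → ℝ)) = dm x) :
    NullC 𝓤 S {z | OnY x z ∧ ∀ i, ∑ l, u i l * Real.log ‖z l‖ = 0} := by
  have key : ∀ (d : ℕ) (_ : dm x = d) (_ : 0 < d) (u : Fin (d + 1) → Fin n → ℝ)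
      (_ : LinearIndependent ℝ u)
      (_ : rk x (Submodule.span ℝ (Set.range u) : Set (Fin n → ℝ)) = d),
      NullC 𝓤 S {z | OnY x z ∧ ∀ i, ∑ l, u i l * Real.log ‖z l‖ = 0} := by
    intro d hdm hd u hu hr
    obtain ⟨k, rfl⟩ : ∃ k, d = k + 1 := ⟨d - 1, by omega⟩
    exact NullS.full_aux hx hG B hB hNC hdm u hu hr
  exact key (dm x) rfl hd u hu hr

theorem null_real {n : ℕ} {𝓤 : Ultrafilter ℕ} {S : Sq n} {x : Fin n → L} (hx : ∀ i, x i ≠ 0)
    (hG : Gn 𝓤 S x) (B : ℝ)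
    (hB : ∀ i, ∀ᶠ ν in (𝓤 : Filter ℕ), S.ht (rv (Pi.single i 1)) ν ≤ B) (hNC : NC x)
    (hcos : ∀ a : Fin n → ℤ, a ≠ 0 → om x (rv a) ≠ 0) (hd : 0 < dm x)
    (u : Fin (dm x + 1) → Fin n → ℝ) (hu : LinearIndependent ℝ u) :
    NullC 𝓤 S {z | OnY x z ∧ ∀ i, ∑ l, u i l * Real.log ‖z l‖ = 0} :=
  NullS.real_aux n n le_rfl hx hG B hB hNC hcos hd u hu

end

end Pool.Agent.SD
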