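import Mathlib
import Pool.Agent.Lib.MP_c95b3b_ag_SD.NullS

set_option autoImplicit false

/-! Project SD (MP_c95b3b_ag), module TM: theorem (T), the contradiction for points of bounded
height. -/

namespace Pool.Agent.SD

open MvPolynomial Filter Topology Module

namespace TMain

section
variable {L : Type} [Field L] [Algebra ℂ L] {n : ℕ}

/-- the points of the variety with bounded logarithms -/
def Kc (x : Fin n → L) (ρ : ℝ) : Set (Fin n → ℂ) := {z | OnY x z ∧ ∀ l, |Real.log ‖z l‖| ≤ ρ}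

theorem Kc_eq (x : Fin n → L) (ρ : ℝ) : Kc x ρ =
    (⋂ l, {z : Fin n → ℂ | Real.exp (-ρ) ≤ ‖z l‖} ∩ {z | ‖z l‖ ≤ Real.exp ρ}) ∩
      ⋂ F : MvPolynomial (Fin n) ℂ, ⋂ _ : aeval x F = 0, {z | eval z F = 0} := by
  ext z
  rw [Set.mem_inter_iff, Set.mem_iInter, Set.mem_iInter]
  constructor
  · rintro ⟨⟨h0, h1⟩, h2⟩
    refine ⟨fun l => ?_, fun F => Set.mem_iInter.2 fun hF => h1 F hF⟩
    have hp : 0 < ‖z l‖ := norm_pos_iff.2 (h0 l)
    have h3 := abs_le.1 (h2 l)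
    exact ⟨(Real.le_log_iff_exp_le hp).1 h3.1, (Real.log_le_iff_le_exp hp).1 h3.2⟩
  · rintro ⟨h0, h1⟩
    have hp : ∀ l, 0 < ‖z l‖ := fun l => (Real.exp_pos _).trans_le (h0 l).1
    exact ⟨⟨fun l => norm_pos_iff.1 (hp l), fun F hF => Set.mem_iInter.1 (h1 F) hF⟩, fun l =>
      abs_le.2 ⟨(Real.le_log_iff_exp_le (hp l)).2 (h0 l).1,
        (Real.log_le_iff_le_exp (hp l)).2 (h0 l).2⟩⟩

theorem isCompact_Kc (x : Fin n → L) (ρ : ℝ) : IsCompact (Kc x ρ) := by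
  refine Metric.isCompact_of_isClosed_isBounded ?_ ?_
  · rw [Kc_eq]
    refine IsClosed.inter (isClosed_iInter fun l => IsClosed.inter
      (isClosed_le continuous_const (by fun_prop)) (isClosed_le (by fun_prop) continuous_const))
      (isClosed_iInter fun F => isClosed_iInter fun _ =>
        isClosed_eq (MvPolynomial.continuous_eval F) continuous_const)
  · refine (Metric.isBounded_closedBall (x := (0 : Fin n → ℂ)) (r := Real.exp ρ)).subset ?_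
    intro z hz
    rw [Kc_eq] at hz
    rw [mem_closedBall_zero_iff, pi_norm_le_iff_of_nonneg (Real.exp_pos _).le]
    exact fun l => (Set.mem_iInter.1 hz.1 l).2

theorem exists_eta (x : Fin n → L) (ρ : ℝ) {k : ℕ} (u : Fin k → Fin n → ℝ)
    {O : Set (Fin n → ℂ)} (hO : IsOpen O)
    (h : ∀ z ∈ Kc x ρ, (∀ i, ∑ l, u i l * Real.log ‖z l‖ = 0) → z ∈ O) :
    ∃ η : ℝ, 0 < η ∧ ∀ z ∈ Kc x ρ, (∀ i, |∑ l, u i l * Real.log ‖z l‖| ≤ η) → z ∈ O := by
  have hc : IsCompact (Kc x ρ \ O) := (isCompact_Kc x ρ).diff hO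
  rcases (Kc x ρ \ O).eq_empty_or_nonempty with he | hne
  · refine ⟨1, one_pos, fun z hz _ => ?_⟩
    by_contra hzO
    have h1 : z ∈ Kc x ρ \ O := ⟨hz, hzO⟩
    rw [he] at h1
    exact h1
  let g : (Fin n → ℂ) → ℝ := fun z => ‖fun i => ∑ l, u i l * Real.log ‖z l‖‖
  have hg : ContinuousOn g (Kc x ρ \ O) := by
    refine ContinuousOn.norm (continuousOn_pi.2 fun i => continuousOn_finsetSum _ fun l _ => ?_)
    refine continuousOn_const.mul (ContinuousOn.log (by fun_prop) fun z hz => ?_)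
    exact norm_ne_zero_iff.2 (hz.1.1.1 l)
  obtain ⟨z0, hz0, hmin⟩ := hc.exists_isMinOn hne hg
  have hpos : 0 < g z0 := by
    refine lt_of_le_of_ne (norm_nonneg _) fun h0 => hz0.2 (h z0 hz0.1 fun i => ?_)
    exact congrFun (norm_eq_zero.1 h0.symm) i
  refine ⟨g z0 / 2, by positivity, fun z hz hu => ?_⟩
  by_contra hzO
  have h1 : g z0 ≤ g z := hmin ⟨hz, hzO⟩
  have h2 : g z ≤ g z0 / 2 := (pi_norm_le_iff_of_nonneg (by positivity)).2 hu
  linarith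

theorem null_Kc {𝓤 : Ultrafilter ℕ} {S : Sq n} {x : Fin n → L} {k : ℕ} (u : Fin k → Fin n → ℝ)
    (ρ : ℝ) (h : NullC 𝓤 S {z | OnY x z ∧ ∀ i, ∑ l, u i l * Real.log ‖z l‖ = 0}) :
    Null 𝓤 S {z | z ∈ Kc x ρ ∧ ∀ i, ∑ l, u i l * Real.log ‖z l‖ = 0} := by
  refine (h.mono fun z hz => ⟨hz.1.1, hz.2⟩).null_of_isCompact ?_
  have hg : ContinuousOn (fun z : Fin n → ℂ => fun i => ∑ l, u i l * Real.log ‖z l‖)
      (Kc x ρ) := by
    refine continuousOn_pi.2 fun i => continuousOn_finsetSum _ fun l _ => ?_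
    refine continuousOn_const.mul (ContinuousOn.log (by fun_prop) fun z hz => ?_)
    exact norm_ne_zero_iff.2 (hz.1.1 l)
  have h1 := hg.preimage_isClosed_of_isClosed (isCompact_Kc x ρ).isClosed
    (isClosed_singleton (x := (0 : Fin k → ℝ)))
  have h2 : {z | z ∈ Kc x ρ ∧ ∀ i, ∑ l, u i l * Real.log ‖z l‖ = 0} =
      Kc x ρ ∩ (fun z : Fin n → ℂ => fun i => ∑ l, u i l * Real.log ‖z l‖) ⁻¹' {0} := by
    ext z
    constructor
    · rintro ⟨h3, h4⟩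
      exact ⟨h3, funext h4⟩
    · rintro ⟨h3, h4⟩
      exact ⟨h3, fun i => congrFun h4 i⟩
  rw [h2]
  exact (isCompact_Kc x ρ).of_isClosed_subset h1 Set.inter_subset_left

theorem markov (S : Sq n) (ν : ℕ) (l : Fin n) {ρ B : ℝ} (hρ : 0 < ρ)
    (hB : S.ht (rv (Pi.single l 1)) ν ≤ B) :
    (Nat.card {σ : Fin (S.W ν).D // ρ < |S.lam ν (.inl σ) l|} : ℝ) ≤ B / ρ * (S.W ν).D := by
  classical
  have h0 : ∀ w, rv (Pi.single l 1) ⬝ᵥ S.lam ν w = S.lam ν w l := by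
    intro w
    rw [rv_single, single_one_dotProduct]
  have h1 : ∑ w, |rv (Pi.single l 1) ⬝ᵥ S.lam ν w| ≤ B * (S.W ν).D :=
    (S.W ν).sum_le_of_avg_le hB
  have h2 : ∑ σ, |rv (Pi.single l 1) ⬝ᵥ S.lam ν (.inl σ)| ≤
      ∑ w, |rv (Pi.single l 1) ⬝ᵥ S.lam ν w| :=
    (S.W ν).sum_inl_le (f := fun w => |rv (Pi.single l 1) ⬝ᵥ S.lam ν w|) (fun _ => abs_nonneg _)
  simp only [h0] at h1 h2
  rw [Nat.card_eq_fintype_card, Fintype.card_subtype]
  have h3 : ((Finset.univ.filter fun σ : Fin (S.W ν).D => ρ < |S.lam ν (.inl σ) l|).card : ℝ) * ρ ≤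
      ∑ σ ∈ Finset.univ.filter fun σ : Fin (S.W ν).D => ρ < |S.lam ν (.inl σ) l|,
        |S.lam ν (.inl σ) l| := by
    rw [← nsmul_eq_mul]
    exact Finset.card_nsmul_le_sum _ _ _ fun σ hσ => (Finset.mem_filter.1 hσ).2.le
  have h4 : ∑ σ ∈ Finset.univ.filter fun σ : Fin (S.W ν).D => ρ < |S.lam ν (.inl σ) l|,
        |S.lam ν (.inl σ) l| ≤ ∑ σ, |S.lam ν (.inl σ) l| :=
    Finset.sum_le_sum_of_subset_of_nonneg (Finset.filter_subset _ _) fun _ _ _ => abs_nonneg _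
  rw [div_mul_eq_mul_div, le_div_iff₀ hρ]
  linarith

end

end TMain

open TMain in
theorem t_main {L : Type} [Field L] [Algebra ℂ L] {n : ℕ} {𝓤 : Ultrafilter ℕ} {S : Sq n}
    {x : Fin n → L} (hx : ∀ i, x i ≠ 0) (hG : Gn 𝓤 S x) (B : ℝ)
    (hB : ∀ i, ∀ᶠ ν in (𝓤 : Filter ℕ), S.ht (rv (Pi.single i 1)) ν ≤ B) (hNC : NC x)
    (hcos : ∀ a : Fin n → ℤ, a ≠ 0 → om x (rv a) ≠ 0) (hd : 0 < dm x)
    (s : ∀ ν, Finset (Fin (S.W ν).D)) (θ : ℝ) (hθ : 0 < θ)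
    (hs : ∀ᶠ ν in (𝓤 : Filter ℕ), θ * (S.W ν).D ≤ (s ν).card ∧
      ∀ σ ∈ s ν, OnY x (S.pt ν σ))
    (r : ℕ) (u : Fin r → Fin (dm x + 1) → Fin n → ℝ) (hu : ∀ j, LinearIndependent ℝ (u j))
    (hnear : ∀ ε : ℝ, 0 < ε → ∀ η : ℝ, 0 < η → ∀ᶠ ν in (𝓤 : Filter ℕ),
      (Nat.card {σ : Fin (S.W ν).D // ¬ ∃ j, ∀ i, |u j i ⬝ᵥ S.lam ν (.inl σ)| ≤ η} : ℝ) ≤
        ε * (S.W ν).D) : False := by
  classical
  set ρ : ℝ := 4 * n * |B| / θ + 1 with hρd
  have hρ : 0 < ρ := by positivity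
  have hρ2 : n * (B / ρ) ≤ θ / 4 := by
    have h1 : n * B ≤ n * |B| := mul_le_mul_of_nonneg_left (le_abs_self B) (Nat.cast_nonneg n)
    have h2 : θ / 4 * ρ = n * |B| + θ / 4 := by
      rw [hρd]
      field_simp
    rw [← mul_div_assoc, div_le_iff₀ hρ, h2]
    linarith
  -- the open sets
  have hθr : 0 < θ / (4 * (r + 1)) := by positivity
  choose O hO1 hO2 hO3 using fun j => null_Kc (u j) ρ
    (null_real hx hG B hB hNC hcos hd (u j) (hu j)) _ hθr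
  choose η hη1 hη2 using fun j => exists_eta x ρ (u j) (hO1 j) fun z hz hz2 => hO2 j ⟨hz, hz2⟩
  obtain ⟨η0, hη0, hη0'⟩ : ∃ η0 : ℝ, 0 < η0 ∧ ∀ j, η0 ≤ η j := by
    have h1 : ∀ᶠ η0 in 𝓝[>] (0 : ℝ), ∀ j, η0 ≤ η j :=
      eventually_all.2 fun j => mem_nhdsWithin_of_mem_nhds (Iic_mem_nhds (hη1 j))
    obtain ⟨η0, h2, h3⟩ := (h1.and self_mem_nhdsWithin).exists
    exact ⟨η0, h3, h2⟩
  have hθ4 : 0 < θ / 4 := by positivity
  obtain ⟨ν, ⟨hν1, hν2⟩, hν3, hν4, hν5⟩ := (hs.and ((hnear _ hθ4 _ hη0).and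
    ((eventually_all.2 hO3).and (eventually_all.2 hB)))).exists
  have hD : (0 : ℝ) < (S.W ν).D := (S.W ν).D_cast_pos
  have hsub : s ν ⊆ (Finset.univ.filter fun σ : Fin (S.W ν).D =>
      ¬ ∃ j, ∀ i, |u j i ⬝ᵥ S.lam ν (.inl σ)| ≤ η0) ∪
      ((Finset.univ.biUnion fun l : Fin n => Finset.univ.filter fun σ : Fin (S.W ν).D =>
        ρ < |S.lam ν (.inl σ) l|) ∪
      Finset.univ.biUnion fun j => Finset.univ.filter fun σ : Fin (S.W ν).D =>
        S.pt ν σ ∈ O j) := by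
    intro σ hσ
    by_cases h1 : ∃ j, ∀ i, |u j i ⬝ᵥ S.lam ν (.inl σ)| ≤ η0
    · obtain ⟨j, hj⟩ := h1
      refine Finset.mem_union_right _ ?_
      by_cases h2 : ∃ l, ρ < |S.lam ν (.inl σ) l|
      · obtain ⟨l, hl⟩ := h2
        exact Finset.mem_union_left _ (Finset.mem_biUnion.2 ⟨l, Finset.mem_univ _,
          Finset.mem_filter.2 ⟨Finset.mem_univ _, hl⟩⟩)
      · push Not at h2
        refine Finset.mem_union_right _ (Finset.mem_biUnion.2 ⟨j, Finset.mem_univ _,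
          Finset.mem_filter.2 ⟨Finset.mem_univ _, ?_⟩⟩)
        exact hη2 j _ ⟨hν2 σ hσ, h2⟩ fun i => (hj i).trans (hη0' j)
    · exact Finset.mem_union_left _ (Finset.mem_filter.2 ⟨Finset.mem_univ _, h1⟩)
  have hc1 := Finset.card_le_card hsub
  have hc2 := (hc1.trans (Finset.card_union_le _ _)).trans
    (add_le_add le_rfl (Finset.card_union_le _ _))
  have hA : ((Finset.univ.filter fun σ : Fin (S.W ν).D =>
      ¬ ∃ j, ∀ i, |u j i ⬝ᵥ S.lam ν (.inl σ)| ≤ η0).card : ℝ) ≤ θ / 4 * (S.W ν).D := by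
    rw [Nat.card_eq_fintype_card, Fintype.card_subtype] at hν3
    exact hν3
  have hBB : ((Finset.univ.biUnion fun l : Fin n => Finset.univ.filter fun σ : Fin (S.W ν).D =>
        ρ < |S.lam ν (.inl σ) l|).card : ℝ) ≤ θ / 4 * (S.W ν).D := by
    have h1 := Finset.card_biUnion_le (s := Finset.univ) (t := fun l : Fin n =>
      Finset.univ.filter fun σ : Fin (S.W ν).D => ρ < |S.lam ν (.inl σ) l|)
    calc _ ≤ ((∑ l : Fin n, (Finset.univ.filter fun σ : Fin (S.W ν).D =>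
          ρ < |S.lam ν (.inl σ) l|).card : ℕ) : ℝ) := Nat.cast_le.2 h1
      _ = ∑ l : Fin n, ((Finset.univ.filter fun σ : Fin (S.W ν).D =>
          ρ < |S.lam ν (.inl σ) l|).card : ℝ) := Nat.cast_sum _ _
      _ ≤ ∑ _l : Fin n, B / ρ * (S.W ν).D := by
          refine Finset.sum_le_sum fun l _ => ?_
          have h2 := markov S ν l hρ (hν5 l)
          rw [Nat.card_eq_fintype_card, Fintype.card_subtype] at h2
          exact h2
      _ = n * (B / ρ) * (S.W ν).D := by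
          rw [Finset.sum_const, Finset.card_univ, Fintype.card_fin, nsmul_eq_mul, mul_assoc]
      _ ≤ θ / 4 * (S.W ν).D := mul_le_mul_of_nonneg_right hρ2 hD.le
  have hCC : ((Finset.univ.biUnion fun j => Finset.univ.filter fun σ : Fin (S.W ν).D =>
        S.pt ν σ ∈ O j).card : ℝ) ≤ θ / 4 * (S.W ν).D := by
    have h1 := Finset.card_biUnion_le (s := Finset.univ) (t := fun j : Fin r =>
      Finset.univ.filter fun σ : Fin (S.W ν).D => S.pt ν σ ∈ O j)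
    calc _ ≤ ((∑ j : Fin r, (Finset.univ.filter fun σ : Fin (S.W ν).D =>
          S.pt ν σ ∈ O j).card : ℕ) : ℝ) := Nat.cast_le.2 h1
      _ = ∑ j : Fin r, ((Finset.univ.filter fun σ : Fin (S.W ν).D =>
          S.pt ν σ ∈ O j).card : ℝ) := Nat.cast_sum _ _
      _ ≤ ∑ _j : Fin r, θ / (4 * (r + 1)) * (S.W ν).D := by
          refine Finset.sum_le_sum fun j _ => ?_
          have h2 := hν4 j
          rw [Nat.card_eq_fintype_card, Fintype.card_subtype] at h2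
          exact h2
      _ = r * (θ / (4 * (r + 1))) * (S.W ν).D := by
          rw [Finset.sum_const, Finset.card_univ, Fintype.card_fin, nsmul_eq_mul, mul_assoc]
      _ ≤ θ / 4 * (S.W ν).D := by
          refine mul_le_mul_of_nonneg_right ?_ hD.le
          rw [← mul_div_assoc, div_le_iff₀ (by positivity)]
          nlinarith
  have hc3 : ((s ν).card : ℝ) ≤ _ := Nat.cast_le.2 hc2
  push_cast at hc3
  have := mul_pos hθ hD
  linarith

end Pool.Agent.SD
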