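import Mathlib
import Pool.Agent.Lib.MP_c95b3b_ag_SD.RelMap
import Pool.Agent.Lib.MP_c95b3b_ag_SD.TMain

set_option autoImplicit false

/-! Project SD (MP_c95b3b_ag), module MA: the bounded characters have codimension `c`. -/

namespace Pool.Agent.SD

open MvPolynomial Filter Topology Module Pool.Agent.L3

namespace MixA

theorem ht_zero_of_mem {n : ℕ} (S : Sq n) {b : Fin n → ℝ} {ν : ℕ} (h : b ∈ Rel S ν) :
    S.ht b ν = 0 := by
  have h0 : (fun w : (S.W ν).Pl => |b ⬝ᵥ S.lam ν w|) = fun _ => 0 := by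
    funext w
    have h1 : b ⬝ᵥ S.lam ν w = 0 := h w
    rw [h1, abs_zero]
  rw [Sq.ht, h0]
  simp [Places.avg]

theorem cmb_single {n m : ℕ} (β : Fin m → Fin n → ℤ) (l : Fin m) :
    cmb β (Pi.single l 1) = β l := by
  funext i
  simp [cmb, Pi.single_apply]

theorem finrank_Rel_le {n : ℕ} (S : Sq n) (ν : ℕ) : finrank ℝ (Rel S ν) ≤ n := by
  have h := Submodule.finrank_le (Rel S ν)
  rwa [Module.finrank_fin_fun] at h

end MixA

section
variable {L : Type} [Field L] [CharZero L] [Algebra ℂ L] {n : ℕ} {𝓤 : Ultrafilter ℕ} {S : Sq n}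
  {x : Fin n → L}

/-- if the bounded characters have codimension at least `c - 1` there is a nonconstant bounded
character -/
theorem rk_pos (hx : ∀ i, x i ≠ 0) (hsp : Spc 𝓤 S x)
    (hcos : ∀ a : Fin n → ℤ, a ≠ 0 → om x (rv a) ≠ 0)
    (hc : cd x ⊤ ≤ cd x (LO 𝓤 S (fun _ => 1)) + 1) : 0 < rkZ x (LO 𝓤 S (fun _ => 1)) := by
  by_contra hcon
  have h0 : rkZ x (LO 𝓤 S (fun _ => 1)) = 0 := by omega
  have hbot : LO 𝓤 S (fun _ => 1) = ⊥ := eq_bot_of_rkZ hcos h0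
  have h1 : cd x (LO 𝓤 S (fun _ => 1)) = 0 := by
    rw [cd, hbot, finrank_bot, Nat.zero_sub]
  have h2 : cd x ⊤ = n - dm x := by
    rw [cd, finrank_top, Module.finrank_fin_fun, rkZ_top]
  rw [h1, h2] at hc
  have hn : 0 < n := by
    obtain ⟨ν, hν⟩ := hsp.exists
    have h3 := MixA.finrank_Rel_le S ν
    omega
  have hmem : Pi.single (⟨0, hn⟩ : Fin n) (1 : ℤ) ∈ LO 𝓤 S (fun _ => 1) := by
    rw [mem_LO]
    refine ⟨0, ?_⟩
    filter_upwards [hsp] with ν hν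
    have h3 := MixA.finrank_Rel_le S ν
    have h4 : Rel S ν = ⊤ := by
      apply Submodule.eq_top_of_finrank_eq
      rw [Module.finrank_fin_fun]
      omega
    have h5 : rv (Pi.single (⟨0, hn⟩ : Fin n) (1 : ℤ)) ∈ Rel S ν := by
      rw [h4]
      exact Submodule.mem_top
    rw [MixA.ht_zero_of_mem S h5, zero_mul]
  rw [hbot, Submodule.mem_bot] at hmem
  have h6 := congrFun hmem ⟨0, hn⟩
  simp at h6

/-- Markov's inequality for the coordinates of the images under bounded characters -/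
theorem markov (S : Sq n) (ν : ℕ) (B ρ : ℝ) (hρ : 0 < ρ)
    (hB : ∀ i, S.ht (rv (Pi.single i 1)) ν ≤ B) :
    (Nat.card {σ : Fin (S.W ν).D // ¬ ∀ i, |S.lam ν (.inl σ) i| ≤ ρ} : ℝ) ≤
      n * (B / ρ) * (S.W ν).D := by
  classical
  have h0 : Nat.card {σ : Fin (S.W ν).D // ¬ ∀ i, |S.lam ν (.inl σ) i| ≤ ρ} ≤
      ∑ l : Fin n, Nat.card {σ : Fin (S.W ν).D // ρ < |S.lam ν (.inl σ) l|} := by
    simp only [Nat.card_eq_fintype_card, Fintype.card_subtype]
    have h1 : (Finset.univ.filter fun σ : Fin (S.W ν).D =>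
        ¬ ∀ i, |S.lam ν (.inl σ) i| ≤ ρ) ⊆ Finset.univ.biUnion fun l : Fin n =>
        Finset.univ.filter fun σ : Fin (S.W ν).D => ρ < |S.lam ν (.inl σ) l| := by
      intro σ hσ
      have h2 := (Finset.mem_filter.1 hσ).2
      push Not at h2
      obtain ⟨l, hl⟩ := h2
      exact Finset.mem_biUnion.2 ⟨l, Finset.mem_univ _, Finset.mem_filter.2
        ⟨Finset.mem_univ _, hl⟩⟩
    exact (Finset.card_le_card h1).trans Finset.card_biUnion_le
  calc (Nat.card {σ : Fin (S.W ν).D // ¬ ∀ i, |S.lam ν (.inl σ) i| ≤ ρ} : ℝ)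
      ≤ ((∑ l : Fin n, Nat.card {σ : Fin (S.W ν).D // ρ < |S.lam ν (.inl σ) l|} : ℕ) : ℝ) :=
        Nat.cast_le.2 h0
    _ = ∑ l : Fin n, (Nat.card {σ : Fin (S.W ν).D // ρ < |S.lam ν (.inl σ) l|} : ℝ) :=
        Nat.cast_sum _ _
    _ ≤ ∑ _l : Fin n, B / ρ * (S.W ν).D :=
        Finset.sum_le_sum fun l _ => TMain.markov S ν l hρ (hB l)
    _ = n * (B / ρ) * (S.W ν).D := by
        rw [Finset.sum_const, Finset.card_univ, Fintype.card_fin, nsmul_eq_mul, mul_assoc]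

theorem mixed_zero (hx : ∀ i, x i ≠ 0) (hG : Gn 𝓤 S x) (hsp : Spc 𝓤 S x)
    (hcos : ∀ a : Fin n → ℤ, a ≠ 0 → om x (rv a) ≠ 0) (hNC : NC x)
    (s : ∀ ν, Finset (Fin (S.W ν).D)) (θ : ℝ) (hθ : 0 < θ)
    (hs : ∀ᶠ ν in (𝓤 : Filter ℕ), θ * (S.W ν).D ≤ (s ν).card ∧
      ∀ σ ∈ s ν, OnY x (S.pt ν σ))
    (hc : cd x ⊤ ≤ cd x (LO 𝓤 S (fun _ => 1))) : False := by
  classical
  have hpos : 0 < rkZ x (LO 𝓤 S (fun _ => 1)) := rk_pos hx hsp hcos (by omega)
  have hbas := exists_basis (LO 𝓤 S (fun _ => 1))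
  obtain ⟨m, hm⟩ : ∃ m, finrank ℤ (LO 𝓤 S (fun _ => 1)) = m := ⟨_, rfl⟩
  rw [hm] at hbas
  obtain ⟨β, hβ, hmem, -⟩ := hbas
  have hdm : dm (mm β x) = rkZ x (LO 𝓤 S (fun _ => 1)) := by
    rw [← rkZ_top]
    refine rkZ_mm hx β ⊤ _ fun a => ?_
    rw [hmem]
    exact ⟨fun ⟨c, hc⟩ => ⟨c, Submodule.mem_top, hc⟩, fun ⟨c, _, hc⟩ => ⟨c, hc⟩⟩
  have hβm : ∀ l, β l ∈ LO 𝓤 S (fun _ => 1) := fun l =>
    (hmem _).2 ⟨Pi.single l 1, (MixA.cmb_single β l).symm⟩
  obtain ⟨B, hB⟩ := ht_unit hβm (Eventually.of_forall fun _ => zero_le_one)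
  have hB' : ∀ l, ∀ᶠ ν in (𝓤 : Filter ℕ), (S.map β).ht (rv (Pi.single l 1)) ν ≤ B :=
    fun l => (hB l).mono fun ν h => by rwa [mul_one] at h
  -- the relations of the images
  have hrel : ∀ᶠ ν in (𝓤 : Filter ℕ), dm (mm β x) + 1 ≤ finrank ℝ (Rel (S.map β) ν) := by
    have h1 : cd x ⊤ = n - dm x := by
      rw [cd, finrank_top, Module.finrank_fin_fun, rkZ_top]
    have h2 : cd x (LO 𝓤 S (fun _ => 1)) = m - dm (mm β x) := by
      rw [cd, hm, hdm]
    have h3 : dm (mm β x) ≤ m := by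
      rw [hdm, ← hm]
      exact rkZ_le_finrank x _
    have h4 : dm x ≤ n := by
      have h5 := rkZ_le_finrank x (⊤ : Submodule ℤ (Fin n → ℤ))
      rwa [rkZ_top, finrank_top, Module.finrank_fin_fun] at h5
    rw [h1, h2] at hc
    filter_upwards [hsp] with ν hν
    have h5 := finrank_comap hβ (Rel S ν)
    rw [← Rel_map] at h5
    omega
  obtain ⟨u, hu, -, u', hu', hconv, -⟩ := lim_frame 𝓤 (dm (mm β x) + 1) (Rel (S.map β)) hrel ⊤
    fun _ => le_top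
  refine t_main (S := S.map β) (x := mm β x) (mm_ne_zero hx β) (hG.map hx β) B hB'
    (hNC.map hx hβ) (hcos_map hx hcos hβ) (by rw [hdm]; exact hpos) s θ hθ ?_ 1 (fun _ => u)
    (fun _ => hu) ?_
  · filter_upwards [hs] with ν hν
    refine ⟨hν.1, fun σ hσ => ?_⟩
    rw [map_pt]
    exact (hν.2 σ hσ).map hx β
  · intro ε hε η hη
    set ρ : ℝ := m * |B| / ε + 1 with hρd
    have hρ : 0 < ρ := by positivity
    have hρ2 : m * (B / ρ) ≤ ε := by
      have h1 : m * B ≤ m * |B| := mul_le_mul_of_nonneg_left (le_abs_self B) (Nat.cast_nonneg m)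
      have h2 : ε * ρ = m * |B| + ε := by
        rw [hρd]
        field_simp
      rw [← mul_div_assoc, div_le_iff₀ hρ, h2]
      linarith
    have hsm : ∀ i, ∀ᶠ ν in (𝓤 : Filter ℕ), ∑ l, |u i l - u' ν i l| < η / ρ := by
      intro i
      have h1 : Tendsto (fun ν => ∑ l, |u i l - u' ν i l|) 𝓤 (𝓝 (∑ l : Fin m, |u i l - u i l|)) :=
        tendsto_finsetSum _ fun l _ => (tendsto_const_nhds.sub (hconv i l)).abs
      have h2 : ∑ l : Fin m, |u i l - u i l| = 0 := by simp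
      rw [h2] at h1
      exact h1.eventually (gt_mem_nhds (by positivity))
    filter_upwards [eventually_all.2 hsm, hu', eventually_all.2 hB'] with ν h1 h2 h3
    have h4 := markov (S.map β) ν B ρ hρ h3
    have hD : (0 : ℝ) < ((S.map β).W ν).D := ((S.map β).W ν).D_cast_pos
    have h5 : Nat.card {σ : Fin ((S.map β).W ν).D //
        ¬ ∃ _j : Fin 1, ∀ i, |u i ⬝ᵥ (S.map β).lam ν (.inl σ)| ≤ η} ≤
        Nat.card {σ : Fin ((S.map β).W ν).D // ¬ ∀ i, |(S.map β).lam ν (.inl σ) i| ≤ ρ} := by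
      refine Nat.card_le_card_of_injective (Subtype.impEmbedding _ _ fun σ hσ hall => hσ ?_)
        (Subtype.impEmbedding _ _ _).injective
      refine ⟨0, fun i => ?_⟩
      have h6 : u' ν i ⬝ᵥ (S.map β).lam ν (.inl σ) = 0 := h2 i (.inl σ)
      have h7 : u i ⬝ᵥ (S.map β).lam ν (.inl σ) =
          (u i - u' ν i) ⬝ᵥ (S.map β).lam ν (.inl σ) := by
        rw [sub_dotProduct, h6, sub_zero]
      rw [h7, dotProduct]
      calc |∑ l, (u i - u' ν i) l * (S.map β).lam ν (.inl σ) l|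
          ≤ ∑ l, |(u i - u' ν i) l * (S.map β).lam ν (.inl σ) l| :=
            Finset.abs_sum_le_sum_abs _ _
        _ ≤ ∑ l, |u i l - u' ν i l| * ρ := by
            refine Finset.sum_le_sum fun l _ => ?_
            rw [abs_mul, Pi.sub_apply]
            exact mul_le_mul_of_nonneg_left (hall l) (abs_nonneg _)
        _ = (∑ l, |u i l - u' ν i l|) * ρ := (Finset.sum_mul _ _ _).symm
        _ ≤ η / ρ * ρ := mul_le_mul_of_nonneg_right (h1 i).le hρ.le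
        _ = η := by field_simp
    calc (Nat.card {σ : Fin ((S.map β).W ν).D //
        ¬ ∃ _j : Fin 1, ∀ i, |u i ⬝ᵥ (S.map β).lam ν (.inl σ)| ≤ η} : ℝ)
        ≤ (Nat.card {σ : Fin ((S.map β).W ν).D //
          ¬ ∀ i, |(S.map β).lam ν (.inl σ) i| ≤ ρ} : ℝ) := Nat.cast_le.2 h5
      _ ≤ m * (B / ρ) * ((S.map β).W ν).D := h4
      _ ≤ ε * ((S.map β).W ν).D := mul_le_mul_of_nonneg_right hρ2 hD.le

end

end Pool.Agent.SD
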