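import Mathlib
import Pool.Agent.Lib.MP_c95b3b_ag_SD.MixA
import Pool.Agent.Lib.MP_c95b3b_ag_SD.HtAlg
import Pool.Agent.Lib.MP_c95b3b_ag_SD.AdRel
import Pool.Agent.Lib.MP_c95b3b_ag_SD.GrowA

set_option autoImplicit false

/-! Project SD (MP_c95b3b_ag), module MI: the bounded characters have codimension `c - 1`. -/

namespace Pool.Agent.SD

open MvPolynomial Filter Topology Module Pool.Agent.L3

namespace Mixed

/-- a polynomial in two groups of variables, ordered by the exponents of the first group -/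
theorem group {r k : ℕ} (F : MvPolynomial (Fin r ⊕ Fin k) ℤ) (hF : F ≠ 0) :
    ∃ (I : Finset (Fin r → ℕ)) (G : (Fin r → ℕ) → MvPolynomial (Fin k) ℤ), I.Nonempty ∧
      (∀ e ∈ I, G e ≠ 0) ∧ ∀ (K : Type) [Field K] (v : Fin r → K) (u : Fin k → K),
        aeval (Sum.elim v u) F = ∑ e ∈ I, aeval u (G e) * ∏ i, v i ^ e i := by
  classical
  set H : MvPolynomial (Fin r) (MvPolynomial (Fin k) ℤ) := sumAlgEquiv ℤ (Fin r) (Fin k) F with hH
  have hH0 : H ≠ 0 := by
    rw [hH, Ne, EmbeddingLike.map_eq_zero_iff]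
    exact hF
  refine ⟨H.support.map Finsupp.equivFunOnFinite.toEmbedding,
    fun e => H.coeff (Finsupp.equivFunOnFinite.symm e), ?_, ?_, ?_⟩
  · rw [Finset.map_nonempty, support_nonempty]
    exact hH0
  · intro e he
    obtain ⟨e', he', rfl⟩ := Finset.mem_map.1 he
    have h1 : Finsupp.equivFunOnFinite.symm (Finsupp.equivFunOnFinite.toEmbedding e') = e' :=
      Finsupp.equivFunOnFinite.symm_apply_apply e'
    beta_reduce
    rw [h1]
    exact mem_support_iff.1 he'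
  · intro K _ v u
    have h1 : ∀ P : MvPolynomial (Fin r ⊕ Fin k) ℤ, aeval (Sum.elim v u) P =
        eval₂Hom ((aeval u : MvPolynomial (Fin k) ℤ →ₐ[ℤ] K) : MvPolynomial (Fin k) ℤ →+* K) v
          (sumAlgEquiv ℤ (Fin r) (Fin k) P) := by
      intro P
      induction P using MvPolynomial.induction_on with
      | C q =>
        rw [sumAlgEquiv_C_inl, coe_eval₂Hom, eval₂_C]
        simp
      | add p q hp hq => rw [map_add, map_add, map_add, hp, hq]
      | mul_X p i hp =>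
        rw [map_mul, map_mul, map_mul, hp]
        congr 1
        rcases i with i | i
        · rw [sumAlgEquiv_X_inl, aeval_X, coe_eval₂Hom, eval₂_X]
          rfl
        · rw [sumAlgEquiv_X_inr, aeval_X, coe_eval₂Hom, eval₂_C]
          simp
    rw [h1, ← hH, coe_eval₂Hom, eval₂_eq', Finset.sum_map]
    refine Finset.sum_congr rfl fun e _ => ?_
    have h2 : Finsupp.equivFunOnFinite.symm (Finsupp.equivFunOnFinite.toEmbedding e) = e :=
      Finsupp.equivFunOnFinite.symm_apply_apply e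
    beta_reduce
    rw [h2]
    rfl

/-- the ranks of independent families of forms -/
theorem le_dm {L : Type} [Field L] [Algebra ℂ L] {n : ℕ} {x : Fin n → L} {k : ℕ}
    {γ : Fin k → Fin n → ℤ} (h : LinearIndependent L (fun j => om x (rv (γ j)))) : k ≤ dm x := by
  have h1 := finite_span_om x (Set.univ : Set (Fin n → ℝ))
  have h2 : Submodule.span L (Set.range fun j => om x (rv (γ j))) ≤
      Submodule.span L (om x '' Set.univ) := by
    refine Submodule.span_mono ?_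
    rintro _ ⟨i, rfl⟩
    exact ⟨_, Set.mem_univ _, rfl⟩
  have h3 := Submodule.finrank_mono h2
  rw [finrank_span_eq_card h, Fintype.card_fin] at h3
  exact h3

/-- lattice vectors which are independent modulo a lattice -/
theorem exists_delta {n : ℕ} (Λ : Submodule ℤ (Fin n → ℤ)) :
    ∃ δ : Fin (n - finrank ℤ Λ) → Fin n → ℤ, ∀ k : Fin (n - finrank ℤ Λ) → ℤ,
      ∑ i, k i • δ i ∈ Λ → k = 0 := by
  have h1 : finrank ℤ ((Fin n → ℤ) ⧸ Λ) + finrank ℤ Λ = n := by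
    rw [Submodule.finrank_quotient_add_finrank, Module.finrank_fin_fun]
  obtain ⟨f, hf⟩ := exists_linearIndependent_of_le_finrank (R := ℤ) (M := (Fin n → ℤ) ⧸ Λ)
    (n := n - finrank ℤ Λ) (by omega)
  choose δ hδ using fun i => Submodule.Quotient.mk_surjective Λ (f i)
  refine ⟨δ, fun k hk => ?_⟩
  rw [Fintype.linearIndependent_iff] at hf
  funext i
  refine hf k ?_ i
  rw [← Submodule.Quotient.mk_eq_zero] at hk
  rw [← hk]
  have h2 : (Submodule.Quotient.mk (∑ i, k i • δ i) : (Fin n → ℤ) ⧸ Λ) =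
      Λ.mkQ (∑ i, k i • δ i) := rfl
  rw [h2, map_sum]
  refine Finset.sum_congr rfl fun j _ => ?_
  rw [map_smul, Submodule.mkQ_apply, hδ]

section
variable {n : ℕ} {𝓤 : Ultrafilter ℕ} {S : Sq n}

/-- unbounded characters -/
theorem ht_large {b : Fin n → ℤ} (hb : b ∉ LO 𝓤 S (fun _ => 1)) (C : ℝ) :
    ∀ᶠ ν in (𝓤 : Filter ℕ), C < S.ht (rv b) ν := by
  have h1 : ¬ ∀ᶠ ν in (𝓤 : Filter ℕ), S.ht (rv b) ν ≤ C * (fun _ => (1 : ℝ)) ν :=
    fun h => hb (mem_LO.2 ⟨C, h⟩)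
  rw [← Ultrafilter.eventually_not] at h1
  filter_upwards [h1] with ν h2
  rw [mul_one] at h2
  exact not_le.1 h2

/-- the coefficient of an unbounded character in a bounded vector of an image -/
theorem coef_le {m : ℕ} {β : Fin m → Fin n → ℤ} {B : ℝ} {ν : ℕ}
    (hB : ∀ l, (S.map β).ht (rv (Pi.single l 1)) ν ≤ B) {b : Fin n → ℤ} {c : Fin m → ℝ}
    (hc : ∀ l, |c l| ≤ 1) {t : ℝ}
    (h : ∀ w : (S.W ν).Pl, c ⬝ᵥ (S.map β).lam ν w = t * (rv b ⬝ᵥ S.lam ν w)) :
    |t| * S.ht (rv b) ν ≤ m * |B| := by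
  have h1 : (S.map β).ht c ν = |t| * S.ht (rv b) ν := by
    rw [Sq.ht, Sq.ht, ← Places.avg_mul]
    refine congrArg (S.W ν).avg (funext fun w => ?_)
    rw [h w, abs_mul]
  rw [← h1]
  refine (ht_le (S.map β) c ν).trans ?_
  calc ∑ l, |c l| * (S.map β).ht (rv (Pi.single l 1)) ν ≤ ∑ _l : Fin m, |B| := by
        refine Finset.sum_le_sum fun l _ => ?_
        calc |c l| * (S.map β).ht (rv (Pi.single l 1)) ν ≤
            1 * (S.map β).ht (rv (Pi.single l 1)) ν :=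
              mul_le_mul_of_nonneg_right (hc l) (ht_nonneg _ _ _)
          _ ≤ |B| := by
              rw [one_mul]
              exact (hB l).trans (le_abs_self B)
    _ = m * |B| := by
        rw [Finset.sum_const, Finset.card_univ, Fintype.card_fin, nsmul_eq_mul]

/-- independent vectors of the image which are small at the places where an unbounded character
is small -/
theorem frame {L : Type} [Field L] [Algebra ℂ L] {x : Fin n → L} (hsp : Spc 𝓤 S x) {m : ℕ}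
    {β : Fin m → Fin n → ℤ} (hβ : LinearIndependent ℤ β) (B : ℝ)
    (hB : ∀ l, ∀ᶠ ν in (𝓤 : Filter ℕ), (S.map β).ht (rv (Pi.single l 1)) ν ≤ B)
    (r : ℕ) (hr : r + n ≤ dm x + 2 + m) {b : Fin n → ℤ} (hb : b ∉ LO 𝓤 S (fun _ => 1)) :
    ∃ u : Fin r → Fin m → ℝ, LinearIndependent ℝ u ∧ ∀ ρ : ℝ, 0 < ρ → ∀ η : ℝ, 0 < η →
      ∀ᶠ ν in (𝓤 : Filter ℕ), ∀ w : (S.W ν).Pl, (∀ l, |(S.map β).lam ν w l| ≤ ρ) →
        |rv b ⬝ᵥ S.lam ν w| ≤ ρ → ∀ i, |u i ⬝ᵥ (S.map β).lam ν w| ≤ η := by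
  classical
  have hZ : ∀ᶠ ν in (𝓤 : Filter ℕ),
      r ≤ finrank ℝ ((Rel S ν ⊔ Submodule.span ℝ {rv b}).comap (cmbL β)) := by
    filter_upwards [hsp, ht_large hb 0] with ν h1 h2
    have h3 : rv b ∉ Rel S ν := by
      intro h
      have h4 : S.ht (rv b) ν = 0 := by
        have h5 : ∀ w : (S.W ν).Pl, |rv b ⬝ᵥ S.lam ν w| = 0 * |rv b ⬝ᵥ S.lam ν w| := by
          intro w
          rw [h w, abs_zero, zero_mul]
        rw [Sq.ht, funext h5, Places.avg_mul, zero_mul]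
      rw [h4] at h2
      exact lt_irrefl _ h2
    have h5 : Rel S ν < Rel S ν ⊔ Submodule.span ℝ {rv b} := by
      refine lt_of_le_of_ne le_sup_left fun h => h3 ?_
      rw [h]
      exact Submodule.mem_sup_right (Submodule.mem_span_singleton_self _)
    have h6 := Submodule.finrank_lt_finrank_of_lt h5
    have h7 := finrank_comap hβ (Rel S ν ⊔ Submodule.span ℝ {rv b})
    omega
  obtain ⟨u, hli, -, u', hmem, hconv, hbd⟩ := lim_frame 𝓤 r
    (fun ν => (Rel S ν ⊔ Submodule.span ℝ {rv b}).comap (cmbL β)) hZ ⊤ fun _ => le_top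
  refine ⟨u, hli, fun ρ hρ η hη => ?_⟩
  have hη' : 0 < η / (2 * (m + 1) * ρ) := by positivity
  have hcl : ∀ᶠ ν in (𝓤 : Filter ℕ), ∀ i l, |u i l - u' ν i l| < η / (2 * (m + 1) * ρ) := by
    refine eventually_all.2 fun i => eventually_all.2 fun l => ?_
    have h1 := Metric.tendsto_nhds.1 (hconv i l) _ hη'
    filter_upwards [h1] with ν h2
    rw [Real.dist_eq, abs_sub_comm] at h2
    exact h2
  have hC : 0 < 2 * ρ * (m * |B|) / η + 1 := by positivity
  filter_upwards [hmem, hcl, eventually_all.2 hB, ht_large hb (2 * ρ * (m * |B|) / η + 1)]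
    with ν h1 h2 h3 h4 w hw1 hw2 i
  obtain ⟨z, hz, y, hy, hzy⟩ := Submodule.mem_sup.1 (h1 i)
  obtain ⟨t, rfl⟩ := Submodule.mem_span_singleton.1 hy
  have h5 : ∀ w : (S.W ν).Pl, u' ν i ⬝ᵥ (S.map β).lam ν w = t * (rv b ⬝ᵥ S.lam ν w) := by
    intro w
    rw [cmbL_apply] at hzy
    rw [map_dot, ← hzy, add_dotProduct, hz w, zero_add, smul_dotProduct, smul_eq_mul]
  have h6 := coef_le h3 (hbd ν i) h5
  have h7 : |t| * ρ ≤ η / 2 := by
    have h8 : |t| * (2 * ρ * (m * |B|) / η + 1) ≤ m * |B| :=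
      (mul_le_mul_of_nonneg_left h4.le (abs_nonneg t)).trans h6
    rcases (mul_nonneg (Nat.cast_nonneg m) (abs_nonneg B) : (0 : ℝ) ≤ m * |B|).eq_or_lt
      with h9 | h9
    · rw [← h9, mul_zero, zero_div, zero_add, mul_one] at h8
      have h10 : |t| = 0 := le_antisymm h8 (abs_nonneg t)
      rw [h10, zero_mul]
      positivity
    · have h10 : |t| * (2 * ρ * (m * |B|) / η) ≤ m * |B| := by
        have := abs_nonneg t
        nlinarith
      have h11 : |t| * ρ * (2 * (m * |B|)) ≤ η * (m * |B|) := by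
        have h12 : |t| * (2 * ρ * (m * |B|) / η) = |t| * ρ * (2 * (m * |B|)) / η := by ring
        rw [h12, div_le_iff₀ hη] at h10
        linarith
      have h13 : 0 < 2 * ((m : ℝ) * |B|) := by positivity
      nlinarith
  have h8 : u i ⬝ᵥ (S.map β).lam ν w =
      (u i - u' ν i) ⬝ᵥ (S.map β).lam ν w + t * (rv b ⬝ᵥ S.lam ν w) := by
    rw [← h5 w, sub_dotProduct]
    ring
  have h9 : |(u i - u' ν i) ⬝ᵥ (S.map β).lam ν w| ≤ η / 2 := by
    calc |(u i - u' ν i) ⬝ᵥ (S.map β).lam ν w| ≤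
        ∑ l, |(u i - u' ν i) l * (S.map β).lam ν w l| := Finset.abs_sum_le_sum_abs _ _
      _ ≤ ∑ _l : Fin m, η / (2 * (m + 1) * ρ) * ρ := by
          refine Finset.sum_le_sum fun l _ => ?_
          rw [abs_mul]
          exact mul_le_mul (h2 i l).le (hw1 l) (abs_nonneg _) hη'.le
      _ = m * (η / (2 * (m + 1) * ρ) * ρ) := by
          rw [Finset.sum_const, Finset.card_univ, Fintype.card_fin, nsmul_eq_mul]
      _ = m / (m + 1) * (η / 2) := by
          field_simp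
      _ ≤ 1 * (η / 2) := by
          refine mul_le_mul_of_nonneg_right ?_ (by positivity)
          rw [div_le_one (by positivity)]
          linarith
      _ = η / 2 := one_mul _
  have h10 : |t * (rv b ⬝ᵥ S.lam ν w)| ≤ η / 2 := by
    rw [abs_mul]
    exact (mul_le_mul_of_nonneg_left hw2 (abs_nonneg t)).trans h7
  rw [h8]
  calc _ ≤ |(u i - u' ν i) ⬝ᵥ (S.map β).lam ν w| + |t * (rv b ⬝ᵥ S.lam ν w)| := abs_add_le _ _
    _ ≤ η := by linarith

/-- Markov's inequality for a function on the places -/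
theorem markov_f {ν : ℕ} {f : (S.W ν).Pl → ℝ} (hf : ∀ w, 0 ≤ f w) {C ρ : ℝ} (hρ : 0 < ρ)
    (hC : (S.W ν).avg f ≤ C) :
    (Nat.card {σ : Fin (S.W ν).D // ρ < f (.inl σ)} : ℝ) ≤ C / ρ * (S.W ν).D := by
  classical
  have h1 : ∑ w, f w ≤ C * (S.W ν).D := (S.W ν).sum_le_of_avg_le hC
  have h2 : ∑ σ, f (.inl σ) ≤ ∑ w, f w := (S.W ν).sum_inl_le hf
  rw [Nat.card_eq_fintype_card, Fintype.card_subtype]
  have h3 : ((Finset.univ.filter fun σ : Fin (S.W ν).D => ρ < f (.inl σ)).card : ℝ) * ρ ≤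
      ∑ σ ∈ Finset.univ.filter fun σ : Fin (S.W ν).D => ρ < f (.inl σ), f (.inl σ) := by
    rw [← nsmul_eq_mul]
    exact Finset.card_nsmul_le_sum _ _ _ fun σ hσ => (Finset.mem_filter.1 hσ).2.le
  have h4 : ∑ σ ∈ Finset.univ.filter fun σ : Fin (S.W ν).D => ρ < f (.inl σ), f (.inl σ) ≤
      ∑ σ, f (.inl σ) :=
    Finset.sum_le_sum_of_subset_of_nonneg (Finset.filter_subset _ _) fun _ _ _ => hf _
  rw [div_mul_eq_mul_div, le_div_iff₀ hρ]
  linarith

/-- the number of elements of a set covered by two sets -/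
theorem card_le {D : ℕ} {p q r : Fin D → Prop} (h : ∀ σ, p σ → q σ ∨ r σ) :
    (Nat.card {σ // p σ} : ℝ) ≤ Nat.card {σ // q σ} + Nat.card {σ // r σ} := by
  classical
  simp only [Nat.card_eq_fintype_card, Fintype.card_subtype]
  rw [← Nat.cast_add, Nat.cast_le]
  refine (Finset.card_le_card fun σ hσ => ?_).trans (Finset.card_union_le _ _)
  rw [Finset.mem_filter] at hσ
  rcases h σ hσ.2 with h1 | h1
  · exact Finset.mem_union_left _ (Finset.mem_filter.2 ⟨Finset.mem_univ _, h1⟩)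
  · exact Finset.mem_union_right _ (Finset.mem_filter.2 ⟨Finset.mem_univ _, h1⟩)

end

end Mixed

section
variable {L : Type} [Field L] [CharZero L] [Algebra ℂ L] {n : ℕ} {𝓤 : Ultrafilter ℕ} {S : Sq n}
  {x : Fin n → L}

/-- at every place one of finitely many unbounded characters is controlled by bounded ones -/
theorem two_term_mod (hx : ∀ i, x i ≠ 0) (hAD : AD x) (hG : Gn 𝓤 S x)
    (hc : cd x ⊤ = cd x (LO 𝓤 S (fun _ => 1)) + 1) :
    ∃ (r : ℕ) (b : Fin r → Fin n → ℤ) (C : ℝ), (∀ j, b j ∉ LO 𝓤 S (fun _ => 1)) ∧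
      ∀ᶠ ν in (𝓤 : Filter ℕ), ∃ f : (S.W ν).Pl → ℝ, (∀ w, 0 ≤ f w) ∧ (S.W ν).avg f ≤ C ∧
        ∀ w, ∃ j, |rv (b j) ⬝ᵥ S.lam ν w| ≤ f w := by
  classical
  set Λ := LO 𝓤 S (fun _ => 1) with hΛ
  obtain ⟨τ, α, _, -, hα, -, hli, -⟩ := exists_sel x ⊤ Λ (fun _ _ => Submodule.mem_top)
  have hli' : LinearIndependent L (fun j => om x (rv (α j))) :=
    hli.comp Sum.inl Sum.inl_injective
  obtain ⟨δ, hδ⟩ := Mixed.exists_delta Λ
  have h1 : rkZ x Λ ≤ finrank ℤ Λ := rkZ_le_finrank x Λ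
  have h2 : dm x ≤ n := by
    have h := rkZ_le_finrank x (⊤ : Submodule ℤ (Fin n → ℤ))
    rw [rkZ_top, finrank_top, Module.finrank_fin_fun] at h
    exact h
  have h3 : finrank ℤ Λ ≤ n := by
    have h := Submodule.finrank_le Λ
    rwa [Module.finrank_fin_fun] at h
  have h4 : (n - finrank ℤ Λ) + rkZ x Λ = dm x + 1 := by
    rw [cd, cd, rkZ_top, finrank_top, Module.finrank_fin_fun] at hc
    omega
  have hdep : ¬ LinearIndependent L (fun j => om x (rv (Fin.append δ α j))) := by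
    intro h
    have h5 := Mixed.le_dm h
    omega
  obtain ⟨F, hF0, hF⟩ := int_rel hx hAD hdep
  have hF1 : rename finSumFinEquiv.symm F ≠ 0 := by
    intro h
    apply hF0
    exact rename_injective _ finSumFinEquiv.symm.injective (by rw [h, map_zero])
  obtain ⟨I, G, hI, hG0, hsum⟩ := Mixed.group (rename finSumFinEquiv.symm F) hF1
  have hrel : ∑ e ∈ I, aeval (mm α x) (G e) * ∏ i, mn x (δ i) ^ e i = 0 := by
    have h5 := hsum L (mm δ x) (mm α x)
    rw [aeval_rename] at h5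
    have h6 : Sum.elim (mm δ x) (mm α x) ∘ finSumFinEquiv.symm = mm (Fin.append δ α) x := by
      funext j
      refine Fin.addCases (fun i => ?_) (fun i => ?_) j
      · simp [mm]
      · simp [mm]
    rw [h6, hF] at h5
    exact h5.symm
  obtain ⟨C, hC, hf⟩ := two_term hx hG α I hI δ G (fun e he h => hG0 e he (int_ind hx hli' _ h))
    hrel
  choose D hD using fun j => mem_LO.1 (hα j)
  let P : Finset ((Fin (n - finrank ℤ Λ) → ℕ) × (Fin (n - finrank ℤ Λ) → ℕ)) :=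
    (I ×ˢ I).filter fun p => p.1 ≠ p.2
  refine ⟨P.card, fun j => ∑ i, (((P.equivFin.symm j).1.1 i : ℤ) - (P.equivFin.symm j).1.2 i) •
    δ i, C * (1 + ∑ j, D j), ?_, ?_⟩
  · intro j hj
    have h5 := hδ _ hj
    have h6 := (Finset.mem_filter.1 (P.equivFin.symm j).2).2
    apply h6
    funext i
    have h7 := congrFun h5 i
    rw [Pi.zero_apply, sub_eq_zero] at h7
    exact_mod_cast h7
  · filter_upwards [hf, eventually_all.2 hD] with ν h5 h6
    obtain ⟨f, hf0, hfa, hfw⟩ := h5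
    refine ⟨f, hf0, hfa.trans ?_, fun w => ?_⟩
    · refine mul_le_mul_of_nonneg_left (add_le_add le_rfl ?_) hC
      refine Finset.sum_le_sum fun j _ => ?_
      have h7 := h6 j
      rw [mul_one] at h7
      exact h7
    · obtain ⟨e, he, e', he', hne, hle⟩ := hfw w
      have hmem : (e, e') ∈ P := Finset.mem_filter.2 ⟨Finset.mem_product.2 ⟨he, he'⟩, hne⟩
      refine ⟨P.equivFin ⟨(e, e'), hmem⟩, ?_⟩
      rw [Equiv.symm_apply_apply]
      exact hle

theorem mixed_one (hx : ∀ i, x i ≠ 0) (hAD : AD x) (hG : Gn 𝓤 S x) (hsp : Spc 𝓤 S x)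
    (hcos : ∀ a : Fin n → ℤ, a ≠ 0 → om x (rv a) ≠ 0) (hNC : NC x)
    (s : ∀ ν, Finset (Fin (S.W ν).D)) (θ : ℝ) (hθ : 0 < θ)
    (hs : ∀ᶠ ν in (𝓤 : Filter ℕ), θ * (S.W ν).D ≤ (s ν).card ∧
      ∀ σ ∈ s ν, OnY x (S.pt ν σ))
    (hc : cd x ⊤ = cd x (LO 𝓤 S (fun _ => 1)) + 1) : False := by
  classical
  have hrk := rk_pos hx hsp hcos hc.le
  obtain ⟨r, b, C, hb, hf⟩ := two_term_mod hx hAD hG hc
  set Λ := LO 𝓤 S (fun _ => 1) with hΛd
  obtain ⟨β, hβ, hΛ, -⟩ := exists_basis Λ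
  have hβm : ∀ l, β l ∈ LO 𝓤 S (fun _ => 1) := fun l =>
    (hΛ (β l)).2 ⟨Pi.single l 1, (RelMap.cmb_single β l).symm⟩
  have hdm : dm (mm β x) = rkZ x Λ := by
    rw [← rkZ_top]
    refine rkZ_mm hx β ⊤ Λ fun a => ?_
    rw [hΛ a]
    constructor
    · rintro ⟨c, rfl⟩
      exact ⟨c, Submodule.mem_top, rfl⟩
    · rintro ⟨c, -, rfl⟩
      exact ⟨c, rfl⟩
  obtain ⟨B, hB⟩ := ht_unit hβm (Eventually.of_forall fun _ => zero_le_one)
  simp only [mul_one] at hB
  have h1 : rkZ x Λ ≤ finrank ℤ Λ := rkZ_le_finrank x Λ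
  have h2 : dm x ≤ n := by
    have h := rkZ_le_finrank x (⊤ : Submodule ℤ (Fin n → ℤ))
    rw [rkZ_top, finrank_top, Module.finrank_fin_fun] at h
    exact h
  have h3 : dm (mm β x) + 1 + n ≤ dm x + 2 + finrank ℤ Λ := by
    rw [hdm]
    rw [cd, cd, rkZ_top, finrank_top, Module.finrank_fin_fun] at hc
    omega
  choose u hu hu2 using fun j => Mixed.frame hsp hβ B hB (dm (mm β x) + 1) h3 (hb j)
  refine t_main (S := S.map β) (mm_ne_zero hx β) (hG.map hx β) B hB (hNC.map hx hβ)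
    (hcos_map hx hcos hβ) (by rw [hdm]; exact hrk) s θ hθ ?_ r u hu ?_
  · filter_upwards [hs] with ν h4
    refine ⟨h4.1, fun σ hσ => ?_⟩
    have h5 := OnY.map hx (h4.2 σ hσ) β
    rw [← map_pt S β ν σ] at h5
    exact h5
  · intro ε hε η hη
    set ρ : ℝ := 2 * (finrank ℤ Λ * |B| + |C|) / ε + 1 with hρd
    have hρ : 0 < ρ := by positivity
    have hρ2 : ε / 2 * ρ = finrank ℤ Λ * |B| + |C| + ε / 2 := by
      rw [hρd]
      field_simp
    have hρ3 : finrank ℤ Λ * (B / ρ) ≤ ε / 2 := by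
      have h5 : (finrank ℤ Λ : ℝ) * B ≤ finrank ℤ Λ * |B| :=
        mul_le_mul_of_nonneg_left (le_abs_self B) (Nat.cast_nonneg _)
      have h6 := abs_nonneg C
      rw [← mul_div_assoc, div_le_iff₀ hρ, hρ2]
      linarith
    have hρ4 : C / ρ ≤ ε / 2 := by
      have h5 := le_abs_self C
      have h6 : (0 : ℝ) ≤ finrank ℤ Λ * |B| := by positivity
      rw [div_le_iff₀ hρ, hρ2]
      linarith
    filter_upwards [hf, eventually_all.2 hB, eventually_all.2 fun j => hu2 j ρ hρ η hη]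
      with ν h4 h5 h6
    obtain ⟨f, hf0, hfa, hfw⟩ := h4
    have hD : (0 : ℝ) < (S.W ν).D := (S.W ν).D_cast_pos
    have h7 : (Nat.card {σ : Fin (S.W ν).D //
        ¬ ∃ j, ∀ i, |u j i ⬝ᵥ (S.map β).lam ν (.inl σ)| ≤ η} : ℝ) ≤
        Nat.card {σ : Fin (S.W ν).D // ¬ ∀ i, |(S.map β).lam ν (.inl σ) i| ≤ ρ} +
        Nat.card {σ : Fin (S.W ν).D // ρ < f (.inl σ)} := by
      refine Mixed.card_le fun σ hσ => ?_
      by_contra hcon
      push Not at hcon
      apply hσ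
      obtain ⟨j, hj⟩ := hfw (.inl σ)
      exact ⟨j, h6 j (.inl σ) hcon.1 (hj.trans hcon.2)⟩
    have h8 := markov (S.map β) ν B ρ hρ h5
    have h9 := Mixed.markov_f hf0 hρ hfa
    calc _ ≤ _ := h7
      _ ≤ finrank ℤ Λ * (B / ρ) * (S.W ν).D + C / ρ * (S.W ν).D := add_le_add h8 h9
      _ ≤ ε / 2 * (S.W ν).D + ε / 2 * (S.W ν).D :=
        add_le_add (mul_le_mul_of_nonneg_right hρ3 hD.le) (mul_le_mul_of_nonneg_right hρ4 hD.le)
      _ = ε * (S.W ν).D := by ring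

end

end Pool.Agent.SD
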