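import Mathlib
import Pool.Agent.Lib.MP_c95b3b_ag_SD.Growth
import Pool.Agent.Lib.MP_c95b3b_ag_SD.Mixed

set_option autoImplicit false

/-! Project SD (MP_c95b3b_ag), module T1: the main theorem for generic sequences. -/

namespace Pool.Agent.SD

open MvPolynomial Filter Topology Module Pool.Agent.L3

theorem thm1 {L : Type} [Field L] [CharZero L] [Algebra ℂ L] {n : ℕ} {𝓤 : Ultrafilter ℕ}
    {S : Sq n} {x : Fin n → L} (hx : ∀ i, x i ≠ 0) (hAD : AD x) (hG : Gn 𝓤 S x)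
    (hsp : Spc 𝓤 S x) (hcos : ∀ a : Fin n → ℤ, a ≠ 0 → om x (rv a) ≠ 0) (hQ : Qc x)
    (hNC : NC x) (s : ∀ ν, Finset (Fin (S.W ν).D)) (θ : ℝ) (hθ : 0 < θ)
    (hs : ∀ᶠ ν in (𝓤 : Filter ℕ), θ * (S.W ν).D ≤ (s ν).card ∧
      ∀ σ ∈ s ν, OnY x (S.pt ν σ)) : False := by
  have h := growth hx hAD hG hsp hQ
  rcases h.lt_or_eq with h1 | h1
  · exact mixed_zero hx hG hsp hcos hNC s θ hθ hs (Nat.lt_succ_iff.mp h1)
  · exact mixed_one hx hAD hG hsp hcos hNC s θ hθ hs h1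

end Pool.Agent.SD
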