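import Mathlib
import Pool.Agent.Lib.MP_c95b3b_ag_SD.Thm1
import Pool.Agent.Lib.MP_c95b3b_ag_SD.QMap
import Pool.Agent.Lib.MP_c95b3b_ag_SD.GenD
import Pool.Agent.Lib.MP_c95b3b_ag_SD.SeqS
import Pool.Agent.Lib.MP_c95b3b_ag_R.Stab

set_option autoImplicit false

/-! Project SD (MP_c95b3b_ag): the main theorem. -/

namespace Pool.Agent.SD

open MvPolynomial Filter Module Pool.Agent.L3 Pool.Agent.CITR

/-- the main theorem: the unlikely intersections are not dense -/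
theorem final (n : ℕ) (P : Ideal (MvPolynomial (Fin n) ℂ)) (hP : P.IsPrime)
    (hX : (∏ i : Fin n, (X i : MvPolynomial (Fin n) ℂ)) ∉ P) (hc : ¬ InCoset P)
    (hQ : SmallCod P) (hNC : NoCircle P) :
    ∃ f : MvPolynomial (Fin n) ℂ, f ∉ P ∧ ∀ x, Unlikely n P x → eval x f = 0 := by
  obtain ⟨L, _, _, _, x, hx⟩ := exists_gen P hP
  by_contra hcon
  push Not at hcon
  have hU : ∀ f : MvPolynomial (Fin n) ℂ, (∀ x, Unlikely n P x → eval x f = 0) →
      ∀ x, OnTorus n P x → eval x f = 0 := by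
    intro f hf
    by_contra h
    have h1 : f ∉ P := fun h2 => h ((hx.mem_iff hX f).1 h2)
    obtain ⟨y, hy, hy'⟩ := hcon f h1
    exact hy' (hf y hy)
  have hne : ¬ InSubgroup n P := fun ⟨a, ha, h⟩ => hc ⟨a, ha, 1, h⟩
  obtain ⟨m, γ, Q, hI, -⟩ := result_stab n P hP hX hU hne
  obtain ⟨hγ, hQp, hQX, hmem, hQalg, hQU, -, -, -⟩ := hI
  have hx0 := hx.ne_zero hX
  have hxQ : IsGen (mm γ x) Q := hx.map hX γ hmem
  obtain ⟨S, s, θ, hθ, hG, hsp, hs⟩ := exists_seq hxQ hQX hQalg hQU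
  refine thm1 (x := mm γ x) (mm_ne_zero hx0 γ) (hxQ.AD hQalg) hG hsp
    (hcos_map hx0 (hx.hcos hX hc) hγ) ((hx.Qc hX hQ).map hx0 hγ) ((hx.NC hX hNC).map hx0 hγ)
    s θ hθ (Eventually.of_forall hs)

end Pool.Agent.SD
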