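import Mathlib
import Pool.Agent.Lib.MP_c95b3b_ag_SD.Defs

set_option autoImplicit false

/-! Project SD (MP_c95b3b_ag), part T': the bounded case without the circle condition.
Definitions. -/

namespace Pool.Agent.SD

open MvPolynomial

/-- the sum of the absolute values of the coefficients -/
noncomputable def l1 {k : ℕ} (p : MvPolynomial (Fin k) ℝ) : ℝ := ∑ e ∈ p.support, |p.coeff e|

/-- an integral polynomial as a real polynomial -/
noncomputable def toR {k : ℕ} (F : MvPolynomial (Fin k) ℤ) : MvPolynomial (Fin k) ℝ :=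
  MvPolynomial.map (Int.castRingHom ℝ) F

/-- the polynomial `F(X, θ)` in one variable (the variable `0` of `F`) -/
noncomputable def spec {d : ℕ} (θ : Fin d → ℂ) (F : MvPolynomial (Fin (d + 1)) ℤ) :
    Polynomial ℂ :=
  (finSuccEquiv ℤ d F).map (aeval θ : MvPolynomial (Fin d) ℤ →ₐ[ℤ] ℂ).toRingHom

/-- generic points of the compact torus -/
def GenT {d : ℕ} (θ : Fin d → ℂ) : Prop :=
  (∀ i, ‖θ i‖ = 1) ∧ ∀ G : MvPolynomial (Fin d) ℤ, aeval θ G = 0 → G = 0

/-- `F` generates the ideal of the integral relations of `u` -/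
structure Gtor {L : Type} [Field L] {d : ℕ} (u : Fin (d + 1) → L)
    (F : MvPolynomial (Fin (d + 1)) ℤ) : Prop where
  ne : F ≠ 0
  zero : aeval u F = 0
  dvd : ∀ G : MvPolynomial (Fin (d + 1)) ℤ, aeval u G = 0 → F ∣ G
  elim : ∀ G : MvPolynomial (Fin (d + 1)) ℤ, aeval u G ≠ 0 → ∃ H : MvPolynomial (Fin d) ℤ,
    H ≠ 0 ∧ ∃ A B : MvPolynomial (Fin (d + 1)) ℤ, rename Fin.succ H = A * F + B * G

/-- the largest partial degree -/
noncomputable def dmax {k : ℕ} (F : MvPolynomial (Fin k) ℤ) : ℕ :=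
  Finset.univ.sup fun i => degreeOf i F

end Pool.Agent.SD
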