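import Mathlib
import Pool.Agent.Lib.MP_c95b3b_ag_SD.TpDefs

set_option autoImplicit false

/-! Project SD (MP_c95b3b_ag), part T', module EL: the relation between `d + 1` functions. -/

namespace Pool.Agent.SD

open MvPolynomial

namespace TpElim

/-- Elimination: an irreducible polynomial of positive degree over a factorial ring and a
polynomial it does not divide generate an ideal containing a nonzero constant. -/
theorem elim_poly {R : Type*} [CommRing R] [IsDomain R] [UniqueFactorizationMonoid R]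
    {F G : Polynomial R} (hF : Irreducible F) (hd : F.natDegree ≠ 0) (hG : ¬ F ∣ G) :
    ∃ h : R, h ≠ 0 ∧ ∃ A B : Polynomial R, Polynomial.C h = A * F + B * G := by
  classical
  have hp : F.IsPrimitive := hF.isPrimitive hd
  have : IsGCDMonoid R := inferInstance
  have hirr : Irreducible (F.map (algebraMap R (FractionRing R))) :=
    (hp.irreducible_iff_irreducible_map_fraction_map (K := FractionRing R)).1 hF
  have hnd : ¬ F.map (algebraMap R (FractionRing R)) ∣
      G.map (algebraMap R (FractionRing R)) := fun h =>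
    hG ((hp.dvd_iff_fraction_map_dvd_fraction_map (FractionRing R)).2 h)
  obtain ⟨a, b, hab⟩ : IsCoprime (F.map (algebraMap R (FractionRing R)))
      (G.map (algebraMap R (FractionRing R))) :=
    (hirr.coprime_iff_not_dvd).2 hnd
  obtain ⟨c, hc, hca⟩ := IsLocalization.integerNormalization_spec (nonZeroDivisors R) a
  obtain ⟨e, he, heb⟩ := IsLocalization.integerNormalization_spec (nonZeroDivisors R) b
  refine ⟨c * e, mul_ne_zero (nonZeroDivisors.ne_zero hc) (nonZeroDivisors.ne_zero he),
    Polynomial.C e * IsLocalization.integerNormalization (nonZeroDivisors R) a,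
    Polynomial.C c * IsLocalization.integerNormalization (nonZeroDivisors R) b, ?_⟩
  apply Polynomial.map_injective (algebraMap R (FractionRing R)) (IsFractionRing.injective _ _)
  rw [Algebra.smul_def, Polynomial.algebraMap_apply] at hca heb
  simp only [Polynomial.map_add, Polynomial.map_mul, Polynomial.map_C, hca, heb, map_mul]
  linear_combination -(Polynomial.C (algebraMap R (FractionRing R) c) *
    Polynomial.C (algebraMap R (FractionRing R) e)) * hab

/-- `finSuccEquiv` turns `rename Fin.succ` into `C` -/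
theorem fse_rename {d : ℕ} (H : MvPolynomial (Fin d) ℤ) :
    finSuccEquiv ℤ d (rename Fin.succ H) = Polynomial.C H := by
  induction H using MvPolynomial.induction_on with
  | C a => simp
  | add p q hp hq => simp only [map_add, hp, hq]
  | mul_X p n hp => simp only [map_mul, hp, rename_X, finSuccEquiv_X_succ]

/-- evaluation of a renamed polynomial -/
theorem aeval_rename_succ {L : Type} [CommRing L] {d : ℕ} (u : Fin (d + 1) → L)
    (H : MvPolynomial (Fin d) ℤ) :
    aeval u (rename Fin.succ H) = aeval (fun j => u (Fin.succ j)) H := by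
  rw [aeval_rename]
  rfl

/-- a polynomial without the variable `0` is a renamed polynomial -/
theorem eq_rename {d : ℕ} (F : MvPolynomial (Fin (d + 1)) ℤ) (h : degreeOf 0 F = 0) :
    ∃ H : MvPolynomial (Fin d) ℤ, F = rename Fin.succ H := by
  rw [← natDegree_finSuccEquiv] at h
  refine ⟨(finSuccEquiv ℤ d F).coeff 0, ?_⟩
  apply (finSuccEquiv ℤ d).injective
  rw [fse_rename]
  exact Polynomial.eq_C_of_natDegree_eq_zero h

/-- if the last `d` are independent, a nonzero relation contains the variable `0` -/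
theorem degreeOf_ne {L : Type} [CommRing L] {d : ℕ} {u : Fin (d + 1) → L}
    {F : MvPolynomial (Fin (d + 1)) ℤ} (hF : F ≠ 0) (hz : aeval u F = 0)
    (hy : ∀ G : MvPolynomial (Fin d) ℤ, aeval (fun j => u (Fin.succ j)) G = 0 → G = 0) :
    degreeOf 0 F ≠ 0 := by
  intro h
  obtain ⟨H, rfl⟩ := eq_rename F h
  rw [aeval_rename_succ] at hz
  exact hF (by rw [hy H hz, map_zero])

/-- the elimination identity -/
theorem elim_mv {d : ℕ} {F G : MvPolynomial (Fin (d + 1)) ℤ} (hF : Irreducible F)
    (hd : degreeOf 0 F ≠ 0) (hG : ¬ F ∣ G) :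
    ∃ H : MvPolynomial (Fin d) ℤ,
      H ≠ 0 ∧ ∃ A B : MvPolynomial (Fin (d + 1)) ℤ, rename Fin.succ H = A * F + B * G := by
  have h1 : Irreducible (finSuccEquiv ℤ d F) :=
    (MulEquiv.irreducible_iff (finSuccEquiv ℤ d)).2 hF
  have h2 : (finSuccEquiv ℤ d F).natDegree ≠ 0 := by
    rwa [natDegree_finSuccEquiv]
  have h3 : ¬ finSuccEquiv ℤ d F ∣ finSuccEquiv ℤ d G := by
    intro h
    exact hG ((map_dvd_iff (finSuccEquiv ℤ d)).1 h)
  obtain ⟨H, hH, A, B, hAB⟩ := elim_poly h1 h2 h3
  refine ⟨H, hH, (finSuccEquiv ℤ d).symm A, (finSuccEquiv ℤ d).symm B, ?_⟩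
  apply (finSuccEquiv ℤ d).injective
  rw [fse_rename, hAB]
  simp only [map_add, map_mul, AlgEquiv.apply_symm_apply]

/-- an irreducible relation -/
theorem exists_irred {L : Type} [Field L] {d : ℕ} (u : Fin (d + 1) → L)
    (hdep : ∃ G : MvPolynomial (Fin (d + 1)) ℤ, G ≠ 0 ∧ aeval u G = 0) :
    ∃ F : MvPolynomial (Fin (d + 1)) ℤ, Irreducible F ∧ aeval u F = 0 := by
  classical
  obtain ⟨G, hG, hz⟩ := hdep
  revert hz
  induction G using WfDvdMonoid.induction_on_irreducible with
  | zero => exact absurd rfl hG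
  | unit v hv =>
    intro hz
    have h1 : IsUnit (aeval u v) := hv.map (aeval u)
    exact absurd hz h1.ne_zero
  | mul a i ha hi ih =>
    intro hz
    rw [map_mul] at hz
    rcases mul_eq_zero.1 hz with h | h
    · exact ⟨i, hi, h⟩
    · exact ih ha h

end TpElim

open TpElim

theorem exists_gtor {L : Type} [Field L] [CharZero L] {d : ℕ} (u : Fin (d + 1) → L)
    (hy : ∀ G : MvPolynomial (Fin d) ℤ, aeval (fun j => u (Fin.succ j)) G = 0 → G = 0)
    (hdep : ∃ G : MvPolynomial (Fin (d + 1)) ℤ, G ≠ 0 ∧ aeval u G = 0) :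
    ∃ F : MvPolynomial (Fin (d + 1)) ℤ, Gtor u F := by
  obtain ⟨F, hirr, hz⟩ := exists_irred u hdep
  have hd : degreeOf 0 F ≠ 0 := degreeOf_ne hirr.ne_zero hz hy
  refine ⟨F, hirr.ne_zero, hz, ?_, ?_⟩
  · intro G hG
    by_contra hn
    obtain ⟨H, hH, A, B, hAB⟩ := elim_mv hirr hd hn
    apply hH
    apply hy
    rw [← aeval_rename_succ, hAB, map_add, map_mul, map_mul, hz, hG, mul_zero, mul_zero, add_zero]
  · intro G hG
    apply elim_mv hirr hd
    rintro ⟨Q, rfl⟩
    apply hG
    rw [map_mul, hz, zero_mul]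

/-- the last variable occurs -/
theorem Gtor.deg_pos {L : Type} [Field L] {d : ℕ} {u : Fin (d + 1) → L}
    {F : MvPolynomial (Fin (d + 1)) ℤ} (h : Gtor u F)
    (hy : ∀ G : MvPolynomial (Fin d) ℤ, aeval (fun j => u (Fin.succ j)) G = 0 → G = 0) :
    0 < degreeOf 0 F :=
  Nat.pos_of_ne_zero (degreeOf_ne h.ne h.zero hy)

/-- roots of `F(X, θ)` for generic `θ` give generic points -/
theorem Gtor.generic {L : Type} [Field L] {d : ℕ} {u : Fin (d + 1) → L}
    {F : MvPolynomial (Fin (d + 1)) ℤ} (h : Gtor u F) {θ : Fin d → ℂ} (hθ : GenT θ) {ω : ℂ}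
    (hω : aeval (Fin.cons ω θ : Fin (d + 1) → ℂ) F = 0) (G : MvPolynomial (Fin (d + 1)) ℤ)
    (hG : aeval (Fin.cons ω θ : Fin (d + 1) → ℂ) G = 0) : aeval u G = 0 := by
  by_contra hn
  obtain ⟨H, hH, A, B, hAB⟩ := h.elim G hn
  apply hH
  apply hθ.2
  have h1 : aeval (Fin.cons ω θ : Fin (d + 1) → ℂ) (rename Fin.succ H) = aeval θ H := by
    rw [aeval_rename_succ]
    simp only [Fin.cons_succ]
  rw [← h1, hAB, map_add, map_mul, map_mul, hω, hG, mul_zero, mul_zero, add_zero]

end Pool.Agent.SD
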