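import Mathlib
import Pool.Agent.Lib.MP_c95b3b_ag_SD.TpDefs

set_option autoImplicit false

/-! Project SD (MP_c95b3b_ag), part T', module TO: generic points of the compact torus. -/

namespace Pool.Agent.SD

open MvPolynomial

namespace TpTor

theorem spec_eval {d : ℕ} (θ : Fin d → ℂ) (t : ℂ) (F : MvPolynomial (Fin (d + 1)) ℤ) :
    (spec θ F).eval t = aeval (Fin.cons t θ : Fin (d + 1) → ℂ) F := by
  have h : (Polynomial.evalRingHom t).comp ((Polynomial.mapRingHom
      (aeval θ : MvPolynomial (Fin d) ℤ →ₐ[ℤ] ℂ).toRingHom).comp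
      (finSuccEquiv ℤ d).toRingEquiv.toRingHom) =
      (aeval (Fin.cons t θ : Fin (d + 1) → ℂ) :
        MvPolynomial (Fin (d + 1)) ℤ →ₐ[ℤ] ℂ).toRingHom := by
    refine MvPolynomial.ringHom_ext (fun r => ?_) (fun i => ?_)
    · simp
    · refine Fin.cases ?_ (fun j => ?_) i
      · simp [finSuccEquiv_X_zero]
      · simp [finSuccEquiv_X_succ]
  exact RingHom.congr_fun h F

theorem spec_ne_zero {d : ℕ} {θ : Fin d → ℂ}
    (h : ∀ G : MvPolynomial (Fin d) ℤ, aeval θ G = 0 → G = 0)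
    {F : MvPolynomial (Fin (d + 1)) ℤ} (hF : F ≠ 0) : spec θ F ≠ 0 := by
  intro h0
  apply hF
  have h1 : finSuccEquiv ℤ d F = 0 := by
    refine Polynomial.map_injective (aeval θ : MvPolynomial (Fin d) ℤ →ₐ[ℤ] ℂ).toRingHom
      ?_ (?_ : Polynomial.map _ _ = Polynomial.map _ _)
    · intro a b hab
      have : aeval θ (a - b) = 0 := by
        rw [map_sub, sub_eq_zero]
        exact hab
      exact sub_eq_zero.mp (h _ this)
    · rw [Polynomial.map_zero]
      exact h0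
  exact (finSuccEquiv ℤ d).injective (by rw [h1, map_zero])

theorem arc_uncountable (t0 : ℂ) (h0 : ‖t0‖ = 1) (δ : ℝ) (hδ : 0 < δ) :
    ¬ {t : ℂ | ‖t‖ = 1 ∧ ‖t - t0‖ < δ}.Countable := by
  intro hc
  have hcont : Continuous fun φ : ℝ => t0 * Complex.exp (φ * Complex.I) := by fun_prop
  have hat : ∀ᶠ φ : ℝ in nhds 0, ‖t0 * Complex.exp (φ * Complex.I) - t0‖ < δ := by
    have h1 : Filter.Tendsto (fun φ : ℝ => t0 * Complex.exp (φ * Complex.I)) (nhds 0)
        (nhds t0) := by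
      have := hcont.tendsto 0
      simpa using this
    have h2 := Metric.tendsto_nhds.mp h1 δ hδ
    filter_upwards [h2] with φ hφ
    rwa [dist_eq_norm] at hφ
  obtain ⟨η, hη, hη'⟩ := Metric.eventually_nhds_iff.mp hat
  set s : Set ℝ := Set.Ioo (-(min η 1)) (min η 1) with hs
  have hm : 0 < min η 1 := lt_min hη one_pos
  have hsub : (fun φ : ℝ => t0 * Complex.exp (φ * Complex.I)) '' s ⊆
      {t : ℂ | ‖t‖ = 1 ∧ ‖t - t0‖ < δ} := by
    rintro _ ⟨φ, hφ, rfl⟩
    refine ⟨?_, ?_⟩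
    · rw [norm_mul, h0, Complex.norm_exp_ofReal_mul_I, one_mul]
    · apply hη'
      rw [Real.dist_eq, sub_zero, abs_lt]
      exact ⟨lt_of_le_of_lt (neg_le_neg (min_le_left _ _)) hφ.1,
        lt_of_lt_of_le hφ.2 (min_le_left _ _)⟩
  have hinj : Set.InjOn (fun φ : ℝ => t0 * Complex.exp (φ * Complex.I)) s := by
    intro φ hφ ψ hψ h
    have ht0 : t0 ≠ 0 := by
      intro h
      rw [h, norm_zero] at h0
      exact zero_ne_one h0
    have h1 : Complex.exp (φ * Complex.I) = Complex.exp (ψ * Complex.I) :=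
      mul_left_cancel₀ ht0 h
    rw [Complex.exp_eq_exp_iff_exists_int] at h1
    obtain ⟨k, hk⟩ := h1
    have h2 : (φ : ℂ) = ψ + k * (2 * Real.pi) := by
      have h3 : (φ : ℂ) * Complex.I = (ψ + k * (2 * Real.pi)) * Complex.I := by
        rw [hk]
        ring
      exact mul_right_cancel₀ Complex.I_ne_zero h3
    have h3 : φ = ψ + k * (2 * Real.pi) := by exact_mod_cast h2
    have h4 : |(k : ℝ) * (2 * Real.pi)| < 2 := by
      have : (k : ℝ) * (2 * Real.pi) = φ - ψ := by linarith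
      rw [this, abs_lt]
      have a1 := hφ.1
      have a2 := hφ.2
      have b1 := hψ.1
      have b2 := hψ.2
      have := min_le_right η 1
      constructor <;> linarith
    have h5 : k = 0 := by
      by_contra hk0
      have h6 : (1 : ℝ) ≤ |(k : ℝ)| := by
        rw [← Int.cast_abs]
        exact_mod_cast Int.one_le_abs hk0
      rw [abs_mul, abs_of_pos (by positivity : (0 : ℝ) < 2 * Real.pi)] at h4
      have h7 := Real.pi_gt_three
      nlinarith
    rw [h3, h5]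
    simp
  have h1 : s.Countable :=
    Set.countable_of_injective_of_countable_image hinj (hc.mono hsub)
  rw [hs, Cardinal.Real.Ioo_countable_iff] at h1
  linarith

theorem countable_mv (d : ℕ) : Countable (MvPolynomial (Fin d) ℤ) := by
  rw [← Cardinal.mk_le_aleph0_iff]
  refine MvPolynomial.cardinalMk_le_max.trans ?_
  simp

theorem exists_large_one (P : Polynomial ℂ) (k : ℕ) :
    ∃ t : ℂ, ‖t‖ = 1 ∧ ‖P.coeff k‖ ≤ ‖P.eval t‖ := by
  classical
  set N : ℕ := P.natDegree + k + 1 with hN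
  have hN0 : N ≠ 0 := by omega
  obtain ⟨ζ, hζ⟩ : ∃ ζ : ℂ, IsPrimitiveRoot ζ N := ⟨_, Complex.isPrimitiveRoot_exp N hN0⟩
  have hζ1 : ‖ζ‖ = 1 := hζ.norm'_eq_one hN0
  have hζ0 : ζ ≠ 0 := hζ.ne_zero hN0
  by_contra hcon
  push Not at hcon
  have hsum : ∑ j ∈ Finset.range N, P.eval (ζ ^ j) * (ζ⁻¹ ^ k) ^ j = N * P.coeff k := by
    have h1 : ∀ j ∈ Finset.range N, P.eval (ζ ^ j) * (ζ⁻¹ ^ k) ^ j =
        ∑ m ∈ Finset.range N, P.coeff m * (ζ ^ m * ζ⁻¹ ^ k) ^ j := by
      intro j _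
      rw [Polynomial.eval_eq_sum_range' (n := N) (by omega), Finset.sum_mul]
      refine Finset.sum_congr rfl (fun m _ => ?_)
      rw [mul_pow, ← pow_mul, ← pow_mul, mul_comm j m]
      ring
    rw [Finset.sum_congr rfl h1, Finset.sum_comm]
    rw [Finset.sum_eq_single k]
    · rw [← Finset.mul_sum]
      have : ζ ^ k * ζ⁻¹ ^ k = 1 := by rw [← mul_pow, mul_inv_cancel₀ hζ0, one_pow]
      simp only [this, one_pow, Finset.sum_const, Finset.card_range, nsmul_eq_mul, mul_one]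
      ring
    · intro m hm hmk
      rw [← Finset.mul_sum]
      have hw : ζ ^ m * ζ⁻¹ ^ k ≠ 1 := by
        intro h
        apply hmk
        have h2 : ζ ^ m = ζ ^ k := by
          have h3 : ζ ^ m * ζ⁻¹ ^ k * ζ ^ k = ζ ^ k := by rw [h, one_mul]
          rwa [mul_assoc, ← mul_pow, inv_mul_cancel₀ hζ0, one_pow, mul_one] at h3
        exact hζ.pow_inj (Finset.mem_range.mp hm) (by omega) h2
      have hwN : (ζ ^ m * ζ⁻¹ ^ k) ^ N = 1 := by
        rw [mul_pow, ← pow_mul, ← pow_mul, mul_comm m, mul_comm k, pow_mul, pow_mul,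
          hζ.pow_eq_one, inv_pow, hζ.pow_eq_one]
        simp
      have hg := mul_neg_geom_sum (ζ ^ m * ζ⁻¹ ^ k) N
      rw [hwN, sub_self] at hg
      rcases mul_eq_zero.mp hg with h | h
      · exact absurd (sub_eq_zero.mp h).symm hw
      · rw [h, mul_zero]
    · intro h
      exact absurd (Finset.mem_range.mpr (by omega)) h
  have hle : ‖∑ j ∈ Finset.range N, P.eval (ζ ^ j) * (ζ⁻¹ ^ k) ^ j‖ <
      ∑ j ∈ Finset.range N, ‖P.coeff k‖ := by
    refine lt_of_le_of_lt (norm_sum_le _ _) ?_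
    refine Finset.sum_lt_sum_of_nonempty ⟨0, Finset.mem_range.mpr (by omega)⟩ (fun j _ => ?_)
    rw [norm_mul, norm_pow, norm_pow, norm_inv, hζ1, inv_one, one_pow, one_pow, mul_one]
    exact hcon _ (by rw [norm_pow, hζ1, one_pow])
  rw [hsum, norm_mul, Finset.sum_const, Finset.card_range, nsmul_eq_mul,
    Complex.norm_natCast] at hle
  exact lt_irrefl _ hle

end TpTor

open TpTor

/-- generic points of the compact torus are dense -/
theorem gen_near {d : ℕ} (θ0 : Fin d → ℂ) (h0 : ∀ i, ‖θ0 i‖ = 1) (δ : ℝ) (hδ : 0 < δ) :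
    ∃ θ : Fin d → ℂ, GenT θ ∧ ‖θ - θ0‖ < δ := by
  induction d with
  | zero =>
    refine ⟨θ0, ⟨h0, fun G hG => ?_⟩, by rwa [sub_self, norm_zero]⟩
    rw [eq_C_of_isEmpty G] at hG ⊢
    rw [algHom_C, eq_intCast, Int.cast_eq_zero] at hG
    rw [hG, C_0]
  | succ d ih =>
    obtain ⟨θ', hθ', hn'⟩ := ih (fun i => θ0 i.succ) (fun i => h0 i.succ)
    have := countable_mv (d + 1)
    have hbad : (⋃ G : {G : MvPolynomial (Fin (d + 1)) ℤ // G ≠ 0},
        {t : ℂ | (spec θ' G.1).eval t = 0}).Countable := by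
      refine Set.countable_iUnion (fun G => ?_)
      refine Set.Finite.countable ?_
      have h1 := spec_ne_zero hθ'.2 G.2
      refine ((spec θ' G.1).roots.toFinset.finite_toSet).subset (fun t ht => ?_)
      simp only [Finset.mem_coe, Multiset.mem_toFinset]
      exact (Polynomial.mem_roots h1).mpr ht
    have harc := arc_uncountable (θ0 0) (h0 0) δ hδ
    obtain ⟨t, ht, htb⟩ : ∃ t, t ∈ {t : ℂ | ‖t‖ = 1 ∧ ‖t - θ0 0‖ < δ} ∧
        t ∉ ⋃ G : {G : MvPolynomial (Fin (d + 1)) ℤ // G ≠ 0},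
        {t : ℂ | (spec θ' G.1).eval t = 0} := by
      by_contra hcon
      push Not at hcon
      exact harc (hbad.mono hcon)
    refine ⟨Fin.cons t θ', ⟨fun i => ?_, fun G hG => ?_⟩, ?_⟩
    · refine Fin.cases ?_ (fun j => ?_) i
      · simpa using ht.1
      · simpa using hθ'.1 j
    · by_contra hG0
      apply htb
      refine Set.mem_iUnion.mpr ⟨⟨G, hG0⟩, ?_⟩
      change (spec θ' G).eval t = 0
      rw [spec_eval]
      exact hG
    · rw [pi_norm_lt_iff hδ]
      intro i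
      refine Fin.cases ?_ (fun j => ?_) i
      · simpa using ht.2
      · have := (pi_norm_lt_iff hδ).mp hn' j
        simpa using this

/-- the values on the compact torus are not smaller than the coefficients -/
theorem exists_large {d : ℕ} (H : MvPolynomial (Fin d) ℂ) (e : Fin d →₀ ℕ) :
    ∃ θ : Fin d → ℂ, (∀ i, ‖θ i‖ = 1) ∧ ‖H.coeff e‖ ≤ ‖eval θ H‖ := by
  induction d with
  | zero =>
    refine ⟨fun i => i.elim0, fun i => i.elim0, ?_⟩
    have he : e = 0 := Subsingleton.elim _ _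
    rw [he]
    conv_rhs => rw [eq_C_of_isEmpty H]
    rw [eval_C]
  | succ d ih =>
    obtain ⟨θ', h1, h2⟩ := ih ((finSuccEquiv ℂ d H).coeff (e 0)) e.tail
    rw [finSuccEquiv_coeff_coeff, Finsupp.cons_tail] at h2
    obtain ⟨t, ht, ht2⟩ := exists_large_one (Polynomial.map (eval θ') (finSuccEquiv ℂ d H)) (e 0)
    rw [Polynomial.coeff_map, ← eval_eq_eval_mv_eval'] at ht2
    refine ⟨Fin.cons t θ', fun i => ?_, h2.trans ht2⟩
    refine Fin.cases ?_ (fun j => ?_) i
    · simpa using ht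
    · simpa using h1 j

theorem exists_large_gen {d : ℕ} (H : MvPolynomial (Fin d) ℂ) (e : Fin d →₀ ℕ) (ε : ℝ)
    (hε : 0 < ε) : ∃ θ : Fin d → ℂ, GenT θ ∧ ‖H.coeff e‖ - ε ≤ ‖eval θ H‖ := by
  obtain ⟨θ0, h0, h1⟩ := exists_large H e
  have hcont : Continuous fun θ : Fin d → ℂ => ‖eval θ H‖ :=
    (MvPolynomial.continuous_eval H).norm
  obtain ⟨δ, hδ, hδ'⟩ := Metric.continuous_iff.mp hcont θ0 ε hε
  obtain ⟨θ, hθ, hθ'⟩ := gen_near θ0 h0 δ hδ
  refine ⟨θ, hθ, ?_⟩
  have h2 := hδ' θ (by rwa [dist_eq_norm])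
  rw [Real.dist_eq, abs_lt] at h2
  linarith [h2.1]

end Pool.Agent.SD
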