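import Mathlib
import Pool.Agent.Lib.MP_c95b3b_ag_SD.TpTor

set_option autoImplicit false

/-! Project SD (MP_c95b3b_ag), part T', module NO: lower bound for the norms of multiples. -/

namespace Pool.Agent.SD

open MvPolynomial

namespace TpNorm

/-- specialisation of complex polynomials -/
noncomputable def specC {d : ℕ} (θ : Fin d → ℂ) : MvPolynomial (Fin (d + 1)) ℂ →+* Polynomial ℂ :=
  (Polynomial.mapRingHom (MvPolynomial.eval θ)).comp (finSuccEquiv ℂ d : MvPolynomial
    (Fin (d + 1)) ℂ →+* Polynomial (MvPolynomial (Fin d) ℂ))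

theorem specC_coeff {d : ℕ} (θ : Fin d → ℂ) (P : MvPolynomial (Fin (d + 1)) ℂ) (k : ℕ) :
    (specC θ P).coeff k = MvPolynomial.eval θ ((finSuccEquiv ℂ d P).coeff k) := by
  change ((finSuccEquiv ℂ d P).map (MvPolynomial.eval θ)).coeff k = _
  rw [Polynomial.coeff_map]

theorem spec_eq {d : ℕ} (θ : Fin d → ℂ) (F : MvPolynomial (Fin (d + 1)) ℤ) :
    spec θ F = specC θ (MvPolynomial.map (Int.castRingHom ℂ) F) := by
  have h : (Polynomial.mapRingHom (aeval θ : MvPolynomial (Fin d) ℤ →ₐ[ℤ] ℂ).toRingHom).comp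
      (finSuccEquiv ℤ d : MvPolynomial (Fin (d + 1)) ℤ →+* Polynomial (MvPolynomial (Fin d) ℤ)) =
      (specC θ).comp (MvPolynomial.map (Int.castRingHom ℂ)) := by
    refine MvPolynomial.ringHom_ext (fun a => ?_) (fun i => ?_)
    · exact (RingHom.congr_fun (RingHom.ext_int
        (((Polynomial.mapRingHom (aeval θ : MvPolynomial (Fin d) ℤ →ₐ[ℤ] ℂ).toRingHom).comp
          (finSuccEquiv ℤ d : MvPolynomial (Fin (d + 1)) ℤ →+*
            Polynomial (MvPolynomial (Fin d) ℤ))).comp MvPolynomial.C)
        (((specC θ).comp (MvPolynomial.map (Int.castRingHom ℂ))).comp MvPolynomial.C)) a)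
    · refine Fin.cases ?_ (fun j => ?_) i
      · change (finSuccEquiv ℤ d (X 0)).map _ = (finSuccEquiv ℂ d (MvPolynomial.map
          (Int.castRingHom ℂ) (X 0))).map (MvPolynomial.eval θ)
        rw [MvPolynomial.map_X, finSuccEquiv_X_zero, finSuccEquiv_X_zero, Polynomial.map_X,
          Polynomial.map_X]
      · change (finSuccEquiv ℤ d (X j.succ)).map _ = (finSuccEquiv ℂ d (MvPolynomial.map
          (Int.castRingHom ℂ) (X j.succ))).map (MvPolynomial.eval θ)
        rw [MvPolynomial.map_X, finSuccEquiv_X_succ, finSuccEquiv_X_succ, Polynomial.map_C,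
          Polynomial.map_C, MvPolynomial.eval_X]
        congr 1
        exact aeval_X θ j
  exact RingHom.congr_fun h F

/-- the coefficients of the leading coefficient -/
theorem fse_map {d : ℕ} {R S : Type} [CommRing R] [CommRing S] (φ : R →+* S)
    (P : MvPolynomial (Fin (d + 1)) R) (k : ℕ) :
    (finSuccEquiv S d (MvPolynomial.map φ P)).coeff k =
      MvPolynomial.map φ ((finSuccEquiv R d P).coeff k) := by
  ext m
  rw [finSuccEquiv_coeff_coeff, MvPolynomial.coeff_map, MvPolynomial.coeff_map,
    finSuccEquiv_coeff_coeff]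

/-- the Mahler measure of a specialisation is at most the sum of the absolute values of the
coefficients -/
theorem mahler_le {d : ℕ} (θ : Fin d → ℂ) (hθ : ∀ i, ‖θ i‖ = 1)
    (P : MvPolynomial (Fin (d + 1)) ℂ) :
    (specC θ P).mahlerMeasure ≤ ∑ e ∈ P.support, ‖P.coeff e‖ := by
  classical
  refine (Polynomial.mahlerMeasure_le_sum_norm_coeff _).trans ?_
  rw [Polynomial.sum]
  have h1 : ∀ k, ‖(specC θ P).coeff k‖ ≤
      ∑ m ∈ ((finSuccEquiv ℂ d P).coeff k).support, ‖P.coeff (m.cons k)‖ := by
    intro k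
    rw [specC_coeff, MvPolynomial.eval_eq]
    refine (norm_sum_le _ _).trans (Finset.sum_le_sum fun m _ => ?_)
    rw [norm_mul, finSuccEquiv_coeff_coeff, norm_prod]
    have h2 : ∏ i ∈ m.support, ‖θ i ^ m i‖ = 1 := Finset.prod_eq_one fun i _ => by
      rw [norm_pow, hθ, one_pow]
    rw [h2, mul_one]
  refine (Finset.sum_le_sum fun k _ => h1 k).trans ?_
  rw [Finset.sum_sigma']
  have hinj : Set.InjOn (fun x : (_ : ℕ) × (Fin d →₀ ℕ) => x.2.cons x.1)
      (((specC θ P).support.sigma fun k => ((finSuccEquiv ℂ d P).coeff k).support :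
        Finset ((_ : ℕ) × (Fin d →₀ ℕ))) : Set ((_ : ℕ) × (Fin d →₀ ℕ))) := by
    rintro ⟨k, m⟩ _ ⟨k', m'⟩ _ h
    change Finsupp.cons k m = Finsupp.cons k' m' at h
    have h3 : k = k' := by
      have := DFunLike.congr_fun h 0
      rwa [Finsupp.cons_zero, Finsupp.cons_zero] at this
    have h4 : m = m' := by
      rw [← Finsupp.tail_cons k m, h, Finsupp.tail_cons]
    subst h3
    subst h4
    rfl
  rw [← Finset.sum_image (f := fun e => ‖P.coeff e‖) hinj]
  refine Finset.sum_le_sum_of_subset_of_nonneg ?_ fun _ _ _ => norm_nonneg _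
  intro e he
  obtain ⟨⟨k, m⟩, hx, rfl⟩ := Finset.mem_image.1 he
  rw [Finset.mem_sigma] at hx
  have h5 := hx.2
  rw [MvPolynomial.mem_support_iff, finSuccEquiv_coeff_coeff] at h5
  exact MvPolynomial.mem_support_iff.2 h5

/-- the lexicographic leading coefficient -/
theorem lex_lc {d : ℕ} {R : Type} [CommRing R] (g : MvPolynomial (Fin (d + 1)) R) (hg : g ≠ 0) :
    (MonomialOrder.lex (σ := Fin (d + 1))).leadingCoeff g =
      (MonomialOrder.lex (σ := Fin d)).leadingCoeff (finSuccEquiv R d g).leadingCoeff := by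
  set P := finSuccEquiv R d g with hP
  have hP0 : P ≠ 0 := by
    rw [hP]
    exact (map_ne_zero_iff _ (finSuccEquiv R d).injective).2 hg
  set p := P.leadingCoeff with hp
  have hp0 : p ≠ 0 := Polynomial.leadingCoeff_ne_zero.2 hP0
  set D : Fin (d + 1) →₀ ℕ := ((MonomialOrder.lex (σ := Fin d)).degree p).cons P.natDegree with hD
  have hDc : g.coeff D = (MonomialOrder.lex (σ := Fin d)).leadingCoeff p := by
    rw [hD, ← finSuccEquiv_coeff_coeff]
    rfl
  have hlc : (MonomialOrder.lex (σ := Fin d)).leadingCoeff p ≠ 0 :=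
    MonomialOrder.leadingCoeff_ne_zero_iff.2 hp0
  have hDs : D ∈ g.support := MvPolynomial.mem_support_iff.2 (by rw [hDc]; exact hlc)
  have hdeg : (MonomialOrder.lex (σ := Fin (d + 1))).degree g = D := by
    apply (MonomialOrder.lex (σ := Fin (d + 1))).toSyn.injective
    refine le_antisymm ?_ (MonomialOrder.le_degree hDs)
    refine MonomialOrder.degree_le_iff.2 fun e he => ?_
    have he' : ((P.coeff (e 0)).coeff e.tail) ≠ 0 := by
      rw [hP, finSuccEquiv_coeff_coeff, Finsupp.cons_tail]
      exact MvPolynomial.mem_support_iff.1 he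
    have he0 : e 0 ≤ P.natDegree := by
      refine Polynomial.le_natDegree_of_ne_zero fun h0 => he' ?_
      rw [h0, MvPolynomial.coeff_zero]
    rw [MonomialOrder.lex_le_iff]
    rcases he0.lt_or_eq with hlt | heq
    · refine le_of_lt (Finsupp.Lex.lt_iff.2 ⟨0, fun j hj => absurd hj (Fin.not_lt_zero j), ?_⟩)
      change e 0 < D 0
      rw [hD, Finsupp.cons_zero]
      exact hlt
    · have htail : e.tail ∈ p.support := by
        rw [MvPolynomial.mem_support_iff, hp, Polynomial.leadingCoeff, ← heq]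
        exact he'
      have h1 := MonomialOrder.le_degree (m := MonomialOrder.lex (σ := Fin d)) htail
      rw [MonomialOrder.lex_le_iff] at h1
      rcases h1.lt_or_eq with h2 | h2
      · obtain ⟨i, hi1, hi2⟩ := Finsupp.Lex.lt_iff.1 h2
        refine le_of_lt (Finsupp.Lex.lt_iff.2 ⟨i.succ, fun j hj => ?_, ?_⟩)
        · refine Fin.cases ?_ (fun j' => ?_) j hj
          · intro _
            change e 0 = D 0
            rw [hD, Finsupp.cons_zero, heq]
          · intro hj'
            have h3 := hi1 j' (Fin.succ_lt_succ_iff.1 hj')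
            change e.tail j' = (MonomialOrder.lex (σ := Fin d)).degree p j' at h3
            change e j'.succ = D j'.succ
            rw [hD, Finsupp.cons_succ, ← h3]
            rfl
        · change e.tail i < (MonomialOrder.lex (σ := Fin d)).degree p i at hi2
          change e i.succ < D i.succ
          rw [hD, Finsupp.cons_succ]
          exact hi2
      · have h3 : e.tail = (MonomialOrder.lex (σ := Fin d)).degree p := toLex.injective h2
        rw [hD, ← h3, ← heq, Finsupp.cons_tail]
  rw [MonomialOrder.leadingCoeff, hdeg, hDc]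

end TpNorm

open TpNorm

theorem norm_lower {d : ℕ} (F : MvPolynomial (Fin (d + 1)) ℤ) (hF : F ≠ 0) (E : ℝ)
    (hE : 0 < E)
    (h : ∀ θ : Fin d → ℂ, GenT θ → E ≤ ((spec θ F).roots.map fun ω => max 1 ‖ω‖).prod)
    (g : MvPolynomial (Fin (d + 1)) ℝ) (hg : g ≠ 0) :
    E * |(MonomialOrder.lex (σ := Fin (d + 1))).leadingCoeff g| ≤ l1 (toR F * g) := by
  classical
  rw [lex_lc g hg]
  set a := (finSuccEquiv ℤ d F).leadingCoeff with ha
  set p := (finSuccEquiv ℝ d g).leadingCoeff with hp
  have hF' : finSuccEquiv ℤ d F ≠ 0 := (map_ne_zero_iff _ (finSuccEquiv ℤ d).injective).2 hF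
  have hg' : finSuccEquiv ℝ d g ≠ 0 := (map_ne_zero_iff _ (finSuccEquiv ℝ d).injective).2 hg
  have ha0 : a ≠ 0 := Polynomial.leadingCoeff_ne_zero.2 hF'
  have hp0 : p ≠ 0 := Polynomial.leadingCoeff_ne_zero.2 hg'
  set aC : MvPolynomial (Fin d) ℂ := MvPolynomial.map (Int.castRingHom ℂ) a with haC
  set pC : MvPolynomial (Fin d) ℂ := MvPolynomial.map Complex.ofRealHom p with hpC
  -- the main inequality at generic points
  have key : ∀ θ : Fin d → ℂ, GenT θ → E * ‖MvPolynomial.eval θ (aC * pC)‖ ≤ l1 (toR F * g) := by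
    intro θ hθ
    set gC : MvPolynomial (Fin (d + 1)) ℂ := MvPolynomial.map Complex.ofRealHom g with hgC
    have hG : MvPolynomial.map Complex.ofRealHom (toR F * g) =
        MvPolynomial.map (Int.castRingHom ℂ) F * gC := by
      rw [map_mul, toR, MvPolynomial.map_map]
      congr 2
    have hl : ∑ e ∈ (MvPolynomial.map Complex.ofRealHom (toR F * g)).support,
        ‖(MvPolynomial.map Complex.ofRealHom (toR F * g)).coeff e‖ = l1 (toR F * g) := by
      rw [MvPolynomial.support_map_of_injective _ Complex.ofReal_injective, l1]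
      refine Finset.sum_congr rfl fun e _ => ?_
      rw [MvPolynomial.coeff_map, Complex.ofRealHom_eq_coe, Complex.norm_real, Real.norm_eq_abs]
    have h1 := mahler_le θ hθ.1 (MvPolynomial.map Complex.ofRealHom (toR F * g))
    rw [hl, hG, map_mul, Polynomial.mahlerMeasure_mul, ← spec_eq] at h1
    -- the factor `F`
    have haθ : MvPolynomial.eval θ aC = aeval θ a := by
      rw [haC, MvPolynomial.eval_map]
      rfl
    have haθ0 : MvPolynomial.eval θ aC ≠ 0 := by
      rw [haθ]
      exact fun h0 => ha0 (hθ.2 a h0)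
    have hlcF : (spec θ F).leadingCoeff = MvPolynomial.eval θ aC := by
      rw [haθ]
      refine Polynomial.leadingCoeff_map_of_leadingCoeff_ne_zero _ ?_
      rw [haθ] at haθ0
      exact haθ0
    have h2 : ‖MvPolynomial.eval θ aC‖ * E ≤ (spec θ F).mahlerMeasure := by
      rw [Polynomial.mahlerMeasure_eq_leadingCoeff_mul_prod_roots, hlcF]
      exact mul_le_mul_of_nonneg_left (h θ hθ) (norm_nonneg _)
    -- the factor `g`
    have h3 : ‖MvPolynomial.eval θ pC‖ ≤ (specC θ gC).mahlerMeasure := by
      have hc : (specC θ gC).coeff (finSuccEquiv ℝ d g).natDegree = MvPolynomial.eval θ pC := by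
        rw [specC_coeff, hgC, fse_map]
        rfl
      by_cases h0 : MvPolynomial.eval θ pC = 0
      · rw [h0, norm_zero]
        exact Polynomial.mahlerMeasure_nonneg _
      · have hd : (specC θ gC).natDegree = (finSuccEquiv ℝ d g).natDegree := by
          refine le_antisymm ?_ (Polynomial.le_natDegree_of_ne_zero (by rw [hc]; exact h0))
          refine Polynomial.natDegree_le_iff_coeff_eq_zero.2 fun k hk => ?_
          rw [specC_coeff, hgC, fse_map, Polynomial.coeff_eq_zero_of_natDegree_lt hk, map_zero,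
            map_zero]
        have h4 := Polynomial.leadingCoeff_le_mahlerMeasure (specC θ gC)
        rw [Polynomial.leadingCoeff, hd, hc] at h4
        exact h4
    calc E * ‖MvPolynomial.eval θ (aC * pC)‖
        = (‖MvPolynomial.eval θ aC‖ * E) * ‖MvPolynomial.eval θ pC‖ := by
          rw [map_mul, norm_mul]
          ring
      _ ≤ (spec θ F).mahlerMeasure * (specC θ gC).mahlerMeasure :=
          mul_le_mul h2 h3 (norm_nonneg _) (Polynomial.mahlerMeasure_nonneg _)
      _ ≤ l1 (toR F * g) := h1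
  -- the coefficient
  have haC0 : aC ≠ 0 := by
    rw [haC]
    exact (map_ne_zero_iff _ (MvPolynomial.map_injective _ Int.cast_injective)).2 ha0
  have hpC0 : pC ≠ 0 := by
    rw [hpC]
    exact (map_ne_zero_iff _ (MvPolynomial.map_injective _ Complex.ofReal_injective)).2 hp0
  set m := (MonomialOrder.lex (σ := Fin d)) with hm
  have hco : (aC * pC).coeff (m.degree aC + m.degree pC) = m.leadingCoeff aC * m.leadingCoeff pC :=
    MonomialOrder.coeff_mul_of_degree_add
  have hlp : ‖m.leadingCoeff pC‖ = |m.leadingCoeff p| := by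
    have hdg : m.degree pC = m.degree p := by
      refine m.toSyn.injective ?_
      unfold MonomialOrder.degree
      rw [hpC, MvPolynomial.support_map_of_injective _ Complex.ofReal_injective]
    rw [MonomialOrder.leadingCoeff, hdg, hpC, MvPolynomial.coeff_map,
      Complex.ofRealHom_eq_coe, Complex.norm_real, Real.norm_eq_abs]
    rfl
  have hla : 1 ≤ ‖m.leadingCoeff aC‖ := by
    have h1 : m.leadingCoeff aC ≠ 0 := MonomialOrder.leadingCoeff_ne_zero_iff.2 haC0
    rw [MonomialOrder.leadingCoeff, haC, MvPolynomial.coeff_map] at h1 ⊢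
    rw [eq_intCast, Complex.norm_intCast]
    rw [eq_intCast, Ne, Int.cast_eq_zero] at h1
    exact_mod_cast Int.one_le_abs h1
  have hfin : ∀ ε : ℝ, 0 < ε → E * (|m.leadingCoeff p| - ε) ≤ l1 (toR F * g) := by
    intro ε hε
    obtain ⟨θ, hθ, h1⟩ := exists_large_gen (aC * pC) (m.degree aC + m.degree pC) ε hε
    refine (mul_le_mul_of_nonneg_left ?_ hE.le).trans (key θ hθ)
    refine le_trans ?_ h1
    rw [hco, norm_mul, hlp]
    have h2 : |m.leadingCoeff p| ≤ ‖m.leadingCoeff aC‖ * |m.leadingCoeff p| :=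
      le_mul_of_one_le_left (abs_nonneg _) hla
    linarith
  refine le_of_forall_pos_le_add fun δ hδ => ?_
  have h1 := hfin (δ / E) (div_pos hδ hE)
  rw [mul_sub, mul_div_cancel₀ _ hE.ne'] at h1
  linarith

end Pool.Agent.SD
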