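import Mathlib
import Pool.Agent.Lib.MP_c95b3b_ag_SD.TpDefs
import Pool.Agent.Lib.MP_c95b3b_ag_SD.PolyBd
import Pool.Agent.Lib.MP_c95b3b_ag_SD.Map

set_option autoImplicit false

/-! Project SD (MP_c95b3b_ag), part T', module PF: the product formula for the small
polynomial. -/

namespace Pool.Agent.SD

open MvPolynomial Filter Pool.Agent.L3

namespace TpPF

theorem pow_le_exp {a : ℝ} (ha : 0 < a) {e K : ℕ} (h : e ≤ K) :
    a ^ e ≤ Real.exp (K * max 0 (Real.log a)) := by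
  have h1 : a ^ e = Real.exp (e * Real.log a) := by
    rw [mul_comm, ← Real.rpow_natCast, Real.rpow_def_of_pos ha]
  rw [h1]
  apply Real.exp_le_exp.mpr
  have h2 : (e : ℝ) * Real.log a ≤ e * max 0 (Real.log a) :=
    mul_le_mul_of_nonneg_left (le_max_right _ _) (Nat.cast_nonneg e)
  have h3 : (e : ℝ) * max 0 (Real.log a) ≤ K * max 0 (Real.log a) :=
    mul_le_mul_of_nonneg_right (by exact_mod_cast h) (le_max_left _ _)
  exact h2.trans h3

theorem prod_le_exp {k : ℕ} (a : Fin k → ℝ) (ha : ∀ i, 0 < a i) (e : Fin k → ℕ) (K : ℕ)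
    (h : ∀ i, e i ≤ K) :
    ∏ i, a i ^ e i ≤ Real.exp (K * ∑ i, max 0 (Real.log (a i))) := by
  rw [Finset.mul_sum, Real.exp_sum]
  exact Finset.prod_le_prod (fun i _ => pow_nonneg (ha i).le _)
    fun i _ => pow_le_exp (ha i) (h i)

theorem arch_bd {k : ℕ} (P : MvPolynomial (Fin k) ℝ) (z : Fin k → ℂ) (hz : ∀ i, z i ≠ 0)
    (K : ℕ) (hK : ∀ i, degreeOf i P ≤ K) (E : ℝ) (hE : l1 P ≤ Real.exp E) :
    ‖aeval z P‖ ≤ Real.exp (E + K * ∑ i, max 0 (Real.log ‖z i‖)) := by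
  rw [aeval_def, eval₂_eq']
  refine (norm_sum_le _ _).trans ?_
  have h1 : ∀ d ∈ P.support, ‖(algebraMap ℝ ℂ) (coeff d P) * ∏ i, z i ^ d i‖ ≤
      |coeff d P| * Real.exp (K * ∑ i, max 0 (Real.log ‖z i‖)) := by
    intro d hd
    rw [norm_mul, norm_prod]
    have h2 : ‖(algebraMap ℝ ℂ) (coeff d P)‖ = |coeff d P| := by
      rw [norm_algebraMap', Real.norm_eq_abs]
    rw [h2]
    apply mul_le_mul_of_nonneg_left _ (abs_nonneg _)
    simp only [norm_pow]
    exact prod_le_exp _ (fun i => norm_pos_iff.mpr (hz i)) _ K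
      fun i => (monomial_le_degreeOf i hd).trans (hK i)
  refine (Finset.sum_le_sum h1).trans ?_
  rw [← Finset.sum_mul, Real.exp_add]
  exact mul_le_mul_of_nonneg_right hE (Real.exp_pos _).le

theorem na_bd {k : ℕ} {K : Type} [Field K] {R : Subring K} (P : Places K R) (j : Fin P.m)
    (V : MvPolynomial (Fin k) ℤ) (u : Fin k → K) (hu : ∀ i, u i ≠ 0)
    (N : ℕ) (hN : ∀ i, degreeOf i V ≤ N) :
    P.v j (aeval u V) ≤ Real.exp (N * ∑ i, max 0 (Real.log (P.v j (u i)))) := by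
  rw [aeval_def, eval₂_eq']
  refine P.v_sum_le j _ _ (Real.exp_pos _).le ?_
  intro d hd
  rw [map_mul, map_prod]
  have h1 : P.v j ((algebraMap ℤ K) (coeff d V)) ≤ 1 := by
    simp only [algebraMap_int_eq, eq_intCast]
    exact P.v_int j _
  have h2 : ∏ i, P.v j (u i ^ d i) ≤
      Real.exp (N * ∑ i, max 0 (Real.log (P.v j (u i)))) := by
    simp only [map_pow]
    exact prod_le_exp _ (fun i => (P.v j).pos (hu i)) _ N
      fun i => (monomial_le_degreeOf i hd).trans (hN i)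
  have h3 : 0 ≤ ∏ i, P.v j (u i ^ d i) := Finset.prod_nonneg fun i _ => (P.v j).nonneg _
  calc P.v j ((algebraMap ℤ K) (coeff d V)) * ∏ i, P.v j (u i ^ d i)
      ≤ 1 * ∏ i, P.v j (u i ^ d i) := mul_le_mul_of_nonneg_right h1 h3
    _ = ∏ i, P.v j (u i ^ d i) := one_mul _
    _ ≤ _ := h2

theorem toR_aeval {k : ℕ} {K : Type} [Field K] (σ : K →+* ℂ) (u : Fin k → K)
    (V : MvPolynomial (Fin k) ℤ) :
    aeval (fun i => σ (u i)) (toR V) = σ (aeval u V) := by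
  rw [toR, aeval_def, eval₂_map, map_aeval]
  rw [coe_eval₂Hom]
  congr 1
  exact RingHom.ext_int _ _

theorem mem_R {n k : ℕ} (S : Sq n) (ν : ℕ) (γ : Fin k → Fin n → ℤ)
    (G : MvPolynomial (Fin k) ℤ) : aeval (mm γ (S.p ν)) G ∈ S.R ν := by
  induction G using MvPolynomial.induction_on with
  | C q =>
    rw [aeval_C]
    simp only [algebraMap_int_eq, eq_intCast]
    exact intCast_mem _ _
  | add p q hp hq =>
    rw [map_add]
    exact (S.R ν).add_mem hp hq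
  | mul_X p i hp =>
    rw [map_mul, aeval_X]
    exact (S.R ν).mul_mem hp (mn_mem (S.mem ν) (S.inv ν) (γ i))

end TpPF

theorem pf_step {n k : ℕ} {𝓤 : Ultrafilter ℕ} {S : Sq n} {L : Type} [Field L] [CharZero L]
    {x : Fin n → L} (hx : ∀ i, x i ≠ 0) (hG : Gn 𝓤 S x) (γ : Fin k → Fin n → ℤ)
    (F V : MvPolynomial (Fin k) ℤ) (hF : aeval (mm γ x) F = 0) (hV : aeval (mm γ x) V ≠ 0)
    (g : MvPolynomial (Fin k) ℝ) (K : ℕ) (hK : ∀ i, degreeOf i V ≤ K)
    (hK' : ∀ i, degreeOf i (toR V - toR F * g) ≤ K) (E : ℝ)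
    (hE : l1 (toR V - toR F * g) ≤ Real.exp E) :
    ∀ᶠ ν in (𝓤 : Filter ℕ), 0 ≤ E + K * ∑ i, S.ht (rv (γ i)) ν := by
  have e1 : ∀ᶠ ν in (𝓤 : Filter ℕ), aeval (mm γ (S.p ν)) F = 0 :=
    (Gn.iff_mn hx hG γ F).2 hF
  have e2 : ∀ᶠ ν in (𝓤 : Filter ℕ), ¬ aeval (mm γ (S.p ν)) V = 0 :=
    Ultrafilter.eventually_not.2 fun h => hV ((Gn.iff_mn hx hG γ V).1 h)
  filter_upwards [e1, e2] with ν h1 h2
  set P := S.W ν with hP
  set u := mm γ (S.p ν) with hu
  have hu0 : ∀ i, u i ≠ 0 := mm_ne_zero (S.ne ν) γ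
  have h3 : 0 ≤ P.avg (fun w => P.lg w (aeval u V)) :=
    P.avg_lg_nonneg (TpPF.mem_R S ν γ V) h2
  have h4 : ∀ w, P.lg w (aeval u V) ≤ E * P.arch w + K * ∑ i, max 0 (P.lg w (u i)) := by
    intro w
    rcases w with i | j
    · rw [Places.lg_inl, Places.arch_inl, mul_one]
      have h5 : 0 < ‖P.σ i (aeval u V)‖ := norm_pos_iff.mpr ((map_ne_zero _).2 h2)
      rw [Real.log_le_iff_le_exp h5]
      have h6 : aeval (fun l => P.σ i (u l)) (toR V - toR F * g) = P.σ i (aeval u V) := by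
        rw [map_sub, map_mul, TpPF.toR_aeval, TpPF.toR_aeval, h1, map_zero, zero_mul, sub_zero]
      rw [← h6]
      exact TpPF.arch_bd _ _ (fun l => (map_ne_zero _).2 (hu0 l)) K hK' E hE
    · rw [Places.lg_inr, Places.arch_inr, mul_zero, zero_add]
      have h5 : 0 < P.v j (aeval u V) := (P.v j).pos h2
      rw [Real.log_le_iff_le_exp h5]
      exact TpPF.na_bd P j V u hu0 K hK
  have h7 := h3.trans (P.avg_mono h4)
  rw [P.avg_add, P.avg_const_arch, P.avg_mul, P.avg_sum] at h7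
  have h8 : ∑ i, P.avg (fun w => max 0 (P.lg w (u i))) ≤ ∑ i, S.ht (rv (γ i)) ν := by
    refine Finset.sum_le_sum fun i _ => ?_
    rw [ht_eq_two_mul]
    have h9 : 0 ≤ P.avg (fun w => max 0 (P.lg w (mn (S.p ν) (γ i)))) :=
      P.avg_nonneg fun w => le_max_left _ _
    have h10 : P.avg (fun w => max 0 (P.lg w (u i))) =
      P.avg (fun w => max 0 (P.lg w (mn (S.p ν) (γ i)))) := rfl
    rw [h10]
    linarith
  have h11 : (K : ℝ) * ∑ i, P.avg (fun w => max 0 (P.lg w (u i))) ≤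
      K * ∑ i, S.ht (rv (γ i)) ν := mul_le_mul_of_nonneg_left h8 (Nat.cast_nonneg K)
  linarith

end Pool.Agent.SD
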