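import Mathlib
import Pool.Agent.Lib.MP_c95b3b_ag_SD.Count

set_option autoImplicit false

/-! Project SD (MP_c95b3b_ag), part T', module CF: counting points over the compact torus. -/

namespace Pool.Agent.SD

open Filter Topology

/-- the linear map with the real matrix `β` -/
private noncomputable def farT {n d : ℕ} (β : Fin d → Fin n → ℝ) :
    (Fin n → ℂ) →L[ℂ] (Fin d → ℂ) :=
  LinearMap.toContinuousLinearMap
    { toFun := fun w => fun i => ∑ l, (β i l : ℂ) * w l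
      map_add' := by
        intro x y
        ext j
        simp [mul_add, Finset.sum_add_distrib]
      map_smul' := by
        intro c x
        ext j
        simp [Finset.mul_sum, mul_left_comm] }

private theorem farT_apply {n d : ℕ} (β : Fin d → Fin n → ℝ)
    (w : Fin n → ℂ) : farT β w = fun i => ∑ l, (β i l : ℂ) * w l := rfl

private theorem farT_sub {n d : ℕ} (β β' : Fin d → Fin n → ℝ)
    {δ : ℝ} (hδ : 0 ≤ δ) (h : ∀ i l, |β i l - β' i l| ≤ δ) (w : Fin n → ℂ) :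
    ‖farT β w - farT β' w‖ ≤ n * δ * ‖w‖ := by
  have hb : 0 ≤ n * δ * ‖w‖ := by positivity
  rw [farT_apply, farT_apply, pi_norm_le_iff_of_nonneg hb]
  intro i
  rw [Pi.sub_apply, ← Finset.sum_sub_distrib]
  calc ‖∑ l, ((β i l : ℂ) * w l - (β' i l : ℂ) * w l)‖
      ≤ ∑ l, ‖(β i l : ℂ) * w l - (β' i l : ℂ) * w l‖ := norm_sum_le _ _
    _ ≤ ∑ _l : Fin n, δ * ‖w‖ := by
        refine Finset.sum_le_sum fun l _ => ?_
        rw [← sub_mul, norm_mul]
        have h1 : ‖(β i l : ℂ) - (β' i l : ℂ)‖ ≤ δ := by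
          rw [← Complex.ofReal_sub, Complex.norm_real, Real.norm_eq_abs]
          exact h i l
        exact mul_le_mul h1 (norm_le_pi_norm w l) (norm_nonneg _) hδ
    _ = n * δ * ‖w‖ := by
        rw [Finset.sum_const, Finset.card_univ, Fintype.card_fin, nsmul_eq_mul, mul_assoc]

/-- lower bound for the character `a'` -/
private theorem far_low {n : ℕ} (b' : Fin n → ℝ) (w : Fin n → ℂ) (h K : ℝ) (M : ℝ)
    (hM : 0 ≤ M) (hK : ‖w‖ ≤ K) (hw : h / 2 ≤ ∑ l, b' l * (w l).re) (a' : Fin n → ℤ)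
    (ha' : ∀ l, |(a' l : ℝ) - M * b' l| ≤ 1) (hMh : n * K ≤ M * (h / 4)) :
    h / 4 * M ≤ ∑ l, (a' l : ℝ) * (w l).re := by
  have h1 : ∑ l, (a' l : ℝ) * (w l).re =
      M * ∑ l, b' l * (w l).re + ∑ l, ((a' l : ℝ) - M * b' l) * (w l).re := by
    rw [Finset.mul_sum, ← Finset.sum_add_distrib]
    refine Finset.sum_congr rfl fun l _ => ?_
    ring
  have h2 : |∑ l, ((a' l : ℝ) - M * b' l) * (w l).re| ≤ n * K := by
    calc |∑ l, ((a' l : ℝ) - M * b' l) * (w l).re|
        ≤ ∑ l, |((a' l : ℝ) - M * b' l) * (w l).re| := Finset.abs_sum_le_sum_abs _ _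
      _ ≤ ∑ _l : Fin n, K := by
          refine Finset.sum_le_sum fun l _ => ?_
          rw [abs_mul]
          have h3 : |(w l).re| ≤ K :=
            ((Complex.abs_re_le_norm _).trans (norm_le_pi_norm w l)).trans hK
          calc |(a' l : ℝ) - M * b' l| * |(w l).re| ≤ 1 * K :=
                mul_le_mul (ha' l) h3 (abs_nonneg _) zero_le_one
            _ = K := one_mul _
      _ = n * K := by
          rw [Finset.sum_const, Finset.card_univ, Fintype.card_fin, nsmul_eq_mul]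
  have h4 := (abs_le.1 h2).1
  have h5 : M * (h / 2) ≤ M * ∑ l, b' l * (w l).re := by gcongr
  rw [h1]
  nlinarith

theorem count_far {n d : ℕ} (t0 : Fin d → ℂ) (U : Set (Fin d → ℂ)) (hU : U ∈ 𝓝 t0)
    (ℓ : (Fin d → ℂ) → Fin n → ℂ) (hℓ : AnalyticAt ℂ ℓ t0) (b : Fin d → Fin n → ℝ)
    (b' : Fin n → ℝ)
    (hinj : ∀ v : Fin d → ℂ, (∀ i, ∑ l, (b i l : ℂ) * fderiv ℂ ℓ t0 v l = 0) → v = 0)
    (h0 : ∀ i, ∑ l, b i l * (ℓ t0 l).re = 0) (h1 : 0 < ∑ l, b' l * (ℓ t0 l).re) :
    ∃ c : ℝ, 0 < c ∧ ∃ M0 : ℕ, ∀ M : ℕ, M0 ≤ M → ∀ (a : Fin d → Fin n → ℤ) (a' : Fin n → ℤ),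
      (∀ i l, |(a i l : ℝ) - M * b i l| ≤ 1) → (∀ l, |(a' l : ℝ) - M * b' l| ≤ 1) →
      ∀ φ : Fin d → ℝ, ∃ Q : Finset (Fin d → ℂ), c * M ^ d ≤ Q.card ∧ ∀ t ∈ Q, t ∈ U ∧
        (∀ i, ∃ k : ℤ, ∑ l, (a i l : ℂ) * ℓ t l =
          ((φ i + 2 * Real.pi * k : ℝ) : ℂ) * Complex.I) ∧
        c * M ≤ ∑ l, (a' l : ℝ) * (ℓ t l).re := by
  classical
  set h : ℝ := ∑ l, b' l * (ℓ t0 l).re with hh
  set K0 : ℝ := ‖ℓ t0‖ + 1 with hK0
  have hK0pos : 0 < K0 := by positivity
  -- the neighbourhood of good points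
  have hcont : ContinuousAt ℓ t0 := hℓ.continuousAt
  have hnb1 : {t | ‖ℓ t‖ ≤ K0} ∈ 𝓝 t0 := by
    have h2 : ContinuousAt (fun t => ‖ℓ t‖) t0 := hcont.norm
    have h3 : ‖ℓ t0‖ < K0 := by rw [hK0]; linarith
    exact (h2.eventually_lt_const h3).mono fun t ht => le_of_lt ht
  have hnb2 : {t | h / 2 ≤ ∑ l, b' l * (ℓ t l).re} ∈ 𝓝 t0 := by
    have h2 : ContinuousAt (fun t => ∑ l, b' l * (ℓ t l).re) t0 := by
      have h4 : Continuous (fun w : Fin n → ℂ => ∑ l, b' l * (w l).re) := by fun_prop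
      exact h4.continuousAt.comp hcont
    have h3 : h / 2 < ∑ l, b' l * (ℓ t0 l).re := by rw [← hh]; linarith
    exact (h2.eventually_const_lt h3).mono fun t ht => le_of_lt ht
  have hlow : ∀ M : ℕ, 4 * n * K0 / h ≤ M → n * K0 ≤ M * (h / 4) := by
    intro M hM
    rw [div_le_iff₀ h1] at hM
    linarith
  rcases Nat.eq_zero_or_pos d with hd | hd
  · subst hd
    obtain ⟨M0, hM0⟩ := exists_nat_ge (4 * n * K0 / h)
    refine ⟨min 1 (h / 4), lt_min one_pos (by positivity), M0,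
      fun M hM a a' _ ha' φ => ⟨{t0}, ?_, fun t ht => ?_⟩⟩
    · rw [pow_zero, mul_one, Finset.card_singleton, Nat.cast_one]
      exact min_le_left _ _
    · rw [Finset.mem_singleton] at ht
      subst ht
      refine ⟨mem_of_mem_nhds hU, fun i => i.elim0, ?_⟩
      have hM' : ((M0 : ℕ) : ℝ) ≤ M := by exact_mod_cast hM
      have hm1 : ‖ℓ t‖ ≤ K0 := by rw [hK0]; linarith
      have hm2 : h / 2 ≤ ∑ l, b' l * (ℓ t l).re := by rw [← hh]; linarith
      have h2 := far_low b' (ℓ t) h K0 M (by positivity) hm1 hm2 a' ha' (hlow M (hM0.trans hM'))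
      exact le_trans (mul_le_mul_of_nonneg_right (min_le_right _ _) (by positivity)) h2
  -- the linear map
  set D0 : (Fin d → ℂ) →L[ℂ] (Fin n → ℂ) := fderiv ℂ ℓ t0 with hD0
  have hLinj : Function.Injective ((farT b).comp D0).toLinearMap := by
    rw [injective_iff_map_eq_zero]
    intro v hv
    have h2 : farT b (D0 v) = 0 := hv
    rw [farT_apply] at h2
    exact hinj v (fun i => congrFun h2 i)
  set A : (Fin d → ℂ) ≃L[ℂ] (Fin d → ℂ) :=
    (LinearEquiv.ofInjectiveOfFinrankEq ((farT b).comp D0).toLinearMap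
      hLinj rfl).toContinuousLinearEquiv with hA
  have hAv : ∀ v, A v = farT b (D0 v) := fun v => rfl
  have : Nonempty (Fin d) := ⟨⟨0, hd⟩⟩
  have hNpos : 0 < ‖(A.symm : (Fin d → ℂ) →L[ℂ] (Fin d → ℂ))‖ := A.norm_symm_pos
  set N : ℝ := ‖(A.symm : (Fin d → ℂ) →L[ℂ] (Fin d → ℂ))‖ with hN
  set K : ℝ := ‖farT b‖ + n + 1 with hK
  have hKpos : 0 < K := by positivity
  set ε : ℝ := 1 / (2 * N) with hε
  have hεpos : 0 < ε := by positivity
  have hstr : HasStrictFDerivAt ℓ D0 t0 := hℓ.hasStrictFDerivAt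
  have hc1 : 0 < ε / (2 * K) := by positivity
  obtain ⟨s, hs, happ⟩ := hstr.approximates_deriv_on_nhds
    (c := ⟨ε / (2 * K), hc1.le⟩) (Or.inr hc1)
  obtain ⟨r, hr, hball⟩ := Metric.nhds_basis_closedBall.mem_iff.1
    (Filter.inter_mem (Filter.inter_mem hs hU) (Filter.inter_mem hnb1 hnb2))
  set r' : ℝ := (N⁻¹ - ε) * r with hr'
  have hr'pos : 0 < r' := by
    have : N⁻¹ - ε = 1 / (2 * N) := by
      rw [hε]
      field_simp
      norm_num
    rw [hr', this]
    positivity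
  set c1 : ℝ := r' / (4 * Real.pi) with hc1'
  have hc1pos : 0 < c1 := by positivity
  obtain ⟨M0, hM0⟩ := exists_nat_gt (2 * n * ‖D0‖ / ε)
  obtain ⟨M1, hM1⟩ := exists_nat_ge (4 * n * K0 / h)
  obtain ⟨M2, hM2⟩ := exists_nat_ge (2 * n * K0 / r')
  obtain ⟨M3, hM3⟩ := exists_nat_ge (1 / c1)
  refine ⟨min (c1 ^ d) (h / 4), lt_min (by positivity) (by positivity), M0 + M1 + M2 + M3 + 1,
    fun M hM a a' ha ha' φ => ?_⟩
  have hMpos : (0 : ℝ) < M := by
    have : 0 < M := by omega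
    exact_mod_cast this
  have hM1' : (1 : ℝ) ≤ M := by
    have : 1 ≤ M := by omega
    exact_mod_cast this
  have hMc : (M : ℂ) ≠ 0 := by exact_mod_cast hMpos.ne'
  have hMM0 : ((M0 : ℕ) : ℝ) ≤ M := by
    have : M0 ≤ M := by omega
    exact_mod_cast this
  have hMM1 : ((M1 : ℕ) : ℝ) ≤ M := by
    have : M1 ≤ M := by omega
    exact_mod_cast this
  have hMM2 : ((M2 : ℕ) : ℝ) ≤ M := by
    have : M2 ≤ M := by omega
    exact_mod_cast this
  have hMM3 : ((M3 : ℕ) : ℝ) ≤ M := by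
    have : M3 ≤ M := by omega
    exact_mod_cast this
  set β : Fin d → Fin n → ℝ := fun i l => a i l / M with hβ
  have hβb : ∀ i l, |β i l - b i l| ≤ 1 / M := by
    intro i l
    have h2 : β i l - b i l = ((a i l : ℝ) - M * b i l) / M := by
      rw [hβ]
      field_simp
    rw [h2, abs_div, abs_of_pos hMpos]
    exact div_le_div_of_nonneg_right (ha i l) hMpos.le
  have hTβ : ∀ w, ‖farT β w‖ ≤ (‖farT b‖ + n) * ‖w‖ := by
    intro w
    have h2 := farT_sub β b (by positivity : (0 : ℝ) ≤ 1 / M) hβb w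
    have h3 : farT β w = farT b w + (farT β w - farT b w) := by abel
    rw [h3]
    refine (norm_add_le _ _).trans ?_
    have h4 := (farT b).le_opNorm w
    have h5 : (n : ℝ) * (1 / M) * ‖w‖ ≤ n * ‖w‖ := by
      have h6 : (n : ℝ) * (1 / M) ≤ n * 1 := by
        have h7 : (1 : ℝ) / M ≤ 1 := by
          rw [div_le_one hMpos]
          exact hM1'
        gcongr
      calc (n : ℝ) * (1 / M) * ‖w‖ ≤ (n * 1) * ‖w‖ := by gcongr
        _ = n * ‖w‖ := by ring
    nlinarith [norm_nonneg w]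
  set Φ : (Fin d → ℂ) → (Fin d → ℂ) := fun t => farT β (ℓ t) with hΦ
  have hΦapp : ApproximatesLinearOn Φ (A : (Fin d → ℂ) →L[ℂ] _) s ⟨ε, hεpos.le⟩ := by
    intro x hx y hy
    have h1 := happ x hx y hy
    have h2 : Φ x - Φ y - (A : (Fin d → ℂ) →L[ℂ] _) (x - y) =
        farT β (ℓ x - ℓ y - D0 (x - y)) + (farT β (D0 (x - y)) - farT b (D0 (x - y))) := by
      have h3 : (A : (Fin d → ℂ) →L[ℂ] _) (x - y) = farT b (D0 (x - y)) := hAv _
      rw [h3]
      simp only [hΦ, map_sub]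
      abel
    rw [h2]
    have h4 := hTβ (ℓ x - ℓ y - D0 (x - y))
    have h5 := farT_sub β b (by positivity : (0 : ℝ) ≤ 1 / M) hβb (D0 (x - y))
    have h6 := D0.le_opNorm (x - y)
    have h7 : ‖ℓ x - ℓ y - D0 (x - y)‖ ≤ ε / (2 * K) * ‖x - y‖ := h1
    have h8 : (‖farT b‖ + n) * ‖ℓ x - ℓ y - D0 (x - y)‖ ≤ ε / 2 * ‖x - y‖ := by
      have h9 : (‖farT b‖ + n) * ‖ℓ x - ℓ y - D0 (x - y)‖ ≤ K * (ε / (2 * K) * ‖x - y‖) := by
        refine mul_le_mul ?_ h7 (norm_nonneg _) hKpos.le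
        rw [hK]
        linarith
      have h10 : K * (ε / (2 * K) * ‖x - y‖) = ε / 2 * ‖x - y‖ := by
        field_simp
      linarith
    have h11 : (n : ℝ) * (1 / M) * ‖D0 (x - y)‖ ≤ ε / 2 * ‖x - y‖ := by
      have h12 : (n : ℝ) * (1 / M) * ‖D0 (x - y)‖ ≤ n * (1 / M) * (‖D0‖ * ‖x - y‖) := by gcongr
      have h13 : (n : ℝ) * (1 / M) * ‖D0‖ ≤ ε / 2 := by
        have h14 : 2 * n * ‖D0‖ / ε < M := lt_of_lt_of_le hM0 hMM0
        rw [div_lt_iff₀ hεpos] at h14
        rw [mul_one_div, div_mul_eq_mul_div, div_le_iff₀ hMpos]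
        nlinarith
      calc (n : ℝ) * (1 / M) * ‖D0 (x - y)‖ ≤ n * (1 / M) * (‖D0‖ * ‖x - y‖) := h12
        _ = (n * (1 / M) * ‖D0‖) * ‖x - y‖ := by ring
        _ ≤ ε / 2 * ‖x - y‖ := by gcongr
    calc ‖farT β (ℓ x - ℓ y - D0 (x - y)) +
          (farT β (D0 (x - y)) - farT b (D0 (x - y)))‖
        ≤ ‖farT β (ℓ x - ℓ y - D0 (x - y))‖ +
          ‖farT β (D0 (x - y)) - farT b (D0 (x - y))‖ := norm_add_le _ _
      _ ≤ ε * ‖x - y‖ := by linarith
  have hsurj := hΦapp.surjOn_closedBall_of_nonlinearRightInverse A.toNonlinearRightInverse hr.le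
    (fun x hx => (hball hx).1.1)
  have hsurj' : Set.SurjOn Φ (Metric.closedBall t0 r) (Metric.closedBall (Φ t0) r') := hsurj
  -- the real parts at t0
  have hre : ∀ i, |(Φ t0 i).re| ≤ r' / 2 := by
    intro i
    have h2 : (Φ t0 i).re = ∑ l, (β i l - b i l) * (ℓ t0 l).re := by
      have h3 : (Φ t0 i).re = ∑ l, β i l * (ℓ t0 l).re := by
        simp only [hΦ, farT_apply, Complex.re_sum, Complex.re_ofReal_mul]
      rw [h3]
      simp only [sub_mul]
      rw [Finset.sum_sub_distrib, h0 i, sub_zero]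
    rw [h2]
    calc |∑ l, (β i l - b i l) * (ℓ t0 l).re|
        ≤ ∑ l, |(β i l - b i l) * (ℓ t0 l).re| := Finset.abs_sum_le_sum_abs _ _
      _ ≤ ∑ _l : Fin n, 1 / M * K0 := by
          refine Finset.sum_le_sum fun l _ => ?_
          rw [abs_mul]
          have h3 : |(ℓ t0 l).re| ≤ K0 :=
            ((Complex.abs_re_le_norm _).trans (norm_le_pi_norm (ℓ t0) l)).trans
              (by rw [hK0]; linarith)
          exact mul_le_mul (hβb i l) h3 (abs_nonneg _) (by positivity)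
      _ = n * K0 / M := by
          rw [Finset.sum_const, Finset.card_univ, Fintype.card_fin, nsmul_eq_mul]
          ring
      _ ≤ r' / 2 := by
          have h3 : 2 * n * K0 / r' ≤ M := hM2.trans hMM2
          rw [div_le_iff₀ hr'pos] at h3
          rw [div_le_iff₀ hMpos]
          linarith
  -- the solutions
  set lo : Fin d → ℝ := fun i => (M * ((Φ t0 i).im - r' / 2) - φ i) / (2 * Real.pi) with hlo
  set hi : Fin d → ℝ := fun i => (M * ((Φ t0 i).im + r' / 2) - φ i) / (2 * Real.pi) with hhi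
  have hpi : 0 < 2 * Real.pi := by positivity
  set S : Finset (Fin d → ℤ) := Fintype.piFinset fun i => Finset.Icc ⌈lo i⌉ ⌊hi i⌋ with hS
  have hex : ∀ k ∈ S, ∃ t ∈ Metric.closedBall t0 r,
      Φ t = fun i => ((φ i + 2 * Real.pi * k i : ℝ) : ℂ) * Complex.I / M := by
    intro k hk
    have h2 : (fun i => ((φ i + 2 * Real.pi * k i : ℝ) : ℂ) * Complex.I / M) ∈
        Metric.closedBall (Φ t0) r' := by
      rw [mem_closedBall_iff_norm, pi_norm_le_iff_of_nonneg hr'pos.le]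
      intro i
      have h3 := Fintype.mem_piFinset.1 hk i
      rw [Finset.mem_Icc] at h3
      have h4 : lo i ≤ k i := (Int.le_ceil _).trans (by exact_mod_cast h3.1)
      have h5 : (k i : ℝ) ≤ hi i := le_trans (by exact_mod_cast h3.2) (Int.floor_le _)
      have h6 : |(φ i + 2 * Real.pi * k i) / M - (Φ t0 i).im| ≤ r' / 2 := by
        simp only [hlo] at h4
        simp only [hhi] at h5
        rw [div_le_iff₀ hpi] at h4
        rw [le_div_iff₀ hpi] at h5
        rw [abs_le]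
        constructor
        · rw [le_sub_iff_add_le, le_div_iff₀ hMpos]
          linarith
        · rw [sub_le_iff_le_add, div_le_iff₀ hMpos]
          linarith
      refine (Complex.norm_le_abs_re_add_abs_im _).trans ?_
      have h7 : (((φ i + 2 * Real.pi * k i : ℝ) : ℂ) * Complex.I / M) =
          (((φ i + 2 * Real.pi * k i) / M : ℝ) : ℂ) * Complex.I := by
        push_cast
        ring
      have h8 : ((((φ i + 2 * Real.pi * k i : ℝ) : ℂ) * Complex.I / M) - Φ t0 i).re =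
          -(Φ t0 i).re := by
        rw [h7, Complex.sub_re, Complex.re_ofReal_mul, Complex.I_re]
        ring
      have h9 : ((((φ i + 2 * Real.pi * k i : ℝ) : ℂ) * Complex.I / M) - Φ t0 i).im =
          (φ i + 2 * Real.pi * k i) / M - (Φ t0 i).im := by
        rw [h7, Complex.sub_im, Complex.im_ofReal_mul, Complex.I_im]
        ring
      rw [Pi.sub_apply, h8, h9, abs_neg]
      have h10 := hre i
      linarith
    obtain ⟨t, ht, hΦt⟩ := hsurj' h2
    exact ⟨t, ht, hΦt⟩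
  choose! g hg1 hg2 using hex
  have hginj : Set.InjOn g S := by
    intro k hk k' hk' hkk
    have h2 := hg2 k hk
    have h3 := hg2 k' hk'
    rw [hkk, h3] at h2
    funext i
    have h5 := congrFun h2 i
    have h6 : ((φ i + 2 * Real.pi * k' i : ℝ) : ℂ) = ((φ i + 2 * Real.pi * k i : ℝ) : ℂ) := by
      have h7 := (div_left_inj' hMc).1 h5
      exact mul_right_cancel₀ Complex.I_ne_zero h7
    have h8 : φ i + 2 * Real.pi * k' i = φ i + 2 * Real.pi * k i := by exact_mod_cast h6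
    have h9 : (k' i : ℝ) = k i := by
      have h10 : 2 * Real.pi * (k' i : ℝ) = 2 * Real.pi * k i := by linarith
      exact mul_left_cancel₀ hpi.ne' h10
    exact_mod_cast h9.symm
  refine ⟨S.image g, ?_, ?_⟩
  · rw [Finset.card_image_of_injOn hginj, hS, Fintype.card_piFinset]
    push_cast
    have h2 : ∀ i, c1 * M ≤ (((Finset.Icc ⌈lo i⌉ ⌊hi i⌋).card : ℕ) : ℝ) := by
      intro i
      rw [Int.card_Icc]
      have h3 : hi i - lo i = 2 * (c1 * M) := by
        simp only [hhi, hlo, hc1']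
        field_simp
        ring
      have h4 : 1 ≤ c1 * M := by
        have h5 : 1 / c1 ≤ M := hM3.trans hMM3
        rw [div_le_iff₀ hc1pos] at h5
        linarith
      have h5 : hi i - 1 < ⌊hi i⌋ := Int.sub_one_lt_floor _
      have h6 : (⌈lo i⌉ : ℝ) < lo i + 1 := Int.ceil_lt_add_one _
      have h7 : c1 * M ≤ ((⌊hi i⌋ + 1 - ⌈lo i⌉ : ℤ) : ℝ) := by
        push_cast
        linarith
      refine h7.trans ?_
      exact_mod_cast Int.self_le_toNat _
    calc min (c1 ^ d) (h / 4) * (M : ℝ) ^ d ≤ c1 ^ d * (M : ℝ) ^ d :=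
          mul_le_mul_of_nonneg_right (min_le_left _ _) (by positivity)
      _ = ∏ _i : Fin d, (c1 * M) := by
          rw [Finset.prod_const, Finset.card_univ, Fintype.card_fin, mul_pow]
      _ ≤ ∏ i, (((Finset.Icc ⌈lo i⌉ ⌊hi i⌋).card : ℕ) : ℝ) :=
          Finset.prod_le_prod (fun i _ => by positivity) (fun i _ => h2 i)
  · intro t ht
    obtain ⟨k, hk, rfl⟩ := Finset.mem_image.1 ht
    have h2 := hg2 k hk
    have h3 := hball (hg1 k hk)
    refine ⟨h3.1.2, fun i => ⟨k i, ?_⟩, ?_⟩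
    · have h4 := congrFun h2 i
      simp only [hΦ, farT_apply, hβ] at h4
      have h5 : ∑ l, (((a i l : ℝ) / M : ℝ) : ℂ) * ℓ (g k) l =
          (∑ l, (a i l : ℂ) * ℓ (g k) l) / M := by
        rw [Finset.sum_div]
        refine Finset.sum_congr rfl fun l _ => ?_
        push_cast
        ring
      rw [h5, div_left_inj' hMc] at h4
      exact h4
    · have h4 := far_low b' (ℓ (g k)) h K0 M hMpos.le h3.2.1 h3.2.2 a' ha'
        (hlow M (hM1.trans hMM1))
      exact le_trans (mul_le_mul_of_nonneg_right (min_le_right _ _) hMpos.le) h4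

end Pool.Agent.SD
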