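import Mathlib

set_option autoImplicit false

/-! Project SD (MP_c95b3b_ag), part T', module HO: holomorphic functions whose real parts satisfy
a linear relation. -/

namespace Pool.Agent.SD

namespace TpHol

theorem real_core {d : ℕ} {f : (Fin d → ℂ) → ℂ} {t : Fin d → ℂ}
    (hf : DifferentiableAt ℂ f t) (h : ∀ᶠ s in nhds t, (f s).im = 0) : fderiv ℂ f t = 0 := by
  have h1 : HasFDerivAt f ((fderiv ℂ f t).restrictScalars ℝ) t :=
    hf.hasFDerivAt.restrictScalars ℝ
  have h2 : HasFDerivAt (fun s => (f s).im)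
      (Complex.imCLM.comp ((fderiv ℂ f t).restrictScalars ℝ)) t :=
    Complex.imCLM.hasFDerivAt.comp t h1
  have h3 : HasFDerivAt (fun s => (f s).im) (0 : (Fin d → ℂ) →L[ℝ] ℝ) t :=
    (hasFDerivAt_const (0 : ℝ) t).congr_of_eventuallyEq h
  have h4 := h2.unique h3
  have h5 : ∀ v, (fderiv ℂ f t v).im = 0 := fun v => by
    have h6 := DFunLike.congr_fun h4 v
    simpa using h6
  refine ContinuousLinearMap.ext fun v => Complex.ext ?_ (h5 v)
  have h7 := h5 (Complex.I • v)
  rw [map_smul, smul_eq_mul, Complex.mul_im, Complex.I_re, Complex.I_im, zero_mul, one_mul,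
    zero_add] at h7
  rw [h7]
  rfl

theorem det_diff {d m : ℕ} {M : (Fin d → ℂ) → Matrix (Fin m) (Fin m) ℂ} {t : Fin d → ℂ}
    (h : ∀ i j, DifferentiableAt ℂ (fun s => M s i j) t) :
    DifferentiableAt ℂ (fun s => (M s).det) t := by
  simp only [Matrix.det_apply]
  refine DifferentiableAt.fun_sum fun σ _ => ?_
  have h1 : DifferentiableAt ℂ (fun s => ∏ i, M s (σ i) i) t :=
    (HasFDerivAt.finsetProd (g := fun i s => M s (σ i) i)
      fun i _ => (h (σ i) i).hasFDerivAt).differentiableAt
  exact h1.const_smul _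

/-- the matrix of the derivatives of all functions but the first -/
noncomputable def mA {d : ℕ} (f : (Fin d → ℂ) → Fin (d + 1) → ℂ) (t : Fin d → ℂ) :
    Matrix (Fin d) (Fin d) ℂ :=
  Matrix.of fun j i : Fin d => fderiv ℂ f t (Pi.single i 1) j.succ

/-- the derivatives of the first function -/
noncomputable def vb {d : ℕ} (f : (Fin d → ℂ) → Fin (d + 1) → ℂ) (t : Fin d → ℂ) : Fin d → ℂ :=
  fun i => fderiv ℂ f t (Pi.single i 1) 0

/-- the coefficients of the relation -/
noncomputable def be {d : ℕ} (f : (Fin d → ℂ) → Fin (d + 1) → ℂ) (t : Fin d → ℂ) : Fin d → ℂ :=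
  fun j => ((mA f t).det)⁻¹ * Matrix.cramer (mA f t).transpose (vb f t) j

theorem be_rel {d : ℕ} {f : (Fin d → ℂ) → Fin (d + 1) → ℂ} {t : Fin d → ℂ}
    (h : (mA f t).det ≠ 0) (i : Fin d) :
    ∑ j, be f t j * fderiv ℂ f t (Pi.single i 1) j.succ = fderiv ℂ f t (Pi.single i 1) 0 := by
  have h1 := congrFun (Matrix.mulVec_cramer (mA f t).transpose (vb f t)) i
  rw [Matrix.det_transpose] at h1
  have h2 : ∑ j, mA f t j i * Matrix.cramer (mA f t).transpose (vb f t) j =
      (mA f t).det * vb f t i := h1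
  have h3 : vb f t i = ((mA f t).det)⁻¹ * ((mA f t).det * vb f t i) := by
    rw [← mul_assoc, inv_mul_cancel₀ h, one_mul]
  change _ = vb f t i
  rw [h3, ← h2, Finset.mul_sum]
  refine Finset.sum_congr rfl fun j _ => ?_
  change ((mA f t).det)⁻¹ * Matrix.cramer (mA f t).transpose (vb f t) j * mA f t j i = _
  ring

theorem entry_diff {d : ℕ} {U : Set (Fin d → ℂ)} {f : (Fin d → ℂ) → Fin (d + 1) → ℂ}
    (hf : AnalyticOnNhd ℂ f U) {t : Fin d → ℂ} (ht : t ∈ U) (v : Fin d → ℂ) (j : Fin (d + 1)) :
    DifferentiableAt ℂ (fun s => fderiv ℂ f s v j) t := by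
  have h1 : DifferentiableAt ℂ (fderiv ℂ f) t := (hf.fderiv t ht).differentiableAt
  have h2 : DifferentiableAt ℂ (fun s => fderiv ℂ f s v) t :=
    h1.clm_apply (differentiableAt_const v)
  exact differentiableAt_pi.1 h2 j

theorem be_diff {d : ℕ} {U : Set (Fin d → ℂ)} {f : (Fin d → ℂ) → Fin (d + 1) → ℂ}
    (hf : AnalyticOnNhd ℂ f U) {t : Fin d → ℂ} (ht : t ∈ U) (h : (mA f t).det ≠ 0) (j : Fin d) :
    DifferentiableAt ℂ (fun s => be f s j) t := by
  refine DifferentiableAt.mul (DifferentiableAt.inv (det_diff fun i k => ?_) h) ?_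
  · exact entry_diff hf ht _ _
  · simp only [Matrix.cramer_apply]
    refine det_diff fun i k => ?_
    by_cases hk : k = j
    · subst hk
      simp only [Matrix.updateCol_self]
      exact entry_diff hf ht _ _
    · simp only [Matrix.updateCol_ne hk]
      exact entry_diff hf ht _ _

end TpHol

/-- real-valued holomorphic functions have zero derivative -/
theorem real_hol {d : ℕ} {U : Set (Fin d → ℂ)} (hU : IsOpen U) {f : (Fin d → ℂ) → ℂ}
    (hf : AnalyticOnNhd ℂ f U) (h : ∀ t ∈ U, (f t).im = 0) : ∀ t ∈ U, fderiv ℂ f t = 0 :=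
  fun t ht => TpHol.real_core (hf t ht).differentiableAt
    ((hU.mem_nhds ht |> fun hs => Filter.mem_of_superset hs fun s hs' => h s hs'))

open TpHol in
/-- if the relation between the derivatives is also a relation between the real parts, it is a
relation with constant real coefficients -/
theorem exists_real_rel {d : ℕ} {U : Set (Fin d → ℂ)} (hU : IsOpen U) (hc : IsPreconnected U)
    (hne : U.Nonempty) (f : (Fin d → ℂ) → Fin (d + 1) → ℂ) (hf : AnalyticOnNhd ℂ f U)
    (hdet : ∀ t ∈ U, (Matrix.of fun j i : Fin d => fderiv ℂ f t (Pi.single i 1) j.succ).det ≠ 0)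
    (h : ∀ t ∈ U, ∀ κ : Fin (d + 1) → ℂ,
      (∀ i, ∑ j, κ j * fderiv ℂ f t (Pi.single i 1) j = 0) →
        ∑ j, κ j * ((f t j).re : ℂ) = 0) :
    ∃ r : Fin (d + 1) → ℝ, r 0 = 1 ∧
      ∀ t ∈ U, ∀ i, ∑ j, (r j : ℂ) * fderiv ℂ f t (Pi.single i 1) j = 0 := by
  have hdet' : ∀ t ∈ U, (mA f t).det ≠ 0 := hdet
  -- the relation between the real parts
  have hH : ∀ t ∈ U, ((f t 0).re : ℂ) - ∑ j : Fin d, be f t j * ((f t j.succ).re : ℂ) = 0 := by
    intro t ht
    have h1 := h t ht (Fin.cons 1 fun j => -be f t j) fun i => by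
      rw [Fin.sum_univ_succ]
      simp only [Fin.cons_zero, Fin.cons_succ, one_mul, neg_mul, Finset.sum_neg_distrib]
      rw [be_rel (hdet' t ht), add_neg_cancel]
    rw [Fin.sum_univ_succ] at h1
    simp only [Fin.cons_zero, Fin.cons_succ, one_mul, neg_mul, Finset.sum_neg_distrib] at h1
    rw [sub_eq_add_neg]
    exact h1
  -- its derivatives
  have hD : ∀ t ∈ U, ∀ v : Fin d → ℂ, ((fderiv ℂ f t v 0).re : ℂ) -
      ∑ j : Fin d, (fderiv ℂ (fun s => be f s j) t v * ((f t j.succ).re : ℂ) +
        be f t j * ((fderiv ℂ f t v j.succ).re : ℂ)) = 0 := by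
    intro t ht v
    have hfr : ∀ k : Fin (d + 1), HasFDerivAt (fun s => ((f s k).re : ℂ))
        (Complex.ofRealCLM.comp (Complex.reCLM.comp
          (((ContinuousLinearMap.proj (R := ℂ) (φ := fun _ : Fin (d + 1) => ℂ) k).comp
            (fderiv ℂ f t)).restrictScalars ℝ))) t := by
      intro k
      have h1 : HasFDerivAt (fun s => f s k)
          ((ContinuousLinearMap.proj (R := ℂ) (φ := fun _ : Fin (d + 1) => ℂ) k).comp
            (fderiv ℂ f t)) t :=
        (hasFDerivAt_pi'.1 (hf t ht).differentiableAt.hasFDerivAt) k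
      exact Complex.ofRealCLM.hasFDerivAt.comp t
        (Complex.reCLM.hasFDerivAt.comp t (h1.restrictScalars ℝ))
    have hbr : ∀ j : Fin d, HasFDerivAt (fun s => be f s j)
        ((fderiv ℂ (fun s => be f s j) t).restrictScalars ℝ) t := fun j =>
      (be_diff hf ht (hdet' t ht) j).hasFDerivAt.restrictScalars ℝ
    have h2 := (hfr 0).sub (HasFDerivAt.fun_sum (u := Finset.univ)
      fun j _ => (hbr j).mul (hfr j.succ))
    have h3 : HasFDerivAt (fun s => ((f s 0).re : ℂ) -
        ∑ j : Fin d, be f s j * ((f s j.succ).re : ℂ)) (0 : (Fin d → ℂ) →L[ℝ] ℂ) t :=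
      (hasFDerivAt_const (0 : ℂ) t).congr_of_eventuallyEq
        (Filter.mem_of_superset (hU.mem_nhds ht) fun s hs => hH s hs)
    have h4 := DFunLike.congr_fun (h2.unique h3) v
    simp only [sub_apply, sum_apply, add_apply, smul_apply,
      ContinuousLinearMap.comp_apply, ContinuousLinearMap.coe_restrictScalars',
      ContinuousLinearMap.proj_apply, Complex.reCLM_apply, Complex.ofRealCLM_apply, smul_eq_mul,
      zero_apply] at h4
    rw [← h4]
    congr 1
    refine Finset.sum_congr rfl fun j _ => ?_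
    ring
  -- the coefficients are real
  have hreal : ∀ t ∈ U, ∀ j, (be f t j).im = 0 := by
    intro t ht
    have h1 : ∀ i, ∑ j : Fin d, (be f t j - (starRingEnd ℂ) (be f t j)) * mA f t j i = 0 := by
      intro i
      have hv := hD t ht (Pi.single i 1)
      have hiv := hD t ht (Complex.I • Pi.single i 1)
      simp only [map_smul, smul_eq_mul, Pi.smul_apply, Complex.mul_re, Complex.I_re,
        Complex.I_im, zero_mul, one_mul, zero_sub] at hiv
      have h2 : (starRingEnd ℂ) (fderiv ℂ f t (Pi.single i 1) 0) =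
          ∑ j : Fin d, be f t j * (starRingEnd ℂ) (fderiv ℂ f t (Pi.single i 1) j.succ) := by
        have h3 : ∀ z : ℂ, (starRingEnd ℂ) z = (z.re : ℂ) - Complex.I * (z.im : ℂ) := fun z =>
          Complex.ext (by simp) (by simp)
        have h4 : ∑ j : Fin d, be f t j * (starRingEnd ℂ) (fderiv ℂ f t (Pi.single i 1) j.succ) =
            ∑ j : Fin d, (fderiv ℂ (fun s => be f s j) t (Pi.single i 1) * ((f t j.succ).re : ℂ) +
              be f t j * ((fderiv ℂ f t (Pi.single i 1) j.succ).re : ℂ)) + Complex.I *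
            ∑ j : Fin d, (Complex.I * fderiv ℂ (fun s => be f s j) t (Pi.single i 1) *
              ((f t j.succ).re : ℂ) +
              be f t j * ((-(fderiv ℂ f t (Pi.single i 1) j.succ).im : ℝ) : ℂ)) := by
          rw [Finset.mul_sum, ← Finset.sum_add_distrib]
          refine Finset.sum_congr rfl fun j _ => ?_
          rw [h3]
          push_cast
          linear_combination (-(fderiv ℂ (fun s => be f s j) t (Pi.single i 1)) *
            ((f t j.succ).re : ℂ)) * Complex.I_mul_I
        rw [h4, ← sub_eq_zero.1 hv, ← sub_eq_zero.1 hiv, h3]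
        push_cast
        ring
      have h5 := congrArg (starRingEnd ℂ) h2
      rw [map_sum, Complex.conj_conj] at h5
      simp only [map_mul, Complex.conj_conj] at h5
      have h6 := be_rel (hdet' t ht) i
      simp only [sub_mul, Finset.sum_sub_distrib]
      change ∑ j, be f t j * fderiv ℂ f t (Pi.single i 1) j.succ -
        ∑ j, (starRingEnd ℂ) (be f t j) * fderiv ℂ f t (Pi.single i 1) j.succ = 0
      rw [h6, ← h5, sub_self]
    have h7 : (fun j => be f t j - (starRingEnd ℂ) (be f t j)) = 0 := by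
      refine Matrix.eq_zero_of_vecMul_eq_zero (hdet' t ht) ?_
      funext i
      exact h1 i
    intro j
    have h8 := congrFun h7 j
    exact Complex.conj_eq_iff_im.1 (sub_eq_zero.1 h8).symm
  -- so they are constant
  obtain ⟨t0, ht0⟩ := hne
  have hconst : ∀ t ∈ U, ∀ j, be f t j = be f t0 j := by
    intro t ht j
    refine hU.is_const_of_fderiv_eq_zero hc
      (fun s hs => (be_diff hf hs (hdet' s hs) j).differentiableWithinAt) (fun s hs => ?_) ht ht0
    exact real_core (be_diff hf hs (hdet' s hs) j)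
      (Filter.mem_of_superset (hU.mem_nhds hs) fun u hu => hreal u hu j)
  refine ⟨Fin.cons 1 fun j => -(be f t0 j).re, rfl, fun t ht i => ?_⟩
  rw [Fin.sum_univ_succ]
  simp only [Fin.cons_zero, Fin.cons_succ, Complex.ofReal_one, one_mul, Complex.ofReal_neg,
    neg_mul, Finset.sum_neg_distrib]
  rw [← be_rel (hdet' t ht) i, add_neg_eq_zero]
  refine Finset.sum_congr rfl fun j _ => ?_
  rw [hconst t ht j]
  congr 1
  exact Complex.ext (by simp) (by simpa using hreal t0 ht0 j)

end Pool.Agent.SD
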