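import Mathlib

set_option autoImplicit false

/-! Project SD (MP_c95b3b_ag), part T', module LI: a change of the basis. -/

namespace Pool.Agent.SD

theorem exists_rows {d : ℕ} (J : Fin (d + 1) → Fin d → ℂ) (κ : Fin (d + 1) → ℂ)
    (hker : ∀ u : Fin (d + 1) → ℂ, (∀ i, ∑ j, u j * J j i = 0) → ∃ c : ℂ, u = c • κ)
    (ℓ : Fin (d + 1) → ℝ) (hℓ : ∑ j, κ j * (ℓ j : ℂ) ≠ 0) :
    ∃ C : Fin d → Fin (d + 1) → ℝ, (∀ k, ∑ j, C k j * ℓ j = 0) ∧
      (Matrix.of fun k i : Fin d => ∑ j, (C k j : ℂ) * J j i).det ≠ 0 := by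
  classical
  -- the linear form
  let L : (Fin (d + 1) → ℝ) →ₗ[ℝ] ℝ :=
    { toFun := fun x => ∑ j, x j * ℓ j
      map_add' := fun x y => by
        rw [← Finset.sum_add_distrib]
        exact Finset.sum_congr rfl fun j _ => by rw [Pi.add_apply, add_mul]
      map_smul' := fun c x => by
        rw [RingHom.id_apply, smul_eq_mul, Finset.mul_sum]
        exact Finset.sum_congr rfl fun j _ => by rw [Pi.smul_apply, smul_eq_mul, mul_assoc] }
  have hLapp : ∀ x, L x = ∑ j, x j * ℓ j := fun _ => rfl
  have hL0 : L ≠ 0 := by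
    intro h
    apply hℓ
    refine Finset.sum_eq_zero fun j _ => ?_
    have h1 : L (Pi.single j 1) = 0 := by rw [h]; rfl
    rw [hLapp, Finset.sum_eq_single j] at h1
    · rw [Pi.single_eq_same, one_mul] at h1
      rw [h1, Complex.ofReal_zero, mul_zero]
    · intro b _ hb
      rw [Pi.single_eq_of_ne hb, zero_mul]
    · intro hj
      exact absurd (Finset.mem_univ j) hj
  have hrange : Module.finrank ℝ (LinearMap.range L) = 1 := by
    have h1 : LinearMap.range L = ⊤ := by
      rw [LinearMap.range_eq_top]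
      exact LinearMap.surjective_of_ne_zero hL0
    rw [h1, finrank_top, Module.finrank_self]
  have hker' : Module.finrank ℝ (LinearMap.ker L) = d := by
    have h1 := LinearMap.finrank_range_add_finrank_ker L
    rw [hrange, Module.finrank_fin_fun] at h1
    omega
  let bs := Module.finBasisOfFinrankEq ℝ (LinearMap.ker L) hker'
  refine ⟨fun k => (bs k : Fin (d + 1) → ℝ), fun k => ?_, ?_⟩
  · have h1 : L (bs k : Fin (d + 1) → ℝ) = 0 := (bs k).2
    rw [hLapp] at h1
    exact h1
  · intro hdet
    obtain ⟨v, hv0, hv⟩ := Matrix.exists_vecMul_eq_zero_iff.2 hdet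
    set w : Fin (d + 1) → ℂ := fun j => ∑ k, v k * (((bs k : Fin (d + 1) → ℝ) j : ℝ) : ℂ) with hw
    have h1 : ∀ i, ∑ j, w j * J j i = 0 := by
      intro i
      have h2 := congrFun hv i
      rw [Matrix.vecMul, dotProduct, Pi.zero_apply] at h2
      simp only [Matrix.of_apply] at h2
      rw [← h2]
      simp only [hw, Finset.sum_mul, Finset.mul_sum]
      rw [Finset.sum_comm]
      refine Finset.sum_congr rfl fun k _ => Finset.sum_congr rfl fun j _ => by ring
    obtain ⟨c, hc⟩ := hker w h1
    have h2 : ∑ j, w j * (ℓ j : ℂ) = 0 := by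
      simp only [hw, Finset.sum_mul]
      rw [Finset.sum_comm]
      refine Finset.sum_eq_zero fun k _ => ?_
      have h3 : L (bs k : Fin (d + 1) → ℝ) = 0 := (bs k).2
      rw [hLapp] at h3
      have h4 : ∑ j, (((bs k : Fin (d + 1) → ℝ) j : ℝ) : ℂ) * (ℓ j : ℂ) = 0 := by
        have h5 := congrArg (fun r : ℝ => (r : ℂ)) h3
        simp only [Complex.ofReal_sum, Complex.ofReal_mul, Complex.ofReal_zero] at h5
        exact h5
      have h6 : ∑ j, v k * (((bs k : Fin (d + 1) → ℝ) j : ℝ) : ℂ) * (ℓ j : ℂ)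
          = v k * ∑ j, (((bs k : Fin (d + 1) → ℝ) j : ℝ) : ℂ) * (ℓ j : ℂ) := by
        rw [Finset.mul_sum]
        exact Finset.sum_congr rfl fun j _ => by ring
      rw [h6, h4, mul_zero]
    have hc0 : c = 0 := by
      have h3 : ∑ j, w j * (ℓ j : ℂ) = c * ∑ j, κ j * (ℓ j : ℂ) := by
        rw [hc, Finset.mul_sum]
        exact Finset.sum_congr rfl fun j _ => by
          rw [Pi.smul_apply, smul_eq_mul, mul_assoc]
      rw [h2] at h3
      rcases mul_eq_zero.1 h3.symm with h4 | h4
      · exact h4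
      · exact absurd h4 hℓ
    have hw0 : ∀ j, ∑ k, v k * (((bs k : Fin (d + 1) → ℝ) j : ℝ) : ℂ) = 0 := by
      intro j
      have h3 := congrFun hc j
      rw [hc0, zero_smul] at h3
      exact h3
    have hli : LinearIndependent ℝ (fun k => (bs k : Fin (d + 1) → ℝ)) :=
      bs.linearIndependent.map' (LinearMap.ker L).subtype (Submodule.ker_subtype _)
    rw [Fintype.linearIndependent_iff] at hli
    have hre : ∀ k, (v k).re = 0 := by
      apply hli (fun k => (v k).re)
      ext j
      have h3 := congrArg Complex.re (hw0 j)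
      rw [Complex.re_sum, Complex.zero_re] at h3
      rw [Finset.sum_apply, Pi.zero_apply, ← h3]
      refine Finset.sum_congr rfl fun k _ => ?_
      rw [Pi.smul_apply, smul_eq_mul, Complex.re_mul_ofReal]
    have him : ∀ k, (v k).im = 0 := by
      apply hli (fun k => (v k).im)
      ext j
      have h3 := congrArg Complex.im (hw0 j)
      rw [Complex.im_sum, Complex.zero_im] at h3
      rw [Finset.sum_apply, Pi.zero_apply, ← h3]
      refine Finset.sum_congr rfl fun k _ => ?_
      rw [Pi.smul_apply, smul_eq_mul, Complex.im_mul_ofReal]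
    apply hv0
    funext k
    exact Complex.ext (hre k) (him k)

end Pool.Agent.SD
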