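import Mathlib
import Pool.Agent.Lib.MP_c95b3b_ag_SD.TpHol
import Pool.Agent.Lib.MP_c95b3b_ag_SD.TpLin
import Pool.Agent.Lib.MP_c95b3b_ag_SD.GenPt
import Pool.Agent.Lib.MP_c95b3b_ag_SD.LinAx
import Pool.Agent.Lib.MP_c95b3b_ag_SD.Sel

set_option autoImplicit false

/-! Project SD (MP_c95b3b_ag), part T', module PO: a point on `d` of `d + 1` conditions. -/

namespace Pool.Agent.SD

open MvPolynomial Filter Topology Module

namespace TpPt

/-- real combinations of vectors and real linear functions -/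
theorem comb_real {ι : Type} [Fintype ι] {n : ℕ} (C : ι → ℝ) (u : ι → Fin n → ℝ)
    (g : Fin n → ℝ) :
    ∑ l, (∑ j, C j • u j) l * g l = ∑ j, C j * ∑ l, u j l * g l := by
  simp only [Finset.sum_apply, Pi.smul_apply, smul_eq_mul, Finset.sum_mul, Finset.mul_sum]
  rw [Finset.sum_comm]
  exact Finset.sum_congr rfl fun j _ => Finset.sum_congr rfl fun l _ => by ring

/-- real combinations of vectors and complex linear functions -/
theorem comb_complex {ι : Type} [Fintype ι] {n : ℕ} (C : ι → ℝ) (u : ι → Fin n → ℝ)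
    (g : Fin n → ℂ) :
    ∑ l, (((∑ j, C j • u j) l : ℝ) : ℂ) * g l = ∑ j, (C j : ℂ) * ∑ l, (u j l : ℂ) * g l := by
  simp only [Finset.sum_apply, Pi.smul_apply, smul_eq_mul, Finset.sum_mul, Finset.mul_sum,
    Complex.ofReal_sum, Complex.ofReal_mul]
  rw [Finset.sum_comm]
  exact Finset.sum_congr rfl fun j _ => Finset.sum_congr rfl fun l _ => by ring

/-- the left kernel of a matrix with `d + 1` rows, the last `d` of which are independent -/
theorem left_kernel {d : ℕ} (J : Fin (d + 1) → Fin d → ℂ)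
    (hdet : (Matrix.of fun j i : Fin d => J j.succ i).det ≠ 0) (w : Fin (d + 1) → ℂ)
    (hw : ∀ i, ∑ j, w j * J j i = 0) (h0 : w 0 = 0) : w = 0 := by
  classical
  have h1 : Matrix.vecMul (fun j : Fin d => w j.succ)
      (Matrix.of fun j i : Fin d => J j.succ i) = 0 := by
    funext i
    have h2 := hw i
    rw [Fin.sum_univ_succ, h0, zero_mul, zero_add] at h2
    exact h2
  have h2 : (fun j : Fin d => w j.succ) = 0 := by
    by_contra hne
    exact hdet (Matrix.exists_vecMul_eq_zero_iff.1 ⟨_, hne, h1⟩)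
  funext j
  refine Fin.cases h0 (fun i => ?_) j
  exact congrFun h2 i

end TpPt

section
variable {L : Type} [Field L] [Algebra ℂ L] {n : ℕ} {x : Fin n → L}

/-- a real vector whose form is zero -/
theorem om_real_ne (hx : ∀ i, x i ≠ 0) (hcos : ∀ a : Fin n → ℤ, a ≠ 0 → om x (rv a) ≠ 0)
    (b : Fin n → ℝ) (hb : b ≠ 0) : om x b ≠ 0 := by
  intro h0
  obtain ⟨Λ, -, -, h2, h3⟩ := lin_ax x hx (Submodule.span ℝ {b})
  have hsp : Submodule.span L (om x '' (Submodule.span ℝ {b} : Set (Fin n → ℝ))) = ⊥ := by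
    rw [Submodule.span_eq_bot]
    rintro _ ⟨c, hc, rfl⟩
    obtain ⟨r, rfl⟩ := Submodule.mem_span_singleton.1 hc
    rw [om_smul, h0, smul_zero]
  have hrk : rk x (Submodule.span ℝ {b} : Set (Fin n → ℝ)) = 0 := by
    rw [rk, hsp, finrank_bot]
  have hf : finrank ℝ (Submodule.span ℝ {b} : Submodule ℝ (Fin n → ℝ)) = 1 :=
    finrank_span_singleton hb
  have hs : Submodule.span ℝ (rv '' (Λ : Set (Fin n → ℤ))) = ⊥ := by
    rw [Submodule.span_eq_bot]
    rintro _ ⟨a, ha, rfl⟩
    have h4 := h2 a ha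
    rw [hsp, Submodule.mem_bot] at h4
    by_contra hne
    exact hcos a (fun h => hne (by rw [h, rv_zero])) h4
  rw [hrk, hf, hs, inf_bot_eq, finrank_bot] at h3
  omega

theorem exists_pt_V (hx : ∀ i, x i ≠ 0) (hcos : ∀ a : Fin n → ℤ, a ≠ 0 → om x (rv a) ≠ 0)
    {d : ℕ} (hd : dm x = d) {κ : Fin d → Fin n} {z0 : Fin n → ℂ}
    (hκ : AlgebraicIndependent ℂ (fun j => x (κ j)))
    (halg : ∀ i, IsAlgebraic (Algebra.adjoin ℂ (Set.range fun j => x (κ j))) (x i))
    (c : Chart x κ z0) (V : Submodule ℝ (Fin n → ℝ)) (hV : finrank ℝ V = d + 1)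
    (hr : rk x (V : Set (Fin n → ℝ)) = d) :
    ∃ (b : Fin d → Fin n → ℝ) (b' : Fin n → ℝ), (∀ j, b j ∈ V) ∧ b' ∈ V ∧
      ∃ t ∈ c.U, (jac b c.ψ t).det ≠ 0 ∧ (∀ j, ∑ l, b j l * Real.log ‖c.ψ t l‖ = 0) ∧
        0 < ∑ l, b' l * Real.log ‖c.ψ t l‖ := by
  classical
  -- a basis of `V`
  let v := Module.finBasisOfFinrankEq ℝ V hV
  have hspan : Submodule.span ℝ (Set.range fun j => (v j : Fin n → ℝ)) = V := by
    have h1 : (Set.range fun j => (v j : Fin n → ℝ)) = V.subtype '' Set.range v := by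
      rw [← Set.range_comp]
      rfl
    rw [h1, Submodule.span_image, v.span_eq, Submodule.map_top, Submodule.range_subtype]
  obtain ⟨e, he⟩ := exists_perm x (fun j => (v j : Fin n → ℝ)) (by rw [hspan]; exact hr)
  let e' : Equiv.Perm (Fin (d + 1)) := (finRotate (d + 1)).symm.trans e
  have he' : ∀ j : Fin d, e' j.succ = e j.castSucc := by
    intro j
    change e ((finRotate (d + 1)).symm j.succ) = e j.castSucc
    congr 1
    rw [Equiv.symm_apply_eq, finRotate_apply, Fin.coeSucc_eq_succ]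
  let u : Fin (d + 1) → Fin n → ℝ := fun j => (v (e' j) : Fin n → ℝ)
  have huV : ∀ j, u j ∈ V := fun j => (v (e' j)).2
  have huli : LinearIndependent ℝ u := by
    have h1 : LinearIndependent ℝ (fun j => (v j : Fin n → ℝ)) :=
      v.linearIndependent.map' V.subtype (Submodule.ker_subtype V)
    exact h1.comp e' e'.injective
  have huL : LinearIndependent L (fun j : Fin d => om x (u j.succ)) := by
    have h1 : (fun j : Fin d => om x (u j.succ)) =
        fun j : Fin d => om x ((v (e j.castSucc) : Fin n → ℝ)) := by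
      funext j
      change om x ((v (e' j.succ) : Fin n → ℝ)) = _
      rw [he']
    rw [h1]
    exact he
  -- a point where the Jacobian is not zero
  obtain ⟨t1, ht1, hdet1, -⟩ := exists_gen_pt hx hκ halg c (fun j => u j.succ) huL
  obtain ⟨ℓ, -, hℓ⟩ := exists_log (c.an t1 ht1) (c.on t1 ht1).1
  have hdetc : ∀ᶠ t in 𝓝 t1, (jac (fun j => u j.succ) c.ψ t).det ≠ 0 :=
    (jac_an c (fun j => u j.succ) t1 ht1).continuousAt.eventually_ne hdet1
  obtain ⟨ε, hε, hball⟩ := Metric.mem_nhds_iff.1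
    (Filter.inter_mem (Filter.inter_mem (c.isOpen.mem_nhds ht1) hdetc) hℓ)
  set U' : Set (Fin d → ℂ) := Metric.ball t1 ε with hU'
  have hU'open : IsOpen U' := Metric.isOpen_ball
  have hU'pre : IsPreconnected U' := (convex_ball t1 ε).isPreconnected
  have hU'ne : U'.Nonempty := ⟨t1, Metric.mem_ball_self hε⟩
  have hU'sub : U' ⊆ c.U := fun t ht => (hball ht).1.1
  have hdetU : ∀ t ∈ U', (jac (fun j => u j.succ) c.ψ t).det ≠ 0 := fun t ht => (hball ht).1.2
  have hℓU : ∀ t ∈ U', AnalyticAt ℂ ℓ t ∧ (∀ l, Complex.exp (ℓ t l) = c.ψ t l) ∧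
        (∀ l, (ℓ t l).re = Real.log ‖c.ψ t l‖) ∧
        ∀ w l, fderiv ℂ ℓ t w l = fderiv ℂ c.ψ t w l / c.ψ t l := fun t ht => (hball ht).2
  -- the functions
  let M : (Fin n → ℂ) →L[ℂ] (Fin (d + 1) → ℂ) := LinearMap.toContinuousLinearMap
    (Matrix.mulVecLin (Matrix.of fun (j : Fin (d + 1)) (l : Fin n) => ((u j l : ℝ) : ℂ)))
  have hM : ∀ (y : Fin n → ℂ) (j : Fin (d + 1)), M y j = ∑ l, ((u j l : ℝ) : ℂ) * y l :=
    fun _ _ => rfl
  let f : (Fin d → ℂ) → Fin (d + 1) → ℂ := fun t => M (ℓ t)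
  have hf : AnalyticOnNhd ℂ f U' := fun t ht =>
    (M.analyticAt (ℓ t)).comp (hℓU t ht).1
  have hfd : ∀ t ∈ U', ∀ w j, fderiv ℂ f t w j =
      ∑ l, ((u j l : ℝ) : ℂ) * (fderiv ℂ c.ψ t w l / c.ψ t l) := by
    intro t ht w j
    have h1 : HasFDerivAt f (M.comp (fderiv ℂ ℓ t)) t :=
      M.hasFDerivAt.comp t (hℓU t ht).1.differentiableAt.hasFDerivAt
    rw [h1.fderiv, ContinuousLinearMap.comp_apply, hM]
    exact Finset.sum_congr rfl fun l _ => by rw [(hℓU t ht).2.2.2]
  have hfre : ∀ t ∈ U', ∀ j, (f t j).re = ∑ l, u j l * Real.log ‖c.ψ t l‖ := by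
    intro t ht j
    change (M (ℓ t) j).re = _
    rw [hM, Complex.re_sum]
    refine Finset.sum_congr rfl fun l _ => ?_
    rw [Complex.re_ofReal_mul, (hℓU t ht).2.2.1]
  have hdetf : ∀ t ∈ U',
      (Matrix.of fun j i : Fin d => fderiv ℂ f t (Pi.single i 1) j.succ).det ≠ 0 := by
    intro t ht
    have h1 : (Matrix.of fun j i : Fin d => fderiv ℂ f t (Pi.single i 1) j.succ) =
        jac (fun j => u j.succ) c.ψ t := by
      ext j i
      exact hfd t ht (Pi.single i 1) j.succ
    rw [h1]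
    exact hdetU t ht
  by_cases hA : ∀ t ∈ U', ∀ κ' : Fin (d + 1) → ℂ,
      (∀ i, ∑ j, κ' j * fderiv ℂ f t (Pi.single i 1) j = 0) →
        ∑ j, κ' j * ((f t j).re : ℂ) = 0
  · -- a relation with constant coefficients
    exfalso
    obtain ⟨r, hr0, hrr⟩ := exists_real_rel hU'open hU'pre hU'ne f hf hdetf hA
    set bs : Fin n → ℝ := ∑ j, r j • u j with hbs
    have hbs0 : bs ≠ 0 := by
      intro h0
      have h1 := Fintype.linearIndependent_iff.1 huli r h0 0
      rw [hr0] at h1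
      exact one_ne_zero h1
    have hom : om x bs ≠ 0 := om_real_ne hx hcos bs hbs0
    obtain ⟨τ, w, hτ, hw, hli⟩ := Sel.exists_extend (fun _ : Unit => om x bs)
      (linearIndependent_unique_iff.2 hom) (om x '' Set.univ)
      (finite_span_om x Set.univ)
      (fun _ => Submodule.subset_span ⟨bs, Set.mem_univ _, rfl⟩)
    choose w' hw' hw'' using hw
    have hcard : Fintype.card (Unit ⊕ Fin τ) = d := by
      have h1 : finrank L (Submodule.span L (om x '' Set.univ)) = d := hd
      rw [h1, Fintype.card_unit] at hτ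
      simpa using hτ
    let e0 : Fin d ≃ Unit ⊕ Fin τ := (Fintype.equivFinOfCardEq hcard).symm
    let B : Fin d → Fin n → ℝ := fun j => Sum.elim (fun _ => bs) w' (e0 j)
    have hB : LinearIndependent L (fun j => om x (B j)) := by
      have h1 : (fun j => om x (B j)) = (Sum.elim (fun _ : Unit => om x bs) w) ∘ e0 := by
        funext j
        change om x (Sum.elim (fun _ => bs) w' (e0 j)) = Sum.elim (fun _ => om x bs) w (e0 j)
        rcases e0 j with k | k
        · rfl
        · exact hw'' k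
      rw [h1]
      exact hli.comp e0 e0.injective
    obtain ⟨t, ht, hdet⟩ := jac_ne hx hκ halg c B hB U' hU'open hU'sub hU'ne
    refine hdet (Matrix.det_eq_zero_of_row_eq_zero (e0.symm (Sum.inl ())) fun i => ?_)
    have h1 : B (e0.symm (Sum.inl ())) = bs := by
      change Sum.elim (fun _ => bs) w' (e0 (e0.symm (Sum.inl ()))) = bs
      rw [e0.apply_symm_apply]
      rfl
    change ∑ l, ((B (e0.symm (Sum.inl ())) l : ℝ) : ℂ) *
      (fderiv ℂ c.ψ t (Pi.single i 1) l / c.ψ t l) = 0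
    rw [h1, hbs, TpPt.comb_complex, ← hrr t ht i]
    exact Finset.sum_congr rfl fun j _ => by rw [hfd t ht]
  · -- a point
    push Not at hA
    obtain ⟨t, ht, κ', hκ', hne⟩ := hA
    have hκ0 : κ' 0 ≠ 0 := by
      intro h0
      have h1 := TpPt.left_kernel (fun j i => fderiv ℂ f t (Pi.single i 1) j) (hdetf t ht) κ'
        hκ' h0
      refine hne ?_
      rw [h1]
      simp
    have hker : ∀ w : Fin (d + 1) → ℂ,
        (∀ i, ∑ j, w j * fderiv ℂ f t (Pi.single i 1) j = 0) → ∃ c : ℂ, w = c • κ' := by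
      intro w hw
      refine ⟨w 0 / κ' 0, ?_⟩
      have h1 := TpPt.left_kernel (fun j i => fderiv ℂ f t (Pi.single i 1) j) (hdetf t ht)
        (w - (w 0 / κ' 0) • κ') (fun i => ?_) ?_
      · exact sub_eq_zero.1 h1
      · simp only [Pi.sub_apply, Pi.smul_apply, smul_eq_mul, sub_mul, Finset.sum_sub_distrib]
        rw [hw i, zero_sub, neg_eq_zero]
        simp only [mul_assoc]
        rw [← Finset.mul_sum, hκ' i, mul_zero]
      · rw [Pi.sub_apply, Pi.smul_apply, smul_eq_mul, div_mul_cancel₀ _ hκ0, sub_self]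
    obtain ⟨C, hC, hCdet⟩ := exists_rows (fun j i => fderiv ℂ f t (Pi.single i 1) j) κ' hker
      (fun j => (f t j).re) hne
    refine ⟨fun k => ∑ j, C k j • u j, ∑ j, (f t j).re • u j,
      fun k => V.sum_mem fun j _ => V.smul_mem _ (huV j),
      V.sum_mem fun j _ => V.smul_mem _ (huV j), t, hU'sub ht, ?_, ?_, ?_⟩
    · have h1 : jac (fun k => ∑ j, C k j • u j) c.ψ t =
          Matrix.of fun k i : Fin d => ∑ j, (C k j : ℂ) * fderiv ℂ f t (Pi.single i 1) j := by
        ext k i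
        change ∑ l, (((∑ j, C k j • u j) l : ℝ) : ℂ) *
          (fderiv ℂ c.ψ t (Pi.single i 1) l / c.ψ t l) = _
        rw [TpPt.comb_complex]
        exact Finset.sum_congr rfl fun j _ => by rw [hfd t ht]
      rw [h1]
      exact hCdet
    · intro k
      rw [TpPt.comb_real, ← hC k]
      exact Finset.sum_congr rfl fun j _ => by rw [hfre t ht]
    · have h1 : ∑ l, (∑ j, (f t j).re • u j) l * Real.log ‖c.ψ t l‖ =
          ∑ j, (f t j).re * (f t j).re := by
        rw [TpPt.comb_real]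
        exact Finset.sum_congr rfl fun j _ => by rw [hfre t ht]
      rw [h1]
      obtain ⟨j, hj⟩ : ∃ j, (f t j).re ≠ 0 := by
        by_contra hall
        push Not at hall
        refine hne (Finset.sum_eq_zero fun j _ => ?_)
        rw [hall j, Complex.ofReal_zero, mul_zero]
      exact Finset.sum_pos' (fun j _ => mul_self_nonneg _)
        ⟨j, Finset.mem_univ _, mul_self_pos.2 hj⟩

end

end Pool.Agent.SD
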