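import Mathlib
import Pool.Agent.Lib.MP_c95b3b_ag_SD.TpPt
import Pool.Agent.Lib.MP_c95b3b_ag_SD.TpCount
import Pool.Agent.Lib.MP_c95b3b_ag_SD.ChartEx
import Pool.Agent.Lib.MP_c95b3b_ag_SD.Nst

set_option autoImplicit false

/-! Project SD (MP_c95b3b_ag), part T', module FA: many far points over the compact torus. -/

namespace Pool.Agent.SD

open MvPolynomial Filter Topology Module

namespace TpFar

/-- monomials of exponentials -/
theorem mn_exp {n : ℕ} (w : Fin n → ℂ) (v : Fin n → ℤ) :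
    mn (fun l => Complex.exp (w l)) v = Complex.exp (∑ l, (v l : ℂ) * w l) := by
  rw [Complex.exp_sum, mn]
  exact Finset.prod_congr rfl fun l _ => (Complex.exp_int_mul (w l) (v l)).symm

/-- injectivity of the derivative of the logarithms -/
theorem inj_of_det {n d : ℕ} (ψ : (Fin d → ℂ) → Fin n → ℂ) (t : Fin d → ℂ)
    (b : Fin d → Fin n → ℝ) (hdet : (jac b ψ t).det ≠ 0) (v : Fin d → ℂ)
    (hv : ∀ j, ∑ l, (b j l : ℂ) * (fderiv ℂ ψ t v l / ψ t l) = 0) : v = 0 := by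
  refine Matrix.eq_zero_of_mulVec_eq_zero hdet ?_
  funext j
  have hlin : fderiv ℂ ψ t v = ∑ i, v i • fderiv ℂ ψ t (Pi.single i 1) := by
    conv_lhs => rw [pi_eq_sum_univ' v]
    rw [map_sum]
    refine Finset.sum_congr rfl fun i _ => ?_
    rw [map_smul]
  rw [Pi.zero_apply, ← hv j]
  simp only [Matrix.mulVec, dotProduct, jac, hlin, Finset.sum_apply, Pi.smul_apply, smul_eq_mul,
    Finset.sum_div, Finset.mul_sum, Finset.sum_mul]
  rw [Finset.sum_comm]
  refine Finset.sum_congr rfl fun l _ => Finset.sum_congr rfl fun i _ => ?_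
  ring

/-- the forms of integral vectors near `M b` -/
theorem li_rv {L : Type} [Field L] [CharZero L] [Algebra ℂ L] {n d : ℕ} {x : Fin n → L}
    (a : Fin d → Fin n → ℤ) (M : ℕ) (hM : 0 < M)
    (h : LinearIndependent L (fun j => om x (fun l => (a j l : ℝ) / M))) :
    LinearIndependent L (fun j => om x (rv (a j))) := by
  have hM' : algebraMap ℂ L ((M : ℝ) : ℂ) ≠ 0 := by
    rw [Ne, map_eq_zero]
    exact_mod_cast hM.ne'
  have hw := h.units_smul (fun _ : Fin d => Units.mk0 (algebraMap ℂ L ((M : ℝ) : ℂ)) hM')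
  have he : (fun j => om x (rv (a j))) =
      ((fun _ : Fin d => Units.mk0 (algebraMap ℂ L ((M : ℝ) : ℂ)) hM') •
        fun j => om x (fun l => (a j l : ℝ) / M)) := by
    funext j
    show _ = (Units.mk0 (algebraMap ℂ L ((M : ℝ) : ℂ)) hM') • om x (fun l => (a j l : ℝ) / M)
    rw [Units.smul_def, Units.val_mk0, ← om_smul]
    have h2 : rv (a j) = (M : ℝ) • fun l => (a j l : ℝ) / M := by
      funext l
      have : (M : ℝ) ≠ 0 := by exact_mod_cast hM.ne'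
      simp only [rv, Pi.smul_apply, smul_eq_mul]
      field_simp
    rw [h2]
  rw [he]
  exact hw

end TpFar

open TpFar

theorem exists_far {L : Type} [Field L] [CharZero L] [Algebra ℂ L] {n : ℕ} {x : Fin n → L}
    (hx : ∀ i, x i ≠ 0) (hcos : ∀ a : Fin n → ℤ, a ≠ 0 → om x (rv a) ≠ 0)
    (V : Submodule ℝ (Fin n → ℝ)) (hV : finrank ℝ V = dm x + 1)
    (hr : rk x (V : Set (Fin n → ℝ)) = dm x) :
    ∃ (b : Fin (dm x) → Fin n → ℝ) (b' : Fin n → ℝ) (c : ℝ) (M0 : ℕ), (∀ j, b j ∈ V) ∧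
      b' ∈ V ∧ 0 < c ∧ ∀ M : ℕ, M0 ≤ M → ∀ (a : Fin (dm x) → Fin n → ℤ) (a' : Fin n → ℤ),
        (∀ i l, |(a i l : ℝ) - M * b i l| ≤ 1) → (∀ l, |(a' l : ℝ) - M * b' l| ≤ 1) →
        LinearIndependent L (fun j => om x (rv (a j))) ∧
        ∀ θ : Fin (dm x) → ℂ, (∀ i, ‖θ i‖ = 1) → ∃ Q : Finset (Fin n → ℂ),
          c * M ^ dm x ≤ Q.card ∧ ∀ z ∈ Q, OnY x z ∧ (∀ i, mn z (a i) = θ i) ∧
            c * M ≤ Real.log ‖mn z a'‖ := by
  classical
  obtain ⟨κ, -, hκ, halg⟩ := exists_kappa hx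
  obtain ⟨F0, hF0, hch⟩ := exists_chart x hx κ hκ halg
  obtain ⟨z0, hz0, hF0z⟩ := exists_pt x hx F0 hF0
  obtain ⟨c⟩ := hch z0 hz0 hF0z
  obtain ⟨b, b', hbV, hb'V, t1, ht1, hdet, h0, h1⟩ :=
    exists_pt_V hx hcos rfl hκ halg c V hV hr
  have hz1 : ∀ i, c.ψ t1 i ≠ 0 := (c.on t1 ht1).1
  obtain ⟨ℓ, hℓ, hev⟩ := exists_log (c.an t1 ht1) hz1
  have hU : {t | t ∈ c.U ∧ ∀ l, Complex.exp (ℓ t l) = c.ψ t l} ∈ 𝓝 t1 :=
    Filter.inter_mem (c.isOpen.mem_nhds ht1) (hev.mono fun t h => h.2.1)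
  have hself := hev.self_of_nhds
  have hinj : ∀ v : Fin (dm x) → ℂ,
      (∀ i, ∑ l, (b i l : ℂ) * fderiv ℂ ℓ t1 v l = 0) → v = 0 := by
    intro v h2
    refine inj_of_det c.ψ t1 b hdet v fun j => ?_
    have hrw : ∀ l, fderiv ℂ c.ψ t1 v l / c.ψ t1 l = fderiv ℂ ℓ t1 v l := fun l =>
      (hself.2.2.2 v l).symm
    simp only [hrw]
    exact h2 j
  have h0' : ∀ i, ∑ l, b i l * (ℓ t1 l).re = 0 := by
    intro i
    rw [← h0 i]
    exact Finset.sum_congr rfl fun l _ => by rw [hself.2.2.1 l]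
  have h1' : 0 < ∑ l, b' l * (ℓ t1 l).re := by
    have h2 : ∑ l, b' l * (ℓ t1 l).re = ∑ l, b' l * Real.log ‖c.ψ t1 l‖ :=
      Finset.sum_congr rfl fun l _ => by rw [hself.2.2.1 l]
    rw [h2]
    exact h1
  obtain ⟨c0, hc0, M0, hM0⟩ := count_far t1 _ hU ℓ hℓ b b' hinj h0' h1'
  -- the determinants near `b`
  have hcont : Continuous fun u : Fin (dm x) → Fin n → ℝ => (jac u c.ψ t1).det := by
    refine Continuous.matrix_det ?_
    refine continuous_matrix fun j i => ?_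
    unfold jac
    refine continuous_finsetSum _ fun l _ => ?_
    exact (Complex.continuous_ofReal.comp ((continuous_apply l).comp
      (continuous_apply j))).mul continuous_const
  have hnear : ∀ᶠ u in 𝓝 b, (jac u c.ψ t1).det ≠ 0 :=
    hcont.continuousAt.eventually_ne hdet
  obtain ⟨ε, hε, hball⟩ := Metric.eventually_nhds_iff.1 hnear
  refine ⟨b, b', c0, max M0 (⌈1 / ε⌉₊ + 1), hbV, hb'V, hc0, fun M hM a a' ha ha' => ?_⟩
  have hM1 : M0 ≤ M := le_trans (le_max_left _ _) hM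
  have hM2 : ⌈1 / ε⌉₊ + 1 ≤ M := le_trans (le_max_right _ _) hM
  have hMpos : 0 < M := by omega
  have hMr : (0 : ℝ) < M := by exact_mod_cast hMpos
  have hMε : 1 / (M : ℝ) < ε := by
    have h1 : 1 / ε < M := by
      calc 1 / ε ≤ ⌈1 / ε⌉₊ := Nat.le_ceil _
        _ < (⌈1 / ε⌉₊ : ℝ) + 1 := by linarith
        _ ≤ M := by exact_mod_cast hM2
    rw [div_lt_iff₀ hε] at h1
    rw [div_lt_iff₀ hMr]
    linarith
  have hdist : dist (fun i l => (a i l : ℝ) / M) b < ε := by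
    rw [dist_pi_lt_iff hε]
    intro i
    rw [dist_pi_lt_iff hε]
    intro l
    rw [Real.dist_eq]
    refine lt_of_le_of_lt ?_ hMε
    have : (a i l : ℝ) / M - b i l = ((a i l : ℝ) - M * b i l) / M := by
      field_simp
    rw [this, abs_div, abs_of_pos hMr]
    exact div_le_div_of_nonneg_right (ha i l) hMr.le
  have hdet' := hball hdist
  have hliA : LinearIndependent L (fun j => om x (rv (a j))) := by
    refine li_rv a M hMpos ?_
    by_contra hcon
    exact hdet' (jac_eq hx hκ halg c _ hcon t1 ht1)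
  refine ⟨hliA, fun θ hθ => ?_⟩
  obtain ⟨Q, hQcard, hQ⟩ := hM0 M hM1 a a' ha ha' (fun i => Complex.arg (θ i))
  have hinjQ : Set.InjOn c.ψ (Q : Set (Fin (dm x) → ℂ)) := by
    intro t ht t' ht' h
    funext j
    rw [← c.coord t (hQ t ht).1.1 j, ← c.coord t' (hQ t' ht').1.1 j, h]
  refine ⟨Q.image c.ψ, ?_, ?_⟩
  · rw [Finset.card_image_of_injOn hinjQ]
    exact hQcard
  intro z hz
  obtain ⟨t, ht, rfl⟩ := Finset.mem_image.1 hz
  obtain ⟨⟨htU, hexp⟩, hk, hlog⟩ := hQ t ht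
  have e1 : c.ψ t = fun l => Complex.exp (ℓ t l) := funext fun l => (hexp l).symm
  refine ⟨c.on t htU, fun i => ?_, ?_⟩
  · obtain ⟨k, hk⟩ := hk i
    rw [e1, mn_exp, hk]
    have h3 : (((Complex.arg (θ i) + 2 * Real.pi * k : ℝ) : ℂ)) * Complex.I =
        (Complex.arg (θ i) : ℂ) * Complex.I + k * (2 * Real.pi * Complex.I) := by
      push_cast
      ring
    rw [h3, Complex.exp_add, Complex.exp_int_mul_two_pi_mul_I, mul_one]
    have h4 := Complex.norm_mul_exp_arg_mul_I (θ i)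
    rwa [hθ i, Complex.ofReal_one, one_mul] at h4
  · rw [e1, mn_exp, Complex.norm_exp, Real.log_exp, Complex.re_sum]
    refine hlog.trans (le_of_eq (Finset.sum_congr rfl fun l _ => ?_))
    rw [show ((a' l : ℤ) : ℂ) = (((a' l : ℤ) : ℝ) : ℂ) by push_cast; rfl, Complex.re_ofReal_mul]

end Pool.Agent.SD
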