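import Mathlib
import Pool.Agent.Lib.MP_c95b3b_ag_SD.TpDefs
import Pool.Agent.Lib.MP_c95b3b_ag_SD.Hilb
import Pool.Agent.Lib.MP_c95b3b_ag_SD.Eval
import Pool.Agent.Lib.MP_c95b3b_ag_SD.AdRel
import Pool.Agent.Lib.MP_c95b3b_ag_SD.Sel

set_option autoImplicit false

/-! Project SD (MP_c95b3b_ag), part T', module FI: bound for the fibres. -/

namespace Pool.Agent.SD

open MvPolynomial

namespace TpFib

section
variable {L : Type} [Field L] [CharZero L] [Algebra ℂ L] {n : ℕ} {x : Fin n → L}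

/-- the exponents of the monomials in `u`: small in the variable `i` -/
def Ks {m : ℕ} (i : Fin m) (D T : ℕ) : Finset (Fin m → ℕ) :=
  Fintype.piFinset fun j => if j = i then Finset.range D else Finset.range (T + 1)

theorem card_Ks {d : ℕ} (i : Fin (d + 1)) (D T : ℕ) : (Ks i D T).card = D * (T + 1) ^ d := by
  rw [Ks, Fintype.card_piFinset, Fin.prod_univ_succAbove _ i, if_pos rfl, Finset.card_range]
  congr 1
  rw [Finset.prod_congr rfl (g := fun _ => T + 1)]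
  · rw [Finset.prod_const, Finset.card_univ, Fintype.card_fin]
  · intro j _
    rw [if_neg (Fin.succAbove_ne i j), Finset.card_range]

theorem Ks_lt {m : ℕ} {i : Fin m} {D T : ℕ} {k : Fin m → ℕ} (hk : k ∈ Ks i D T) : k i < D := by
  have h := Fintype.mem_piFinset.1 hk i
  rwa [if_pos rfl, Finset.mem_range] at h

theorem Ks_le {m : ℕ} {i : Fin m} {D T : ℕ} {k : Fin m → ℕ} (hk : k ∈ Ks i D T) (j : Fin m)
    (hj : j ≠ i) : k j ≤ T := by
  have h := Fintype.mem_piFinset.1 hk j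
  rw [if_neg hj, Finset.mem_range] at h
  omega

/-- exponents as finitely supported functions -/
noncomputable def fs {m : ℕ} (k : Fin m → ℕ) : Fin m →₀ ℕ := Finsupp.equivFunOnFinite.symm k

theorem fs_apply {m : ℕ} (k : Fin m → ℕ) (j : Fin m) : fs k j = k j := rfl

theorem fs_injective {m : ℕ} : Function.Injective (fs : (Fin m → ℕ) → _) :=
  Finsupp.equivFunOnFinite.symm.injective

/-- the exponent of `x^e u^k` -/
def ev {m : ℕ} (γ : Fin m → Fin n → ℤ) (e : Fin n → ℤ) (k : Fin m → ℕ) : Fin n → ℤ :=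
  e + ∑ j, (k j : ℤ) • γ j

theorem abs_ev {d : ℕ} (γ : Fin (d + 1) → Fin n → ℤ) {R : ℕ} (hR : 1 ≤ R)
    (hγ : ∀ i l, |γ i l| ≤ (R : ℤ)) {m0 : ℕ} {e : Fin n → ℤ} {l : Fin n} (he : |e l| ≤ (m0 : ℤ))
    {i : Fin (d + 1)} {D T : ℕ} (hT : m0 + D ≤ T) {k : Fin (d + 1) → ℕ} (hk : k ∈ Ks i D T) :
    |ev γ e k l| ≤ (((d + 1) * (T * R) : ℕ) : ℤ) := by
  have h1 : ev γ e k l = e l + ∑ j, (k j : ℤ) * γ j l := by
    simp only [ev, Pi.add_apply, Finset.sum_apply, Pi.smul_apply, smul_eq_mul]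
  have h2 : |∑ j, (k j : ℤ) * γ j l| ≤ ∑ j, (k j : ℤ) * R := by
    refine (Finset.abs_sum_le_sum_abs _ _).trans (Finset.sum_le_sum fun j _ => ?_)
    rw [abs_mul, Nat.abs_cast]
    exact mul_le_mul_of_nonneg_left (hγ j l) (Nat.cast_nonneg _)
  have h3 : (∑ j, (k j : ℤ) * R) ≤ D * R + d * (T * R) := by
    rw [Fin.sum_univ_succAbove _ i]
    refine add_le_add ?_ ?_
    · refine mul_le_mul_of_nonneg_right ?_ (Nat.cast_nonneg _)
      exact_mod_cast (Ks_lt hk).le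
    · calc ∑ j : Fin d, (k (i.succAbove j) : ℤ) * R ≤ ∑ _j : Fin d, (T : ℤ) * R := by
            refine Finset.sum_le_sum fun j _ => ?_
            refine mul_le_mul_of_nonneg_right ?_ (Nat.cast_nonneg _)
            exact_mod_cast Ks_le hk _ (Fin.succAbove_ne i j)
        _ = d * (T * R) := by
            rw [Finset.sum_const, Finset.card_univ, Fintype.card_fin, nsmul_eq_mul]
  have h4 : ((m0 : ℤ) + D * R) ≤ T * R := by
    have h5 : (m0 : ℤ) + D ≤ T := by exact_mod_cast hT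
    have h6 : (1 : ℤ) ≤ R := by exact_mod_cast hR
    have h7 : (0 : ℤ) ≤ m0 := Nat.cast_nonneg _
    nlinarith
  calc |ev γ e k l| ≤ |e l| + |∑ j, (k j : ℤ) * γ j l| := by
        rw [h1]
        exact abs_add_le _ _
    _ ≤ m0 + (D * R + d * (T * R)) := add_le_add he (h2.trans h3)
    _ ≤ (((d + 1) * (T * R) : ℕ) : ℤ) := by
        push_cast
        linarith

theorem mn_ev {F : Type} [Field F] {z : Fin n → F} (hz : ∀ i, z i ≠ 0) {m : ℕ}
    (γ : Fin m → Fin n → ℤ) (e : Fin n → ℤ) (k : Fin m → ℕ) :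
    mn z (ev γ e k) = mn z e * ∏ j, mn z (γ j) ^ k j := by
  rw [ev, mn_add hz, mn_sum hz]
  congr 1
  exact Finset.prod_congr rfl fun j _ => by rw [mn_zsmul hz, zpow_natCast]

theorem lin_ind (hx : ∀ i, x i ≠ 0) {m : ℕ} (γ : Fin m → Fin n → ℤ)
    (F : MvPolynomial (Fin m) ℤ) (hF : ∀ G : MvPolynomial (Fin m) ℤ, aeval (mm γ x) G = 0 → F ∣ G)
    (ζ : Fin m → ℂ) (hζ : ∀ G : MvPolynomial (Fin m) ℤ, aeval ζ G = 0 → aeval (mm γ x) G = 0)
    (Q : Finset (Fin n → ℂ)) (hQ : ∀ z ∈ Q, OnY x z ∧ ∀ i, mn z (γ i) = ζ i)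
    (E : Finset (Fin n → ℤ)) (hE : ∀ c : (Fin n → ℤ) → ℂ,
      (∀ z ∈ Q, ∑ e ∈ E, c e * mn z e = 0) → ∀ e ∈ E, c e = 0) (i : Fin m) (T : ℕ) :
    LinearIndependent ℚ (fun q : E × Ks i (degreeOf i F) T => mn x (ev γ q.1 q.2)) := by
  classical
  rw [← LinearIndependent.iff_fractionRing ℤ ℚ, linearIndependent_iff']
  intro s g hg
  -- the relation at the points of the variety
  have hrel : ∀ z ∈ Q, ∑ q ∈ s, ((g q : ℤ) : ℂ) * (mn z q.1 *
      ∏ j, ζ j ^ (q.2 : Fin m → ℕ) j) = 0 := by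
    intro z hz
    obtain ⟨hzY, hzζ⟩ := hQ z hz
    have h1 := OnY.rel_mn hx hzY (ι := E ⊕ Fin m)
      (Sum.elim (fun e => e.1) γ)
      (∑ q ∈ s, C ((g q : ℤ) : ℂ) * (X (Sum.inl q.1) *
        ∏ j, X (Sum.inr j) ^ (q.2 : Fin m → ℕ) j)) (by
        rw [map_sum, ← hg]
        refine Finset.sum_congr rfl fun q _ => ?_
        rw [map_mul, map_mul, map_prod, aeval_X, algHom_C, map_intCast]
        simp only [map_pow, aeval_X, Sum.elim_inl, Sum.elim_inr]
        rw [mn_ev hx, zsmul_eq_mul])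
    rw [map_sum] at h1
    rw [← h1]
    refine Finset.sum_congr rfl fun q _ => ?_
    rw [map_mul, map_mul, map_prod, aeval_X, algHom_C, map_intCast]
    simp only [map_pow, aeval_X, Sum.elim_inl, Sum.elim_inr, hzζ]
  -- the coefficients of the monomials `x^e` vanish
  have hcoef : ∀ e0 ∈ E, ∑ q ∈ s with (q.1 : Fin n → ℤ) = e0, ((g q : ℤ) : ℂ) *
      ∏ j, ζ j ^ (q.2 : Fin m → ℕ) j = 0 := by
    refine hE (fun e0 => ∑ q ∈ s with (q.1 : Fin n → ℤ) = e0, ((g q : ℤ) : ℂ) *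
      ∏ j, ζ j ^ (q.2 : Fin m → ℕ) j) fun z hz => ?_
    rw [← hrel z hz, ← Finset.sum_fiberwise_of_maps_to (s := s) (t := E)
      (g := fun q => (q.1 : Fin n → ℤ)) (fun q _ => q.1.2)]
    refine Finset.sum_congr rfl fun e0 _ => ?_
    rw [Finset.sum_mul]
    refine Finset.sum_congr rfl fun q hq => ?_
    rw [← (Finset.mem_filter.1 hq).2]
    ring
  intro q hq
  -- the polynomial of `q.1`
  obtain ⟨H, hHdef⟩ : ∃ H : MvPolynomial (Fin m) ℤ,
      H = ∑ q' ∈ s with (q'.1 : Fin n → ℤ) = q.1, monomial (fs (q'.2 : Fin m → ℕ)) (g q') :=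
    ⟨_, rfl⟩
  have hH0 : aeval ζ H = 0 := by
    rw [hHdef, map_sum, ← hcoef q.1 q.1.2]
    refine Finset.sum_congr rfl fun q' _ => ?_
    rw [aeval_monomial, eq_intCast, Finsupp.prod_fintype _ _ (fun _ => pow_zero _)]
    rfl
  have hdvd : F ∣ H := hF H (hζ H hH0)
  have hH : H = 0 := by
    by_contra hne
    obtain ⟨G, hG⟩ := hdvd
    have hF0 : F ≠ 0 := by
      rintro rfl
      exact hne (by rw [hG, zero_mul])
    have hG0 : G ≠ 0 := by
      rintro rfl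
      exact hne (by rw [hG, mul_zero])
    have h1 : degreeOf i H = degreeOf i F + degreeOf i G := by
      rw [hG, degreeOf_mul_eq hF0 hG0]
    have h2 : degreeOf i H < degreeOf i F := by
      have hpos : 0 < degreeOf i F := lt_of_le_of_lt (Nat.zero_le _) (Ks_lt q.2.2)
      rw [degreeOf_lt_iff hpos]
      intro mo hmo
      rw [hHdef] at hmo
      obtain ⟨q', -, hq'⟩ := Finset.mem_biUnion.1 (support_sum hmo)
      have h3 := Finset.mem_singleton.1 (support_monomial_subset hq')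
      rw [h3, fs_apply]
      exact Ks_lt q'.2.2
    omega
  have hc := congrArg (coeff (fs (q.2 : Fin m → ℕ))) hH
  rw [hHdef, coeff_sum, coeff_zero, Finset.sum_eq_single q] at hc
  · rwa [coeff_monomial, if_pos rfl] at hc
  · intro q' hq' hne
    rw [coeff_monomial, if_neg]
    intro h
    refine hne (Prod.ext (Subtype.ext (Finset.mem_filter.1 hq').2)
      (Subtype.ext (fs_injective h)))
  · intro h
    refine (h ?_).elim
    exact Finset.mem_filter.2 ⟨hq, rfl⟩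

end

end TpFib

/-- (number of points in a fibre) * (degree of the relation) is at most `C R^d` -/
theorem fiber_bound {L : Type} [Field L] [CharZero L] [Algebra ℂ L] {n : ℕ} {x : Fin n → L}
    (hx : ∀ i, x i ≠ 0) (hAD : AD x) : ∃ C : ℕ, ∀ R : ℕ, 1 ≤ R →
      ∀ γ : Fin (dm x + 1) → Fin n → ℤ, (∀ i l, |γ i l| ≤ (R : ℤ)) →
      ∀ F : MvPolynomial (Fin (dm x + 1)) ℤ, Gtor (mm γ x) F → ∀ ζ : Fin (dm x + 1) → ℂ,
        (∀ G : MvPolynomial (Fin (dm x + 1)) ℤ, aeval ζ G = 0 → aeval (mm γ x) G = 0) →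
        ∀ Q : Finset (Fin n → ℂ), (∀ z ∈ Q, OnY x z ∧ ∀ i, mn z (γ i) = ζ i) →
          ∀ i, Q.card * degreeOf i F ≤ C * R ^ dm x := by
  classical
  obtain ⟨κ, hκ, -, -⟩ := exists_kappa hx
  have halg : ∀ i, IsAlgebraic
      (Algebra.adjoin ℚ (Set.range (mm (fun j => Pi.single (κ j) 1) x))) (x i) := by
    intro i
    have h1 := isAlgebraic_mn hx hAD hκ (Pi.single i 1)
      (mem_span_of_card x (fun j => rv (Pi.single (κ j) 1)) hκ (Fintype.card_fin _) _)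
    rwa [mn_single] at h1
  obtain ⟨C0, hC0⟩ := hilb_upper (k := ℚ) x hx (mm (fun j => Pi.single (κ j) 1) x) halg
  refine ⟨C0 * (dm x + 1) ^ dm x, ?_⟩
  intro R hR γ hγ F hF ζ hζ Q hQ i
  obtain ⟨E, hEcard, -, hE⟩ := exists_exps Q
  obtain ⟨m0, hm0⟩ : ∃ m0 : ℕ, ∀ e ∈ E, ∀ l, |e l| ≤ (m0 : ℤ) := by
    refine ⟨∑ e ∈ E, ∑ l, (e l).natAbs, fun e he l => ?_⟩
    rw [Int.abs_eq_natAbs, Nat.cast_le]
    exact (Finset.single_le_sum (f := fun l => (e l).natAbs) (fun _ _ => Nat.zero_le _)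
      (Finset.mem_univ l)).trans (Finset.single_le_sum
        (f := fun e : Fin n → ℤ => ∑ l, (e l).natAbs) (fun _ _ => Nat.zero_le _) he)
  obtain ⟨T, hT⟩ : ∃ T : ℕ, T = m0 + degreeOf i F + 1 := ⟨_, rfl⟩
  have hli := TpFib.lin_ind hx γ F hF.dvd ζ hζ Q hQ E hE i T
  have hR' : 1 ≤ (dm x + 1) * (T * R) := by
    have : 1 ≤ T := by omega
    exact Nat.one_le_iff_ne_zero.2 (by positivity)
  have h1 := hC0 _ hR'
  have hfin : (mn x '' {a : Fin n → ℤ | ∀ i, |a i| ≤ (((dm x + 1) * (T * R) : ℕ) : ℤ)}).Finite := by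
    refine Set.Finite.image _ ?_
    refine (Set.Finite.pi (ι := Fin n) (t := fun _ => Set.Icc
      (-(((dm x + 1) * (T * R) : ℕ) : ℤ)) (((dm x + 1) * (T * R) : ℕ) : ℤ))
      (fun _ => Set.finite_Icc _ _)).subset ?_
    intro a ha j _
    exact abs_le.1 (ha j)
  have hfd := FiniteDimensional.span_of_finite ℚ hfin
  have hsub : Submodule.span ℚ (Set.range (fun q : E × TpFib.Ks i (degreeOf i F) T =>
      mn x (TpFib.ev γ q.1 q.2))) ≤
      Submodule.span ℚ (mn x '' {a : Fin n → ℤ | ∀ i, |a i| ≤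
        (((dm x + 1) * (T * R) : ℕ) : ℤ)}) := by
    refine Submodule.span_mono ?_
    rintro _ ⟨q, rfl⟩
    exact ⟨_, fun l => TpFib.abs_ev γ hR hγ (hm0 q.1 q.1.2 l) (by omega) q.2.2, rfl⟩
  have h2 := Submodule.finrank_mono hsub
  rw [finrank_span_eq_card hli, Fintype.card_prod, Fintype.card_coe, Fintype.card_coe,
    TpFib.card_Ks, hEcard] at h2
  have h3 := h2.trans h1
  have h4 : Q.card * degreeOf i F * (T + 1) ^ dm x ≤
      C0 * (dm x + 1) ^ dm x * R ^ dm x * (T + 1) ^ dm x := by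
    calc Q.card * degreeOf i F * (T + 1) ^ dm x = Q.card * (degreeOf i F * (T + 1) ^ dm x) := by
          ring
      _ ≤ C0 * ((dm x + 1) * (T * R)) ^ dm x := h3
      _ = C0 * (dm x + 1) ^ dm x * R ^ dm x * T ^ dm x := by
          rw [mul_pow, mul_pow]
          ring
      _ ≤ _ := Nat.mul_le_mul_left _ (Nat.pow_le_pow_left (Nat.le_succ T) _)
  exact Nat.le_of_mul_le_mul_right h4 (by positivity)

end Pool.Agent.SD
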