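import Mathlib
import Pool.Agent.Lib.MP_c95b3b_ag_SD.TpFar
import Pool.Agent.Lib.MP_c95b3b_ag_SD.TpFib
import Pool.Agent.Lib.MP_c95b3b_ag_SD.TpElim
import Pool.Agent.Lib.MP_c95b3b_ag_SD.Map

set_option autoImplicit false

/-! Project SD (MP_c95b3b_ag), part T', module RO: the relation has many large roots. -/

namespace Pool.Agent.SD

open MvPolynomial Module

namespace TpRoots

theorem eval_spec {d : ℕ} (θ : Fin d → ℂ) (F : MvPolynomial (Fin (d + 1)) ℤ) (ω : ℂ) :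
    (spec θ F).eval ω = aeval (Fin.cons ω θ : Fin (d + 1) → ℂ) F := by
  unfold spec
  rw [Polynomial.eval_map]
  have h : (Polynomial.eval₂RingHom (aeval θ : MvPolynomial (Fin d) ℤ →ₐ[ℤ] ℂ).toRingHom ω).comp
      ((finSuccEquiv ℤ d : MvPolynomial (Fin (d + 1)) ℤ ≃ₐ[ℤ] _) : _ →+* _) =
      (aeval (Fin.cons ω θ : Fin (d + 1) → ℂ) : MvPolynomial (Fin (d + 1)) ℤ →ₐ[ℤ] ℂ).toRingHom := by
    apply MvPolynomial.ringHom_ext
    · intro r
      simp
    · intro i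
      refine Fin.cases ?_ (fun j => ?_) i
      · simp [finSuccEquiv_X_zero]
      · simp [finSuccEquiv_X_succ]
  exact RingHom.congr_fun h F

theorem spec_ne {d : ℕ} {θ : Fin d → ℂ} (hθ : GenT θ) {F : MvPolynomial (Fin (d + 1)) ℤ}
    (hF : F ≠ 0) : spec θ F ≠ 0 := by
  have h1 : finSuccEquiv ℤ d F ≠ 0 := by
    intro h
    exact hF ((finSuccEquiv ℤ d).injective (by rw [h, map_zero]))
  intro h
  have h2 := congrArg (fun p => Polynomial.coeff p (finSuccEquiv ℤ d F).natDegree) h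
  simp only [spec, Polynomial.coeff_map, Polynomial.coeff_natDegree, Polynomial.coeff_zero] at h2
  exact h1 (Polynomial.leadingCoeff_eq_zero.1 (hθ.2 _ h2))

theorem one_le_prod (u : Multiset ℂ) : 1 ≤ (u.map fun ω => max 1 ‖ω‖).prod := by
  induction u using Multiset.induction_on with
  | empty => simp
  | cons a s ih =>
    rw [Multiset.map_cons, Multiset.prod_cons]
    exact one_le_mul_of_one_le_of_one_le (le_max_left _ _) ih

theorem prod_roots {p : Polynomial ℂ} (hp : p ≠ 0) {t : ℝ} (Ω : Finset ℂ)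
    (h : ∀ ω ∈ Ω, p.eval ω = 0 ∧ Real.exp t ≤ ‖ω‖) :
    Real.exp (t * Ω.card) ≤ (p.roots.map fun ω => max 1 ‖ω‖).prod := by
  have h1 : Ω.val ≤ p.roots := by
    rw [Multiset.le_iff_subset Ω.nodup]
    intro ω hω
    exact (Polynomial.mem_roots hp).2 (h ω hω).1
  obtain ⟨u, hu⟩ := Multiset.le_iff_exists_add.1 h1
  rw [hu, Multiset.map_add, Multiset.prod_add]
  have h2 : Real.exp (t * Ω.card) ≤ (Ω.val.map fun ω => max 1 ‖ω‖).prod := by
    have h3 : Real.exp (t * Ω.card) = ∏ _ω ∈ Ω, Real.exp t := by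
      rw [Finset.prod_const, ← Real.exp_nat_mul, mul_comm]
    rw [h3]
    exact Finset.prod_le_prod (fun _ _ => (Real.exp_pos _).le)
      fun ω hω => (h ω hω).2.trans (le_max_right _ _)
  calc Real.exp (t * Ω.card) ≤ (Ω.val.map fun ω => max 1 ‖ω‖).prod := h2
    _ = (Ω.val.map fun ω => max 1 ‖ω‖).prod * 1 := (mul_one _).symm
    _ ≤ _ := mul_le_mul_of_nonneg_left (one_le_prod u) ((Real.exp_pos _).le.trans h2)

theorem exists_bound {m n : ℕ} (b : Fin m → Fin n → ℝ) :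
    ∃ Cb : ℕ, 1 ≤ Cb ∧ ∀ i l, |b i l| + 1 ≤ Cb := by
  obtain ⟨N, hN⟩ := exists_nat_ge (∑ i, ∑ l, |b i l|)
  refine ⟨N + 1, by omega, fun i l => ?_⟩
  have h1 : |b i l| ≤ ∑ l, |b i l| :=
    Finset.single_le_sum (f := fun l => |b i l|) (fun _ _ => abs_nonneg _) (Finset.mem_univ l)
  have h2 : ∑ l, |b i l| ≤ ∑ i, ∑ l, |b i l| :=
    Finset.single_le_sum (f := fun i => ∑ l, |b i l|)
      (fun _ _ => Finset.sum_nonneg fun _ _ => abs_nonneg _) (Finset.mem_univ i)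
  push_cast
  linarith

/-- points over `θ` give zeros of `F` -/
theorem zero_of_pt {L : Type} [Field L] [Algebra ℂ L] {n d : ℕ} {x : Fin n → L}
    (hx : ∀ i, x i ≠ 0) {γ : Fin (d + 1) → Fin n → ℤ} {F : MvPolynomial (Fin (d + 1)) ℤ}
    (hF : aeval (mm γ x) F = 0) {z : Fin n → ℂ} (hz : OnY x z) {θ : Fin d → ℂ}
    (hθ : ∀ j : Fin d, mn z (γ j.succ) = θ j) :
    aeval (Fin.cons (mn z (γ 0)) θ : Fin (d + 1) → ℂ) F = 0 := by
  have h1 : (Fin.cons (mn z (γ 0)) θ : Fin (d + 1) → ℂ) = fun i => mn z (γ i) := by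
    funext i
    refine Fin.cases ?_ (fun j => ?_) i
    · rfl
    · rw [Fin.cons_succ, hθ j]
  have h2 := OnY.rel_mn hx hz γ (MvPolynomial.map (algebraMap ℤ ℂ) F) (by
    rw [aeval_map_algebraMap]
    exact hF)
  rw [aeval_map_algebraMap] at h2
  rw [h1]
  exact h2

end TpRoots

theorem far_roots {L : Type} [Field L] [CharZero L] [Algebra ℂ L] {n : ℕ} {x : Fin n → L}
    (hx : ∀ i, x i ≠ 0) (hAD : AD x) (hcos : ∀ a : Fin n → ℤ, a ≠ 0 → om x (rv a) ≠ 0)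
    (V : Submodule ℝ (Fin n → ℝ)) (hV : finrank ℝ V = dm x + 1)
    (hr : rk x (V : Set (Fin n → ℝ)) = dm x) :
    ∃ (b : Fin (dm x + 1) → Fin n → ℝ) (c : ℝ) (M0 : ℕ), (∀ j, b j ∈ V) ∧ 0 < c ∧
      ∀ M : ℕ, M0 ≤ M → ∀ γ : Fin (dm x + 1) → Fin n → ℤ,
        (∀ i l, |(γ i l : ℝ) - M * b i l| ≤ 1) →
        LinearIndependent L (fun j => om x (rv (γ (Fin.succ j)))) ∧
        ∀ F, Gtor (mm γ x) F → ∀ θ : Fin (dm x) → ℂ, GenT θ →
          Real.exp (c * M * dmax F) ≤ ((spec θ F).roots.map fun ω => max 1 ‖ω‖).prod := by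
  classical
  obtain ⟨b0, b', c1, M1, hb0, hb', hc1, hfar⟩ := exists_far hx hcos V hV hr
  obtain ⟨C0, hC0⟩ := fiber_bound hx hAD
  generalize hb : (Fin.cons b' b0 : Fin (dm x + 1) → Fin n → ℝ) = b
  have hbz : b 0 = b' := by rw [← hb]; rfl
  have hbs : ∀ j, b (Fin.succ j) = b0 j := by intro j; rw [← hb]; rfl
  obtain ⟨Cb, hCb1, hCb⟩ := TpRoots.exists_bound b
  have hCpos : (0 : ℝ) < ((C0 : ℝ) + 1) * (Cb : ℝ) ^ dm x := by
    have : (1 : ℝ) ≤ Cb := by exact_mod_cast hCb1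
    positivity
  refine ⟨b, c1 * (c1 / (((C0 : ℝ) + 1) * (Cb : ℝ) ^ dm x)), max M1 1, ?_, by positivity, ?_⟩
  · intro j
    refine Fin.cases ?_ (fun j => ?_) j
    · rw [hbz]; exact hb'
    · rw [hbs]; exact hb0 j
  intro M hM γ hγ
  have hM1 : M1 ≤ M := (le_max_left _ _).trans hM
  have hM0 : 1 ≤ M := (le_max_right _ _).trans hM
  have hMr : (1 : ℝ) ≤ M := by exact_mod_cast hM0
  obtain ⟨hli, hQ⟩ := hfar M hM1 (fun j => γ (Fin.succ j)) (γ 0)
    (fun j l => by have := hγ (Fin.succ j) l; rwa [hbs] at this)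
    (fun l => by have := hγ 0 l; rwa [hbz] at this)
  refine ⟨hli, ?_⟩
  intro F hF θ hθ
  obtain ⟨Q, hQc, hQz⟩ := hQ θ hθ.1
  have hR : 1 ≤ Cb * M := Nat.mul_pos hCb1 hM0
  have hγR : ∀ i l, |γ i l| ≤ ((Cb * M : ℕ) : ℤ) := by
    intro i l
    have h1 : |(γ i l : ℝ)| ≤ Cb * M := by
      have h2 := hγ i l
      have h3 : |(γ i l : ℝ)| ≤ |(γ i l : ℝ) - M * b i l| + |M * b i l| := by
        have := abs_add_le ((γ i l : ℝ) - M * b i l) (M * b i l)
        simpa using this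
      rw [abs_mul, abs_of_nonneg (by linarith : (0 : ℝ) ≤ M)] at h3
      have h4 := hCb i l
      nlinarith [abs_nonneg (b i l)]
    have h5 : ((|γ i l| : ℤ) : ℝ) ≤ ((Cb * M : ℕ) : ℝ) := by
      push_cast
      exact h1
    exact_mod_cast h5
  obtain ⟨i0, -, hi0⟩ := Finset.exists_mem_eq_sup (Finset.univ : Finset (Fin (dm x + 1)))
    Finset.univ_nonempty (fun i => degreeOf i F)
  have hD : dmax F = degreeOf i0 F := hi0
  set Ω : Finset ℂ := Q.image fun z => mn z (γ 0) with hΩ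
  have hfib : ∀ ω ∈ Ω, (Q.filter fun z => mn z (γ 0) = ω).card * dmax F ≤
      C0 * (Cb * M) ^ dm x := by
    intro ω hω
    obtain ⟨z0, hz0, hz0'⟩ := Finset.mem_image.1 hω
    have hzero : aeval (Fin.cons ω θ : Fin (dm x + 1) → ℂ) F = 0 := by
      rw [← hz0']
      exact TpRoots.zero_of_pt hx hF.zero (hQz z0 hz0).1 (hQz z0 hz0).2.1
    rw [hD]
    refine hC0 (Cb * M) hR γ hγR F hF (Fin.cons ω θ) (fun G hG => hF.generic hθ hzero G hG) _ ?_ i0
    intro z hz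
    rw [Finset.mem_filter] at hz
    refine ⟨(hQz z hz.1).1, fun i => ?_⟩
    refine Fin.cases ?_ (fun j => ?_) i
    · exact hz.2
    · exact (hQz z hz.1).2.1 j
  have hsum : Q.card * dmax F ≤ Ω.card * (C0 * (Cb * M) ^ dm x) := by
    rw [Finset.card_eq_sum_card_image (fun z => mn z (γ 0)) Q, Finset.sum_mul]
    refine (Finset.sum_le_sum hfib).trans ?_
    rw [Finset.sum_const, smul_eq_mul]
  have hsumr : (Q.card : ℝ) * dmax F ≤ Ω.card * (C0 * (Cb * M : ℝ) ^ dm x) := by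
    exact_mod_cast hsum
  have hMd : (0 : ℝ) < (M : ℝ) ^ dm x := by positivity
  have hcard : c1 / (((C0 : ℝ) + 1) * (Cb : ℝ) ^ dm x) * dmax F ≤ Ω.card := by
    rw [div_mul_eq_mul_div, div_le_iff₀ hCpos]
    have h1 : c1 * (M : ℝ) ^ dm x * dmax F ≤ Q.card * dmax F :=
      mul_le_mul_of_nonneg_right hQc (Nat.cast_nonneg _)
    have h2 : (Ω.card : ℝ) * (C0 * (Cb * M : ℝ) ^ dm x) ≤
        Ω.card * (((C0 : ℝ) + 1) * (Cb : ℝ) ^ dm x) * (M : ℝ) ^ dm x := by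
      rw [mul_pow]
      have h3 : (0 : ℝ) ≤ Ω.card * ((Cb : ℝ) ^ dm x * (M : ℝ) ^ dm x) := by positivity
      nlinarith
    have h4 : c1 * dmax F * (M : ℝ) ^ dm x ≤
        Ω.card * (((C0 : ℝ) + 1) * (Cb : ℝ) ^ dm x) * (M : ℝ) ^ dm x := by
      calc c1 * dmax F * (M : ℝ) ^ dm x = c1 * (M : ℝ) ^ dm x * dmax F := by ring
        _ ≤ _ := h1.trans (hsumr.trans h2)
    exact le_of_mul_le_mul_right h4 hMd
  have hroots := TpRoots.prod_roots (TpRoots.spec_ne hθ hF.ne) (t := c1 * M) Ω (by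
    intro ω hω
    obtain ⟨z0, hz0, hz0'⟩ := Finset.mem_image.1 hω
    have hpos : 0 < ‖ω‖ := by
      rw [← hz0', norm_pos_iff]
      exact mn_ne_zero (hQz z0 hz0).1.1 _
    refine ⟨?_, ?_⟩
    · rw [TpRoots.eval_spec, ← hz0']
      exact TpRoots.zero_of_pt hx hF.zero (hQz z0 hz0).1 (hQz z0 hz0).2.1
    · rw [← Real.le_log_iff_exp_le hpos, ← hz0']
      exact (hQz z0 hz0).2.2)
  refine le_trans ?_ hroots
  apply Real.exp_le_exp.2
  calc c1 * (c1 / (((C0 : ℝ) + 1) * (Cb : ℝ) ^ dm x)) * M * dmax F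
      = c1 * M * (c1 / (((C0 : ℝ) + 1) * (Cb : ℝ) ^ dm x) * dmax F) := by ring
    _ ≤ c1 * M * Ω.card := mul_le_mul_of_nonneg_left hcard (by positivity)

end Pool.Agent.SD
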