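import Mathlib

set_option autoImplicit false

/-! Project SD (MP_c95b3b_ag), module TpPig: a pigeonhole principle. -/

namespace Pool.Agent.SD

namespace TpPig

open Finset

/-- Sets of integral vectors such that two elements which agree above `j` have nearby entries at
`j`. -/
theorem card_le (b : ℕ) : ∀ (s : ℕ) (G : Finset (Fin s → ℤ)),
    (∀ g ∈ G, ∀ g' ∈ G, ∀ j : Fin s, (∀ j', j < j' → g j' = g' j') → |g j - g' j| ≤ b) →
    G.card ≤ (b + 1) ^ s := by
  classical
  intro s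
  induction s with
  | zero =>
    intro G _
    rw [pow_zero]
    refine Finset.card_le_one.2 ?_
    intro a _ c _
    exact Subsingleton.elim a c
  | succ s ih =>
    intro G hG
    have h1 : ∀ y ∈ G.image (fun g => g (Fin.last s)),
        (G.filter fun g => g (Fin.last s) = y).card ≤ (b + 1) ^ s := by
      intro y _
      have hinj : Set.InjOn (fun g : Fin (s + 1) → ℤ => Fin.init (α := fun _ => ℤ) g)
          ((G.filter fun g => g (Fin.last s) = y) : Set (Fin (s + 1) → ℤ)) := by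
        intro g hg g' hg' h
        have h2 := (Finset.mem_filter.1 (Finset.mem_coe.1 hg)).2
        have h3 := (Finset.mem_filter.1 (Finset.mem_coe.1 hg')).2
        funext j
        refine Fin.lastCases ?_ (fun i => ?_) j
        · rw [h2, h3]
        · exact congrFun h i
      rw [← Finset.card_image_of_injOn hinj]
      refine ih _ ?_
      intro g hg g' hg' j hj
      obtain ⟨f, hf, rfl⟩ := Finset.mem_image.1 hg
      obtain ⟨f', hf', rfl⟩ := Finset.mem_image.1 hg'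
      obtain ⟨hfG, hfy⟩ := Finset.mem_filter.1 hf
      obtain ⟨hfG', hfy'⟩ := Finset.mem_filter.1 hf'
      refine hG f hfG f' hfG' j.castSucc ?_
      intro j' hj'
      rcases Fin.eq_castSucc_or_eq_last j' with ⟨i, rfl⟩ | rfl
      · exact hj i (Fin.castSucc_lt_castSucc_iff.1 hj')
      · rw [hfy, hfy']
    have h2 : (G.image (fun g => g (Fin.last s))).card ≤ b + 1 := by
      rcases (G.image (fun g => g (Fin.last s))).eq_empty_or_nonempty with h | h
      · rw [h]
        simp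
      · have h3 : G.image (fun g => g (Fin.last s)) ⊆
            Finset.Icc ((G.image (fun g => g (Fin.last s))).min' h)
              ((G.image (fun g => g (Fin.last s))).min' h + b) := by
          intro y hy
          rw [Finset.mem_Icc]
          refine ⟨Finset.min'_le _ _ hy, ?_⟩
          obtain ⟨g, hg, rfl⟩ := Finset.mem_image.1 hy
          obtain ⟨g', hg', hg'm⟩ := Finset.mem_image.1 (Finset.min'_mem _ h)
          have h4 := hG g hg g' hg' (Fin.last s) (fun j' hj' =>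
            absurd hj' (not_lt_of_ge (Fin.le_last j')))
          rw [← hg'm]
          have h5 := (abs_le.1 h4).2
          linarith
        refine (Finset.card_le_card h3).trans ?_
        rw [Int.card_Icc]
        have : (G.image (fun g => g (Fin.last s))).min' h + (b : ℤ) + 1 -
          (G.image (fun g => g (Fin.last s))).min' h = ((b + 1 : ℕ) : ℤ) := by
          push_cast
          ring
        rw [this, Int.toNat_natCast]
    calc G.card ≤ (b + 1) ^ s * (G.image (fun g => g (Fin.last s))).card :=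
          Finset.card_le_mul_card_image _ _ h1
      _ ≤ (b + 1) ^ s * (b + 1) := Nat.mul_le_mul_left _ h2
      _ = (b + 1) ^ (s + 1) := (pow_succ _ _).symm

end TpPig

open Finset in
theorem pigeon {ι : Type} [Fintype ι] {s r : ℕ} (hr : 0 < r) (hN : Fintype.card ι = s + r)
    (Φ : (Fin s → ℝ) →ₗ[ℝ] (ι → ℝ))
    (hint : ∀ (g : Fin s → ℤ) (i : ι), ∃ m : ℤ, Φ (fun j => (g j : ℝ)) i = m) (E : ℝ)
    (hE : 1 ≤ E)
    (htop : ∀ (j : Fin s) (g : Fin s → ℝ), (∀ j', j < j' → g j' = 0) →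
      E * |g j| ≤ ∑ i, |Φ g i|) :
    ∃ (v : ι → ℤ) (g : Fin s → ℝ),
      (∀ g' : Fin s → ℤ, (fun i => (v i : ℝ)) ≠ Φ (fun j => (g' j : ℝ))) ∧
      ∑ i, |(v i : ℝ) - Φ g i| ≤
        6 * ((s + r : ℕ) : ℝ) ^ 2 * (8 * ((s + r : ℕ) : ℝ) / E) ^ ((s : ℝ) / r) := by
  classical
  have hE0 : 0 < E := by linarith
  obtain ⟨N, hNd⟩ : ∃ N : ℕ, N = s + r := ⟨_, rfl⟩
  rw [← hNd] at hN ⊢
  have hN1 : (1 : ℝ) ≤ N := by
    have : 1 ≤ N := by omega
    exact_mod_cast this
  have hN0 : (0 : ℝ) < N := by linarith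
  -- injectivity
  have hinj : Function.Injective Φ := by
    rw [injective_iff_map_eq_zero]
    intro g hg
    by_contra hne
    have h1 : (Finset.univ.filter fun j => g j ≠ 0).Nonempty := by
      by_contra h
      rw [Finset.not_nonempty_iff_eq_empty, Finset.filter_eq_empty_iff] at h
      apply hne
      funext j
      have := h (Finset.mem_univ j)
      push Not at this
      exact this
    have h2 := Finset.max'_mem _ h1
    have h3 := htop ((Finset.univ.filter fun j => g j ≠ 0).max' h1) g (by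
      intro j' hj'
      by_contra h
      have h4 := Finset.le_max' (Finset.univ.filter fun j => g j ≠ 0) j'
        (Finset.mem_filter.2 ⟨Finset.mem_univ _, h⟩)
      exact absurd hj' (not_lt_of_ge h4))
    rw [hg] at h3
    simp only [Pi.zero_apply, abs_zero, Finset.sum_const_zero] at h3
    have h5 : 0 < |g ((Finset.univ.filter fun j => g j ≠ 0).max' h1)| :=
      abs_pos.2 (Finset.mem_filter.1 h2).2
    have h6 : 0 < E * |g ((Finset.univ.filter fun j => g j ≠ 0).max' h1)| := mul_pos hE0 h5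
    linarith
  -- the constants
  obtain ⟨X, hX⟩ : ∃ X : ℝ, X = (4 * (N : ℝ) / E) ^ ((s : ℝ) / r) := ⟨_, rfl⟩
  have h4N : 0 < 4 * (N : ℝ) / E := by positivity
  have hX0 : 0 < X := by
    rw [hX]
    exact Real.rpow_pos_of_pos h4N _
  have hr0 : (0 : ℝ) < r := by exact_mod_cast hr
  have hXr : X ^ r = (4 * (N : ℝ) / E) ^ s := by
    rw [hX, ← Real.rpow_natCast, ← Real.rpow_mul h4N.le, div_mul_cancel₀ _ hr0.ne',
      Real.rpow_natCast]
  obtain ⟨T, hT⟩ : ∃ T : ℕ, E + 12 * X ≤ T := ⟨⌈E + 12 * X⌉₊, Nat.le_ceil _⟩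
  have hTE : E ≤ T := by linarith
  have hTX : 12 * X ≤ T := by linarith
  have hT0 : (0 : ℝ) < T := by linarith
  obtain ⟨ε, hε⟩ : ∃ ε : ℝ, ε = 6 * Real.sqrt N * X := ⟨_, rfl⟩
  have hsN : 0 < Real.sqrt N := Real.sqrt_pos.2 hN0
  have hε0 : 0 < ε := by
    rw [hε]
    positivity
  obtain ⟨b, hb⟩ : ∃ b : ℕ, b = ⌊2 * N * T / E⌋₊ := ⟨_, rfl⟩
  have hbT : ((b : ℝ) + 1) ≤ 4 * N / E * T := by
    have h1 : (b : ℝ) ≤ 2 * N * T / E := by
      rw [hb]
      exact Nat.floor_le (by positivity)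
    have h2 : 1 ≤ 2 * N * T / E := by
      rw [le_div_iff₀ hE0]
      nlinarith
    have h3 : 4 * (N : ℝ) / E * T = 2 * N * T / E + 2 * N * T / E := by ring
    linarith
  obtain ⟨L, hL⟩ : ∃ L : ℕ, L = ⌊(T : ℝ) / (6 * X)⌋₊ + 1 := ⟨_, rfl⟩
  have hL1 : (T : ℝ) / (6 * X) < L := by
    rw [hL]
    push_cast
    exact Nat.lt_floor_add_one _
  have hL2 : (2 * L : ℝ) ≤ T / (2 * X) := by
    have h1 : ((⌊(T : ℝ) / (6 * X)⌋₊ : ℕ) : ℝ) ≤ (T : ℝ) / (6 * X) :=
      Nat.floor_le (by positivity)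
    have h2 : 2 ≤ (T : ℝ) / (6 * X) := by
      rw [le_div_iff₀ (by positivity)]
      linarith
    have h3 : (T : ℝ) / (2 * X) = 3 * (T / (6 * X)) := by
      field_simp
      norm_num
    rw [hL, h3]
    push_cast
    linarith
  have hcount : (2 * L) ^ r * (b + 1) ^ s < T ^ N := by
    have h1 : ((2 * L : ℝ)) ^ r * ((b : ℝ) + 1) ^ s ≤ (T / (2 * X)) ^ r * (4 * N / E * T) ^ s := by
      gcongr
    have h2 : ((T : ℝ) / (2 * X)) ^ r * (4 * N / E * T) ^ s = (T / 2) ^ r * T ^ s := by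
      have h3 : (T : ℝ) / (2 * X) = T / 2 / X := by
        field_simp
      rw [h3, div_pow, hXr, mul_pow]
      have h5 : (4 * (N : ℝ) / E) ^ s ≠ 0 := (pow_pos h4N s).ne'
      rw [div_mul_eq_mul_div, ← mul_assoc, mul_comm ((T / 2 : ℝ) ^ r) _, mul_assoc,
        mul_div_cancel_left₀ _ h5]
    have h3 : ((T : ℝ) / 2) ^ r * T ^ s < T ^ r * T ^ s := by
      refine mul_lt_mul_of_pos_right ?_ (pow_pos hT0 s)
      exact pow_lt_pow_left₀ (by linarith) (by positivity) hr.ne'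
    have h4 : ((2 * L : ℝ)) ^ r * ((b : ℝ) + 1) ^ s < (T : ℝ) ^ N := by
      rw [hNd, add_comm s r, pow_add]
      linarith
    exact_mod_cast h4
  -- the orthogonal complement of the range of Φ
  obtain ⟨e, he⟩ : ∃ e : (ι → ℝ) ≃ₗ[ℝ] EuclideanSpace ℝ ι, ∀ x i, e x i = x i :=
    ⟨(WithLp.linearEquiv 2 ℝ (ι → ℝ)).symm, fun x i => rfl⟩
  obtain ⟨S, hS⟩ : ∃ S : Submodule ℝ (EuclideanSpace ℝ ι),
    S = LinearMap.range (e.toLinearMap.comp Φ) := ⟨_, rfl⟩
  have hSr : Module.finrank ℝ S = s := by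
    rw [hS, LinearMap.finrank_range_of_inj (f := e.toLinearMap.comp Φ)
      (e.injective.comp hinj), Module.finrank_fin_fun]
  have hKr : Module.finrank ℝ Sᗮ = r := by
    have h1 := Submodule.finrank_add_finrank_orthogonal S
    rw [hSr, finrank_euclideanSpace, hN] at h1
    omega
  obtain ⟨w, hw⟩ : ∃ w : OrthonormalBasis (Fin r) ℝ Sᗮ, True :=
    ⟨(stdOrthonormalBasis ℝ Sᗮ).reindex (finCongr hKr), trivial⟩
  obtain ⟨c, hc⟩ : ∃ c : (ι → ℤ) → Fin r → ℝ, ∀ v k, c v k =
    inner ℝ ((w k : Sᗮ) : EuclideanSpace ℝ ι) (e fun i => (v i : ℝ)) := ⟨_, fun _ _ => rfl⟩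
  have hnorm : ∀ x : ι → ℝ, ‖e x‖ ^ 2 = ∑ i, x i ^ 2 := by
    intro x
    rw [EuclideanSpace.norm_sq_eq]
    refine Finset.sum_congr rfl fun i _ => ?_
    rw [he, Real.norm_eq_abs, sq_abs]
  have hcb : ∀ v : ι → ℤ, (∀ i, 0 ≤ v i ∧ v i < T) → ∀ k, |c v k| ≤ T * Real.sqrt N := by
    intro v hv k
    rw [hc]
    have h1 : ‖((w k : Sᗮ) : EuclideanSpace ℝ ι)‖ = 1 := w.orthonormal.1 k
    have h2 : ‖e fun i => (v i : ℝ)‖ ≤ T * Real.sqrt N := by
      refine abs_le_of_sq_le_sq' ?_ (by positivity) |>.2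
      rw [hnorm, mul_pow, Real.sq_sqrt hN0.le]
      calc ∑ i, ((v i : ℝ)) ^ 2 ≤ ∑ _i : ι, (T : ℝ) ^ 2 := by
            refine Finset.sum_le_sum fun i _ => ?_
            have h3 : (0 : ℝ) ≤ v i := by exact_mod_cast (hv i).1
            have h4 : (v i : ℝ) ≤ T := by exact_mod_cast (hv i).2.le
            exact pow_le_pow_left₀ h3 h4 2
        _ = (T : ℝ) ^ 2 * N := by
            rw [Finset.sum_const, Finset.card_univ, hN, nsmul_eq_mul]
            ring
    calc |inner ℝ ((w k : Sᗮ) : EuclideanSpace ℝ ι) (e fun i => (v i : ℝ))|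
        ≤ ‖((w k : Sᗮ) : EuclideanSpace ℝ ι)‖ * ‖e fun i => (v i : ℝ)‖ :=
          abs_real_inner_le_norm _ _
      _ ≤ T * Real.sqrt N := by rw [h1, one_mul]; exact h2
  -- the pigeonhole principle
  obtain ⟨y, hy, hyc⟩ := Finset.exists_lt_card_fiber_of_mul_lt_card_of_maps_to
    (s := Fintype.piFinset fun _ : ι => Finset.Ico (0 : ℤ) T)
    (t := Fintype.piFinset fun _ : Fin r => Finset.Ico (-(L : ℤ)) L)
    (f := fun v k => ⌊c v k / ε⌋) (n := (b + 1) ^ s) (by
      intro v hv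
      rw [Fintype.mem_piFinset] at hv ⊢
      intro k
      have h1 := hcb v (fun i => Finset.mem_Ico.1 (hv i)) k
      have h2 : |c v k / ε| ≤ T / (6 * X) := by
        rw [abs_div, abs_of_pos hε0, div_le_div_iff₀ hε0 (by positivity)]
        calc |c v k| * (6 * X) ≤ (T * Real.sqrt N) * (6 * X) := by gcongr
          _ = T * ε := by rw [hε]; ring
      obtain ⟨h3, h4⟩ := abs_le.1 (h2.trans hL1.le)
      rw [Finset.mem_Ico]
      constructor
      · rw [Int.le_floor]
        push_cast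
        exact h3
      · rw [Int.floor_lt]
        push_cast
        exact lt_of_le_of_lt ((abs_le.1 h2).2) hL1) (by
      rw [Fintype.card_piFinset, Fintype.card_piFinset]
      simp only [Int.card_Ico, Finset.prod_const, Finset.card_univ, Fintype.card_fin, hN]
      have h1 : ((L : ℤ) - -(L : ℤ)).toNat = 2 * L := by omega
      have h2 : ((T : ℤ) - 0).toNat = T := by omega
      rw [h1, h2]
      exact hcount)
  obtain ⟨F, hF⟩ : ∃ F : Finset (ι → ℤ), F = (Fintype.piFinset fun _ : ι =>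
    Finset.Ico (0 : ℤ) T).filter fun v => (fun k => ⌊c v k / ε⌋) = y := ⟨_, rfl⟩
  rw [← hF] at hyc
  have hFm : ∀ v ∈ F, (∀ i, 0 ≤ v i ∧ v i < T) ∧ ∀ k, ⌊c v k / ε⌋ = y k := by
    intro v hv
    rw [hF, Finset.mem_filter, Fintype.mem_piFinset] at hv
    exact ⟨fun i => Finset.mem_Ico.1 (hv.1 i), fun k => congrFun hv.2 k⟩
  obtain ⟨v0, hv0⟩ : F.Nonempty := by
    rw [← Finset.card_pos]
    omega
  have hex : ∃ v ∈ F, ∀ g' : Fin s → ℤ,
      (fun i => ((v i - v0 i : ℤ) : ℝ)) ≠ Φ (fun j => (g' j : ℝ)) := by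
    by_contra hcon
    push Not at hcon
    choose! γ hγ using hcon
    have hγi : Set.InjOn γ (F : Set (ι → ℤ)) := by
      intro v hv v' hv' h
      have h1 := hγ v hv
      rw [h, ← hγ v' hv'] at h1
      funext i
      have h2 : ((v i - v0 i : ℤ) : ℝ) = ((v' i - v0 i : ℤ) : ℝ) := congrFun h1 i
      have h3 : v i - v0 i = v' i - v0 i := by exact_mod_cast h2
      linarith
    have h1 := TpPig.card_le b s (F.image γ) (by
      intro g hg g' hg' j hj
      obtain ⟨v, hv, rfl⟩ := Finset.mem_image.1 hg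
      obtain ⟨v', hv', rfl⟩ := Finset.mem_image.1 hg'
      have h2 := htop j (fun j => (γ v j : ℝ) - (γ v' j : ℝ)) (by
        intro j' hj'
        rw [hj j' hj', sub_self])
      have h3 : Φ (fun j => (γ v j : ℝ) - (γ v' j : ℝ)) =
          (fun i => ((v i - v' i : ℤ) : ℝ)) := by
        have h4 : (fun j => (γ v j : ℝ) - (γ v' j : ℝ)) =
            (fun j => (γ v j : ℝ)) - fun j => (γ v' j : ℝ) := rfl
        rw [h4, map_sub, ← hγ v hv, ← hγ v' hv']
        funext i
        simp only [Pi.sub_apply]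
        push_cast
        ring
      rw [h3] at h2
      have h5 : ∑ i, |((v i - v' i : ℤ) : ℝ)| ≤ N * T := by
        calc ∑ i, |((v i - v' i : ℤ) : ℝ)| ≤ ∑ _i : ι, (T : ℝ) := by
              refine Finset.sum_le_sum fun i _ => ?_
              obtain ⟨h6, h7⟩ := (hFm v hv).1 i
              obtain ⟨h8, h9⟩ := (hFm v' hv').1 i
              have h10 : |v i - v' i| ≤ (T : ℤ) := by
                rw [abs_le]
                constructor <;> linarith
              exact_mod_cast h10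
          _ = N * T := by
              rw [Finset.sum_const, Finset.card_univ, hN, nsmul_eq_mul]
      have h6 : ((γ v j - γ v' j).natAbs : ℝ) ≤ 2 * N * T / E := by
        rw [le_div_iff₀ hE0, Nat.cast_natAbs]
        push_cast
        have h7 : 0 ≤ (N : ℝ) * T := by positivity
        have h8 : E * |(γ v j : ℝ) - (γ v' j : ℝ)| ≤ N * T := h2.trans h5
        linarith
      have h7 : (γ v j - γ v' j).natAbs ≤ b := by
        rw [hb]
        exact Nat.le_floor h6
      rw [Int.abs_eq_natAbs]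
      exact_mod_cast h7)
    rw [Finset.card_image_of_injOn hγi] at h1
    omega
  obtain ⟨v, hv, hvne⟩ := hex
  obtain ⟨x, hx⟩ : ∃ x : ι → ℝ, x = fun i => ((v i - v0 i : ℤ) : ℝ) := ⟨_, rfl⟩
  obtain ⟨p, hp⟩ : ∃ p : Sᗮ, p = Sᗮ.orthogonalProjectionOnto (e x) := ⟨_, rfl⟩
  have hwk : ∀ k, |inner ℝ ((w k : Sᗮ) : EuclideanSpace ℝ ι) (e x)| ≤ ε := by
    intro k
    have h1 : inner ℝ ((w k : Sᗮ) : EuclideanSpace ℝ ι) (e x) = c v k - c v0 k := by
      rw [hc, hc, ← inner_sub_right, ← map_sub]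
      congr 2
      rw [hx]
      funext i
      simp
    rw [h1]
    have h2 := (hFm v hv).2 k
    have h3 := (hFm v0 hv0).2 k
    have h4 := Int.abs_sub_lt_one_of_floor_eq_floor (h2.trans h3.symm)
    rw [← sub_div, abs_div, abs_of_pos hε0, div_lt_one hε0] at h4
    exact h4.le
  have hpn : ‖p‖ ^ 2 ≤ r * ε ^ 2 := by
    have h1 : ∑ k, ‖inner ℝ (w k) p‖ ^ 2 = ‖p‖ ^ 2 := w.sum_sq_norm_inner_right p
    rw [← h1]
    calc ∑ k, ‖inner ℝ (w k) p‖ ^ 2 ≤ ∑ _k : Fin r, ε ^ 2 := by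
          refine Finset.sum_le_sum fun k _ => ?_
          rw [hp, Submodule.inner_orthogonalProjectionOnto_eq_of_mem_left, Real.norm_eq_abs]
          exact pow_le_pow_left₀ (abs_nonneg _) (hwk k) 2
      _ = r * ε ^ 2 := by
          rw [Finset.sum_const, Finset.card_univ, Fintype.card_fin, nsmul_eq_mul]
  have hmem : e x - (p : EuclideanSpace ℝ ι) ∈ S := by
    have h1 : e x - (p : EuclideanSpace ℝ ι) ∈ Sᗮᗮ := by
      rw [hp]
      exact Submodule.sub_starProjection_mem_orthogonal (K := Sᗮ) (e x)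
    rwa [Submodule.orthogonal_orthogonal] at h1
  have hSm : ∀ z ∈ S, ∃ g, e (Φ g) = z := by
    intro z hz
    rw [hS] at hz
    obtain ⟨g, hg⟩ := hz
    exact ⟨g, hg⟩
  obtain ⟨g, hg⟩ := hSm _ hmem
  have hgi : ∀ i, x i - Φ g i = (p : EuclideanSpace ℝ ι) i := by
    intro i
    have h1 : e (Φ g) = e x - (p : EuclideanSpace ℝ ι) := hg
    have h2 : (e (Φ g)) i = (e x - (p : EuclideanSpace ℝ ι)) i := by rw [h1]
    rw [he, PiLp.sub_apply, he] at h2
    rw [h2]
    ring
  refine ⟨fun i => v i - v0 i, g, hvne, ?_⟩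
  have hfin : ∑ i, |((v i - v0 i : ℤ) : ℝ) - Φ g i| ≤ 6 * (N : ℝ) ^ 2 * X := by
    have h1 : ∑ i, |((v i - v0 i : ℤ) : ℝ) - Φ g i| = ∑ i, |(p : EuclideanSpace ℝ ι) i| := by
      refine Finset.sum_congr rfl fun i _ => ?_
      rw [← hgi i, hx]
    rw [h1]
    refine abs_le_of_sq_le_sq' ?_ (by positivity) |>.2
    have h2 : (∑ i, |(p : EuclideanSpace ℝ ι) i|) ^ 2 ≤
        N * ∑ i, |(p : EuclideanSpace ℝ ι) i| ^ 2 := by
      have h3 := sq_sum_le_card_mul_sum_sq (s := (Finset.univ : Finset ι))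
        (f := fun i => |(p : EuclideanSpace ℝ ι) i|)
      rwa [Finset.card_univ, hN] at h3
    have h4 : ∑ i, |(p : EuclideanSpace ℝ ι) i| ^ 2 = ‖p‖ ^ 2 := by
      have h5 : ‖p‖ = ‖(p : EuclideanSpace ℝ ι)‖ := rfl
      rw [h5, EuclideanSpace.norm_sq_eq]
      rfl
    rw [h4] at h2
    have hrN : (r : ℝ) ≤ N := by
      rw [hNd]
      push_cast
      have : (0 : ℝ) ≤ s := Nat.cast_nonneg s
      linarith
    calc (∑ i, |(p : EuclideanSpace ℝ ι) i|) ^ 2 ≤ N * ‖p‖ ^ 2 := h2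
      _ ≤ N * (r * ε ^ 2) := by gcongr
      _ ≤ N * (N * ε ^ 2) := by gcongr
      _ = 36 * (N : ℝ) ^ 3 * X ^ 2 := by
          rw [hε, mul_pow, mul_pow, Real.sq_sqrt hN0.le]
          ring
      _ ≤ 36 * (N : ℝ) ^ 4 * X ^ 2 := by
          have h5 : (N : ℝ) ^ 3 ≤ (N : ℝ) ^ 4 := pow_le_pow_right₀ hN1 (by norm_num)
          gcongr
      _ = (6 * (N : ℝ) ^ 2 * X) ^ 2 := by ring
  refine hfin.trans ?_
  have hXX : X ≤ (8 * (N : ℝ) / E) ^ ((s : ℝ) / r) := by
    rw [hX]
    refine Real.rpow_le_rpow h4N.le ?_ (by positivity)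
    gcongr
    norm_num
  gcongr

end Pool.Agent.SD
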