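import Mathlib
import Pool.Agent.Lib.MP_c95b3b_ag_SD.TpPig
import Pool.Agent.Lib.MP_c95b3b_ag_SD.TpDefs

set_option autoImplicit false

/-! Project SD (MP_c95b3b_ag), part T', module SM: integral polynomials which are small modulo a
polynomial. -/

namespace Pool.Agent.SD

open MvPolynomial

namespace TpSmall

/-- a family of natural numbers as an exponent -/
noncomputable def toE {k M : ℕ} (a : Fin k → Fin M) : Fin k →₀ ℕ :=
  Finsupp.equivFunOnFinite.symm fun i => (a i : ℕ)

theorem toE_apply {k M : ℕ} (a : Fin k → Fin M) (i : Fin k) : toE a i = a i := rfl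

theorem toE_inj {k M : ℕ} : Function.Injective (toE : (Fin k → Fin M) → (Fin k →₀ ℕ)) := by
  intro a b h
  funext i
  apply Fin.ext
  have := DFunLike.congr_fun h i
  simpa [toE_apply] using this

theorem toE_surj {k M : ℕ} (e : Fin k →₀ ℕ) (he : ∀ i, e i < M) :
    ∃ a : Fin k → Fin M, toE a = e :=
  ⟨fun i => ⟨e i, he i⟩, by ext i; rfl⟩

/-- the small box -/
noncomputable def sbox {k : ℕ} (m : Fin k → ℕ) : Finset (Fin k →₀ ℕ) :=
  (Fintype.piFinset fun i => Finset.range (m i)).map
    (Finsupp.equivFunOnFinite.symm : (Fin k → ℕ) ≃ (Fin k →₀ ℕ)).toEmbedding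

theorem mem_sbox {k : ℕ} (m : Fin k → ℕ) (e : Fin k →₀ ℕ) : e ∈ sbox m ↔ ∀ i, e i < m i := by
  simp only [sbox, Finset.mem_map, Fintype.mem_piFinset, Finset.mem_range,
    Equiv.coe_toEmbedding]
  constructor
  · rintro ⟨a, ha, rfl⟩ i
    simpa using ha i
  · intro h
    exact ⟨fun i => e i, h, by ext i; rfl⟩

theorem card_sbox {k : ℕ} (m : Fin k → ℕ) : (sbox m).card = ∏ i, m i := by
  simp [sbox]

theorem deg_iff {R : Type} [CommSemiring R] {k : ℕ} (p : MvPolynomial (Fin k) R) (i : Fin k)
    (B : ℕ) : degreeOf i p ≤ B ↔ ∀ e ∈ p.support, e i ≤ B := by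
  rw [degreeOf_le_iff]

theorem l1_le {k M : ℕ} (p : MvPolynomial (Fin k) ℝ) (hp : ∀ i, ∀ e ∈ p.support, e i < M) :
    l1 p = ∑ a : Fin k → Fin M, |p.coeff (toE a)| := by
  classical
  have h1 : ∑ a : Fin k → Fin M, |p.coeff (toE a)| =
      ∑ e ∈ (Finset.univ : Finset (Fin k → Fin M)).map ⟨toE, toE_inj⟩, |p.coeff e| := by
    rw [Finset.sum_map]
    rfl
  rw [h1, l1]
  refine Finset.sum_subset ?_ ?_
  · intro e he
    obtain ⟨a, ha⟩ := toE_surj e (fun i => hp i e he)
    exact Finset.mem_map.mpr ⟨a, Finset.mem_univ _, ha⟩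
  · intro e _ he
    rw [MvPolynomial.notMem_support_iff.mp he, abs_zero]

section
variable {k s : ℕ} (ψ : Fin s → (Fin k →₀ ℕ))

/-- the polynomial with coefficients `g` at the exponents `ψ` -/
noncomputable def P {R : Type} [CommSemiring R] (g : Fin s → R) : MvPolynomial (Fin k) R :=
  ∑ j, monomial (ψ j) (g j)

theorem coeff_P {R : Type} [CommSemiring R] (hψ : Function.Injective ψ) (g : Fin s → R)
    (j : Fin s) : (P ψ g).coeff (ψ j) = g j := by
  classical
  rw [P, coeff_sum, Finset.sum_eq_single j]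
  · rw [coeff_monomial, if_pos rfl]
  · intro b _ hb
    rw [coeff_monomial, if_neg (fun h => hb (hψ h))]
  · intro h
    exact absurd (Finset.mem_univ _) h

theorem coeff_P_ne {R : Type} [CommSemiring R] (g : Fin s → R) (e : Fin k →₀ ℕ)
    (he : ∀ j, ψ j ≠ e) : (P ψ g).coeff e = 0 := by
  classical
  rw [P, coeff_sum]
  refine Finset.sum_eq_zero fun j _ => ?_
  rw [coeff_monomial, if_neg (he j)]

theorem P_map (g : Fin s → ℤ) : P ψ (fun j => (g j : ℝ)) = toR (P ψ g) := by
  simp [P, toR, map_sum, MvPolynomial.map_monomial]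

theorem P_add {R : Type} [CommSemiring R] (g g' : Fin s → R) :
    P ψ (g + g') = P ψ g + P ψ g' := by
  simp only [P, Pi.add_apply, map_add, Finset.sum_add_distrib]

theorem P_smul (c : ℝ) (g : Fin s → ℝ) : P ψ (c • g) = c • P ψ g := by
  simp [P, Finset.smul_sum, smul_monomial]

/-- multiplication by `F` in coordinates -/
noncomputable def Phi (F : MvPolynomial (Fin k) ℝ) (M : ℕ) :
    (Fin s → ℝ) →ₗ[ℝ] ((Fin k → Fin M) → ℝ) where
  toFun g a := (F * P ψ g).coeff (toE a)
  map_add' g g' := by
    funext a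
    simp [P_add, mul_add]
  map_smul' c g := by
    funext a
    simp [P_smul]

theorem Phi_apply (F : MvPolynomial (Fin k) ℝ) (M : ℕ) (g : Fin s → ℝ) (a : Fin k → Fin M) :
    Phi ψ F M g a = (F * P ψ g).coeff (toE a) := rfl

theorem lead_P (hψ : ∀ j j' : Fin s, j < j' →
      (MonomialOrder.lex (σ := Fin k)).toSyn (ψ j) < (MonomialOrder.lex (σ := Fin k)).toSyn (ψ j'))
    (hinj : Function.Injective ψ) (g : Fin s → ℝ) (j : Fin s) (hj : g j ≠ 0)
    (h : ∀ j', j < j' → g j' = 0) :
    (MonomialOrder.lex (σ := Fin k)).leadingCoeff (P ψ g) = g j := by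
  classical
  have hdeg : (MonomialOrder.lex (σ := Fin k)).degree (P ψ g) = ψ j := by
    apply (MonomialOrder.lex (σ := Fin k)).toSyn.injective
    apply le_antisymm
    · rw [MonomialOrder.degree_le_iff]
      intro e he
      by_cases hex : ∃ j', ψ j' = e
      · obtain ⟨j', rfl⟩ := hex
        rw [mem_support_iff, coeff_P ψ hinj] at he
        have hle : j' ≤ j := by
          by_contra hlt
          exact he (h j' (not_le.mp hlt))
        rcases hle.lt_or_eq with h1 | h1
        · exact (hψ _ _ h1).le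
        · rw [h1]
      · push Not at hex
        exact absurd (coeff_P_ne ψ g e hex) (mem_support_iff.mp he)
    · apply MonomialOrder.le_degree
      rw [mem_support_iff, coeff_P ψ hinj]
      exact hj
  rw [MonomialOrder.leadingCoeff, hdeg, coeff_P ψ hinj]

end

end TpSmall

open TpSmall in
/-- `V` is not divisible by `F` but near a real multiple of `F` -/
theorem small_poly {k : ℕ} (F : MvPolynomial (Fin k) ℤ) (hF : 0 < dmax F) (E : ℝ)
    (hE : Real.log (8 * ((2 * dmax F + 1 : ℕ) : ℝ) ^ k) ≤ E)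
    (h : ∀ g : MvPolynomial (Fin k) ℝ, g ≠ 0 →
      Real.exp E * |(MonomialOrder.lex (σ := Fin k)).leadingCoeff g| ≤ l1 (toR F * g)) :
    ∃ (V : MvPolynomial (Fin k) ℤ) (g : MvPolynomial (Fin k) ℝ), ¬ F ∣ V ∧
      (∀ i, degreeOf i V ≤ 2 * dmax F) ∧ (∀ i, degreeOf i (toR V - toR F * g) ≤ 2 * dmax F) ∧
      l1 (toR V - toR F * g) ≤ Real.exp (Real.log 6 + 2 * k * Real.log (2 * dmax F + 1) +
        (Real.log (8 * ((2 * dmax F + 1 : ℕ) : ℝ) ^ k) - E) / 2 ^ k) := by
  classical
  set D := dmax F with hD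
  have hDi : ∀ i, degreeOf i F ≤ D := fun i =>
    Finset.le_sup (f := fun i => degreeOf i F) (Finset.mem_univ i)
  have hex : ∃ i, degreeOf i F = D := by
    by_contra hne
    push Not at hne
    have : ∀ i, degreeOf i F < D := fun i => lt_of_le_of_ne (hDi i) (hne i)
    have h2 : dmax F < D := by
      rw [dmax, Finset.sup_lt_iff (by simpa using hF)]
      exact fun i _ => this i
    omega
  have hF0 : F ≠ 0 := by
    rintro rfl
    have h0 : dmax (0 : MvPolynomial (Fin k) ℤ) ≤ 0 := by
      rw [dmax]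
      exact Finset.sup_le fun i _ => by simp
    omega
  -- the small box
  set m : Fin k → ℕ := fun i => 2 * D - degreeOf i F + 1 with hm
  set T : Finset (MonomialOrder.lex (σ := Fin k)).syn :=
    (sbox m).map (MonomialOrder.lex (σ := Fin k)).toSyn.toEquiv.toEmbedding with hT
  set s := T.card with hs
  have hscard : s = ∏ i, m i := by
    rw [hs, hT, Finset.card_map, card_sbox]
  set ψ : Fin s → (Fin k →₀ ℕ) := fun j =>
    (MonomialOrder.lex (σ := Fin k)).toSyn.symm (T.orderEmbOfFin hs.symm j) with hψ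
  have hψlt : ∀ j j' : Fin s, j < j' →
      (MonomialOrder.lex (σ := Fin k)).toSyn (ψ j) < (MonomialOrder.lex (σ := Fin k)).toSyn (ψ j') := by
    intro j j' hjj
    simp only [hψ, AddEquiv.apply_symm_apply]
    exact (T.orderEmbOfFin hs.symm).strictMono hjj
  have hinj : Function.Injective ψ := by
    intro j j' hjj
    simp only [hψ] at hjj
    exact (T.orderEmbOfFin hs.symm).injective
      ((MonomialOrder.lex (σ := Fin k)).toSyn.symm.injective hjj)
  have hψmem : ∀ j i, ψ j i < m i := by
    intro j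
    have h1 : T.orderEmbOfFin hs.symm j ∈ T := Finset.orderEmbOfFin_mem _ _ _
    obtain ⟨e, he, he'⟩ := Finset.mem_map.mp h1
    have : ψ j = e := by
      simp only [hψ, ← he']
      exact (MonomialOrder.lex (σ := Fin k)).toSyn.symm_apply_apply e
    rw [this]
    exact (mem_sbox m e).mp he
  have hψsurj : ∀ e : Fin k →₀ ℕ, (∀ i, e i < m i) → ∃ j, ψ j = e := by
    intro e he
    have h1 : (MonomialOrder.lex (σ := Fin k)).toSyn e ∈ T := by
      rw [hT, Finset.mem_map]
      exact ⟨e, (mem_sbox m e).mpr he, rfl⟩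
    have h2 : (MonomialOrder.lex (σ := Fin k)).toSyn e ∈ Set.range (T.orderEmbOfFin hs.symm) := by
      rw [Finset.range_orderEmbOfFin]
      exact h1
    obtain ⟨j, hj⟩ := h2
    refine ⟨j, ?_⟩
    simp only [hψ, hj]
    exact (MonomialOrder.lex (σ := Fin k)).toSyn.symm_apply_apply e
  -- the full box
  set M := 2 * D + 1 with hM
  have hsN : s < M ^ k := by
    rw [hscard]
    have : M ^ k = ∏ _i : Fin k, M := by simp
    rw [this]
    obtain ⟨i0, hi0⟩ := hex
    refine Finset.prod_lt_prod (fun i _ => ?_) (fun i _ => ?_) ⟨i0, Finset.mem_univ _, ?_⟩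
    · simp [hm]
    · simp only [hm, hM]
      omega
    · simp only [hm, hM, hi0]
      omega
  set r := M ^ k - s with hr
  have hr0 : 0 < r := by omega
  have hsr : s + r = M ^ k := by omega
  have hN : Fintype.card (Fin k → Fin M) = s + r := by
    rw [hsr]
    simp
  have hs2 : M ^ k ≤ 2 ^ k * s := by
    rw [hscard]
    have h1 : M ^ k = ∏ _i : Fin k, M := by simp
    have h2 : (2 : ℕ) ^ k = ∏ _i : Fin k, 2 := by simp
    rw [h1, h2, ← Finset.prod_mul_distrib]
    refine Finset.prod_le_prod (fun i _ => Nat.zero_le _) (fun i _ => ?_)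
    have := hDi i
    simp only [hm, hM]
    omega
  -- degrees of the products
  have hprod : ∀ g : Fin s → ℝ, ∀ i, ∀ e ∈ (toR F * P ψ g).support, e i < M := by
    intro g i e he
    have h1 : degreeOf i (toR F * P ψ g) ≤ 2 * D := by
      refine (degreeOf_mul_le i _ _).trans ?_
      have h2 : degreeOf i (toR F) ≤ degreeOf i F := by
        rw [degreeOf_le_iff]
        intro e' he'
        have : e' ∈ F.support := MvPolynomial.support_map_subset _ _ he'
        exact degreeOf_le_iff.mp le_rfl e' this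
      have h3 : degreeOf i (P ψ g) ≤ 2 * D - degreeOf i F := by
        rw [degreeOf_le_iff]
        intro e' he'
        by_cases hex' : ∃ j', ψ j' = e'
        · obtain ⟨j', rfl⟩ := hex'
          have := hψmem j' i
          simp only [hm] at this
          omega
        · push Not at hex'
          exact absurd (coeff_P_ne ψ g e' hex') (mem_support_iff.mp he')
      have := hDi i
      omega
    have := degreeOf_le_iff.mp h1 e he
    omega
  have hN0 : (0 : ℝ) < ((M : ℕ) : ℝ) ^ k := by positivity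
  have hEpos : 0 ≤ E := by
    refine le_trans (Real.log_nonneg ?_) hE
    have h1 : (1 : ℝ) ≤ ((M : ℕ) : ℝ) ^ k := by
      apply one_le_pow₀
      exact_mod_cast (by omega : 1 ≤ M)
    linarith
  obtain ⟨v, g, hv1, hv2⟩ := pigeon hr0 hN (Phi ψ (toR F) M) (by
      intro g a
      refine ⟨(F * P ψ g).coeff (toE a), ?_⟩
      rw [Phi_apply, P_map]
      have : toR F * toR (P ψ g) = toR (F * P ψ g) := by
        simp [toR]
      rw [this, toR, coeff_map]
      simp) (Real.exp E) (Real.one_le_exp hEpos) (by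
      intro j g hg
      by_cases hgj : g j = 0
      · rw [hgj, abs_zero, mul_zero]
        exact Finset.sum_nonneg fun _ _ => abs_nonneg _
      · have h1 := lead_P ψ hψlt hinj g j hgj hg
        have h2 : P ψ g ≠ 0 := by
          intro h0
          have := coeff_P ψ hinj g j
          rw [h0, coeff_zero] at this
          exact hgj this.symm
        have h3 := h _ h2
        rw [h1, l1_le (M := M) _ (hprod g)] at h3
        exact h3)
  -- the polynomial
  set V : MvPolynomial (Fin k) ℤ := ∑ a : Fin k → Fin M, monomial (toE a) (v a) with hV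
  have hVc : ∀ a, V.coeff (toE a) = v a := by
    intro a
    rw [hV, coeff_sum, Finset.sum_eq_single a]
    · rw [coeff_monomial, if_pos rfl]
    · intro b _ hb
      rw [coeff_monomial, if_neg (fun h => hb (toE_inj h))]
    · intro h
      exact absurd (Finset.mem_univ _) h
  have hVs : ∀ i, ∀ e ∈ V.support, e i < M := by
    intro i e he
    by_contra hlt
    apply mem_support_iff.mp he
    rw [hV, coeff_sum]
    refine Finset.sum_eq_zero fun a _ => ?_
    rw [coeff_monomial, if_neg]
    rintro rfl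
    exact hlt (a i).2
  have hVd : ∀ i, degreeOf i V ≤ 2 * D := by
    intro i
    rw [degreeOf_le_iff]
    intro e he
    have := hVs i e he
    omega
  have hdiff : ∀ i, ∀ e ∈ (toR V - toR F * P ψ g).support, e i < M := by
    intro i e he
    rcases Finset.mem_union.mp (MvPolynomial.support_sub (Fin k) _ _ he) with h1 | h1
    · exact hVs i e (MvPolynomial.support_map_subset _ _ h1)
    · exact hprod g i e h1
  refine ⟨V, P ψ g, ?_, hVd, ?_, ?_⟩
  · rintro ⟨G, hG⟩
    have hV0 : V ≠ 0 := by
      intro h0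
      apply hv1 0
      funext a
      have := hVc a
      rw [h0, coeff_zero] at this
      rw [← this]
      have h2 : (fun j => (((0 : Fin s → ℤ) j : ℤ) : ℝ)) = (0 : Fin s → ℝ) := by
        funext j
        simp
      rw [h2, map_zero]
      simp
    have hG0 : G ≠ 0 := by
      rintro rfl
      rw [mul_zero] at hG
      exact hV0 hG
    have hGd : ∀ i, ∀ e ∈ G.support, e i < m i := by
      intro i e he
      have h1 : degreeOf i V = degreeOf i F + degreeOf i G := by
        rw [hG, degreeOf_mul_eq hF0 hG0]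
      have h2 := hVd i
      have h3 := degreeOf_le_iff.mp (le_refl (degreeOf i G)) e he
      simp only [hm]
      omega
    apply hv1 (fun j => G.coeff (ψ j))
    funext a
    have hGP : P ψ (fun j => G.coeff (ψ j)) = G := by
      ext e
      by_cases hex' : ∃ j', ψ j' = e
      · obtain ⟨j', rfl⟩ := hex'
        rw [coeff_P ψ hinj]
      · push Not at hex'
        rw [coeff_P_ne ψ _ e hex']
        symm
        by_contra hne
        obtain ⟨j, hj⟩ := hψsurj e (fun i => hGd i e (mem_support_iff.mpr hne))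
        exact hex' j hj
    rw [Phi_apply, P_map, hGP]
    have : toR F * toR G = toR V := by
      rw [hG]
      simp [toR]
    rw [this, toR, coeff_map, hVc]
    simp
  · intro i
    rw [degreeOf_le_iff]
    intro e he
    have := hdiff i e he
    omega
  · rw [l1_le (M := M) _ hdiff]
    have h1 : ∑ a : Fin k → Fin M, |(toR V - toR F * P ψ g).coeff (toE a)| =
        ∑ a : Fin k → Fin M, |(v a : ℝ) - Phi ψ (toR F) M g a| := by
      refine Finset.sum_congr rfl fun a _ => ?_
      rw [coeff_sub, Phi_apply]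
      have : (toR V).coeff (toE a) = (v a : ℝ) := by
        rw [toR, coeff_map, hVc]
        simp
      rw [this]
    rw [h1]
    refine hv2.trans ?_
    rw [hsr]
    have hNc : ((M ^ k : ℕ) : ℝ) = ((M : ℕ) : ℝ) ^ k := by push_cast; ring
    rw [hNc]
    have h8 : (0 : ℝ) < 8 * ((M : ℕ) : ℝ) ^ k := by positivity
    rw [Real.exp_add, Real.exp_add, Real.exp_log (by norm_num : (0 : ℝ) < 6)]
    have hMr : (2 * (D : ℝ) + 1) = ((M : ℕ) : ℝ) := by
      rw [hM]
      push_cast
      ring
    have hsq : (((M : ℕ) : ℝ) ^ k) ^ 2 = Real.exp (2 * k * Real.log (2 * (D : ℝ) + 1)) := by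
      rw [hMr]
      have hM0 : (0 : ℝ) < ((M : ℕ) : ℝ) := by
        exact_mod_cast (by omega : 0 < M)
      have : (2 * (k : ℝ) * Real.log ((M : ℕ) : ℝ)) = ((k * 2 : ℕ) : ℝ) * Real.log ((M : ℕ) : ℝ) := by
        push_cast
        ring
      rw [this, Real.exp_nat_mul, Real.exp_log hM0, pow_mul]
    rw [← hsq]
    refine mul_le_mul_of_nonneg_left ?_ (by positivity)
    have hlog : 8 * ((M : ℕ) : ℝ) ^ k / Real.exp E =
        Real.exp (Real.log (8 * ((M : ℕ) : ℝ) ^ k) - E) := by
      rw [Real.exp_sub, Real.exp_log h8]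
    rw [hlog, ← Real.exp_mul]
    apply Real.exp_le_exp.mpr
    have hneg : Real.log (8 * ((M : ℕ) : ℝ) ^ k) - E ≤ 0 := by linarith
    have hrat : (1 : ℝ) / 2 ^ k ≤ (s : ℝ) / r := by
      rw [div_le_div_iff₀ (by positivity) (by exact_mod_cast hr0)]
      have h5 : r ≤ s * 2 ^ k := by
        have : r ≤ M ^ k := by omega
        calc r ≤ M ^ k := this
          _ ≤ 2 ^ k * s := hs2
          _ = s * 2 ^ k := by ring
      have : ((r : ℕ) : ℝ) ≤ ((s * 2 ^ k : ℕ) : ℝ) := by exact_mod_cast h5
      push_cast at this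
      linarith
    calc (Real.log (8 * ((M : ℕ) : ℝ) ^ k) - E) * ((s : ℝ) / r)
        ≤ (Real.log (8 * ((M : ℕ) : ℝ) ^ k) - E) * (1 / 2 ^ k) :=
          mul_le_mul_of_nonpos_left hrat hneg
      _ = (Real.log (8 * ((M : ℕ) : ℝ) ^ k) - E) / 2 ^ k := by ring

end Pool.Agent.SD
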