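import Mathlib
import Pool.Agent.Lib.MP_c95b3b_ag_SD.TpRoots
import Pool.Agent.Lib.MP_c95b3b_ag_SD.TpNorm
import Pool.Agent.Lib.MP_c95b3b_ag_SD.TpSmall
import Pool.Agent.Lib.MP_c95b3b_ag_SD.TpPF
import Pool.Agent.Lib.MP_c95b3b_ag_SD.TpElim
import Pool.Agent.Lib.MP_c95b3b_ag_SD.AdRel

set_option autoImplicit false

/-! Project SD (MP_c95b3b_ag), part T', module CR: the bounded case, forms of full rank. -/

namespace Pool.Agent.SD

open MvPolynomial Filter Topology Module Pool.Agent.L3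

namespace TpCore

/-- `log (2 D + 1) ≤ 2 D` -/
theorem log_le (D : ℕ) : Real.log (2 * D + 1) ≤ 2 * D := by
  have h : (0 : ℝ) < 2 * D + 1 := by positivity
  have := Real.log_le_sub_one_of_pos h
  linarith

theorem log_eight (k D : ℕ) (hD : 0 < D) :
    Real.log (8 * ((2 * D + 1 : ℕ) : ℝ) ^ k) ≤ (7 + 2 * k) * D := by
  have h1 : (0 : ℝ) < 2 * D + 1 := by positivity
  have h2 : (1 : ℝ) ≤ D := by exact_mod_cast hD
  push_cast
  rw [Real.log_mul (by norm_num) (pow_ne_zero _ h1.ne'), Real.log_pow]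
  have h3 : Real.log 8 ≤ 8 - 1 := Real.log_le_sub_one_of_pos (by norm_num)
  have h4 : (k : ℝ) * Real.log (2 * D + 1) ≤ k * (2 * D) :=
    mul_le_mul_of_nonneg_left (log_le D) (Nat.cast_nonneg k)
  nlinarith

theorem log_eight_nonneg (k D : ℕ) : 0 ≤ Real.log (8 * ((2 * D + 1 : ℕ) : ℝ) ^ k) := by
  apply Real.log_nonneg
  have h1 : (1 : ℝ) ≤ ((2 * D + 1 : ℕ) : ℝ) := by
    push_cast
    have : (0 : ℝ) ≤ D := Nat.cast_nonneg D
    linarith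
  have h2 : (1 : ℝ) ≤ ((2 * D + 1 : ℕ) : ℝ) ^ k := one_le_pow₀ h1
  linarith

/-- the bound for the exponent -/
theorem exp_bound (k D : ℕ) (hD : 0 < D) (E : ℝ) :
    Real.log 6 + 2 * k * Real.log (2 * D + 1) +
      (Real.log (8 * ((2 * D + 1 : ℕ) : ℝ) ^ k) - E) / 2 ^ k ≤
      (12 + 6 * k) * D - E / 2 ^ k := by
  have h1 : (1 : ℝ) ≤ D := by exact_mod_cast hD
  have h2 : Real.log 6 ≤ 6 - 1 := Real.log_le_sub_one_of_pos (by norm_num)
  have h3 : 2 * (k : ℝ) * Real.log (2 * D + 1) ≤ 2 * k * (2 * D) :=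
    mul_le_mul_of_nonneg_left (log_le D) (by positivity)
  have h4 : Real.log (8 * ((2 * D + 1 : ℕ) : ℝ) ^ k) / 2 ^ k ≤ (7 + 2 * k) * D := by
    have h5 : (1 : ℝ) ≤ 2 ^ k := one_le_pow₀ (by norm_num)
    exact (div_le_self (log_eight_nonneg k D) h5).trans (log_eight k D hD)
  rw [sub_div]
  nlinarith

/-- the height of a rounded multiple of a vector of height tending to zero -/
theorem ht_round {n : ℕ} {𝓤 : Ultrafilter ℕ} {S : Sq n} {B : ℝ}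
    (hB : ∀ i, ∀ᶠ ν in (𝓤 : Filter ℕ), S.ht (rv (Pi.single i 1)) ν ≤ B) {b : Fin n → ℝ}
    (hb : Tendsto (S.ht b) 𝓤 (𝓝 0)) (M : ℕ) (γ : Fin n → ℤ)
    (hγ : ∀ l, |(γ l : ℝ) - M * b l| ≤ 1) :
    ∀ᶠ ν in (𝓤 : Filter ℕ), S.ht (rv γ) ν ≤ 1 + n * |B| := by
  have h1 : Tendsto (fun ν => (M : ℝ) * S.ht b ν) 𝓤 (𝓝 0) := by
    have := hb.const_mul (M : ℝ)
    rwa [mul_zero] at this
  have h2 : ∀ᶠ ν in (𝓤 : Filter ℕ), (M : ℝ) * S.ht b ν < 1 :=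
    h1.eventually (Iio_mem_nhds (zero_lt_one : (0 : ℝ) < 1))
  have h3 : ∀ᶠ ν in (𝓤 : Filter ℕ), ∀ i, S.ht (rv (Pi.single i 1)) ν ≤ B := eventually_all.2 hB
  filter_upwards [h2, h3] with ν h2 h3
  have e : rv γ = (M : ℝ) • b + (rv γ - (M : ℝ) • b) := (add_sub_cancel _ _).symm
  have h4 : S.ht ((M : ℝ) • b) ν = M * S.ht b ν := by
    rw [ht_smul, abs_of_nonneg (Nat.cast_nonneg M)]
  have h5 : S.ht (rv γ - (M : ℝ) • b) ν ≤ n * |B| := by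
    refine (ht_le S _ ν).trans ?_
    calc ∑ i, |(rv γ - (M : ℝ) • b) i| * S.ht (rv (Pi.single i 1)) ν
        ≤ ∑ _i : Fin n, 1 * |B| := Finset.sum_le_sum fun i _ =>
          mul_le_mul (hγ i) ((h3 i).trans (le_abs_self B)) (ht_nonneg S _ ν) zero_le_one
      _ = n * |B| := by
        rw [Finset.sum_const, Finset.card_univ, Fintype.card_fin, nsmul_eq_mul, one_mul]
  have h6 : S.ht (rv γ) ν ≤ S.ht ((M : ℝ) • b) ν + S.ht (rv γ - (M : ℝ) • b) ν := by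
    have := ht_add_le S ((M : ℝ) • b) (rv γ - (M : ℝ) • b) ν
    rwa [← e] at this
  linarith

/-- more forms than the dimension are dependent -/
theorem dep {L : Type} [Field L] [CharZero L] [Algebra ℂ L] {n : ℕ} (x : Fin n → L)
    (γ : Fin (dm x + 1) → Fin n → ℤ) : ¬ LinearIndependent L (fun j => om x (rv (γ j))) := by
  intro h
  have := finite_span_om x Set.univ
  have h1 : Submodule.span L (Set.range (fun j => om x (rv (γ j)))) ≤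
      Submodule.span L (om x '' Set.univ) := by
    apply Submodule.span_mono
    rintro _ ⟨j, rfl⟩
    exact ⟨_, trivial, rfl⟩
  have h2 := Submodule.finrank_mono h1
  rw [finrank_span_eq_card h, Fintype.card_fin] at h2
  have h3 : finrank L (Submodule.span L (om x '' Set.univ)) = dm x := rfl
  omega

end TpCore

open TpCore

theorem tp_core {L : Type} [Field L] [CharZero L] [Algebra ℂ L] {n : ℕ} {𝓤 : Ultrafilter ℕ}
    {S : Sq n} {x : Fin n → L} (hx : ∀ i, x i ≠ 0) (hAD : AD x) (hG : Gn 𝓤 S x) (B : ℝ)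
    (hB : ∀ i, ∀ᶠ ν in (𝓤 : Filter ℕ), S.ht (rv (Pi.single i 1)) ν ≤ B)
    (hcos : ∀ a : Fin n → ℤ, a ≠ 0 → om x (rv a) ≠ 0) (V : Submodule ℝ (Fin n → ℝ))
    (hV : finrank ℝ V = dm x + 1) (hr : rk x (V : Set (Fin n → ℝ)) = dm x)
    (h0 : ∀ b ∈ V, Tendsto (S.ht b) 𝓤 (𝓝 0)) : False := by
  classical
  obtain ⟨b, c, M0, hbV, hc, hfar⟩ := far_roots hx hAD hcos V hV hr
  obtain ⟨M1, hM1⟩ := exists_nat_gt ((2 : ℝ) ^ (dm x + 1) *
    (12 + 6 * ((dm x + 1 : ℕ) : ℝ) + 2 * ((dm x + 1 : ℕ) : ℝ) * (1 + n * |B|)) / c)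
  obtain ⟨M, hM⟩ : ∃ M, M = max M0 M1 := ⟨_, rfl⟩
  have hMM0 : M0 ≤ M := hM ▸ le_max_left _ _
  have hMM1 : (M1 : ℝ) ≤ M := by exact_mod_cast (hM ▸ le_max_right _ _ : M1 ≤ M)
  have hMc : (2 : ℝ) ^ (dm x + 1) *
      (12 + 6 * ((dm x + 1 : ℕ) : ℝ) + 2 * ((dm x + 1 : ℕ) : ℝ) * (1 + n * |B|)) < c * M := by
    have h1 := hM1.trans_le hMM1
    rw [div_lt_iff₀ hc] at h1
    linarith
  obtain ⟨γ, hγe⟩ : ∃ γ : Fin (dm x + 1) → Fin n → ℤ, γ = fun i l => round ((M : ℝ) * b i l) :=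
    ⟨_, rfl⟩
  have hγ : ∀ i l, |(γ i l : ℝ) - M * b i l| ≤ 1 := by
    intro i l
    rw [hγe, abs_sub_comm]
    exact (abs_sub_round _).trans (by norm_num)
  obtain ⟨hli, hroots⟩ := hfar M hMM0 γ hγ
  have hy : ∀ G : MvPolynomial (Fin (dm x)) ℤ,
      aeval (fun j => mm γ x (Fin.succ j)) G = 0 → G = 0 := fun G hG' =>
    int_ind hx (α := fun j => γ (Fin.succ j)) hli G hG'
  obtain ⟨F, hF⟩ := exists_gtor (mm γ x) hy (int_rel hx hAD (dep x γ))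
  have hD0 : 0 < degreeOf 0 F := Gtor.deg_pos hF hy
  have hD : 0 < dmax F :=
    hD0.trans_le (Finset.le_sup (f := fun i => degreeOf i F) (Finset.mem_univ 0))
  have hDr : (0 : ℝ) < dmax F := by exact_mod_cast hD
  have hk2 : (1 : ℝ) ≤ 2 ^ (dm x + 1) := one_le_pow₀ (by norm_num)
  have hkn : (0 : ℝ) ≤ ((dm x + 1 : ℕ) : ℝ) := Nat.cast_nonneg _
  have hnB : (0 : ℝ) ≤ n * |B| := by positivity
  have hEle : Real.log (8 * ((2 * dmax F + 1 : ℕ) : ℝ) ^ (dm x + 1)) ≤ c * M * dmax F := by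
    refine (log_eight (dm x + 1) (dmax F) hD).trans ?_
    refine mul_le_mul_of_nonneg_right ?_ hDr.le
    have h1 : 7 + 2 * ((dm x + 1 : ℕ) : ℝ) ≤
        12 + 6 * ((dm x + 1 : ℕ) : ℝ) + 2 * ((dm x + 1 : ℕ) : ℝ) * (1 + n * |B|) := by
      have h2 : 0 ≤ 2 * ((dm x + 1 : ℕ) : ℝ) * (1 + n * |B|) := by positivity
      linarith
    have h3 : (0 : ℝ) ≤
        12 + 6 * ((dm x + 1 : ℕ) : ℝ) + 2 * ((dm x + 1 : ℕ) : ℝ) * (1 + n * |B|) := by positivity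
    have h4 := le_mul_of_one_le_left h3 hk2
    linarith
  obtain ⟨W, g, hW1, hW2, hW3, hW4⟩ := small_poly F hD (c * M * dmax F) hEle
    (fun g hg => norm_lower F hF.ne _ (Real.exp_pos _) (fun θ hθ => hroots F hF θ hθ) g hg)
  have hW0 : aeval (mm γ x) W ≠ 0 := fun h => hW1 (hF.dvd W h)
  have h3 := pf_step hx hG γ F W hF.zero hW0 g (2 * dmax F) hW2 hW3 _ hW4
  have h4 : ∀ᶠ ν in (𝓤 : Filter ℕ), ∀ i, S.ht (rv (γ i)) ν ≤ 1 + n * |B| :=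
    eventually_all.2 fun i => ht_round hB (h0 (b i) (hbV i)) M (γ i) (hγ i)
  obtain ⟨ν, h5, h6⟩ := (h3.and h4).exists
  have h7 := exp_bound (dm x + 1) (dmax F) hD (c * M * dmax F)
  have h8 : ∑ i, S.ht (rv (γ i)) ν ≤ ((dm x + 1 : ℕ) : ℝ) * (1 + n * |B|) := by
    calc ∑ i, S.ht (rv (γ i)) ν ≤ ∑ _i : Fin (dm x + 1), (1 + n * |B|) :=
          Finset.sum_le_sum fun i _ => h6 i
      _ = ((dm x + 1 : ℕ) : ℝ) * (1 + n * |B|) := by
        rw [Finset.sum_const, Finset.card_univ, Fintype.card_fin, nsmul_eq_mul]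
  have h9 : ((2 * dmax F : ℕ) : ℝ) * ∑ i, S.ht (rv (γ i)) ν ≤
      (2 * dmax F) * (((dm x + 1 : ℕ) : ℝ) * (1 + n * |B|)) := by
    push_cast at h8 ⊢
    exact mul_le_mul_of_nonneg_left h8 (by positivity)
  have h10 : c * M * dmax F / 2 ^ (dm x + 1) ≤
      (12 + 6 * ((dm x + 1 : ℕ) : ℝ) + 2 * ((dm x + 1 : ℕ) : ℝ) * (1 + n * |B|)) * dmax F := by
    linarith
  rw [div_le_iff₀ (by positivity)] at h10
  have h11 := mul_lt_mul_of_pos_right hMc hDr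
  linarith

end Pool.Agent.SD
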