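import Mathlib
import Pool.Agent.Lib.MP_c95b3b_ag_SD.TpCore
import Pool.Agent.Lib.MP_c95b3b_ag_SD.LinAx
import Pool.Agent.Lib.MP_c95b3b_ag_SD.Map
import Pool.Agent.Lib.MP_c95b3b_ag_SD.RelMap

set_option autoImplicit false

/-! Project SD (MP_c95b3b_ag), part T', module MA: the bounded case without the circle
condition. -/

namespace Pool.Agent.SD

open MvPolynomial Filter Topology Module Pool.Agent.L3

namespace TpMain

section
variable {L : Type} [Field L] [Algebra ℂ L]

/-- exponents whose forms are independent are independent -/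
theorem li_of_om {n r : ℕ} {x : Fin n → L} {v : Fin r → Fin n → ℝ}
    (h : LinearIndependent L (fun i => om x (v i))) : LinearIndependent ℝ v := by
  rw [Fintype.linearIndependent_iff] at h ⊢
  intro c hc i
  have h1 : ∑ j, algebraMap ℂ L (c j : ℂ) • om x (v j) = 0 := by
    have h2 : om x (∑ j, c j • v j) = ∑ j, om x (c j • v j) := Map.om_sum x Finset.univ _
    rw [hc, om_zero] at h2
    rw [h2]
    exact Finset.sum_congr rfl fun j _ => (om_smul x (c j) (v j)).symm
  have h3 := h _ h1 i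
  have h4 : (c i : ℂ) = 0 := (map_eq_zero_iff _ (algebraMap ℂ L).injective).1 h3
  exact_mod_cast h4

/-- a subspace of dimension `dim + 1` with the full rank -/
theorem exists_sub {n : ℕ} (x : Fin n → L) (V : Submodule ℝ (Fin n → ℝ))
    (hV : dm x + 1 ≤ finrank ℝ V) (hr : rk x (V : Set (Fin n → ℝ)) = dm x) :
    ∃ V1 : Submodule ℝ (Fin n → ℝ), V1 ≤ V ∧ finrank ℝ V1 = dm x + 1 ∧
      rk x (V1 : Set (Fin n → ℝ)) = dm x := by
  have hfin := finite_span_om x (V : Set (Fin n → ℝ))
  obtain ⟨f, hf1, hf2, hf3⟩ := Submodule.exists_fun_fin_finrank_span_eq L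
    (om x '' (V : Set (Fin n → ℝ)))
  have h6 : finrank L (Submodule.span L (om x '' (V : Set (Fin n → ℝ)))) = dm x := hr
  have h7 : ∀ j : Fin (dm x), ∃ u ∈ V, om x u = f (Fin.cast h6.symm j) := by
    intro j
    obtain ⟨u, hu, h⟩ := hf1 (Fin.cast h6.symm j)
    exact ⟨u, hu, h⟩
  choose w hwV hw using h7
  have hliL : LinearIndependent L (fun i => om x (w i)) := by
    simp only [hw]
    exact hf3.comp _ (Fin.cast_injective _)
  have hli : LinearIndependent ℝ w := li_of_om hliL
  have hnot : ∃ v ∈ V, v ∉ Submodule.span ℝ (Set.range w) := by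
    by_contra hcon
    push Not at hcon
    have h8 : V ≤ Submodule.span ℝ (Set.range w) := fun v hv => hcon v hv
    have h9 := Submodule.finrank_mono h8
    rw [finrank_span_eq_card hli, Fintype.card_fin] at h9
    omega
  obtain ⟨v, hvV, hv⟩ := hnot
  have hli2 : LinearIndependent ℝ (Fin.cons v w : Fin (dm x + 1) → Fin n → ℝ) :=
    linearIndependent_finCons.2 ⟨hli, hv⟩
  refine ⟨Submodule.span ℝ (Set.range (Fin.cons v w : Fin (dm x + 1) → Fin n → ℝ)), ?_, ?_, ?_⟩
  · rw [Submodule.span_le]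
    rintro _ ⟨i, rfl⟩
    refine Fin.cases ?_ (fun j => ?_) i
    · exact hvV
    · exact hwV j
  · rw [finrank_span_eq_card hli2, Fintype.card_fin]
  · refine le_antisymm (rk_le_dm x _) ?_
    have hfin2 := finite_span_om x ((Submodule.span ℝ
      (Set.range (Fin.cons v w : Fin (dm x + 1) → Fin n → ℝ)) : Submodule ℝ (Fin n → ℝ)) :
      Set (Fin n → ℝ))
    have h10 : Submodule.span L (Set.range fun i => om x (w i)) ≤
        Submodule.span L (om x '' ((Submodule.span ℝ
          (Set.range (Fin.cons v w : Fin (dm x + 1) → Fin n → ℝ)) : Submodule ℝ (Fin n → ℝ)) :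
          Set (Fin n → ℝ))) := by
      rw [Submodule.span_le]
      rintro _ ⟨i, rfl⟩
      refine Submodule.subset_span ⟨w i, Submodule.subset_span ⟨i.succ, ?_⟩, rfl⟩
      rw [Fin.cons_succ]
    have h11 := Submodule.finrank_mono h10
    rw [finrank_span_eq_card hliL, Fintype.card_fin] at h11
    exact h11

end

theorem aux {L : Type} [Field L] [CharZero L] [Algebra ℂ L] {𝓤 : Ultrafilter ℕ} :
    ∀ (N n : ℕ), n ≤ N → ∀ {S : Sq n} {x : Fin n → L}, (∀ i, x i ≠ 0) → AD x → Gn 𝓤 S x →
    ∀ B : ℝ, (∀ i, ∀ᶠ ν in (𝓤 : Filter ℕ), S.ht (rv (Pi.single i 1)) ν ≤ B) →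
    (∀ a : Fin n → ℤ, a ≠ 0 → om x (rv a) ≠ 0) → ∀ V : Submodule ℝ (Fin n → ℝ),
    dm x + 1 ≤ finrank ℝ V → (∀ b ∈ V, Tendsto (S.ht b) 𝓤 (𝓝 0)) → False := by
  intro N
  induction N with
  | zero =>
    intro n hn S x _ _ _ _ _ _ V hV _
    obtain rfl : n = 0 := Nat.le_zero.1 hn
    have h1 := Submodule.finrank_le V
    rw [Module.finrank_fin_fun] at h1
    omega
  | succ N ih =>
    intro n hn S x hx hAD hG B hB hcos V hV h0
    by_cases hr : rk x (V : Set (Fin n → ℝ)) = dm x
    · obtain ⟨V1, hle, hf, hr1⟩ := exists_sub x V hV hr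
      exact tp_core hx hAD hG B hB hcos V1 hf hr1 fun b hb => h0 b (hle hb)
    · have hlt : rk x (V : Set (Fin n → ℝ)) < dm x := lt_of_le_of_ne (rk_le_dm x _) hr
      obtain ⟨Λ, hFull, _, hΛV, hAx⟩ := lin_ax x hx V
      have hrle : rkZ x Λ ≤ rk x (V : Set (Fin n → ℝ)) := by
        have := finite_span_om x (V : Set (Fin n → ℝ))
        refine Submodule.finrank_mono (Submodule.span_le.2 ?_)
        rintro _ ⟨_, ⟨a, ha, rfl⟩, rfl⟩
        exact hΛV a ha
      have hfin : rkZ x Λ + 2 ≤ finrank ℝ (V ⊓ Submodule.span ℝ (rv '' (Λ : Set (Fin n → ℤ))) :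
          Submodule ℝ (Fin n → ℝ)) := by
        omega
      obtain ⟨β, hβ, hΛ, hspan⟩ := exists_basis Λ
      rw [hspan] at hfin
      have hdm' : dm (mm β x) = rkZ x Λ := by
        rw [← rkZ_top, rkZ_mm hx β ⊤ Λ]
        intro a
        rw [hΛ]
        simp
      have hmn : finrank ℤ Λ ≤ N := by
        have h1 : finrank ℤ Λ ≤ n := by
          have := Submodule.finrank_le Λ
          rwa [Module.finrank_fin_fun] at this
        have h2 : finrank ℤ Λ ≠ n := by
          intro h
          have h3 := hFull.eq_top_of_finrank h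
          rw [h3, rkZ_top] at hrle
          omega
        omega
      have hB' : ∀ l, ∀ᶠ ν in (𝓤 : Filter ℕ), (S.map β).ht (rv (Pi.single l 1)) ν ≤
          ∑ l, ∑ i, |cmbR β (rv (Pi.single l 1)) i| * |B| := by
        intro l
        filter_upwards [eventually_all.2 hB] with ν hν
        rw [map_ht]
        refine (ht_le S _ ν).trans ?_
        have h1 : ∑ i, |cmbR β (rv (Pi.single l 1)) i| * S.ht (rv (Pi.single i 1)) ν ≤
            ∑ i, |cmbR β (rv (Pi.single l 1)) i| * |B| :=
          Finset.sum_le_sum fun i _ => mul_le_mul_of_nonneg_left ((hν i).trans (le_abs_self B))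
            (abs_nonneg _)
        refine h1.trans ?_
        exact Finset.single_le_sum
          (f := fun l => ∑ i, |cmbR β (rv (Pi.single l 1)) i| * |B|)
          (fun l _ => Finset.sum_nonneg fun i _ => mul_nonneg (abs_nonneg _) (abs_nonneg _))
          (Finset.mem_univ l)
      have hfV : finrank ℝ (V.comap (cmbL β)) =
          finrank ℝ (V ⊓ LinearMap.range (cmbL β) : Submodule ℝ (Fin n → ℝ)) := by
        rw [inf_comm, ← Submodule.map_comap_eq]
        exact (LinearEquiv.finrank_eq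
          (Submodule.equivMapOfInjective (cmbL β) (cmbL_injective hβ) _))
      refine ih (finrank ℤ Λ) hmn (S := S.map β) (x := mm β x) (mm_ne_zero hx β)
        (hAD.map hx β) (hG.map hx β) _ hB' (hcos_map hx hcos hβ) (V.comap (cmbL β)) ?_ ?_
      · rw [hdm', hfV]
        omega
      · intro b hb
        have h1 : (S.map β).ht b = S.ht (cmbR β b) := funext fun ν => map_ht S β b ν
        rw [h1]
        exact h0 _ hb

end TpMain

/-- theorem (T'): a generic sequence of points of bounded height, `dim + 1` independent real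
characters whose heights tend to zero -/
theorem t_prime {L : Type} [Field L] [CharZero L] [Algebra ℂ L] {n : ℕ} {𝓤 : Ultrafilter ℕ}
    {S : Sq n} {x : Fin n → L} (hx : ∀ i, x i ≠ 0) (hAD : AD x) (hG : Gn 𝓤 S x) (B : ℝ)
    (hB : ∀ i, ∀ᶠ ν in (𝓤 : Filter ℕ), S.ht (rv (Pi.single i 1)) ν ≤ B)
    (hcos : ∀ a : Fin n → ℤ, a ≠ 0 → om x (rv a) ≠ 0) (V : Submodule ℝ (Fin n → ℝ))
    (hV : dm x + 1 ≤ finrank ℝ V) (h0 : ∀ b ∈ V, Tendsto (S.ht b) 𝓤 (𝓝 0)) : False :=
  TpMain.aux n n le_rfl hx hAD hG B hB hcos V hV h0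

end Pool.Agent.SD
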